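import Pool.Agent.Lib.MP_d9bae3_nt.NG.BadG

/-!
# Module NBD-BBadS: almost all tuples are rich, for a part of the levels

A copy of `bad_G` (NG/BadG.lean).  The proof of `bad_G` uses of `hlev` only the fields `two`, `dvd`, `root`, `gen` (in `bg_stab`); the representation `rep` of the elements of `V n` is not used.  So it holds for any finite family of levels.  Copy NG/BadG.lean, with the four hypotheses instead of `hlev`.
-/

set_option linter.unusedSectionVars false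

namespace StarkR

open NumberField IsDedekindDomain Filter Topology
open scoped Pointwise

variable {F L : Type} [Field F] [NumberField F] [Field L] [NumberField L] [Algebra F L]
variable {ι : Type} [Fintype ι] {K : ι → Type} [∀ i, Field (K i)] [∀ i, NumberField (K i)]
variable [∀ i, Algebra F (K i)] [∀ i, Algebra (K i) L] [∀ i, IsScalarTower F (K i) L]
variable {e : ℕ} {ζ : L} {d : ι → ℕ} {z : (i : ι) → K i}
variable {S : Finset (Prm F)} {SL : Finset (Prm L)} {SK : (i : ι) → Finset (Prm (K i))} {g : (i : ι) → Ideal (𝓞 (K i)) → 𝓞 (K i)}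

private theorem bbs_over (i : ι) (q : Prm (K i)) (τ : Gal(K i/F)) : (cjP τ q).under (𝓞 F) = q.under (𝓞 F) := cjP_under τ q

/-- The conjugates of the primes below a prime with `PPL` have `PP`. -/
private theorem bbs_pp (hSS : IsSS (F := F) e S SL SK) {Q : Prm L} (hQ : PPL F e SL Q) (i : ι) (τ : Gal(K i/F)) :
    PP e (SK i) (cjP τ (Q.under (𝓞 (K i)))) := by
  have hQS : Q ∉ SL := hQ.1.1
  refine ⟨fun h => hQS ?_, fun x hx => ?_⟩
  · rw [hSS.memL]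
    have h1 := (hSS.memK i _).1 h
    rwa [cjP_under, under_under F] at h1
  · -- the conjugate `τ⁻¹ x` is a unit outside `SK i`
    set x' : 𝓞 (K i) := τ⁻¹ • x with hx'
    have hxx : τ • x' = x := smul_inv_smul τ x
    have hu : IsSU SL (algebraMap (𝓞 (K i)) (𝓞 L) x') := by
      refine ⟨?_, fun Q' hQ' h => ?_⟩
      · rw [Ne, FaithfulSMul.algebraMap_eq_zero_iff]
        intro h0
        apply hx.1
        rw [← hxx, h0, smul_zero]
      · have h1 : x' ∈ (Q'.under (𝓞 (K i))).asIdeal := h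
        have h2 : x ∈ (cjP τ (Q'.under (𝓞 (K i)))).asIdeal := by
          rw [← hxx, smul_mem_cjP]
          exact h1
        refine hx.2 _ (fun h3 => hQ' ?_) h2
        rw [hSS.memL]
        have h4 := (hSS.memK i _).1 h3
        rwa [cjP_under, under_under F] at h4
    obtain ⟨y, hy⟩ := hQ.1.2 _ hu
    -- `𝓞 K / (Q ∩ K) → 𝓞 L / Q` is onto
    obtain ⟨y', hy'⟩ : ∃ y' : 𝓞 (K i), algebraMap (𝓞 (K i)) (𝓞 L) y' - y ∈ Q.asIdeal := by
      have hfin : Finite (𝓞 L ⧸ Q.asIdeal) := finQ Q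
      have hinj : Function.Injective (Ideal.quotientMap Q.asIdeal (algebraMap (𝓞 (K i)) (𝓞 L)) le_rfl) :=
        Ideal.quotientMap_injective
      have hcard : Nat.card (𝓞 L ⧸ Q.asIdeal) ≤ Nat.card (𝓞 (K i) ⧸ Q.asIdeal.comap (algebraMap (𝓞 (K i)) (𝓞 L))) := by
        have h1 : Nat.card (𝓞 (K i) ⧸ (Q.under (𝓞 (K i))).asIdeal) = nm (Q.under (𝓞 (K i))) := card_Q _
        have h2 : nm (Q.under (𝓞 (K i))) = nm Q := nm_under_of_prime (K i) hQ.2.1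
        rw [card_Q Q, ← h2, ← h1]
        exact le_refl _
      obtain ⟨r, hr⟩ := (hinj.bijective_of_nat_card_le hcard).2 (Ideal.Quotient.mk Q.asIdeal y)
      obtain ⟨y', rfl⟩ := Ideal.Quotient.mk_surjective r
      refine ⟨y', ?_⟩
      rw [Ideal.quotientMap_mk] at hr
      exact (Ideal.Quotient.eq).1 hr
    have h5 : x' - y' ^ e ∈ (Q.under (𝓞 (K i))).asIdeal := by
      change algebraMap (𝓞 (K i)) (𝓞 L) (x' - y' ^ e) ∈ Q.asIdeal
      rw [map_sub, map_pow]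
      have h6 : algebraMap (𝓞 (K i)) (𝓞 L) y' ^ e - y ^ e ∈ Q.asIdeal := by
        obtain ⟨c, hc⟩ := sub_dvd_pow_sub_pow (algebraMap (𝓞 (K i)) (𝓞 L) y') y e
        rw [hc]
        exact Ideal.mul_mem_right _ _ hy'
      have h7 := Q.asIdeal.sub_mem hy h6
      have h8 : algebraMap (𝓞 (K i)) (𝓞 L) x' - algebraMap (𝓞 (K i)) (𝓞 L) y' ^ e =
          algebraMap (𝓞 (K i)) (𝓞 L) x' - y ^ e - (algebraMap (𝓞 (K i)) (𝓞 L) y' ^ e - y ^ e) := by ring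
      rw [h8]
      exact h7
    refine ⟨τ • y', ?_⟩
    have h9 : x - (τ • y') ^ e = τ • (x' - y' ^ e) := by
      rw [smul_sub, smul_pow', hxx]
    rw [h9, smul_mem_cjP]
    exact h5

/-- A conjugate of the prime below `Q` is equal to it only for `τ = 1`. -/
private theorem bbs_stab (hζ : IsPrimitiveRoot ζ e) (he : 0 < e) (htwo : ∀ i, 2 ≤ d i) (hdvd : ∀ i, d i ∣ e) (hroot : ∀ i, algebraMap (K i) L (z i) = ζ ^ (e / d i))
    (hgen : ∀ i, IntermediateField.adjoin F {z i} = ⊤) {Q : Prm L}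
    (hQ : PPL F e SL Q) (i : ι) (τ : Gal(K i/F)) (h : cjP τ (Q.under (𝓞 (K i))) = Q.under (𝓞 (K i))) : τ = 1 := by
  have hd2 := htwo i
  have hdvd := hdvd i
  have hz : IsPrimitiveRoot (z i) (d i) := by
    refine IsPrimitiveRoot.of_map_of_injective (f := algebraMap (K i) L) ?_ (algebraMap (K i) L).injective
    rw [hroot i]
    exact hζ.pow he (Nat.div_mul_cancel hdvd).symm
  have hdq : (d i : 𝓞 (K i)) ∉ (Q.under (𝓞 (K i))).asIdeal := by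
    intro h1
    apply hQ.2.2.1
    obtain ⟨c, hc⟩ := hdvd
    have h2 : algebraMap (𝓞 (K i)) (𝓞 L) (d i : 𝓞 (K i)) ∈ Q.asIdeal := h1
    rw [map_natCast] at h2
    rw [hc, Nat.cast_mul]
    exact Ideal.mul_mem_right _ _ h2
  have hq : nm (Q.under (𝓞 (K i))) = nm ((Q.under (𝓞 (K i))).under (𝓞 F)) := by
    rw [nm_under_of_prime (K i) hQ.2.1, under_under F, nm_under_of_prime F hQ.2.1]
  have hst := stab_deg1 (F := F) (by omega : 0 < d i) hz (hgen i) hdq hq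
  have hmem : τ ∈ MulAction.stabilizer Gal(K i/F) (Q.under (𝓞 (K i))).asIdeal := by
    rw [MulAction.mem_stabilizer_iff]
    exact congrArg HeightOneSpectrum.asIdeal h
  rw [hst] at hmem
  exact (Subgroup.mem_bot).1 hmem

variable (K) in
private noncomputable def bbsP (i₀ : ι) (Q : Prm L) (i : ι) : Finset (Prm (K i)) :=
  open Classical in if i = i₀ then {Q.under (𝓞 (K i))} else ∅

variable (F K) in
private noncomputable def bbsR (i₀ : ι) (Q : Prm L) (j : ι) : Finset (Prm (K j)) :=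
  open Classical in (Finset.univ.filter (fun τ : Gal(K j/F) => j ≠ i₀ ∨ τ ≠ 1)).image (fun τ => cjP τ (Q.under (𝓞 (K j))))

private theorem bbs_memP {i₀ : ι} {Q : Prm L} {i : ι} {q : Prm (K i)} : q ∈ bbsP K i₀ Q i ↔ i = i₀ ∧ q = Q.under (𝓞 (K i)) := by
  unfold bbsP
  by_cases h : i = i₀
  · rw [if_pos h, Finset.mem_singleton]
    exact ⟨fun h1 => ⟨h, h1⟩, fun h1 => h1.2⟩
  · rw [if_neg h]
    exact ⟨fun h1 => absurd h1 (Finset.notMem_empty _), fun h1 => absurd h1.1 h⟩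

private theorem bbs_memR {i₀ : ι} {Q : Prm L} {j : ι} {q : Prm (K j)} :
    q ∈ bbsR F K i₀ Q j ↔ ∃ τ : Gal(K j/F), (j ≠ i₀ ∨ τ ≠ 1) ∧ cjP τ (Q.under (𝓞 (K j))) = q := by
  classical
  unfold bbsR
  rw [Finset.mem_image]
  constructor
  · rintro ⟨τ, h1, h2⟩
    exact ⟨τ, (Finset.mem_filter.1 h1).2, h2⟩
  · rintro ⟨τ, h1, h2⟩
    exact ⟨τ, Finset.mem_filter.2 ⟨Finset.mem_univ _, h1⟩, h2⟩

private theorem bbs_any {i₀ : ι} {Q : Prm L} {i : ι} {q : Prm (K i)} (h : q ∈ bbsP K i₀ Q i ∨ q ∈ bbsR F K i₀ Q i) :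
    ∃ τ : Gal(K i/F), q = cjP τ (Q.under (𝓞 (K i))) := by
  rcases h with h | h
  · exact ⟨1, by rw [(bbs_memP.1 h).2, cjP_one]⟩
  · obtain ⟨τ, _, h2⟩ := bbs_memR.1 h
    exact ⟨τ, h2.symm⟩

private theorem bbs_ev {i₀ : ι} {Q : Prm L} {T : (i : ι) → Ideal (𝓞 (K i))} (h : EvA e g (bbsP K i₀ Q) (bbsR F K i₀ Q) T) :
    EvG F e g i₀ T Q := by
  have h1 := (h i₀).1 (Q.under (𝓞 (K i₀))) (bbs_memP.2 ⟨rfl, rfl⟩)
  exact ⟨h1.1, h1.2, fun j τ hj => (h j).2 _ (bbs_memR.2 ⟨τ, hj, rfl⟩)⟩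

private theorem bbs_nm_half (q : Prm L) : 1 / 2 ≤ 1 - 1 / (nm q : ℝ) := by
  have h2 : (2 : ℝ) ≤ nm q := by exact_mod_cast two_le_nm q
  have h3 : 1 / (nm q : ℝ) ≤ 1 / 2 := one_div_le_one_div_of_le (by norm_num) h2
  linarith

/-- The lower bound for the probability. -/
private theorem bbs_dl (he : 0 < e) (i₀ : ι) {Q : Prm L} (hQ : (nm Q).Prime) :
    (1 / (2 * (e : ℝ))) ^ (∑ i, Fintype.card Gal(K i/F)) / 2 * (1 / (nm Q : ℝ)) ≤ dlA e (bbsP K i₀ Q) (bbsR F K i₀ Q) := by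
  classical
  have he1 : (1 : ℝ) ≤ e := by exact_mod_cast he
  have hx0 : 0 ≤ 1 / (2 * (e : ℝ)) := by positivity
  have hx1 : 1 / (2 * (e : ℝ)) ≤ 1 := by
    rw [div_le_one (by positivity)]
    linarith
  unfold dlA
  rw [Finset.prod_mul_distrib]
  have hP : ∏ i, ∏ q ∈ bbsP K i₀ Q i, (1 / (nm q : ℝ) * (1 - 1 / (nm q : ℝ))) = 1 / (nm Q : ℝ) * (1 - 1 / (nm Q : ℝ)) := by
    rw [Finset.prod_eq_single i₀]
    · unfold bbsP
      rw [if_pos rfl, Finset.prod_singleton, nm_under_of_prime (K i₀) hQ]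
    · intro i _ hi
      unfold bbsP
      rw [if_neg hi, Finset.prod_empty]
    · intro h
      exact absurd (Finset.mem_univ _) h
  have hR : (1 / (2 * (e : ℝ))) ^ (∑ i, Fintype.card Gal(K i/F)) ≤ ∏ i, ∏ q ∈ bbsR F K i₀ Q i, rho e q := by
    rw [← Finset.prod_pow_eq_pow_sum]
    refine Finset.prod_le_prod (fun i _ => pow_nonneg hx0 _) fun i _ => ?_
    calc (1 / (2 * (e : ℝ))) ^ Fintype.card Gal(K i/F) ≤ (1 / (2 * (e : ℝ))) ^ (bbsR F K i₀ Q i).card := by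
          refine pow_le_pow_of_le_one hx0 hx1 ?_
          unfold bbsR
          exact Finset.card_image_le.trans (Finset.card_filter_le _ _)
      _ = ∏ _q ∈ bbsR F K i₀ Q i, (1 / (2 * (e : ℝ))) := by rw [Finset.prod_const]
      _ ≤ ∏ q ∈ bbsR F K i₀ Q i, rho e q := Finset.prod_le_prod (fun _ _ => hx0) fun q _ => rho_ge he q
  rw [hP]
  have hN : 0 < (nm Q : ℝ) := by exact_mod_cast hQ.pos
  have hN' : 0 ≤ 1 / (nm Q : ℝ) := by positivity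
  have hh := bbs_nm_half Q
  calc (1 / (2 * (e : ℝ))) ^ (∑ i, Fintype.card Gal(K i/F)) / 2 * (1 / (nm Q : ℝ))
      = 1 / (nm Q : ℝ) * (1 / 2) * (1 / (2 * (e : ℝ))) ^ (∑ i, Fintype.card Gal(K i/F)) := by ring
    _ ≤ 1 / (nm Q : ℝ) * (1 - 1 / (nm Q : ℝ)) * ∏ i, ∏ q ∈ bbsR F K i₀ Q i, rho e q :=
        mul_le_mul (mul_le_mul_of_nonneg_left hh hN') hR (by positivity) (mul_nonneg hN' (by linarith))

private theorem bbs_few [Nonempty ι] (hζ : IsPrimitiveRoot ζ e) (he : 0 < e) [IsCyclotomicExtension {e} F L]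
    (htwo : ∀ i, 2 ≤ d i) (hdvd : ∀ i, d i ∣ e) (hroot : ∀ i, algebraMap (K i) L (z i) = ζ ^ (e / d i))
    (hgen : ∀ i, IntermediateField.adjoin F {z i} = ⊤) (hSS : IsSS (F := F) e S SL SK) (hg : ∀ i, IsGen (SK i) (g i)) (i₀ : ι) (k : ℕ)
    (ε : ℝ) (hε : 0 < ε) :
    ∀ᶠ X : ℝ in atTop, (Set.ncard {T : (i : ι) → Ideal (𝓞 (K i)) | T ∈ TG SK X ∧
      ¬ ∃ A : Finset (Prm L), k ≤ A.card ∧ (∀ Q ∈ A, PPL F e SL Q ∧ EvG F e g i₀ T Q) ∧
        ∀ Q ∈ A, ∀ Q' ∈ A, Q.under (𝓞 F) = Q'.under (𝓞 F) → Q = Q'} : ℝ) ≤ ε * ((TG SK X).ncard : ℝ) := by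
  classical
  have he' : (0 : ℝ) < e := by exact_mod_cast he
  set c : ℝ := (1 / (2 * (e : ℝ))) ^ (∑ i, Fintype.card Gal(K i/F)) / 2 with hc
  have hc0 : 0 < c := by positivity
  obtain ⟨A, hAP, hAinj, hA⟩ := ppl_sum (F := F) he hζ SL (max (2 * (k : ℝ) + 1) (8 / ε) / c)
  have hs : max (2 * (k : ℝ) + 1) (8 / ε) ≤ ∑ Q ∈ A, dlA e (bbsP K i₀ Q) (bbsR F K i₀ Q) := by
    have h1 : c * ∑ Q ∈ A, 1 / (nm Q : ℝ) ≤ ∑ Q ∈ A, dlA e (bbsP K i₀ Q) (bbsR F K i₀ Q) := by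
      rw [Finset.mul_sum]
      exact Finset.sum_le_sum fun Q hQ => bbs_dl he i₀ (hAP Q hQ).2.1
    have h2 := (div_le_iff₀ hc0).1 hA
    linarith [mul_comm c (∑ Q ∈ A, 1 / (nm Q : ℝ))]
  have hPP : ∀ Q ∈ A, ∀ (i : ι) (q : Prm (K i)), q ∈ bbsP K i₀ Q i ∨ q ∈ bbsR F K i₀ Q i → PP e (SK i) q := by
    intro Q hQ i q hq
    obtain ⟨τ, rfl⟩ := bbs_any hq
    exact bbs_pp hSS (hAP Q hQ) i τ
  have hd1 : ∀ Q ∈ A, ∀ i, Disjoint (bbsP K i₀ Q i) (bbsR F K i₀ Q i) := by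
    intro Q hQ i
    rw [Finset.disjoint_left]
    intro q h1 h2
    obtain ⟨hi, hq⟩ := bbs_memP.1 h1
    obtain ⟨τ, hτ, h3⟩ := bbs_memR.1 h2
    rcases hτ with hτ | hτ
    · exact hτ hi
    · exact hτ (bbs_stab hζ he htwo hdvd hroot hgen (hAP Q hQ) i τ (h3.trans hq))
  have hd2 : ∀ Q ∈ A, ∀ Q' ∈ A, Q ≠ Q' → ∀ (i : ι) (q : Prm (K i)), q ∈ bbsP K i₀ Q i ∨ q ∈ bbsR F K i₀ Q i →
      ¬ (q ∈ bbsP K i₀ Q' i ∨ q ∈ bbsR F K i₀ Q' i) := by
    intro Q hQ Q' hQ' hne i q h1 h2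
    obtain ⟨τ, h3⟩ := bbs_any h1
    obtain ⟨τ', h4⟩ := bbs_any h2
    apply hne
    apply hAinj Q hQ Q' hQ'
    have h5 : q.under (𝓞 F) = Q.under (𝓞 F) := by rw [h3, cjP_under, under_under F]
    have h6 : q.under (𝓞 F) = Q'.under (𝓞 F) := by rw [h4, cjP_under, under_under F]
    rw [← h5, h6]
  filter_upwards [cheb_A he hSS.goodK hg (bbsP K i₀) (bbsR F K i₀) A hPP hd1 hd2 k ε hε hs, eventually_ge_atTop (1 : ℝ)] with X hX hX1
  refine le_trans ?_ hX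
  have hfin : (TG SK X).Finite := Set.finite_of_ncard_pos (TG_pos SK hX1)
  have hsub : {T : (i : ι) → Ideal (𝓞 (K i)) | T ∈ TG SK X ∧
      ¬ ∃ A : Finset (Prm L), k ≤ A.card ∧ (∀ Q ∈ A, PPL F e SL Q ∧ EvG F e g i₀ T Q) ∧
        ∀ Q ∈ A, ∀ Q' ∈ A, Q.under (𝓞 F) = Q'.under (𝓞 F) → Q = Q'} ⊆
      {T : (i : ι) → Ideal (𝓞 (K i)) | T ∈ TG SK X ∧
        ¬ ∃ A' ⊆ A, k ≤ A'.card ∧ ∀ Q ∈ A', EvA e g (bbsP K i₀ Q) (bbsR F K i₀ Q) T} := by
    rintro T ⟨hT, hno⟩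
    refine ⟨hT, ?_⟩
    rintro ⟨A', hA', hk, hev⟩
    exact hno ⟨A', hk, fun Q hQ => ⟨hAP Q (hA' hQ), bbs_ev (hev Q hQ)⟩, fun Q hQ Q' hQ' h => hAinj Q (hA' hQ) Q' (hA' hQ') h⟩
  have h1 := Set.ncard_le_ncard hsub (hfin.subset fun T hT => hT.1)
  exact_mod_cast h1

theorem bad_S [Nonempty ι] (hζ : IsPrimitiveRoot ζ e) (he : 0 < e) [IsCyclotomicExtension {e} F L]
    (htwo : ∀ i, 2 ≤ d i) (hdvd : ∀ i, d i ∣ e) (hroot : ∀ i, algebraMap (K i) L (z i) = ζ ^ (e / d i))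
    (hgen : ∀ i, IntermediateField.adjoin F {z i} = ⊤)
    (hSS : IsSS (F := F) e S SL SK) (hg : ∀ i, IsGen (SK i) (g i)) (k : ℕ) (ε : ℝ) (hε : 0 < ε) :
    ∀ᶠ X : ℝ in atTop, (Set.ncard {T : (i : ι) → Ideal (𝓞 (K i)) | T ∈ TG SK X ∧ ¬ RichG F e SL g k T} : ℝ) ≤
      ε * ((TG SK X).ncard : ℝ) := by
  classical
  have hι : (0 : ℝ) < Fintype.card ι := by exact_mod_cast Fintype.card_pos
  let B : ι → ℝ → Set ((i : ι) → Ideal (𝓞 (K i))) := fun i₀ X => {T : (i : ι) → Ideal (𝓞 (K i)) | T ∈ TG SK X ∧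
      ¬ ∃ A : Finset (Prm L), k ≤ A.card ∧ (∀ Q ∈ A, PPL F e SL Q ∧ EvG F e g i₀ T Q) ∧
        ∀ Q ∈ A, ∀ Q' ∈ A, Q.under (𝓞 F) = Q'.under (𝓞 F) → Q = Q'}
  have h1 : ∀ᶠ X : ℝ in atTop, ∀ i₀ : ι, ((B i₀ X).ncard : ℝ) ≤ (ε / Fintype.card ι) * ((TG SK X).ncard : ℝ) := by
    rw [eventually_all]
    exact fun i₀ => bbs_few hζ he htwo hdvd hroot hgen hSS hg i₀ k _ (by positivity)
  filter_upwards [h1, eventually_ge_atTop (1 : ℝ)] with X h2 hX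
  have hfin : (TG SK X).Finite := Set.finite_of_ncard_pos (TG_pos SK hX)
  have hsub : {T : (i : ι) → Ideal (𝓞 (K i)) | T ∈ TG SK X ∧ ¬ RichG F e SL g k T} ⊆
      ⋃ i₀ ∈ (Finset.univ : Finset ι), B i₀ X := by
    rintro T ⟨hT, hR⟩
    unfold RichG at hR
    rw [not_forall] at hR
    obtain ⟨i₀, hi₀⟩ := hR
    simp only [Set.mem_iUnion, Finset.mem_univ, exists_true_left]
    exact ⟨i₀, hT, hi₀⟩
  have h3 : (Set.ncard {T : (i : ι) → Ideal (𝓞 (K i)) | T ∈ TG SK X ∧ ¬ RichG F e SL g k T} : ℝ) ≤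
      ∑ i₀ : ι, ((B i₀ X).ncard : ℝ) := by
    have hf : (⋃ i₀ ∈ (Finset.univ : Finset ι), B i₀ X).Finite := by
      refine hfin.subset ?_
      intro T hT
      simp only [Set.mem_iUnion] at hT
      obtain ⟨i₀, -, hT, -⟩ := hT
      exact hT
    have h4 := Set.ncard_le_ncard hsub hf
    have h5 := Finset.set_ncard_biUnion_le (Finset.univ : Finset ι) (fun i₀ => B i₀ X)
    exact_mod_cast h4.trans h5
  refine h3.trans ((Finset.sum_le_sum fun i₀ _ => h2 i₀).trans (le_of_eq ?_))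
  rw [Finset.sum_const, Finset.card_univ, nsmul_eq_mul]
  field_simp

end StarkR
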