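import Pool.Agent.Lib.MP_d9bae3_nt.NG.DOrd

/-!
# Module NBD-BBase: the levels of order `l`, bigger sets of primes, and the data of one extension
-/

set_option linter.unusedSectionVars false

namespace StarkR

open NumberField IsDedekindDomain Filter Topology
open scoped Pointwise

section levels

variable {F L : Type} [Field F] [NumberField F] [Field L] [NumberField L] [Algebra F L]
variable {ι : Type} [Fintype ι] {K : ι → Type} [∀ i, Field (K i)] [∀ i, NumberField (K i)]
variable [∀ i, Algebra F (K i)] [∀ i, Algebra (K i) L] [∀ i, IsScalarTower F (K i) L]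
variable {m : ℕ} {n : Fin m → ℕ} [∀ i, NeZero (n i)]
variable {e : ℕ} {ζ : L} {d : ι → ℕ} {z : (i : ι) → K i} {t : (i : ι) → Gal(K i/F) → ℕ} {v : ι → V n} {rep : (Σ i, Gal(K i/F)) ≃ W n}

theorem ord_rep (hζ : IsPrimitiveRoot ζ e) (he : 0 < e) (hlev : IsLev (L := L) e ζ d z t v rep) (i : ι) (τ : Gal(K i/F)) :
    addOrderOf ((rep ⟨i, τ⟩ : W n) : V n) = d i := by
  have hz : IsPrimitiveRoot (z i) (d i) := by
    have h1 : IsPrimitiveRoot (ζ ^ (e / d i)) (d i) := hζ.pow he (Nat.div_mul_cancel (hlev.dvd i)).symm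
    rw [← hlev.root i] at h1
    exact h1.of_map_of_injective (algebraMap (K i) L).injective
  have hd : 0 < d i := lt_of_lt_of_le (by norm_num) (hlev.two i)
  have h1 : IsPrimitiveRoot (τ (z i)) (d i) := hz.map_of_injective τ.injective
  have h2 : (t i τ).Coprime (d i) := by
    rw [← h1.pow_iff_coprime hd, (hlev.inv i τ).2]
    exact hz
  rw [hlev.rep_eq, Nat.Coprime.addOrderOf_nsmul (by rw [hlev.order i]; exact h2.symm), hlev.order i]

theorem card_levels (hζ : IsPrimitiveRoot ζ e) (he : 0 < e) (hlev : IsLev (L := L) e ζ d z t v rep) {l : ℕ} (hl : l.Prime) :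
    Nat.card {v : V n // l • v = 0} = Nat.card {i // d i = l} * Module.finrank F (CyclotomicField l F) + 1 := by
  classical
  have hne : NeZero l := ⟨hl.ne_zero⟩
  have hz : ∀ i, IsPrimitiveRoot (z i) (d i) := by
    intro i
    have h1 : IsPrimitiveRoot (ζ ^ (e / d i)) (d i) := hζ.pow he (Nat.div_mul_cancel (hlev.dvd i)).symm
    rw [← hlev.root i] at h1
    exact h1.of_map_of_injective (algebraMap (K i) L).injective
  have hcard : ∀ i, d i = l → Nat.card Gal(K i/F) = Module.finrank F (CyclotomicField l F) := by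
    intro i hi
    have hKi : FiniteDimensional F (K i) := Module.Finite.right ℚ F (K i)
    have hg := hlev.gal i
    rw [IsGalois.card_aut_eq_finrank F (K i)]
    have hne2 : NeZero ((l : ℕ) : F) := ⟨Nat.cast_ne_zero.2 hl.ne_zero⟩
    have h0 := hz i
    rw [hi] at h0
    have h1 := h0.intermediateField_adjoin_isCyclotomicExtension F
    have h2 := (IsCyclotomicExtension.algEquiv {l} F (IntermediateField.adjoin F {z i}) (CyclotomicField l F)).toLinearEquiv.finrank_eq
    rw [← h2, hlev.gen i, IntermediateField.finrank_top']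
  have hf : ∀ i, Finite Gal(K i/F) := by
    intro i
    have hKi : FiniteDimensional F (K i) := Module.Finite.right ℚ F (K i)
    infer_instance
  have hft : ∀ i, Fintype Gal(K i/F) := fun i => Fintype.ofFinite _
  have h1 : (Finset.univ.filter fun v : V n => l • v = 0) = insert 0 (Finset.univ.filter fun v : V n => v ≠ 0 ∧ addOrderOf v = l) := by
    ext x
    rw [Finset.mem_insert, Finset.mem_filter, Finset.mem_filter]
    simp only [Finset.mem_univ, true_and]
    constructor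
    · intro hx
      by_cases h0 : x = 0
      · exact Or.inl h0
      · exact Or.inr ⟨h0, addOrderOf_eq_prime (p := l) (hp := ⟨hl⟩) hx h0⟩
    · rintro (rfl | ⟨-, h⟩)
      · exact smul_zero _
      · rw [← h]
        exact addOrderOf_nsmul_eq_zero x
  have h2 : (Finset.univ.filter fun v : V n => v ≠ 0 ∧ addOrderOf v = l).card = ∑ w : W n, if addOrderOf (w : V n) = l then 1 else 0 := by
    rw [← Finset.filter_filter, Finset.card_filter]
    exact Finset.sum_subtype (Finset.univ.filter fun w : V n => w ≠ 0) (fun w => by simp) (fun w : V n => if addOrderOf w = l then 1 else 0)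
  have h3 : ∑ w : W n, (if addOrderOf (w : V n) = l then 1 else 0) = ∑ i, ∑ _τ : Gal(K i/F), if d i = l then 1 else 0 := by
    rw [← Equiv.sum_comp rep fun w : W n => if addOrderOf (w : V n) = l then 1 else 0, Fintype.sum_sigma]
    refine Finset.sum_congr rfl fun i _ => Finset.sum_congr rfl fun τ _ => ?_
    rw [ord_rep hζ he hlev]
  have h4 : ∀ i, (∑ _τ : Gal(K i/F), if d i = l then 1 else 0) = if d i = l then Module.finrank F (CyclotomicField l F) else 0 := by
    intro i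
    by_cases hi : d i = l
    · simp only [if_pos hi]
      rw [Finset.sum_const, Finset.card_univ, ← Nat.card_eq_fintype_card, hcard i hi, smul_eq_mul, mul_one]
    · simp only [if_neg hi]
      simp
  rw [Nat.card_eq_fintype_card, Fintype.card_subtype, h1, Finset.card_insert_of_notMem (by simp), h2, h3, Finset.sum_congr rfl fun i _ => h4 i,
    Nat.card_eq_fintype_card, Fintype.card_subtype, Finset.sum_ite, Finset.sum_const, Finset.sum_const_zero, add_zero, smul_eq_mul]

end levels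

section sets

private theorem BBase_fib {F M : Type} [Field F] [NumberField F] [Field M] [NumberField M] [Algebra F M] (q : Prm F) :
    {Q : Prm M | Q.under (𝓞 F) = q}.Finite := by
  have hmax : q.asIdeal.IsMaximal := q.isMaximal
  have h := IsDedekindDomain.primesOver_finite q.asIdeal (𝓞 M)
  refine (h.preimage (f := fun Q : Prm M => Q.asIdeal) ?_).subset ?_
  · intro Q _ Q' _ hQ
    exact HeightOneSpectrum.ext hQ
  · intro Q hQ
    have hQ' : Q.under (𝓞 F) = q := hQ
    refine ⟨Q.isPrime, ⟨?_⟩⟩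
    rw [← hQ']
    rfl

private theorem BBase_pre {F M : Type} [Field F] [NumberField F] [Field M] [NumberField M] [Algebra F M] (S : Finset (Prm F)) :
    {Q : Prm M | Q.under (𝓞 F) ∈ S}.Finite := by
  have h : {Q : Prm M | Q.under (𝓞 F) ∈ S} = ⋃ q ∈ (S : Set (Prm F)), {Q : Prm M | Q.under (𝓞 F) = q} := by
    ext Q
    simp
  rw [h]
  exact S.finite_toSet.biUnion fun q _ => BBase_fib q

variable {F L : Type} [Field F] [NumberField F] [Field L] [NumberField L] [Algebra F L]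
variable {ι : Type} [Fintype ι] {K : ι → Type} [∀ i, Field (K i)] [∀ i, NumberField (K i)]
variable [∀ i, Algebra F (K i)] [∀ i, Algebra (K i) L] [∀ i, IsScalarTower F (K i) L]

/-- a bigger set of primes -/
theorem SS_ge {e : ℕ} {S : Finset (Prm F)} {SL : Finset (Prm L)} {SK : (i : ι) → Finset (Prm (K i))} (h : IsSS (F := F) e S SL SK)
    (S₀ : Finset (Prm F)) : ∃ (S' : Finset (Prm F)) (SL' : Finset (Prm L)) (SK' : (i : ι) → Finset (Prm (K i))),
    IsSS (F := F) e S' SL' SK' ∧ S ⊆ S' ∧ S₀ ⊆ S' := by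
  classical
  refine ⟨S ∪ S₀, (BBase_pre (M := L) (S ∪ S₀)).toFinset, fun i => (BBase_pre (M := K i) (S ∪ S₀)).toFinset, ⟨?_, ?_, ?_, ?_⟩,
    Finset.subset_union_left, Finset.subset_union_right⟩
  · intro Q
    rw [Set.Finite.mem_toFinset]
    rfl
  · intro i Q
    rw [Set.Finite.mem_toFinset]
    rfl
  · refine goodS_mono h.goodL fun Q hQ => ?_
    rw [Set.Finite.mem_toFinset]
    exact Finset.mem_union_left _ ((h.memL Q).1 hQ)
  · intro i
    refine goodS_mono (h.goodK i) fun Q hQ => ?_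
    rw [Set.Finite.mem_toFinset]
    exact Finset.mem_union_left _ ((h.memK i Q).1 hQ)

theorem SS_sub {e : ℕ} {S : Finset (Prm F)} {SL : Finset (Prm L)} {SK : (i : ι) → Finset (Prm (K i))} (h : IsSS (F := F) e S SL SK)
    (p : ι → Prop) : IsSS (ι := {i // p i}) (K := fun i => K i.1) (F := F) e S SL (fun i => SK i.1) :=
  ⟨h.memL, fun i => h.memK i.1, h.goodL, fun i => h.goodK i.1⟩

end sets

section data

variable {F L : Type} [Field F] [NumberField F] [Field L] [NumberField L] [Algebra F L]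
variable {ι : Type} [Fintype ι] {K : ι → Type} [∀ i, Field (K i)] [∀ i, NumberField (K i)]
variable [∀ i, Algebra F (K i)] [∀ i, Algebra (K i) L] [∀ i, IsScalarTower F (K i) L]
variable {m : ℕ} {n : Fin m → ℕ} [∀ i, NeZero (n i)]
variable {e : ℕ} {ζ : L} {d : ι → ℕ} {z : (i : ι) → K i} {t : (i : ι) → Gal(K i/F) → ℕ} {v : ι → V n} {rep : (Σ i, Gal(K i/F)) ≃ W n}
variable {S : Finset (Prm F)} {SL : Finset (Prm L)} {SK : (i : ι) → Finset (Prm (K i))} {g : (i : ι) → Ideal (𝓞 (K i)) → 𝓞 (K i)}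
variable [Algebra L (AlgebraicClosure F)] [IsScalarTower F L (AlgebraicClosure F)]

/-- `T` is a tuple of the data of `H` -/
def IsData (F : Type) {L : Type} [Field F] [NumberField F] [Field L] [NumberField L] [Algebra F L] [Algebra L (AlgebraicClosure F)]
    [IsScalarTower F L (AlgebraicClosure F)] {ι : Type} {K : ι → Type} [∀ i, Field (K i)] [∀ i, NumberField (K i)]
    [∀ i, Algebra F (K i)] [∀ i, Algebra (K i) L] [∀ i, IsScalarTower F (K i) L] {m : ℕ} {n : Fin m → ℕ} [∀ i, NeZero (n i)]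
    (rep : (Σ i, Gal(K i/F)) ≃ W n) (SL : Finset (Prm L)) (SK : (i : ι) → Finset (Prm (K i))) (g : (i : ι) → Ideal (𝓞 (K i)) → 𝓞 (K i))
    (H : IntermediateField F (AlgebraicClosure F)) (T : (i : ι) → Ideal (𝓞 (K i))) : Prop :=
  (∀ i, Cop (SK i) (T i)) ∧ SqG F T ∧ ∃ ε : V n → 𝓞 L, (∀ w, IsSU SL (ε w)) ∧ ∃ (_ : NumberField H) (_ : IsGalois F H) (α : Fin m → Mof L H),
    IsExt (bG rep (fun i => g i (T i)) ε) (Mof L H) α

theorem ext_dataD (hζ : IsPrimitiveRoot ζ e) (he : 0 < e) (hn : ∀ i, n i ∣ e) [IsCyclotomicExtension {e} F L]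
    (hlev : IsLev (L := L) e ζ d z t v rep) (hSS : IsSS (F := F) e S SL SK) (hg : ∀ i, IsGen (SK i) (g i))
    {E : Finset (𝓞 L)} (hE1 : ∀ ε ∈ E, IsSU SL ε)
    (hE2 : ∀ x : 𝓞 L, IsSU SL x → ∃ ε ∈ E, ∃ z w : 𝓞 L, IsSU SL z ∧ IsSU SL w ∧ x * z ^ e = ε * w ^ e)
    {H : IntermediateField F (AlgebraicClosure F)} (hNF : NumberField H) (hGal : IsGalois F H) (φ : Gal(H/F) ≃* Multiplicative (V n)) :
    ∃ p : (V n → 𝓞 L) × ((i : ι) → Ideal (𝓞 (K i))), (∀ w, p.1 w ∈ E ∨ p.1 w = 1) ∧ (∀ i, Cop (SK i) (p.2 i)) ∧ SqG F p.2 ∧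
      ∃ α : Fin m → Mof L H, IsExt (bG rep (fun i => g i (p.2 i)) p.1) (Mof L H) α := by
  have hc := Mof_compositum L H
  obtain ⟨ε, T, α, hε, hT, hT2, hext⟩ := decG hζ he hn hlev hSS hg hE1 hE2 φ.toMonoidHom φ.injective hc
  exact ⟨(ε, T), hε, hT, hT2, α, hext⟩

/-- counting extensions by their data -/
theorem ext_countD (hζ : IsPrimitiveRoot ζ e) (he : 0 < e) (hn : ∀ i, n i ∣ e) [IsCyclotomicExtension {e} F L]
    (hlev : IsLev (L := L) e ζ d z t v rep) (hSS : IsSS (F := F) e S SL SK) (hg : ∀ i, IsGen (SK i) (g i)) :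
    ∃ C : ℕ, 0 < C ∧ ∀ (A : Set (IntermediateField F (AlgebraicClosure F))) (B : Set ((i : ι) → Ideal (𝓞 (K i)))),
      (∀ H ∈ A, ∃ _ : NumberField H, IsGalois F H ∧ Nonempty (Gal(H/F) ≃* Multiplicative (V n))) → B.Finite →
      (∀ H ∈ A, ∀ T, IsData F rep SL SK g H T → T ∈ B) → A.Finite ∧ A.ncard ≤ C * B.ncard := by
  classical
  have hGL : IsGalois F L := IsCyclotomicExtension.isGalois {e} F L
  obtain ⟨E, hE1, hE2⟩ := sel_finite he SL
  refine ⟨2 ^ (Module.finrank F L * Fintype.card (V n)) * (E.card + 1) ^ Fintype.card (V n),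
    Nat.mul_pos (Nat.pow_pos two_pos) (Nat.pow_pos (Nat.succ_pos _)), fun A B hA hB hAB => ?_⟩
  obtain ⟨h1, h2⟩ := pairs_finiteG (α := V n) (E := E) hB
  have hdata : ∀ H ∈ A, ∃ p : (V n → 𝓞 L) × ((i : ι) → Ideal (𝓞 (K i))), (∀ w, p.1 w ∈ E ∨ p.1 w = 1) ∧ p.2 ∈ B ∧
      ∃ (_ : NumberField H) (_ : IsGalois F H) (α : Fin m → Mof L H), IsExt (bG rep (fun i => g i (p.2 i)) p.1) (Mof L H) α := by
    intro H hH
    obtain ⟨hNF, hGal, ⟨φ⟩⟩ := hA H hH
    obtain ⟨p, hp1, hp2, hp3, α, hα⟩ := ext_dataD hζ he hn hlev hSS hg hE1 hE2 hNF hGal φ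
    refine ⟨p, hp1, hAB H hH p.2 ⟨hp2, hp3, p.1, fun w => (hp1 w).elim (hE1 _) (fun h => h ▸ isSU_one SL), hNF, hGal, α, hα⟩, hNF, hGal, α, hα⟩
  let f : IntermediateField F (AlgebraicClosure F) → (V n → 𝓞 L) × ((i : ι) → Ideal (𝓞 (K i))) := fun H =>
    if hH : H ∈ A then (hdata H hH).choose else (fun _ => 1, fun _ => ⊤)
  have hf : ∀ H (hH : H ∈ A), f H = (hdata H hH).choose := fun H hH => dif_pos hH
  have hmaps : Set.MapsTo f A {p : (V n → 𝓞 L) × ((i : ι) → Ideal (𝓞 (K i))) | (∀ w, p.1 w ∈ E ∨ p.1 w = 1) ∧ p.2 ∈ B} := by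
    intro H hHA
    have h3 := (hdata H hHA).choose_spec
    rw [← hf H hHA] at h3
    exact ⟨h3.1, h3.2.1⟩
  obtain ⟨h5, h6⟩ := ncard_fiber f hmaps h1 (2 ^ (Module.finrank F L * Fintype.card (V n))) (by
    rintro p -
    by_cases hne : ∃ H, H ∈ A ∧ f H = p
    · obtain ⟨H₀, hH₀, hp⟩ := hne
      have h3 := (hdata H₀ hH₀).choose_spec
      rw [← hf H₀ hH₀, hp] at h3
      obtain ⟨-, -, hNF, hGal, α, h4⟩ := h3
      obtain ⟨h7, h8⟩ := sub_bound (F := F) (n := n) (Mof L H₀)
      have hsub : {H | H ∈ A ∧ f H = p} ⊆ {H : IntermediateField F (AlgebraicClosure F) | ∃ _ : NumberField H, IsGalois F H ∧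
          Nonempty (Gal(H/F) ≃* Multiplicative (V n)) ∧ Mof L H = Mof L H₀} := by
        rintro H ⟨hH, hpH⟩
        have h3' := (hdata H hH).choose_spec
        rw [← hf H hH, hpH] at h3'
        obtain ⟨-, -, hNF', hGal', α', h4'⟩ := h3'
        obtain ⟨-, -, hφ⟩ := hA H hH
        exact ⟨hNF', hGal', hφ, field_uniqueO hζ he hn _ h4' h4⟩
      exact ⟨h7.subset hsub, (Set.ncard_le_ncard hsub h7).trans h8⟩
    · have hempty : {H | H ∈ A ∧ f H = p} = ∅ := by
        rw [Set.eq_empty_iff_forall_notMem]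
        exact fun H hH => hne ⟨H, hH⟩
      rw [hempty]
      exact ⟨Set.finite_empty, by simp⟩)
  refine ⟨h5, h6.trans ?_⟩
  rw [mul_assoc]
  exact Nat.mul_le_mul_left _ h2

end data

end StarkR
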