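import Pool.Agent.Lib.MP_d9bae3_nt.SK.Defs

/-!
# All abelian extensions of a given degree in the order of the discriminant: definition
-/

namespace StarkR

open NumberField IsDedekindDomain

/-- The subfields `H` of the algebraic closure of `F` which are Galois extensions of `F` of degree `N` with an abelian group and with `|disc H| ≤ X`. -/
def AbDExt (F : Type) [Field F] [NumberField F] (N X : ℕ) : Set (IntermediateField F (AlgebraicClosure F)) :=
  {H | ∃ _ : NumberField H, IsGalois F H ∧ IsMulCommutative Gal(H/F) ∧ Module.finrank F H = N ∧ (discr H).natAbs ≤ X}

end StarkR
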