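import Pool.Agent.Lib.MP_d9bae3_nt.NG.BTame

/-!
# The exponents of the different of a Galois extension
-/

set_option linter.unusedSectionVars false

namespace StarkR

open NumberField IsDedekindDomain nonZeroDivisors
open scoped Pointwise

variable {F H : Type} [Field F] [NumberField F] [Field H] [NumberField H] [Algebra F H]

theorem mem_different_iff (x : 𝓞 H) : x ∈ differentIdeal (𝓞 F) (𝓞 H) ↔
    ∀ y : H, (∀ b : 𝓞 H, ∃ a : 𝓞 F, algebraMap (𝓞 F) F a = Algebra.trace F H (y * algebraMap (𝓞 H) H b)) →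
      ∃ c : 𝓞 H, algebraMap (𝓞 H) H c = algebraMap (𝓞 H) H x * y := by
  have h := coeSubmodule_differentIdeal (A := 𝓞 F) (K := F) (B := 𝓞 H) (L := H)
  have h1 : x ∈ differentIdeal (𝓞 F) (𝓞 H) ↔ algebraMap (𝓞 H) H x ∈ IsLocalization.coeSubmodule H (differentIdeal (𝓞 F) (𝓞 H)) := by
    rw [IsLocalization.mem_coeSubmodule]
    constructor
    · exact fun hx => ⟨x, hx, rfl⟩
    · rintro ⟨y, hy, hxy⟩
      rwa [FaithfulSMul.algebraMap_injective (𝓞 H) H hxy] at hy
  rw [h1, h, Submodule.mem_div_iff_forall_mul_mem]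
  constructor
  · intro h2 y hy
    have h3 : y ∈ Submodule.traceDual (𝓞 F) F (1 : Submodule (𝓞 H) H) := by
      rw [Submodule.mem_traceDual]
      intro a ha
      obtain ⟨b, rfl⟩ := Submodule.mem_one.1 ha
      obtain ⟨c, hc⟩ := hy b
      exact ⟨c, by rw [hc, Algebra.traceForm_apply]⟩
    exact Submodule.mem_one.1 (h2 y h3)
  · intro h2 y hy
    rw [Submodule.mem_traceDual] at hy
    refine Submodule.mem_one.2 (h2 y fun b => ?_)
    obtain ⟨c, hc⟩ := hy _ (Submodule.mem_one.2 ⟨b, rfl⟩)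
    exact ⟨c, by rw [hc, Algebra.traceForm_apply]⟩

theorem smul_mem_different (σ : Gal(H/F)) {x : 𝓞 H} (hx : x ∈ differentIdeal (𝓞 F) (𝓞 H)) :
    σ • x ∈ differentIdeal (𝓞 F) (𝓞 H) := by
  rw [mem_different_iff] at hx ⊢
  have hsm : ∀ (τ : Gal(H/F)) (z : 𝓞 H), algebraMap (𝓞 H) H (τ • z) = τ (algebraMap (𝓞 H) H z) := by
    intro τ z
    rw [algebraMap.smul' τ z H]
    rfl
  intro y hy
  obtain ⟨c, hc⟩ := hx (σ⁻¹ y) (by
    intro b
    obtain ⟨a, ha⟩ := hy (σ • b)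
    refine ⟨a, ?_⟩
    have h1 : σ (σ⁻¹ y * algebraMap (𝓞 H) H b) = y * σ (algebraMap (𝓞 H) H b) := by
      rw [map_mul]
      congr 1
      exact AlgEquiv.apply_symm_apply σ y
    rw [ha, hsm, ← Algebra.trace_eq_of_algEquiv σ (σ⁻¹ y * algebraMap (𝓞 H) H b), h1])
  refine ⟨σ • c, ?_⟩
  rw [hsm, hsm, hc, map_mul]
  congr 1
  exact AlgEquiv.apply_symm_apply σ y

/-- if a power of a prime divides the different, so does the same power of a conjugate prime -/
theorem conj_pow_dvd (σ : Gal(H/F)) {Q : Ideal (𝓞 H)} {k : ℕ} (h : Q ^ k ∣ differentIdeal (𝓞 F) (𝓞 H)) :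
    (σ • Q) ^ k ∣ differentIdeal (𝓞 F) (𝓞 H) := by
  rw [Ideal.dvd_iff_le] at h ⊢
  intro x hx
  have h1 := h (smul_mem_different σ⁻¹ hx)
  have h2 : x ∈ σ • (Q ^ k) := by
    rw [Ideal.mem_pointwise_smul_iff_inv_smul_mem]
    exact h1
  have h3 : σ • (Q ^ k) = (σ • Q) ^ k := by
    exact Ideal.map_pow _ _ _
  rwa [← h3]

/-- the exponent of a prime in the different: `v(D) < e (m + 1)` if the degree is not in `q^(m+1)` -/
theorem not_pow_dvd_different [IsGalois F H] (q : Prm F) {Q : Ideal (𝓞 H)} (hQ : Q.IsPrime) (hQq : Q.LiesOver q.asIdeal) {m : ℕ}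
    (hm : ((Module.finrank F H : ℕ) : 𝓞 F) ∉ q.asIdeal ^ (m + 1)) :
    ¬ Q ^ (q.asIdeal.ramificationIdx' Q * (m + 1)) ∣ differentIdeal (𝓞 F) (𝓞 H) := by
  intro h
  have hqp : q.asIdeal.IsPrime := q.isPrime
  have hmap0 : q.asIdeal.map (algebraMap (𝓞 F) (𝓞 H)) ≠ ⊥ := Ideal.map_ne_bot_of_ne_bot q.ne_bot
  have hD : differentIdeal (𝓞 F) (𝓞 H) ≠ ⊥ := differentIdeal_ne_bot
  have h1 : (q.asIdeal ^ (m + 1)).map (algebraMap (𝓞 F) (𝓞 H)) ∣ differentIdeal (𝓞 F) (𝓞 H) := by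
    rw [Ideal.map_pow, UniqueFactorizationMonoid.dvd_iff_emultiplicity_le (pow_ne_zero _ hmap0)]
    intro P hP
    have hPp : P.IsPrime := Ideal.isPrime_of_prime hP
    rw [emultiplicity_pow hP]
    by_cases hPq : P.LiesOver q.asIdeal
    · have h2 : emultiplicity P (q.asIdeal.map (algebraMap (𝓞 F) (𝓞 H))) = q.asIdeal.ramificationIdx' P := by
        have h3 := Ideal.IsDedekindDomain.emultiplicity_map_eq_ramificationIdx'_mul (v := q.asIdeal) (w := P) (I := q.asIdeal) q.ne_bot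
          q.irreducible hP.irreducible hP.ne_zero
        rw [h3, (FiniteMultiplicity.of_prime_left q.prime q.prime.ne_zero).emultiplicity_self, mul_one]
      obtain ⟨σ, hσ⟩ := Ideal.exists_smul_eq_of_isGaloisGroup q.asIdeal Q P Gal(H/F)
      have h4 := conj_pow_dvd σ h
      rw [hσ] at h4
      have h5 : q.asIdeal.ramificationIdx' P = q.asIdeal.ramificationIdx' Q := by
        rw [Ideal.ramificationIdx'_eq_ramificationIdx q.asIdeal P q.ne_bot, Ideal.ramificationIdx'_eq_ramificationIdx q.asIdeal Q q.ne_bot,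
          ← Ideal.ramificationIdxIn_eq_ramificationIdx q.asIdeal P Gal(H/F), ← Ideal.ramificationIdxIn_eq_ramificationIdx q.asIdeal Q Gal(H/F)]
      rw [h2, h5]
      have h6 := le_emultiplicity_of_pow_dvd h4
      refine le_trans (le_of_eq ?_) h6
      push_cast
      ring
    · have h2 : emultiplicity P (q.asIdeal.map (algebraMap (𝓞 F) (𝓞 H))) = 0 := by
        refine emultiplicity_eq_zero.2 fun h3 => hPq ⟨?_⟩
        rw [Ideal.dvd_iff_le, Ideal.map_le_iff_le_comap] at h3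
        exact q.isMaximal.eq_of_le (Ideal.IsPrime.ne_top (Ideal.comap_isPrime _ P)) h3
      rw [h2, mul_zero]
      exact zero_le
  refine not_dvd_differentIdeal_of_intTrace_not_mem (𝓞 F) ((q.asIdeal ^ (m + 1)).map (algebraMap (𝓞 F) (𝓞 H))) ⊤
    (p := q.asIdeal ^ (m + 1)) (by rw [Ideal.mul_top]) 1 Submodule.mem_top ?_ h1
  have h2 : Algebra.intTrace (𝓞 F) (𝓞 H) 1 = ((Module.finrank F H : ℕ) : 𝓞 F) := by
    apply FaithfulSMul.algebraMap_injective (𝓞 F) F
    rw [Algebra.algebraMap_intTrace (A := 𝓞 F) (K := F) (L := H) (B := 𝓞 H), map_one, ← map_one (algebraMap F H), Algebra.trace_algebraMap,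
      map_natCast, nsmul_eq_mul, mul_one]
  rw [h2]
  exact hm

end StarkR
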