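import Pool.Agent.Lib.MP_d9bae3_nt.NG.BDiff
import Pool.Agent.Lib.MP_d9bae3_nt.NA.NDefs

/-!
# The discriminant of an elementary abelian extension and the product of the ramified primes
-/

set_option linter.unusedSectionVars false

namespace StarkR

open NumberField IsDedekindDomain nonZeroDivisors
open scoped Pointwise

variable {F H : Type} [Field F] [NumberField F] [Field H] [NumberField H] [Algebra F H]

theorem card_inertia_eq [IsGalois F H] (q : Prm F) {Q : Ideal (𝓞 H)} (hQ : Q.IsPrime) (hQq : Q.LiesOver q.asIdeal) :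
    Nat.card (Q.inertia Gal(H/F)) = q.asIdeal.ramificationIdx' Q := by
  have hfin : Finite (𝓞 F ⧸ q.asIdeal) := Ideal.finiteQuotientOfFreeOfNeBot q.asIdeal q.ne_bot
  have hfin2 : Finite q.asIdeal.ResidueField := by
    have hb := q.isMaximal
    exact Finite.of_surjective _ (Ideal.bijective_algebraMap_quotient_residueField q.asIdeal).2
  have hqm := q.isMaximal
  have hQ0 : Q ≠ ⊥ := Ideal.ne_bot_of_liesOver_of_ne_bot q.ne_bot Q
  have hQm : Q.IsMaximal := hQ.isMaximal hQ0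
  have h5 := Ideal.card_inertia_eq_ramificationIdxIn (G := Gal(H/F)) q.asIdeal Q
  rw [h5, Ideal.ramificationIdx'_eq_ramificationIdx q.asIdeal Q q.ne_bot,
    ← Ideal.ramificationIdxIn_eq_ramificationIdx q.asIdeal Q Gal(H/F)]

theorem ram_idx_eq [IsGalois F H] (q : Prm F) {P Q : Ideal (𝓞 H)} (hP : P.IsPrime) (hPq : P.LiesOver q.asIdeal) (hQ : Q.IsPrime)
    (hQq : Q.LiesOver q.asIdeal) : q.asIdeal.ramificationIdx' P = q.asIdeal.ramificationIdx' Q := by
  rw [Ideal.ramificationIdx'_eq_ramificationIdx q.asIdeal P q.ne_bot, Ideal.ramificationIdx'_eq_ramificationIdx q.asIdeal Q q.ne_bot,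
    ← Ideal.ramificationIdxIn_eq_ramificationIdx q.asIdeal P Gal(H/F), ← Ideal.ramificationIdxIn_eq_ramificationIdx q.asIdeal Q Gal(H/F)]

/-- in a ramified prime the ramification index is at least `l`, if all elements of the group have order `1` or `l` -/
theorem le_ram_idx [IsGalois F H] {l : ℕ} (hl : l.Prime) (hexp : ∀ σ : Gal(H/F), σ ^ l = 1) {q : Prm F} (hq : Ramified H q)
    {P : Ideal (𝓞 H)} (hP : P.IsPrime) (hPq : P.LiesOver q.asIdeal) : l ≤ q.asIdeal.ramificationIdx' P := by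
  obtain ⟨Q, hQ, hQq, hne⟩ := hq
  rw [ram_idx_eq q hP hPq hQ hQq, ← card_inertia_eq q hQ hQq]
  obtain ⟨σ, hσ1⟩ := Subgroup.ne_bot_iff_exists_ne_one.1 hne
  have hfact : Fact l.Prime := ⟨hl⟩
  have h1 : orderOf σ = l := by
    refine orderOf_eq_prime ?_ hσ1
    exact Subtype.ext (by rw [Subgroup.coe_pow, Subgroup.coe_one]; exact hexp σ.1)
  rw [← h1]
  exact Nat.le_of_dvd Nat.card_pos (orderOf_dvd_natCard σ)

theorem dvd_different_of_ram [IsGalois F H] (q : Prm F) {P : Ideal (𝓞 H)} (_hP : P.IsPrime) (_hPq : P.LiesOver q.asIdeal) :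
    P ^ (q.asIdeal.ramificationIdx' P - 1) ∣ differentIdeal (𝓞 F) (𝓞 H) := by
  have hqm := q.isMaximal
  refine pow_sub_one_dvd_differentIdeal (𝓞 F) P _ q.ne_bot ?_
  exact Ideal.dvd_iff_le.2 Ideal.le_pow_ramificationIdx'

theorem ramified_finite (F H : Type) [Field F] [NumberField F] [Field H] [NumberField H] [Algebra F H] [IsGalois F H] :
    {q : Prm F | Ramified H q}.Finite := by
  have hD : differentIdeal (𝓞 F) (𝓞 H) ≠ ⊥ := differentIdeal_ne_bot
  have h1 : {Q : Prm H | Q.asIdeal ∣ differentIdeal (𝓞 F) (𝓞 H)}.Finite := Ideal.finite_factors hD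
  refine (h1.image fun Q : Prm H => Q.under (𝓞 F)).subset ?_
  rintro q ⟨Q, hQ, hQq, hne⟩
  have hQ0 : Q ≠ ⊥ := Ideal.ne_bot_of_liesOver_of_ne_bot q.ne_bot Q
  refine ⟨⟨Q, hQ, hQ0⟩, ?_, ?_⟩
  · have h2 := dvd_different_of_ram (H := H) q hQ hQq
    rw [← card_inertia_eq q hQ hQq] at h2
    have h3 : 1 < Nat.card (Q.inertia Gal(H/F)) := by
      have h4 := Nat.card_pos (α := Q.inertia Gal(H/F))
      have h5 : Nat.card (Q.inertia Gal(H/F)) ≠ 1 := fun h6 => hne (Subgroup.card_eq_one.1 h6)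
      omega
    exact (dvd_pow_self Q (by omega)).trans h2
  · apply HeightOneSpectrum.ext
    exact hQq.over.symm

variable (F H) in
/-- the product of the ramified primes -/
noncomputable def ramProd [IsGalois F H] : Ideal (𝓞 F) := ∏ q ∈ (ramified_finite F H).toFinset, q.asIdeal

theorem absNorm_ramProd [IsGalois F H] : Ideal.absNorm (ramProd F H) = radN F H := by
  unfold ramProd radN
  rw [finprod_mem_eq_finite_toFinset_prod _ (ramified_finite F H), map_prod]
  rfl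

theorem ramProd_ne_bot [IsGalois F H] : ramProd F H ≠ ⊥ := by
  unfold ramProd
  rw [← Ideal.zero_eq_bot, Finset.prod_ne_zero_iff]
  exact fun q _ => q.ne_bot

theorem emult_ramProd [IsGalois F H] (q : Prm F) [Decidable (Ramified H q)] :
    emultiplicity q.asIdeal (ramProd F H) = if Ramified H q then 1 else 0 := by
  classical
  unfold ramProd
  rw [Finset.emultiplicity_prod q.prime]
  have h1 : ∀ q' : Prm F, emultiplicity q.asIdeal q'.asIdeal = if q' = q then 1 else 0 := by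
    intro q'
    by_cases h : q' = q
    · rw [if_pos h, h]
      exact (FiniteMultiplicity.of_prime_left q.prime q.prime.ne_zero).emultiplicity_self
    · rw [if_neg h]
      refine emultiplicity_eq_zero.2 fun h2 => h ?_
      rw [Ideal.dvd_iff_le] at h2
      exact HeightOneSpectrum.ext (q'.isMaximal.eq_of_le q.isPrime.ne_top h2)
  simp only [h1]
  rw [Finset.sum_ite_eq']
  simp only [Set.Finite.mem_toFinset, Set.mem_ofPred_eq]

theorem emult_map [IsGalois F H] (q : Prm F) {P : Ideal (𝓞 H)} (hP : Prime P) (hPq : P.LiesOver q.asIdeal) {I : Ideal (𝓞 F)} (hI : I ≠ ⊥) :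
    emultiplicity P (I.map (algebraMap (𝓞 F) (𝓞 H))) = q.asIdeal.ramificationIdx' P * emultiplicity q.asIdeal I := by
  exact Ideal.IsDedekindDomain.emultiplicity_map_eq_ramificationIdx'_mul (v := q.asIdeal) (w := P) (I := I) hI
    q.irreducible hP.irreducible hP.ne_zero

theorem lower_dvd [IsGalois F H] {l : ℕ} (hl : l.Prime) (hexp : ∀ σ : Gal(H/F), σ ^ l = 1) :
    ((ramProd F H).map (algebraMap (𝓞 F) (𝓞 H))) ^ (l - 1) ∣ differentIdeal (𝓞 F) (𝓞 H) ^ l := by
  classical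
  have hJ : (ramProd F H).map (algebraMap (𝓞 F) (𝓞 H)) ≠ ⊥ := Ideal.map_ne_bot_of_ne_bot ramProd_ne_bot
  rw [UniqueFactorizationMonoid.dvd_iff_emultiplicity_le (pow_ne_zero _ hJ)]
  intro P hP
  have hPp : P.IsPrime := Ideal.isPrime_of_prime hP
  let q : Prm F := (⟨P, hPp, hP.ne_zero⟩ : Prm H).under (𝓞 F)
  have hPq : P.LiesOver q.asIdeal := ⟨rfl⟩
  rw [emultiplicity_pow hP, emultiplicity_pow hP, emult_map q hP hPq ramProd_ne_bot, emult_ramProd]
  by_cases hq : Ramified H q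
  · rw [if_pos hq, mul_one]
    have h1 := le_ram_idx hl hexp hq hPp hPq
    have h2 := le_emultiplicity_of_pow_dvd (dvd_different_of_ram (H := H) q hPp hPq)
    refine le_trans ?_ (mul_le_mul_right h2 _)
    norm_cast
    obtain ⟨l', rfl⟩ : ∃ l', l = l' + 1 := ⟨l - 1, by have := hl.pos; omega⟩
    obtain ⟨e', he'⟩ : ∃ e', q.asIdeal.ramificationIdx' P = e' + 1 := ⟨q.asIdeal.ramificationIdx' P - 1, by omega⟩
    rw [he'] at h1 ⊢
    simp only [Nat.add_sub_cancel]
    nlinarith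
  · rw [if_neg hq, mul_zero, mul_zero]
    exact zero_le

theorem upper_dvd [IsGalois F H] {l k : ℕ} (hl : l.Prime) (hexp : ∀ σ : Gal(H/F), σ ^ l = 1) (hn : Module.finrank F H = l ^ k) :
    differentIdeal (𝓞 F) (𝓞 H) ^ l ∣ (Ideal.map (algebraMap (𝓞 F) (𝓞 H)) (Ideal.span {((l * l ^ k : ℕ) : 𝓞 F)})) ^ l *
      ((ramProd F H).map (algebraMap (𝓞 F) (𝓞 H))) ^ (l - 1) := by
  classical
  have hD : differentIdeal (𝓞 F) (𝓞 H) ≠ ⊥ := differentIdeal_ne_bot
  have hN0 : ((l * l ^ k : ℕ) : 𝓞 F) ≠ 0 := Nat.cast_ne_zero.2 (Nat.mul_ne_zero hl.ne_zero (pow_ne_zero _ hl.ne_zero))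
  have hN : Ideal.span {((l * l ^ k : ℕ) : 𝓞 F)} ≠ ⊥ := by rwa [Ne, Ideal.span_singleton_eq_bot]
  rw [UniqueFactorizationMonoid.dvd_iff_emultiplicity_le (pow_ne_zero _ hD)]
  intro P hP
  have hPp : P.IsPrime := Ideal.isPrime_of_prime hP
  let q : Prm F := (⟨P, hPp, hP.ne_zero⟩ : Prm H).under (𝓞 F)
  have hPq : P.LiesOver q.asIdeal := ⟨rfl⟩
  rw [emultiplicity_mul hP, emultiplicity_pow hP, emultiplicity_pow hP, emultiplicity_pow hP, emult_map q hP hPq ramProd_ne_bot, emult_ramProd,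
    emult_map q hP hPq hN]
  have hfm : FiniteMultiplicity P (differentIdeal (𝓞 F) (𝓞 H)) := FiniteMultiplicity.of_prime_left hP hD
  rw [hfm.emultiplicity_eq_multiplicity]
  set v := multiplicity P (differentIdeal (𝓞 F) (𝓞 H)) with hv
  set e := q.asIdeal.ramificationIdx' P with he
  by_cases hlq : ((l : ℕ) : 𝓞 F) ∈ q.asIdeal
  · -- a wild prime
    have hn0 : ((Module.finrank F H : ℕ) : 𝓞 F) ≠ 0 := Nat.cast_ne_zero.2 (by rw [hn]; exact pow_ne_zero _ hl.ne_zero)
    have hnI : Ideal.span {((Module.finrank F H : ℕ) : 𝓞 F)} ≠ ⊥ := by rwa [Ne, Ideal.span_singleton_eq_bot]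
    have hfn : FiniteMultiplicity q.asIdeal (Ideal.span {((Module.finrank F H : ℕ) : 𝓞 F)}) := FiniteMultiplicity.of_prime_left q.prime hnI
    set m := multiplicity q.asIdeal (Ideal.span {((Module.finrank F H : ℕ) : 𝓞 F)}) with hm
    have h1 : ((Module.finrank F H : ℕ) : 𝓞 F) ∉ q.asIdeal ^ (m + 1) := by
      intro h2
      have h3 := hfn.not_pow_dvd_of_multiplicity_lt (m := m + 1) (by omega)
      exact h3 (Ideal.dvd_span_singleton.2 h2)
    have h2 : ((Module.finrank F H : ℕ) : 𝓞 F) ∈ q.asIdeal ^ m := Ideal.dvd_span_singleton.1 (pow_multiplicity_dvd _ _)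
    have h3 := not_pow_dvd_different q hPp hPq h1
    have h4 : v < e * (m + 1) := by
      by_contra h5
      exact h3 ((pow_dvd_pow P (not_lt.1 h5)).trans (pow_multiplicity_dvd _ _))
    have h5 : ((m + 1 : ℕ) : ℕ∞) ≤ emultiplicity q.asIdeal (Ideal.span {((l * l ^ k : ℕ) : 𝓞 F)}) := by
      refine le_emultiplicity_of_pow_dvd (Ideal.dvd_span_singleton.2 ?_)
      rw [Nat.cast_mul, pow_succ', ← hn]
      exact Ideal.mul_mem_mul hlq h2
    calc (l : ℕ∞) * (v : ℕ∞) ≤ (l : ℕ∞) * ((e : ℕ∞) * ((m + 1 : ℕ) : ℕ∞)) := by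
          refine mul_le_mul_right ?_ _
          exact_mod_cast h4.le
      _ ≤ (l : ℕ∞) * ((e : ℕ∞) * emultiplicity q.asIdeal (Ideal.span {((l * l ^ k : ℕ) : 𝓞 F)})) :=
          mul_le_mul_right (mul_le_mul_right h5 _) _
      _ ≤ _ := le_self_add
  · -- a tame prime
    have h1 : ((Module.finrank F H : ℕ) : 𝓞 F) ∉ q.asIdeal ^ (0 + 1) := by
      rw [zero_add, pow_one, hn, Nat.cast_pow]
      exact fun h2 => hlq (q.isPrime.mem_of_pow_mem _ h2)
    have h3 := not_pow_dvd_different q hPp hPq h1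
    rw [zero_add, mul_one] at h3
    have h4 : v < e := by
      by_contra h5
      exact h3 ((pow_dvd_pow P (not_lt.1 h5)).trans (pow_multiplicity_dvd _ _))
    by_cases hv0 : v = 0
    · rw [hv0, Nat.cast_zero, mul_zero]
      exact zero_le
    · have hcard := card_inertia_eq (H := H) q hPp hPq
      have h5 : Ramified H q := by
        refine ⟨P, hPp, hPq, fun h6 => ?_⟩
        rw [h6, Subgroup.card_bot] at hcard
        omega
      have h6 : ((l : ℕ) : 𝓞 H) ∉ P := by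
        intro h7
        apply hlq
        have h8 : algebraMap (𝓞 F) (𝓞 H) ((l : ℕ) : 𝓞 F) ∈ P := by rwa [map_natCast]
        exact h8
      have h7 : e ≤ l := by
        rw [he, ← hcard]
        exact card_inertia_le hPp hP.ne_zero hl.pos h6 hexp
      rw [if_pos h5, mul_one]
      refine le_trans ?_ le_add_self
      norm_cast
      obtain ⟨l', rfl⟩ : ∃ l', l = l' + 1 := ⟨l - 1, by have := hl.pos; omega⟩
      simp only [Nat.add_sub_cancel]
      nlinarith

/-- **The discriminant and the product of the ramified primes.** -/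
theorem disc_bounds [IsGalois F H] {l k : ℕ} (hl : l.Prime) (hk : 1 ≤ k) (hexp : ∀ σ : Gal(H/F), σ ^ l = 1) (hn : Module.finrank F H = l ^ k) :
    radN F H ^ (l ^ (k - 1) * (l - 1)) ≤ (discr H).natAbs ∧
    (discr H).natAbs ≤ ((l * l ^ k) ^ (Module.finrank ℚ F * l ^ k) * (discr F).natAbs ^ (l ^ k)) * radN F H ^ (l ^ (k - 1) * (l - 1)) := by
  have hD : differentIdeal (𝓞 F) (𝓞 H) ≠ ⊥ := differentIdeal_ne_bot
  have hd := NumberField.natAbs_discr_eq_absNorm_differentIdeal_mul_natAbs_discr_pow F (𝓞 F) H (𝓞 H)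
  rw [hn] at hd
  have hdF : 1 ≤ (discr F).natAbs := Nat.one_le_iff_ne_zero.2 (Int.natAbs_ne_zero.2 (NumberField.discr_ne_zero F))
  have hnorm : ∀ I : Ideal (𝓞 F), Ideal.absNorm (I.map (algebraMap (𝓞 F) (𝓞 H))) = Ideal.absNorm I ^ (l ^ k) := by
    intro I
    rw [Ideal.absNorm_algebraMap, ← IsFractionRing.finrank_eq (𝓞 F) F (𝓞 H) H, hn]
  have hkk : l ^ k * (l - 1) = l * (l ^ (k - 1) * (l - 1)) := by
    obtain ⟨k', rfl⟩ : ∃ k', k = k' + 1 := ⟨k - 1, by omega⟩
    simp only [Nat.add_sub_cancel, pow_succ]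
    ring
  set N := Ideal.absNorm (differentIdeal (𝓞 F) (𝓞 H)) with hN
  have hN0 : N ≠ 0 := fun h => hD (Ideal.absNorm_eq_zero_iff.1 h)
  have hlow : radN F H ^ (l ^ (k - 1) * (l - 1)) ≤ N := by
    have h2 := Ideal.absNorm_dvd_absNorm_of_le (Ideal.le_of_dvd (lower_dvd (F := F) (H := H) hl hexp))
    rw [map_pow, map_pow, hnorm, absNorm_ramProd, ← pow_mul, hkk, mul_comm l, pow_mul] at h2
    have h1 := Nat.le_of_dvd (Nat.pos_of_ne_zero (pow_ne_zero l hN0)) h2
    exact (Nat.pow_le_pow_iff_left hl.ne_zero).1 h1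
  have hup : N ≤ (l * l ^ k) ^ (Module.finrank ℚ F * l ^ k) * radN F H ^ (l ^ (k - 1) * (l - 1)) := by
    have hN1 : Ideal.absNorm (Ideal.span {((l * l ^ k : ℕ) : 𝓞 F)}) = (l * l ^ k) ^ Module.finrank ℚ F := by
      rw [Ideal.absNorm_span_singleton]
      have h2 := Algebra.norm_algebraMap (S := 𝓞 F) ((l * l ^ k : ℕ) : ℤ)
      rw [map_natCast, RingOfIntegers.rank] at h2
      rw [h2, Int.natAbs_pow, Int.natAbs_natCast]
    have h3 := Ideal.absNorm_dvd_absNorm_of_le (Ideal.le_of_dvd (upper_dvd (F := F) (H := H) hl hexp hn))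
    have h1 := Nat.le_of_dvd (Nat.pos_of_ne_zero (fun h4 => ?_)) h3
    · rw [map_pow, map_mul, map_pow, map_pow, hnorm, hnorm, absNorm_ramProd, hN1, ← pow_mul (radN F H), hkk, mul_comm l (l ^ (k - 1) * (l - 1)),
        pow_mul (radN F H), ← mul_pow, ← pow_mul] at h1
      exact (Nat.pow_le_pow_iff_left hl.ne_zero).1 h1
    · rw [Ideal.absNorm_eq_zero_iff] at h4
      revert h4
      have hN0' : ((l * l ^ k : ℕ) : 𝓞 F) ≠ 0 := Nat.cast_ne_zero.2 (Nat.mul_ne_zero hl.ne_zero (pow_ne_zero _ hl.ne_zero))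
      have hNI : Ideal.span {((l * l ^ k : ℕ) : 𝓞 F)} ≠ ⊥ := by rwa [Ne, Ideal.span_singleton_eq_bot]
      exact mul_ne_zero (pow_ne_zero _ (Ideal.map_ne_bot_of_ne_bot hNI)) (pow_ne_zero _ (Ideal.map_ne_bot_of_ne_bot ramProd_ne_bot))
  rw [hd]
  constructor
  · exact hlow.trans (Nat.le_mul_of_pos_right _ (Nat.pow_pos (by omega)))
  · calc N * (discr F).natAbs ^ (l ^ k) ≤ ((l * l ^ k) ^ (Module.finrank ℚ F * l ^ k) * radN F H ^ (l ^ (k - 1) * (l - 1))) * (discr F).natAbs ^ (l ^ k) :=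
          Nat.mul_le_mul_right _ hup
      _ = _ := by ring

end StarkR
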