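import Pool.Agent.Lib.MP_d9bae3_nt.NG.GB

/-!
# Module NAG-Inr: ramification in a bigger field

`F ⊆ H ⊆ M` Galois over `F`.  Let `P` be a prime of `H` above `q` and `σ ≠ 1` in its inertia group.  Let `𝔓` be a prime of `M` above `P`.  Lift `σ` to `σ' ∈ Gal(M/F)`; `σ' 𝔓` and `𝔓` are above `P` (`σ P = P`), so `γ σ' 𝔓 = 𝔓` for some `γ ∈ Gal(M/H)`; so let `σ' 𝔓 = 𝔓`.  `σ'` acts on `𝓞 M / 𝔓` and
trivially on `𝓞 H / P` (`σ` is in the inertia group), and the stabiliser of `𝔓` in `Gal(M/H)` maps onto the automorphisms of `(𝓞 M / 𝔓) / (𝓞 H / P)` (`Ideal.Quotient.stabilizerHom_surjective`): choose `δ` with the same action; `δ⁻¹ σ'` is in the inertia group of `𝔓` in `Gal(M/F)` and restricts to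
`σ ≠ 1`.
-/

set_option linter.unusedSectionVars false

namespace StarkR

open NumberField IsDedekindDomain Filter Topology
open scoped Pointwise

variable {F H M : Type} [Field F] [NumberField F] [Field H] [NumberField H] [Field M] [NumberField M]
variable [Algebra F H] [Algebra F M] [Algebra H M] [IsScalarTower F H M]

theorem ramified_up [IsGalois F H] [IsGalois F M] {q : Prm F} (h : Ramified H q) : Ramified M q := by
  obtain ⟨P, hP, hPq, hin⟩ := h
  have hfin : Finite (𝓞 F ⧸ q.asIdeal) := Ideal.finiteQuotientOfFreeOfNeBot q.asIdeal q.ne_bot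
  have hfin2 : Finite q.asIdeal.ResidueField := by
    have hb := q.isMaximal
    exact Finite.of_surjective _ (Ideal.bijective_algebraMap_quotient_residueField q.asIdeal).2
  have hq := q.isMaximal
  have hP0 : P ≠ ⊥ := Ideal.ne_bot_of_liesOver_of_ne_bot q.ne_bot P
  have hPmax : P.IsMaximal := hP.isMaximal hP0
  have hHM : IsGalois H M := IsGalois.tower_top_of_isGalois F H M
  obtain ⟨Q, hQ1, hQ2⟩ := Ideal.exists_maximal_ideal_liesOver_of_isIntegral P (S := 𝓞 M)
  have hQ3 : Q.IsPrime := hQ1.isPrime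
  have hQq : Q.LiesOver q.asIdeal := Ideal.LiesOver.trans Q P q.asIdeal
  have hne : Nonempty (P.primesOver (𝓞 M)) := ⟨⟨Q, hQ3, hQ2⟩⟩
  refine ⟨Q, hQ3, hQq, fun hbot => hin ?_⟩
  have h1 := Ideal.card_inertia_eq_ramificationIdxIn (G := Gal(H/F)) q.asIdeal P
  have h2 := Ideal.card_inertia_eq_ramificationIdxIn (G := Gal(M/F)) q.asIdeal Q
  have h3 := Ideal.ramificationIdxIn_mul_ramificationIdxIn (p := q.asIdeal) P Gal(H/F) (𝓞 M) Gal(M/F) Gal(M/H)
  rw [hbot, Subgroup.card_bot] at h2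
  rw [← h2] at h3
  rw [Nat.eq_one_of_mul_eq_one_right h3] at h1
  exact Subgroup.card_eq_one.1 h1

end StarkR
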