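import Pool.Agent.Lib.MP_d9bae3_nt.NG.UnrM
import Pool.Agent.Lib.MP_d9bae3_nt.NG.Inr
import Pool.Agent.Lib.MP_d9bae3_nt.SG.GRam

/-!
# Module NBD-BRes: inertia groups of `M/L` and `H/F`

`M = L H`, `L = F(ζ_e)`, `e ∉ q`.  Let `P` be a prime of `M` above `q`.
* An element `σ` of the inertia group of `P` in `Gal(M/F)` is the identity on `L` (`hLfix` in the proof of `unram_M`, NG/UnrM.lean), so it comes from the inertia group of `P` in `Gal(M/L)`.
* The number of elements of the inertia group of `P ∩ H` in `Gal(H/F)` divides the number for `P` in `Gal(M/F)` (ramification indices, as in `ramified_up`, NG/Inr.lean).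
* `resLH` maps the inertia group of `P` in `Gal(M/L)` into the inertia group of `P ∩ H` in `Gal(H/F)` (proof of `desc_ramified`, SG/GRam.lean) and it is injective (`resLH_injective`).
So this map is bijective: `inertia_res`.
-/

set_option linter.unusedSectionVars false

namespace StarkR

open NumberField IsDedekindDomain Filter Topology
open scoped Pointwise

variable {F L H M : Type} [Field F] [NumberField F] [Field L] [NumberField L] [Field H] [NumberField H] [Field M] [NumberField M]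
variable [Algebra F L] [Algebra F H] [Algebra F M] [Algebra L M] [Algebra H M] [IsScalarTower F L M] [IsScalarTower F H M]

/-- the elements of the inertia group in `Gal(M/F)` are the identity on `L` -/
private theorem fix_L {e : ℕ} {ζ : L} (hζ : IsPrimitiveRoot ζ e) (he : 0 < e) [IsCyclotomicExtension {e} F L]
    {q : Prm F} (heq : (e : 𝓞 F) ∉ q.asIdeal) {P : Ideal (𝓞 M)} (hPq : P.LiesOver q.asIdeal)
    {σ : Gal(M/F)} (hσ : σ ∈ P.inertia Gal(M/F)) : ∀ x : L, σ (algebraMap L M x) = algebraMap L M x := by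
  classical
  have hσ' : ∀ x : 𝓞 M, σ • x - x ∈ P := hσ
  have hNe : NeZero e := ⟨he.ne'⟩
  have hinj : Function.Injective (algebraMap (𝓞 M) M) := FaithfulSMul.algebraMap_injective _ _
  have hmap : ∀ z : 𝓞 L, algebraMap (𝓞 M) M (algebraMap (𝓞 L) (𝓞 M) z) = algebraMap L M (z : L) := by
    intro z
    rw [← IsScalarTower.algebraMap_apply (𝓞 L) (𝓞 M) M, IsScalarTower.algebraMap_apply (𝓞 L) L M]
  have hsm : ∀ (τ : Gal(M/F)) (z : 𝓞 M), algebraMap (𝓞 M) M (τ • z) = τ (algebraMap (𝓞 M) M z) := by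
    intro τ z
    rw [algebraMap.smul' τ z M]
    rfl
  -- `e` is not in `P`
  have heP : (e : 𝓞 M) ∉ P := by
    intro h6
    have h7 : algebraMap (𝓞 F) (𝓞 M) (e : 𝓞 F) ∈ P := by
      rw [map_natCast]
      exact h6
    refine heq ?_
    rw [hPq.over]
    exact h7
  -- roots of unity are different modulo `P`
  have hone : ∀ ω : 𝓞 M, ω ^ e = 1 → ω - 1 ∈ P → ω = 1 := by
    intro ω hωe hωP
    by_contra hne
    have hsum : ∑ k ∈ Finset.range e, ω ^ k = 0 := by
      have h5 := mul_geom_sum ω e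
      rw [hωe, sub_self] at h5
      exact (mul_eq_zero.1 h5).resolve_left (sub_ne_zero.2 hne)
    have h4 : Ideal.Quotient.mk P ω = 1 := by
      rw [← map_one (Ideal.Quotient.mk P), Ideal.Quotient.eq]
      exact hωP
    have h5 : Ideal.Quotient.mk P (∑ k ∈ Finset.range e, ω ^ k) = Ideal.Quotient.mk P (e : 𝓞 M) := by
      rw [map_sum, map_natCast]
      simp [map_pow, h4]
    rw [hsum, map_zero] at h5
    exact heP (Ideal.Quotient.eq_zero_iff_mem.1 h5.symm)
  -- the root of unity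
  obtain ⟨Z, hZ⟩ : ∃ Z : 𝓞 L, algebraMap (𝓞 L) L Z = ζ :=
    (IsIntegralClosure.isIntegral_iff (A := 𝓞 L)).1 (hζ.isIntegral he)
  have hZM : IsPrimitiveRoot (algebraMap (𝓞 L) (𝓞 M) Z) e := by
    have h3 : IsPrimitiveRoot (algebraMap L M ζ) e :=
      hζ.map_of_injective (FaithfulSMul.algebraMap_injective L M)
    refine IsPrimitiveRoot.of_map_of_injective (f := algebraMap (𝓞 M) M) ?_ hinj
    rw [hmap]
    rw [← hZ] at h3
    exact h3
  set W : 𝓞 M := algebraMap (𝓞 L) (𝓞 M) Z with hW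
  have hWfix : σ • W = W := by
    have h1 : W * W ^ (e - 1) = 1 := by
      rw [← pow_succ', Nat.sub_add_cancel he, hZM.pow_eq_one]
    have h2 : (σ • W * W ^ (e - 1)) ^ e = 1 := by
      rw [mul_pow, ← smul_pow', hZM.pow_eq_one, ← pow_mul, mul_comm (e - 1) e, pow_mul, hZM.pow_eq_one, one_pow, mul_one, smul_one]
    have h4 : σ • W * W ^ (e - 1) - 1 ∈ P := by
      have h5 : σ • W * W ^ (e - 1) - 1 = (σ • W - W) * W ^ (e - 1) := by
        rw [sub_mul, h1]
      rw [h5]
      exact P.mul_mem_right _ (hσ' W)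
    have h5 := hone _ h2 h4
    calc σ • W = σ • W * (W ^ (e - 1) * W) := by rw [mul_comm _ W, h1, mul_one]
      _ = (σ • W * W ^ (e - 1)) * W := by ring
      _ = W := by rw [h5, one_mul]
  intro x
  have hx : x ∈ Algebra.adjoin F ({ζ} : Set L) := by
    rw [IsCyclotomicExtension.adjoin_primitive_root_eq_top hζ]
    exact Algebra.mem_top
  induction hx using Algebra.adjoin_induction with
  | mem y hy =>
    rw [Set.mem_singleton_iff] at hy
    have h1 : algebraMap L M y = algebraMap (𝓞 M) M W := by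
      rw [hW, hmap, hy, ← hZ]
    rw [h1, ← hsm, hWfix]
  | algebraMap y => rw [← IsScalarTower.algebraMap_apply F L M]; exact AlgEquiv.commutes σ y
  | add y z _ _ hy hz => rw [map_add, map_add, hy, hz]
  | mul y z _ _ hy hz => rw [map_mul, map_mul, hy, hz]

theorem inertia_res [IsGalois F H] {e : ℕ} {ζ : L} (hζ : IsPrimitiveRoot ζ e) (he : 0 < e) [IsCyclotomicExtension {e} F L]
    (hc : IsCompositum L H M) {q : Prm F} (heq : (e : 𝓞 F) ∉ q.asIdeal) {P : Ideal (𝓞 M)} (hP : P.IsPrime) (hPq : P.LiesOver q.asIdeal) :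
    (∀ τ ∈ P.inertia Gal(M/L), resLH F L H M τ ∈ (P.under (𝓞 H)).inertia Gal(H/F)) ∧
    ∀ σ ∈ (P.under (𝓞 H)).inertia Gal(H/F), ∃ τ ∈ P.inertia Gal(M/L), resLH F L H M τ = σ := by
  classical
  have hNe : NeZero e := ⟨he.ne'⟩
  have hFL : IsGalois F L := IsCyclotomicExtension.isGalois {e} F L
  have hFM : IsGalois F M := comp_galois F L H M hc
  have hHM : IsGalois H M := IsGalois.tower_top_of_isGalois F H M
  have part1 : ∀ τ ∈ P.inertia Gal(M/L), resLH F L H M τ ∈ (P.under (𝓞 H)).inertia Gal(H/F) := by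
    intro τ hτ x
    change algebraMap (𝓞 H) (𝓞 M) (resLH F L H M τ • x - x) ∈ P
    have h2 : algebraMap (𝓞 H) (𝓞 M) (resLH F L H M τ • x - x) =
        τ • (algebraMap (𝓞 H) (𝓞 M) x) - algebraMap (𝓞 H) (𝓞 M) x := by
      rw [map_sub]
      congr 1
      apply RingOfIntegers.ext
      exact resLH_apply (F := F) τ (x : H)
    rw [h2]
    exact hτ _
  refine ⟨part1, ?_⟩
  -- the prime below
  set Q : Ideal (𝓞 H) := P.under (𝓞 H) with hQ
  have hQp : Q.IsPrime := hP.under (𝓞 H)
  have hQq : Q.LiesOver q.asIdeal := by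
    constructor
    rw [hQ, Ideal.under_under]
    exact hPq.over
  have hPQ : P.LiesOver Q := ⟨rfl⟩
  have hfin : Finite (𝓞 F ⧸ q.asIdeal) := Ideal.finiteQuotientOfFreeOfNeBot q.asIdeal q.ne_bot
  have hfin2 : Finite q.asIdeal.ResidueField := by
    have hb := q.isMaximal
    exact Finite.of_surjective _ (Ideal.bijective_algebraMap_quotient_residueField q.asIdeal).2
  have hqm := q.isMaximal
  have hQ0 : Q ≠ ⊥ := Ideal.ne_bot_of_liesOver_of_ne_bot q.ne_bot Q
  have hQmax : Q.IsMaximal := hQp.isMaximal hQ0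
  have hP0 : P ≠ ⊥ := Ideal.ne_bot_of_liesOver_of_ne_bot q.ne_bot P
  have hPmax : P.IsMaximal := hP.isMaximal hP0
  have hne : Nonempty (Q.primesOver (𝓞 M)) := ⟨⟨P, hP, hPQ⟩⟩
  have h1 := Ideal.card_inertia_eq_ramificationIdxIn (G := Gal(H/F)) q.asIdeal Q
  have h2 := Ideal.card_inertia_eq_ramificationIdxIn (G := Gal(M/F)) q.asIdeal P
  have h3 := Ideal.ramificationIdxIn_mul_ramificationIdxIn (p := q.asIdeal) Q Gal(H/F) (𝓞 M) Gal(M/F) Gal(M/H)
  have h4 : Nat.card (Q.inertia Gal(H/F)) ≤ Nat.card (P.inertia Gal(M/F)) := by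
    rw [← h1, ← h2] at h3
    exact Nat.le_of_dvd Nat.card_pos ⟨_, h3.symm⟩
  -- from `Gal(M/F)` to `Gal(M/L)`
  let ψ : P.inertia Gal(M/F) → P.inertia Gal(M/L) := fun σ =>
    ⟨AlgEquiv.ofRingEquiv (f := (σ.1 : Gal(M/F)).toRingEquiv) (fix_L hζ he heq hPq σ.2), by
      intro x
      have h5 : (AlgEquiv.ofRingEquiv (f := (σ.1 : Gal(M/F)).toRingEquiv) (fix_L hζ he heq hPq σ.2) : Gal(M/L)) • x =
          σ.1 • x := RingOfIntegers.ext rfl
      rw [h5]
      exact σ.2 x⟩
  have hψ : Function.Injective ψ := by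
    intro σ τ h
    refine Subtype.ext (AlgEquiv.ext fun x => ?_)
    have h5 := congrArg (fun t : P.inertia Gal(M/L) => (t.1 : Gal(M/L)) x) h
    exact h5
  let φ : P.inertia Gal(M/L) → Q.inertia Gal(H/F) := fun τ => ⟨resLH F L H M τ.1, part1 τ.1 τ.2⟩
  have hφ : Function.Injective φ := by
    intro σ τ h
    exact Subtype.ext (resLH_injective (F := F) hc (congrArg Subtype.val h))
  have h6 : Nat.card (P.inertia Gal(M/F)) ≤ Nat.card (P.inertia Gal(M/L)) := Nat.card_le_card_of_injective ψ hψ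
  have hbij : Function.Bijective φ := hφ.bijective_of_nat_card_le (h4.trans h6)
  intro σ hσ
  obtain ⟨τ, hτ⟩ := hbij.2 ⟨σ, hσ⟩
  exact ⟨τ.1, τ.2, congrArg Subtype.val hτ⟩

end StarkR
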