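import Pool.Agent.Lib.MP_d9bae3_nt.NG.GB
import Pool.Agent.Lib.MP_d9bae3_nt.NA.RamT

/-!
# Module NAG-UnrM: unramified primes of `M/F`

Let `σ` be in the inertia group in `Gal(M/F)` of a prime `P` of `M` above `q`.  `σ ζ = ζ^j` (`L/F` is cyclotomic, or only: `(σ ζ)^e = 1`), `σ ζ - ζ ∈ P`; `e ∉ P` as `e ∉ q`; so `σ ζ = ζ` (as in `unram_of`, NA/RamT.lean) and `σ` is the identity on `L = F(ζ)`; so `σ` is in the inertia group of `P` in `Gal(M/L)`, and the argument of `unram_of` for
`Q = P ∩ L` (only the condition for this `Q` is used there; or apply `unram_of` over `L`) gives `σ = 1`.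
-/

set_option linter.unusedSectionVars false

namespace StarkR

open NumberField IsDedekindDomain Filter Topology
open scoped Pointwise

variable {F L M : Type} [Field F] [NumberField F] [Field L] [NumberField L] [Field M] [NumberField M]
variable [Algebra F L] [Algebra F M] [Algebra L M] [IsScalarTower F L M] {m : ℕ} {n : Fin m → ℕ} [∀ i, NeZero (n i)]

theorem unram_M {e : ℕ} {ζ : L} (hζ : IsPrimitiveRoot ζ e) (he : 0 < e) (hn : ∀ i, n i ∣ e) [IsCyclotomicExtension {e} F L]
    {B : V n → 𝓞 L} {α : Fin m → M} (h : IsExt B M α) {q : Prm F} (heq : (e : 𝓞 F) ∉ q.asIdeal)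
    (h3 : ∀ Q : Prm L, Q.under (𝓞 F) = q → ∀ w, B w ∉ Q.asIdeal) : ¬ Ramified M q := by
  classical
  rintro ⟨P, hP, hPq, hne⟩
  refine hne ?_
  rw [eq_bot_iff]
  intro σ hσ
  rw [Subgroup.mem_bot]
  have hσ' : ∀ x : 𝓞 M, σ • x - x ∈ P := hσ
  have hNe : NeZero e := ⟨he.ne'⟩
  have hinj : Function.Injective (algebraMap (𝓞 M) M) := FaithfulSMul.algebraMap_injective _ _
  have hmap : ∀ z : 𝓞 L, algebraMap (𝓞 M) M (algebraMap (𝓞 L) (𝓞 M) z) = algebraMap L M (z : L) := by
    intro z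
    rw [← IsScalarTower.algebraMap_apply (𝓞 L) (𝓞 M) M, IsScalarTower.algebraMap_apply (𝓞 L) L M]
  have hsm : ∀ (τ : Gal(M/F)) (z : 𝓞 M), algebraMap (𝓞 M) M (τ • z) = τ (algebraMap (𝓞 M) M z) := by
    intro τ z
    rw [algebraMap.smul' τ z M]
    rfl
  -- `e` is not in `P`
  have heP : (e : 𝓞 M) ∉ P := by
    intro h6
    have h7 : algebraMap (𝓞 F) (𝓞 M) (e : 𝓞 F) ∈ P := by
      rw [map_natCast]
      exact h6
    refine heq ?_
    rw [hPq.over]
    exact h7
  -- roots of unity are different modulo `P`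
  have hone : ∀ ω : 𝓞 M, ω ^ e = 1 → ω - 1 ∈ P → ω = 1 := by
    intro ω hωe hωP
    by_contra hne
    have hsum : ∑ k ∈ Finset.range e, ω ^ k = 0 := by
      have h5 := mul_geom_sum ω e
      rw [hωe, sub_self] at h5
      exact (mul_eq_zero.1 h5).resolve_left (sub_ne_zero.2 hne)
    have h4 : Ideal.Quotient.mk P ω = 1 := by
      rw [← map_one (Ideal.Quotient.mk P), Ideal.Quotient.eq]
      exact hωP
    have h5 : Ideal.Quotient.mk P (∑ k ∈ Finset.range e, ω ^ k) = Ideal.Quotient.mk P (e : 𝓞 M) := by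
      rw [map_sum, map_natCast]
      simp [map_pow, h4]
    rw [hsum, map_zero] at h5
    exact heP (Ideal.Quotient.eq_zero_iff_mem.1 h5.symm)
  -- the root of unity
  obtain ⟨Z, hZ⟩ : ∃ Z : 𝓞 L, algebraMap (𝓞 L) L Z = ζ :=
    (IsIntegralClosure.isIntegral_iff (A := 𝓞 L)).1 (hζ.isIntegral he)
  have hZM : IsPrimitiveRoot (algebraMap (𝓞 L) (𝓞 M) Z) e := by
    have h3 : IsPrimitiveRoot (algebraMap L M ζ) e :=
      hζ.map_of_injective (FaithfulSMul.algebraMap_injective L M)
    refine IsPrimitiveRoot.of_map_of_injective (f := algebraMap (𝓞 M) M) ?_ hinj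
    rw [hmap]
    rw [← hZ] at h3
    exact h3
  set W : 𝓞 M := algebraMap (𝓞 L) (𝓞 M) Z with hW
  have hWfix : σ • W = W := by
    have h1 : W * W ^ (e - 1) = 1 := by
      rw [← pow_succ', Nat.sub_add_cancel he, hZM.pow_eq_one]
    have h2 : (σ • W * W ^ (e - 1)) ^ e = 1 := by
      rw [mul_pow, ← smul_pow', hZM.pow_eq_one, ← pow_mul, mul_comm (e - 1) e, pow_mul, hZM.pow_eq_one, one_pow, mul_one, smul_one]
    have h4 : σ • W * W ^ (e - 1) - 1 ∈ P := by
      have h5 : σ • W * W ^ (e - 1) - 1 = (σ • W - W) * W ^ (e - 1) := by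
        rw [sub_mul, h1]
      rw [h5]
      exact P.mul_mem_right _ (hσ' W)
    have h5 := hone _ h2 h4
    calc σ • W = σ • W * (W ^ (e - 1) * W) := by rw [mul_comm _ W, h1, mul_one]
      _ = (σ • W * W ^ (e - 1)) * W := by ring
      _ = W := by rw [h5, one_mul]
  -- `σ` is the identity on `L`
  have hLfix : ∀ x : L, σ (algebraMap L M x) = algebraMap L M x := by
    intro x
    have hx : x ∈ Algebra.adjoin F ({ζ} : Set L) := by
      rw [IsCyclotomicExtension.adjoin_primitive_root_eq_top hζ]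
      exact Algebra.mem_top
    induction hx using Algebra.adjoin_induction with
    | mem y hy =>
      rw [Set.mem_singleton_iff] at hy
      have h1 : algebraMap L M y = algebraMap (𝓞 M) M W := by
        rw [hW, hmap, hy, ← hZ]
      rw [h1, ← hsm, hWfix]
    | algebraMap y => rw [← IsScalarTower.algebraMap_apply F L M]; exact AlgEquiv.commutes σ y
    | add y z _ _ hy hz => rw [map_add, map_add, hy, hz]
    | mul y z _ _ hy hz => rw [map_mul, map_mul, hy, hz]
  have hfix : ∀ z : 𝓞 L, σ • (algebraMap (𝓞 L) (𝓞 M) z) = algebraMap (𝓞 L) (𝓞 M) z := by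
    intro z
    apply hinj
    rw [hsm, hmap]
    exact hLfix _
  -- the prime of `L` below `P`
  obtain ⟨Q, hQ⟩ : ∃ Q : Prm L, Q.asIdeal = P.under (𝓞 L) := by
    refine ⟨⟨P.under (𝓞 L), hP.under (𝓞 L), ?_⟩, rfl⟩
    intro hbot
    have h1 : P.under (𝓞 F) = (P.under (𝓞 L)).under (𝓞 F) := by rw [Ideal.under_under]
    rw [hbot] at h1
    apply q.ne_bot
    rw [hPq.over, h1]
    exact Ideal.comap_bot_of_injective _ (FaithfulSMul.algebraMap_injective (𝓞 F) (𝓞 L))
  have hQq : Q.under (𝓞 F) = q := by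
    apply HeightOneSpectrum.ext
    rw [HeightOneSpectrum.under_asIdeal, hQ, Ideal.under_under, ← hPq.over]
  have hQp : Q.asIdeal.IsPrime := Q.isPrime
  have hmemQ : ∀ z : 𝓞 L, algebraMap (𝓞 L) (𝓞 M) z ∈ P ↔ z ∈ Q.asIdeal := by
    intro z
    rw [hQ]
    rfl
  have hαfix : ∀ i, σ (α i) = α i := by
    intro i
    have hint : IsIntegral ℤ (α i) := by
      refine IsIntegral.of_pow (Nat.pos_of_ne_zero (NeZero.ne (n i))) ?_
      rw [h.pow i]
      exact (RingOfIntegers.isIntegral_coe (rad B i)).algebraMap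
    obtain ⟨y, hy⟩ : ∃ y : 𝓞 M, algebraMap (𝓞 M) M y = α i :=
      (IsIntegralClosure.isIntegral_iff (A := 𝓞 M)).1 hint
    have hyp : y ^ n i = algebraMap (𝓞 L) (𝓞 M) (rad B i) := by
      apply hinj
      rw [map_pow, hy, hmap]
      exact h.pow i
    have hradq : rad B i ∉ Q.asIdeal := by
      intro hmem
      unfold rad at hmem
      rw [hQp.prod_mem_iff] at hmem
      obtain ⟨w, _, hwm⟩ := hmem
      exact h3 Q hQq w (hQp.mem_of_pow_mem _ hwm)
    have hyQ : y ∉ P := by
      intro hmem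
      have h4 : algebraMap (𝓞 L) (𝓞 M) (rad B i) ∈ P := by
        rw [← hyp]
        exact Ideal.pow_mem_of_mem _ hmem _ (Nat.pos_of_ne_zero (NeZero.ne (n i)))
      exact hradq ((hmemQ _).1 h4)
    have hy0 : y ≠ 0 := fun h0 => hyQ (h0 ▸ P.zero_mem)
    have hyH0 : algebraMap (𝓞 M) M y ≠ 0 := by
      intro h0
      exact hy0 (hinj (by rw [h0, map_zero]))
    have hσye : (σ • y) ^ n i = y ^ n i := by
      rw [← smul_pow', hyp, hfix]
    have hσye' : (σ • y) ^ e = y ^ e := by
      obtain ⟨t, ht⟩ := hn i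
      rw [ht, pow_mul, hσye, ← pow_mul]
    obtain ⟨j, hj⟩ : ∃ j : ℕ, σ • y = W ^ j * y := by
      have h5 : IsPrimitiveRoot (algebraMap (𝓞 M) M W) e := hZM.map_of_injective hinj
      have h4 : (algebraMap (𝓞 M) M (σ • y) / algebraMap (𝓞 M) M y) ^ e = 1 := by
        rw [div_pow, ← map_pow, ← map_pow, hσye', div_self]
        rw [map_pow]
        exact pow_ne_zero _ hyH0
      obtain ⟨k, _, hk⟩ := h5.eq_pow_of_pow_eq_one h4
      refine ⟨k, hinj ?_⟩
      rw [map_mul, map_pow, hk, div_mul_cancel₀]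
      exact hyH0
    have hωe : (W ^ j) ^ e = 1 := by
      rw [← pow_mul, mul_comm, pow_mul, hZM.pow_eq_one, one_pow]
    have hωQ : W ^ j - 1 ∈ P := by
      have h5 : (W ^ j - 1) * y ∈ P := by
        have h4 : (W ^ j - 1) * y = σ • y - y := by rw [hj]; ring
        rw [h4]
        exact hσ' y
      exact (hP.mem_or_mem h5).resolve_right hyQ
    rw [← hy, ← hsm, hj, hone _ hωe hωQ, one_mul]
  have hall : ∀ x : M, σ x = x := by
    intro x
    have hx : x ∈ IntermediateField.adjoin L (Set.range α) := by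
      rw [h.gen]
      exact IntermediateField.mem_top
    induction hx using IntermediateField.adjoin_induction with
    | mem y hy =>
      obtain ⟨i, rfl⟩ := hy
      exact hαfix i
    | algebraMap y => exact hLfix y
    | add y z _ _ hy hz => rw [map_add, hy, hz]
    | inv y _ hy => rw [map_inv₀, hy]
    | mul y z _ _ hy hz => rw [map_mul, hy, hz]
  exact AlgEquiv.ext hall

end StarkR
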