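import Pool.Agent.Lib.MP_d9bae3_nt.NG.UT
import Pool.Agent.Lib.MP_d9bae3_nt.NG.Inr
import Pool.Agent.Lib.MP_d9bae3_nt.NG.UnrM
import Pool.Agent.Lib.MP_d9bae3_nt.NA.RamT
import Pool.Agent.Lib.MP_d9bae3_nt.SG.GRam
import Pool.Agent.Lib.MP_d9bae3_nt.NA.NDefs

/-!
# Module NAG-RadGe: the product of the ramified primes, lower bound

Let `T i ≤ q`, `q : Prm (K i)` (so `q ∉ SK i`).  Let `Q` be a prime of `L` above `q` (`exists_over`).  `Q ∉ SL`.  `uT rep T Q = rep (i, 1) =: w` (`uT_eq`, `cjP_one`).  By `ordQ_bG`, `B_w ∈ Q ∖ Q^2` and `B_w' ∉ Q` for `w' ≠ w` (`w' = 0`: `B_0 = 1`); so `Ramified M Q` (over `L`) by `ram_of` (NA/RamT.lean, for the field `L`), and `Ramified H (Q.under (𝓞 F))`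
by `desc_ramified` (SG/GRam.lean).  So the primes `q ∩ F`, for all `(i, q)` with `T i ≤ q`, are ramified in `H` and different (`SqG`), with `N(q ∩ F) = N(q)`.  `N(T i)` is the product of the `N(q)`, `T i ≤ q` (squarefree; see NA/RadB.lean).  The set of the primes of `F` which ramify in `H` is finite (see NA/RadB.lean; or: `e`-divisors and the primes below
the divisors of the `B_w`, by `ramified_up` and `unram_M`; or the different).
-/

set_option linter.unusedSectionVars false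

namespace StarkR

open NumberField IsDedekindDomain Filter Topology
open scoped Pointwise

variable {F L : Type} [Field F] [NumberField F] [Field L] [NumberField L] [Algebra F L]
variable {ι : Type} [Fintype ι] {K : ι → Type} [∀ i, Field (K i)] [∀ i, NumberField (K i)]
variable [∀ i, Algebra F (K i)] [∀ i, Algebra (K i) L] [∀ i, IsScalarTower F (K i) L]
variable {m : ℕ} {n : Fin m → ℕ} [∀ i, NeZero (n i)]
variable {e : ℕ} {ζ : L} {d : ι → ℕ} {z : (i : ι) → K i} {t : (i : ι) → Gal(K i/F) → ℕ} {v : ι → V n} {rep : (Σ i, Gal(K i/F)) ≃ W n}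
variable {S : Finset (Prm F)} {SL : Finset (Prm L)} {SK : (i : ι) → Finset (Prm (K i))} {g : (i : ι) → Ideal (𝓞 (K i)) → 𝓞 (K i)}
variable {H M : Type} [Field H] [NumberField H] [Field M] [NumberField M] [Algebra F H] [Algebra F M] [Algebra L M] [Algebra H M]
variable [IsScalarTower F L M] [IsScalarTower F H M]

/-- The norm of a squarefree ideal is the product of the norms of its prime divisors. -/
private theorem RadGe_norm {E : Type} [Field E] [NumberField E] {I : Ideal (𝓞 E)} (hI : I ≠ ⊥) (h2 : ∀ q : Prm E, ¬ I ≤ q.asIdeal ^ 2)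
    {D : Finset (Prm E)} (hD : ∀ q, q ∈ D ↔ I ≤ q.asIdeal) : Ideal.absNorm I = ∏ q ∈ D, nm q := by
  classical
  have hinj : Set.InjOn (fun q : Prm E => q.asIdeal) (D : Set (Prm E)) := fun a _ b _ h => HeightOneSpectrum.ext h
  have h1 : ∏ q ∈ D, q.asIdeal ∣ I := by
    rw [← Finset.prod_image (s := D) (f := fun J : Ideal (𝓞 E) => J) (g := fun q : Prm E => q.asIdeal) hinj]
    refine Finset.prod_primes_dvd I ?_ ?_
    · intro P hP
      obtain ⟨q, hq, rfl⟩ := Finset.mem_image.1 hP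
      exact q.prime
    · intro P hP
      obtain ⟨q, hq, rfl⟩ := Finset.mem_image.1 hP
      exact Ideal.dvd_iff_le.2 ((hD q).1 hq)
  obtain ⟨J, hJ⟩ := h1
  have hJ1 : J = ⊤ := by
    by_contra hne
    obtain ⟨P, hPm, hJP⟩ := Ideal.exists_le_maximal J hne
    have hP0 : P ≠ ⊥ := by
      rintro rfl
      have h3 : J = ⊥ := le_bot_iff.1 hJP
      rw [h3, Ideal.mul_bot] at hJ
      exact hI hJ
    have hIq : I ≤ P := by
      rw [hJ]
      exact Ideal.mul_le_right.trans hJP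
    have hqD : (⟨P, hPm.isPrime, hP0⟩ : Prm E) ∈ D := (hD _).2 hIq
    apply h2 ⟨P, hPm.isPrime, hP0⟩
    rw [hJ, pow_two]
    refine Ideal.mul_mono ?_ hJP
    rw [← Finset.mul_prod_erase D _ hqD]
    exact Ideal.mul_le_left
  rw [hJ, hJ1, Ideal.mul_top, map_prod]
  rfl

private theorem RadGe_key (hζ : IsPrimitiveRoot ζ e) (he : 0 < e) (hn : ∀ i, n i ∣ e) [IsCyclotomicExtension {e} F L]
    [IsGalois F H]
    (hSS : IsSS (F := F) e S SL SK) (hg : ∀ i, IsGen (SK i) (g i))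
    {T : (i : ι) → Ideal (𝓞 (K i))} (hT : ∀ i, Cop (SK i) (T i)) {ε : V n → 𝓞 L} (hε : ∀ w, IsSU SL (ε w))
    {α : Fin m → M} (h : IsExt (bG rep (fun i => g i (T i)) ε) M α) (hc : IsCompositum L H M) {q : Prm F} (hq : Ramified H q)
    (hqS : q ∉ S) : ∃ p : Σ i, Prm (K i), T p.1 ≤ p.2.asIdeal ∧ p.2.under (𝓞 F) = q := by
  have : NeZero e := ⟨he.ne'⟩
  have hFL : IsGalois F L := IsCyclotomicExtension.isGalois {e} F L
  have hFM : IsGalois F M := comp_galois F L H M hc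
  have hqM : Ramified M q := ramified_up hq
  have heq : (e : 𝓞 F) ∉ q.asIdeal := by
    intro h1
    obtain ⟨Q, hQ⟩ := exists_over (K := F) (L := L) q
    apply hqS
    rw [← hQ, ← hSS.memL]
    apply hSS.goodL.dvd
    have h2 : (e : 𝓞 F) ∈ (Q.under (𝓞 F)).asIdeal := by rw [hQ]; exact h1
    have h3 : algebraMap (𝓞 F) (𝓞 L) (e : 𝓞 F) ∈ Q.asIdeal := h2
    rwa [map_natCast] at h3
  have h1 : ∃ Q : Prm L, Q.under (𝓞 F) = q ∧ ∃ w, bG rep (fun i => g i (T i)) ε w ∈ Q.asIdeal := by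
    by_contra hno
    push Not at hno
    exact unram_M hζ he hn h heq (fun Q hQ w => hno Q hQ w) hqM
  obtain ⟨Q, hQ, w, hw⟩ := h1
  have hQS : Q ∉ SL := by
    rw [hSS.memL, hQ]
    exact hqS
  have hQ1 : (1 : 𝓞 L) ∉ Q.asIdeal := fun h2 => Q.isPrime.ne_top ((Ideal.eq_top_iff_one _).2 h2)
  have hw0 : w ≠ 0 := by
    intro h2
    rw [h2, bG_zero] at hw
    exact hQ1 hw
  obtain ⟨⟨i, τ⟩, hp⟩ := rep.surjective ⟨w, hw0⟩
  have hw2 : ((rep ⟨i, τ⟩ : W n) : V n) = w := congrArg Subtype.val hp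
  rw [← hw2, bG_rep] at hw
  have hw3 := (Q.isPrime.mem_or_mem hw).resolve_left ((hε _).2 Q hQS)
  have hw4 : τ • g i (T i) ∈ (Q.under (𝓞 (K i))).asIdeal := hw3
  obtain ⟨q', hq'⟩ : ∃ q' : Prm (K i), q' = cjP τ⁻¹ (Q.under (𝓞 (K i))) := ⟨_, rfl⟩
  have hu : q'.under (𝓞 F) = q := by
    rw [hq', cjP_under, under_under, hQ]
  have hmem : g i (T i) ∈ q'.asIdeal := by
    have h2 := (smul_mem_cjP τ⁻¹ (Q.under (𝓞 (K i))) (τ • g i (T i))).2 hw4
    rw [inv_smul_smul] at h2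
    rw [hq']
    exact h2
  have hq'S : q' ∉ SK i := by
    rw [hSS.memK, hu]
    exact hqS
  have hTq : T i ≤ q'.asIdeal := by
    have h2 := (hg i (T i) (hT i).1).2 q' hq'S 1
    rw [pow_one] at h2
    exact h2.1 hmem
  exact ⟨⟨i, q'⟩, hTq, hu⟩

private theorem RadGe_ram [IsGalois F H] (hζ : IsPrimitiveRoot ζ e) (he : 0 < e) [IsCyclotomicExtension {e} F L]
    (hlev : IsLev (L := L) e ζ d z t v rep) (hSS : IsSS (F := F) e S SL SK) (hg : ∀ i, IsGen (SK i) (g i))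
    {T : (i : ι) → Ideal (𝓞 (K i))} (hT : ∀ i, Cop (SK i) (T i)) (hT2 : SqG F T) {ε : V n → 𝓞 L} (hε : ∀ w, IsSU SL (ε w))
    {α : Fin m → M} (h : IsExt (bG rep (fun i => g i (T i)) ε) M α) (hc : IsCompositum L H M) {i : ι} {q : Prm (K i)}
    (hq : T i ≤ q.asIdeal) : Ramified H (q.under (𝓞 F)) := by
  classical
  have : NeZero e := ⟨he.ne'⟩
  have hFL : IsGalois F L := IsCyclotomicExtension.isGalois {e} F L
  have hFM : IsGalois F M := comp_galois F L H M hc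
  have hLM : IsGalois L M := IsGalois.tower_top_of_isGalois F L M
  obtain ⟨Q, hQ⟩ := exists_over (K := K i) (L := L) q
  have hqS : q ∉ SK i := fun h1 => (hT i).2 q h1 hq
  have hQF : Q.under (𝓞 F) = q.under (𝓞 F) := by
    rw [← hQ, under_under]
  have hQS : Q ∉ SL := by
    rw [hSS.memL, hQF, ← hSS.memK i]
    exact hqS
  have hu : uT rep T Q = ((rep ⟨i, 1⟩ : W n) : V n) := by
    rw [uT_eq hζ he hlev hSS hT2 hQS]
    change T i ≤ (cjP (1 : Gal(K i/F))⁻¹ (Q.under (𝓞 (K i)))).asIdeal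
    rw [inv_one, cjP_one, hQ]
    exact hq
  have hB0 : bG rep (fun i => g i (T i)) ε 0 = 1 := bG_zero _ _ _
  have hne : ∀ w : V n, bG rep (fun i => g i (T i)) ε w ≠ 0 := by
    intro w
    by_cases hw : w = 0
    · rw [hw, hB0]
      exact one_ne_zero
    · obtain ⟨⟨j, τ⟩, hp⟩ := rep.surjective ⟨w, hw⟩
      have hpw : ((rep ⟨j, τ⟩ : W n) : V n) = w := congrArg Subtype.val hp
      have h1 := bG_rep (F := F) (L := L) rep (fun i => g i (T i)) ε j τ
      rw [hpw] at h1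
      rw [h1]
      refine mul_ne_zero (hε w).1 ?_
      rw [Ne, FaithfulSMul.algebraMap_eq_zero_iff, smul_eq_zero_iff_eq]
      exact (hg j (T j) (hT j).1).1
  have hQ1 : (1 : 𝓞 L) ∉ Q.asIdeal := fun h2 => Q.isPrime.ne_top ((Ideal.eq_top_iff_one _).2 h2)
  have hw0 : ((rep ⟨i, 1⟩ : W n) : V n) ≠ 0 := (rep ⟨i, 1⟩).2
  have hord : ordQ Q (bG rep (fun i => g i (T i)) ε ((rep ⟨i, 1⟩ : W n) : V n)) = 1 := by
    rw [ordQ_bG hζ he hlev hSS hg hT hT2 hε hQS hw0, if_pos hu]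
  have hram : Ramified M Q := by
    refine ram_of h hw0 ?_ ?_ ?_
    · have h1 := mem_pow_iff Q (hne ((rep ⟨i, 1⟩ : W n) : V n)) 1
      rw [pow_one] at h1
      rw [h1, hord]
    · rw [mem_pow_iff Q (hne ((rep ⟨i, 1⟩ : W n) : V n)) 2, hord]
      omega
    · intro w hw
      by_cases hw2 : w = 0
      · rw [hw2, hB0]
        exact hQ1
      · have h1 := mem_pow_iff Q (hne w) 1
        rw [pow_one] at h1
        rw [h1, ordQ_bG hζ he hlev hSS hg hT hT2 hε hQS hw2, if_neg (by rw [hu]; exact fun h3 => hw h3.symm)]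
        omega
  rw [← hQF]
  exact desc_ramified hc hram

theorem radG_ge [IsGalois F H] (hζ : IsPrimitiveRoot ζ e) (he : 0 < e) (hn : ∀ i, n i ∣ e) [IsCyclotomicExtension {e} F L]
    (hlev : IsLev (L := L) e ζ d z t v rep) (hSS : IsSS (F := F) e S SL SK) (hg : ∀ i, IsGen (SK i) (g i))
    {T : (i : ι) → Ideal (𝓞 (K i))} (hT : ∀ i, Cop (SK i) (T i)) (hT2 : SqG F T) {ε : V n → 𝓞 L} (hε : ∀ w, IsSU SL (ε w))
    {α : Fin m → M} (h : IsExt (bG rep (fun i => g i (T i)) ε) M α) (hc : IsCompositum L H M) :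
    ∏ i, Ideal.absNorm (T i) ≤ radN F H := by
  classical
  have hfin : ∀ i, {q' : Prm (K i) | T i ≤ q'.asIdeal}.Finite := by
    intro i
    have h1 := Ideal.finite_factors (hT i).1
    refine h1.subset fun q' hq' => ?_
    exact Ideal.dvd_iff_le.2 hq'
  have hD : ∀ (i : ι) (q : Prm (K i)), q ∈ (hfin i).toFinset ↔ T i ≤ q.asIdeal := fun i q => by
    rw [Set.Finite.mem_toFinset]
    rfl
  have hsq : ∀ (i : ι) (q : Prm (K i)), ¬ T i ≤ q.asIdeal ^ 2 := by
    intro i q h1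
    have h2 : T i ≤ q.asIdeal := h1.trans (Ideal.pow_le_self two_ne_zero)
    exact (hT2.1 i q h2).1 h1
  let P : Finset (Σ i, Prm (K i)) := Finset.univ.sigma fun i => (hfin i).toFinset
  have hP : ∀ p, p ∈ P ↔ T p.1 ≤ p.2.asIdeal := by
    intro p
    rw [Finset.mem_sigma, hD]
    exact ⟨fun h1 => h1.2, fun h1 => ⟨Finset.mem_univ _, h1⟩⟩
  have e1 : ∏ i, Ideal.absNorm (T i) = ∏ q ∈ P.image (fun p => p.2.under (𝓞 F)), nm q := by
    rw [Finset.prod_image, Finset.prod_sigma]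
    · refine Finset.prod_congr rfl fun i _ => ?_
      rw [RadGe_norm (hT i).1 (hsq i) (hD i)]
      exact Finset.prod_congr rfl fun q hq => (hT2.1 i q ((hD i q).1 hq)).2
    · rintro ⟨i, q⟩ h1 ⟨j, q'⟩ h2 h3
      exact hT2.2 i j q q' ((hP _).1 h1) ((hP _).1 h2) h3
  have hR : {q : Prm F | Ramified H q}.Finite := by
    refine ((S ∪ P.image (fun p => p.2.under (𝓞 F)) : Finset (Prm F)).finite_toSet).subset ?_
    intro q hq
    rw [Finset.mem_coe, Finset.mem_union]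
    by_cases hqS : q ∈ S
    · exact Or.inl hqS
    · right
      obtain ⟨p, hp1, hp2⟩ := RadGe_key hζ he hn hSS hg hT hε h hc hq hqS
      exact Finset.mem_image.2 ⟨p, (hP p).2 hp1, hp2⟩
  have hnm : ∀ q : Prm F, 1 ≤ nm q := by
    intro q
    refine Nat.pos_of_ne_zero fun h0 => ?_
    exact q.ne_bot (Ideal.absNorm_eq_zero_iff.1 h0)
  unfold radN
  rw [e1, finprod_mem_eq_finite_toFinset_prod _ hR]
  refine Finset.prod_le_prod_of_subset_of_one_le' ?_ fun q _ _ => hnm q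
  intro q hq
  obtain ⟨p, hp, rfl⟩ := Finset.mem_image.1 hq
  rw [Set.Finite.mem_toFinset]
  exact RadGe_ram hζ he hlev hSS hg hT hT2 hε h hc ((hP p).1 hp)

end StarkR
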