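import Pool.Agent.Lib.MP_d9bae3_nt.NG.BInr
import Pool.Agent.Lib.MP_d9bae3_nt.NG.BRes
import Pool.Agent.Lib.MP_d9bae3_nt.NG.RadGe

/-!
# Module NBD-BInH: the inertia groups of an extension with the data `(T, ε)`

Let `T i ≤ q`, `Q` a prime of `L` above `q` (`exists_over`).  As in the proof of `RadGe_ram` (NG/RadGe.lean, private: copy it): `B_w ∈ Q ∖ Q^2` for `w = rep (i, 1)` and `B_w' ∉ Q` for `w' ≠ w`.  `w` has the order `d i` (`IsLev.order`, `IsLev.rep_eq`, `IsLev.inv`: `w = t i 1 • v i`, and `z i ^ t i 1 = z i` so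
`t i 1 ≡ 1` modulo `d i`; or use that the `rep ⟨i, τ⟩` all have order `d i`).  Let `P` be a prime of `M` above `Q`, and `PH = P ∩ H`; `ram_order` and `inertia_pow` for `M/L`, and `inertia_res`: `d i` divides the number of elements of the inertia group of `PH` in `Gal(H/F)` and all its elements satisfy `σ ^ d i = 1`.
Every prime of `H` above `q ∩ F` is a conjugate of `PH` (`Ideal.exists_smul_eq_of_isGaloisGroup`), or choose `P` above the given prime `PH` first, let `Q' = P ∩ L`, a conjugate `τ Q` of a prime above `q` (`exists_cjP`), and work with `Q'` and `w = rep (i, τ')` directly.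
* `bad_prime`: if a prime `q ∉ S` of `F` ramifies in `H`, then there is `(i, q')`, `T i ≤ q'`, `q' ∩ F = q` (this is `RadGe_key`, private in NG/RadGe.lean: copy it).
-/

set_option linter.unusedSectionVars false

namespace StarkR

open NumberField IsDedekindDomain Filter Topology
open scoped Pointwise

variable {F L : Type} [Field F] [NumberField F] [Field L] [NumberField L] [Algebra F L]
variable {ι : Type} [Fintype ι] {K : ι → Type} [∀ i, Field (K i)] [∀ i, NumberField (K i)]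
variable [∀ i, Algebra F (K i)] [∀ i, Algebra (K i) L] [∀ i, IsScalarTower F (K i) L]
variable {m : ℕ} {n : Fin m → ℕ} [∀ i, NeZero (n i)]
variable {e : ℕ} {ζ : L} {d : ι → ℕ} {z : (i : ι) → K i} {t : (i : ι) → Gal(K i/F) → ℕ} {v : ι → V n} {rep : (Σ i, Gal(K i/F)) ≃ W n}
variable {S : Finset (Prm F)} {SL : Finset (Prm L)} {SK : (i : ι) → Finset (Prm (K i))} {g : (i : ι) → Ideal (𝓞 (K i)) → 𝓞 (K i)}
variable {H M : Type} [Field H] [NumberField H] [Field M] [NumberField M] [Algebra F H] [Algebra F M] [Algebra L M] [Algebra H M]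
variable [IsScalarTower F L M] [IsScalarTower F H M]

private theorem BInH_prim (hζ : IsPrimitiveRoot ζ e) (he : 0 < e) (hlev : IsLev (L := L) e ζ d z t v rep) (i : ι) :
    IsPrimitiveRoot (z i) (d i) := by
  have h1 : IsPrimitiveRoot (ζ ^ (e / d i)) (d i) := hζ.pow he (Nat.div_mul_cancel (hlev.dvd i)).symm
  rw [← hlev.root i] at h1
  exact IsPrimitiveRoot.of_map_of_injective h1 (FaithfulSMul.algebraMap_injective (K i) L)

private theorem BInH_order (hζ : IsPrimitiveRoot ζ e) (he : 0 < e) (hlev : IsLev (L := L) e ζ d z t v rep) (i : ι)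
    (τ : Gal(K i/F)) : addOrderOf ((rep ⟨i, τ⟩ : W n) : V n) = d i := by
  have hz := BInH_prim hζ he hlev i
  have hd : 0 < d i := by
    have := hlev.two i
    omega
  have h1 : IsPrimitiveRoot (τ (z i)) (d i) := hz.map_of_injective τ.injective
  have h2 := (hlev.inv i τ).2
  have h3 : (t i τ).Coprime (d i) := by
    rw [← h1.pow_iff_coprime hd, h2]
    exact hz
  rw [hlev.rep_eq, Nat.Coprime.addOrderOf_nsmul (by rw [hlev.order]; exact h3.symm), hlev.order]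

private theorem BInH_val (hζ : IsPrimitiveRoot ζ e) (he : 0 < e) [IsCyclotomicExtension {e} F L]
    (hlev : IsLev (L := L) e ζ d z t v rep) (hSS : IsSS (F := F) e S SL SK) (hg : ∀ i, IsGen (SK i) (g i))
    {T : (i : ι) → Ideal (𝓞 (K i))} (hT : ∀ i, Cop (SK i) (T i)) (hT2 : SqG F T) {ε : V n → 𝓞 L} (hε : ∀ w, IsSU SL (ε w))
    {Q : Prm L} (hQS : Q ∉ SL) {w : V n} (hw0 : w ≠ 0) (hu : uT rep T Q = w) :
    bG rep (fun i => g i (T i)) ε w ∈ Q.asIdeal ∧ bG rep (fun i => g i (T i)) ε w ∉ Q.asIdeal ^ 2 ∧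
      ∀ w', w' ≠ w → bG rep (fun i => g i (T i)) ε w' ∉ Q.asIdeal := by
  classical
  have hB0 : bG rep (fun i => g i (T i)) ε 0 = 1 := bG_zero _ _ _
  have hne : ∀ w : V n, bG rep (fun i => g i (T i)) ε w ≠ 0 := by
    intro w
    by_cases hw : w = 0
    · rw [hw, hB0]
      exact one_ne_zero
    · obtain ⟨⟨j, τ⟩, hp⟩ := rep.surjective ⟨w, hw⟩
      have hpw : ((rep ⟨j, τ⟩ : W n) : V n) = w := congrArg Subtype.val hp
      have h1 := bG_rep (F := F) (L := L) rep (fun i => g i (T i)) ε j τ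
      rw [hpw] at h1
      rw [h1]
      refine mul_ne_zero (hε w).1 ?_
      rw [Ne, FaithfulSMul.algebraMap_eq_zero_iff, smul_eq_zero_iff_eq]
      exact (hg j (T j) (hT j).1).1
  have hQ1 : (1 : 𝓞 L) ∉ Q.asIdeal := fun h2 => Q.isPrime.ne_top ((Ideal.eq_top_iff_one _).2 h2)
  have hord : ordQ Q (bG rep (fun i => g i (T i)) ε w) = 1 := by
    rw [ordQ_bG hζ he hlev hSS hg hT hT2 hε hQS hw0, if_pos hu]
  refine ⟨?_, ?_, ?_⟩
  · have h1 := mem_pow_iff Q (hne w) 1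
    rw [pow_one] at h1
    rw [h1, hord]
  · rw [mem_pow_iff Q (hne w) 2, hord]
    omega
  · intro w' hw
    by_cases hw2 : w' = 0
    · rw [hw2, hB0]
      exact hQ1
    · have h1 := mem_pow_iff Q (hne w') 1
      rw [pow_one] at h1
      rw [h1, ordQ_bG hζ he hlev hSS hg hT hT2 hε hQS hw2, if_neg (by rw [hu]; exact fun h3 => hw h3.symm)]
      omega

theorem inertia_H [IsGalois F H] (hζ : IsPrimitiveRoot ζ e) (he : 0 < e) (hn : ∀ i, n i ∣ e) [IsCyclotomicExtension {e} F L]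
    (hlev : IsLev (L := L) e ζ d z t v rep) (hSS : IsSS (F := F) e S SL SK) (hg : ∀ i, IsGen (SK i) (g i))
    {T : (i : ι) → Ideal (𝓞 (K i))} (hT : ∀ i, Cop (SK i) (T i)) (hT2 : SqG F T) {ε : V n → 𝓞 L} (hε : ∀ w, IsSU SL (ε w))
    {α : Fin m → M} (h : IsExt (bG rep (fun i => g i (T i)) ε) M α) (hc : IsCompositum L H M) {i : ι} {q : Prm (K i)}
    (hq : T i ≤ q.asIdeal) {PH : Ideal (𝓞 H)} (hPH : PH.IsPrime) (hPHq : PH.LiesOver (q.under (𝓞 F)).asIdeal) :
    d i ∣ Nat.card (PH.inertia Gal(H/F)) ∧ ∀ σ ∈ PH.inertia Gal(H/F), σ ^ d i = 1 := by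
  classical
  have : NeZero e := ⟨he.ne'⟩
  have hFL : IsGalois F L := IsCyclotomicExtension.isGalois {e} F L
  have hFM : IsGalois F M := comp_galois F L H M hc
  have hLM : IsGalois L M := IsGalois.tower_top_of_isGalois F L M
  have hFK : IsGalois F (K i) := hlev.gal i
  -- a prime of `M` above `PH`
  obtain ⟨P, hP, hPPH⟩ : ∃ P : Ideal (𝓞 M), P.IsPrime ∧ P.under (𝓞 H) = PH :=
    Ideal.exists_ideal_over_prime_of_isIntegral_of_isDomain (S := 𝓞 M) PH (by
      rw [(RingHom.injective_iff_ker_eq_bot _).1 (FaithfulSMul.algebraMap_injective (𝓞 H) (𝓞 M))]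
      exact bot_le)
  have hPF : P.under (𝓞 F) = (q.under (𝓞 F)).asIdeal := by
    rw [hPHq.over, ← hPPH, Ideal.under_under]
  have hPq : P.LiesOver (q.under (𝓞 F)).asIdeal := ⟨hPF.symm⟩
  -- the prime of `L` below `P`
  obtain ⟨Q, hQ⟩ : ∃ Q : Prm L, Q.asIdeal = P.under (𝓞 L) := by
    refine ⟨⟨P.under (𝓞 L), hP.under (𝓞 L), ?_⟩, rfl⟩
    intro hbot
    have h1 : P.under (𝓞 F) = (P.under (𝓞 L)).under (𝓞 F) := by rw [Ideal.under_under]
    rw [hbot, hPF] at h1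
    apply (q.under (𝓞 F)).ne_bot
    rw [h1]
    exact Ideal.comap_bot_of_injective _ (FaithfulSMul.algebraMap_injective (𝓞 F) (𝓞 L))
  have hPQ : P.LiesOver Q.asIdeal := ⟨hQ⟩
  have hQF : Q.under (𝓞 F) = q.under (𝓞 F) := by
    apply HeightOneSpectrum.ext
    rw [HeightOneSpectrum.under_asIdeal, hQ, Ideal.under_under, hPF]
  have hqS : q ∉ SK i := fun h1 => (hT i).2 q h1 hq
  have hqS' : q.under (𝓞 F) ∉ S := by
    rw [← hSS.memK i]
    exact hqS
  have hQS : Q ∉ SL := by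
    rw [hSS.memL, hQF]
    exact hqS'
  have heL : (e : 𝓞 L) ∉ Q.asIdeal := fun h1 => hQS (hSS.goodL.dvd Q h1)
  have heF : (e : 𝓞 F) ∉ (q.under (𝓞 F)).asIdeal := by
    intro h1
    rw [← hQF] at h1
    have h3 : algebraMap (𝓞 F) (𝓞 L) (e : 𝓞 F) ∈ Q.asIdeal := h1
    rw [map_natCast] at h3
    exact heL h3
  -- the element `w`
  obtain ⟨τ, hτ⟩ := exists_cjP (F := F) (Q := q) (Q' := Q.under (𝓞 (K i))) (by rw [under_under, hQF])
  set w : V n := ((rep ⟨i, τ⟩ : W n) : V n) with hw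
  have hw0 : w ≠ 0 := (rep ⟨i, τ⟩).2
  have hu : uT rep T Q = w := by
    rw [hw, uT_eq hζ he hlev hSS hT2 hQS]
    change T i ≤ (cjP τ⁻¹ (Q.under (𝓞 (K i)))).asIdeal
    rw [← hτ, ← cjP_mul, inv_mul_cancel, cjP_one]
    exact hq
  have hord : addOrderOf w = d i := BInH_order hζ he hlev i τ
  obtain ⟨b1, b2, b3⟩ := BInH_val hζ he hlev hSS hg hT hT2 hε hQS hw0 hu
  have r1 := ram_order h b1 b2 b3 hP hPQ
  have r2 : ∀ σ ∈ P.inertia Gal(M/L), σ ^ d i = 1 := by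
    intro σ hσ
    rw [← hord]
    exact inertia_pow hζ he hn h heL b1 b2 b3 hP hPQ hσ
  obtain ⟨s1, s2⟩ := inertia_res hζ he hc heF hP hPq
  rw [hPPH] at s1 s2
  constructor
  · rw [← addOrderOf_dvd_iff_nsmul_eq_zero, hord] at r1
    have hcard : Nat.card (P.inertia Gal(M/L)) = Nat.card (PH.inertia Gal(H/F)) := by
      refine Nat.card_congr (Equiv.ofBijective (fun τ => ⟨resLH F L H M τ.1, s1 τ.1 τ.2⟩) ⟨?_, ?_⟩)
      · intro a b hab
        apply Subtype.ext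
        exact resLH_injective (F := F) hc (congrArg Subtype.val hab)
      · rintro ⟨σ, hσ⟩
        obtain ⟨τ', hτ', hr⟩ := s2 σ hσ
        exact ⟨⟨τ', hτ'⟩, Subtype.ext hr⟩
    rw [← hcard]
    exact r1
  · intro σ hσ
    obtain ⟨τ', hτ', rfl⟩ := s2 σ hσ
    rw [← map_pow, r2 τ' hτ', map_one]

theorem ram_key [IsGalois F H] (hζ : IsPrimitiveRoot ζ e) (he : 0 < e) (hn : ∀ i, n i ∣ e) [IsCyclotomicExtension {e} F L]
    (hSS : IsSS (F := F) e S SL SK) (hg : ∀ i, IsGen (SK i) (g i))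
    {T : (i : ι) → Ideal (𝓞 (K i))} (hT : ∀ i, Cop (SK i) (T i)) {ε : V n → 𝓞 L} (hε : ∀ w, IsSU SL (ε w))
    {α : Fin m → M} (h : IsExt (bG rep (fun i => g i (T i)) ε) M α) (hc : IsCompositum L H M) {q : Prm F} (hq : Ramified H q)
    (hqS : q ∉ S) : ∃ p : Σ i, Prm (K i), T p.1 ≤ p.2.asIdeal ∧ p.2.under (𝓞 F) = q := by
  have : NeZero e := ⟨he.ne'⟩
  have hFL : IsGalois F L := IsCyclotomicExtension.isGalois {e} F L
  have hFM : IsGalois F M := comp_galois F L H M hc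
  have hqM : Ramified M q := ramified_up hq
  have heq : (e : 𝓞 F) ∉ q.asIdeal := by
    intro h1
    obtain ⟨Q, hQ⟩ := exists_over (K := F) (L := L) q
    apply hqS
    rw [← hQ, ← hSS.memL]
    apply hSS.goodL.dvd
    have h2 : (e : 𝓞 F) ∈ (Q.under (𝓞 F)).asIdeal := by rw [hQ]; exact h1
    have h3 : algebraMap (𝓞 F) (𝓞 L) (e : 𝓞 F) ∈ Q.asIdeal := h2
    rwa [map_natCast] at h3
  have h1 : ∃ Q : Prm L, Q.under (𝓞 F) = q ∧ ∃ w, bG rep (fun i => g i (T i)) ε w ∈ Q.asIdeal := by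
    by_contra hno
    push Not at hno
    exact unram_M hζ he hn h heq (fun Q hQ w => hno Q hQ w) hqM
  obtain ⟨Q, hQ, w, hw⟩ := h1
  have hQS : Q ∉ SL := by
    rw [hSS.memL, hQ]
    exact hqS
  have hQ1 : (1 : 𝓞 L) ∉ Q.asIdeal := fun h2 => Q.isPrime.ne_top ((Ideal.eq_top_iff_one _).2 h2)
  have hw0 : w ≠ 0 := by
    intro h2
    rw [h2, bG_zero] at hw
    exact hQ1 hw
  obtain ⟨⟨i, τ⟩, hp⟩ := rep.surjective ⟨w, hw0⟩
  have hw2 : ((rep ⟨i, τ⟩ : W n) : V n) = w := congrArg Subtype.val hp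
  rw [← hw2, bG_rep] at hw
  have hw3 := (Q.isPrime.mem_or_mem hw).resolve_left ((hε _).2 Q hQS)
  have hw4 : τ • g i (T i) ∈ (Q.under (𝓞 (K i))).asIdeal := hw3
  obtain ⟨q', hq'⟩ : ∃ q' : Prm (K i), q' = cjP τ⁻¹ (Q.under (𝓞 (K i))) := ⟨_, rfl⟩
  have hu : q'.under (𝓞 F) = q := by
    rw [hq', cjP_under, under_under, hQ]
  have hmem : g i (T i) ∈ q'.asIdeal := by
    have h2 := (smul_mem_cjP τ⁻¹ (Q.under (𝓞 (K i))) (τ • g i (T i))).2 hw4
    rw [inv_smul_smul] at h2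
    rw [hq']
    exact h2
  have hq'S : q' ∉ SK i := by
    rw [hSS.memK, hu]
    exact hqS
  have hTq : T i ≤ q'.asIdeal := by
    have h2 := (hg i (T i) (hT i).1).2 q' hq'S 1
    rw [pow_one] at h2
    exact h2.1 hmem
  exact ⟨⟨i, q'⟩, hTq, hu⟩

end StarkR
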