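import Pool.Agent.Lib.MP_d9bae3_nt.NG.BDisc
import Pool.Agent.Lib.MP_d9bae3_nt.NG.BInH

/-!
# Module NBD-BLow: the discriminant from below
-/

set_option linter.unusedSectionVars false

namespace StarkR

open NumberField IsDedekindDomain Filter Topology
open scoped Pointwise

variable {F L : Type} [Field F] [NumberField F] [Field L] [NumberField L] [Algebra F L]
variable {ι : Type} [Fintype ι] {K : ι → Type} [∀ i, Field (K i)] [∀ i, NumberField (K i)]
variable [∀ i, Algebra F (K i)] [∀ i, Algebra (K i) L] [∀ i, IsScalarTower F (K i) L]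
variable {m : ℕ} {n : Fin m → ℕ} [∀ i, NeZero (n i)]
variable {e : ℕ} {ζ : L} {d : ι → ℕ} {z : (i : ι) → K i} {t : (i : ι) → Gal(K i/F) → ℕ} {v : ι → V n} {rep : (Σ i, Gal(K i/F)) ≃ W n}
variable {S : Finset (Prm F)} {SL : Finset (Prm L)} {SK : (i : ι) → Finset (Prm (K i))} {g : (i : ι) → Ideal (𝓞 (K i)) → 𝓞 (K i)}
variable {H M : Type} [Field H] [NumberField H] [Field M] [NumberField M] [Algebra F H] [Algebra F M] [Algebra L M] [Algebra H M]
variable [IsScalarTower F L M] [IsScalarTower F H M]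

/-- The exponent of a prime in a product of prime powers. -/
private theorem BLow_emult {F : Type} [Field F] [NumberField F] (R : Finset (Prm F)) (c : Prm F → ℕ) (q : Prm F) [Decidable (q ∈ R)] :
    emultiplicity q.asIdeal (∏ q' ∈ R, q'.asIdeal ^ c q') = if q ∈ R then (c q : ℕ∞) else 0 := by
  classical
  rw [Finset.emultiplicity_prod q.prime]
  have h1 : ∀ q' : Prm F, emultiplicity q.asIdeal (q'.asIdeal ^ c q') = if q' = q then (c q : ℕ∞) else 0 := by
    intro q'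
    rw [emultiplicity_pow q.prime]
    by_cases h : q' = q
    · rw [if_pos h, h, (FiniteMultiplicity.of_prime_left q.prime q.prime.ne_zero).emultiplicity_self, mul_one]
    · rw [if_neg h]
      have h3 : emultiplicity q.asIdeal q'.asIdeal = 0 := by
        refine emultiplicity_eq_zero.2 fun h2 => h ?_
        rw [Ideal.dvd_iff_le] at h2
        exact HeightOneSpectrum.ext (q'.isMaximal.eq_of_le q.isPrime.ne_top h2)
      rw [h3, mul_zero]
  simp only [h1]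
  rw [Finset.sum_ite_eq']
  by_cases h : q ∈ R
  · rw [if_pos h, if_pos h]
  · rw [if_neg h, if_neg h]

/-- The norm of a squarefree ideal is the product of the norms of its prime divisors. -/
private theorem BLow_norm {E : Type} [Field E] [NumberField E] {I : Ideal (𝓞 E)} (hI : I ≠ ⊥) (h2 : ∀ q : Prm E, ¬ I ≤ q.asIdeal ^ 2)
    {D : Finset (Prm E)} (hD : ∀ q, q ∈ D ↔ I ≤ q.asIdeal) : Ideal.absNorm I = ∏ q ∈ D, nm q := by
  classical
  have hinj : Set.InjOn (fun q : Prm E => q.asIdeal) (D : Set (Prm E)) := fun a _ b _ h => HeightOneSpectrum.ext h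
  have h1 : ∏ q ∈ D, q.asIdeal ∣ I := by
    rw [← Finset.prod_image (s := D) (f := fun J : Ideal (𝓞 E) => J) (g := fun q : Prm E => q.asIdeal) hinj]
    refine Finset.prod_primes_dvd I ?_ ?_
    · intro P hP
      obtain ⟨q, hq, rfl⟩ := Finset.mem_image.1 hP
      exact q.prime
    · intro P hP
      obtain ⟨q, hq, rfl⟩ := Finset.mem_image.1 hP
      exact Ideal.dvd_iff_le.2 ((hD q).1 hq)
  obtain ⟨J, hJ⟩ := h1
  have hJ1 : J = ⊤ := by
    by_contra hne
    obtain ⟨P, hPm, hJP⟩ := Ideal.exists_le_maximal J hne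
    have hP0 : P ≠ ⊥ := by
      rintro rfl
      have h3 : J = ⊥ := le_bot_iff.1 hJP
      rw [h3, Ideal.mul_bot] at hJ
      exact hI hJ
    have hIq : I ≤ P := by
      rw [hJ]
      exact Ideal.mul_le_right.trans hJP
    have hqD : (⟨P, hPm.isPrime, hP0⟩ : Prm E) ∈ D := (hD _).2 hIq
    apply h2 ⟨P, hPm.isPrime, hP0⟩
    rw [hJ, pow_two]
    refine Ideal.mul_mono ?_ hJP
    rw [← Finset.mul_prod_erase D _ hqD]
    exact Ideal.mul_le_left
  rw [hJ, hJ1, Ideal.mul_top, map_prod]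
  rfl

theorem disc_ge [IsGalois F H] (R : Finset (Prm F)) (c : Prm F → ℕ)
    (hc : ∀ q ∈ R, ∃ Q : Ideal (𝓞 H), Q.IsPrime ∧ Q.LiesOver q.asIdeal ∧
      c q * Nat.card (Q.inertia Gal(H/F)) ≤ Module.finrank F H * (Nat.card (Q.inertia Gal(H/F)) - 1)) :
    ∏ q ∈ R, nm q ^ c q ≤ (discr H).natAbs := by
  classical
  have hD : differentIdeal (𝓞 F) (𝓞 H) ≠ ⊥ := differentIdeal_ne_bot
  have hd := NumberField.natAbs_discr_eq_absNorm_differentIdeal_mul_natAbs_discr_pow F (𝓞 F) H (𝓞 H)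
  have hdF : 1 ≤ (discr F).natAbs := Nat.one_le_iff_ne_zero.2 (Int.natAbs_ne_zero.2 (NumberField.discr_ne_zero F))
  have hN0 : Ideal.absNorm (differentIdeal (𝓞 F) (𝓞 H)) ≠ 0 := fun h => hD (Ideal.absNorm_eq_zero_iff.1 h)
  have hfr : Module.finrank F H ≠ 0 := Module.finrank_pos.ne'
  obtain ⟨I, hI⟩ : ∃ I : Ideal (𝓞 F), I = ∏ q' ∈ R, q'.asIdeal ^ c q' := ⟨_, rfl⟩
  have hI0 : I ≠ ⊥ := by
    rw [hI, ← Ideal.zero_eq_bot, Finset.prod_ne_zero_iff]
    exact fun q _ => pow_ne_zero _ q.ne_bot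
  have hIN : Ideal.absNorm I = ∏ q ∈ R, nm q ^ c q := by
    rw [hI, map_prod]
    refine Finset.prod_congr rfl fun q _ => ?_
    rw [map_pow]
    rfl
  have hJ : I.map (algebraMap (𝓞 F) (𝓞 H)) ≠ ⊥ := Ideal.map_ne_bot_of_ne_bot hI0
  have hdvd : I.map (algebraMap (𝓞 F) (𝓞 H)) ∣ differentIdeal (𝓞 F) (𝓞 H) ^ Module.finrank F H := by
    rw [UniqueFactorizationMonoid.dvd_iff_emultiplicity_le hJ]
    intro P hP
    have hPp : P.IsPrime := Ideal.isPrime_of_prime hP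
    let q : Prm F := (⟨P, hPp, hP.ne_zero⟩ : Prm H).under (𝓞 F)
    have hPq : P.LiesOver q.asIdeal := ⟨rfl⟩
    rw [emultiplicity_pow hP, emult_map q hP hPq hI0, hI, BLow_emult]
    by_cases hq : q ∈ R
    · rw [if_pos hq]
      obtain ⟨Q, hQ, hQq, h1⟩ := hc q hq
      rw [card_inertia_eq q hQ hQq, ← ram_idx_eq q hPp hPq hQ hQq] at h1
      have h2 := le_emultiplicity_of_pow_dvd (dvd_different_of_ram (H := H) q hPp hPq)
      refine le_trans ?_ (mul_le_mul_right h2 _)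
      rw [mul_comm]
      exact_mod_cast h1
    · rw [if_neg hq, mul_zero]
      exact zero_le
  have h2 := Ideal.absNorm_dvd_absNorm_of_le (Ideal.le_of_dvd hdvd)
  rw [map_pow, Ideal.absNorm_algebraMap, ← IsFractionRing.finrank_eq (𝓞 F) F (𝓞 H) H] at h2
  have h3 := (Nat.pow_le_pow_iff_left hfr).1 (Nat.le_of_dvd (Nat.pos_of_ne_zero (pow_ne_zero _ hN0)) h2)
  rw [hIN] at h3
  rw [hd]
  exact h3.trans (Nat.le_mul_of_pos_right _ (Nat.pow_pos (by omega)))

private theorem BLow_arith {N E k : ℕ} (hk : k ∣ E) (hkN : k ∣ N) (hE : 0 < E) : (N - N / k) * E ≤ N * (E - 1) := by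
  have hkE : k ≤ E := Nat.le_of_dvd hE hk
  have hk0 : 0 < k := Nat.pos_of_dvd_of_pos hk hE
  obtain ⟨r, rfl⟩ := hkN
  rw [Nat.mul_div_cancel_left r hk0, Nat.sub_mul, Nat.mul_sub, mul_one]
  have h1 : k * r ≤ r * E := by
    rw [mul_comm k r]
    exact Nat.mul_le_mul_left r hkE
  omega

theorem disc_tuple [IsGalois F H] (hζ : IsPrimitiveRoot ζ e) (he : 0 < e) (hn : ∀ i, n i ∣ e) [IsCyclotomicExtension {e} F L]
    (hlev : IsLev (L := L) e ζ d z t v rep) (hSS : IsSS (F := F) e S SL SK) (hg : ∀ i, IsGen (SK i) (g i))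
    {T : (i : ι) → Ideal (𝓞 (K i))} (hT : ∀ i, Cop (SK i) (T i)) (hT2 : SqG F T) {ε : V n → 𝓞 L} (hε : ∀ w, IsSU SL (ε w))
    {α : Fin m → M} (h : IsExt (bG rep (fun i => g i (T i)) ε) M α) (hc : IsCompositum L H M) {N : ℕ} (hN : Module.finrank F H = N)
    (hdN : ∀ i, d i ∣ N) : ∏ i, Ideal.absNorm (T i) ^ (N - N / d i) ≤ (discr H).natAbs := by
  classical
  have hfin : ∀ i, {q' : Prm (K i) | T i ≤ q'.asIdeal}.Finite := by
    intro i
    have h1 := Ideal.finite_factors (hT i).1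
    refine h1.subset fun q' hq' => ?_
    exact Ideal.dvd_iff_le.2 hq'
  have hD : ∀ (i : ι) (q : Prm (K i)), q ∈ (hfin i).toFinset ↔ T i ≤ q.asIdeal := fun i q => by
    rw [Set.Finite.mem_toFinset]
    rfl
  have hsq : ∀ (i : ι) (q : Prm (K i)), ¬ T i ≤ q.asIdeal ^ 2 := by
    intro i q h1
    have h2 : T i ≤ q.asIdeal := h1.trans (Ideal.pow_le_self two_ne_zero)
    exact (hT2.1 i q h2).1 h1
  let P : Finset (Σ i, Prm (K i)) := Finset.univ.sigma fun i => (hfin i).toFinset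
  have hP : ∀ p, p ∈ P ↔ T p.1 ≤ p.2.asIdeal := by
    intro p
    rw [Finset.mem_sigma, hD]
    exact ⟨fun h1 => h1.2, fun h1 => ⟨Finset.mem_univ _, h1⟩⟩
  have hinj : ∀ p ∈ P, ∀ p' ∈ P, p.2.under (𝓞 F) = p'.2.under (𝓞 F) → p = p' := by
    rintro ⟨i, q⟩ h1 ⟨j, q'⟩ h2 h3
    exact hT2.2 i j q q' ((hP _).1 h1) ((hP _).1 h2) h3
  obtain ⟨c, hcP⟩ : ∃ c : Prm F → ℕ, ∀ p ∈ P, c (p.2.under (𝓞 F)) = N - N / d p.1 := by
    refine ⟨fun q => if h1 : ∃ p ∈ P, p.2.under (𝓞 F) = q then N - N / d h1.choose.1 else 0, fun p hp => ?_⟩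
    have h1 : ∃ p' ∈ P, p'.2.under (𝓞 F) = p.2.under (𝓞 F) := ⟨p, hp, rfl⟩
    have h2 : h1.choose = p := hinj _ h1.choose_spec.1 p hp h1.choose_spec.2
    change (if h1 : ∃ p' ∈ P, p'.2.under (𝓞 F) = p.2.under (𝓞 F) then N - N / d h1.choose.1 else 0) = N - N / d p.1
    rw [dif_pos h1, h2]
  have e1 : ∏ i, Ideal.absNorm (T i) ^ (N - N / d i) = ∏ q ∈ P.image (fun p => p.2.under (𝓞 F)), nm q ^ c q := by
    rw [Finset.prod_image (fun p hp p' hp' h3 => hinj p hp p' hp' h3),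
      Finset.prod_congr rfl (fun p hp => by rw [hcP p hp] :
        ∀ p ∈ P, nm (p.2.under (𝓞 F)) ^ c (p.2.under (𝓞 F)) = nm (p.2.under (𝓞 F)) ^ (N - N / d p.1)), Finset.prod_sigma]
    refine Finset.prod_congr rfl fun i _ => ?_
    rw [BLow_norm (hT i).1 (hsq i) (hD i), ← Finset.prod_pow]
    refine Finset.prod_congr rfl fun q hq => ?_
    rw [(hT2.1 i q ((hD i q).1 hq)).2]
  rw [e1]
  refine disc_ge (H := H) _ c fun q hq => ?_
  obtain ⟨p, hp, rfl⟩ := Finset.mem_image.1 hq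
  obtain ⟨Q, hQ⟩ := exists_over (K := F) (L := H) (p.2.under (𝓞 F))
  have hQq : Q.asIdeal.LiesOver (p.2.under (𝓞 F)).asIdeal := ⟨by rw [← hQ]; rfl⟩
  refine ⟨Q.asIdeal, Q.isPrime, hQq, ?_⟩
  have h1 := (inertia_H hζ he hn hlev hSS hg hT hT2 hε h hc ((hP p).1 hp) Q.isPrime hQq).1
  rw [hcP p hp, hN]
  exact BLow_arith h1 (hdN p.1) Nat.card_pos

end StarkR
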