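import Pool.Agent.Lib.MP_d9bae3_nt.NG.GB
import Pool.Agent.Lib.MP_d9bae3_nt.SG.GMain

/-!
# Module NAG-Many: many ramified primes at which a non-faithful character is trivial

Adapt `g_set` (SG/GMain.lean), with `B` instead of the twisted family: `lrich_rich`: `Rich e k B` over `L`.  `Gal(M/L) ≃ V n` (`gal_iso` over `L`), `resLH : Gal(M/L) → Gal(H/F)` is injective (`resLH_injective`), both groups have the same number of elements, so it is bijective, and `χ.comp resLH` has a nontrivial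
kernel.  Then as in `g_set` (`chr_ker`, `dec_fix` over `L`, `ev_ramified` over `L`, `desc_ramified`, `desc_trivial`); the primes of `F` below the primes of `A` are different by the last clause of `LRich`.
-/

set_option linter.unusedSectionVars false

namespace StarkR

open NumberField IsDedekindDomain Filter Topology
open scoped Pointwise

variable {F L : Type} [Field F] [NumberField F] [Field L] [NumberField L] [Algebra F L]
variable {H M : Type} [Field H] [NumberField H] [Field M] [NumberField M] [Algebra F H] [Algebra F M] [Algebra L M] [Algebra H M]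
variable [IsScalarTower F L M] [IsScalarTower F H M]
variable {m : ℕ} {n : Fin m → ℕ} [∀ i, NeZero (n i)]

theorem lrich_rich {e k : ℕ} {B : V n → 𝓞 L} (h : LRich F e k B) : Rich e k B :=
  fun v hv => by
    obtain ⟨A, h1, h2, -⟩ := h v hv
    exact ⟨A, h1, fun Q hQ => ⟨(h2 Q hQ).1.1, (h2 Q hQ).2⟩⟩

theorem lrich_mono {e k k' : ℕ} (h : k ≤ k') {B : V n → 𝓞 L} (hb : LRich F e k' B) : LRich F e k B := by
  intro v hv
  obtain ⟨A, h1, h2⟩ := hb v hv
  exact ⟨A, h.trans h1, h2⟩

theorem many_of [IsGalois F L] [IsGalois F H] {e : ℕ} {ζ : L} (hζ : IsPrimitiveRoot ζ e) (he : 0 < e) (hn : ∀ i, n i ∣ e)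
    (φ : Gal(H/F) ≃* Multiplicative (V n)) {k : ℕ} (hk : 1 ≤ k) {B : V n → 𝓞 L} (hB : LRich F e k B) {α : Fin m → M}
    (h : IsExt B M α) (hc : IsCompositum L H M) {χ : Gal(H/F) →* ℂˣ} (hχ : χ.ker ≠ ⊥) :
    ∃ A : Finset (Prm F), k ≤ A.card ∧ ∀ q ∈ A, Ramified H q ∧ TrivialAt χ q := by
  classical
  have hgal : IsGalois F M := comp_galois F L H M hc
  have hgalL : IsGalois L M := IsGalois.tower_top_of_isGalois F L M
  have hb1 : Rich e 1 B := lrich_rich (lrich_mono hk hB)
  -- `resLH` is bijective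
  obtain ⟨f⟩ := gal_iso hζ he hn hb1 h
  have hfinL : Finite Gal(M/L) := inferInstance
  have hfinF : Finite Gal(H/F) := inferInstance
  have hbij : Function.Bijective (resLH F L H M) := by
    refine (Nat.bijective_iff_injective_and_card _).2 ⟨resLH_injective hc, ?_⟩
    rw [Nat.card_congr f.toEquiv, Nat.card_congr φ.toEquiv]
  have hχ' : (χ.comp (resLH F L H M)).ker ≠ ⊥ := by
    obtain ⟨⟨σ, hσ⟩, h1⟩ := χ.ker.ne_bot_iff_exists_ne_one.1 hχ
    obtain ⟨ρ, rfl⟩ := hbij.2 σ
    intro h0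
    have h2 : ρ ∈ (χ.comp (resLH F L H M)).ker := hσ
    rw [h0, Subgroup.mem_bot] at h2
    refine h1 (Subtype.ext ?_)
    change resLH F L H M ρ = 1
    rw [h2, map_one]
  obtain ⟨κ, h1, h2⟩ := kum hζ he hn h fun i => rad_ne_zero hb1 i
  obtain ⟨c, v, hv0, hcv, hcc⟩ := chr_ker κ h1 he hn (χ.comp (resLH F L H M)) hχ'
  obtain ⟨A, hA1, hA2, hA3⟩ := hB v hv0
  have hinj : Set.InjOn (fun Q : Prm L => Q.under (𝓞 F)) (A : Set (Prm L)) := fun Q hQ Q' hQ' hh => hA3 Q hQ Q' hQ' hh
  refine ⟨A.image fun Q : Prm L => Q.under (𝓞 F), ?_, fun q hq => ?_⟩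
  · rw [Finset.card_image_of_injOn hinj]
    exact hA1
  · obtain ⟨Q, hQ, rfl⟩ := Finset.mem_image.1 hq
    have hev : Ev e v B Q := (hA2 Q hQ).2
    refine ⟨desc_ramified hc (ev_ramified h hv0 hev), desc_trivial (L := L) (M := M) (hA2 Q hQ).1.2 χ ?_⟩
    intro P hP hPQ σ hσ
    have h0 := hcc σ
    rw [MonoidHom.comp_apply] at h0
    rw [h0]
    have h3 := dec_fix hζ he hn h (hA2 Q hQ).1.1 hev hcv P hP hPQ σ hσ
    rw [h2] at h3
    have hbet : bet α c ≠ 0 := by
      unfold bet
      refine Finset.prod_ne_zero_iff.2 fun i _ => pow_ne_zero _ fun h0 => ?_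
      have h4 := h.pow i
      rw [h0, zero_pow (NeZero.ne (n i)), eq_comm, map_eq_zero] at h4
      exact rad_ne_zero hb1 i (RingOfIntegers.coe_eq_zero_iff.1 h4)
    have h5 : algebraMap L M (ζ ^ pr e c (κ σ).toAdd) = 1 := mul_right_cancel₀ hbet (h3.trans (one_mul _).symm)
    rw [map_eq_one_iff _ (algebraMap L M).injective] at h5
    exact (hζ.pow_eq_one_iff_dvd _).1 h5

end StarkR
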