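import Pool.Agent.Lib.MP_d9bae3_nt.NG.RichLG
import Pool.Agent.Lib.MP_d9bae3_nt.NG.Many

/-!
# Module NBD-BMany: many ramified primes, from the levels with `p i` only

* `lrich_S`: `T i = ⊤` for `¬ p i`, and the restriction of `T` to the indices with `p i` is rich (for the family `fun i : {i // p i} => K i`).  Then for every `w = rep (i, τ)` with `p i` there are at least `k` primes as in `LRich`.  The proof is the one of `lrich_of` (NG/RichLG.lean); `EvG` for the full family: the conditions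
  `Res e (g j) (cjP τ (Q ∩ K j)) (T j)` for the `j` with `¬ p j` hold because `g j ⊤` is a unit outside `SK j` (`IsGen` for `I = ⊤`), hence an `e`-th power modulo the conjugates of `Q ∩ K j` by `PP` (see `bg_pp` in NG/BadG.lean, private: copy it).
* `many_S`: the proof of `many_of` (NG/Many.lean), but without `gal_iso`: `κ : Gal(M/L) → V n` injective by `kum` (it needs `rad B i ≠ 0`: from `hB0`), `c` from `chr` (SK/Chr.lean) for `χ.comp (resLH F L H M)`: `χ (resLH σ) = 1 ↔ e ∣ pr e c (κ σ)`.  The map `v ↦ pr e c v mod e` is additive; on `{v | l • v = 0}` (more than `l`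
  elements) it has values in `{x : ZMod e | l x = 0}` (at most `l` elements), so there is `v ≠ 0`, `l • v = 0`, with `e ∣ pr e c v` (pigeonhole: two different elements with the same value, take the difference; additivity of `pr` modulo `e`: see SK/Kum.lean, SK/Chr.lean).  Then as in `many_of` with this `v`.
-/

set_option linter.unusedSectionVars false

namespace StarkR

open NumberField IsDedekindDomain Filter Topology
open scoped Pointwise

variable {F L : Type} [Field F] [NumberField F] [Field L] [NumberField L] [Algebra F L]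
variable {ι : Type} [Fintype ι] {K : ι → Type} [∀ i, Field (K i)] [∀ i, NumberField (K i)]
variable [∀ i, Algebra F (K i)] [∀ i, Algebra (K i) L] [∀ i, IsScalarTower F (K i) L]
variable {m : ℕ} {n : Fin m → ℕ} [∀ i, NeZero (n i)]
variable {e : ℕ} {ζ : L} {d : ι → ℕ} {z : (i : ι) → K i} {t : (i : ι) → Gal(K i/F) → ℕ} {v : ι → V n} {rep : (Σ i, Gal(K i/F)) ≃ W n}
variable {S : Finset (Prm F)} {SL : Finset (Prm L)} {SK : (i : ι) → Finset (Prm (K i))} {g : (i : ι) → Ideal (𝓞 (K i)) → 𝓞 (K i)}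

private theorem BMany_mul {P : Prm L} {a b : 𝓞 L} (ha : a ∉ P.asIdeal ∧ ∃ x : 𝓞 L, a - x ^ e ∈ P.asIdeal)
    (hb : b ∉ P.asIdeal ∧ ∃ x : 𝓞 L, b - x ^ e ∈ P.asIdeal) :
    a * b ∉ P.asIdeal ∧ ∃ x : 𝓞 L, a * b - x ^ e ∈ P.asIdeal := by
  obtain ⟨a1, x, hx⟩ := ha
  obtain ⟨b1, y, hy⟩ := hb
  have hprime : P.asIdeal.IsPrime := P.isPrime
  refine ⟨fun h => ?_, x * y, ?_⟩
  · rcases hprime.mem_or_mem h with h | h
    · exact a1 h
    · exact b1 h
  · have h7 : a * b - (x * y) ^ e = a * (b - y ^ e) + y ^ e * (a - x ^ e) := by ring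
    rw [h7]
    exact Ideal.add_mem _ (Ideal.mul_mem_left _ _ hy) (Ideal.mul_mem_left _ _ hx)

/-- transport of residues by `τ` -/
private theorem BMany_tr (τ : Gal(L/F)) {Q : Prm L} {a : 𝓞 L} (ha : a ∉ Q.asIdeal ∧ ∃ x : 𝓞 L, a - x ^ e ∈ Q.asIdeal) :
    τ • a ∉ (cjP τ Q).asIdeal ∧ ∃ x : 𝓞 L, τ • a - x ^ e ∈ (cjP τ Q).asIdeal := by
  obtain ⟨a1, x, hx⟩ := ha
  refine ⟨fun h => a1 ((smul_mem_cjP τ Q a).1 h), τ • x, ?_⟩
  rw [← smul_pow', ← smul_sub, smul_mem_cjP]
  exact hx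

theorem lrich_S (p : ι → Prop) (hζ : IsPrimitiveRoot ζ e) (he : 0 < e) [IsCyclotomicExtension {e} F L]
    (hlev : IsLev (L := L) e ζ d z t v rep)
    (hSS : IsSS (F := F) e S SL SK) (hg : ∀ i, IsGen (SK i) (g i)) {T : (i : ι) → Ideal (𝓞 (K i))} (hT : ∀ i, Cop (SK i) (T i))
    (hTp : ∀ i, ¬ p i → T i = ⊤) {ε : V n → 𝓞 L} (hε : ∀ w, IsSU SL (ε w)) {k : ℕ}
    (h : RichG (ι := {i // p i}) (K := fun i => K i.1) F e SL (fun i => g i.1) k (fun i => T i.1)) (i : ι) (hi : p i) (τ : Gal(K i/F)) :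
    ∃ A : Finset (Prm L), k ≤ A.card ∧
      (∀ Q ∈ A, GoodPrm F e Q ∧ Ev e ((rep ⟨i, τ⟩ : W n) : V n) (bG rep (fun i => g i (T i)) ε) Q) ∧
      ∀ Q ∈ A, ∀ Q' ∈ A, Q.under (𝓞 F) = Q'.under (𝓞 F) → Q = Q' := by

  classical
  obtain ⟨w, hwr⟩ : ∃ w : V n, w = ((rep ⟨i, τ⟩ : W n) : V n) := ⟨_, rfl⟩
  rw [← hwr]
  obtain ⟨A, hk, hA, hinj⟩ := h ⟨i, hi⟩
  have hgalL : IsGalois F L := IsCyclotomicExtension.isGalois {e} F L
  have hgK := hlev.gal
  obtain ⟨τ', hτ'⟩ := AlgEquiv.restrictNormalHom_surjective (F := F) (K₁ := K i) L τ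
  have hu : ∀ Q Q' : Prm L, (cjP τ' Q).under (𝓞 F) = (cjP τ' Q').under (𝓞 F) → Q.under (𝓞 F) = Q'.under (𝓞 F) := by
    intro Q Q' h1
    rwa [cjP_under, cjP_under] at h1
  refine ⟨A.image (cjP τ'), ?_, ?_, ?_⟩
  · rw [Finset.card_image_of_injOn]
    · exact hk
    · intro Q hQ Q' hQ' h1
      exact hinj Q hQ Q' hQ' (hu Q Q' (by rw [show cjP τ' Q = cjP τ' Q' from h1]))
  · intro P hP
    obtain ⟨Q, hQ, rfl⟩ := Finset.mem_image.1 hP
    obtain ⟨⟨⟨hQS, hPP⟩, hQp, hQg⟩, h1, h2, h3⟩ := hA Q hQ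
    refine ⟨goodPrm_cjP τ' hQg, ?_⟩
    -- outside `S`
    have hQF : Q.under (𝓞 F) ∉ S := fun h4 => hQS ((hSS.memL Q).2 h4)
    have hPS : cjP τ' Q ∉ SL := by
      rw [hSS.memL, cjP_under]
      exact hQF
    have hqS : ∀ j, Q.under (𝓞 (K j)) ∉ SK j := by
      intro j
      rw [hSS.memK, under_under]
      exact hQF
    have hεP : ∀ w, ε w ∉ (cjP τ' Q).asIdeal ∧ ∃ x : 𝓞 L, ε w - x ^ e ∈ (cjP τ' Q).asIdeal := by
      intro w
      have hsu : IsSU SL (τ'⁻¹ • ε w) := by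
        refine ⟨fun h4 => (hε w).1 ?_, fun q hq h4 => ?_⟩
        · rw [← smul_inv_smul τ' (ε w), h4, smul_zero]
        · have h5 := (smul_mem_cjP τ' q (τ'⁻¹ • ε w)).2 h4
          rw [smul_inv_smul] at h5
          refine (hε w).2 (cjP τ' q) ?_ h5
          rw [hSS.memL, cjP_under, ← hSS.memL]
          exact hq
      have h4 : τ'⁻¹ • ε w ∉ Q.asIdeal ∧ ∃ x : 𝓞 L, τ'⁻¹ • ε w - x ^ e ∈ Q.asIdeal :=
        ⟨hsu.2 Q hQS, hPP _ hsu⟩
      have h5 := BMany_tr τ' h4
      rwa [smul_inv_smul] at h5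
    have hprime : (cjP τ' Q).asIdeal.IsPrime := (cjP τ' Q).isPrime
    have hc0 : g i (T i) ≠ 0 := ((hg i) (T i) (hT i).1).1
    have hci : ∀ k, g i (T i) ∈ (Q.under (𝓞 (K i))).asIdeal ^ k ↔ T i ≤ (Q.under (𝓞 (K i))).asIdeal ^ k :=
      ((hg i) (T i) (hT i).1).2 _ (hqS i)
    have hB : bG rep (fun i => g i (T i)) ε w = ε w * τ' • algebraMap (𝓞 (K i)) (𝓞 L) (g i (T i)) := by
      rw [← algebraMap_smul, hτ']
      have := bG_rep rep (fun i => g i (T i)) ε i τ
      rw [← hwr] at this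
      exact this
    refine ⟨?_, ?_, ?_⟩
    · rw [hB]
      refine Ideal.mul_mem_left _ _ ?_
      rw [smul_mem_cjP]
      have h4 := (hci 1).2 (by rw [pow_one]; exact h1)
      rw [pow_one] at h4
      exact h4
    · rw [hB]
      intro hmem
      have ha0 : algebraMap (𝓞 (K i)) (𝓞 L) (g i (T i)) ≠ 0 := by
        rw [Ne, FaithfulSMul.algebraMap_eq_zero_iff]
        exact hc0
      rcases Ideal.IsPrime.mul_mem_pow (cjP τ' Q).asIdeal hmem with h4 | h4
      · exact (hεP w).1 h4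
      · have ha1 : τ' • algebraMap (𝓞 (K i)) (𝓞 L) (g i (T i)) ≠ 0 := by
          intro h5
          apply ha0
          rw [← inv_smul_smul τ' (algebraMap (𝓞 (K i)) (𝓞 L) (g i (T i))), h5, smul_zero]
        rw [mem_pow_iff _ ha1, ord_gal τ' Q ha0, ord_up F he hζ hQg.1 hc0, ← mem_pow_iff _ hc0] at h4
        exact h2 ((hci 2).1 h4)
    · intro w' hww
      by_cases hw0 : w' = 0
      · rw [hw0, bG_zero]
        refine ⟨fun h4 => hprime.ne_top ((Ideal.eq_top_iff_one _).2 h4), 1, ?_⟩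
        simp
      · obtain ⟨⟨j, σ⟩, hrep'⟩ := rep.surjective ⟨w', hw0⟩
        have hwr' : w' = ((rep ⟨j, σ⟩ : W n) : V n) := by rw [hrep']
        have hB' : bG rep (fun i => g i (T i)) ε w' = ε w' * algebraMap (𝓞 (K j)) (𝓞 L) (σ • g j (T j)) := by
          have := bG_rep rep (fun i => g i (T i)) ε j σ
          rw [← hwr'] at this
          exact this
        rw [hB']
        refine BMany_mul (hεP w') ?_
        set ρ : Gal(K j/F) := (AlgEquiv.restrictNormalHom (K j) τ')⁻¹ * σ with hρ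
        have hσ : σ = AlgEquiv.restrictNormalHom (K j) τ' * ρ := by rw [hρ, mul_inv_cancel_left]
        have hne : j ≠ i ∨ ρ⁻¹ ≠ 1 := by
          by_cases hj : j = i
          · right
            subst hj
            intro h4
            apply hww
            rw [hwr, hwr', hσ, inv_eq_one.1 h4, mul_one, hτ']
          · left
            exact hj
        have hup : algebraMap (𝓞 (K j)) (𝓞 L) (ρ • g j (T j)) ∉ Q.asIdeal ∧
            ∃ x : 𝓞 L, algebraMap (𝓞 (K j)) (𝓞 L) (ρ • g j (T j)) - x ^ e ∈ Q.asIdeal := by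
          by_cases hj : p j
          · obtain ⟨r1, x, r2⟩ := h3 ⟨j, hj⟩ ρ⁻¹ (hne.imp (fun h4 h5 => h4 (congrArg Subtype.val h5)) id)
            have hres : ρ • g j (T j) ∉ (Q.under (𝓞 (K j))).asIdeal ∧
                ∃ x : 𝓞 (K j), ρ • g j (T j) - x ^ e ∈ (Q.under (𝓞 (K j))).asIdeal := by
              refine ⟨fun h4 => r1 ?_, ρ • x, ?_⟩
              · have h5 := (smul_mem_cjP ρ⁻¹ (Q.under (𝓞 (K j))) (ρ • g j (T j))).2 h4
                rwa [inv_smul_smul] at h5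
              · rw [← smul_pow', ← smul_sub, ← smul_mem_cjP ρ⁻¹, inv_smul_smul]
                exact r2
            obtain ⟨s1, y, s2⟩ := hres
            refine ⟨s1, algebraMap (𝓞 (K j)) (𝓞 L) y, ?_⟩
            rw [← map_pow, ← map_sub]
            exact s2
          · have hj0 := (hg j) (T j) (hT j).1
            have hsu : IsSU SL (algebraMap (𝓞 (K j)) (𝓞 L) (ρ • g j (T j))) := by
              refine ⟨fun h4 => ?_, fun q hq h4 => ?_⟩
              · rw [FaithfulSMul.algebraMap_eq_zero_iff, smul_eq_zero_iff_eq] at h4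
                exact hj0.1 h4
              · have h5 : ρ • g j (T j) ∈ (q.under (𝓞 (K j))).asIdeal := h4
                have h6 := (smul_mem_cjP ρ⁻¹ (q.under (𝓞 (K j))) (ρ • g j (T j))).2 h5
                rw [inv_smul_smul] at h6
                have h7 : cjP ρ⁻¹ (q.under (𝓞 (K j))) ∉ SK j := by
                  rw [hSS.memK, cjP_under, under_under, ← hSS.memL]
                  exact hq
                have h8 := (hj0.2 _ h7 1).1 (by rw [pow_one]; exact h6)
                rw [pow_one, hTp j hj] at h8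
                exact (cjP ρ⁻¹ (q.under (𝓞 (K j)))).isPrime.ne_top (top_le_iff.1 h8)
            exact ⟨hsu.2 Q hQS, hPP _ hsu⟩
        have h5 := BMany_tr τ' hup
        rw [← algebraMap_smul, smul_smul, ← hσ] at h5
        exact h5
  · intro P hP P' hP' h1
    obtain ⟨Q, hQ, rfl⟩ := Finset.mem_image.1 hP
    obtain ⟨Q', hQ', rfl⟩ := Finset.mem_image.1 hP'
    rw [hinj Q hQ Q' hQ' (hu Q Q' h1)]


private theorem BMany_pr_add {e : ℕ} (hn : ∀ i, n i ∣ e) (c v w : V n) : ((pr e c (v + w) : ℕ) : ZMod e) = (pr e c v : ZMod e) + (pr e c w : ZMod e) := by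
  unfold pr
  push_cast
  rw [← Finset.sum_add_distrib]
  refine Finset.sum_congr rfl fun i _ => ?_
  obtain ⟨q, hq⟩ := hn i
  have hni : 0 < n i := Nat.pos_of_ne_zero (NeZero.ne (n i))
  have h1 : e / n i = q := by
    rw [hq]
    exact Nat.mul_div_cancel_left q hni
  have h2 : (((v + w) i).val * q : ℕ) ≡ ((v i).val + (w i).val) * q [MOD e] := by
    have h3 : ((v + w) i).val ≡ (v i).val + (w i).val [MOD n i] := by
      rw [Pi.add_apply, ZMod.val_add]
      exact Nat.mod_modEq _ _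
    have h4 := h3.mul_right' q
    rwa [← hq] at h4
  have h3 : ((((v + w) i).val * q : ℕ) : ZMod e) = ((((v i).val + (w i).val) * q : ℕ) : ZMod e) := (ZMod.natCast_eq_natCast_iff _ _ _).2 h2
  push_cast at h3
  rw [h1]
  linear_combination ((c i).val : ZMod e) * h3

private theorem BMany_pigeon {e : ℕ} (he : 0 < e) (hn : ∀ i, n i ∣ e) {l : ℕ} (hl : l.Prime) (hlarge : l < Nat.card {v : V n // l • v = 0}) (c : V n) :
    ∃ v : V n, v ≠ 0 ∧ l • v = 0 ∧ e ∣ pr e c v := by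
  classical
  have hne : NeZero e := ⟨he.ne'⟩
  let f : V n →+ ZMod e := AddMonoidHom.mk' (fun v => ((pr e c v : ℕ) : ZMod e)) (BMany_pr_add hn c)
  have hR : (Finset.univ.filter fun x : ZMod e => l • x = 0).card ≤ l := IsAddCyclic.card_nsmul_eq_zero_le hl.pos
  have hcard : (Finset.univ.filter fun x : ZMod e => l • x = 0).card < (Finset.univ.filter fun v : V n => l • v = 0).card := by
    have h3 : Nat.card {v : V n // l • v = 0} = (Finset.univ.filter fun v : V n => l • v = 0).card := by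
      rw [Nat.card_eq_fintype_card, Fintype.card_subtype]
    rw [← h3]
    exact lt_of_le_of_lt hR hlarge
  obtain ⟨a, ha, b, hb, hab, hf⟩ := Finset.exists_ne_map_eq_of_card_lt_of_maps_to hcard (f := f) (by
    intro v hv
    have hv' := (Finset.mem_filter.1 (Finset.mem_coe.1 hv)).2
    rw [Finset.mem_coe, Finset.mem_filter]
    refine ⟨Finset.mem_univ _, ?_⟩
    rw [← map_nsmul, hv', map_zero])
  refine ⟨a - b, sub_ne_zero.2 hab, by rw [smul_sub, (Finset.mem_filter.1 ha).2, (Finset.mem_filter.1 hb).2, sub_zero], ?_⟩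
  have h2 : f (a - b) = 0 := by rw [map_sub, hf, sub_self]
  exact (ZMod.natCast_eq_zero_iff _ _).1 h2

variable {H M : Type} [Field H] [NumberField H] [Field M] [NumberField M] [Algebra F H] [Algebra F M] [Algebra L M] [Algebra H M]
variable [IsScalarTower F L M] [IsScalarTower F H M]

theorem many_S [IsGalois F L] [IsGalois F H] (hζ : IsPrimitiveRoot ζ e) (he : 0 < e) (hn : ∀ i, n i ∣ e)
    {l k : ℕ} (hl : l.Prime) (hlarge : l < Nat.card {v : V n // l • v = 0}) {B : V n → 𝓞 L} (hB0 : ∀ w, B w ≠ 0)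
    (hB : ∀ v : V n, v ≠ 0 → l • v = 0 → ∃ A : Finset (Prm L), k ≤ A.card ∧ (∀ Q ∈ A, GoodPrm F e Q ∧ Ev e v B Q) ∧
      ∀ Q ∈ A, ∀ Q' ∈ A, Q.under (𝓞 F) = Q'.under (𝓞 F) → Q = Q') {α : Fin m → M}
    (h : IsExt B M α) (hc : IsCompositum L H M) (χ : Gal(H/F) →* ℂˣ) :
    ∃ A : Finset (Prm F), k ≤ A.card ∧ ∀ q ∈ A, Ramified H q ∧ TrivialAt χ q := by

  classical
  have hgal : IsGalois F M := comp_galois F L H M hc
  have hgalL : IsGalois L M := IsGalois.tower_top_of_isGalois F L M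
  have hrad : ∀ i, rad B i ≠ 0 := fun i => Finset.prod_ne_zero_iff.2 fun w _ => pow_ne_zero _ (hB0 w)
  obtain ⟨κ, h1, h2⟩ := kum hζ he hn h hrad
  obtain ⟨c, hcc⟩ := chr κ h1 he hn (χ.comp (resLH F L H M))
  obtain ⟨v, hv0, hlv, hcv⟩ := BMany_pigeon he hn hl hlarge c
  obtain ⟨A, hA1, hA2, hA3⟩ := hB v hv0 hlv
  have hinj : Set.InjOn (fun Q : Prm L => Q.under (𝓞 F)) (A : Set (Prm L)) := fun Q hQ Q' hQ' hh => hA3 Q hQ Q' hQ' hh
  refine ⟨A.image fun Q : Prm L => Q.under (𝓞 F), ?_, fun q hq => ?_⟩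
  · rw [Finset.card_image_of_injOn hinj]
    exact hA1
  · obtain ⟨Q, hQ, rfl⟩ := Finset.mem_image.1 hq
    have hev : Ev e v B Q := (hA2 Q hQ).2
    refine ⟨desc_ramified hc (ev_ramified h hv0 hev), desc_trivial (L := L) (M := M) (hA2 Q hQ).1.2 χ ?_⟩
    intro P hP hPQ σ hσ
    have h0 := hcc σ
    rw [MonoidHom.comp_apply] at h0
    rw [h0]
    have h3 := dec_fix hζ he hn h (hA2 Q hQ).1.1 hev hcv P hP hPQ σ hσ
    rw [h2] at h3
    have hbet : bet α c ≠ 0 := by
      unfold bet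
      refine Finset.prod_ne_zero_iff.2 fun i _ => pow_ne_zero _ fun h0 => ?_
      have h4 := h.pow i
      rw [h0, zero_pow (NeZero.ne (n i)), eq_comm, map_eq_zero] at h4
      exact hrad i (RingOfIntegers.coe_eq_zero_iff.1 h4)
    have h5 : algebraMap L M (ζ ^ pr e c (κ σ).toAdd) = 1 := mul_right_cancel₀ hbet (h3.trans (one_mul _).symm)
    rw [map_eq_one_iff _ (algebraMap L M).injective] at h5
    exact (hζ.pow_eq_one_iff_dvd _).1 h5

end StarkR
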