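import Pool.Agent.Lib.MP_d9bae3_nt.NG.BDisc
import Pool.Agent.Lib.MP_d9bae3_nt.NG.BDefs

/-!
# The discriminant of a Galois extension from above

* `card_inertia_le'`: as `card_inertia_le` (NG/BTame.lean), but only the elements of the inertia group satisfy
  `σ ^ l = 1`.
* `disc_le`: the exponents of the primes in the different as in `upper_dvd` (NG/BDisc.lean).
* `disc_comp`: composita of a fixed extension with extensions of exponent `l`.
-/

set_option linter.unusedSectionVars false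

namespace StarkR

open NumberField IsDedekindDomain nonZeroDivisors
open scoped Pointwise

variable {F H : Type} [Field F] [NumberField F] [Field H] [NumberField H] [Algebra F H]

theorem card_inertia_le' {Q : Ideal (𝓞 H)} (hQ : Q.IsPrime) (hQ0 : Q ≠ ⊥) {l : ℕ} (hl0 : 0 < l) (hl : ((l : ℕ) : 𝓞 H) ∉ Q)
    (hexp : ∀ σ ∈ Q.inertia Gal(H/F), σ ^ l = 1) : Nat.card (Q.inertia Gal(H/F)) ≤ l := by
  classical
  obtain ⟨π, hπ, hπ2⟩ : ∃ π ∈ Q, π ∉ Q ^ 2 := by
    have h1 : Q ^ 2 < Q := by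
      have h2 := Ideal.pow_right_strictAnti Q hQ0 hQ.ne_top (show 1 < 2 by norm_num)
      simpa using h2
    exact Set.exists_of_ssubset h1
  have hex : ∀ σ : Q.inertia Gal(H/F), ∃ d : 𝓞 H, σ.1 • π - π * d ∈ Q ^ 2 := by
    intro σ
    obtain ⟨d, e, he, hde⟩ := Ideal.exists_mul_add_mem_pow_succ (P := Q) hQ0 (i := 1) π (σ.1 • π) (by simpa using hπ) hπ2
      (by simpa using smul_mem_of_inertia σ.2 hπ)
    refine ⟨d, ?_⟩
    rw [← hde]
    simpa using he
  choose d hd using hex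
  have huniq : ∀ a b : 𝓞 H, π * a - π * b ∈ Q ^ 2 → a - b ∈ Q := by
    intro a b hab
    rw [← mul_sub] at hab
    exact Ideal.mem_prime_of_mul_mem_pow hQ0 hπ2 hab
  have hmul : ∀ σ τ : Q.inertia Gal(H/F), d (σ * τ) - d σ * d τ ∈ Q := by
    intro σ τ
    refine huniq _ _ ?_
    have h1 : π * d (σ * τ) - π * (d σ * d τ) = -((σ * τ).1 • π - π * d (σ * τ)) + (σ.1 • (τ.1 • π - π * d τ)) +
        (σ.1 • π - π * d σ) * (σ.1 • d τ) + π * (d σ * (σ.1 • d τ - d τ)) := by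
      rw [Subgroup.coe_mul, mul_smul, smul_sub, smul_mul']
      ring
    rw [h1]
    refine Ideal.add_mem _ (Ideal.add_mem _ (Ideal.add_mem _ ?_ ?_) ?_) ?_
    · exact (Ideal.neg_mem_iff _).2 (hd _)
    · exact smul_mem_pow σ.2 2 (hd τ)
    · exact Ideal.mul_mem_right _ _ (hd σ)
    · rw [pow_two]
      exact Ideal.mul_mem_mul hπ (Ideal.mul_mem_left _ _ (σ.2 _))
  have hone : d 1 - 1 ∈ Q := by
    refine huniq _ _ ?_
    have h1 := hd 1
    have h2 : π * d 1 - π * 1 = -((1 : Q.inertia Gal(H/F)).1 • π - π * d 1) := by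
      rw [Subgroup.coe_one, one_smul]
      ring
    rw [h2]
    exact (Ideal.neg_mem_iff _).2 h1
  let f : Q.inertia Gal(H/F) →* (𝓞 H ⧸ Q) :=
    { toFun := fun σ => Ideal.Quotient.mk Q (d σ)
      map_one' := by
        rw [← map_one (Ideal.Quotient.mk Q), Ideal.Quotient.eq]
        exact hone
      map_mul' := fun σ τ => by
        rw [← map_mul, Ideal.Quotient.eq]
        exact hmul σ τ }
  have hf1 : ∀ σ, f σ = 1 → σ = 1 := by
    intro σ h
    have h1 : d σ - 1 ∈ Q := by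
      rw [← Ideal.Quotient.eq, map_one]
      exact h
    refine Subtype.ext (inertia_fix hQ hQ0 hπ hπ2 hl σ.2 (hexp σ.1 σ.2) ?_)
    have h2 : σ.1 • π - π = (σ.1 • π - π * d σ) + π * (d σ - 1) := by ring
    rw [h2]
    refine Ideal.add_mem _ (hd σ) ?_
    rw [pow_two]
    exact Ideal.mul_mem_mul hπ h1
  have hinj : Function.Injective f := by
    intro σ τ h
    have h1 : f (σ * τ⁻¹) = 1 := by
      rw [map_mul, h, ← map_mul, mul_inv_cancel, map_one]
    exact mul_inv_eq_one.1 (hf1 _ h1)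
  have hdom : IsDomain (𝓞 H ⧸ Q) := Ideal.Quotient.isDomain Q
  have hmaps : ∀ σ, f σ ∈ ((Polynomial.nthRoots l (1 : 𝓞 H ⧸ Q)).toFinset : Set (𝓞 H ⧸ Q)) := by
    intro σ
    rw [Finset.mem_coe, Multiset.mem_toFinset, Polynomial.mem_nthRoots hl0, ← map_pow]
    have h1 : σ ^ l = 1 := Subtype.ext (by rw [Subgroup.coe_pow, Subgroup.coe_one]; exact hexp σ.1 σ.2)
    rw [h1, map_one]
  have hcard : Nat.card (Q.inertia Gal(H/F)) ≤ ((Polynomial.nthRoots l (1 : 𝓞 H ⧸ Q)).toFinset).card := by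
    have h1 : Nat.card (Q.inertia Gal(H/F)) = (Set.range f).ncard := by
      rw [← Set.image_univ, Set.ncard_image_of_injective _ hinj, Set.ncard_univ]
    rw [h1, ← Set.ncard_coe_finset]
    refine Set.ncard_le_ncard ?_ (Finset.finite_toSet _)
    rintro _ ⟨σ, rfl⟩
    exact hmaps σ
  exact hcard.trans ((Multiset.toFinset_card_le _).trans (Polynomial.card_nthRoots l 1))

private theorem bup_emult_prod (S : Finset (Prm F)) (q : Prm F) [Decidable (q ∈ S)] :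
    emultiplicity q.asIdeal (∏ q' ∈ S, q'.asIdeal) = if q ∈ S then 1 else 0 := by
  classical
  rw [Finset.emultiplicity_prod q.prime]
  have h1 : ∀ q' : Prm F, emultiplicity q.asIdeal q'.asIdeal = if q' = q then 1 else 0 := by
    intro q'
    by_cases h : q' = q
    · rw [if_pos h, h]
      exact (FiniteMultiplicity.of_prime_left q.prime q.prime.ne_zero).emultiplicity_self
    · rw [if_neg h]
      refine emultiplicity_eq_zero.2 fun h2 => h ?_
      rw [Ideal.dvd_iff_le] at h2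
      exact HeightOneSpectrum.ext (q'.isMaximal.eq_of_le q.isPrime.ne_top h2)
  simp only [h1]
  rw [Finset.sum_ite_eq']
  by_cases hq : q ∈ S
  · rw [if_pos hq, if_pos hq]
  · rw [if_neg hq, if_neg hq]

private theorem bup_prod_ne (S : Finset (Prm F)) : (∏ q' ∈ S, q'.asIdeal) ≠ ⊥ := by
  rw [← Ideal.zero_eq_bot, Finset.prod_ne_zero_iff]
  exact fun q _ => q.ne_bot

private theorem bup_absNorm_prod (S : Finset (Prm F)) : Ideal.absNorm (∏ q' ∈ S, q'.asIdeal) = ∏ q' ∈ S, nm q' := by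
  rw [map_prod]
  rfl

private theorem bup_dvd [IsGalois F H] {N l : ℕ} (hN0 : N ≠ 0) (hN : Module.finrank F H = N) (S₀ : Finset (Prm F))
    (hS₀ : ∀ q : Prm F, ((N : ℕ) : 𝓞 F) ∈ q.asIdeal → q ∈ S₀)
    (hl0 : 0 < l)
    (h : ∀ q : Prm F, q ∉ S₀ → ∀ Q : Ideal (𝓞 H), Q.IsPrime → Q.LiesOver q.asIdeal → Nat.card (Q.inertia Gal(H/F)) ≤ l)
    {R : Finset (Prm F)} (hR : ∀ q : Prm F, q ∉ S₀ → Ramified H q → q ∈ R) :
    differentIdeal (𝓞 F) (𝓞 H) ^ l ∣ (Ideal.map (algebraMap (𝓞 F) (𝓞 H)) (Ideal.span {((N : ℕ) : 𝓞 F)})) ^ l *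
      ((∏ q' ∈ S₀, q'.asIdeal).map (algebraMap (𝓞 F) (𝓞 H))) ^ l *
      ((∏ q' ∈ R, q'.asIdeal).map (algebraMap (𝓞 F) (𝓞 H))) ^ (l - 1) := by
  classical
  have hD : differentIdeal (𝓞 F) (𝓞 H) ≠ ⊥ := differentIdeal_ne_bot
  have hNc : ((N : ℕ) : 𝓞 F) ≠ 0 := Nat.cast_ne_zero.2 hN0
  have hNI : Ideal.span {((N : ℕ) : 𝓞 F)} ≠ ⊥ := by rwa [Ne, Ideal.span_singleton_eq_bot]
  rw [UniqueFactorizationMonoid.dvd_iff_emultiplicity_le (pow_ne_zero _ hD)]
  intro P hP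
  have hPp : P.IsPrime := Ideal.isPrime_of_prime hP
  let q : Prm F := (⟨P, hPp, hP.ne_zero⟩ : Prm H).under (𝓞 F)
  have hPq : P.LiesOver q.asIdeal := ⟨rfl⟩
  rw [emultiplicity_mul hP, emultiplicity_mul hP, emultiplicity_pow hP, emultiplicity_pow hP, emultiplicity_pow hP,
    emultiplicity_pow hP, emult_map q hP hPq (bup_prod_ne S₀), emult_map q hP hPq (bup_prod_ne R), bup_emult_prod,
    bup_emult_prod, emult_map q hP hPq hNI]
  have hfm : FiniteMultiplicity P (differentIdeal (𝓞 F) (𝓞 H)) := FiniteMultiplicity.of_prime_left hP hD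
  rw [hfm.emultiplicity_eq_multiplicity]
  set v := multiplicity P (differentIdeal (𝓞 F) (𝓞 H)) with hv
  set e := q.asIdeal.ramificationIdx' P with he
  have hfn : FiniteMultiplicity q.asIdeal (Ideal.span {((N : ℕ) : 𝓞 F)}) := FiniteMultiplicity.of_prime_left q.prime hNI
  rw [hfn.emultiplicity_eq_multiplicity]
  set m := multiplicity q.asIdeal (Ideal.span {((N : ℕ) : 𝓞 F)}) with hm
  have h1 : ((Module.finrank F H : ℕ) : 𝓞 F) ∉ q.asIdeal ^ (m + 1) := by
    rw [hN]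
    intro h2
    have h3 := hfn.not_pow_dvd_of_multiplicity_lt (m := m + 1) (by omega)
    exact h3 (Ideal.dvd_span_singleton.2 h2)
  have h3 := not_pow_dvd_different q hPp hPq h1
  have h4 : v < e * (m + 1) := by
    by_contra h5
    exact h3 ((pow_dvd_pow P (not_lt.1 h5)).trans (pow_multiplicity_dvd _ _))
  by_cases hq : q ∈ S₀
  · rw [if_pos hq]
    refine le_trans ?_ le_self_add
    norm_cast
    rw [mul_one]
    nlinarith
  · have hm0 : m = 0 := by
      by_contra hne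
      apply hq
      apply hS₀
      have h5 : q.asIdeal ∣ Ideal.span {((N : ℕ) : 𝓞 F)} := by
        refine (dvd_pow_self q.asIdeal hne).trans ?_
        rw [hm]
        exact pow_multiplicity_dvd _ _
      exact Ideal.dvd_span_singleton.1 h5
    rw [hm0, zero_add, mul_one] at h4
    have hcard := card_inertia_eq (H := H) q hPp hPq
    have h7 : e ≤ l := by
      rw [he, ← hcard]
      exact h q hq P hPp hPq
    by_cases hv0 : v = 0
    · rw [hv0, Nat.cast_zero, mul_zero]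
      exact zero_le
    · have h5 : Ramified H q := by
        refine ⟨P, hPp, hPq, fun h6 => ?_⟩
        rw [h6, Subgroup.card_bot] at hcard
        omega
      rw [if_neg hq, if_pos (hR q hq h5)]
      refine le_trans ?_ le_add_self
      norm_cast
      obtain ⟨l', rfl⟩ : ∃ l', l = l' + 1 := ⟨l - 1, by omega⟩
      simp only [Nat.add_sub_cancel, mul_one]
      nlinarith

theorem disc_le [IsGalois F H] {N l : ℕ} (hN : Module.finrank F H = N) (hl : l.Prime) (hlN : l ∣ N) (S₀ : Finset (Prm F))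
    (hS₀ : ∀ q : Prm F, ((N : ℕ) : 𝓞 F) ∈ q.asIdeal → q ∈ S₀)
    (h : ∀ q : Prm F, q ∉ S₀ → ∀ Q : Ideal (𝓞 H), Q.IsPrime → Q.LiesOver q.asIdeal → Nat.card (Q.inertia Gal(H/F)) ≤ l)
    {R : Finset (Prm F)} (hR : ∀ q : Prm F, q ∉ S₀ → Ramified H q → q ∈ R) :
    (discr H).natAbs ≤ (N ^ (Module.finrank ℚ F * N) * (∏ q ∈ S₀, nm q) ^ N * (discr F).natAbs ^ N) * (∏ q ∈ R, nm q) ^ (N - N / l) := by
  have hfd : FiniteDimensional F H := FiniteDimensional.of_finrank_pos (by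
    have := Module.Finite.of_restrictScalars_finite ℚ F H
    exact Module.finrank_pos)
  have hN0 : N ≠ 0 := by
    rw [← hN]
    exact Module.finrank_pos.ne'
  have hD : differentIdeal (𝓞 F) (𝓞 H) ≠ ⊥ := differentIdeal_ne_bot
  have hd := NumberField.natAbs_discr_eq_absNorm_differentIdeal_mul_natAbs_discr_pow F (𝓞 F) H (𝓞 H)
  rw [hN] at hd
  have hnorm : ∀ I : Ideal (𝓞 F), Ideal.absNorm (I.map (algebraMap (𝓞 F) (𝓞 H))) = Ideal.absNorm I ^ N := by
    intro I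
    rw [Ideal.absNorm_algebraMap, ← IsFractionRing.finrank_eq (𝓞 F) F (𝓞 H) H, hN]
  have hkk : N * (l - 1) = (N - N / l) * l := by
    obtain ⟨c, rfl⟩ := hlN
    rw [Nat.mul_div_cancel_left c hl.pos]
    obtain ⟨l', rfl⟩ : ∃ l', l = l' + 1 := ⟨l - 1, by have := hl.pos; omega⟩
    have h1 : (l' + 1) * c - c = l' * c := by
      rw [Nat.add_mul, one_mul, Nat.add_sub_cancel]
    rw [h1]
    simp only [Nat.add_sub_cancel]
    ring
  set D := Ideal.absNorm (differentIdeal (𝓞 F) (𝓞 H)) with hDdef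
  have hup : D ≤ N ^ (Module.finrank ℚ F * N) * (∏ q ∈ S₀, nm q) ^ N * (∏ q ∈ R, nm q) ^ (N - N / l) := by
    have hN1 : Ideal.absNorm (Ideal.span {((N : ℕ) : 𝓞 F)}) = N ^ Module.finrank ℚ F := by
      rw [Ideal.absNorm_span_singleton]
      have h2 := Algebra.norm_algebraMap (S := 𝓞 F) ((N : ℕ) : ℤ)
      rw [map_natCast, RingOfIntegers.rank] at h2
      rw [h2, Int.natAbs_pow, Int.natAbs_natCast]
    have h3 := Ideal.absNorm_dvd_absNorm_of_le (Ideal.le_of_dvd (bup_dvd (F := F) (H := H) hN0 hN S₀ hS₀ hl.pos h hR))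
    have h1 := Nat.le_of_dvd (Nat.pos_of_ne_zero (fun h4 => ?_)) h3
    · rw [map_pow, map_mul, map_mul, map_pow, map_pow, map_pow, hnorm, hnorm, hnorm, bup_absNorm_prod, bup_absNorm_prod, hN1,
        ← pow_mul (∏ q ∈ R, nm q), hkk, pow_mul (∏ q ∈ R, nm q), ← mul_pow, ← mul_pow, ← pow_mul] at h1
      exact (Nat.pow_le_pow_iff_left hl.ne_zero).1 h1
    · rw [Ideal.absNorm_eq_zero_iff] at h4
      revert h4
      have hNc : ((N : ℕ) : 𝓞 F) ≠ 0 := Nat.cast_ne_zero.2 hN0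
      have hNI : Ideal.span {((N : ℕ) : 𝓞 F)} ≠ ⊥ := by rwa [Ne, Ideal.span_singleton_eq_bot]
      exact mul_ne_zero (mul_ne_zero (pow_ne_zero _ (Ideal.map_ne_bot_of_ne_bot hNI))
        (pow_ne_zero _ (Ideal.map_ne_bot_of_ne_bot (bup_prod_ne S₀)))) (pow_ne_zero _ (Ideal.map_ne_bot_of_ne_bot (bup_prod_ne R)))
  rw [hd]
  calc D * (discr F).natAbs ^ N ≤ (N ^ (Module.finrank ℚ F * N) * (∏ q ∈ S₀, nm q) ^ N * (∏ q ∈ R, nm q) ^ (N - N / l)) *
        (discr F).natAbs ^ N := Nat.mul_le_mul_right _ hup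
    _ = _ := by ring

section comp

variable {F K H : Type} [Field F] [NumberField F] [Field K] [NumberField K] [Field H] [NumberField H]
variable [Algebra F K] [Algebra F H] [Algebra K H] [IsScalarTower F K H]

private theorem bup_res_smul [Normal F K] (τ : Gal(H/F)) (x : 𝓞 K) :
    algebraMap (𝓞 K) (𝓞 H) (AlgEquiv.restrictNormalHom K τ • x) = τ • algebraMap (𝓞 K) (𝓞 H) x := by
  have hinj : Function.Injective (algebraMap (𝓞 H) H) := FaithfulSMul.algebraMap_injective _ _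
  have hmap : ∀ z : 𝓞 K, algebraMap (𝓞 H) H (algebraMap (𝓞 K) (𝓞 H) z) = algebraMap K H (algebraMap (𝓞 K) K z) := by
    intro z
    rw [← IsScalarTower.algebraMap_apply (𝓞 K) (𝓞 H) H, IsScalarTower.algebraMap_apply (𝓞 K) K H]
  apply hinj
  rw [algebraMap.smul' τ _ H, hmap, hmap, algebraMap.smul' _ x K]
  exact AlgEquiv.restrictNormal_commutes τ K _

private theorem bup_res_inertia [Normal F K] {Q : Ideal (𝓞 H)} {σ : Gal(H/F)} (hσ : σ ∈ Q.inertia Gal(H/F)) :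
    AlgEquiv.restrictNormalHom K σ ∈ (Q.under (𝓞 K)).inertia Gal(K/F) := by
  intro x
  change algebraMap (𝓞 K) (𝓞 H) (AlgEquiv.restrictNormalHom K σ • x - x) ∈ Q
  rw [map_sub, bup_res_smul]
  exact hσ _

private theorem bup_res_ramified [Normal F K] {q : Prm F} {Q : Ideal (𝓞 H)} (hQ : Q.IsPrime) (hQq : Q.LiesOver q.asIdeal)
    {σ : Gal(H/F)} (hσ : σ ∈ Q.inertia Gal(H/F)) (h : AlgEquiv.restrictNormalHom K σ ≠ 1) : Ramified K q := by
  refine ⟨Q.under (𝓞 K), Ideal.IsPrime.under (𝓞 K) Q, ⟨?_⟩, fun hbot => h ?_⟩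
  · rw [hQq.over, Ideal.under_under]
  · have h1 := bup_res_inertia (K := K) hσ
    rw [hbot] at h1
    exact Subgroup.mem_bot.1 h1

end comp

private theorem bup_comp {F H₁ H₂ H : Type} [Field F] [NumberField F] [Field H₁] [NumberField H₁] [Field H₂] [NumberField H₂]
    [Field H] [NumberField H] [Algebra F H₁] [Algebra F H₂] [Algebra F H] [Algebra H₁ H] [Algebra H₂ H]
    [IsScalarTower F H₁ H] [IsScalarTower F H₂ H] [IsGalois F H₁] [IsGalois F H₂] [IsGalois F H]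
    (hgen : ∀ σ : Gal(H/F), AlgEquiv.restrictNormalHom H₁ σ = 1 → AlgEquiv.restrictNormalHom H₂ σ = 1 → σ = 1)
    {l : ℕ} (hl : l.Prime) (hexp : ∀ σ : Gal(H₁/F), σ ^ l = 1) {q : Prm F} (hq2 : ¬ Ramified H₂ q)
    (hlq : ((l : ℕ) : 𝓞 F) ∉ q.asIdeal) :
    (∀ Q : Ideal (𝓞 H), Q.IsPrime → Q.LiesOver q.asIdeal → Nat.card (Q.inertia Gal(H/F)) ≤ l) ∧
    (Ramified H q → Ramified H₁ q) := by
  have hres : ∀ Q : Ideal (𝓞 H), Q.IsPrime → Q.LiesOver q.asIdeal → ∀ σ ∈ Q.inertia Gal(H/F),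
      AlgEquiv.restrictNormalHom H₂ σ = 1 := by
    intro Q hQ hQq σ hσ
    by_contra hne
    exact hq2 (bup_res_ramified hQ hQq hσ hne)
  constructor
  · intro Q hQ hQq
    have hQ0 : Q ≠ ⊥ := Ideal.ne_bot_of_liesOver_of_ne_bot q.ne_bot Q
    refine card_inertia_le' hQ hQ0 hl.pos ?_ ?_
    · intro h7
      apply hlq
      have h8 : algebraMap (𝓞 F) (𝓞 H) ((l : ℕ) : 𝓞 F) ∈ Q := by rwa [map_natCast]
      rw [hQq.over]
      exact h8
    · intro σ hσ
      refine hgen _ ?_ ?_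
      · rw [map_pow]
        exact hexp _
      · rw [map_pow, hres Q hQ hQq σ hσ, one_pow]
  · rintro ⟨Q, hQ, hQq, hne⟩
    obtain ⟨σ, hσ1⟩ := Subgroup.ne_bot_iff_exists_ne_one.1 hne
    refine bup_res_ramified (K := H₁) hQ hQq σ.2 fun h1 => hσ1 ?_
    exact Subtype.ext (hgen _ h1 (hres Q hQ hQq σ.1 σ.2))

private theorem bup_gen {F Ω : Type} [Field F] [Field Ω] [Algebra F Ω] (H₁ H₂ : IntermediateField F Ω)
    (σ : Gal((H₁ ⊔ H₂ : IntermediateField F Ω)/F))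
    (h1 : ∀ x (hx : x ∈ H₁), σ ⟨x, (le_sup_left : H₁ ≤ H₁ ⊔ H₂) hx⟩ = ⟨x, (le_sup_left : H₁ ≤ H₁ ⊔ H₂) hx⟩)
    (h2 : ∀ x (hx : x ∈ H₂), σ ⟨x, (le_sup_right : H₂ ≤ H₁ ⊔ H₂) hx⟩ = ⟨x, (le_sup_right : H₂ ≤ H₁ ⊔ H₂) hx⟩) :
    σ = 1 := by
  let E : IntermediateField F (H₁ ⊔ H₂ : IntermediateField F Ω) :=
    { carrier := {x | σ x = x}
      mul_mem' := fun {a b} ha hb => by
        simp only [Set.mem_ofPred_eq] at ha hb ⊢
        rw [map_mul, ha, hb]
      add_mem' := fun {a b} ha hb => by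
        simp only [Set.mem_ofPred_eq] at ha hb ⊢
        rw [map_add, ha, hb]
      algebraMap_mem' := fun r => σ.commutes r
      inv_mem' := fun a ha => by
        simp only [Set.mem_ofPred_eq] at ha ⊢
        rw [map_inv₀, ha] }
  have hE1 : H₁ ≤ E.map (H₁ ⊔ H₂ : IntermediateField F Ω).val := by
    intro x hx
    exact ⟨⟨x, (le_sup_left : H₁ ≤ H₁ ⊔ H₂) hx⟩, h1 x hx, rfl⟩
  have hE2 : H₂ ≤ E.map (H₁ ⊔ H₂ : IntermediateField F Ω).val := by
    intro x hx
    exact ⟨⟨x, (le_sup_right : H₂ ≤ H₁ ⊔ H₂) hx⟩, h2 x hx, rfl⟩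
  have hE : H₁ ⊔ H₂ ≤ E.map (H₁ ⊔ H₂ : IntermediateField F Ω).val := sup_le hE1 hE2
  refine AlgEquiv.ext fun y => ?_
  obtain ⟨z, hz, hzy⟩ := hE y.2
  have h3 : z = y := Subtype.ext hzy
  rw [← h3]
  exact hz

theorem disc_comp {F : Type} [Field F] [NumberField F] {N l : ℕ} (hl : l.Prime) (hlN : l ∣ N) (H₂ : IntermediateField F (AlgebraicClosure F))
    [NumberField H₂] [IsGalois F H₂] : ∃ C : ℕ, 0 < C ∧ ∀ (H₁ : IntermediateField F (AlgebraicClosure F)) (_ : NumberField H₁) (_ : IsGalois F H₁),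
      (∀ σ : Gal(H₁/F), σ ^ l = 1) → ∀ (_ : NumberField (H₁ ⊔ H₂ : IntermediateField F (AlgebraicClosure F)))
      (_ : IsGalois F (H₁ ⊔ H₂ : IntermediateField F (AlgebraicClosure F))),
      Module.finrank F (H₁ ⊔ H₂ : IntermediateField F (AlgebraicClosure F)) = N →
      (discr (H₁ ⊔ H₂ : IntermediateField F (AlgebraicClosure F))).natAbs ≤ C * radN F H₁ ^ (N - N / l) := by
  classical
  rcases Nat.eq_zero_or_pos N with hN0 | hN0
  · refine ⟨1, one_pos, ?_⟩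
    intro H₁ _ _ _ _ _ hN
    exfalso
    have hfd : FiniteDimensional F (H₁ ⊔ H₂ : IntermediateField F (AlgebraicClosure F)) :=
      Module.Finite.of_restrictScalars_finite ℚ F _
    have h1 : 0 < Module.finrank F (H₁ ⊔ H₂ : IntermediateField F (AlgebraicClosure F)) := Module.finrank_pos
    omega
  have hNc : ((N : ℕ) : 𝓞 F) ≠ 0 := Nat.cast_ne_zero.2 hN0.ne'
  have hNI : Ideal.span {((N : ℕ) : 𝓞 F)} ≠ ⊥ := by rwa [Ne, Ideal.span_singleton_eq_bot]
  have hfin : {q : Prm F | q.asIdeal ∣ Ideal.span {((N : ℕ) : 𝓞 F)}}.Finite := Ideal.finite_factors hNI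
  set S₀ : Finset (Prm F) := (ramified_finite F H₂).toFinset ∪ hfin.toFinset with hS₀
  have hmem : ∀ q : Prm F, q ∈ S₀ ↔ Ramified H₂ q ∨ ((N : ℕ) : 𝓞 F) ∈ q.asIdeal := by
    intro q
    rw [hS₀, Finset.mem_union, Set.Finite.mem_toFinset, Set.Finite.mem_toFinset]
    exact or_congr Iff.rfl Ideal.dvd_span_singleton
  have hpos : 0 < N ^ (Module.finrank ℚ F * N) * (∏ q ∈ S₀, nm q) ^ N * (discr F).natAbs ^ N := by
    have h1 : 0 < ∏ q ∈ S₀, nm q := Finset.prod_pos fun q _ => by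
      unfold nm
      exact Nat.pos_of_ne_zero fun h => q.ne_bot (Ideal.absNorm_eq_zero_iff.1 h)
    have h2 : 0 < (discr F).natAbs := Nat.pos_of_ne_zero (Int.natAbs_ne_zero.2 (NumberField.discr_ne_zero F))
    exact Nat.mul_pos (Nat.mul_pos (Nat.pow_pos hN0) (Nat.pow_pos h1)) (Nat.pow_pos h2)
  refine ⟨_, hpos, ?_⟩
  intro H₁ hnf1 hg1 hexp hnf hg hN
  let _ : Algebra H₁ (H₁ ⊔ H₂ : IntermediateField F (AlgebraicClosure F)) :=
    (IntermediateField.inclusion (le_sup_left : H₁ ≤ H₁ ⊔ H₂)).toRingHom.toAlgebra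
  let _ : Algebra H₂ (H₁ ⊔ H₂ : IntermediateField F (AlgebraicClosure F)) :=
    (IntermediateField.inclusion (le_sup_right : H₂ ≤ H₁ ⊔ H₂)).toRingHom.toAlgebra
  have : IsScalarTower F H₁ (H₁ ⊔ H₂ : IntermediateField F (AlgebraicClosure F)) :=
    IsScalarTower.of_algebraMap_eq fun x => rfl
  have : IsScalarTower F H₂ (H₁ ⊔ H₂ : IntermediateField F (AlgebraicClosure F)) :=
    IsScalarTower.of_algebraMap_eq fun x => rfl
  have hgen : ∀ σ : Gal((H₁ ⊔ H₂ : IntermediateField F (AlgebraicClosure F))/F),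
      AlgEquiv.restrictNormalHom H₁ σ = 1 → AlgEquiv.restrictNormalHom H₂ σ = 1 → σ = 1 := by
    intro σ h1 h2
    refine bup_gen H₁ H₂ σ (fun x hx => ?_) (fun x hx => ?_)
    · have h3 := AlgEquiv.restrictNormal_commutes σ H₁ ⟨x, hx⟩
      have h4 : σ.restrictNormal H₁ = 1 := h1
      rw [h4] at h3
      exact h3.symm
    · have h3 := AlgEquiv.restrictNormal_commutes σ H₂ ⟨x, hx⟩
      have h4 : σ.restrictNormal H₂ = 1 := h2
      rw [h4] at h3
      exact h3.symm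
  have key : ∀ q : Prm F, q ∉ S₀ →
      (∀ Q : Ideal (𝓞 (H₁ ⊔ H₂ : IntermediateField F (AlgebraicClosure F))), Q.IsPrime → Q.LiesOver q.asIdeal →
        Nat.card (Q.inertia Gal((H₁ ⊔ H₂ : IntermediateField F (AlgebraicClosure F))/F)) ≤ l) ∧
      (Ramified (H₁ ⊔ H₂ : IntermediateField F (AlgebraicClosure F)) q → Ramified H₁ q) := by
    intro q hq
    rw [hmem, not_or] at hq
    refine bup_comp (H₂ := H₂) hgen hl hexp hq.1 fun h1 => hq.2 ?_
    obtain ⟨c, rfl⟩ := hlN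
    rw [Nat.cast_mul]
    exact Ideal.mul_mem_right _ _ h1
  have h1 := disc_le (F := F) (H := (H₁ ⊔ H₂ : IntermediateField F (AlgebraicClosure F))) hN hl hlN S₀
    (fun q hq => (hmem q).2 (Or.inr hq)) (fun q hq => (key q hq).1) (R := (ramified_finite F H₁).toFinset)
    (fun q hq hr => by
      rw [Set.Finite.mem_toFinset]
      exact (key q hq).2 hr)
  have h2 : ∏ q ∈ (ramified_finite F H₁).toFinset, nm q = radN F H₁ := by
    unfold radN
    rw [finprod_mem_eq_finite_toFinset_prod _ (ramified_finite F H₁)]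
  rw [h2] at h1
  exact h1

end StarkR
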