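import Pool.Agent.Lib.MP_d9bae3_nt.NG.DBase

/-!
# Module NAG-DCard: the number of the levels

By `IsLev.rep` the pairs `(i, τ)`, `τ ∈ Gal(K i/F)`, correspond to the nonzero `w`; the order of `w = t_i(τ) • v i` is `d i` (`t_i(τ)` is prime to `d i`: `τ (z i) ^ t_i(τ) = z i` with primitive `d i`-th roots of unity), and `#Gal(K i/F) = [K i : F] = [F(ζ_(d i)) : F]` (`K i / F` is Galois; `K i = F(z i)` is a cyclotomic extension of `F` for `{d i}`, so it is isomorphic to
`CyclotomicField (d i) F`: `IsCyclotomicExtension.algEquiv`).  So `∑_{w ≠ 0} 1/[F(ζ_(ord w)):F] = ∑_i #Gal(K i/F) / [K i:F] = #ι`.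
-/

set_option linter.unusedSectionVars false

namespace StarkR

open NumberField IsDedekindDomain Filter Topology
open scoped Pointwise

variable {F L : Type} [Field F] [NumberField F] [Field L] [NumberField L] [Algebra F L]
variable {ι : Type} [Fintype ι] {K : ι → Type} [∀ i, Field (K i)] [∀ i, NumberField (K i)]
variable [∀ i, Algebra F (K i)] [∀ i, Algebra (K i) L] [∀ i, IsScalarTower F (K i) L]
variable {m : ℕ} {n : Fin m → ℕ} [∀ i, NeZero (n i)]
variable {e : ℕ} {ζ : L} {d : ι → ℕ} {z : (i : ι) → K i} {t : (i : ι) → Gal(K i/F) → ℕ} {v : ι → V n} {rep : (Σ i, Gal(K i/F)) ≃ W n}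
variable {S : Finset (Prm F)} {SL : Finset (Prm L)} {SK : (i : ι) → Finset (Prm (K i))} {g : (i : ι) → Ideal (𝓞 (K i)) → 𝓞 (K i)}

theorem card_iota (hζ : IsPrimitiveRoot ζ e) (he : 0 < e) (hlev : IsLev (L := L) e ζ d z t v rep) : (Fintype.card ι : ℝ) = aOf F n := by
  classical
  have hz : ∀ i, IsPrimitiveRoot (z i) (d i) := by
    intro i
    have h1 : IsPrimitiveRoot (ζ ^ (e / d i)) (d i) := hζ.pow he (Nat.div_mul_cancel (hlev.dvd i)).symm
    rw [← hlev.root i] at h1
    exact h1.of_map_of_injective (algebraMap (K i) L).injective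
  have hd : ∀ i, 0 < d i := fun i => lt_of_lt_of_le (by norm_num) (hlev.two i)
  have hord : ∀ (i : ι) (τ : Gal(K i/F)), addOrderOf ((rep ⟨i, τ⟩ : W n) : V n) = d i := by
    intro i τ
    have h1 : IsPrimitiveRoot (τ (z i)) (d i) := (hz i).map_of_injective τ.injective
    have h2 : (t i τ).Coprime (d i) := by
      rw [← h1.pow_iff_coprime (hd i), (hlev.inv i τ).2]
      exact hz i
    rw [hlev.rep_eq, Nat.Coprime.addOrderOf_nsmul (by rw [hlev.order i]; exact h2.symm), hlev.order i]
  have hfin : ∀ i, Module.finrank F (CyclotomicField (d i) F) = Module.finrank F (K i) := by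
    intro i
    have hne : NeZero (d i) := ⟨(hd i).ne'⟩
    have hne2 : NeZero ((d i : ℕ) : F) := ⟨Nat.cast_ne_zero.2 (hd i).ne'⟩
    have hKi : FiniteDimensional F (K i) := Module.Finite.right ℚ F (K i)
    have h1 := (hz i).intermediateField_adjoin_isCyclotomicExtension F
    have h2 := (IsCyclotomicExtension.algEquiv {d i} F (IntermediateField.adjoin F {z i})
      (CyclotomicField (d i) F)).toLinearEquiv.finrank_eq
    rw [← h2, hlev.gen i, IntermediateField.finrank_top']
  have hcard : ∀ i, Nat.card Gal(K i/F) = Module.finrank F (K i) := by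
    intro i
    have hKi : FiniteDimensional F (K i) := Module.Finite.right ℚ F (K i)
    have hg := hlev.gal i
    exact IsGalois.card_aut_eq_finrank F (K i)
  have hpos : ∀ i, 0 < Module.finrank F (K i) := by
    intro i
    have hKi : FiniteDimensional F (K i) := Module.Finite.right ℚ F (K i)
    exact Module.finrank_pos
  have hf : ∀ i, Finite Gal(K i/F) := by
    intro i
    have hKi : FiniteDimensional F (K i) := Module.Finite.right ℚ F (K i)
    infer_instance
  have hft : ∀ i, Fintype Gal(K i/F) := fun i => Fintype.ofFinite _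
  obtain ⟨f, hfd⟩ : ∃ f : V n → ℝ, f = fun w => (1 : ℝ) / (Module.finrank F (CyclotomicField (addOrderOf w) F) : ℝ) := ⟨_, rfl⟩
  have h1 : aOf F n = ∑ w : W n, f (w : V n) := by
    unfold aOf
    have h2 : ∀ w : V n, (if w = 0 then 0 else (1 : ℝ) / (Module.finrank F (CyclotomicField (addOrderOf w) F) : ℝ)) =
        if w ≠ 0 then f w else 0 := by
      intro w
      rw [hfd]
      by_cases hw : w = 0
      · rw [if_pos hw, if_neg (not_not.2 hw)]
      · rw [if_neg hw, if_pos hw]
    refine (Finset.sum_congr rfl fun w _ => ?_).trans ((Finset.sum_filter (s := Finset.univ) (fun w : V n => w ≠ 0) f).symm.trans ?_)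
    · exact h2 w
    · exact Finset.sum_subtype (Finset.univ.filter fun w : V n => w ≠ 0) (fun w => by simp) f
  have h3 : ∑ w : W n, f (w : V n) = ∑ x : (Σ i, Gal(K i/F)), f ((rep x : W n) : V n) :=
    (Equiv.sum_comp rep fun w : W n => f (w : V n)).symm
  rw [h1, h3, Fintype.sum_sigma]
  have h4 : ∀ i, ∑ τ : Gal(K i/F), f ((rep ⟨i, τ⟩ : W n) : V n) = 1 := by
    intro i
    have h5 : ∀ τ : Gal(K i/F), f ((rep ⟨i, τ⟩ : W n) : V n) = 1 / (Module.finrank F (K i) : ℝ) := by
      intro τ
      rw [hfd]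
      simp only
      rw [hord, hfin]
    have h6 : (0 : ℝ) < Module.finrank F (K i) := Nat.cast_pos.2 (hpos i)
    rw [Finset.sum_congr rfl fun τ _ => h5 τ, Finset.sum_const, Finset.card_univ, ← Nat.card_eq_fintype_card, hcard, nsmul_eq_mul]
    exact mul_one_div_cancel h6.ne'
  rw [Finset.sum_congr rfl fun i _ => h4 i, Finset.sum_const, Finset.card_univ, nsmul_eq_mul, mul_one]

end StarkR
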