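import Pool.Agent.Lib.MP_d9bae3_nt.NG.FinGB
import Pool.Agent.Lib.MP_d9bae3_nt.NG.DCard

/-!
# Module NAG-DOrd: the order of magnitude of the number of extensions
-/

set_option linter.unusedSectionVars false

namespace StarkR

open NumberField IsDedekindDomain Filter Topology
open scoped Pointwise

section

variable {F L : Type} [Field F] [NumberField F] [Field L] [NumberField L] [Algebra F L]
variable {ι : Type} [Fintype ι] {K : ι → Type} [∀ i, Field (K i)] [∀ i, NumberField (K i)]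
variable [∀ i, Algebra F (K i)] [∀ i, Algebra (K i) L] [∀ i, IsScalarTower F (K i) L]
variable {m : ℕ} {n : Fin m → ℕ} [∀ i, NeZero (n i)]
variable {e : ℕ} {ζ : L} {d : ι → ℕ} {z : (i : ι) → K i} {t : (i : ι) → Gal(K i/F) → ℕ} {v : ι → V n} {rep : (Σ i, Gal(K i/F)) ≃ W n}
variable {S : Finset (Prm F)} {SL : Finset (Prm L)} {SK : (i : ι) → Finset (Prm (K i))} {g : (i : ι) → Ideal (𝓞 (K i)) → 𝓞 (K i)}
variable [Algebra L (AlgebraicClosure F)] [IsScalarTower F L (AlgebraicClosure F)]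

/-- the asymptotics of the number of the tuples -/
theorem TG_asymp [Nonempty ι] {e : ℕ} (he : 0 < e) {S : (i : ι) → Finset (Prm (K i))} (hS : ∀ i, GoodS e (S i)) :
    ∃ κ : ℝ, 0 < κ ∧ Tendsto (fun X : ℝ => ((TG S X).ncard : ℝ) / (X * Real.log X ^ (Fintype.card ι - 1))) atTop (𝓝 κ) := by
  choose g hg using fun i => exists_gen (hS i)
  choose κ hκ h1 h2 using fun i => mix_dens he (hS i) (hg i)
  refine ⟨(∏ i, κ i) / ((Fintype.card ι - 1).factorial : ℝ), div_pos (Finset.prod_pos fun i _ => hκ i) (by positivity), ?_⟩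
  exact tupG_asymp _ κ h1

theorem upG (hζ : IsPrimitiveRoot ζ e) (he : 0 < e) (hn : ∀ i, n i ∣ e) [IsCyclotomicExtension {e} F L]
    (hlev : IsLev (L := L) e ζ d z t v rep) (hSS : IsSS (F := F) e S SL SK) (hg : ∀ i, IsGen (SK i) (g i)) :
    ∃ C : ℝ, 0 < C ∧ ∀ X : ℕ, ((AExt F n X).ncard : ℝ) ≤ C * ((TG SK (X : ℝ)).ncard : ℝ) := by
  obtain ⟨E, hE1, hE2⟩ := sel_finite he SL
  refine ⟨((2 ^ (Module.finrank F L * Fintype.card (V n)) * (E.card + 1) ^ Fintype.card (V n) : ℕ) : ℝ),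
    by exact_mod_cast Nat.mul_pos (Nat.pow_pos two_pos) (Nat.pow_pos (Nat.succ_pos _)), fun X => ?_⟩
  have h1 := (ext_countG (B := TG SK X) hζ he hn hlev hSS hg hE1 hE2 (X := X) subset_rfl (tupG_finite _ _)
    fun H _ p _ hp2 _ _ _ _ => hp2).2
  rw [← Nat.cast_mul, mul_assoc]
  exact_mod_cast h1

theorem lowG [Nonempty ι] (hζ : IsPrimitiveRoot ζ e) (he : 0 < e) (hn : ∀ i, n i ∣ e) [IsCyclotomicExtension {e} F L]
    (hlev : IsLev (L := L) e ζ d z t v rep) (hSS : IsSS (F := F) e S SL SK) (hg : ∀ i, IsGen (SK i) (g i)) :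
    ∃ c : ℝ, 0 < c ∧ ∀ᶠ X : ℕ in atTop, c * ((TG SK (X : ℝ)).ncard : ℝ) ≤ ((AExt F n X).ncard : ℝ) := by
  classical
  obtain ⟨c, hc, h3⟩ := sq_lowerG F (S := SK) he hSS.goodK
  have hN : (1 : ℝ) ≤ ((∏ q ∈ S, nm q : ℕ) : ℝ) := by exact_mod_cast nm_prod_posG S
  obtain ⟨C, hC, h2⟩ := TG_grow he hSS.goodK hN
  set N : ℝ := ((∏ q ∈ S, nm q : ℕ) : ℝ) with hNdef
  set M : ℝ := ((Fintype.card (V n) ^ Fintype.card (V n) : ℕ) : ℝ) with hM
  have hM0 : 0 < M := by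
    rw [hM]; exact_mod_cast Nat.pow_pos Fintype.card_pos
  have h4 := bad_G hζ he hlev hSS hg 1 (c / 2) (by positivity)
  have hdiv : Tendsto (fun X : ℕ => (X : ℝ) / N) atTop atTop :=
    tendsto_natCast_atTop_atTop.atTop_div_const (by linarith)
  have hcast : Tendsto (fun X : ℕ => (X : ℝ)) atTop atTop := tendsto_natCast_atTop_atTop
  refine ⟨c / 2 / (C * M), by positivity, ?_⟩
  filter_upwards [hdiv.eventually h3, hcast.eventually h2, hdiv.eventually h4] with X h3 h2 h4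
  have h8 := all_geG (n := n) (X := X) (Y := (X : ℝ) / N) hζ he hn hlev hSS hg (by
    rw [← hNdef, mul_div_cancel₀]; linarith)
  have h8' : ({T | T ∈ TG SK ((X : ℝ) / N) ∧ SqG F T ∧ RichG F e SL g 1 T}.ncard : ℝ) ≤ M * ((AExt F n X).ncard : ℝ) := by
    rw [hM]; exact_mod_cast h8
  have h9 : {T | T ∈ TG SK ((X : ℝ) / N) ∧ SqG F T} ⊆ {T | T ∈ TG SK ((X : ℝ) / N) ∧ SqG F T ∧ RichG F e SL g 1 T} ∪
      {T | T ∈ TG SK ((X : ℝ) / N) ∧ ¬ RichG F e SL g 1 T} := by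
    rintro T ⟨hT, hT2⟩
    by_cases hr : RichG F e SL g 1 T
    · exact Or.inl ⟨hT, hT2, hr⟩
    · exact Or.inr ⟨hT, hr⟩
  have hfin := tupG_finite (K := K) (fun i => {I | Cop (SK i) I}) ((X : ℝ) / N)
  have h10 := (Set.ncard_le_ncard h9 ((hfin.subset fun T hT => hT.1).union (hfin.subset fun T hT => hT.1))).trans
    (Set.ncard_union_le _ _)
  have h10' : ({T | T ∈ TG SK ((X : ℝ) / N) ∧ SqG F T}.ncard : ℝ) ≤
      ({T | T ∈ TG SK ((X : ℝ) / N) ∧ SqG F T ∧ RichG F e SL g 1 T}.ncard : ℝ) +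
      ({T | T ∈ TG SK ((X : ℝ) / N) ∧ ¬ RichG F e SL g 1 T}.ncard : ℝ) := by exact_mod_cast h10
  have h11 : c / 2 * ((TG SK ((X : ℝ) / N)).ncard : ℝ) ≤ M * ((AExt F n X).ncard : ℝ) := by linarith
  calc c / 2 / (C * M) * ((TG SK (X : ℝ)).ncard : ℝ) ≤ c / 2 / (C * M) * (C * ((TG SK ((X : ℝ) / N)).ncard : ℝ)) := by gcongr
    _ = (c / 2 * ((TG SK ((X : ℝ) / N)).ncard : ℝ)) / M := by field_simp
    _ ≤ (M * ((AExt F n X).ncard : ℝ)) / M := by gcongr
    _ = ((AExt F n X).ncard : ℝ) := by field_simp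

end

/-- The number of the extensions has the order of magnitude `X (log X)^(a-1)`, `a` the number of the orbits. -/
theorem aext_order (F : Type) [Field F] [NumberField F] {m : ℕ} (n : Fin m → ℕ) [∀ i, NeZero (n i)] (hV : ∃ v : V n, v ≠ 0) :
    ∃ a : ℕ, (a : ℝ) = aOf F n ∧ 1 ≤ a ∧ (∀ X, (AExt F n X).Finite) ∧ ∃ c C : ℝ, 0 < c ∧ 0 < C ∧ ∀ᶠ X : ℕ in atTop,
      c * ((X : ℝ) * Real.log X ^ (a - 1)) ≤ ((AExt F n X).ncard : ℝ) ∧ ((AExt F n X).ncard : ℝ) ≤ C * ((X : ℝ) * Real.log X ^ (a - 1)) := by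
  classical
  obtain ⟨e, he, hn⟩ : ∃ e : ℕ, 0 < e ∧ ∀ i, n i ∣ e :=
    ⟨∏ i, n i, Finset.prod_pos fun i _ => Nat.pos_of_ne_zero (NeZero.ne _), fun i => Finset.dvd_prod_of_mem _ (Finset.mem_univ i)⟩
  have : NeZero e := ⟨he.ne'⟩
  have : NeZero (e : AlgebraicClosure F) := ⟨Nat.cast_ne_zero.2 he.ne'⟩
  obtain ⟨ζ₀, hζ₀⟩ := HasEnoughRootsOfUnity.exists_primitiveRoot (AlgebraicClosure F) e
  let L : IntermediateField F (AlgebraicClosure F) := IntermediateField.adjoin F {ζ₀}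
  have hcyc : IsCyclotomicExtension {e} F L := hζ₀.intermediateField_adjoin_isCyclotomicExtension F
  have hfd : FiniteDimensional F L := IsCyclotomicExtension.finiteDimensional {e} F L
  have hNF : NumberField L := NumberField.of_module_finite F L
  obtain ⟨ζ, hζ⟩ : ∃ ζ : L, IsPrimitiveRoot ζ e := IsCyclotomicExtension.exists_isPrimitiveRoot F L (Set.mem_singleton e) he.ne'
  obtain ⟨ι, _, K, _, _, _, _, _, d, z, t, v, rep, hlev⟩ := exists_lev (F := F) (L := L) (n := n) hζ he hn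
  obtain ⟨v₀, hv₀⟩ := hV
  have : Nonempty ι := ⟨(rep.symm ⟨v₀, hv₀⟩).1⟩
  obtain ⟨S, SL, SK, hSS⟩ := exists_SS F L K he
  choose g hg using fun i => exists_gen (hSS.goodK i)
  obtain ⟨κ, hκ, h1⟩ := TG_asymp he hSS.goodK
  obtain ⟨C, hC, h2⟩ := upG (n := n) hζ he hn hlev hSS hg
  obtain ⟨c, hc, h3⟩ := lowG (n := n) hζ he hn hlev hSS hg
  refine ⟨Fintype.card ι, card_iota hζ he hlev, Fintype.card_pos, fun X => aext_finiteG (n := n) hζ he hn hlev hSS hg X,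
    c * (κ / 2), C * (2 * κ), by positivity, by positivity, ?_⟩
  have hcast : Tendsto (fun X : ℕ => (X : ℝ)) atTop atTop := tendsto_natCast_atTop_atTop
  have h4 := (h1.comp hcast).eventually (lt_mem_nhds (show κ / 2 < κ by linarith))
  have h5 := (h1.comp hcast).eventually (gt_mem_nhds (show κ < 2 * κ by linarith))
  filter_upwards [h3, h4, h5, eventually_ge_atTop 3] with X h3 h4 h5 h6
  have h7 : 0 < (X : ℝ) * Real.log X ^ (Fintype.card ι - 1) := by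
    have h8 : (1 : ℝ) < X := by exact_mod_cast (by omega : 1 < X)
    have h9 := Real.log_pos h8
    positivity
  simp only [Function.comp_apply] at h4 h5
  rw [lt_div_iff₀ h7] at h4
  rw [div_lt_iff₀ h7] at h5
  constructor
  · calc c * (κ / 2) * ((X : ℝ) * Real.log X ^ (Fintype.card ι - 1)) = c * (κ / 2 * ((X : ℝ) * Real.log X ^ (Fintype.card ι - 1))) := by ring
      _ ≤ c * ((TG SK (X : ℝ)).ncard : ℝ) := by gcongr
      _ ≤ _ := h3
  · calc ((AExt F n X).ncard : ℝ) ≤ C * ((TG SK (X : ℝ)).ncard : ℝ) := h2 X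
      _ ≤ C * (2 * κ * ((X : ℝ) * Real.log X ^ (Fintype.card ι - 1))) := by gcongr
      _ = C * (2 * κ) * ((X : ℝ) * Real.log X ^ (Fintype.card ι - 1)) := by ring

end StarkR
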