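import Pool.Agent.Lib.MP_d9bae3_nt.NG.BPair
import Pool.Agent.Lib.MP_d9bae3_nt.NG.DOrd

/-!
# Module NBD-BWt: tuples of ideals with a weighted norm

`p i` are the indices with the smallest weight `β`, the other weights are `≥ β + 1`.  Split a tuple `T` into `T₀` (the `i` with `p i`) and `T₁`.  `∏ N(T i)^(w i) < (y+1)^β` gives `N(T₀)^β N(T₁)^(β+1) ≤ (y+1)^β`, so `N(T₀) N(T₁)^κ ≤ y + 1` with `κ = 1 + 1/β`.  `pair_count` (NG/BPair.lean) with `η = 1/(2β)`, for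
`α₀` = the tuples `T₀` with all `T i` prime to `S i`, `N₀ = ∏ N(T i)`, and `α₁` the same for the other indices.  The bounds: `TG_asymp` (NG/DOrd.lean) for `{i // p i}` (nonempty) with `c = card {i // p i} - 1` (for small `Y` the number is at most the number for a bigger constant `Y`), and for `{i // ¬ p i}`: `TG_asymp` if it is not empty
(`Y (log Y)^k ≤ C Y^(1+η)`: `isLittleO_log_rpow_rpow_atTop` or similar), one tuple if it is empty.  `TG S X` is `tupG (fun i => {I | Cop (S i) I}) X` (NG/GB.lean).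
-/

set_option linter.unusedSectionVars false

namespace StarkR

open NumberField IsDedekindDomain Filter Topology

variable {ι : Type} [Fintype ι] {K : ι → Type} [∀ i, Field (K i)] [∀ i, NumberField (K i)]

private theorem BWt_log {η : ℝ} (hη : 0 < η) (k : ℕ) : ∃ C : ℝ, 0 < C ∧ ∀ Y : ℝ, 1 ≤ Y → (1 + Real.log Y) ^ k ≤ C * Y ^ η := by
  have hk : (0 : ℝ) < (k : ℝ) + 1 := by positivity
  refine ⟨(1 + (k + 1) / η) ^ (k + 1), by positivity, fun Y hY => ?_⟩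
  have hY0 : 0 ≤ Y := by linarith
  have hl : 0 ≤ Real.log Y := Real.log_nonneg hY
  have h1 : Real.log Y ≤ Y ^ (η / (k + 1)) / (η / (k + 1)) := Real.log_le_rpow_div hY0 (by positivity)
  have h2 : (1 : ℝ) ≤ Y ^ (η / (k + 1)) := Real.one_le_rpow hY (by positivity)
  have h3 : Y ^ (η / (k + 1)) / (η / (k + 1)) = (k + 1) / η * Y ^ (η / (k + 1)) := by
    field_simp
  have h4 : 1 + Real.log Y ≤ (1 + (k + 1) / η) * Y ^ (η / (k + 1)) := by
    rw [h3] at h1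
    linarith
  calc (1 + Real.log Y) ^ k ≤ (1 + Real.log Y) ^ (k + 1) := pow_le_pow_right₀ (by linarith) (Nat.le_succ k)
    _ ≤ ((1 + (k + 1) / η) * Y ^ (η / (k + 1))) ^ (k + 1) := pow_le_pow_left₀ (by linarith) h4 _
    _ = (1 + (k + 1) / η) ^ (k + 1) * Y ^ η := by
      rw [mul_pow, ← Real.rpow_natCast (Y ^ (η / (k + 1))), ← Real.rpow_mul hY0]
      congr 2
      push_cast
      field_simp

private theorem BWt_val (S : (i : ι) → Finset (Prm (K i))) (Y : ℝ) :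
    {x : {T : (i : ι) → Ideal (𝓞 (K i)) // ∀ i, Cop (S i) (T i)} | ((∏ i, Ideal.absNorm (x.1 i) : ℕ) : ℝ) ≤ Y}.Finite ∧
    {x : {T : (i : ι) → Ideal (𝓞 (K i)) // ∀ i, Cop (S i) (T i)} | ((∏ i, Ideal.absNorm (x.1 i) : ℕ) : ℝ) ≤ Y}.ncard ≤ (TG S Y).ncard := by
  have h1 : ∀ x ∈ {x : {T : (i : ι) → Ideal (𝓞 (K i)) // ∀ i, Cop (S i) (T i)} | ((∏ i, Ideal.absNorm (x.1 i) : ℕ) : ℝ) ≤ Y},
      x.1 ∈ TG S Y := by
    rintro ⟨T, hT⟩ hx
    refine ⟨fun i => ⟨hT i, (hT i).1⟩, ?_⟩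
    have h2 : ((∏ i, Ideal.absNorm (T i) : ℕ) : ℝ) ≤ Y := hx
    push_cast at h2
    exact h2
  have hfin : (TG S Y).Finite := tupG_finite _ _
  refine ⟨Set.Finite.of_finite_image (f := Subtype.val) (hfin.subset ?_) Subtype.val_injective.injOn, ?_⟩
  · rintro _ ⟨x, hx, rfl⟩
    exact h1 x hx
  · exact Set.ncard_le_ncard_of_injOn Subtype.val h1 Subtype.val_injective.injOn hfin

private theorem BWt_bound [Nonempty ι] {e : ℕ} (he : 0 < e) {S : (i : ι) → Finset (Prm (K i))} (hS : ∀ i, GoodS e (S i)) :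
    ∃ C : ℝ, 0 < C ∧ ∀ Y : ℝ, 1 ≤ Y → ((TG S Y).ncard : ℝ) ≤ C * (Y * (1 + Real.log Y) ^ (Fintype.card ι - 1)) := by
  obtain ⟨κ, hκ, h1⟩ := TG_asymp he hS
  have h2 := h1.eventually (gt_mem_nhds (show κ < 2 * κ by linarith))
  obtain ⟨X0, hX0⟩ := Filter.eventually_atTop.1 (h2.and (Filter.eventually_ge_atTop (3 : ℝ)))
  have hX3 : 3 ≤ X0 := (hX0 X0 le_rfl).2
  refine ⟨2 * κ + (TG S X0).ncard, by positivity, fun Y hY => ?_⟩
  have hl : 0 ≤ Real.log Y := Real.log_nonneg hY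
  have hp1 : (1 : ℝ) ≤ (1 + Real.log Y) ^ (Fintype.card ι - 1) := one_le_pow₀ (by linarith)
  have hP : (1 : ℝ) ≤ Y * (1 + Real.log Y) ^ (Fintype.card ι - 1) := one_le_mul_of_one_le_of_one_le hY hp1
  rcases le_total Y X0 with h | h
  · have h3 : (TG S Y).ncard ≤ (TG S X0).ncard := by
      refine Set.ncard_le_ncard ?_ (tupG_finite _ _)
      exact fun T hT => ⟨hT.1, hT.2.trans h⟩
    have h3' : ((TG S Y).ncard : ℝ) ≤ (TG S X0).ncard := by exact_mod_cast h3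
    have h4 : (0 : ℝ) ≤ ((TG S X0).ncard : ℝ) := Nat.cast_nonneg _
    nlinarith
  · obtain ⟨h3, h4⟩ := hX0 Y h
    have h5 : 0 < Real.log Y := Real.log_pos (by linarith)
    have h6 : 0 < Y * Real.log Y ^ (Fintype.card ι - 1) := by positivity
    rw [div_lt_iff₀ h6] at h3
    have h7 : Y * Real.log Y ^ (Fintype.card ι - 1) ≤ Y * (1 + Real.log Y) ^ (Fintype.card ι - 1) :=
      mul_le_mul_of_nonneg_left (pow_le_pow_left₀ hl (by linarith) _) (by linarith)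
    have h8 : (0 : ℝ) ≤ ((TG S X0).ncard : ℝ) := Nat.cast_nonneg _
    nlinarith

private theorem BWt_bound1 {e : ℕ} (he : 0 < e) {S : (i : ι) → Finset (Prm (K i))} (hS : ∀ i, GoodS e (S i)) {η : ℝ} (hη : 0 < η) :
    ∃ C : ℝ, 0 < C ∧ ∀ Y : ℝ, 1 ≤ Y →
      {x : {T : (i : ι) → Ideal (𝓞 (K i)) // ∀ i, Cop (S i) (T i)} | ((∏ i, Ideal.absNorm (x.1 i) : ℕ) : ℝ) ≤ Y}.Finite ∧
      ({x : {T : (i : ι) → Ideal (𝓞 (K i)) // ∀ i, Cop (S i) (T i)} | ((∏ i, Ideal.absNorm (x.1 i) : ℕ) : ℝ) ≤ Y}.ncard : ℝ) ≤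
        C * Y ^ (1 + η) := by
  rcases isEmpty_or_nonempty ι with h | h
  · refine ⟨1, one_pos, fun Y hY => ⟨Set.toFinite _, ?_⟩⟩
    have h1 : {x : {T : (i : ι) → Ideal (𝓞 (K i)) // ∀ i, Cop (S i) (T i)} | ((∏ i, Ideal.absNorm (x.1 i) : ℕ) : ℝ) ≤ Y}.ncard ≤ 1 :=
      Set.ncard_le_one_of_subsingleton _
    have h2 : (1 : ℝ) ≤ Y ^ (1 + η) := Real.one_le_rpow hY (by linarith)
    have h3 : ({x : {T : (i : ι) → Ideal (𝓞 (K i)) // ∀ i, Cop (S i) (T i)} | ((∏ i, Ideal.absNorm (x.1 i) : ℕ) : ℝ) ≤ Y}.ncard : ℝ) ≤ 1 := by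
      exact_mod_cast h1
    linarith
  · obtain ⟨C, hC, h1⟩ := BWt_bound he hS
    obtain ⟨D, hD, h2⟩ := BWt_log hη (Fintype.card ι - 1)
    refine ⟨C * D, by positivity, fun Y hY => ⟨(BWt_val S Y).1, ?_⟩⟩
    have h3 : ({x : {T : (i : ι) → Ideal (𝓞 (K i)) // ∀ i, Cop (S i) (T i)} | ((∏ i, Ideal.absNorm (x.1 i) : ℕ) : ℝ) ≤ Y}.ncard : ℝ) ≤
        (TG S Y).ncard := by exact_mod_cast (BWt_val S Y).2
    have hY0 : 0 < Y := by linarith
    calc _ ≤ ((TG S Y).ncard : ℝ) := h3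
      _ ≤ C * (Y * (1 + Real.log Y) ^ (Fintype.card ι - 1)) := h1 Y hY
      _ ≤ C * (Y * (D * Y ^ η)) := by
        have := h2 Y hY
        gcongr
      _ = C * D * Y ^ (1 + η) := by
        rw [Real.rpow_add hY0, Real.rpow_one]
        ring

private theorem BWt_one_le {S : (i : ι) → Finset (Prm (K i))} {T : (i : ι) → Ideal (𝓞 (K i))} (hT : ∀ i, Cop (S i) (T i)) :
    1 ≤ ∏ i, Ideal.absNorm (T i) := by
  refine Finset.one_le_prod' fun i _ => ?_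
  rw [Nat.one_le_iff_ne_zero, Ne, Ideal.absNorm_eq_zero_iff]
  exact (hT i).1

/-- the number of the tuples with weighted norm less than `(y+1)^β`, and with `∏_{¬ p i} N(T i) ≥ 2^J` -/
theorem wt_count (p : ι → Prop) [DecidablePred p] (hp : ∃ i, p i) {e : ℕ} (he : 0 < e) {S : (i : ι) → Finset (Prm (K i))} (hS : ∀ i, GoodS e (S i))
    (w : ι → ℕ) {β : ℕ} (hβ : 1 ≤ β) (hw : ∀ i, p i → w i = β) (hw' : ∀ i, ¬ p i → β + 1 ≤ w i) :
    ∃ C r : ℝ, 0 < C ∧ 0 < r ∧ r < 1 ∧ ∀ᶠ y : ℕ in atTop, ∀ J : ℕ,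
      {T : (i : ι) → Ideal (𝓞 (K i)) | (∀ i, Cop (S i) (T i)) ∧ ∏ i, Ideal.absNorm (T i) ^ w i < (y + 1) ^ β ∧
        2 ^ J ≤ ∏ i with ¬ p i, Ideal.absNorm (T i)}.Finite ∧
      ({T : (i : ι) → Ideal (𝓞 (K i)) | (∀ i, Cop (S i) (T i)) ∧ ∏ i, Ideal.absNorm (T i) ^ w i < (y + 1) ^ β ∧
        2 ^ J ≤ ∏ i with ¬ p i, Ideal.absNorm (T i)}.ncard : ℝ) ≤ C * r ^ J * ((y : ℝ) * Real.log y ^ (Fintype.card {i // p i} - 1)) := by
  classical
  have hI0 : Nonempty {i // p i} := by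
    obtain ⟨i, hi⟩ := hp
    exact ⟨⟨i, hi⟩⟩
  have hβ0 : (0 : ℝ) < β := by exact_mod_cast hβ
  obtain ⟨C₀, hC₀, hb0⟩ := BWt_bound (K := fun i : {i // p i} => K i.1) (S := fun i => S i.1) he fun i => hS i.1
  obtain ⟨C₁, hC₁, hb1⟩ := BWt_bound1 (K := fun i : {i // ¬ p i} => K i.1) (S := fun i => S i.1) he (fun i => hS i.1)
    (η := 1 / (2 * β)) (by positivity)
  obtain ⟨C, r, hC, hr0, hr1, hmain⟩ := pair_count
    (α₀ := {T : (i : {i // p i}) → Ideal (𝓞 (K i.1)) // ∀ i, Cop (S i.1) (T i)})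
    (α₁ := {T : (i : {i // ¬ p i}) → Ideal (𝓞 (K i.1)) // ∀ i, Cop (S i.1) (T i)})
    (fun x => ∏ i, Ideal.absNorm (x.1 i)) (fun x => ∏ i, Ideal.absNorm (x.1 i))
    (fun x => BWt_one_le (K := fun i : {i // p i} => K i.1) x.2) (fun x => BWt_one_le (K := fun i : {i // ¬ p i} => K i.1) x.2)
    (η := 1 / (2 * β)) (κ := 1 + 1 / β) (c := Fintype.card {i // p i} - 1) hC₀ hC₁ (by positivity)
    (by
      have : (1 : ℝ) / (2 * β) < 1 / β := by
        apply one_div_lt_one_div_of_lt hβ0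
        linarith
      linarith)
    (fun Y hY => ⟨(BWt_val (K := fun i : {i // p i} => K i.1) (fun i => S i.1) Y).1,
      le_trans (by exact_mod_cast (BWt_val (K := fun i : {i // p i} => K i.1) (fun i => S i.1) Y).2) (hb0 Y hY)⟩)
    hb1
  refine ⟨C * (2 * 3 ^ (Fintype.card {i // p i} - 1)), r, by positivity, hr0, hr1, ?_⟩
  filter_upwards [Filter.eventually_ge_atTop 3] with y hy J
  obtain ⟨hf, hn⟩ := hmain ((y : ℝ) + 1) (by
    have : (0 : ℝ) ≤ y := Nat.cast_nonneg _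
    linarith) J
  set P : Set ({T : (i : {i // p i}) → Ideal (𝓞 (K i.1)) // ∀ i, Cop (S i.1) (T i)} ×
    {T : (i : {i // ¬ p i}) → Ideal (𝓞 (K i.1)) // ∀ i, Cop (S i.1) (T i)}) :=
    {p | ((∏ i, Ideal.absNorm (p.1.1 i) : ℕ) : ℝ) * ((∏ i, Ideal.absNorm (p.2.1 i) : ℕ) : ℝ) ^ (1 + 1 / (β : ℝ)) ≤ (y : ℝ) + 1 ∧
      2 ^ J ≤ ∏ i, Ideal.absNorm (p.2.1 i)} with hP
  set ψ : ({T : (i : {i // p i}) → Ideal (𝓞 (K i.1)) // ∀ i, Cop (S i.1) (T i)} ×
    {T : (i : {i // ¬ p i}) → Ideal (𝓞 (K i.1)) // ∀ i, Cop (S i.1) (T i)}) → ((i : ι) → Ideal (𝓞 (K i))) :=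
    fun x i => if h : p i then x.1.1 ⟨i, h⟩ else x.2.1 ⟨i, h⟩ with hψ
  have hsub : {T : (i : ι) → Ideal (𝓞 (K i)) | (∀ i, Cop (S i) (T i)) ∧ ∏ i, Ideal.absNorm (T i) ^ w i < (y + 1) ^ β ∧
        2 ^ J ≤ ∏ i with ¬ p i, Ideal.absNorm (T i)} ⊆ ψ '' P := by
    rintro T ⟨hT1, hT2, hT3⟩
    refine ⟨(⟨fun i => T i.1, fun i => hT1 i.1⟩, ⟨fun i => T i.1, fun i => hT1 i.1⟩), ⟨?_, ?_⟩, ?_⟩
    · simp only
      set A : ℕ := ∏ i : {i // p i}, Ideal.absNorm (T i.1) with hA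
      set B : ℕ := ∏ i : {i // ¬ p i}, Ideal.absNorm (T i.1) with hB
      have hB1 : 1 ≤ B := BWt_one_le (K := fun i : {i // ¬ p i} => K i.1) (S := fun i => S i.1) (T := fun i => T i.1) fun i => hT1 i.1
      have h1 : A ^ β * B ^ (β + 1) ≤ ∏ i, Ideal.absNorm (T i) ^ w i := by
        rw [← Fintype.prod_subtype_mul_prod_subtype p, hA, hB, ← Finset.prod_pow, ← Finset.prod_pow]
        refine Nat.mul_le_mul (le_of_eq ?_) ?_
        · exact Finset.prod_congr rfl fun i _ => by rw [hw i.1 i.2]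
        · refine Finset.prod_le_prod' fun i _ => Nat.pow_le_pow_right ?_ (hw' i.1 i.2)
          refine Nat.pos_of_ne_zero ?_
          rw [Ne, Ideal.absNorm_eq_zero_iff]
          exact (hT1 i.1).1
      have h2 : A ^ β * B ^ (β + 1) < (y + 1) ^ β := lt_of_le_of_lt h1 hT2
      have h3 : (A : ℝ) ^ β * (B : ℝ) ^ (β + 1) < ((y : ℝ) + 1) ^ β := by exact_mod_cast h2
      have hB0 : (0 : ℝ) ≤ (B : ℝ) := Nat.cast_nonneg _
      have h4 : ((B : ℝ) ^ (1 + 1 / (β : ℝ))) ^ β = (B : ℝ) ^ (β + 1) := by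
        rw [← Real.rpow_natCast, ← Real.rpow_mul hB0, ← Real.rpow_natCast]
        congr 1
        push_cast
        field_simp
      rw [← h4, ← mul_pow] at h3
      exact (lt_of_pow_lt_pow_left₀ β (by positivity) h3).le
    · simp only
      rw [← Finset.prod_subtype (Finset.univ.filter fun i => ¬ p i) (fun i => by simp) (fun i => Ideal.absNorm (T i))]
      exact hT3
    · funext i
      simp only [hψ]
      split_ifs <;> rfl
  refine ⟨(hf.image ψ).subset hsub, ?_⟩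
  have h1 := (Set.ncard_le_ncard hsub (hf.image ψ)).trans (Set.ncard_image_le hf)
  have hy3 : (3 : ℝ) ≤ y := by exact_mod_cast hy
  have hlog1 : 1 ≤ Real.log y := by
    rw [Real.le_log_iff_exp_le (by linarith)]
    linarith [Real.exp_one_lt_d9]
  have hlog2 : 1 + Real.log ((y : ℝ) + 1) ≤ 3 * Real.log y := by
    have h2 : Real.log ((y : ℝ) + 1) ≤ Real.log (2 * y) := Real.log_le_log (by linarith) (by linarith)
    rw [Real.log_mul (by norm_num) (by linarith)] at h2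
    have h3 : Real.log 2 ≤ 1 := by linarith [Real.log_two_lt_d9]
    linarith
  have hlog3 : 0 ≤ Real.log ((y : ℝ) + 1) := Real.log_nonneg (by linarith)
  calc _ ≤ (P.ncard : ℝ) := by exact_mod_cast h1
    _ ≤ C * r ^ J * (((y : ℝ) + 1) * (1 + Real.log ((y : ℝ) + 1)) ^ (Fintype.card {i // p i} - 1)) := hn
    _ ≤ C * r ^ J * ((2 * y) * (3 * Real.log y) ^ (Fintype.card {i // p i} - 1)) := by
      have h2 : (y : ℝ) + 1 ≤ 2 * y := by linarith
      gcongr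
    _ = C * (2 * 3 ^ (Fintype.card {i // p i} - 1)) * r ^ J * ((y : ℝ) * Real.log y ^ (Fintype.card {i // p i} - 1)) := by
      rw [mul_pow]
      ring

end StarkR
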