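import Pool.Agent.Lib.MP_d9bae3_nt.NG.BBase
import Pool.Agent.Lib.MP_d9bae3_nt.NG.BLow
import Pool.Agent.Lib.MP_d9bae3_nt.NG.BUp
import Pool.Agent.Lib.MP_d9bae3_nt.NG.BWt
import Pool.Agent.Lib.MP_d9bae3_nt.NG.BBadS
import Pool.Agent.Lib.MP_d9bae3_nt.NG.BMany

/-!
# Module NBD-BFinA: extensions with a given group in the order of the discriminant: upper bounds
-/

set_option linter.unusedSectionVars false

namespace StarkR

open NumberField IsDedekindDomain Filter Topology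
open scoped Pointwise

theorem small_primes (F : Type) [Field F] [NumberField F] (B : ℕ) : {q : Prm F | nm q ≤ B}.Finite := by
  have h := Ideal.finite_setOfPred_absNorm_le (S := 𝓞 F) B
  refine (h.preimage (f := fun Q : Prm F => Q.asIdeal) ?_).subset ?_
  · intro Q _ Q' _ hQ
    exact HeightOneSpectrum.ext hQ
  · intro q hq
    exact hq

section

variable {F L : Type} [Field F] [NumberField F] [Field L] [NumberField L] [Algebra F L]
variable {ι : Type} [Fintype ι] {K : ι → Type} [∀ i, Field (K i)] [∀ i, NumberField (K i)]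
variable [∀ i, Algebra F (K i)] [∀ i, Algebra (K i) L] [∀ i, IsScalarTower F (K i) L]
variable {m : ℕ} {n : Fin m → ℕ} [∀ i, NeZero (n i)]
variable {e : ℕ} {ζ : L} {d : ι → ℕ} {z : (i : ι) → K i} {t : (i : ι) → Gal(K i/F) → ℕ} {v : ι → V n} {rep : (Σ i, Gal(K i/F)) ≃ W n}
variable {S : Finset (Prm F)} {SL : Finset (Prm L)} {SK : (i : ι) → Finset (Prm (K i))} {g : (i : ι) → Ideal (𝓞 (K i)) → 𝓞 (K i)}
variable [Algebra L (AlgebraicClosure F)] [IsScalarTower F L (AlgebraicClosure F)]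

theorem d_dvd_card (hlev : IsLev (L := L) e ζ d z t v rep) (i : ι) : d i ∣ Fintype.card (V n) := by
  rw [← hlev.order i]
  exact addOrderOf_dvd_card

theorem finrank_of_iso {H : IntermediateField F (AlgebraicClosure F)} [NumberField H] [IsGalois F H] (φ : Gal(H/F) ≃* Multiplicative (V n)) :
    Module.finrank F H = Fintype.card (V n) := by
  have h1 : Nat.card Gal(H/F) = Module.finrank F H := IsGalois.card_aut_eq_finrank F H
  rw [← h1, Nat.card_congr φ.toEquiv, Nat.card_eq_fintype_card]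
  exact Fintype.card_congr Multiplicative.toAdd

theorem weights (hlev : IsLev (L := L) e ζ d z t v rep) {l N : ℕ} (hl : l.Prime) (hN : Fintype.card (V n) = N) (hlN : l ∣ N)
    (hmin : ∀ i, l ≤ d i) : 1 ≤ N - N / l ∧ (∀ i, d i = l → N - N / d i = N - N / l) ∧ ∀ i, ¬ d i = l → N - N / l + 1 ≤ N - N / d i := by
  have hN0 : 0 < N := by rw [← hN]; exact Fintype.card_pos
  have hl2 := hl.two_le
  obtain ⟨a, ha⟩ := hlN
  have ha0 : 0 < a := Nat.pos_of_ne_zero fun h => by rw [h] at ha; omega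
  have h1 : N / l = a := by rw [ha]; exact Nat.mul_div_cancel_left a hl.pos
  refine ⟨?_, fun i hi => by rw [hi], fun i hi => ?_⟩
  · rw [h1, ha]
    have : 2 * a ≤ l * a := Nat.mul_le_mul_right a hl2
    omega
  · obtain ⟨b, hb⟩ : d i ∣ N := hN ▸ d_dvd_card hlev i
    have hd := hlev.two i
    have h2 : N / d i = b := by rw [hb]; exact Nat.mul_div_cancel_left b (by omega)
    have h3 : l < d i := lt_of_le_of_ne (hmin i) fun h => hi h.symm
    have h4 : b < a := by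
      by_contra h5
      have h6 : l * a < d i * b := by
        calc l * a ≤ l * b := Nat.mul_le_mul_left l (not_lt.1 h5)
          _ < d i * b := Nat.mul_lt_mul_of_pos_right h3 (by
              refine Nat.pos_of_ne_zero fun h7 => ?_
              rw [h7] at hb
              omega)
      omega
    rw [h1, h2]
    have h5 : a ≤ N := by rw [ha]; exact Nat.le_mul_of_pos_left a hl.pos
    omega

/-- the extensions for which all data have a big part outside the levels of order `l` -/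
theorem dext_large (hζ : IsPrimitiveRoot ζ e) (he : 0 < e) (hn : ∀ i, n i ∣ e) [IsCyclotomicExtension {e} F L]
    (hlev : IsLev (L := L) e ζ d z t v rep) (hSS : IsSS (F := F) e S SL SK) (hg : ∀ i, IsGen (SK i) (g i))
    {l N : ℕ} (hl : l.Prime) (hN : Fintype.card (V n) = N) (hlN : l ∣ N) (hmin : ∀ i, l ≤ d i) (hp : ∃ i, d i = l) :
    ∃ C r : ℝ, 0 < C ∧ 0 < r ∧ r < 1 ∧ ∀ᶠ y : ℕ in atTop, ∀ J X : ℕ, X < (y + 1) ^ (N - N / l) →
      {H | H ∈ DExt F n X ∧ ∀ T, IsData F rep SL SK g H T → 2 ^ J ≤ ∏ i with ¬ d i = l, Ideal.absNorm (T i)}.Finite ∧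
      ({H | H ∈ DExt F n X ∧ ∀ T, IsData F rep SL SK g H T → 2 ^ J ≤ ∏ i with ¬ d i = l, Ideal.absNorm (T i)}.ncard : ℝ) ≤
        C * r ^ J * ((y : ℝ) * Real.log y ^ (Fintype.card {i // d i = l} - 1)) := by
  classical
  obtain ⟨hβ, hw, hw'⟩ := weights hlev hl hN hlN hmin
  obtain ⟨C, r, hC, hr, hr1, hev⟩ := wt_count (K := K) (fun i => d i = l) hp he hSS.goodK (fun i => N - N / d i) hβ hw hw'
  obtain ⟨C', hC', hcount⟩ := ext_countD (n := n) hζ he hn hlev hSS hg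
  refine ⟨C' * C, r, by positivity, hr, hr1, ?_⟩
  filter_upwards [hev] with y hy J X hX
  obtain ⟨h1, h2⟩ := hy J
  obtain ⟨h3, h4⟩ := hcount {H | H ∈ DExt F n X ∧ ∀ T, IsData F rep SL SK g H T → 2 ^ J ≤ ∏ i with ¬ d i = l, Ideal.absNorm (T i)} _
    (fun H hH => by
      obtain ⟨⟨hNF, hGal, hφ, -⟩, -⟩ := hH
      exact ⟨hNF, hGal, hφ⟩) h1 (by
    rintro H ⟨⟨hNF, hGal, ⟨φ⟩, hdisc⟩, hbig⟩ T hT
    refine ⟨hT.1, lt_of_le_of_lt ?_ hX, hbig T hT⟩
    obtain ⟨h5, h6, ε, hε, hNF', hGal', α, hα⟩ := hT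
    refine le_trans ?_ hdisc
    exact disc_tuple hζ he hn hlev hSS hg h5 h6 hε hα (Mof_compositum L H) ((finrank_of_iso φ).trans hN) fun i => hN ▸ d_dvd_card hlev i)
  refine ⟨h3, ?_⟩
  calc _ ≤ ((C' * _ : ℕ) : ℝ) := Nat.cast_le.2 h4
    _ ≤ C' * C * r ^ J * ((y : ℝ) * Real.log y ^ (Fintype.card {i // d i = l} - 1)) := by
        push_cast
        rw [mul_assoc (C' : ℝ), mul_assoc (C' : ℝ)]
        exact mul_le_mul_of_nonneg_left h2 (Nat.cast_nonneg _)

/-- a prime in the data for a bigger set of primes has the order `l`, if the data for the smaller set have small parts outside the levels of order `l` -/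
theorem data_top (hζ : IsPrimitiveRoot ζ e) (he : 0 < e) (hn : ∀ i, n i ∣ e) [IsCyclotomicExtension {e} F L]
    (hlev : IsLev (L := L) e ζ d z t v rep) (hSS : IsSS (F := F) e S SL SK) (hg : ∀ i, IsGen (SK i) (g i))
    {S' : Finset (Prm F)} {SL' : Finset (Prm L)} {SK' : (i : ι) → Finset (Prm (K i))} {g' : (i : ι) → Ideal (𝓞 (K i)) → 𝓞 (K i)}
    (hSS' : IsSS (F := F) e S' SL' SK') (hg' : ∀ i, IsGen (SK' i) (g' i)) (hSub : S ⊆ S') {l B : ℕ} (hl : l.Prime) (hle : l ∣ e)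
    (hmin : ∀ i, l ≤ d i) (hB : ∀ q : Prm F, nm q ≤ B → q ∈ S') {H : IntermediateField F (AlgebraicClosure F)}
    {T T' : (i : ι) → Ideal (𝓞 (K i))} (hT : IsData F rep SL SK g H T) (hT' : IsData F rep SL' SK' g' H T')
    (hsmall : ∏ i with ¬ d i = l, Ideal.absNorm (T i) ≤ B) (i : ι) (hi : ¬ d i = l) : T' i = ⊤ := by
  classical
  by_contra hne
  obtain ⟨hT1, hT2, ε, hε, hNF, hGal, α, hα⟩ := hT
  obtain ⟨hT1', hT2', ε', hε', hNF', hGal', α', hα'⟩ := hT'
  obtain ⟨P, hPm, hTP⟩ := Ideal.exists_le_maximal (T' i) hne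
  have hP0 : P ≠ ⊥ := by
    rintro rfl
    exact (hT1' i).1 (le_bot_iff.1 hTP)
  obtain ⟨q', hq'⟩ : ∃ q' : Prm (K i), q'.asIdeal = P := ⟨⟨P, hPm.isPrime, hP0⟩, rfl⟩
  rw [← hq'] at hTP
  have hq'S : q' ∉ SK' i := fun h => (hT1' i).2 q' h hTP
  have hqS' : q'.under (𝓞 F) ∉ S' := fun h => hq'S ((hSS'.memK i q').2 h)
  have hqS : q'.under (𝓞 F) ∉ S := fun h => hqS' (hSub h)
  -- a prime of `H` above it
  obtain ⟨Q, hQ⟩ := exists_over (K := F) (L := H) (q'.under (𝓞 F))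
  have hQq : Q.asIdeal.LiesOver (q'.under (𝓞 F)).asIdeal := ⟨by rw [← hQ]; rfl⟩
  have hin := inertia_H hζ he hn hlev hSS' hg' hT1' hT2' hε' hα' (Mof_compositum L H) hTP Q.isPrime hQq
  have hd2 := hlev.two i
  have hram : Ramified H (q'.under (𝓞 F)) := by
    refine ⟨Q.asIdeal, Q.isPrime, hQq, fun hbot => ?_⟩
    have h1 := hin.1
    rw [hbot, Subgroup.card_bot, Nat.dvd_one] at h1
    omega
  obtain ⟨⟨j, q''⟩, hj1, hj2⟩ := ram_key hζ he hn hSS hg hT1 hε hα (Mof_compositum L H) hram hqS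
  have hQq2 : Q.asIdeal.LiesOver (q''.under (𝓞 F)).asIdeal := by
    have h1 : q''.under (𝓞 F) = q'.under (𝓞 F) := hj2
    rw [h1]
    exact hQq
  have hin2 := inertia_H hζ he hn hlev hSS hg hT1 hT2 hε hα (Mof_compositum L H) hj1 Q.isPrime hQq2
  by_cases hj : d j = l
  · have hlQ : ((l : ℕ) : 𝓞 H) ∉ Q.asIdeal := by
      intro h1
      obtain ⟨c, hc⟩ := hle
      have h2 : ((e : ℕ) : 𝓞 H) ∈ Q.asIdeal := by
        rw [hc, Nat.cast_mul]
        exact Ideal.mul_mem_right _ _ h1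
      have h3 : ((e : ℕ) : 𝓞 F) ∈ (q'.under (𝓞 F)).asIdeal := by
        rw [hQq.over]
        change algebraMap (𝓞 F) (𝓞 H) ((e : ℕ) : 𝓞 F) ∈ Q.asIdeal
        rwa [map_natCast]
      obtain ⟨QL, hQL⟩ := exists_over (K := F) (L := L) (q'.under (𝓞 F))
      apply hqS
      rw [← hQL, ← hSS.memL]
      apply hSS.goodL.dvd
      have h4 : (e : 𝓞 F) ∈ (QL.under (𝓞 F)).asIdeal := by rw [hQL]; exact h3
      have h5 : algebraMap (𝓞 F) (𝓞 L) (e : 𝓞 F) ∈ QL.asIdeal := h4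
      rwa [map_natCast] at h5
    have h1 := card_inertia_le' (F := F) Q.isPrime Q.ne_bot hl.pos hlQ (by
      intro σ hσ
      rw [← hj]
      exact hin2.2 σ hσ)
    have h2 := Nat.le_of_dvd Nat.card_pos hin.1
    have h3 := hmin i
    exact hi (le_antisymm (h2.trans h1) h3)
  · -- the prime is small
    apply hqS'
    apply hB
    have h1 : nm q'' = nm (q''.under (𝓞 F)) := (hT2.1 j q'' hj1).2
    have h2 : q''.under (𝓞 F) = q'.under (𝓞 F) := hj2
    rw [← h2, ← h1]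
    have hpos : ∀ i, 1 ≤ Ideal.absNorm (T i) := fun i => Nat.one_le_iff_ne_zero.2 fun h => (hT1 i).1 (Ideal.absNorm_eq_zero_iff.1 h)
    have h3 : nm q'' ≤ Ideal.absNorm (T j) := Nat.le_of_dvd (hpos j) (Ideal.absNorm_dvd_absNorm_of_le hj1)
    have h4 : Ideal.absNorm (T j) ≤ ∏ i with ¬ d i = l, Ideal.absNorm (T i) := by
      refine Nat.le_of_dvd (Finset.prod_pos fun i _ => hpos i) (Finset.dvd_prod_of_mem _ ?_)
      rw [Finset.mem_filter]
      exact ⟨Finset.mem_univ j, hj⟩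
    exact (h3.trans h4).trans hsmall

/-- the bad extensions with small data outside the levels of order `l` -/
theorem dext_small (hζ : IsPrimitiveRoot ζ e) (he : 0 < e) (hn : ∀ i, n i ∣ e) [IsCyclotomicExtension {e} F L]
    (hlev : IsLev (L := L) e ζ d z t v rep) (hSS : IsSS (F := F) e S SL SK) (hg : ∀ i, IsGen (SK i) (g i))
    {l N : ℕ} (hl : l.Prime) (hN : Fintype.card (V n) = N) (hlN : l ∣ N) (hle : l ∣ e) (hmin : ∀ i, l ≤ d i) (hp : ∃ i, d i = l)
    (hlarge : l < Nat.card {v : V n // l • v = 0}) {k : ℕ} (P : IntermediateField F (AlgebraicClosure F) → Prop)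
    (hP : ∀ (H : IntermediateField F (AlgebraicClosure F)) (_ : NumberField H) (_ : IsGalois F H) (_ : Gal(H/F) ≃* Multiplicative (V n)),
      (∀ χ : Gal(H/F) →* ℂˣ, χ.ker ≠ ⊥ → ∃ A : Finset (Prm F), k ≤ A.card ∧ ∀ q ∈ A, Ramified H q ∧ TrivialAt χ q) → P H)
    (B : ℕ) {δ : ℝ} (hδ : 0 < δ) : ∀ᶠ y : ℕ in atTop, ∀ X : ℕ, X < (y + 1) ^ (N - N / l) →
      {H | H ∈ DExt F n X ∧ ¬ P H ∧ ∃ T, IsData F rep SL SK g H T ∧ ∏ i with ¬ d i = l, Ideal.absNorm (T i) ≤ B}.Finite ∧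
      ({H | H ∈ DExt F n X ∧ ¬ P H ∧ ∃ T, IsData F rep SL SK g H T ∧ ∏ i with ¬ d i = l, Ideal.absNorm (T i) ≤ B}.ncard : ℝ) ≤
        δ * ((y : ℝ) * Real.log y ^ (Fintype.card {i // d i = l} - 1)) := by
  classical
  have hgalL : IsGalois F L := IsCyclotomicExtension.isGalois {e} F L
  obtain ⟨hβ, hw, hw'⟩ := weights hlev hl hN hlN hmin
  obtain ⟨S', SL', SK', hSS', hS1, hS2⟩ := SS_ge hSS (small_primes F B).toFinset
  choose g' hg' using fun i => exists_gen (hSS'.goodK i)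
  obtain ⟨C, hC, hcount⟩ := ext_countD (n := n) hζ he hn hlev hSS' hg'
  have hne : Nonempty {i // d i = l} := by
    obtain ⟨i, hi⟩ := hp
    exact ⟨⟨i, hi⟩⟩
  have hSSp := SS_sub hSS' (fun i => d i = l)
  obtain ⟨κ, hκ, hasy⟩ := TG_asymp (K := fun i : {i // d i = l} => K i.1) he hSSp.goodK
  have hbadS := bad_S (K := fun i : {i // d i = l} => K i.1) hζ he (d := fun i => d i.1) (z := fun i => z i.1) (fun i => hlev.two i.1) (fun i => hlev.dvd i.1)
    (fun i => hlev.root i.1) (fun i => hlev.gen i.1) hSSp (fun i => hg' i.1) k (δ / (C * (2 * κ))) (by positivity)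
  have hcast : Tendsto (fun X : ℕ => (X : ℝ)) atTop atTop := tendsto_natCast_atTop_atTop
  have hasy' := (hasy.comp hcast).eventually (gt_mem_nhds (show κ < 2 * κ by linarith))
  filter_upwards [hcast.eventually hbadS, hasy', eventually_ge_atTop 3] with y h1 h2 h3 X hX
  have hy1 : (1 : ℝ) < y := by exact_mod_cast (by omega : 1 < y)
  have hlog := Real.log_pos hy1
  have hpos : 0 < (y : ℝ) * Real.log y ^ (Fintype.card {i // d i = l} - 1) := by positivity
  simp only [Function.comp_apply] at h2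
  rw [div_lt_iff₀ hpos] at h2
  -- the set of the data
  obtain ⟨D₀, hD₀⟩ : ∃ D₀ : Set ((i : {i // d i = l}) → Ideal (𝓞 (K i.1))), D₀ = {T | T ∈ TG (fun i : {i // d i = l} => SK' i.1) (y : ℝ) ∧
    ¬ RichG (ι := {i // d i = l}) (K := fun i => K i.1) F e SL' (fun i => g' i.1) k T} := ⟨_, rfl⟩
  obtain ⟨D, hD⟩ : ∃ D : Set ((i : ι) → Ideal (𝓞 (K i))), D = {T | (∀ i, ¬ d i = l → T i = ⊤) ∧ (fun i : {i // d i = l} => T i.1) ∈ D₀} := ⟨_, rfl⟩
  have hD₀f : D₀.Finite := by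
    rw [hD₀]
    exact (tupG_finite _ _).subset fun T hT => hT.1
  have hinj : Set.InjOn (fun (T : (i : ι) → Ideal (𝓞 (K i))) (i : {i // d i = l}) => T i.1) D := by
    intro T hT T' hT' heq
    rw [hD] at hT hT'
    funext i
    by_cases hi : d i = l
    · exact congrFun heq ⟨i, hi⟩
    · rw [hT.1 i hi, hT'.1 i hi]
  have hmap : (fun (T : (i : ι) → Ideal (𝓞 (K i))) (i : {i // d i = l}) => T i.1) '' D ⊆ D₀ := by
    rintro _ ⟨T, hT, rfl⟩
    rw [hD] at hT
    exact hT.2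
  have hDf : D.Finite := Set.Finite.of_finite_image (hD₀f.subset hmap) hinj
  have hDc : D.ncard ≤ D₀.ncard := by
    rw [← hinj.ncard_image]
    exact Set.ncard_le_ncard hmap hD₀f
  obtain ⟨h4, h5⟩ := hcount {H | H ∈ DExt F n X ∧ ¬ P H ∧ ∃ T, IsData F rep SL SK g H T ∧ ∏ i with ¬ d i = l, Ideal.absNorm (T i) ≤ B} D
    (fun H hH => by
      obtain ⟨⟨hNF, hGal, hφ, -⟩, -⟩ := hH
      exact ⟨hNF, hGal, hφ⟩) hDf (by
    rintro H ⟨⟨hNF, hGal, ⟨φ⟩, hdisc⟩, hPH, T, hT, hTB⟩ T' hT'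
    have htop := data_top hζ he hn hlev hSS hg hSS' hg' hS1 hl hle hmin (fun q hq => hS2 ((Set.Finite.mem_toFinset _).2 hq)) hT hT' hTB
    rw [hD, hD₀]
    obtain ⟨h5, h6, ε, hε, hNF', hGal', α, hα⟩ := hT'
    refine ⟨htop, ⟨fun i => ⟨h5 i.1, (h5 i.1).1⟩, ?_⟩, fun hrich => hPH ?_⟩
    · have h7 := disc_tuple hζ he hn hlev hSS' hg' h5 h6 hε hα (Mof_compositum L H) ((finrank_of_iso φ).trans hN) fun i => hN ▸ d_dvd_card hlev i
      have h8 : (∏ i : {i // d i = l}, Ideal.absNorm (T' i.1)) ^ (N - N / l) = ∏ i, Ideal.absNorm (T' i) ^ (N - N / d i) := by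
        rw [← Finset.prod_filter_mul_prod_filter_not Finset.univ (fun i => d i = l)]
        have h81 : ∏ i with ¬ d i = l, Ideal.absNorm (T' i) ^ (N - N / d i) = 1 := by
          refine Finset.prod_eq_one fun i hi => ?_
          rw [htop i (Finset.mem_filter.1 hi).2, Ideal.absNorm_top, one_pow]
        rw [h81, mul_one, ← Finset.prod_pow]
        rw [Finset.prod_subtype (Finset.univ.filter fun i => d i = l) (p := fun i => d i = l) (fun i => by simp)]
        exact Finset.prod_congr rfl fun i _ => by rw [i.2]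
      have h9 : (∏ i : {i // d i = l}, Ideal.absNorm (T' i.1)) ^ (N - N / l) < (y + 1) ^ (N - N / l) := by
        rw [h8]
        exact lt_of_le_of_lt (h7.trans hdisc) hX
      have h10 := lt_of_pow_lt_pow_left₀ _ (Nat.zero_le _) h9
      have h11 : (∏ i : {i // d i = l}, Ideal.absNorm (T' i.1)) ≤ y := by omega
      exact_mod_cast h11
    · refine hP H hNF hGal φ fun χ _ => ?_
      have hB0 : ∀ w : V n, bG rep (fun i => g' i (T' i)) ε w ≠ 0 := by
        intro w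
        by_cases hw : w = 0
        · rw [hw, bG_zero]
          exact one_ne_zero
        · obtain ⟨⟨j, τ⟩, hp⟩ := rep.surjective ⟨w, hw⟩
          have hpw : ((rep ⟨j, τ⟩ : W n) : V n) = w := congrArg Subtype.val hp
          have h1 := bG_rep (F := F) (L := L) rep (fun i => g' i (T' i)) ε j τ
          rw [hpw] at h1
          rw [h1]
          refine mul_ne_zero (hε w).1 ?_
          rw [Ne, FaithfulSMul.algebraMap_eq_zero_iff, smul_eq_zero_iff_eq]
          exact (hg' j (T' j) (h5 j).1).1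
      refine many_S hζ he hn hl hlarge hB0 ?_ hα (Mof_compositum L H) χ
      intro w hw0 hlw
      obtain ⟨⟨j, τ⟩, hpj⟩ := rep.surjective ⟨w, hw0⟩
      have hpw : ((rep ⟨j, τ⟩ : W n) : V n) = w := congrArg Subtype.val hpj
      have hdj : d j = l := by
        rw [← ord_rep hζ he hlev j τ, hpw]
        exact addOrderOf_eq_prime (p := l) (hp := ⟨hl⟩) hlw hw0
      rw [← hpw]
      exact lrich_S (fun i => d i = l) hζ he hlev hSS' hg' h5 htop hε hrich j hdj τ)
  refine ⟨h4, ?_⟩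
  have hCR : (0 : ℝ) < C := by exact_mod_cast hC
  have h6 : (D₀.ncard : ℝ) ≤ δ / (C * (2 * κ)) * (2 * κ * ((y : ℝ) * Real.log y ^ (Fintype.card {i // d i = l} - 1))) := by
    rw [hD₀]
    refine h1.trans (mul_le_mul_of_nonneg_left h2.le (by positivity))
  calc _ ≤ ((C * D.ncard : ℕ) : ℝ) := Nat.cast_le.2 h5
    _ ≤ C * (D₀.ncard : ℝ) := by
        push_cast
        exact mul_le_mul_of_nonneg_left (by exact_mod_cast hDc) hCR.le
    _ ≤ C * (δ / (C * (2 * κ)) * (2 * κ * ((y : ℝ) * Real.log y ^ (Fintype.card {i // d i = l} - 1)))) := mul_le_mul_of_nonneg_left h6 hCR.le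
    _ = δ * ((y : ℝ) * Real.log y ^ (Fintype.card {i // d i = l} - 1)) := by field_simp

end

end StarkR
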