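import Pool.Agent.Lib.MP_d9bae3_nt.NG.DBase

/-!
# Module NAG-DLt: elementary abelian groups have more orbits

`ℤ/(p^k M) ≅ ℤ/p^k × ℤ/M`.  Let `β : ℤ/p^k → (ℤ/p)^k` be a bijection with `β 0 = 0`.  `(x, y) ↦ (β x, y)` is a bijection of `ℤ/p^k × ℤ/M` with `V n₁`, `n₁ = (M, p, ..., p)`; the order of `(β x, y)` divides the order of `(x, y)` (for `x ≠ 0` the order of `β x` is `p`, which divides the order of `x`; orders in a product are least common multiples).
`[F(ζ_d):F] ≤ [F(ζ_d'):F]` if `d ∣ d'` (`F(ζ_d) ⊆ F(ζ_d')`), so every term of the sum for `N` is at most the corresponding term for `n₁`.  For `x` a generator of `ℤ/p^k` and `y = 0` it is smaller: `[F(ζ_p):F] < [F(ζ_(p^k)):F]`, as otherwise `F(ζ_p) = F(ζ_(p^k))` contains a primitive `p^k`-th root of unity (`hF`).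
-/

set_option linter.unusedSectionVars false

namespace StarkR

open NumberField IsDedekindDomain Filter Topology
open scoped Pointwise

private theorem cycHom (F : Type) [Field F] [NumberField F] {d d' : ℕ} (hd' : d' ≠ 0) (h : d ∣ d') :
    Nonempty (CyclotomicField d F →ₐ[F] CyclotomicField d' F) := by
  obtain ⟨c, rfl⟩ := h
  have hd0 : d ≠ 0 := fun h => hd' (by rw [h, zero_mul])
  have hne : NeZero (d * c) := ⟨hd'⟩
  have hned : NeZero d := ⟨hd0⟩
  have hz := IsCyclotomicExtension.zeta_spec (d * c) F (CyclotomicField (d * c) F)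
  have hz' : IsPrimitiveRoot (IsCyclotomicExtension.zeta (d * c) F (CyclotomicField (d * c) F) ^ c) d :=
    hz.pow (Nat.pos_of_ne_zero hd') (mul_comm d c)
  have hs := Polynomial.X_pow_sub_one_splits hz'
  have hs2 : (Polynomial.cyclotomic d (CyclotomicField (d * c) F)).Splits := by
    refine Polynomial.Splits.of_dvd hs ?_ (Polynomial.cyclotomic.dvd_X_pow_sub_one d _)
    exact (Polynomial.monic_X_pow_sub_C (1 : CyclotomicField (d * c) F) hd0).ne_zero
  have hspl : Polynomial.IsSplittingField F (CyclotomicField d F) (Polynomial.cyclotomic d F) :=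
    IsCyclotomicExtension.splitting_field_cyclotomic d F (CyclotomicField d F)
  refine ⟨Polynomial.IsSplittingField.lift (CyclotomicField d F) (Polynomial.cyclotomic d F) ?_⟩
  rw [Polynomial.map_cyclotomic]
  exact hs2

private theorem cycLe (F : Type) [Field F] [NumberField F] {d d' : ℕ} (hd' : d' ≠ 0) (h : d ∣ d') :
    Module.finrank F (CyclotomicField d F) ≤ Module.finrank F (CyclotomicField d' F) := by
  obtain ⟨f⟩ := cycHom F hd' h
  have : FiniteDimensional F (CyclotomicField d' F) := FiniteDimensional.right ℚ F _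
  exact LinearMap.finrank_le_finrank_of_injective (f := f.toLinearMap) f.toRingHom.injective

private theorem cycPos (F : Type) [Field F] [NumberField F] (d : ℕ) :
    0 < Module.finrank F (CyclotomicField d F) := by
  have : FiniteDimensional F (CyclotomicField d F) := FiniteDimensional.right ℚ F _
  exact Module.finrank_pos

private theorem cycLt (F : Type) [Field F] [NumberField F] {d d' : ℕ} (hd' : d' ≠ 0) (h : d ∣ d')
    (hF : ¬ ∃ ζ : CyclotomicField d F, IsPrimitiveRoot ζ d') :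
    Module.finrank F (CyclotomicField d F) < Module.finrank F (CyclotomicField d' F) := by
  refine lt_of_le_of_ne (cycLe F hd' h) fun he => hF ?_
  obtain ⟨f⟩ := cycHom F hd' h
  have i1 : FiniteDimensional F (CyclotomicField d' F) := FiniteDimensional.right ℚ F _
  have i2 : FiniteDimensional F (CyclotomicField d F) := FiniteDimensional.right ℚ F _
  have hinj : Function.Injective f.toLinearMap := f.toRingHom.injective
  have hsur : Function.Surjective f.toLinearMap :=
    (LinearMap.injective_iff_surjective_of_finrank_eq_finrank he).1 hinj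
  have hne : NeZero d' := ⟨hd'⟩
  have hz := IsCyclotomicExtension.zeta_spec d' F (CyclotomicField d' F)
  obtain ⟨ζ, hζ⟩ := hsur (IsCyclotomicExtension.zeta d' F (CyclotomicField d' F))
  refine ⟨ζ, IsPrimitiveRoot.of_map_of_injective (f := f) ?_ hinj⟩
  have e : f ζ = IsCyclotomicExtension.zeta d' F (CyclotomicField d' F) := hζ
  rw [e]
  exact hz

private theorem exists_beta {p k : ℕ} [NeZero p] (hk : 2 ≤ k) :
    ∃ β : ZMod (p ^ k) ≃ (Fin k → ZMod p), β 0 = 0 := by
  classical
  have hpk : NeZero (p ^ k) := ⟨pow_ne_zero k (NeZero.ne p)⟩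
  have hc : Fintype.card (ZMod (p ^ k)) = Fintype.card (Fin k → ZMod p) := by
    rw [ZMod.card, Fintype.card_fun, ZMod.card, Fintype.card_fin]
  let e := Fintype.equivOfCardEq hc
  refine ⟨e.trans (Equiv.swap (e 0) 0), ?_⟩
  rw [Equiv.trans_apply, Equiv.swap_apply_left]

theorem aOf_lt (F : Type) [Field F] [NumberField F] {p k M : ℕ} (hp : p.Prime) (hk : 2 ≤ k) (hM : 0 < M) (hcop : p.Coprime M)
    (hF : ¬ ∃ ζ : CyclotomicField p F, IsPrimitiveRoot ζ (p ^ k))
    {n₀ : Fin 1 → ℕ} [∀ i, NeZero (n₀ i)] (hn₀ : n₀ 0 = p ^ k * M)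
    {n₁ : Fin (k + 1) → ℕ} [∀ i, NeZero (n₁ i)] (hn₁ : n₁ 0 = M) (hn₁' : ∀ i : Fin k, n₁ i.succ = p) : aOf F n₀ < aOf F n₁ := by
  classical
  have hpf : Fact p.Prime := ⟨hp⟩
  have hpk : NeZero (p ^ k) := ⟨pow_ne_zero k hp.ne_zero⟩
  have hMz : NeZero M := ⟨hM.ne'⟩
  obtain ⟨β, hβ⟩ := exists_beta (p := p) hk
  let e₀ : V n₀ ≃+ ZMod (p ^ k) × ZMod M :=
    ((AddEquiv.piUnique (fun i => ZMod (n₀ i))).trans (ZMod.ringEquivCongr hn₀).toAddEquiv).trans
      (ZMod.chineseRemainder (Nat.Coprime.pow_left k hcop)).toAddEquiv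
  let e₁ : V n₁ ≃+ ZMod M × (Fin k → ZMod p) :=
    (Fin.consLinearEquiv ℤ (fun i => ZMod (n₁ i))).toAddEquiv.symm.trans
      (AddEquiv.prodCongr (ZMod.ringEquivCongr hn₁).toAddEquiv
        (AddEquiv.piCongrRight fun i => (ZMod.ringEquivCongr (hn₁' i)).toAddEquiv))
  let Φ : V n₀ ≃ V n₁ := e₀.toEquiv.trans ((Equiv.prodComm _ _).trans
    ((Equiv.prodCongr (Equiv.refl _) β).trans e₁.symm.toEquiv))
  have hΦ : ∀ w, e₁ (Φ w) = ((e₀ w).2, β (e₀ w).1) := by
    intro w
    change e₁ (e₁.symm _) = _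
    rw [AddEquiv.apply_symm_apply]
    rfl
  have hΦ0 : ∀ w, Φ w = 0 ↔ w = 0 := by
    intro w
    rw [← e₁.map_eq_zero_iff, hΦ, Prod.mk_eq_zero, ← e₀.map_eq_zero_iff (x := w)]
    constructor
    · rintro ⟨h1, h2⟩
      have h3 : (e₀ w).1 = 0 := β.injective (by rw [h2, hβ])
      exact Prod.ext h3 h1
    · intro h
      rw [h]
      exact ⟨rfl, hβ⟩
  have hpz : ∀ x : Fin k → ZMod p, p • x = 0 := by
    intro x
    funext i
    rw [Pi.smul_apply, nsmul_eq_mul, ZMod.natCast_self, zero_mul]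
    rfl
  have hord : ∀ w, addOrderOf (Φ w) ∣ addOrderOf w := by
    intro w
    rw [← addOrderOf_injective e₁.toAddMonoidHom e₁.injective (Φ w),
      ← addOrderOf_injective e₀.toAddMonoidHom e₀.injective w]
    change addOrderOf (e₁ (Φ w)) ∣ addOrderOf (e₀ w)
    rw [hΦ, addOrderOf_dvd_iff_nsmul_eq_zero]
    have h1 := addOrderOf_nsmul_eq_zero (e₀ w)
    have h2 : addOrderOf (e₀ w) • (e₀ w).1 = 0 := congrArg Prod.fst h1
    have h3 : addOrderOf (e₀ w) • (e₀ w).2 = 0 := congrArg Prod.snd h1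
    refine Prod.ext h3 ?_
    change addOrderOf (e₀ w) • β (e₀ w).1 = 0
    by_cases hx : (e₀ w).1 = 0
    · rw [hx, hβ, smul_zero]
    · have h4 : addOrderOf (e₀ w).1 ∣ addOrderOf (e₀ w) := addOrderOf_dvd_of_nsmul_eq_zero h2
      have h5 : addOrderOf (e₀ w).1 ∣ p ^ k := by
        have := addOrderOf_dvd_card (x := (e₀ w).1)
        rwa [ZMod.card] at this
      have h6 : addOrderOf (e₀ w).1 ≠ 1 := fun h => hx (AddMonoid.addOrderOf_eq_one_iff.1 h)
      have h7 : p ∣ addOrderOf (e₀ w).1 := by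
        obtain ⟨j, -, hj⟩ := (Nat.dvd_prime_pow hp).1 h5
        rw [hj]
        rcases Nat.eq_zero_or_pos j with h0 | h0
        · rw [h0, pow_zero] at hj
          exact absurd hj h6
        · exact dvd_pow_self p h0.ne'
      obtain ⟨c, hc⟩ := h7.trans h4
      rw [hc, mul_comm, mul_smul, hpz, smul_zero]
  have hfin : ∀ w : V n₀, addOrderOf w ≠ 0 := fun w => (addOrderOf_pos w).ne'
  -- the special element
  let w₀ : V n₀ := e₀.symm ((1 : ZMod (p ^ k)), (0 : ZMod M))
  have hw0 : e₀ w₀ = ((1 : ZMod (p ^ k)), (0 : ZMod M)) := e₀.apply_symm_apply _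
  have hpk1 : 1 < p ^ k := Nat.one_lt_pow (by omega) hp.one_lt
  have hone : (1 : ZMod (p ^ k)) ≠ 0 := by
    have : Fact (1 < p ^ k) := ⟨hpk1⟩
    exact one_ne_zero
  have hwne : w₀ ≠ 0 := by
    intro h
    rw [h, map_zero] at hw0
    exact hone (congrArg Prod.fst hw0).symm
  have hwo : addOrderOf w₀ = p ^ k := by
    rw [← addOrderOf_injective e₀.toAddMonoidHom e₀.injective w₀]
    change addOrderOf (e₀ w₀) = p ^ k
    rw [hw0]
    have h1 := addOrderOf_injective (AddMonoidHom.inl (ZMod (p ^ k)) (ZMod M))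
      (fun a b h => congrArg Prod.fst h) 1
    rw [ZMod.addOrderOf_one] at h1
    exact h1
  have hwo1 : addOrderOf (Φ w₀) = p := by
    rw [← addOrderOf_injective e₁.toAddMonoidHom e₁.injective (Φ w₀)]
    change addOrderOf (e₁ (Φ w₀)) = p
    rw [hΦ, hw0]
    refine addOrderOf_eq_prime ?_ ?_
    · refine Prod.ext ?_ ?_
      · exact smul_zero p
      · exact hpz _
    · intro h
      have h1 : β 1 = 0 := congrArg Prod.snd h
      exact hone (β.injective (by rw [h1, hβ]))
  unfold aOf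
  rw [← Equiv.sum_comp Φ]
  refine Finset.sum_lt_sum ?_ ⟨w₀, Finset.mem_univ _, ?_⟩
  · intro w _
    by_cases hw : w = 0
    · rw [if_pos hw, if_pos ((hΦ0 w).2 hw)]
    · rw [if_neg hw, if_neg (fun h => hw ((hΦ0 w).1 h))]
      have h1 : (0 : ℝ) < Module.finrank F (CyclotomicField (addOrderOf (Φ w)) F) := by
        exact_mod_cast cycPos F _
      have h2 : (Module.finrank F (CyclotomicField (addOrderOf (Φ w)) F) : ℝ) ≤
          Module.finrank F (CyclotomicField (addOrderOf w) F) := by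
        exact_mod_cast cycLe F (hfin w) (hord w)
      exact one_div_le_one_div_of_le h1 h2
  · rw [if_neg hwne, if_neg (fun h => hwne ((hΦ0 w₀).1 h)), hwo, hwo1]
    have h1 : (0 : ℝ) < Module.finrank F (CyclotomicField p F) := by
      exact_mod_cast cycPos F _
    have h2 : (Module.finrank F (CyclotomicField p F) : ℝ) <
        Module.finrank F (CyclotomicField (p ^ k) F) := by
      exact_mod_cast cycLt F (NeZero.ne (p ^ k)) (dvd_pow_self p (by omega)) hF
    exact one_div_lt_one_div_of_lt h1 h2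

end StarkR
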