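import Pool.Agent.Lib.MP_d9bae3_nt.NG.DBase

/-!
# Module NAG-DStr: the groups of abelian extensions

* `ab_struct`: structure theorem (`CommGroup.equiv_prod_multiplicative_zmod_of_finite`), reindexed by `Fin m`; `∏ n i = N` by counting; `m ≤ N` as `2^m ≤ N`, and `n i ≤ N`.
* `cyc_struct`: a cyclic group of order `N` is isomorphic to `ℤ/N = V n₀`.
* `not_cyc`: `(ℤ/p)^k × ℤ/M`, `k ≥ 2`, is not cyclic (it contains `(ℤ/p)^2`, which has more than `p` elements killed by `p`).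
* `aext_sub`, `card_V`: clear.
-/

set_option linter.unusedSectionVars false

namespace StarkR

open NumberField IsDedekindDomain Filter Topology
open scoped Pointwise

variable {F : Type} [Field F] [NumberField F]

/-- the groups of order `N`, written as `V n` -/
def grp (N : ℕ) : Set (Σ m : ℕ, Fin m → ℕ) := {q | q.1 ≤ N ∧ (∀ i, 0 < q.2 i ∧ q.2 i ≤ N) ∧ ∏ i, q.2 i = N}

theorem grp_finite (N : ℕ) : (grp N).Finite := by
  have h : (⋃ m ∈ Set.Iic N, (fun f : Fin m → ℕ => (⟨m, f⟩ : Σ m : ℕ, Fin m → ℕ)) ''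
      (Set.pi Set.univ fun _ => Set.Iic N)).Finite := by
    refine (Set.finite_Iic N).biUnion fun m _ => ?_
    exact (Set.Finite.pi fun _ => Set.finite_Iic N).image _
  refine h.subset ?_
  rintro ⟨m, f⟩ ⟨h1, h2, _⟩
  refine Set.mem_biUnion (x := m) h1 ⟨f, fun i _ => (h2 i).2, rfl⟩

private theorem DStr_card_V {m : ℕ} (n : Fin m → ℕ) : Nat.card (Multiplicative (V n)) = ∏ i, n i := by
  change Nat.card ((i : Fin m) → ZMod (n i)) = _
  rw [Nat.card_pi]
  exact Finset.prod_congr rfl fun i _ => Nat.card_zmod (n i)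

theorem ab_struct {N X : ℕ} {H : IntermediateField F (AlgebraicClosure F)} (hH : H ∈ AbExt F N X) :
    ∃ q ∈ grp N, ∃ _ : ∀ i, NeZero (q.2 i), H ∈ AExt F q.2 X := by
  obtain ⟨hnf, hgal, hcomm, hfin, hrad⟩ := hH
  have hFH : FiniteDimensional F H := FiniteDimensional.right ℚ F H
  letI : CommGroup Gal(H/F) := { (inferInstance : Group Gal(H/F)) with mul_comm := fun a b => hcomm.is_comm.comm a b }
  obtain ⟨ι, hι, n, hn1, ⟨f⟩⟩ := CommGroup.equiv_prod_multiplicative_zmod_of_finite Gal(H/F)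
  let e' : Fin (Fintype.card ι) ≃ ι := (Fintype.equivFin ι).symm
  let E2 : V (fun j => n (e' j)) ≃+ ((i : ι) → ZMod (n i)) :=
    (LinearEquiv.piCongrLeft ℤ (fun i => ZMod (n i)) e').toAddEquiv
  let E1 : Gal(H/F) ≃* Multiplicative ((i : ι) → ZMod (n i)) := f.trans (MulEquiv.piMultiplicative _).symm
  let E : Gal(H/F) ≃* Multiplicative (V (fun j => n (e' j))) := E1.trans (AddEquiv.toMultiplicative E2.symm)
  have hcard : ∏ j, n (e' j) = N := by
    rw [← DStr_card_V, ← Nat.card_congr E.toEquiv, IsGalois.card_aut_eq_finrank, hfin]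
  have hNpos : 0 < N := by
    rw [← hcard]
    exact Finset.prod_pos fun j _ => lt_trans Nat.zero_lt_one (hn1 _)
  have hle : Fintype.card ι ≤ N := by
    have h2 : 2 ^ Fintype.card ι ≤ ∏ j, n (e' j) := by
      calc 2 ^ Fintype.card ι = ∏ _j : Fin (Fintype.card ι), 2 := by simp
        _ ≤ ∏ j, n (e' j) := Finset.prod_le_prod' fun j _ => hn1 _
    rw [hcard] at h2
    exact (Nat.lt_two_pow_self (n := Fintype.card ι)).le.trans h2
  refine ⟨⟨Fintype.card ι, fun j => n (e' j)⟩, ⟨hle, fun j => ⟨lt_trans Nat.zero_lt_one (hn1 _), ?_⟩, hcard⟩,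
    fun j => ⟨(lt_trans Nat.zero_lt_one (hn1 _)).ne'⟩, hnf, hgal, ⟨E⟩, hrad⟩
  refine Nat.le_of_dvd hNpos ?_
  rw [← hcard]
  exact Finset.dvd_prod_of_mem (fun j => n (e' j)) (Finset.mem_univ j)

theorem aext_sub {m : ℕ} {n : Fin m → ℕ} [∀ i, NeZero (n i)] {N : ℕ} (hN : ∏ i, n i = N) (X : ℕ) : AExt F n X ⊆ AbExt F N X := by
  rintro H ⟨hnf, hgal, ⟨E⟩, hrad⟩
  have hFH : FiniteDimensional F H := FiniteDimensional.right ℚ F H
  refine ⟨hnf, hgal, ⟨⟨fun a b => ?_⟩⟩, ?_, hrad⟩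
  · apply E.injective
    rw [map_mul, map_mul, mul_comm]
  · rw [← IsGalois.card_aut_eq_finrank, Nat.card_congr E.toEquiv, DStr_card_V, hN]

theorem cyc_struct {N X : ℕ} {n₀ : Fin 1 → ℕ} [∀ i, NeZero (n₀ i)] (hn₀ : n₀ 0 = N) {H : IntermediateField F (AlgebraicClosure F)}
    (hH : H ∈ AbExt F N X) (hc : IsCyclic Gal(H/F)) : H ∈ AExt F n₀ X := by
  obtain ⟨hnf, hgal, hcomm, hfin, hrad⟩ := hH
  have hFH : FiniteDimensional F H := FiniteDimensional.right ℚ F H
  refine ⟨hnf, hgal, ?_, hrad⟩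
  have h1 : IsCyclic (Multiplicative (V n₀)) := by
    have e : V n₀ ≃+ ZMod (n₀ default) := AddEquiv.piUnique (fun i => ZMod (n₀ i))
    have e' : Multiplicative (ZMod (n₀ default)) ≃* Multiplicative (V n₀) := AddEquiv.toMultiplicative e.symm
    exact isCyclic_of_surjective e' e'.surjective
  have h2 : Nat.card Gal(H/F) = Nat.card (Multiplicative (V n₀)) := by
    rw [DStr_card_V, IsGalois.card_aut_eq_finrank, hfin, Fin.prod_univ_one, hn₀]
  exact ⟨mulEquivOfCyclicCardEq h2⟩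

theorem not_cyc {p k M : ℕ} (hp : p.Prime) (hk : 2 ≤ k) (hM : 0 < M) {n₁ : Fin (k + 1) → ℕ} [∀ i, NeZero (n₁ i)] (hn₁ : n₁ 0 = M)
    (hn₁' : ∀ i : Fin k, n₁ i.succ = p) : ¬ IsCyclic (Multiplicative (V n₁)) := by
  intro hc
  have h1 : Monoid.exponent (Multiplicative (V n₁)) = Nat.card (Multiplicative (V n₁)) := IsCyclic.exponent_eq_card
  have h2 : Monoid.exponent (Multiplicative (V n₁)) ∣ M * p := by
    refine Monoid.exponent_dvd_of_forall_pow_eq_one fun g => ?_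
    apply Multiplicative.toAdd.injective
    rw [toAdd_pow, toAdd_one]
    funext i
    rw [Pi.smul_apply, Pi.zero_apply, nsmul_eq_mul]
    have h3 : n₁ i ∣ M * p := by
      refine Fin.cases ?_ (fun j => ?_) i
      · rw [hn₁]
        exact dvd_mul_right _ _
      · rw [hn₁']
        exact dvd_mul_left _ _
    rw [(ZMod.natCast_eq_zero_iff _ _).2 h3, zero_mul]
  rw [h1, DStr_card_V, Fin.prod_univ_succ, hn₁] at h2
  simp only [hn₁', Finset.prod_const, Finset.card_univ, Fintype.card_fin] at h2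
  have h3 : p ^ k ∣ p := Nat.dvd_of_mul_dvd_mul_left hM h2
  have h4 : p ^ k ≤ p := Nat.le_of_dvd hp.pos h3
  have h5 : p ^ 1 < p ^ k := Nat.pow_lt_pow_right hp.one_lt (by omega)
  rw [pow_one] at h5
  omega

end StarkR
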