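import Pool.Agent.Lib.MP_d9bae3_nt.NG.DOrd
import Pool.Agent.Lib.MP_d9bae3_nt.NG.DLt
import Pool.Agent.Lib.MP_d9bae3_nt.NG.DStr

/-!
# Module NAG-DFin: almost all abelian extensions of a given degree
-/

set_option linter.unusedSectionVars false

namespace StarkR

open NumberField IsDedekindDomain Filter Topology
open scoped Pointwise

/-- `ncard` of the bad extensions from the density of the good ones -/
theorem bad_of_density {α : Type*} {s : ℕ → Set α} {P : α → Prop} (hs : ∀ X, (s X).Finite)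
    (h : Tendsto (fun X : ℕ => ({x | x ∈ s X ∧ P x}.ncard : ℝ) / ((s X).ncard : ℝ)) atTop (𝓝 1)) {δ : ℝ} (hδ : 0 < δ) :
    ∀ᶠ X : ℕ in atTop, ({x | x ∈ s X ∧ ¬ P x}.ncard : ℝ) ≤ δ * ((s X).ncard : ℝ) := by
  have h1 := h.eventually (lt_mem_nhds (show 1 - δ < 1 by linarith))
  have h2 := h.eventually (lt_mem_nhds (show (0 : ℝ) < 1 by norm_num))
  filter_upwards [h1, h2] with X h1 h2
  have h3 : {x | x ∈ s X ∧ P x}.ncard + {x | x ∈ s X ∧ ¬ P x}.ncard = (s X).ncard := by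
    rw [← Set.ncard_union_eq ?_ ((hs X).subset fun x hx => hx.1) ((hs X).subset fun x hx => hx.1)]
    · congr 1
      ext x
      by_cases hp : P x <;> simp [hp]
    · rw [Set.disjoint_left]
      exact fun x h4 h5 => h5.2 h4.2
  have h3' : ({x | x ∈ s X ∧ P x}.ncard : ℝ) + ({x | x ∈ s X ∧ ¬ P x}.ncard : ℝ) = ((s X).ncard : ℝ) := by exact_mod_cast h3
  have h4 : (0 : ℝ) < ((s X).ncard : ℝ) := by
    rcases (Nat.cast_nonneg (s X).ncard : (0 : ℝ) ≤ ((s X).ncard : ℝ)).eq_or_lt with h | h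
    · rw [← h, div_zero] at h2
      exact absurd h2 (lt_irrefl _)
    · exact h
  rw [lt_div_iff₀ h4] at h1
  linarith

theorem density_of_bad {α : Type*} {s : ℕ → Set α} {P : α → Prop} (hs : ∀ X, (s X).Finite)
    (h : ∀ δ : ℝ, 0 < δ → ∀ᶠ X : ℕ in atTop, 0 < (s X).ncard ∧ ({x | x ∈ s X ∧ ¬ P x}.ncard : ℝ) ≤ δ * ((s X).ncard : ℝ)) :
    Tendsto (fun X : ℕ => ({x | x ∈ s X ∧ P x}.ncard : ℝ) / ((s X).ncard : ℝ)) atTop (𝓝 1) := by
  rw [Metric.tendsto_atTop]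
  intro δ hδ
  obtain ⟨X₀, hX₀⟩ := eventually_atTop.1 (h (δ / 2) (half_pos hδ))
  refine ⟨X₀, fun X hX => ?_⟩
  obtain ⟨h1, h2⟩ := hX₀ X hX
  have h1' : (0 : ℝ) < ((s X).ncard : ℝ) := by exact_mod_cast h1
  have h3 : {x | x ∈ s X ∧ P x}.ncard + {x | x ∈ s X ∧ ¬ P x}.ncard = (s X).ncard := by
    rw [← Set.ncard_union_eq ?_ ((hs X).subset fun x hx => hx.1) ((hs X).subset fun x hx => hx.1)]
    · congr 1
      ext x
      by_cases hp : P x <;> simp [hp]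
    · rw [Set.disjoint_left]
      exact fun x h4 h5 => h5.2 h4.2
  have h3' : ({x | x ∈ s X ∧ P x}.ncard : ℝ) = ((s X).ncard : ℝ) - ({x | x ∈ s X ∧ ¬ P x}.ncard : ℝ) := by
    rw [← h3]; push_cast; ring
  rw [h3', sub_div, div_self h1'.ne', Real.dist_eq, abs_sub_comm, sub_sub_cancel, abs_of_nonneg (by positivity), div_lt_iff₀ h1']
  nlinarith

variable (F : Type) [Field F] [NumberField F]

theorem exists_ne_zero {m : ℕ} {n : Fin m → ℕ} [∀ i, NeZero (n i)] {N : ℕ} (hN : 2 ≤ N) (h : ∏ i, n i = N) : ∃ v : V n, v ≠ 0 := by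
  classical
  have h1 : Fintype.card (V n) = N := by
    rw [Fintype.card_pi, ← h]
    exact Finset.prod_congr rfl fun i _ => ZMod.card (n i)
  have h2 : 1 < Fintype.card (V n) := by omega
  obtain ⟨v, w, hvw⟩ := Fintype.one_lt_card_iff.1 h2
  by_cases hv : v = 0
  · exact ⟨w, fun hw => hvw (hv.trans hw.symm)⟩
  · exact ⟨v, hv⟩

theorem abext_finite {N : ℕ} (hN : 2 ≤ N) (X : ℕ) : (AbExt F N X).Finite := by
  classical
  have h1 : ∀ q ∈ grp N, {H | ∃ _ : ∀ i, NeZero (q.2 i), H ∈ AExt F q.2 X}.Finite := by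
    intro q hq
    by_cases hne : ∀ i, NeZero (q.2 i)
    · obtain ⟨a, -, -, h2, -⟩ := aext_order F q.2 (exists_ne_zero (N := N) hN hq.2.2)
      exact (h2 X).subset fun H hH => hH.2
    · exact Set.finite_empty.subset fun H hH => hne hH.1
  refine ((grp_finite N).biUnion h1).subset fun H hH => ?_
  obtain ⟨q, hq, hne, hHq⟩ := ab_struct hH
  rw [Set.mem_iUnion₂]
  exact ⟨q, hq, hne, hHq⟩

theorem deg_density {p k M : ℕ} (hp : p.Prime) (hk : 2 ≤ k) (hM : 0 < M) (hcop : p.Coprime M)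
    (hF : ¬ ∃ ζ : CyclotomicField p F, IsPrimitiveRoot ζ (p ^ k)) {k' : ℕ} (hk' : 1 ≤ k')
    (P : IntermediateField F (AlgebraicClosure F) → Prop)
    (hP : ∀ (H : IntermediateField F (AlgebraicClosure F)) (_ : NumberField H) (_ : IsGalois F H) (_ : IsMulCommutative Gal(H/F)),
      (∀ χ : Gal(H/F) →* ℂˣ, χ.ker ≠ ⊥ → ∃ A : Finset (Prm F), k' ≤ A.card ∧ ∀ q ∈ A, Ramified H q ∧ TrivialAt χ q) → P H) :
    (∀ X, (AbExt F (p ^ k * M) X).Finite) ∧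
    Tendsto (fun X : ℕ => ({H | H ∈ AbExt F (p ^ k * M) X ∧ (¬ IsCyclic Gal(H/F) ∧ P H)}.ncard : ℝ) /
      ((AbExt F (p ^ k * M) X).ncard : ℝ)) atTop (𝓝 1) := by
  classical
  have hp2 := hp.two_le
  have hN2 : 2 ≤ p ^ k * M := by
    have h1 : 2 ≤ p ^ k := hp2.trans (Nat.le_self_pow (by omega) p)
    nlinarith
  set N : ℕ := p ^ k * M with hN
  obtain ⟨n₀, hn₀⟩ : ∃ n₀ : Fin 1 → ℕ, ∀ i, n₀ i = N := ⟨fun _ => N, fun _ => rfl⟩
  have hne₀ : ∀ i, NeZero (n₀ i) := fun i => ⟨by rw [hn₀]; omega⟩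
  obtain ⟨n₁, hn₁, hn₁'⟩ : ∃ n₁ : Fin (k + 1) → ℕ, n₁ 0 = M ∧ ∀ i : Fin k, n₁ i.succ = p :=
    ⟨Fin.cons M (fun _ => p), rfl, fun i => rfl⟩
  have hne₁ : ∀ i, NeZero (n₁ i) := fun i => by
    refine Fin.cases ?_ (fun i => ?_) i
    · exact ⟨by rw [hn₁]; omega⟩
    · exact ⟨by rw [hn₁']; omega⟩
  have hprod₀ : ∏ i, n₀ i = N := by simp [hn₀]
  have hprod₁ : ∏ i, n₁ i = N := by
    rw [Fin.prod_univ_succ, hn₁]
    simp only [hn₁', Finset.prod_const, Finset.card_univ, Fintype.card_fin]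
    rw [hN, mul_comm]
  obtain ⟨a₀, ha₀, ha₀', -, c₀, C₀, hc₀, hC₀, h₀⟩ := aext_order F n₀ (exists_ne_zero hN2 hprod₀)
  obtain ⟨a₁, ha₁, ha₁', -, c₁, C₁, hc₁, hC₁, h₁⟩ := aext_order F n₁ (exists_ne_zero hN2 hprod₁)
  have hlt : a₀ < a₁ := by
    have h1 := aOf_lt F hp hk hM hcop hF (n₀ := n₀) (hn₀ 0) (n₁ := n₁) hn₁ hn₁'
    rw [← ha₀, ← ha₁] at h1
    exact_mod_cast h1
  have hfin := abext_finite F hN2
  refine ⟨hfin, density_of_bad hfin fun δ hδ => ?_⟩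
  have hlow : ∀ᶠ X : ℕ in atTop, c₁ * ((X : ℝ) * Real.log X ^ (a₁ - 1)) ≤ ((AbExt F N X).ncard : ℝ) := by
    filter_upwards [h₁] with X h
    refine h.1.trans ?_
    exact_mod_cast Set.ncard_le_ncard (aext_sub hprod₁ X) (hfin X)
  have hcast : Tendsto (fun X : ℕ => (X : ℝ)) atTop atTop := tendsto_natCast_atTop_atTop
  have hlog : Tendsto (fun X : ℕ => Real.log X) atTop atTop := Real.tendsto_log_atTop.comp hcast
  have hcyc : ∀ δ' : ℝ, 0 < δ' → ∀ᶠ X : ℕ in atTop, ((AExt F n₀ X).ncard : ℝ) ≤ δ' * ((AbExt F N X).ncard : ℝ) := by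
    intro δ' hδ'
    filter_upwards [h₀, hlow, hlog.eventually (eventually_ge_atTop (max 1 (C₀ / (δ' * c₁)))), eventually_ge_atTop 1] with X h0 h1 h2 h3
    have h4 : (1 : ℝ) ≤ Real.log X := (le_max_left _ _).trans h2
    have h5 : C₀ ≤ δ' * c₁ * Real.log X := by
      have h6 := (le_max_right _ _).trans h2
      rw [div_le_iff₀ (by positivity)] at h6
      linarith
    have h6 : Real.log X * Real.log X ^ (a₀ - 1) ≤ Real.log X ^ (a₁ - 1) := by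
      rw [← pow_succ']
      exact pow_le_pow_right₀ h4 (by omega)
    have hX0 : (0 : ℝ) ≤ (X : ℝ) := Nat.cast_nonneg _
    have hl0 : (0 : ℝ) ≤ Real.log X ^ (a₀ - 1) := by positivity
    calc ((AExt F n₀ X).ncard : ℝ) ≤ C₀ * ((X : ℝ) * Real.log X ^ (a₀ - 1)) := h0.2
      _ ≤ δ' * c₁ * Real.log X * ((X : ℝ) * Real.log X ^ (a₀ - 1)) := by gcongr
      _ = δ' * c₁ * ((X : ℝ) * (Real.log X * Real.log X ^ (a₀ - 1))) := by ring
      _ ≤ δ' * c₁ * ((X : ℝ) * Real.log X ^ (a₁ - 1)) := by gcongr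
      _ = δ' * (c₁ * ((X : ℝ) * Real.log X ^ (a₁ - 1))) := by ring
      _ ≤ δ' * ((AbExt F N X).ncard : ℝ) := by gcongr
  have hgrp : ∀ q ∈ grp N, ∀ δ' : ℝ, 0 < δ' → ∀ᶠ X : ℕ in atTop,
      ({H | (∃ _ : ∀ i, NeZero (q.2 i), H ∈ AExt F q.2 X) ∧ ¬ (¬ IsCyclic Gal(H/F) ∧ P H)}.ncard : ℝ) ≤ δ' * ((AbExt F N X).ncard : ℝ) := by
    intro q hq δ' hδ'
    have hne : ∀ i, NeZero (q.2 i) := fun i => ⟨(hq.2.1 i).1.ne'⟩
    by_cases hcy : IsCyclic (Multiplicative (V q.2))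
    · filter_upwards [hcyc δ' hδ'] with X hX
      refine le_trans ?_ hX
      have hf₀ : (AExt F n₀ X).Finite := (hfin X).subset (aext_sub hprod₀ X)
      refine Nat.cast_le.2 (Set.ncard_le_ncard ?_ hf₀)
      rintro H ⟨⟨-, hH⟩, -⟩
      refine cyc_struct (n₀ := n₀) (hn₀ 0) (aext_sub hq.2.2 X hH) ?_
      obtain ⟨_, -, ⟨φ⟩, -⟩ := hH
      exact isCyclic_of_surjective φ.symm φ.symm.surjective
    · have hd := nag_density F q.2 (exists_ne_zero hN2 hq.2.2) hk' P (fun H hNF hGal φ h =>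
        hP H hNF hGal ⟨⟨fun σ τ => φ.injective (by rw [map_mul, map_mul, mul_comm])⟩⟩ h)
      filter_upwards [bad_of_density hd.1 hd.2 hδ'] with X hX
      have h1 : ((AExt F q.2 X).ncard : ℝ) ≤ ((AbExt F N X).ncard : ℝ) := by
        exact_mod_cast Set.ncard_le_ncard (aext_sub hq.2.2 X) (hfin X)
      refine le_trans (le_trans ?_ hX) (mul_le_mul_of_nonneg_left h1 hδ'.le)
      refine Nat.cast_le.2 (Set.ncard_le_ncard ?_ ((hd.1 X).subset fun H hH => hH.1))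
      rintro H ⟨⟨-, hH⟩, hn⟩
      refine ⟨hH, fun hPH => hn ⟨fun hc => ?_, hPH⟩⟩
      obtain ⟨_, -, ⟨φ⟩, -⟩ := hH
      exact hcy (isCyclic_of_surjective φ φ.surjective)
  have hG := grp_finite N
  have hall : ∀ᶠ X : ℕ in atTop, ∀ q ∈ hG.toFinset,
      ({H | (∃ _ : ∀ i, NeZero (q.2 i), H ∈ AExt F q.2 X) ∧ ¬ (¬ IsCyclic Gal(H/F) ∧ P H)}.ncard : ℝ) ≤
        δ / (hG.toFinset.card + 1) * ((AbExt F N X).ncard : ℝ) := by
    rw [Filter.eventually_all_finset]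
    exact fun q hq => hgrp q (hG.mem_toFinset.1 hq) _ (by positivity)
  filter_upwards [hall, hlow, eventually_ge_atTop 3] with X h1 h2 h3
  constructor
  · have h4 : (0 : ℝ) < ((AbExt F N X).ncard : ℝ) := by
      refine lt_of_lt_of_le ?_ h2
      have h8 : (1 : ℝ) < X := by exact_mod_cast (by omega : 1 < X)
      have h9 := Real.log_pos h8
      positivity
    exact_mod_cast h4
  · have hsub : {H | H ∈ AbExt F N X ∧ ¬ (¬ IsCyclic Gal(H/F) ∧ P H)} ⊆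
        ⋃ q ∈ hG.toFinset, {H | (∃ _ : ∀ i, NeZero (q.2 i), H ∈ AExt F q.2 X) ∧ ¬ (¬ IsCyclic Gal(H/F) ∧ P H)} := by
      rintro H ⟨hH, hn⟩
      obtain ⟨q, hq, hne, hHq⟩ := ab_struct hH
      rw [Set.mem_iUnion₂]
      exact ⟨q, hG.mem_toFinset.2 hq, ⟨hne, hHq⟩, hn⟩
    have hfq : ∀ q ∈ hG.toFinset, {H | (∃ _ : ∀ i, NeZero (q.2 i), H ∈ AExt F q.2 X) ∧ ¬ (¬ IsCyclic Gal(H/F) ∧ P H)}.Finite := by
      intro q hq
      refine (hfin X).subset ?_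
      rintro H ⟨⟨hne, hHq⟩, -⟩
      exact aext_sub (hG.mem_toFinset.1 hq).2.2 X hHq
    have h4 : {H | H ∈ AbExt F N X ∧ ¬ (¬ IsCyclic Gal(H/F) ∧ P H)}.ncard ≤
        ∑ q ∈ hG.toFinset, {H | (∃ _ : ∀ i, NeZero (q.2 i), H ∈ AExt F q.2 X) ∧ ¬ (¬ IsCyclic Gal(H/F) ∧ P H)}.ncard :=
      (Set.ncard_le_ncard hsub (hG.toFinset.finite_toSet.biUnion hfq)).trans (Finset.set_ncard_biUnion_le _ _)
    calc ({H | H ∈ AbExt F N X ∧ ¬ (¬ IsCyclic Gal(H/F) ∧ P H)}.ncard : ℝ)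
        ≤ ∑ q ∈ hG.toFinset, ({H | (∃ _ : ∀ i, NeZero (q.2 i), H ∈ AExt F q.2 X) ∧ ¬ (¬ IsCyclic Gal(H/F) ∧ P H)}.ncard : ℝ) := by
          exact_mod_cast h4
      _ ≤ ∑ _q ∈ hG.toFinset, δ / (hG.toFinset.card + 1) * ((AbExt F N X).ncard : ℝ) := Finset.sum_le_sum h1
      _ = (hG.toFinset.card : ℝ) / (hG.toFinset.card + 1) * (δ * ((AbExt F N X).ncard : ℝ)) := by
          rw [Finset.sum_const, nsmul_eq_mul]; ring
      _ ≤ 1 * (δ * ((AbExt F N X).ncard : ℝ)) := by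
          refine mul_le_mul_of_nonneg_right ?_ (by positivity)
          rw [div_le_one (by positivity)]
          linarith
      _ = δ * ((AbExt F N X).ncard : ℝ) := one_mul _

end StarkR
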