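import Pool.Agent.Lib.MP_d9bae3_nt.NG.BDisc
import Pool.Agent.Lib.MP_d9bae3_nt.NG.BDefs
import Pool.Agent.Lib.MP_d9bae3_nt.NG.DFin

/-!
# Elementary abelian extensions in the order of the discriminant
-/

set_option linter.unusedSectionVars false

namespace StarkR

open NumberField IsDedekindDomain Filter Topology
open scoped Pointwise

/-- the largest `y` with `y ^ a ≤ X` -/
theorem exists_root {a : ℕ} (ha : 1 ≤ a) (X : ℕ) : ∃ y : ℕ, y ^ a ≤ X ∧ X < (y + 1) ^ a := by
  refine ⟨Nat.findGreatest (fun y => y ^ a ≤ X) X, ?_, ?_⟩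
  · exact Nat.findGreatest_spec (P := fun y => y ^ a ≤ X) (Nat.zero_le X) (by rw [zero_pow (by omega)]; exact Nat.zero_le X)
  · by_contra h
    have h1 : Nat.findGreatest (fun y => y ^ a ≤ X) X + 1 ≤ X := (Nat.le_self_pow (by omega) _).trans (not_lt.1 h)
    have h2 := Nat.le_findGreatest (P := fun y => y ^ a ≤ X) h1 (not_lt.1 h)
    omega

/-- A set of objects counted by two functions `r` and `D` with `r^a ≤ D ≤ C r^a`: if the number of the objects with `r ≤ y` has the order `y (log y)^b`, and a property has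
the density one in the order of `r`, then it has the density one in the order of `D`. -/
theorem order_change {α : Type*} {A B : ℕ → Set α} {a C b : ℕ} (ha : 1 ≤ a) (hC : 1 ≤ C) (hA : ∀ y, (A y).Finite) {c C₁ : ℝ} (hc : 0 < c)
    (hC₁ : 0 < C₁) (hord : ∀ᶠ y : ℕ in atTop, c * ((y : ℝ) * Real.log y ^ b) ≤ ((A y).ncard : ℝ) ∧
      ((A y).ncard : ℝ) ≤ C₁ * ((y : ℝ) * Real.log y ^ b))
    (h1 : ∀ X y : ℕ, X < (y + 1) ^ a → B X ⊆ A y) (h2 : ∀ X y : ℕ, C * y ^ a ≤ X → A y ⊆ B X) {P : α → Prop}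
    (hP : Tendsto (fun y : ℕ => ({x | x ∈ A y ∧ P x}.ncard : ℝ) / ((A y).ncard : ℝ)) atTop (𝓝 1)) :
    (∀ X, (B X).Finite) ∧ Tendsto (fun X : ℕ => ({x | x ∈ B X ∧ P x}.ncard : ℝ) / ((B X).ncard : ℝ)) atTop (𝓝 1) := by
  choose y hy1 hy2 using exists_root ha
  have hB : ∀ X, (B X).Finite := fun X => (hA (y X)).subset (h1 X (y X) (hy2 X))
  refine ⟨hB, density_of_bad hB fun δ hδ => ?_⟩
  have hy : Tendsto y atTop atTop := by
    rw [tendsto_atTop]
    intro M
    filter_upwards [eventually_ge_atTop (M ^ a)] with X hX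
    by_contra h
    have h3 : y X + 1 ≤ M := by omega
    have h4 := Nat.pow_le_pow_left h3 a
    have h5 := hy2 X
    omega
  -- growth
  have hdivC : Tendsto (fun z : ℕ => z / C) atTop atTop := Nat.tendsto_div_const_atTop (by omega)
  have hC0 : (0 : ℝ) < (C : ℝ) := by exact_mod_cast hC
  have hcast : Tendsto (fun X : ℕ => (X : ℝ)) atTop atTop := tendsto_natCast_atTop_atTop
  have hlog : Tendsto (fun X : ℕ => Real.log X) atTop atTop := Real.tendsto_log_atTop.comp hcast
  have hgrow : ∀ᶠ z : ℕ in atTop, 0 < ((A (z / C)).ncard : ℝ) ∧ c / (2 * C * 2 ^ b * C₁) * ((A z).ncard : ℝ) ≤ ((A (z / C)).ncard : ℝ) := by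
    filter_upwards [hdivC.eventually hord, hord, eventually_ge_atTop (2 * C), hlog.eventually (eventually_ge_atTop (2 * Real.log (2 * C))),
      hlog.eventually (eventually_gt_atTop 0)] with z h3 h4 h5 h6 h7
    have hz : (0 : ℝ) < (z : ℝ) := by
      have : 0 < z := by omega
      exact_mod_cast this
    have h8 : (z : ℝ) / (2 * C) ≤ ((z / C : ℕ) : ℝ) := by
      have h9 : z < (z / C + 1) * C := by
        have h10 := Nat.div_add_mod z C
        have h11 := Nat.mod_lt z (show 0 < C by omega)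
        nlinarith
      have h10 : (z : ℝ) < (((z / C : ℕ) : ℝ) + 1) * C := by exact_mod_cast h9
      have h11 : (2 * C : ℝ) ≤ (z : ℝ) := by exact_mod_cast h5
      rw [div_le_iff₀ (by positivity)]
      nlinarith
    have h9 : Real.log z / 2 ≤ Real.log ((z / C : ℕ) : ℝ) := by
      refine le_trans ?_ (Real.log_le_log (by positivity) h8)
      rw [Real.log_div hz.ne' (by positivity)]
      linarith
    have h10 : (z : ℝ) / (2 * C) * (Real.log z / 2) ^ b ≤ ((z / C : ℕ) : ℝ) * Real.log ((z / C : ℕ) : ℝ) ^ b := by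
      have : 0 ≤ Real.log z / 2 := by linarith
      gcongr
    have h11 : 0 < c * ((z : ℝ) / (2 * C) * (Real.log z / 2) ^ b) := by positivity
    have h12 : c * ((z : ℝ) / (2 * C) * (Real.log z / 2) ^ b) ≤ ((A (z / C)).ncard : ℝ) :=
      (mul_le_mul_of_nonneg_left h10 hc.le).trans h3.1
    refine ⟨h11.trans_le h12, le_trans ?_ h12⟩
    calc c / (2 * C * 2 ^ b * C₁) * ((A z).ncard : ℝ) ≤ c / (2 * C * 2 ^ b * C₁) * (C₁ * ((z : ℝ) * Real.log z ^ b)) := by
          have := h4.2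
          gcongr
      _ = c * ((z : ℝ) / (2 * C) * (Real.log z / 2) ^ b) := by
          rw [div_pow]
          field_simp
  set c₄ : ℝ := c / (2 * C * 2 ^ b * C₁) with hc₄
  have hc₄0 : 0 < c₄ := by positivity
  have hbad := bad_of_density hA hP (show (0 : ℝ) < δ * c₄ by positivity)
  filter_upwards [hy.eventually hgrow, hy.eventually hbad] with X h3 h4
  have h5 : A (y X / C) ⊆ B X := by
    refine h2 X _ ?_
    calc C * (y X / C) ^ a ≤ C ^ a * (y X / C) ^ a := Nat.mul_le_mul_right _ (Nat.le_self_pow (by omega) C)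
      _ = (C * (y X / C)) ^ a := (mul_pow _ _ _).symm
      _ ≤ y X ^ a := Nat.pow_le_pow_left (Nat.mul_div_le _ _) a
      _ ≤ X := hy1 X
  have h6 : ((A (y X / C)).ncard : ℝ) ≤ ((B X).ncard : ℝ) := Nat.cast_le.2 (Set.ncard_le_ncard h5 (hB X))
  have h7 : ({x | x ∈ B X ∧ ¬ P x}.ncard : ℝ) ≤ ({x | x ∈ A (y X) ∧ ¬ P x}.ncard : ℝ) := by
    refine Nat.cast_le.2 (Set.ncard_le_ncard ?_ ((hA (y X)).subset fun x hx => hx.1))
    exact fun x hx => ⟨h1 X (y X) (hy2 X) hx.1, hx.2⟩
  refine ⟨by exact_mod_cast h3.1.trans_le h6, h7.trans (h4.trans ?_)⟩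
  calc δ * c₄ * ((A (y X)).ncard : ℝ) = δ * (c₄ * ((A (y X)).ncard : ℝ)) := by ring
    _ ≤ δ * ((B X).ncard : ℝ) := mul_le_mul_of_nonneg_left (h3.2.trans h6) hδ.le

theorem not_cyclic_of_elem {G : Type} [Group G] {l m : ℕ} (hl : l.Prime) (hm : 2 ≤ m) (φ : G ≃* Multiplicative (V (fun _ : Fin m => l))) : ¬ IsCyclic G := by
  classical
  intro hc
  have hne1 : NeZero l := ⟨hl.ne_zero⟩
  have hl2 := hl.two_le
  have hcard : Nat.card G = l ^ m := by
    rw [Nat.card_congr φ.toEquiv, Nat.card_eq_fintype_card, Fintype.card_congr (Multiplicative.toAdd (α := V (fun _ : Fin m => l))), Fintype.card_pi]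
    simp only [ZMod.card]
    rw [Finset.prod_const, Finset.card_univ, Fintype.card_fin]
  have h1 : Monoid.exponent G = Nat.card G := IsCyclic.exponent_eq_card
  have h2 : Monoid.exponent G ∣ l := by
    refine Monoid.exponent_dvd_of_forall_pow_eq_one fun σ => ?_
    apply φ.injective
    rw [map_pow, map_one]
    apply Multiplicative.toAdd.injective
    rw [toAdd_pow, toAdd_one]
    funext i
    rw [Pi.smul_apply, nsmul_eq_mul]
    simp
  rw [h1, hcard] at h2
  have h3 := Nat.le_of_dvd hl.pos h2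
  have h4 : l ^ 2 ≤ l ^ m := Nat.pow_le_pow_right hl.pos hm
  nlinarith

variable (F : Type) [Field F] [NumberField F]

/-- Almost all extensions of `F` with the group `(ℤ/l)^m`, `l` a prime, `m ≥ 1`, in the order of the discriminant, have a property `P` which holds if for all non-faithful characters
`χ` of `Gal(H/F)` there are at least `k` ramified primes with `χ` trivial on their decomposition groups. -/
theorem dext_density {l m : ℕ} (hl : l.Prime) (hm : 1 ≤ m) {k : ℕ} (hk : 1 ≤ k) (P : IntermediateField F (AlgebraicClosure F) → Prop)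
    (hP : ∀ (H : IntermediateField F (AlgebraicClosure F)) (_ : NumberField H) (_ : IsGalois F H)
      (_ : Gal(H/F) ≃* Multiplicative (V (fun _ : Fin m => l))),
      (∀ χ : Gal(H/F) →* ℂˣ, χ.ker ≠ ⊥ → ∃ A : Finset (Prm F), k ≤ A.card ∧ ∀ q ∈ A, Ramified H q ∧ TrivialAt χ q) → P H) :
    (∀ X, (DExt F (fun _ : Fin m => l) X).Finite) ∧
    Tendsto (fun X : ℕ => ({H | H ∈ DExt F (fun _ : Fin m => l) X ∧ P H}.ncard : ℝ) / ((DExt F (fun _ : Fin m => l) X).ncard : ℝ))
      atTop (𝓝 1) := by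
  classical
  have hne : ∀ _ : Fin m, NeZero l := fun _ => ⟨hl.ne_zero⟩
  have hne1 : NeZero l := ⟨hl.ne_zero⟩
  have hl2 := hl.two_le
  have hcardV : Fintype.card (V (fun _ : Fin m => l)) = l ^ m := by
    rw [Fintype.card_pi]
    simp only [ZMod.card]
    rw [Finset.prod_const, Finset.card_univ, Fintype.card_fin]
  have hV : ∃ v : V (fun _ : Fin m => l), v ≠ 0 := by
    have h1 : 1 < Fintype.card (V (fun _ : Fin m => l)) := by
      rw [hcardV]
      exact lt_of_lt_of_le (by omega) (Nat.le_self_pow (by omega) l)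
    obtain ⟨v, w, hvw⟩ := Fintype.one_lt_card_iff.1 h1
    by_cases hv : v = 0
    · exact ⟨w, fun hw => hvw (hv.trans hw.symm)⟩
    · exact ⟨v, hv⟩
  obtain ⟨b, -, hb1, hA, c, C₁, hc, hC₁, hord⟩ := aext_order F (fun _ : Fin m => l) hV
  have hden := nag_density F (fun _ : Fin m => l) hV hk P hP
  -- the bounds for one extension
  have hbd : ∀ (H : IntermediateField F (AlgebraicClosure F)) (_ : NumberField H) (_ : IsGalois F H)
      (_ : Gal(H/F) ≃* Multiplicative (V (fun _ : Fin m => l))), radN F H ^ (l ^ (m - 1) * (l - 1)) ≤ (discr H).natAbs ∧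
      (discr H).natAbs ≤ ((l * l ^ m) ^ (Module.finrank ℚ F * l ^ m) * (discr F).natAbs ^ (l ^ m)) * radN F H ^ (l ^ (m - 1) * (l - 1)) := by
    intro H hNF hGal φ
    refine disc_bounds hl hm ?_ ?_
    · intro σ
      apply φ.injective
      rw [map_pow, map_one]
      apply Multiplicative.toAdd.injective
      rw [toAdd_pow, toAdd_one]
      funext i
      rw [Pi.smul_apply, nsmul_eq_mul]
      simp
    · have h1 : Nat.card Gal(H/F) = Module.finrank F H := IsGalois.card_aut_eq_finrank F H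
      rw [← h1, Nat.card_congr φ.toEquiv, ← hcardV, Nat.card_eq_fintype_card]
      exact Fintype.card_congr Multiplicative.toAdd
  have hdF : 1 ≤ (discr F).natAbs := Nat.one_le_iff_ne_zero.2 (Int.natAbs_ne_zero.2 (NumberField.discr_ne_zero F))
  have ha : 1 ≤ l ^ (m - 1) * (l - 1) := Nat.mul_pos (Nat.pow_pos hl.pos) (by omega)
  refine order_change (A := AExt F (fun _ : Fin m => l)) (B := DExt F (fun _ : Fin m => l)) (a := l ^ (m - 1) * (l - 1))
    (C := (l * l ^ m) ^ (Module.finrank ℚ F * l ^ m) * (discr F).natAbs ^ (l ^ m)) (b := b - 1) ha ?_ hA hc hC₁ hord ?_ ?_ hden.2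
  · exact Nat.mul_pos (Nat.pow_pos (Nat.mul_pos hl.pos (Nat.pow_pos hl.pos))) (Nat.pow_pos hdF)
  · rintro X y hXy H ⟨hNF, hGal, ⟨φ⟩, hH⟩
    refine ⟨hNF, hGal, ⟨φ⟩, ?_⟩
    by_contra h
    have h1 := (hbd H hNF hGal φ).1
    have h2 := Nat.pow_le_pow_left (not_le.1 h) (l ^ (m - 1) * (l - 1))
    have h3 : (y + 1) ^ (l ^ (m - 1) * (l - 1)) ≤ radN F H ^ (l ^ (m - 1) * (l - 1)) := h2
    omega
  · rintro X y hXy H ⟨hNF, hGal, ⟨φ⟩, hH⟩
    refine ⟨hNF, hGal, ⟨φ⟩, (hbd H hNF hGal φ).2.trans (le_trans ?_ hXy)⟩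
    exact Nat.mul_le_mul_left _ (Nat.pow_le_pow_left hH _)

end StarkR
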