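import Pool.Agent.Lib.MP_d9bae3_nt.NG.BDefAb
import Pool.Agent.Lib.MP_d9bae3_nt.NG.BOrd
import Pool.Agent.Lib.MP_d9bae3_nt.NG.BUp

/-!
# Module NBD-BFinB: the number of abelian extensions of degree `N` in the order of the discriminant: lower bound
-/

set_option linter.unusedSectionVars false

namespace StarkR

open NumberField IsDedekindDomain Filter Topology
open scoped Pointwise

variable (F : Type) [Field F] [NumberField F]

/-- an abelian extension of degree `M` -/
theorem exists_ab {M : ℕ} (hM : 0 < M) : ∃ (H : IntermediateField F (AlgebraicClosure F)) (_ : NumberField H) (_ : IsGalois F H),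
    IsMulCommutative Gal(H/F) ∧ Module.finrank F H = M := by
  classical
  rcases Nat.lt_or_ge M 2 with hM2 | hM2
  · have hM1 : M = 1 := by omega
    subst hM1
    have hfd : FiniteDimensional F (⊥ : IntermediateField F (AlgebraicClosure F)) := inferInstance
    have hab : IsAbelianGalois F (⊥ : IntermediateField F (AlgebraicClosure F)) := inferInstance
    exact ⟨⊥, NumberField.of_module_finite F _, inferInstance, inferInstance, IntermediateField.finrank_bot⟩
  · obtain ⟨n, hn⟩ : ∃ n : Fin 1 → ℕ, ∀ i, n i = M := ⟨fun _ => M, fun _ => rfl⟩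
    have hne : ∀ i, NeZero (n i) := fun i => ⟨by rw [hn]; omega⟩
    have hprod : ∏ i, n i = M := by simp [hn]
    obtain ⟨a, -, -, hfin, c, C, hc, hC, h⟩ := aext_order F n (exists_ne_zero hM2 hprod)
    obtain ⟨X, hX1, hX2⟩ := (h.and (eventually_ge_atTop 3)).exists
    have h8 : (1 : ℝ) < X := by exact_mod_cast (by omega : 1 < X)
    have h9 := Real.log_pos h8
    have h10 : (0 : ℝ) < ((AExt F n X).ncard : ℝ) := lt_of_lt_of_le (by positivity) hX1.1
    have h11 : 0 < (AExt F n X).ncard := by exact_mod_cast h10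
    obtain ⟨H, hH⟩ := (Set.ncard_pos (hfin X)).1 h11
    obtain ⟨hNF, hGal, hab, hfr, -⟩ := aext_sub hprod X hH
    exact ⟨H, hNF, hGal, hab, hfr⟩

variable {F}

theorem comm_sup (H₁ H₂ : IntermediateField F (AlgebraicClosure F)) [IsGalois F H₁] [IsGalois F H₂]
    (h1 : IsMulCommutative Gal(H₁/F)) (h2 : IsMulCommutative Gal(H₂/F)) :
    IsMulCommutative Gal((H₁ ⊔ H₂ : IntermediateField F (AlgebraicClosure F))/F) := by
  refine ⟨⟨fun σ τ => ?_⟩⟩
  have hle1 : H₁ ≤ H₁ ⊔ H₂ := le_sup_left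
  have hle2 : H₂ ≤ H₁ ⊔ H₂ := le_sup_right
  have key : ∀ (H : IntermediateField F (AlgebraicClosure F)) (_ : IsGalois F H) (_ : IsMulCommutative Gal(H/F)) (hle : H ≤ H₁ ⊔ H₂)
      (x : H), (σ * τ) (IntermediateField.inclusion hle x) = (τ * σ) (IntermediateField.inclusion hle x) := by
    intro H hG hab hle x
    let _ : Algebra H (H₁ ⊔ H₂ : IntermediateField F (AlgebraicClosure F)) := (IntermediateField.inclusion hle).toRingHom.toAlgebra
    have : IsScalarTower F H (H₁ ⊔ H₂ : IntermediateField F (AlgebraicClosure F)) :=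
      IsScalarTower.of_algebraMap_eq' (IntermediateField.inclusion hle).comp_algebraMap.symm
    have h3 : (σ.restrictNormal H) * (τ.restrictNormal H) = (τ.restrictNormal H) * (σ.restrictNormal H) := hab.is_comm.comm _ _
    have hσ := fun y => AlgEquiv.restrictNormal_commutes σ H y
    have hτ := fun y => AlgEquiv.restrictNormal_commutes τ H y
    have h4 := congrArg (fun ρ : Gal(H/F) => algebraMap H (H₁ ⊔ H₂ : IntermediateField F (AlgebraicClosure F)) (ρ x)) h3
    simp only [AlgEquiv.mul_apply] at h4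
    rw [hσ, hτ, hτ, hσ] at h4
    exact h4
  have h5 : (σ * τ).toAlgHom = (τ * σ).toAlgHom := by
    refine IntermediateField.algHom_ext_of_eq_adjoin F (IntermediateField.sup_def H₁ H₂) fun x hx => ?_
    rcases hx with hx | hx
    · exact key H₁ inferInstance h1 hle1 ⟨x, hx⟩
    · exact key H₂ inferInstance h2 hle2 ⟨x, hx⟩
  exact AlgEquiv.ext fun x => DFunLike.congr_fun h5 x

/-- a field of degree `N` has at most `2^N` subfields -/
theorem sub_le {N : ℕ} (H : IntermediateField F (AlgebraicClosure F)) [NumberField H] [IsGalois F H] (hN : Module.finrank F H = N) :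
    {H₁ : IntermediateField F (AlgebraicClosure F) | H₁ ≤ H}.Finite ∧ {H₁ : IntermediateField F (AlgebraicClosure F) | H₁ ≤ H}.ncard ≤ 2 ^ N := by
  classical
  have hfd : FiniteDimensional F H := FiniteDimensional.right ℚ F H
  obtain ⟨Φ, hΦ⟩ : ∃ Φ : IntermediateField F (AlgebraicClosure F) → Set Gal(H/F), ∀ H₁,
      Φ H₁ = ((H₁.comap H.val).fixingSubgroup : Set Gal(H/F)) := ⟨fun H₁ => ((H₁.comap H.val).fixingSubgroup : Set Gal(H/F)), fun _ => rfl⟩
  have hinj : Set.InjOn Φ {H₁ : IntermediateField F (AlgebraicClosure F) | H₁ ≤ H} := by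
    intro H₁ h1 H₂ h2 heq
    rw [hΦ, hΦ] at heq
    have h3 : (H₁.comap H.val).fixingSubgroup = (H₂.comap H.val).fixingSubgroup := SetLike.coe_injective heq
    have h4 : H₁.comap H.val = H₂.comap H.val := by
      rw [← IsGalois.fixedField_fixingSubgroup (H₁.comap H.val), ← IsGalois.fixedField_fixingSubgroup (H₂.comap H.val), h3]
    have h5 : ∀ x : AlgebraicClosure F, ∀ hx : x ∈ H, (x ∈ H₁ ↔ x ∈ H₂) := by
      intro x hx
      have h6 : (⟨x, hx⟩ : H) ∈ H₁.comap H.val ↔ (⟨x, hx⟩ : H) ∈ H₂.comap H.val := by rw [h4]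
      exact h6
    ext x
    constructor
    · intro hx
      exact (h5 x (h1 hx)).1 hx
    · intro hx
      exact (h5 x (h2 hx)).2 hx
  have hfS : Finite (Set Gal(H/F)) := inferInstance
  have hFin : {H₁ : IntermediateField F (AlgebraicClosure F) | H₁ ≤ H}.Finite := Set.Finite.of_finite_image (Set.toFinite (Φ '' _)) hinj
  refine ⟨hFin, ?_⟩
  rw [← hinj.ncard_image]
  have h8 : (Φ '' {H₁ : IntermediateField F (AlgebraicClosure F) | H₁ ≤ H}).ncard ≤ Nat.card (Set Gal(H/F)) := by
    rw [← Set.ncard_univ]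
    exact Set.ncard_le_ncard (Set.subset_univ _) (Set.toFinite _)
  have h9 : Nat.card (Set Gal(H/F)) = 2 ^ N := by
    have := Fintype.ofFinite Gal(H/F)
    rw [Nat.card_eq_fintype_card, Fintype.card_set, ← Nat.card_eq_fintype_card, IsGalois.card_aut_eq_finrank, hN]
  rw [← h9]
  exact h8

theorem smul_elem {l s : ℕ} {n : Fin s → ℕ} (hn : ∀ i, n i = l) (w : V n) : l • w = 0 := by
  funext i
  rw [Pi.smul_apply, nsmul_eq_mul, ← hn i, ZMod.natCast_self, zero_mul]
  rfl

theorem aOf_elem (F : Type) [Field F] [NumberField F] {l s : ℕ} (hl : l.Prime) {n : Fin s → ℕ} [∀ i, NeZero (n i)] (hn : ∀ i, n i = l) :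
    aOf F n * (Module.finrank F (CyclotomicField l F) : ℝ) + 1 = (l : ℝ) ^ s := by
  classical
  have hne1 : NeZero l := ⟨hl.ne_zero⟩
  have hfd : FiniteDimensional F (CyclotomicField l F) := FiniteDimensional.right ℚ F _
  have hf : (0 : ℝ) < Module.finrank F (CyclotomicField l F) := by exact_mod_cast (Module.finrank_pos : 0 < Module.finrank F (CyclotomicField l F))
  have h1 : ∀ w : V n, (if w = 0 then 0 else (1 : ℝ) / (Module.finrank F (CyclotomicField (addOrderOf w) F) : ℝ)) =
      if w = 0 then 0 else (1 : ℝ) / (Module.finrank F (CyclotomicField l F) : ℝ) := by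
    intro w
    by_cases hw : w = 0
    · rw [if_pos hw, if_pos hw]
    · rw [if_neg hw, if_neg hw]
      rw [addOrderOf_eq_prime (p := l) (hp := ⟨hl⟩) (smul_elem hn w) hw]
  have hcardV : Fintype.card (V n) = l ^ s := by
    rw [Fintype.card_pi]
    simp only [ZMod.card, hn]
    rw [Finset.prod_const, Finset.card_univ, Fintype.card_fin]
  have h2 : aOf F n = ((l : ℝ) ^ s - 1) * (1 / (Module.finrank F (CyclotomicField l F) : ℝ)) := by
    unfold aOf
    rw [Finset.sum_congr rfl fun w _ => h1 w, Finset.sum_ite, Finset.sum_const_zero, zero_add, Finset.sum_const, nsmul_eq_mul]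
    congr 1
    have h3 : (Finset.univ.filter fun w : V n => ¬ w = 0) = Finset.univ.erase 0 := by
      ext w
      simp
    rw [h3, Finset.card_erase_of_mem (Finset.mem_univ _), Finset.card_univ, hcardV, Nat.cast_sub (Nat.one_le_pow _ _ hl.pos)]
    push_cast
    ring
  rw [h2]
  field_simp
  ring

/-- the lower bound for the number of the abelian extensions of degree `l^s M` -/
theorem ab_lower (F : Type) [Field F] [NumberField F] {l s M N : ℕ} (hl : l.Prime) (hs : 1 ≤ s) (hM : 0 < M) (hcop : l.Coprime M) (hN : N = l ^ s * M)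
    (hfin : ∀ X, (AbDExt F N X).Finite) :
    ∃ b : ℕ, 1 ≤ b ∧ l ^ s = b * Module.finrank F (CyclotomicField l F) + 1 ∧ ∃ c : ℝ, 0 < c ∧ ∀ᶠ y : ℕ in atTop, ∀ X : ℕ, y ^ (N - N / l) ≤ X →
      c * ((y : ℝ) * Real.log y ^ (b - 1)) ≤ ((AbDExt F N X).ncard : ℝ) := by
  classical
  obtain ⟨H₂, hNF₂, hGal₂, hab₂, hfr₂⟩ := exists_ab F hM
  obtain ⟨n, hn⟩ : ∃ n : Fin s → ℕ, ∀ i, n i = l := ⟨fun _ => l, fun _ => rfl⟩
  have hne : ∀ i, NeZero (n i) := fun i => ⟨by rw [hn]; exact hl.ne_zero⟩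
  have hprod : ∏ i, n i = l ^ s := by simp [hn]
  have hls : 2 ≤ l ^ s := hl.two_le.trans (Nat.le_self_pow (by omega) l)
  have hlN : l ∣ N := by
    rw [hN]
    exact (dvd_pow_self l (by omega)).mul_right M
  have hN0 : 0 < N := by
    rw [hN]
    exact Nat.mul_pos (by omega) hM
  obtain ⟨b, hb, hb1, hA, c₁, C₁, hc₁, hC₁, hord⟩ := aext_order F n (exists_ne_zero hls hprod)
  obtain ⟨C, hC, hdisc⟩ := disc_comp hl hlN H₂
  have hbf : l ^ s = b * Module.finrank F (CyclotomicField l F) + 1 := by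
    have h1 := aOf_elem F hl hn
    rw [← hb] at h1
    exact_mod_cast h1.symm
  have ha : 1 ≤ N - N / l := by
    have h1 : N / l < N := Nat.div_lt_self hN0 hl.one_lt
    omega
  refine ⟨b, hb1, hbf, c₁ / (2 ^ N * (2 * C * 2 ^ (b - 1))), by positivity, ?_⟩
  -- the map
  have hmap : ∀ X y : ℕ, y ^ (N - N / l) ≤ X → ((AExt F n (y / C)).ncard : ℝ) ≤ 2 ^ N * ((AbDExt F N X).ncard : ℝ) := by
    intro X y hy
    have h1 := ncard_fiber (A := AExt F n (y / C)) (B := AbDExt F N X) (fun H₁ => H₁ ⊔ H₂) (by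
      rintro H₁ ⟨hNF₁, hGal₁, ⟨φ⟩, hrad⟩
      have hfd₁ : FiniteDimensional F H₁ := FiniteDimensional.right ℚ F H₁
      have hfd₂ : FiniteDimensional F H₂ := FiniteDimensional.right ℚ F H₂
      have hfd : FiniteDimensional F (H₁ ⊔ H₂ : IntermediateField F (AlgebraicClosure F)) := inferInstance
      have hNF : NumberField (H₁ ⊔ H₂ : IntermediateField F (AlgebraicClosure F)) := NumberField.of_module_finite F _
      have hfr₁ : Module.finrank F H₁ = l ^ s := by
        have h2 := aext_sub hprod (y / C) (show H₁ ∈ AExt F n (y / C) from ⟨hNF₁, hGal₁, ⟨φ⟩, hrad⟩)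
        obtain ⟨-, -, -, h3, -⟩ := h2
        exact h3
      have hab₁ : IsMulCommutative Gal(H₁/F) := ⟨⟨fun σ τ => φ.injective (by rw [map_mul, map_mul, mul_comm])⟩⟩
      have hfr : Module.finrank F (H₁ ⊔ H₂ : IntermediateField F (AlgebraicClosure F)) = N := by
        rw [(IntermediateField.LinearDisjoint.of_finrank_coprime (by rw [hfr₁, hfr₂]; exact hcop.pow_left s)).finrank_sup, hfr₁, hfr₂, hN]
      refine ⟨hNF, inferInstance, comm_sup H₁ H₂ hab₁ hab₂, hfr, ?_⟩
      have hexp : ∀ σ : Gal(H₁/F), σ ^ l = 1 := by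
        intro σ
        apply φ.injective
        rw [map_pow, map_one]
        apply Multiplicative.toAdd.injective
        rw [toAdd_pow, toAdd_one]
        exact smul_elem hn _
      refine (hdisc H₁ hNF₁ hGal₁ hexp hNF inferInstance hfr).trans (le_trans ?_ hy)
      calc C * radN F H₁ ^ (N - N / l) ≤ C ^ (N - N / l) * (y / C) ^ (N - N / l) :=
            Nat.mul_le_mul (Nat.le_self_pow (by omega) C) (Nat.pow_le_pow_left hrad _)
        _ = (C * (y / C)) ^ (N - N / l) := (mul_pow _ _ _).symm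
        _ ≤ y ^ (N - N / l) := Nat.pow_le_pow_left (Nat.mul_div_le _ _) _) (hfin X) (2 ^ N) (by
      rintro H ⟨hNF, hGal, -, hfr, -⟩
      obtain ⟨h3, h4⟩ := sub_le H hfr
      have h5 : {H₁ | H₁ ∈ AExt F n (y / C) ∧ H₁ ⊔ H₂ = H} ⊆ {H₁ : IntermediateField F (AlgebraicClosure F) | H₁ ≤ H} := by
        rintro H₁ ⟨-, rfl⟩
        exact (le_sup_left : H₁ ≤ H₁ ⊔ H₂)
      exact ⟨h3.subset h5, (Set.ncard_le_ncard h5 h3).trans h4⟩)
    exact_mod_cast h1.2
  have hdivC : Tendsto (fun z : ℕ => z / C) atTop atTop := Nat.tendsto_div_const_atTop (by omega)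
  have hC0 : (0 : ℝ) < (C : ℝ) := by exact_mod_cast hC
  have hcast : Tendsto (fun X : ℕ => (X : ℝ)) atTop atTop := tendsto_natCast_atTop_atTop
  have hlog : Tendsto (fun X : ℕ => Real.log X) atTop atTop := Real.tendsto_log_atTop.comp hcast
  filter_upwards [hdivC.eventually hord, eventually_ge_atTop (2 * C), hlog.eventually (eventually_ge_atTop (2 * Real.log (2 * C))),
    hlog.eventually (eventually_gt_atTop 0)] with z h3 h5 h6 h7 X hX
  have hz : (0 : ℝ) < (z : ℝ) := by
    have : 0 < z := by omega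
    exact_mod_cast this
  have h8 : (z : ℝ) / (2 * C) ≤ ((z / C : ℕ) : ℝ) := by
    have h9 : z < (z / C + 1) * C := by
      have h10 := Nat.div_add_mod z C
      have h11 := Nat.mod_lt z (show 0 < C by omega)
      nlinarith
    have h10 : (z : ℝ) < (((z / C : ℕ) : ℝ) + 1) * C := by exact_mod_cast h9
    have h11 : (2 * C : ℝ) ≤ (z : ℝ) := by exact_mod_cast h5
    rw [div_le_iff₀ (by positivity)]
    nlinarith
  have h9 : Real.log z / 2 ≤ Real.log ((z / C : ℕ) : ℝ) := by
    refine le_trans ?_ (Real.log_le_log (by positivity) h8)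
    rw [Real.log_div hz.ne' (by positivity)]
    linarith
  have h10 : (z : ℝ) / (2 * C) * (Real.log z / 2) ^ (b - 1) ≤ ((z / C : ℕ) : ℝ) * Real.log ((z / C : ℕ) : ℝ) ^ (b - 1) := by
    have : 0 ≤ Real.log z / 2 := by linarith
    gcongr
  have h12 : c₁ * ((z : ℝ) / (2 * C) * (Real.log z / 2) ^ (b - 1)) ≤ 2 ^ N * ((AbDExt F N X).ncard : ℝ) :=
    ((mul_le_mul_of_nonneg_left h10 hc₁.le).trans h3.1).trans (hmap X z hX)
  calc c₁ / (2 ^ N * (2 * C * 2 ^ (b - 1))) * ((z : ℝ) * Real.log z ^ (b - 1)) = c₁ * ((z : ℝ) / (2 * C) * (Real.log z / 2) ^ (b - 1)) / 2 ^ N := by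
        rw [div_pow]
        field_simp
    _ ≤ 2 ^ N * ((AbDExt F N X).ncard : ℝ) / 2 ^ N := div_le_div_of_nonneg_right h12 (by positivity)
    _ = ((AbDExt F N X).ncard : ℝ) := by field_simp

end StarkR
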