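import Pool.Agent.Lib.MP_d9bae3_nt.NG.BFinG
import Pool.Agent.Lib.MP_d9bae3_nt.NG.BFinB

/-!
# Module NBD-BFinC: almost all abelian extensions of degree `N` in the order of the discriminant
-/

set_option linter.unusedSectionVars false

namespace StarkR

open NumberField IsDedekindDomain Filter Topology
open scoped Pointwise

theorem abd_struct {F : Type} [Field F] [NumberField F] {N X : ℕ} {H : IntermediateField F (AlgebraicClosure F)} (hH : H ∈ AbDExt F N X) :
    ∃ q ∈ grp N, ∃ _ : ∀ i, NeZero (q.2 i), H ∈ DExt F q.2 X := by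
  obtain ⟨hNF, hGal, hab, hfr, hdisc⟩ := hH
  obtain ⟨q, hq, hne, -, -, hφ, -⟩ := ab_struct (X := radN F H) (show H ∈ AbExt F N (radN F H) from ⟨hNF, hGal, hab, hfr, le_rfl⟩)
  exact ⟨q, hq, hne, hNF, hGal, hφ, hdisc⟩

theorem dext_sub {F : Type} [Field F] [NumberField F] {m : ℕ} {n : Fin m → ℕ} [∀ i, NeZero (n i)] {N : ℕ} (hN : ∏ i, n i = N) (X : ℕ) :
    DExt F n X ⊆ AbDExt F N X := by
  rintro H ⟨hNF, hGal, hφ, hdisc⟩
  obtain ⟨-, -, hab, hfr, -⟩ := aext_sub hN (radN F H) (show H ∈ AExt F n (radN F H) from ⟨hNF, hGal, hφ, le_rfl⟩)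
  exact ⟨hNF, hGal, hab, hfr, hdisc⟩

/-- the number of the elements killed by `l` in a group of order `l^s M` -/
theorem card_kill {m : ℕ} {n : Fin m → ℕ} [∀ i, NeZero (n i)] {l s M : ℕ} (hl : l.Prime) (hcop : l.Coprime M) (hN : ∏ i, n i = l ^ s * M) :
    Nat.card {v : V n // l • v = 0} ≤ l ^ s := by
  classical
  have hlf : Fact l.Prime := ⟨hl⟩
  obtain ⟨A, hA⟩ : ∃ A : AddSubgroup (V n), ∀ v, v ∈ A ↔ l • v = 0 := ⟨(nsmulAddMonoidHom (α := V n) l).ker, fun v => Iff.rfl⟩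
  have h1 : Nat.card {v : V n // l • v = 0} = Nat.card A := Nat.card_congr (Equiv.subtypeEquivRight fun v => (hA v).symm)
  have h2 : IsPGroup l (Multiplicative A) := by
    intro x
    refine ⟨1, ?_⟩
    apply Multiplicative.toAdd.injective
    rw [toAdd_pow, toAdd_one, pow_one]
    apply Subtype.ext
    exact (hA _).1 (Multiplicative.toAdd x).2
  obtain ⟨j, hj⟩ := IsPGroup.iff_card.1 h2
  have h3 : Nat.card A = l ^ j := hj
  have h4 : Nat.card (V n) = l ^ s * M := by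
    rw [Nat.card_eq_fintype_card, Fintype.card_pi, ← hN]
    exact Finset.prod_congr rfl fun i _ => ZMod.card (n i)
  have h5 : l ^ j ∣ l ^ s * M := by
    rw [← h3, ← h4]
    exact AddSubgroup.card_addSubgroup_dvd_card A
  rw [h1, h3]
  exact Nat.le_of_dvd (Nat.pow_pos hl.pos) ((hcop.pow_left j).dvd_of_dvd_mul_right h5)

theorem card_kill_cyc {m : ℕ} {n : Fin m → ℕ} [∀ i, NeZero (n i)] {l : ℕ} (hl : 0 < l) (hc : IsCyclic (Multiplicative (V n))) :
    Nat.card {v : V n // l • v = 0} ≤ l := by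
  classical
  have h1 := IsCyclic.card_pow_eq_one_le (α := Multiplicative (V n)) hl
  refine le_trans (le_of_eq ?_) h1
  rw [Nat.card_eq_fintype_card, Fintype.card_subtype]
  refine Finset.card_equiv Multiplicative.ofAdd fun v => ?_
  rw [Finset.mem_filter, Finset.mem_filter]
  simp only [Finset.mem_univ, true_and]
  rw [← ofAdd_nsmul, ofAdd_eq_one]

variable (F : Type) [Field F] [NumberField F]

theorem abd_density {l N : ℕ} (hl : l.Prime) (hl2 : l ^ 2 ∣ N) (hN0 : 0 < N) (hmin : ∀ p, p.Prime → p ∣ N → l ≤ p) {k : ℕ}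
    (P : IntermediateField F (AlgebraicClosure F) → Prop)
    (hP : ∀ (H : IntermediateField F (AlgebraicClosure F)) (_ : NumberField H) (_ : IsGalois F H) (_ : IsMulCommutative Gal(H/F)),
      (∀ χ : Gal(H/F) →* ℂˣ, χ.ker ≠ ⊥ → ∃ A : Finset (Prm F), k ≤ A.card ∧ ∀ q ∈ A, Ramified H q ∧ TrivialAt χ q) → P H) :
    (∀ X, (AbDExt F N X).Finite) ∧
    Tendsto (fun X : ℕ => ({H | H ∈ AbDExt F N X ∧ (¬ IsCyclic Gal(H/F) ∧ P H)}.ncard : ℝ) / ((AbDExt F N X).ncard : ℝ)) atTop (𝓝 1) := by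
  classical
  obtain ⟨s, M, hM', hN⟩ := Nat.exists_eq_pow_mul_and_not_dvd hN0.ne' l hl.ne_one
  have hM : 0 < M := Nat.pos_of_ne_zero fun h => by
    rw [h] at hM'
    exact hM' (dvd_zero l)
  have hcop : l.Coprime M := (Nat.Prime.coprime_iff_not_dvd hl).2 hM'
  have hs : 2 ≤ s := by
    have h1 : l ^ 2 ∣ l ^ s := (hcop.pow_left 2).dvd_of_dvd_mul_right (hN ▸ hl2)
    exact (Nat.pow_dvd_pow_iff_le_right hl.one_lt).1 h1
  have hlN : l ∣ N := (dvd_pow_self l (by omega : (2 : ℕ) ≠ 0)).trans hl2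
  have hP' : ∀ q : Σ m : ℕ, Fin m → ℕ, ∀ (H : IntermediateField F (AlgebraicClosure F)) (_ : NumberField H) (_ : IsGalois F H) (_ : Gal(H/F) ≃* Multiplicative (V q.2)),
      (∀ χ : Gal(H/F) →* ℂˣ, χ.ker ≠ ⊥ → ∃ A : Finset (Prm F), k ≤ A.card ∧ ∀ q ∈ A, Ramified H q ∧ TrivialAt χ q) → P H :=
    fun q H hNF hGal φ => hP H hNF hGal ⟨⟨fun σ τ => φ.injective (by rw [map_mul, map_mul, mul_comm])⟩⟩
  have hG := grp_finite N
  have hfin : ∀ X, (AbDExt F N X).Finite := by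
    intro X
    have h1 : ∀ q ∈ grp N, {H | ∃ _ : ∀ i, NeZero (q.2 i), H ∈ DExt F q.2 X}.Finite := by
      intro q hq
      have hne : ∀ i, NeZero (q.2 i) := fun i => ⟨(hq.2.1 i).1.ne'⟩
      obtain ⟨a, -, -, h2, -⟩ := dext_upper F q.2 hl hq.2.2 hlN hmin P (hP' q)
      exact (h2 X).subset fun H hH => hH.2
    refine (hG.biUnion h1).subset fun H hH => ?_
    obtain ⟨q, hq, hne, hHq⟩ := abd_struct hH
    rw [Set.mem_iUnion₂]
    exact ⟨q, hq, hne, hHq⟩
  obtain ⟨b, hb1, hbf, c, hc, hlow⟩ := ab_lower F hl (by omega : 1 ≤ s) hM hcop hN hfin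
  have ha : 1 ≤ N - N / l := by
    have h1 : N / l < N := Nat.div_lt_self hN0 hl.one_lt
    omega
  refine ⟨hfin, density_of_bad hfin fun δ hδ => ?_⟩
  choose y hy1 hy2 using exists_root ha
  have hy : Tendsto y atTop atTop := by
    rw [tendsto_atTop]
    intro M
    filter_upwards [eventually_ge_atTop (M ^ (N - N / l))] with X hX
    by_contra h
    have h3 : y X + 1 ≤ M := by omega
    have h4 := Nat.pow_le_pow_left h3 (N - N / l)
    have h5 := hy2 X
    omega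
  have hcast : Tendsto (fun X : ℕ => (X : ℝ)) atTop atTop := tendsto_natCast_atTop_atTop
  have hlog : Tendsto (fun X : ℕ => Real.log X) atTop atTop := Real.tendsto_log_atTop.comp hcast
  have hf : 0 < Module.finrank F (CyclotomicField l F) := by
    have hne1 : NeZero l := ⟨hl.ne_zero⟩
    have hfd : FiniteDimensional F (CyclotomicField l F) := FiniteDimensional.right ℚ F _
    exact Module.finrank_pos
  have hgrp : ∀ q ∈ grp N, ∀ δ' : ℝ, 0 < δ' → ∀ᶠ X : ℕ in atTop,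
      ({H | (∃ _ : ∀ i, NeZero (q.2 i), H ∈ DExt F q.2 X) ∧ ¬ (¬ IsCyclic Gal(H/F) ∧ P H)}.ncard : ℝ) ≤ δ' * ((AbDExt F N X).ncard : ℝ) := by
    intro q hq δ' hδ'
    have hne : ∀ i, NeZero (q.2 i) := fun i => ⟨(hq.2.1 i).1.ne'⟩
    obtain ⟨a, ha1, hacard, hafin, ⟨C, hC, hup⟩, hbad⟩ := dext_upper F q.2 hl hq.2.2 hlN hmin P (hP' q)
    have hle := card_kill (n := q.2) hl hcop (hq.2.2.trans hN)
    rcases hle.lt_or_eq with hlt | heq
    · -- few extensions with this group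
      have hab : a < b := by
        rw [hacard, hbf] at hlt
        exact Nat.lt_of_mul_lt_mul_right (by omega : a * Module.finrank F (CyclotomicField l F) < b * Module.finrank F (CyclotomicField l F))
      have h1 : ∀ᶠ y : ℕ in atTop, ∀ X : ℕ, y ^ (N - N / l) ≤ X → X < (y + 1) ^ (N - N / l) →
          ((DExt F q.2 X).ncard : ℝ) ≤ δ' * ((AbDExt F N X).ncard : ℝ) := by
        filter_upwards [hup, hlow, hlog.eventually (eventually_ge_atTop (max 1 (C / (δ' * c))))] with y h0 h1 h2 X hX1 hX2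
        have h4 : (1 : ℝ) ≤ Real.log y := (le_max_left _ _).trans h2
        have h5 : C ≤ δ' * c * Real.log y := by
          have h6 := (le_max_right _ _).trans h2
          rw [div_le_iff₀ (by positivity)] at h6
          linarith
        have h6 : Real.log y * Real.log y ^ (a - 1) ≤ Real.log y ^ (b - 1) := by
          rw [← pow_succ']
          exact pow_le_pow_right₀ h4 (by omega)
        have hy0 : (0 : ℝ) ≤ (y : ℝ) := Nat.cast_nonneg _
        have hl0 : (0 : ℝ) ≤ Real.log y ^ (a - 1) := by positivity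
        have h7 := h1 X hX1
        calc ((DExt F q.2 X).ncard : ℝ) ≤ C * ((y : ℝ) * Real.log y ^ (a - 1)) := h0 X hX2
          _ ≤ δ' * c * Real.log y * ((y : ℝ) * Real.log y ^ (a - 1)) := by gcongr
          _ = δ' * c * ((y : ℝ) * (Real.log y * Real.log y ^ (a - 1))) := by ring
          _ ≤ δ' * c * ((y : ℝ) * Real.log y ^ (b - 1)) := by gcongr
          _ = δ' * (c * ((y : ℝ) * Real.log y ^ (b - 1))) := by ring
          _ ≤ δ' * ((AbDExt F N X).ncard : ℝ) := by gcongr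
      filter_upwards [hy.eventually h1] with X hX
      refine le_trans ?_ (hX X (hy1 X) (hy2 X))
      refine Nat.cast_le.2 (Set.ncard_le_ncard ?_ (hafin X))
      rintro H ⟨⟨-, hH⟩, -⟩
      exact hH
    · -- the main groups
      have hab : a = b := by
        rw [hacard, hbf] at heq
        exact Nat.eq_of_mul_eq_mul_right hf (by omega)
      subst hab
      have hbig : l < Nat.card {v : V q.2 // l • v = 0} := by
        rw [heq]
        calc l = l ^ 1 := (pow_one l).symm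
          _ < l ^ s := Nat.pow_lt_pow_right hl.one_lt (by omega)
      have h1 : ∀ᶠ y : ℕ in atTop, ∀ X : ℕ, y ^ (N - N / l) ≤ X → X < (y + 1) ^ (N - N / l) →
          ({H | H ∈ DExt F q.2 X ∧ ¬ P H}.ncard : ℝ) ≤ δ' * ((AbDExt F N X).ncard : ℝ) := by
        filter_upwards [hbad hbig (δ' * c) (by positivity), hlow] with y h0 h1 X hX1 hX2
        have h7 := h1 X hX1
        calc ({H | H ∈ DExt F q.2 X ∧ ¬ P H}.ncard : ℝ) ≤ δ' * c * ((y : ℝ) * Real.log y ^ (a - 1)) := h0 X hX2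
          _ = δ' * (c * ((y : ℝ) * Real.log y ^ (a - 1))) := by ring
          _ ≤ δ' * ((AbDExt F N X).ncard : ℝ) := by gcongr
      filter_upwards [hy.eventually h1] with X hX
      refine le_trans ?_ (hX X (hy1 X) (hy2 X))
      refine Nat.cast_le.2 (Set.ncard_le_ncard ?_ ((hafin X).subset fun H hH => hH.1))
      rintro H ⟨⟨-, hH⟩, hn⟩
      refine ⟨hH, fun hPH => hn ⟨fun hcy => ?_, hPH⟩⟩
      obtain ⟨_, -, ⟨φ⟩, -⟩ := hH
      exact absurd (card_kill_cyc hl.pos (isCyclic_of_surjective φ φ.surjective)) (not_le.2 hbig)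
  have hall : ∀ᶠ X : ℕ in atTop, ∀ q ∈ hG.toFinset,
      ({H | (∃ _ : ∀ i, NeZero (q.2 i), H ∈ DExt F q.2 X) ∧ ¬ (¬ IsCyclic Gal(H/F) ∧ P H)}.ncard : ℝ) ≤
        δ / (hG.toFinset.card + 1) * ((AbDExt F N X).ncard : ℝ) := by
    rw [Filter.eventually_all_finset]
    exact fun q hq => hgrp q (hG.mem_toFinset.1 hq) _ (by positivity)
  filter_upwards [hall, hy.eventually hlow, hy.eventually (eventually_ge_atTop 3)] with X h1 h2 h3
  constructor
  · have h4 : (0 : ℝ) < ((AbDExt F N X).ncard : ℝ) := by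
      refine lt_of_lt_of_le ?_ (h2 X (hy1 X))
      have h8 : (1 : ℝ) < y X := by exact_mod_cast (by omega : 1 < y X)
      have h9 := Real.log_pos h8
      positivity
    exact_mod_cast h4
  · have hsub : {H | H ∈ AbDExt F N X ∧ ¬ (¬ IsCyclic Gal(H/F) ∧ P H)} ⊆
        ⋃ q ∈ hG.toFinset, {H | (∃ _ : ∀ i, NeZero (q.2 i), H ∈ DExt F q.2 X) ∧ ¬ (¬ IsCyclic Gal(H/F) ∧ P H)} := by
      rintro H ⟨hH, hn⟩
      obtain ⟨q, hq, hne, hHq⟩ := abd_struct hH
      rw [Set.mem_iUnion₂]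
      exact ⟨q, hG.mem_toFinset.2 hq, ⟨hne, hHq⟩, hn⟩
    have hfq : ∀ q ∈ hG.toFinset, {H | (∃ _ : ∀ i, NeZero (q.2 i), H ∈ DExt F q.2 X) ∧ ¬ (¬ IsCyclic Gal(H/F) ∧ P H)}.Finite := by
      intro q hq
      refine (hfin X).subset ?_
      rintro H ⟨⟨hne, hHq⟩, -⟩
      exact dext_sub (hG.mem_toFinset.1 hq).2.2 X hHq
    have h4 : {H | H ∈ AbDExt F N X ∧ ¬ (¬ IsCyclic Gal(H/F) ∧ P H)}.ncard ≤
        ∑ q ∈ hG.toFinset, {H | (∃ _ : ∀ i, NeZero (q.2 i), H ∈ DExt F q.2 X) ∧ ¬ (¬ IsCyclic Gal(H/F) ∧ P H)}.ncard :=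
      (Set.ncard_le_ncard hsub (hG.toFinset.finite_toSet.biUnion hfq)).trans (Finset.set_ncard_biUnion_le _ _)
    calc ({H | H ∈ AbDExt F N X ∧ ¬ (¬ IsCyclic Gal(H/F) ∧ P H)}.ncard : ℝ)
        ≤ ∑ q ∈ hG.toFinset, ({H | (∃ _ : ∀ i, NeZero (q.2 i), H ∈ DExt F q.2 X) ∧ ¬ (¬ IsCyclic Gal(H/F) ∧ P H)}.ncard : ℝ) := by
          exact_mod_cast h4
      _ ≤ ∑ _q ∈ hG.toFinset, δ / (hG.toFinset.card + 1) * ((AbDExt F N X).ncard : ℝ) := Finset.sum_le_sum h1
      _ = (hG.toFinset.card : ℝ) / (hG.toFinset.card + 1) * (δ * ((AbDExt F N X).ncard : ℝ)) := by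
          rw [Finset.sum_const, nsmul_eq_mul]; ring
      _ ≤ 1 * (δ * ((AbDExt F N X).ncard : ℝ)) := by
          refine mul_le_mul_of_nonneg_right ?_ (by positivity)
          rw [div_le_one (by positivity)]
          linarith
      _ = δ * ((AbDExt F N X).ncard : ℝ) := one_mul _

end StarkR
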