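import Pool.Agent.Lib.MP_d9bae3_nt.NG.BFinA
import Pool.Agent.Lib.MP_d9bae3_nt.NG.DFin

/-!
# Module NBD-BFinG: extensions with a given group in the order of the discriminant: upper bounds without the auxiliary data
-/

set_option linter.unusedSectionVars false

namespace StarkR

open NumberField IsDedekindDomain Filter Topology
open scoped Pointwise

theorem dext_upper (F : Type) [Field F] [NumberField F] {m : ℕ} (n : Fin m → ℕ) [∀ i, NeZero (n i)] {l N : ℕ} (hl : l.Prime)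
    (hN : ∏ i, n i = N) (hlN : l ∣ N) (hmin : ∀ p, p.Prime → p ∣ N → l ≤ p) {k : ℕ} (P : IntermediateField F (AlgebraicClosure F) → Prop)
    (hP : ∀ (H : IntermediateField F (AlgebraicClosure F)) (_ : NumberField H) (_ : IsGalois F H) (_ : Gal(H/F) ≃* Multiplicative (V n)),
      (∀ χ : Gal(H/F) →* ℂˣ, χ.ker ≠ ⊥ → ∃ A : Finset (Prm F), k ≤ A.card ∧ ∀ q ∈ A, Ramified H q ∧ TrivialAt χ q) → P H) :
    ∃ a : ℕ, 1 ≤ a ∧ Nat.card {v : V n // l • v = 0} = a * Module.finrank F (CyclotomicField l F) + 1 ∧ (∀ X, (DExt F n X).Finite) ∧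
      (∃ C : ℝ, 0 < C ∧ ∀ᶠ y : ℕ in atTop, ∀ X : ℕ, X < (y + 1) ^ (N - N / l) →
        ((DExt F n X).ncard : ℝ) ≤ C * ((y : ℝ) * Real.log y ^ (a - 1))) ∧
      (l < Nat.card {v : V n // l • v = 0} → ∀ δ : ℝ, 0 < δ → ∀ᶠ y : ℕ in atTop, ∀ X : ℕ, X < (y + 1) ^ (N - N / l) →
        ({H | H ∈ DExt F n X ∧ ¬ P H}.ncard : ℝ) ≤ δ * ((y : ℝ) * Real.log y ^ (a - 1))) := by
  classical
  have hN0 : 0 < N := by
    rw [← hN]
    exact Finset.prod_pos fun i _ => Nat.pos_of_ne_zero (NeZero.ne _)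
  obtain ⟨e, he0⟩ : ∃ e : ℕ, e = N := ⟨N, rfl⟩
  have he : 0 < e := by omega
  have hn : ∀ i, n i ∣ e := fun i => by
    rw [he0, ← hN]
    exact Finset.dvd_prod_of_mem _ (Finset.mem_univ i)
  have hle : l ∣ e := by rw [he0]; exact hlN
  have : NeZero e := ⟨he.ne'⟩
  have : NeZero (e : AlgebraicClosure F) := ⟨Nat.cast_ne_zero.2 he.ne'⟩
  obtain ⟨ζ₀, hζ₀⟩ := HasEnoughRootsOfUnity.exists_primitiveRoot (AlgebraicClosure F) e
  let L : IntermediateField F (AlgebraicClosure F) := IntermediateField.adjoin F {ζ₀}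
  have hcyc : IsCyclotomicExtension {e} F L := hζ₀.intermediateField_adjoin_isCyclotomicExtension F
  have hfd : FiniteDimensional F L := IsCyclotomicExtension.finiteDimensional {e} F L
  have hNF : NumberField L := NumberField.of_module_finite F L
  obtain ⟨ζ, hζ⟩ : ∃ ζ : L, IsPrimitiveRoot ζ e := IsCyclotomicExtension.exists_isPrimitiveRoot F L (Set.mem_singleton e) he.ne'
  obtain ⟨ι, _, K, _, _, _, _, _, d, z, t, v, rep, hlev⟩ := exists_lev (F := F) (L := L) (n := n) hζ he hn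
  obtain ⟨S, SL, SK, hSS⟩ := exists_SS F L K he
  choose g hg using fun i => exists_gen (hSS.goodK i)
  have hcardV : Fintype.card (V n) = N := by
    rw [Fintype.card_pi, ← hN]
    exact Finset.prod_congr rfl fun i _ => ZMod.card (n i)
  have hmin' : ∀ i, l ≤ d i := by
    intro i
    have h1 : d i ≠ 1 := by
      have := hlev.two i
      omega
    have h2 : (d i).minFac ∣ N := (Nat.minFac_dvd (d i)).trans (hcardV ▸ d_dvd_card hlev i)
    exact (hmin _ (Nat.minFac_prime h1) h2).trans (Nat.minFac_le (by have := hlev.two i; omega))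
  have hp : ∃ i, d i = l := by
    have hlf : Fact l.Prime := ⟨hl⟩
    obtain ⟨w, hw⟩ := exists_prime_addOrderOf_dvd_card (G := V n) l (by rw [hcardV]; exact hlN)
    have hw0 : w ≠ 0 := by
      rintro rfl
      rw [addOrderOf_zero] at hw
      exact hl.one_lt.ne hw
    obtain ⟨⟨i, τ⟩, hi⟩ := rep.surjective ⟨w, hw0⟩
    refine ⟨i, ?_⟩
    have h1 := ord_rep hζ he hlev i τ
    rw [hi] at h1
    rw [← h1]
    exact hw
  obtain ⟨C, r, hC, hr, hr1, hlarge⟩ := dext_large (n := n) hζ he hn hlev hSS hg hl hcardV hlN hmin' hp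
  have hcard := card_levels hζ he hlev hl
  obtain ⟨a, ha⟩ : ∃ a : ℕ, a = Fintype.card {i // d i = l} := ⟨_, rfl⟩
  have ha1 : 1 ≤ a := by
    rw [ha]
    obtain ⟨i, hi⟩ := hp
    exact Fintype.card_pos_iff.2 ⟨⟨i, hi⟩⟩
  rw [Nat.card_eq_fintype_card (α := {i // d i = l}), ← ha] at hcard
  rw [← ha] at hlarge
  have h0 : ∀ X : ℕ, {H | H ∈ DExt F n X ∧ ∀ T, IsData F rep SL SK g H T → 2 ^ 0 ≤ ∏ i with ¬ d i = l, Ideal.absNorm (T i)} = DExt F n X := by
    intro X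
    ext H
    constructor
    · exact fun h => h.1
    · intro h
      refine ⟨h, fun T hT => ?_⟩
      rw [pow_zero]
      exact Finset.prod_pos fun i _ => Nat.pos_of_ne_zero fun h => (hT.1 i).1 (Ideal.absNorm_eq_zero_iff.1 h)
  have hfin : ∀ X, (DExt F n X).Finite := by
    intro X
    obtain ⟨y, hy1, hy2⟩ := (hlarge.and (eventually_ge_atTop X)).exists
    have hβ := (weights hlev hl hcardV hlN hmin').1
    have h1 := (hy1 0 X (lt_of_lt_of_le (by omega : X < y + 1) (Nat.le_self_pow (by omega) _))).1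
    rwa [h0] at h1
  refine ⟨a, ha1, hcard, hfin, ⟨C, hC, ?_⟩, fun hbig δ hδ => ?_⟩
  · filter_upwards [hlarge] with y hy X hX
    have h1 := (hy 0 X hX).2
    rwa [h0, pow_zero, mul_one] at h1
  · obtain ⟨J, hJ⟩ := exists_pow_lt_of_lt_one (show 0 < δ / 2 / C by positivity) hr1
    rw [lt_div_iff₀ hC] at hJ
    have hsmall := dext_small (n := n) hζ he hn hlev hSS hg hl hcardV hlN hle hmin' hp hbig P hP (2 ^ J) (half_pos hδ)
    rw [← ha] at hsmall
    filter_upwards [hlarge, hsmall] with y h1 h2 X hX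
    obtain ⟨h3, h4⟩ := h1 J X hX
    obtain ⟨h5, h6⟩ := h2 X hX
    have hsub : {H | H ∈ DExt F n X ∧ ¬ P H} ⊆
        {H | H ∈ DExt F n X ∧ ∀ T, IsData F rep SL SK g H T → 2 ^ J ≤ ∏ i with ¬ d i = l, Ideal.absNorm (T i)} ∪
        {H | H ∈ DExt F n X ∧ ¬ P H ∧ ∃ T, IsData F rep SL SK g H T ∧ ∏ i with ¬ d i = l, Ideal.absNorm (T i) ≤ 2 ^ J} := by
      rintro H ⟨hH, hPH⟩
      by_cases hT : ∀ T, IsData F rep SL SK g H T → 2 ^ J ≤ ∏ i with ¬ d i = l, Ideal.absNorm (T i)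
      · exact Or.inl ⟨hH, hT⟩
      · push Not at hT
        obtain ⟨T, hT1, hT2⟩ := hT
        exact Or.inr ⟨hH, hPH, T, hT1, hT2.le⟩
    have h7 := (Set.ncard_le_ncard hsub (h3.union h5)).trans (Set.ncard_union_le _ _)
    have h8 : (0 : ℝ) ≤ (y : ℝ) * Real.log y ^ (a - 1) := mul_nonneg (Nat.cast_nonneg _) (pow_nonneg (Real.log_natCast_nonneg y) _)
    have h9 : ({H | H ∈ DExt F n X ∧ ¬ P H}.ncard : ℝ) ≤
        ({H | H ∈ DExt F n X ∧ ∀ T, IsData F rep SL SK g H T → 2 ^ J ≤ ∏ i with ¬ d i = l, Ideal.absNorm (T i)}.ncard : ℝ) +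
        ({H | H ∈ DExt F n X ∧ ¬ P H ∧ ∃ T, IsData F rep SL SK g H T ∧ ∏ i with ¬ d i = l, Ideal.absNorm (T i) ≤ 2 ^ J}.ncard : ℝ) := by
      exact_mod_cast h7
    have h10 : C * r ^ J * ((y : ℝ) * Real.log y ^ (a - 1)) ≤ δ / 2 * ((y : ℝ) * Real.log y ^ (a - 1)) := by
      refine mul_le_mul_of_nonneg_right ?_ h8
      rw [mul_comm]
      exact hJ.le
    calc _ ≤ _ := h9
      _ ≤ C * r ^ J * ((y : ℝ) * Real.log y ^ (a - 1)) + δ / 2 * ((y : ℝ) * Real.log y ^ (a - 1)) := add_le_add h4 h6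
      _ ≤ δ / 2 * ((y : ℝ) * Real.log y ^ (a - 1)) + δ / 2 * ((y : ℝ) * Real.log y ^ (a - 1)) := add_le_add h10 le_rfl
      _ = δ * ((y : ℝ) * Real.log y ^ (a - 1)) := by ring

end StarkR
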