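import Pool.Agent.Lib.MP_d9bae3_nt.NG.BTame
import Pool.Agent.Lib.MP_d9bae3_nt.NA.RamT

/-!
# Module NBD-BInr: inertia groups of Kummer extensions

`H = F(α_1, ..., α_m)`, `α_j ^ n_j = rad b j`.  At `q` exactly one of the elements `b w`, `w = v`, is in `q`, and it is not in `q^2`.  Then `v_q(rad b j) = (v j).val` (see the proof of `ram_of`, NA/RamT.lean; the same computation
with the ramification index `E` instead of `1`: `HeightOneSpectrum.intValuation_liesOver`).
* `ram_order`: `n_j · v_P(α_j) = E · (v j).val`, so `E · v j = 0` in `ZMod (n j)`; `E` is the number of elements of the inertia group (`card_inertia_eq` of NG/BDisc.lean shows this; copy the six lines or import it).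
* `inertia_pow`: let `d = addOrderOf v`, `σ` in the inertia group of `P`.  `σ α_j = ω α_j`, `ω ^ n_j = 1`, `ω` comes from `F`.  Let `x = α_j ^ d ∈ 𝓞 H`; `n_j ∣ d · (v j).val`, `c := d · (v j).val / n_j`, `v_P(x) = E c`.  Take
  `y ∈ q^c`, `y ∉ q^(c+1)`; then `v_P(y) = E c =: k`.  `Ideal.exists_mul_add_mem_pow_succ`: `y u ≡ x` modulo `P^(k+1)`.  Apply `σ`: `y σ(u) ≡ ω^d x` modulo `P^(k+1)` (`smul_mem_pow`, NG/BTame.lean), and `σ u ≡ u` modulo `P`, so
  `(ω^d - 1) x ∈ P^(k+1)`, `x ∉ P^(k+1)`, so `ω^d - 1 ∈ P` (`Ideal.mem_prime_of_mul_mem_pow`), so `ω^d = 1` (roots of unity are different modulo `P` as `e ∉ P`: `hone` in the proof of `unram_of`/`unram_M`).  So `σ^d α_j = α_j` for all `j`, and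
  `σ^d = 1` by `h.gen`.
-/

set_option linter.unusedSectionVars false

namespace StarkR

open NumberField IsDedekindDomain Filter Topology
open scoped Pointwise

variable {F H : Type} [Field F] [NumberField F] [Field H] [NumberField H] [Algebra F H]
variable {m : ℕ} {n : Fin m → ℕ} [∀ i, NeZero (n i)]

private theorem inr_iv_one {q : Prm F} {x : 𝓞 F} (hx : x ∉ q.asIdeal) : q.intValuation x = 1 := by
  rw [HeightOneSpectrum.intValuation_eq_one_iff]
  exact hx

private theorem inr_mem (w : Prm H) {x : 𝓞 H} {k : ℕ} (h : w.intValuation x = WithZero.exp (-(k : ℤ))) :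
    x ∈ w.asIdeal ^ k ∧ x ∉ w.asIdeal ^ (k + 1) := by
  refine ⟨(w.intValuation_le_pow_iff_mem x k).1 h.le, fun hc => ?_⟩
  have h1 := (w.intValuation_le_pow_iff_mem x (k + 1)).2 hc
  rw [h, WithZero.exp_le_exp] at h1
  push_cast at h1
  omega

private theorem inr_iv_exp {q : Prm F} {x : 𝓞 F} {c : ℕ} (h1 : x ∈ q.asIdeal ^ c) (h2 : x ∉ q.asIdeal ^ (c + 1)) :
    q.intValuation x = WithZero.exp (-(c : ℤ)) := by
  refine le_antisymm ((q.intValuation_le_pow_iff_mem x c).2 h1) ?_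
  by_contra hlt
  rw [not_le] at hlt
  refine h2 ((q.intValuation_le_pow_iff_mem x (c + 1)).1 ?_)
  rcases eq_or_ne x 0 with rfl | hx0
  · simp
  rw [HeightOneSpectrum.intValuation_if_neg _ hx0] at hlt ⊢
  rw [WithZero.exp_lt_exp] at hlt
  rw [WithZero.exp_le_exp]
  push_cast
  omega

private theorem inr_card [IsGalois F H] (q : Prm F) {Q : Ideal (𝓞 H)} (hQ : Q.IsPrime) (hQq : Q.LiesOver q.asIdeal) :
    Nat.card (Q.inertia Gal(H/F)) = q.asIdeal.ramificationIdx' Q := by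
  have hfin : Finite (𝓞 F ⧸ q.asIdeal) := Ideal.finiteQuotientOfFreeOfNeBot q.asIdeal q.ne_bot
  have hfin2 : Finite q.asIdeal.ResidueField := by
    have hb := q.isMaximal
    exact Finite.of_surjective _ (Ideal.bijective_algebraMap_quotient_residueField q.asIdeal).2
  have hqm := q.isMaximal
  have hQ0 : Q ≠ ⊥ := Ideal.ne_bot_of_liesOver_of_ne_bot q.ne_bot Q
  have hQm : Q.IsMaximal := hQ.isMaximal hQ0
  have h5 := Ideal.card_inertia_eq_ramificationIdxIn (G := Gal(H/F)) q.asIdeal Q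
  rw [h5, Ideal.ramificationIdx'_eq_ramificationIdx q.asIdeal Q q.ne_bot,
    ← Ideal.ramificationIdxIn_eq_ramificationIdx q.asIdeal Q Gal(H/F)]

/-- the valuation of `rad b i` at `q` -/
private theorem inr_rad {b : V n → 𝓞 F} {q : Prm F} {v : V n}
    (h1 : b v ∈ q.asIdeal) (h2 : b v ∉ q.asIdeal ^ 2) (h3 : ∀ w, w ≠ v → b w ∉ q.asIdeal) (i : Fin m) :
    q.intValuation (rad b i) = WithZero.exp (-((v i).val : ℤ)) := by
  classical
  have h4 : q.intValuation (b v) = WithZero.exp (-((1 : ℕ) : ℤ)) :=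
    inr_iv_exp (by simpa using h1) h2
  unfold rad
  rw [map_prod, ← Finset.mul_prod_erase _ _ (Finset.mem_univ v), map_pow, h4, Finset.prod_eq_one,
    mul_one, ← WithZero.exp_nsmul]
  · simp
  · intro x hx
    rw [map_pow, inr_iv_one (h3 x (Finset.ne_of_mem_erase hx)), one_pow]

private theorem inr_root {b : V n → 𝓞 F} {α : Fin m → H} (h : IsExt b H α) (i : Fin m) :
    ∃ y : 𝓞 H, algebraMap (𝓞 H) H y = α i ∧ y ^ n i = algebraMap (𝓞 F) (𝓞 H) (rad b i) := by
  have hinj : Function.Injective (algebraMap (𝓞 H) H) := FaithfulSMul.algebraMap_injective _ _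
  have hint : IsIntegral ℤ (α i) := by
    refine IsIntegral.of_pow (Nat.pos_of_ne_zero (NeZero.ne (n i))) ?_
    rw [h.pow i]
    exact (RingOfIntegers.isIntegral_coe (rad b i)).algebraMap
  obtain ⟨y, hy⟩ : ∃ y : 𝓞 H, algebraMap (𝓞 H) H y = α i :=
    (IsIntegralClosure.isIntegral_iff (A := 𝓞 H)).1 hint
  refine ⟨y, hy, hinj ?_⟩
  rw [map_pow, hy, ← IsScalarTower.algebraMap_apply (𝓞 F) (𝓞 H) H,
    IsScalarTower.algebraMap_apply (𝓞 F) F H]
  exact h.pow i

/-- the valuation of the root: `n_i a = E (v i).val` -/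
private theorem inr_val {b : V n → 𝓞 F} {q : Prm F} {v : V n}
    (h1 : b v ∈ q.asIdeal) (h2 : b v ∉ q.asIdeal ^ 2) (h3 : ∀ w, w ≠ v → b w ∉ q.asIdeal)
    (w : Prm H) (hw : w.asIdeal.LiesOver q.asIdeal) (i : Fin m) {y : 𝓞 H}
    (hy : y ^ n i = algebraMap (𝓞 F) (𝓞 H) (rad b i)) :
    ∃ a : ℕ, w.intValuation y = WithZero.exp (-(a : ℤ)) ∧
      n i * a = q.asIdeal.ramificationIdx' w.asIdeal * (v i).val := by
  have hE := HeightOneSpectrum.intValuation_liesOver q w (rad b i)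
  rw [← hy, map_pow, inr_rad h1 h2 h3 i] at hE
  have hy0 : y ≠ 0 := by
    rintro h0
    rw [h0, map_zero, zero_pow (NeZero.ne (n i)), ← WithZero.exp_nsmul] at hE
    exact WithZero.exp_ne_zero hE
  rw [HeightOneSpectrum.intValuation_if_neg _ hy0] at hE ⊢
  refine ⟨_, rfl, ?_⟩
  rw [← WithZero.exp_nsmul, ← WithZero.exp_nsmul, WithZero.exp_inj] at hE
  rw [nsmul_eq_mul, nsmul_eq_mul] at hE
  have h4 : ((n i : ℕ) : ℤ) * (((Associates.mk w.asIdeal).count (Associates.mk (Ideal.span {y})).factors : ℕ) : ℤ) =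
      ((q.asIdeal.ramificationIdx' w.asIdeal : ℕ) : ℤ) * ((v i).val : ℤ) := by linarith
  exact_mod_cast h4

theorem ram_order [IsGalois F H] {b : V n → 𝓞 F} {α : Fin m → H} (h : IsExt b H α) {q : Prm F} {v : V n}
    (h1 : b v ∈ q.asIdeal) (h2 : b v ∉ q.asIdeal ^ 2) (h3 : ∀ w, w ≠ v → b w ∉ q.asIdeal)
    {P : Ideal (𝓞 H)} (hP : P.IsPrime) (hPq : P.LiesOver q.asIdeal) : Nat.card (P.inertia Gal(H/F)) • v = 0 := by
  have hP0 : P ≠ ⊥ := Ideal.ne_bot_of_liesOver_of_ne_bot q.ne_bot P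
  let w : Prm H := ⟨P, hP, hP0⟩
  have hw : w.asIdeal.LiesOver q.asIdeal := hPq
  rw [inr_card q hP hPq]
  funext i
  obtain ⟨y, -, hy⟩ := inr_root h i
  obtain ⟨a, -, ha⟩ := inr_val h1 h2 h3 w hw i hy
  have h4 : ((q.asIdeal.ramificationIdx' P * (v i).val : ℕ) : ZMod (n i)) = 0 := by
    rw [ZMod.natCast_eq_zero_iff]
    exact ⟨a, ha.symm⟩
  rw [Nat.cast_mul, ZMod.natCast_val, ZMod.cast_id', id] at h4
  rw [Pi.smul_apply, nsmul_eq_mul, Pi.zero_apply]
  exact h4

theorem inertia_pow [IsGalois F H] {e : ℕ} {ζ : F} (hζ : IsPrimitiveRoot ζ e) (he : 0 < e) (hn : ∀ i, n i ∣ e) {b : V n → 𝓞 F} {α : Fin m → H}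
    (h : IsExt b H α) {q : Prm F} (heq : (e : 𝓞 F) ∉ q.asIdeal) {v : V n}
    (h1 : b v ∈ q.asIdeal) (h2 : b v ∉ q.asIdeal ^ 2) (h3 : ∀ w, w ≠ v → b w ∉ q.asIdeal)
    {P : Ideal (𝓞 H)} (hP : P.IsPrime) (hPq : P.LiesOver q.asIdeal) {σ : Gal(H/F)} (hσ : σ ∈ P.inertia Gal(H/F)) : σ ^ addOrderOf v = 1 := by
  classical
  have hP0 : P ≠ ⊥ := Ideal.ne_bot_of_liesOver_of_ne_bot q.ne_bot P
  let w : Prm H := ⟨P, hP, hP0⟩
  have hw : w.asIdeal.LiesOver q.asIdeal := hPq
  have hσ' : ∀ x : 𝓞 H, σ • x - x ∈ P := hσ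
  have hqp : q.asIdeal.IsPrime := q.isPrime
  have hinj : Function.Injective (algebraMap (𝓞 H) H) := FaithfulSMul.algebraMap_injective _ _
  have hmap : ∀ z : 𝓞 F, algebraMap (𝓞 H) H (algebraMap (𝓞 F) (𝓞 H) z) = algebraMap F H (z : F) := by
    intro z
    rw [← IsScalarTower.algebraMap_apply (𝓞 F) (𝓞 H) H, IsScalarTower.algebraMap_apply (𝓞 F) F H]
  have hsm : ∀ (τ : Gal(H/F)) (z : 𝓞 H), algebraMap (𝓞 H) H (τ • z) = τ (algebraMap (𝓞 H) H z) := by
    intro τ z
    rw [algebraMap.smul' τ z H]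
    rfl
  have hfix : ∀ z : 𝓞 F, σ • (algebraMap (𝓞 F) (𝓞 H) z) = algebraMap (𝓞 F) (𝓞 H) z := by
    intro z
    apply hinj
    rw [hsm, hmap]
    exact σ.commutes _
  have hmemQ : ∀ z : 𝓞 F, algebraMap (𝓞 F) (𝓞 H) z ∈ P ↔ z ∈ q.asIdeal := by
    intro z
    rw [hPq.over]
    rfl
  -- the root of unity
  obtain ⟨Z, hZ⟩ : ∃ Z : 𝓞 F, algebraMap (𝓞 F) F Z = ζ :=
    (IsIntegralClosure.isIntegral_iff (A := 𝓞 F)).1 (hζ.isIntegral he)
  have hZH : IsPrimitiveRoot (algebraMap (𝓞 F) (𝓞 H) Z) e := by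
    have h3 : IsPrimitiveRoot (algebraMap F H ζ) e :=
      hζ.map_of_injective (FaithfulSMul.algebraMap_injective F H)
    refine IsPrimitiveRoot.of_map_of_injective (f := algebraMap (𝓞 H) H) ?_ hinj
    rw [hmap]
    rw [← hZ] at h3
    exact h3
  have hαfix : ∀ i, (σ ^ addOrderOf v) (α i) = α i := by
    intro i
    obtain ⟨y, hy, hyp⟩ := inr_root h i
    obtain ⟨a, hya, ha⟩ := inr_val h1 h2 h3 w hw i hyp
    have hy0 : y ≠ 0 := by
      rintro rfl
      rw [map_zero] at hya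
      exact WithZero.exp_ne_zero hya.symm
    have hyH0 : algebraMap (𝓞 H) H y ≠ 0 := by
      intro h0
      exact hy0 (hinj (by rw [h0, map_zero]))
    have hσye : (σ • y) ^ n i = y ^ n i := by
      rw [← smul_pow', hyp, hfix]
    have hσye' : (σ • y) ^ e = y ^ e := by
      obtain ⟨t, ht⟩ := hn i
      rw [ht, pow_mul, hσye, ← pow_mul]
    obtain ⟨j, hj⟩ : ∃ j : ℕ, σ • y = (algebraMap (𝓞 F) (𝓞 H) Z) ^ j * y := by
      have : NeZero e := ⟨he.ne'⟩
      have h5 : IsPrimitiveRoot (algebraMap (𝓞 H) H (algebraMap (𝓞 F) (𝓞 H) Z)) e :=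
        hZH.map_of_injective hinj
      have h4 : (algebraMap (𝓞 H) H (σ • y) / algebraMap (𝓞 H) H y) ^ e = 1 := by
        rw [div_pow, ← map_pow, ← map_pow, hσye', div_self]
        rw [map_pow]
        exact pow_ne_zero _ hyH0
      obtain ⟨k, _, hk⟩ := h5.eq_pow_of_pow_eq_one h4
      refine ⟨k, hinj ?_⟩
      rw [map_mul, map_pow, hk, div_mul_cancel₀]
      exact hyH0
    set ω : 𝓞 H := (algebraMap (𝓞 F) (𝓞 H) Z) ^ j with hωdef
    have hωe : ω ^ e = 1 := by
      rw [hωdef, ← pow_mul, mul_comm, pow_mul, hZH.pow_eq_one, one_pow]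
    have hσω : σ • ω = ω := by
      rw [hωdef, smul_pow', hfix]
    set d := addOrderOf v with hd
    -- the number `c`
    obtain ⟨c, hc⟩ : n i ∣ d * (v i).val := by
      rw [← ZMod.natCast_eq_zero_iff, Nat.cast_mul, ZMod.natCast_val, ZMod.cast_id', id]
      have h5 : (d • v) i = 0 := by
        rw [hd, addOrderOf_nsmul_eq_zero]
        rfl
      rw [Pi.smul_apply, nsmul_eq_mul] at h5
      exact h5
    set E := q.asIdeal.ramificationIdx' w.asIdeal with hEdef
    have hda : d * a = E * c := by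
      have h5 : n i * (d * a) = n i * (E * c) := by
        calc n i * (d * a) = d * (n i * a) := by ring
          _ = E * (d * (v i).val) := by rw [ha]; ring
          _ = n i * (E * c) := by rw [hc]; ring
      exact Nat.eq_of_mul_eq_mul_left (Nat.pos_of_ne_zero (NeZero.ne (n i))) h5
    have hxv : w.intValuation (y ^ d) = WithZero.exp (-((E * c : ℕ) : ℤ)) := by
      rw [map_pow, hya, ← WithZero.exp_nsmul, ← hda]
      congr 1
      rw [nsmul_eq_mul]
      push_cast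
      ring
    obtain ⟨z, hz1, hz2⟩ : ∃ z ∈ q.asIdeal ^ c, z ∉ q.asIdeal ^ (c + 1) := by
      have h5 : q.asIdeal ^ (c + 1) < q.asIdeal ^ c :=
        Ideal.pow_right_strictAnti q.asIdeal q.ne_bot q.isPrime.ne_top (Nat.lt_succ_self c)
      exact Set.exists_of_ssubset h5
    have hzv : w.intValuation (algebraMap (𝓞 F) (𝓞 H) z) = WithZero.exp (-((E * c : ℕ) : ℤ)) := by
      rw [← HeightOneSpectrum.intValuation_liesOver q w z, inr_iv_exp hz1 hz2, ← WithZero.exp_nsmul]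
      congr 1
      rw [nsmul_eq_mul]
      push_cast
      ring
    obtain ⟨hx1, hx2⟩ := inr_mem w hxv
    obtain ⟨hz3, hz4⟩ := inr_mem w hzv
    obtain ⟨u, ε, hε, hu⟩ := Ideal.exists_mul_add_mem_pow_succ (P := P) hP0 (i := E * c)
      (algebraMap (𝓞 F) (𝓞 H) z) (y ^ d) hz3 hz4 hx1
    have hsx : σ • (y ^ d) = ω ^ d * y ^ d := by
      rw [smul_pow', hj, mul_pow]
    have hmain : y ^ d * (ω ^ d - 1) ∈ P ^ (E * c + 1) := by
      have h5 : y ^ d * (ω ^ d - 1) =
          algebraMap (𝓞 F) (𝓞 H) z * (σ • u - u) + (σ • ε - ε) := by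
        have h6 : y ^ d * (ω ^ d - 1) = σ • (y ^ d) - y ^ d := by rw [hsx]; ring
        rw [h6, ← hu, smul_add, smul_mul', hfix]
        ring
      rw [h5]
      refine Ideal.add_mem _ ?_ (Ideal.sub_mem _ (smul_mem_pow hσ _ hε) hε)
      rw [pow_succ]
      exact Ideal.mul_mem_mul hz3 (hσ' u)
    have hωQ : ω ^ d - 1 ∈ P := Ideal.mem_prime_of_mul_mem_pow hP0 hx2 hmain
    have hω1 : ω ^ d = 1 := by
      by_contra hne
      have hωe' : (ω ^ d) ^ e = 1 := by
        rw [← pow_mul, mul_comm, pow_mul, hωe, one_pow]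
      have hsum : ∑ k ∈ Finset.range e, (ω ^ d) ^ k = 0 := by
        have h5 := mul_geom_sum (ω ^ d) e
        rw [hωe', sub_self] at h5
        exact (mul_eq_zero.1 h5).resolve_left (sub_ne_zero.2 hne)
      have h4 : Ideal.Quotient.mk P (ω ^ d) = 1 := by
        rw [← map_one (Ideal.Quotient.mk P), Ideal.Quotient.eq]
        exact hωQ
      have h5 : Ideal.Quotient.mk P (∑ k ∈ Finset.range e, (ω ^ d) ^ k) = Ideal.Quotient.mk P (e : 𝓞 H) := by
        rw [map_sum, map_natCast]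
        have h6 : ∀ k ∈ Finset.range e, Ideal.Quotient.mk P ((ω ^ d) ^ k) = 1 := by
          intro k _
          rw [map_pow, h4, one_pow]
        rw [Finset.sum_congr rfl h6]
        simp
      rw [hsum, map_zero] at h5
      have h6 : (e : 𝓞 H) ∈ P := Ideal.Quotient.eq_zero_iff_mem.1 h5.symm
      have h7 : algebraMap (𝓞 F) (𝓞 H) (e : 𝓞 F) ∈ P := by
        rw [map_natCast]
        exact h6
      exact heq ((hmemQ _).1 h7)
    have hpow : ∀ k : ℕ, σ ^ k • y = ω ^ k * y := by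
      intro k
      induction k with
      | zero => simp
      | succ k ih =>
        rw [pow_succ', mul_smul, ih, smul_mul', smul_pow', hσω, hj]
        ring
    rw [← hy, ← hsm, hpow d, hω1, one_mul]
  have hall : ∀ x : H, (σ ^ addOrderOf v) x = x := by
    intro x
    have hx : x ∈ IntermediateField.adjoin F (Set.range α) := by
      rw [h.gen]
      exact IntermediateField.mem_top
    induction hx using IntermediateField.adjoin_induction with
    | mem y hy =>
      obtain ⟨i, rfl⟩ := hy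
      exact hαfix i
    | algebraMap y => exact AlgEquiv.commutes _ y
    | add y z _ _ hy hz => rw [map_add, hy, hz]
    | inv y _ hy => rw [map_inv₀, hy]
    | mul y z _ _ hy hz => rw [map_mul, hy, hz]
  exact AlgEquiv.ext hall

end StarkR
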