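import Mathlib

/-!
# Module NBD-BPair: pairs with a weighted norm

`N₀ : α₀ → ℕ`, `N₁ : α₁ → ℕ` with `N₀, N₁ ≥ 1`; the number of `x` with `N₀ x ≤ Y` is at most `C₀ Y (1 + log Y)^c` and the number of `y` with `N₁ y ≤ Y` is at most `C₁ Y^(1+η)`, `1 + η < κ`.  Then the number of the pairs `(x, y)` with `N₀ x (N₁ y)^κ ≤ Y` and `N₁ y ≥ 2^J` is at most
`C r^J Y (1 + log Y)^c` with `0 < r < 1`.  Proof: for `j ≥ J` there are at most `C₁ 2^((j+1)(1+η))` elements `y` with `2^j ≤ N₁ y < 2^(j+1)`, and for every one of them at most `C₀ (Y / 2^(j κ)) (1 + log Y)^c` elements `x` (if `Y / 2^(jκ) < 1` there is none, as `N₀ x ≥ 1`).  Sum over `j ≥ J` of `C₀ C₁ 2^(1+η) Y (1 + log Y)^c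
2^(-j (κ - 1 - η))`: geometric series, `r = 2^(-(κ - 1 - η))`.  (Only the `j` with `2^j ≤ N₁ y ≤ Y` occur, so everything is a finite union.)
-/

set_option linter.unusedSectionVars false

namespace StarkR

/-- The exponents of one dyadic block: `(2^(j+1))^(1+η) / (2^j)^κ = 2^(1+η) r^j` with `r = 2^(1+η-κ)`. -/
private lemma BPair_exp (η κ : ℝ) (j : ℕ) :
    ((2 : ℝ) ^ (j + 1)) ^ (1 + η) / ((2 : ℝ) ^ j) ^ κ = (2 : ℝ) ^ (1 + η) * ((2 : ℝ) ^ (1 + η - κ)) ^ j := by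
  have h2 : (0 : ℝ) < 2 := by norm_num
  rw [← Real.rpow_natCast 2 (j + 1), ← Real.rpow_natCast 2 j, ← Real.rpow_natCast ((2 : ℝ) ^ (1 + η - κ)) j,
    ← Real.rpow_mul h2.le, ← Real.rpow_mul h2.le, ← Real.rpow_mul h2.le, ← Real.rpow_sub h2, ← Real.rpow_add h2]
  congr 1
  push_cast
  ring

/-- One dyadic block. -/
private lemma BPair_block {α₀ α₁ : Type} (N₀ : α₀ → ℕ) (N₁ : α₁ → ℕ) (h0 : ∀ x, 1 ≤ N₀ x) {C₀ C₁ η κ : ℝ} {c : ℕ}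
    (hC₀ : 0 < C₀) (hC₁ : 0 < C₁) (hη : 0 ≤ η) (hκ : 1 + η < κ)
    (hA0 : ∀ Y : ℝ, 1 ≤ Y → {x | (N₀ x : ℝ) ≤ Y}.Finite ∧ ({x | (N₀ x : ℝ) ≤ Y}.ncard : ℝ) ≤ C₀ * (Y * (1 + Real.log Y) ^ c))
    (hA1 : ∀ Y : ℝ, 1 ≤ Y → {y | (N₁ y : ℝ) ≤ Y}.Finite ∧ ({y | (N₁ y : ℝ) ≤ Y}.ncard : ℝ) ≤ C₁ * Y ^ (1 + η))
    (Y : ℝ) (hY : 1 ≤ Y) (j : ℕ) :
    {p : α₀ × α₁ | (N₀ p.1 : ℝ) * (N₁ p.2 : ℝ) ^ κ ≤ Y ∧ 2 ^ j ≤ N₁ p.2 ∧ N₁ p.2 < 2 ^ (j + 1)}.Finite ∧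
      ({p : α₀ × α₁ | (N₀ p.1 : ℝ) * (N₁ p.2 : ℝ) ^ κ ≤ Y ∧ 2 ^ j ≤ N₁ p.2 ∧ N₁ p.2 < 2 ^ (j + 1)}.ncard : ℝ) ≤
        (C₀ * C₁ * 2 ^ (1 + η)) * (Y * (1 + Real.log Y) ^ c) * ((2 : ℝ) ^ (1 + η - κ)) ^ j := by
  have hκ0 : 0 < κ := by linarith
  have hjpos : (0 : ℝ) < ((2 : ℝ) ^ j) ^ κ := by positivity
  have hj1 : (1 : ℝ) ≤ ((2 : ℝ) ^ j) ^ κ := Real.one_le_rpow (one_le_pow₀ (by norm_num)) hκ0.le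
  have hlogY : 0 ≤ Real.log Y := Real.log_nonneg hY
  have hW : 0 ≤ Y * (1 + Real.log Y) ^ c := by positivity
  -- the first coordinate
  have hx : ∀ p : α₀ × α₁, (N₀ p.1 : ℝ) * (N₁ p.2 : ℝ) ^ κ ≤ Y → 2 ^ j ≤ N₁ p.2 → (N₀ p.1 : ℝ) ≤ Y / ((2 : ℝ) ^ j) ^ κ := by
    intro p hp hj
    rw [le_div_iff₀ hjpos]
    refine le_trans ?_ hp
    apply mul_le_mul_of_nonneg_left _ (Nat.cast_nonneg _)
    apply Real.rpow_le_rpow (by positivity) _ hκ0.le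
    exact_mod_cast hj
  by_cases hlt : Y / ((2 : ℝ) ^ j) ^ κ < 1
  · have hemp : {p : α₀ × α₁ | (N₀ p.1 : ℝ) * (N₁ p.2 : ℝ) ^ κ ≤ Y ∧ 2 ^ j ≤ N₁ p.2 ∧ N₁ p.2 < 2 ^ (j + 1)} = ∅ := by
      apply Set.eq_empty_of_forall_notMem
      rintro p ⟨hp, hj, -⟩
      have h1 := hx p hp hj
      have h2 : (1 : ℝ) ≤ N₀ p.1 := by exact_mod_cast h0 p.1
      linarith
    rw [hemp]
    refine ⟨Set.finite_empty, ?_⟩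
    rw [Set.ncard_empty, Nat.cast_zero]
    positivity
  · rw [not_lt] at hlt
    obtain ⟨hfA, hcA⟩ := hA0 _ hlt
    obtain ⟨hfB, hcB⟩ := hA1 ((2 : ℝ) ^ (j + 1)) (one_le_pow₀ (by norm_num))
    have hsub : {p : α₀ × α₁ | (N₀ p.1 : ℝ) * (N₁ p.2 : ℝ) ^ κ ≤ Y ∧ 2 ^ j ≤ N₁ p.2 ∧ N₁ p.2 < 2 ^ (j + 1)} ⊆
        {x | (N₀ x : ℝ) ≤ Y / ((2 : ℝ) ^ j) ^ κ} ×ˢ {y | (N₁ y : ℝ) ≤ (2 : ℝ) ^ (j + 1)} := by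
      rintro p ⟨hp, hj, hj'⟩
      refine ⟨hx p hp hj, ?_⟩
      change (N₁ p.2 : ℝ) ≤ (2 : ℝ) ^ (j + 1)
      exact_mod_cast hj'.le
    refine ⟨(hfA.prod hfB).subset hsub, ?_⟩
    have hle : ({p : α₀ × α₁ | (N₀ p.1 : ℝ) * (N₁ p.2 : ℝ) ^ κ ≤ Y ∧ 2 ^ j ≤ N₁ p.2 ∧ N₁ p.2 < 2 ^ (j + 1)}.ncard : ℝ) ≤
        ({x | (N₀ x : ℝ) ≤ Y / ((2 : ℝ) ^ j) ^ κ}.ncard : ℝ) * ({y | (N₁ y : ℝ) ≤ (2 : ℝ) ^ (j + 1)}.ncard : ℝ) := by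
      have h1 := Set.ncard_le_ncard hsub (hfA.prod hfB)
      rw [Set.ncard_prod] at h1
      exact_mod_cast h1
    refine hle.trans ?_
    have hlog : Real.log (Y / ((2 : ℝ) ^ j) ^ κ) ≤ Real.log Y := by
      apply Real.log_le_log (by linarith)
      exact div_le_self (by linarith) hj1
    have hlog0 : 0 ≤ Real.log (Y / ((2 : ℝ) ^ j) ^ κ) := Real.log_nonneg hlt
    have hA : ({x | (N₀ x : ℝ) ≤ Y / ((2 : ℝ) ^ j) ^ κ}.ncard : ℝ) ≤ C₀ * (Y / ((2 : ℝ) ^ j) ^ κ * (1 + Real.log Y) ^ c) := by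
      refine hcA.trans ?_
      apply mul_le_mul_of_nonneg_left _ hC₀.le
      apply mul_le_mul_of_nonneg_left _ (by linarith)
      exact pow_le_pow_left₀ (by linarith) (by linarith) c
    have hBn : (0 : ℝ) ≤ ({y | (N₁ y : ℝ) ≤ (2 : ℝ) ^ (j + 1)}.ncard : ℝ) := Nat.cast_nonneg _
    calc ({x | (N₀ x : ℝ) ≤ Y / ((2 : ℝ) ^ j) ^ κ}.ncard : ℝ) * ({y | (N₁ y : ℝ) ≤ (2 : ℝ) ^ (j + 1)}.ncard : ℝ)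
        ≤ (C₀ * (Y / ((2 : ℝ) ^ j) ^ κ * (1 + Real.log Y) ^ c)) * (C₁ * ((2 : ℝ) ^ (j + 1)) ^ (1 + η)) := by
          apply mul_le_mul hA hcB hBn
          positivity
      _ = (C₀ * C₁) * (Y * (1 + Real.log Y) ^ c) * (((2 : ℝ) ^ (j + 1)) ^ (1 + η) / ((2 : ℝ) ^ j) ^ κ) := by ring
      _ = (C₀ * C₁ * 2 ^ (1 + η)) * (Y * (1 + Real.log Y) ^ c) * ((2 : ℝ) ^ (1 + η - κ)) ^ j := by
          rw [BPair_exp]; ring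

/-- A partial sum of the geometric series, from `J` on. -/
private lemma BPair_geom {r : ℝ} (hr0 : 0 < r) (hr1 : r < 1) (J M : ℕ) :
    ∑ j ∈ Finset.Ico J M, r ^ j ≤ r ^ J / (1 - r) := by
  have h1r : 0 < 1 - r := by linarith
  rcases le_total J M with h | h
  · rw [geom_sum_Ico' hr1.ne h]
    apply div_le_div_of_nonneg_right _ h1r.le
    have : 0 ≤ r ^ M := by positivity
    linarith
  · rw [Finset.Ico_eq_empty_of_le h, Finset.sum_empty]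
    positivity

theorem pair_count {α₀ α₁ : Type} (N₀ : α₀ → ℕ) (N₁ : α₁ → ℕ) (h0 : ∀ x, 1 ≤ N₀ x) (h1 : ∀ y, 1 ≤ N₁ y) {C₀ C₁ η κ : ℝ} {c : ℕ}
    (hC₀ : 0 < C₀) (hC₁ : 0 < C₁) (hη : 0 ≤ η) (hκ : 1 + η < κ)
    (hA0 : ∀ Y : ℝ, 1 ≤ Y → {x | (N₀ x : ℝ) ≤ Y}.Finite ∧ ({x | (N₀ x : ℝ) ≤ Y}.ncard : ℝ) ≤ C₀ * (Y * (1 + Real.log Y) ^ c))
    (hA1 : ∀ Y : ℝ, 1 ≤ Y → {y | (N₁ y : ℝ) ≤ Y}.Finite ∧ ({y | (N₁ y : ℝ) ≤ Y}.ncard : ℝ) ≤ C₁ * Y ^ (1 + η)) :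
    ∃ C r : ℝ, 0 < C ∧ 0 < r ∧ r < 1 ∧ ∀ Y : ℝ, 1 ≤ Y → ∀ J : ℕ,
      {p : α₀ × α₁ | (N₀ p.1 : ℝ) * (N₁ p.2 : ℝ) ^ κ ≤ Y ∧ 2 ^ J ≤ N₁ p.2}.Finite ∧
      ({p : α₀ × α₁ | (N₀ p.1 : ℝ) * (N₁ p.2 : ℝ) ^ κ ≤ Y ∧ 2 ^ J ≤ N₁ p.2}.ncard : ℝ) ≤ C * r ^ J * (Y * (1 + Real.log Y) ^ c) := by
  classical
  have hκ1 : 1 ≤ κ := by linarith
  have hr0 : (0 : ℝ) < (2 : ℝ) ^ (1 + η - κ) := by positivity
  have hr1 : (2 : ℝ) ^ (1 + η - κ) < 1 := Real.rpow_lt_one_of_one_lt_of_neg (by norm_num) (by linarith)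
  have h1r : 0 < 1 - (2 : ℝ) ^ (1 + η - κ) := by linarith
  refine ⟨(C₀ * C₁ * 2 ^ (1 + η)) / (1 - (2 : ℝ) ^ (1 + η - κ)), (2 : ℝ) ^ (1 + η - κ), by positivity, hr0, hr1, ?_⟩
  intro Y hY J
  have hlogY : 0 ≤ Real.log Y := Real.log_nonneg hY
  have hW : 0 ≤ Y * (1 + Real.log Y) ^ c := by positivity
  have hblock := BPair_block N₀ N₁ h0 hC₀ hC₁ hη hκ hA0 hA1 Y hY
  set T : ℕ → Set (α₀ × α₁) := fun j =>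
    {p : α₀ × α₁ | (N₀ p.1 : ℝ) * (N₁ p.2 : ℝ) ^ κ ≤ Y ∧ 2 ^ j ≤ N₁ p.2 ∧ N₁ p.2 < 2 ^ (j + 1)} with hT
  have hfin : ∀ j, (T j).Finite := fun j => (hblock j).1
  have hsub : {p : α₀ × α₁ | (N₀ p.1 : ℝ) * (N₁ p.2 : ℝ) ^ κ ≤ Y ∧ 2 ^ J ≤ N₁ p.2} ⊆
      ((Finset.Ico J (⌊Y⌋₊ + 1)).biUnion fun j => (hfin j).toFinset : Finset (α₀ × α₁)) := by
    rintro p ⟨hp, hJ⟩
    have hne : N₁ p.2 ≠ 0 := by have := h1 p.2; omega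
    have hle : (N₁ p.2 : ℝ) ≤ Y := by
      have ha : (1 : ℝ) ≤ N₀ p.1 := by exact_mod_cast h0 p.1
      have hb : (1 : ℝ) ≤ N₁ p.2 := by exact_mod_cast h1 p.2
      have hc : (N₁ p.2 : ℝ) ≤ (N₁ p.2 : ℝ) ^ κ := by
        have := Real.rpow_le_rpow_of_exponent_le hb hκ1
        rwa [Real.rpow_one] at this
      have hd : (N₁ p.2 : ℝ) ^ κ ≤ (N₀ p.1 : ℝ) * (N₁ p.2 : ℝ) ^ κ := by
        apply le_mul_of_one_le_left _ ha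
        positivity
      linarith
    have hlo : 2 ^ Nat.log 2 (N₁ p.2) ≤ N₁ p.2 := Nat.pow_log_le_self 2 hne
    have hhi : N₁ p.2 < 2 ^ (Nat.log 2 (N₁ p.2) + 1) := Nat.lt_pow_succ_log_self (by norm_num) _
    have hJlog : J ≤ Nat.log 2 (N₁ p.2) := Nat.le_log_of_pow_le (by norm_num) hJ
    have hM : Nat.log 2 (N₁ p.2) < ⌊Y⌋₊ + 1 := by
      have ha : N₁ p.2 ≤ ⌊Y⌋₊ := Nat.le_floor hle
      have hb : Nat.log 2 (N₁ p.2) ≤ N₁ p.2 := Nat.log_le_self 2 _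
      omega
    rw [Finset.mem_coe, Finset.mem_biUnion]
    refine ⟨Nat.log 2 (N₁ p.2), Finset.mem_Ico.mpr ⟨hJlog, hM⟩, ?_⟩
    rw [Set.Finite.mem_toFinset]
    exact ⟨hp, hlo, hhi⟩
  refine ⟨(Finset.finite_toSet _).subset hsub, ?_⟩
  have hcard : {p : α₀ × α₁ | (N₀ p.1 : ℝ) * (N₁ p.2 : ℝ) ^ κ ≤ Y ∧ 2 ^ J ≤ N₁ p.2}.ncard ≤
      ∑ j ∈ Finset.Ico J (⌊Y⌋₊ + 1), (T j).ncard := by
    refine (Set.ncard_le_ncard hsub (Finset.finite_toSet _)).trans ?_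
    rw [Set.ncard_coe_finset]
    refine Finset.card_biUnion_le.trans ?_
    apply Finset.sum_le_sum
    intro j _
    rw [Set.ncard_eq_toFinset_card _ (hfin j)]
  have hcard' : ({p : α₀ × α₁ | (N₀ p.1 : ℝ) * (N₁ p.2 : ℝ) ^ κ ≤ Y ∧ 2 ^ J ≤ N₁ p.2}.ncard : ℝ) ≤
      ∑ j ∈ Finset.Ico J (⌊Y⌋₊ + 1), ((T j).ncard : ℝ) := by
    exact_mod_cast hcard
  refine hcard'.trans ?_
  calc ∑ j ∈ Finset.Ico J (⌊Y⌋₊ + 1), ((T j).ncard : ℝ)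
      ≤ ∑ j ∈ Finset.Ico J (⌊Y⌋₊ + 1),
          (C₀ * C₁ * 2 ^ (1 + η)) * (Y * (1 + Real.log Y) ^ c) * ((2 : ℝ) ^ (1 + η - κ)) ^ j :=
        Finset.sum_le_sum fun j _ => (hblock j).2
    _ = (C₀ * C₁ * 2 ^ (1 + η)) * (Y * (1 + Real.log Y) ^ c) *
          ∑ j ∈ Finset.Ico J (⌊Y⌋₊ + 1), ((2 : ℝ) ^ (1 + η - κ)) ^ j := by rw [Finset.mul_sum]
    _ ≤ (C₀ * C₁ * 2 ^ (1 + η)) * (Y * (1 + Real.log Y) ^ c) *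
          (((2 : ℝ) ^ (1 + η - κ)) ^ J / (1 - (2 : ℝ) ^ (1 + η - κ))) := by
        apply mul_le_mul_of_nonneg_left (BPair_geom hr0 hr1 _ _)
        positivity
    _ = (C₀ * C₁ * 2 ^ (1 + η)) / (1 - (2 : ℝ) ^ (1 + η - κ)) * ((2 : ℝ) ^ (1 + η - κ)) ^ J *
          (Y * (1 + Real.log Y) ^ c) := by ring

end StarkR
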