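import Pool.Agent.Lib.MP_d9bae3_nt.SK.Defs

/-!
# Tame inertia groups of elementary abelian extensions
-/

set_option linter.unusedSectionVars false

namespace StarkR

open NumberField IsDedekindDomain
open scoped Pointwise

variable {F H : Type} [Field F] [NumberField F] [Field H] [NumberField H] [Algebra F H]

section fix

variable {Q : Ideal (𝓞 H)} {σ : Gal(H/F)}

theorem smul_mem_of_inertia (hσ : σ ∈ Q.inertia Gal(H/F)) {x : 𝓞 H} (hx : x ∈ Q) : σ • x ∈ Q := by
  have h := hσ x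
  have h2 : σ • x = (σ • x - x) + x := by ring
  rw [h2]
  exact Q.add_mem h hx

theorem smul_mem_pow (hσ : σ ∈ Q.inertia Gal(H/F)) (m : ℕ) {x : 𝓞 H} (hx : x ∈ Q ^ m) : σ • x ∈ Q ^ m := by
  induction m generalizing x with
  | zero => simp
  | succ m ih =>
    rw [pow_succ] at hx ⊢
    refine Submodule.mul_induction_on hx (fun a ha b hb => ?_) (fun a b ha hb => ?_)
    · rw [smul_mul']
      exact Ideal.mul_mem_mul (ih ha) (smul_mem_of_inertia hσ hb)
    · rw [smul_add]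
      exact Ideal.add_mem _ ha hb

theorem smul_sub_mem_pow (hQ : Q.IsPrime) (hQ0 : Q ≠ ⊥) {π : 𝓞 H} (hπ : π ∈ Q) (hπ2 : π ∉ Q ^ 2)
    (hσ : σ ∈ Q.inertia Gal(H/F)) (h1 : σ • π - π ∈ Q ^ 2) (m : ℕ) {y : 𝓞 H} (hy : y ∈ Q ^ m) : σ • y - y ∈ Q ^ (m + 1) := by
  have hC1 : ∀ y ∈ Q, σ • y - y ∈ Q ^ 2 := by
    intro y hy
    obtain ⟨d, e, he, hde⟩ := Ideal.exists_mul_add_mem_pow_succ (P := Q) hQ0 (i := 1) π y (by simpa using hπ) hπ2 (by simpa using hy)
    have h2 : σ • y - y = (σ • π - π) * (σ • d) + π * (σ • d - d) + (σ • e - e) := by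
      rw [← hde, smul_add, smul_mul']
      ring
    rw [h2]
    refine Ideal.add_mem _ (Ideal.add_mem _ (Ideal.mul_mem_right _ _ h1) ?_) (Ideal.sub_mem _ (smul_mem_pow hσ 2 he) he)
    rw [pow_two]
    exact Ideal.mul_mem_mul hπ (hσ d)
  induction m generalizing y with
  | zero => simpa using hσ y
  | succ m ih =>
    rw [pow_succ] at hy
    refine Submodule.mul_induction_on hy (fun a ha b hb => ?_) (fun a b ha hb => ?_)
    · have h2 : σ • (a * b) - a * b = (σ • a - a) * (σ • b) + a * (σ • b - b) := by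
        rw [smul_mul']
        ring
      rw [h2]
      refine Ideal.add_mem _ ?_ ?_
      · rw [pow_succ]
        exact Ideal.mul_mem_mul (ih ha) (smul_mem_of_inertia hσ hb)
      · have h3 : Q ^ (m + 1 + 1) = Q ^ m * Q ^ 2 := by rw [← pow_add]
        rw [h3]
        exact Ideal.mul_mem_mul ha (hC1 b hb)
    · have h2 : σ • (a + b) - (a + b) = (σ • a - a) + (σ • b - b) := by
        rw [smul_add]
        ring
      rw [h2]
      exact Ideal.add_mem _ ha hb

/-- an element of the inertia group of `Q` of an order prime to `Q` which fixes a uniformizer modulo `Q²` is trivial -/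
theorem inertia_fix (hQ : Q.IsPrime) (hQ0 : Q ≠ ⊥) {π : 𝓞 H} (hπ : π ∈ Q) (hπ2 : π ∉ Q ^ 2)
    {l : ℕ} (hl : ((l : ℕ) : 𝓞 H) ∉ Q) (hσ : σ ∈ Q.inertia Gal(H/F)) (hσl : σ ^ l = 1) (h1 : σ • π - π ∈ Q ^ 2) : σ = 1 := by
  have hP : ∀ m : ℕ, ∀ x : 𝓞 H, σ • x - x ∈ Q ^ (m + 1) := by
    intro m
    induction m with
    | zero => intro x; simpa using hσ x
    | succ m ih =>
      intro x
      have h2 : ∀ j : ℕ, σ ^ j • x - (x + (j : 𝓞 H) * (σ • x - x)) ∈ Q ^ (m + 1 + 1) := by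
        intro j
        induction j with
        | zero => simp
        | succ j ihj =>
          have h3 : σ ^ (j + 1) • x - (x + ((j + 1 : ℕ) : 𝓞 H) * (σ • x - x)) =
              σ • (σ ^ j • x - (x + (j : 𝓞 H) * (σ • x - x))) + (j : 𝓞 H) * (σ • (σ • x - x) - (σ • x - x)) := by
            have h4 : σ • (j : 𝓞 H) = (j : 𝓞 H) := map_natCast (MulSemiringAction.toRingHom Gal(H/F) (𝓞 H) σ) j
            rw [pow_succ', mul_smul, smul_sub, smul_add, smul_mul', h4]
            push_cast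
            ring
          rw [h3]
          exact Ideal.add_mem _ (smul_mem_pow hσ _ ihj) (Ideal.mul_mem_left _ _ (smul_sub_mem_pow hQ hQ0 hπ hπ2 hσ h1 _ (ih x)))
      have h3 := h2 l
      rw [hσl, one_smul] at h3
      have h4 : (l : 𝓞 H) * (σ • x - x) ∈ Q ^ (m + 1 + 1) := by
        have h5 : (l : 𝓞 H) * (σ • x - x) = -(x - (x + (l : 𝓞 H) * (σ • x - x))) := by ring
        rw [h5]
        exact Ideal.neg_mem_iff _ |>.2 h3
      exact (Ideal.IsPrime.mul_mem_pow Q h4).resolve_left hl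
  have h2 : ∀ x : 𝓞 H, σ • x = x := by
    intro x
    have h3 : σ • x - x ∈ (⨅ i : ℕ, Q ^ i : Ideal (𝓞 H)) := by
      rw [Submodule.mem_iInf]
      intro i
      exact Ideal.pow_le_pow_right (Nat.le_succ i) (hP i x)
    rw [Ideal.iInf_pow_eq_bot_of_isDomain Q hQ.ne_top] at h3
    exact sub_eq_zero.1 h3
  refine AlgEquiv.ext fun y => ?_
  obtain ⟨a, b, hb, hab⟩ := IsFractionRing.div_surjective (A := 𝓞 H) y
  have h4 : ∀ x : 𝓞 H, σ (algebraMap (𝓞 H) H x) = algebraMap (𝓞 H) H x := fun x => by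
    have h5 : algebraMap (𝓞 H) H (σ • x) = algebraMap (𝓞 H) H x := congrArg (algebraMap (𝓞 H) H) (h2 x)
    exact h5
  rw [← hab, map_div₀, h4, h4]
  rfl

end fix

/-- the inertia group of a prime which does not divide `l` in a commutative group of exponent `l` has at most `l` elements -/
theorem card_inertia_le {Q : Ideal (𝓞 H)} (hQ : Q.IsPrime) (hQ0 : Q ≠ ⊥) {l : ℕ} (hl0 : 0 < l) (hl : ((l : ℕ) : 𝓞 H) ∉ Q)
    (hexp : ∀ σ : Gal(H/F), σ ^ l = 1) : Nat.card (Q.inertia Gal(H/F)) ≤ l := by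
  classical
  obtain ⟨π, hπ, hπ2⟩ : ∃ π ∈ Q, π ∉ Q ^ 2 := by
    have h1 : Q ^ 2 < Q := by
      have h2 := Ideal.pow_right_strictAnti Q hQ0 hQ.ne_top (show 1 < 2 by norm_num)
      simpa using h2
    exact Set.exists_of_ssubset h1
  have hex : ∀ σ : Q.inertia Gal(H/F), ∃ d : 𝓞 H, σ.1 • π - π * d ∈ Q ^ 2 := by
    intro σ
    obtain ⟨d, e, he, hde⟩ := Ideal.exists_mul_add_mem_pow_succ (P := Q) hQ0 (i := 1) π (σ.1 • π) (by simpa using hπ) hπ2
      (by simpa using smul_mem_of_inertia σ.2 hπ)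
    refine ⟨d, ?_⟩
    rw [← hde]
    simpa using he
  choose d hd using hex
  have huniq : ∀ a b : 𝓞 H, π * a - π * b ∈ Q ^ 2 → a - b ∈ Q := by
    intro a b hab
    rw [← mul_sub] at hab
    exact Ideal.mem_prime_of_mul_mem_pow hQ0 hπ2 hab
  have hmul : ∀ σ τ : Q.inertia Gal(H/F), d (σ * τ) - d σ * d τ ∈ Q := by
    intro σ τ
    refine huniq _ _ ?_
    have h1 : π * d (σ * τ) - π * (d σ * d τ) = -((σ * τ).1 • π - π * d (σ * τ)) + (σ.1 • (τ.1 • π - π * d τ)) +
        (σ.1 • π - π * d σ) * (σ.1 • d τ) + π * (d σ * (σ.1 • d τ - d τ)) := by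
      rw [Subgroup.coe_mul, mul_smul, smul_sub, smul_mul']
      ring
    rw [h1]
    refine Ideal.add_mem _ (Ideal.add_mem _ (Ideal.add_mem _ ?_ ?_) ?_) ?_
    · exact (Ideal.neg_mem_iff _).2 (hd _)
    · exact smul_mem_pow σ.2 2 (hd τ)
    · exact Ideal.mul_mem_right _ _ (hd σ)
    · rw [pow_two]
      exact Ideal.mul_mem_mul hπ (Ideal.mul_mem_left _ _ (σ.2 _))
  have hone : d 1 - 1 ∈ Q := by
    refine huniq _ _ ?_
    have h1 := hd 1
    have h2 : π * d 1 - π * 1 = -((1 : Q.inertia Gal(H/F)).1 • π - π * d 1) := by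
      rw [Subgroup.coe_one, one_smul]
      ring
    rw [h2]
    exact (Ideal.neg_mem_iff _).2 h1
  let f : Q.inertia Gal(H/F) →* (𝓞 H ⧸ Q) :=
    { toFun := fun σ => Ideal.Quotient.mk Q (d σ)
      map_one' := by
        rw [← map_one (Ideal.Quotient.mk Q), Ideal.Quotient.eq]
        exact hone
      map_mul' := fun σ τ => by
        rw [← map_mul, Ideal.Quotient.eq]
        exact hmul σ τ }
  have hf1 : ∀ σ, f σ = 1 → σ = 1 := by
    intro σ h
    have h1 : d σ - 1 ∈ Q := by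
      rw [← Ideal.Quotient.eq, map_one]
      exact h
    refine Subtype.ext (inertia_fix hQ hQ0 hπ hπ2 hl σ.2 (hexp σ.1) ?_)
    have h2 : σ.1 • π - π = (σ.1 • π - π * d σ) + π * (d σ - 1) := by ring
    rw [h2]
    refine Ideal.add_mem _ (hd σ) ?_
    rw [pow_two]
    exact Ideal.mul_mem_mul hπ h1
  have hinj : Function.Injective f := by
    intro σ τ h
    have h1 : f (σ * τ⁻¹) = 1 := by
      rw [map_mul, h, ← map_mul, mul_inv_cancel, map_one]
    exact mul_inv_eq_one.1 (hf1 _ h1)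
  have hdom : IsDomain (𝓞 H ⧸ Q) := Ideal.Quotient.isDomain Q
  have hmaps : ∀ σ, f σ ∈ ((Polynomial.nthRoots l (1 : 𝓞 H ⧸ Q)).toFinset : Set (𝓞 H ⧸ Q)) := by
    intro σ
    rw [Finset.mem_coe, Multiset.mem_toFinset, Polynomial.mem_nthRoots hl0, ← map_pow]
    have h1 : σ ^ l = 1 := Subtype.ext (by rw [Subgroup.coe_pow, Subgroup.coe_one]; exact hexp σ.1)
    rw [h1, map_one]
  have hcard : Nat.card (Q.inertia Gal(H/F)) ≤ ((Polynomial.nthRoots l (1 : 𝓞 H ⧸ Q)).toFinset).card := by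
    have h1 : Nat.card (Q.inertia Gal(H/F)) = (Set.range f).ncard := by
      rw [← Set.image_univ, Set.ncard_image_of_injective _ hinj, Set.ncard_univ]
    rw [h1, ← Set.ncard_coe_finset]
    refine Set.ncard_le_ncard ?_ (Finset.finite_toSet _)
    rintro _ ⟨σ, rfl⟩
    exact hmaps σ
  exact hcard.trans ((Multiset.toFinset_card_le _).trans (Polynomial.card_nthRoots l 1))

end StarkR
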