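import Pool.Agent.Lib.MP_d9bae3_nt.NG.GB

/-!
# Module NAG-Conj: conjugate primes

Elementary facts about `cjP τ Q` (ideal `τ • Q.asIdeal`) and `Q.under`.
* `cjP_under_res`: `x ∈ (cjP τ Q).under ↔ algebraMap x ∈ τ • Q ↔ τ⁻¹ • algebraMap x ∈ Q ↔ algebraMap (τ|_K⁻¹ • x) ∈ Q` (`AlgEquiv.restrictNormal_commutes`).
* `exists_cjP`: the Galois group is transitive on the primes above a prime (`Ideal.exists_smul_eq_of_under_eq`, `IsInvariant`, or see SG/GRam.lean, SG/GDec.lean).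
* `nm_under_dvd`: `𝓞 K / Q.under → 𝓞 L / Q` is an injection of finite fields, so the norm of `Q` is a power of the norm of `Q.under`.
* `stab_deg1`: `N(q) = N(q ∩ F)`, so `𝓞 F / (q ∩ F) → 𝓞 K / q` is bijective (finite sets of the same size, injective); `σ` in the stabiliser of `q` fixes the image of `𝓞 F`, so `σ x - x ∈ q` for all `x`; `σ z = z^j` is a root of unity, `z^j - z ∈ q`; if `z^j ≠ z` then `d ∈ q`
  (`0 = ∑_{k<d} ω^k ≡ d` for `ω = z^(j-1) ≠ 1`, as in SK/Dec.lean).  So `σ z = z`, `σ = 1` by `hgen`.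
* `deg1_of_stab`: `Gal(L/F)`: the stabiliser of `Q` maps onto the automorphism group of `(𝓞 L / Q) / (𝓞 F / p)` (`Ideal.Quotient.stabilizerHom_surjective`), and acts trivially on the image of `𝓞 K / q`; so every automorphism of the (Galois) extension of finite fields `(𝓞 L / Q)/(𝓞 F / p)` fixes `𝓞 K / q`, hence
  `𝓞 K / q = 𝓞 F / p` and the norms are equal.
-/

set_option linter.unusedSectionVars false

namespace StarkR

open NumberField IsDedekindDomain Filter Topology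
open scoped Pointwise

section one

variable {F L : Type} [Field F] [NumberField F] [Field L] [NumberField L] [Algebra F L]

private theorem conj_scc : SMulCommClass Gal(L/F) (𝓞 F) (𝓞 L) := by
  refine ⟨fun σ r x => ?_⟩
  apply RingOfIntegers.ext
  have h1 : ((σ • (r • x) : 𝓞 L) : L) = σ ((r • x : 𝓞 L) : L) := rfl
  have h2 : ((r • (σ • x) : 𝓞 L) : L) = (algebraMap F L (r : F)) * σ (x : L) := rfl
  have h3 : ((r • x : 𝓞 L) : L) = (algebraMap F L (r : F)) * (x : L) := rfl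
  rw [h1, h2, h3, map_mul, AlgEquiv.commutes]

private theorem conj_smul_algebraMap (σ : Gal(L/F)) (x : 𝓞 F) : σ • algebraMap (𝓞 F) (𝓞 L) x = algebraMap (𝓞 F) (𝓞 L) x := by
  have := conj_scc (F := F) (L := L)
  exact smul_algebraMap σ x

theorem cjP_one (Q : Prm L) : cjP (1 : Gal(L/F)) Q = Q := by
  apply HeightOneSpectrum.ext
  exact one_smul _ Q.asIdeal

theorem cjP_mul (τ σ : Gal(L/F)) (Q : Prm L) : cjP (τ * σ) Q = cjP τ (cjP σ Q) := by
  apply HeightOneSpectrum.ext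
  exact mul_smul τ σ Q.asIdeal

theorem smul_mem_cjP (τ : Gal(L/F)) (Q : Prm L) (x : 𝓞 L) : τ • x ∈ (cjP τ Q).asIdeal ↔ x ∈ Q.asIdeal := by
  exact Ideal.smul_mem_pointwise_smul_iff

theorem nm_cjP (τ : Gal(L/F)) (Q : Prm L) : nm (cjP τ Q) = nm Q := by
  unfold nm
  rw [Ideal.absNorm_apply, Submodule.cardQuot_apply, Ideal.absNorm_apply, Submodule.cardQuot_apply]
  exact Nat.card_congr (Ideal.quotientEquiv Q.asIdeal (cjP τ Q).asIdeal
    (MulSemiringAction.toRingEquiv Gal(L/F) (𝓞 L) τ) rfl).symm.toEquiv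

private theorem mem_cjP (τ : Gal(L/F)) (Q : Prm L) (x : 𝓞 L) : x ∈ (cjP τ Q).asIdeal ↔ τ⁻¹ • x ∈ Q.asIdeal := by
  exact Ideal.mem_pointwise_smul_iff_inv_smul_mem

theorem cjP_under (τ : Gal(L/F)) (Q : Prm L) : (cjP τ Q).under (𝓞 F) = Q.under (𝓞 F) := by
  apply HeightOneSpectrum.ext
  ext x
  change algebraMap (𝓞 F) (𝓞 L) x ∈ (cjP τ Q).asIdeal ↔ algebraMap (𝓞 F) (𝓞 L) x ∈ Q.asIdeal
  rw [mem_cjP, conj_smul_algebraMap]

theorem exists_cjP [IsGalois F L] {Q Q' : Prm L} (h : Q.under (𝓞 F) = Q'.under (𝓞 F)) : ∃ τ : Gal(L/F), cjP τ Q = Q' := by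
  have := Q.isPrime
  have := Q'.isPrime
  have := conj_scc (F := F) (L := L)
  have h1 : Q.asIdeal.under (𝓞 F) = Q'.asIdeal.under (𝓞 F) := congrArg HeightOneSpectrum.asIdeal h
  obtain ⟨τ, hτ⟩ := Algebra.IsInvariant.exists_smul_of_under_eq (𝓞 F) (𝓞 L) Gal(L/F) Q.asIdeal Q'.asIdeal h1
  exact ⟨τ, HeightOneSpectrum.ext hτ.symm⟩

theorem goodPrm_cjP {e : ℕ} (τ : Gal(L/F)) {Q : Prm L} (h : GoodPrm F e Q) : GoodPrm F e (cjP τ Q) := by
  refine ⟨fun h1 => h.1 ?_, ?_⟩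
  · rw [← smul_mem_cjP τ]
    have h2 : τ • (e : 𝓞 L) = (e : 𝓞 L) := by
      have h3 := map_natCast (MulSemiringAction.toRingEquiv Gal(L/F) (𝓞 L) τ) e
      exact h3
    rw [h2]
    exact h1
  · change MulAction.stabilizer Gal(L/F) (τ • Q.asIdeal) = ⊥
    rw [MulAction.stabilizer_smul_eq_stabilizer_map_conj, h.2, Subgroup.map_bot]

theorem stab_deg1 {d : ℕ} (hd : 0 < d) {z : L} (hz : IsPrimitiveRoot z d) (hgen : IntermediateField.adjoin F {z} = ⊤)
    {q : Prm L} (hdq : (d : 𝓞 L) ∉ q.asIdeal) (hq : nm q = nm (q.under (𝓞 F))) : MulAction.stabilizer Gal(L/F) q.asIdeal = ⊥ := by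
  classical
  -- the residue fields are equal
  have hfin : Finite (𝓞 L ⧸ q.asIdeal) := Ring.HasFiniteQuotients.finiteQuotient q.ne_bot
  have hinjq : Function.Injective (Ideal.quotientMap q.asIdeal (algebraMap (𝓞 F) (𝓞 L)) (le_refl (q.under (𝓞 F)).asIdeal)) :=
    Ideal.quotientMap_injective
  have hbij : Function.Bijective (Ideal.quotientMap q.asIdeal (algebraMap (𝓞 F) (𝓞 L)) (le_refl (q.under (𝓞 F)).asIdeal)) := by
    refine hinjq.bijective_of_nat_card_le ?_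
    unfold nm at hq
    rw [Ideal.absNorm_apply, Submodule.cardQuot_apply, Ideal.absNorm_apply, Submodule.cardQuot_apply] at hq
    exact hq.le
  have hres : ∀ x : 𝓞 L, ∃ a : 𝓞 F, algebraMap (𝓞 F) (𝓞 L) a - x ∈ q.asIdeal := by
    intro x
    obtain ⟨y, hy⟩ := hbij.2 (Ideal.Quotient.mk q.asIdeal x)
    obtain ⟨a, rfl⟩ := Ideal.Quotient.mk_surjective y
    rw [Ideal.quotientMap_mk] at hy
    exact ⟨a, Ideal.Quotient.eq.1 hy⟩
  rw [eq_bot_iff]
  intro σ hσ
  rw [Subgroup.mem_bot]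
  have hσq : σ • q.asIdeal = q.asIdeal := MulAction.mem_stabilizer_iff.1 hσ
  have hine : ∀ x : 𝓞 L, σ • x - x ∈ q.asIdeal := by
    intro x
    obtain ⟨a, ha⟩ := hres x
    have h1 : σ • (algebraMap (𝓞 F) (𝓞 L) a - x) ∈ q.asIdeal := by
      rw [← hσq]
      exact Ideal.smul_mem_pointwise_smul _ _ _ ha
    rw [smul_sub, conj_smul_algebraMap] at h1
    have h2 := q.asIdeal.sub_mem ha h1
    have h3 : algebraMap (𝓞 F) (𝓞 L) a - x - (algebraMap (𝓞 F) (𝓞 L) a - σ • x) = σ • x - x := by ring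
    rwa [h3] at h2
  -- the root of unity
  obtain ⟨Z, hZ⟩ : ∃ Z : 𝓞 L, algebraMap (𝓞 L) L Z = z :=
    (IsIntegralClosure.isIntegral_iff (A := 𝓞 L)).1 (hz.isIntegral hd)
  have hinj : Function.Injective (algebraMap (𝓞 L) L) := FaithfulSMul.algebraMap_injective _ _
  have hZd : Z ^ d = 1 := by
    apply hinj
    rw [map_pow, hZ, map_one, hz.pow_eq_one]
  have hσZ : σ • Z = Z := by
    by_contra hne
    set ω : 𝓞 L := (σ • Z) * Z ^ (d - 1) with hω
    have hZ1 : Z * Z ^ (d - 1) = 1 := by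
      rw [← pow_succ', Nat.sub_add_cancel hd, hZd]
    have hω1 : ω - 1 ∈ q.asIdeal := by
      have h1 : ω - 1 = (σ • Z - Z) * Z ^ (d - 1) := by
        rw [hω, sub_mul, hZ1]
      rw [h1]
      exact Ideal.mul_mem_right _ _ (hine Z)
    have hωne : ω ≠ 1 := by
      intro h1
      apply hne
      have h2 : ω * Z = σ • Z := by
        rw [hω, mul_assoc, ← pow_succ, Nat.sub_add_cancel hd, hZd, mul_one]
      rw [← h2, h1, one_mul]
    have hωd : ω ^ d = 1 := by
      rw [hω, mul_pow, ← smul_pow', hZd, smul_one, one_mul, ← pow_mul, mul_comm (d - 1) d, pow_mul, hZd, one_pow]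
    have hsum : ∑ k ∈ Finset.range d, ω ^ k = 0 := by
      have h1 := mul_geom_sum ω d
      rw [hωd, sub_self] at h1
      exact (mul_eq_zero.1 h1).resolve_left (sub_ne_zero.2 hωne)
    apply hdq
    have h4 : Ideal.Quotient.mk q.asIdeal ω = 1 := by
      rw [← map_one (Ideal.Quotient.mk q.asIdeal)]
      exact Ideal.Quotient.eq.2 hω1
    have h5 := congrArg (Ideal.Quotient.mk q.asIdeal) hsum
    rw [map_sum, map_zero] at h5
    have h6 : ∑ k ∈ Finset.range d, Ideal.Quotient.mk q.asIdeal (ω ^ k) = (d : 𝓞 L ⧸ q.asIdeal) := by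
      rw [Finset.sum_congr rfl (fun k _ => by rw [map_pow, h4, one_pow]), Finset.sum_const, Finset.card_range, nsmul_eq_mul, mul_one]
    rw [h6] at h5
    rw [← Ideal.Quotient.eq_zero_iff_mem, map_natCast]
    exact h5
  have hσz : σ z = z := by
    rw [← hZ]
    have h1 : algebraMap (𝓞 L) L (σ • Z) = σ • algebraMap (𝓞 L) L Z := algebraMap.smul' σ Z L
    rw [hσZ] at h1
    exact h1.symm
  have h2 : IntermediateField.adjoin F {z} ≤ IntermediateField.fixedField (Subgroup.zpowers σ) := by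
    rw [IntermediateField.adjoin_le_iff]
    intro x hx
    rw [Set.mem_singleton_iff] at hx
    rw [hx, SetLike.mem_coe, IntermediateField.mem_fixedField_iff]
    intro f hf
    obtain ⟨k, rfl⟩ := Subgroup.mem_zpowers_iff.mp hf
    have h3 : σ ∈ MulAction.stabilizer Gal(L/F) z := hσz
    exact Subgroup.zpow_mem _ h3 k
  rw [hgen, top_le_iff] at h2
  ext x
  have h3 : x ∈ IntermediateField.fixedField (Subgroup.zpowers σ) := by
    rw [h2]; exact IntermediateField.mem_top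
  rw [IntermediateField.mem_fixedField_iff] at h3
  exact h3 σ (Subgroup.mem_zpowers σ)

end one

section two

variable {F K L : Type} [Field F] [NumberField F] [Field K] [NumberField K] [Field L] [NumberField L]
variable [Algebra F K] [Algebra K L] [Algebra F L] [IsScalarTower F K L]

variable (F) in
theorem under_under (Q : Prm L) : (Q.under (𝓞 K)).under (𝓞 F) = Q.under (𝓞 F) := by
  apply HeightOneSpectrum.ext
  change (Q.asIdeal.under (𝓞 K)).under (𝓞 F) = Q.asIdeal.under (𝓞 F)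
  rw [Ideal.under_under]

theorem exists_over (q : Prm K) : ∃ Q : Prm L, Q.under (𝓞 K) = q := by
  have := q.isPrime
  obtain ⟨P', h1, h2⟩ := Ideal.exists_ideal_over_prime_of_isIntegral_of_isDomain (S := 𝓞 L) q.asIdeal (by
    rw [(RingHom.injective_iff_ker_eq_bot _).1 (FaithfulSMul.algebraMap_injective (𝓞 K) (𝓞 L))]
    exact bot_le)
  have hne : P' ≠ ⊥ := by
    rintro rfl
    apply q.ne_bot
    rw [← h2]
    exact Ideal.under_bot (𝓞 K) (𝓞 L)
  exact ⟨⟨P', h1, hne⟩, HeightOneSpectrum.ext h2⟩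

variable (K) in
theorem nm_under_dvd (Q : Prm L) : nm (Q.under (𝓞 K)) ∣ nm Q := by
  have hinjq : Function.Injective (Ideal.quotientMap Q.asIdeal (algebraMap (𝓞 K) (𝓞 L)) (le_refl (Q.under (𝓞 K)).asIdeal)) :=
    Ideal.quotientMap_injective
  unfold nm
  rw [Ideal.absNorm_apply, Submodule.cardQuot_apply, Ideal.absNorm_apply, Submodule.cardQuot_apply]
  exact AddSubgroup.card_dvd_of_injective
    (Ideal.quotientMap Q.asIdeal (algebraMap (𝓞 K) (𝓞 L)) (le_refl (Q.under (𝓞 K)).asIdeal)).toAddMonoidHom hinjq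

variable (K) in
theorem nm_under_of_prime {Q : Prm L} (h : (nm Q).Prime) : nm (Q.under (𝓞 K)) = nm Q := by
  refine ((Nat.dvd_prime h).1 (nm_under_dvd K Q)).resolve_left ?_
  intro h1
  exact (Q.under (𝓞 K)).isPrime.ne_top (Ideal.absNorm_eq_one_iff.1 h1)

private theorem conj_res_smul [Normal F K] (τ : Gal(L/F)) (x : 𝓞 K) :
    algebraMap (𝓞 K) (𝓞 L) (AlgEquiv.restrictNormalHom K τ • x) = τ • algebraMap (𝓞 K) (𝓞 L) x := by
  have hinj : Function.Injective (algebraMap (𝓞 L) L) := FaithfulSMul.algebraMap_injective _ _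
  have hmap : ∀ z : 𝓞 K, algebraMap (𝓞 L) L (algebraMap (𝓞 K) (𝓞 L) z) = algebraMap K L (algebraMap (𝓞 K) K z) := by
    intro z
    rw [← IsScalarTower.algebraMap_apply (𝓞 K) (𝓞 L) L, IsScalarTower.algebraMap_apply (𝓞 K) K L]
  apply hinj
  rw [algebraMap.smul' τ _ L, hmap, hmap, algebraMap.smul' _ x K]
  exact AlgEquiv.restrictNormal_commutes τ K _

theorem cjP_under_res [Normal F K] (τ : Gal(L/F)) (Q : Prm L) :
    (cjP τ Q).under (𝓞 K) = cjP (AlgEquiv.restrictNormalHom K τ) (Q.under (𝓞 K)) := by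
  apply HeightOneSpectrum.ext
  ext x
  change algebraMap (𝓞 K) (𝓞 L) x ∈ (cjP τ Q).asIdeal ↔ x ∈ (cjP (AlgEquiv.restrictNormalHom K τ) (Q.under (𝓞 K))).asIdeal
  rw [mem_cjP, mem_cjP, ← conj_res_smul, map_inv]
  exact Iff.rfl

theorem algebraMap_smul [Normal F K] (τ : Gal(L/F)) (x : 𝓞 K) :
    algebraMap (𝓞 K) (𝓞 L) (AlgEquiv.restrictNormalHom K τ • x) = τ • algebraMap (𝓞 K) (𝓞 L) x := by
  exact conj_res_smul τ x

theorem deg1_of_stab [IsGalois F L] [Normal F K] {Q : Prm L}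
    (h : ∀ σ ∈ MulAction.stabilizer Gal(L/F) Q.asIdeal, AlgEquiv.restrictNormalHom K σ = 1) :
    nm (Q.under (𝓞 K)) = nm (Q.under (𝓞 F)) := by
  classical
  have := conj_scc (F := F) (L := L)
  have hQp : Q.asIdeal.IsPrime := Q.isPrime
  have hfin : Finite (𝓞 L ⧸ Q.asIdeal) := Ring.HasFiniteQuotients.finiteQuotient Q.ne_bot
  obtain ⟨σ, hσ⟩ := IsArithFrobAt.exists_of_isInvariant (𝓞 F) Gal(L/F) Q.asIdeal
  have hσ1 : AlgEquiv.restrictNormalHom K σ = 1 := h σ hσ.mem_stabilizer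
  have hN : Nat.card (𝓞 F ⧸ Q.asIdeal.under (𝓞 F)) = nm (Q.under (𝓞 F)) := rfl
  set N : ℕ := nm (Q.under (𝓞 F)) with hNdef
  set q : Prm K := Q.under (𝓞 K) with hqdef
  have hN0 : N ≠ 0 := by
    rw [hNdef]
    unfold nm
    rw [Ne, Ideal.absNorm_eq_zero_iff]
    exact (Q.under (𝓞 F)).ne_bot
  have hN1 : N ≠ 1 := by
    rw [hNdef]
    unfold nm
    rw [Ne, Ideal.absNorm_eq_one_iff]
    exact (Q.under (𝓞 F)).isPrime.ne_top
  have hroot : ∀ x : 𝓞 K, x - x ^ N ∈ q.asIdeal := by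
    intro x
    change algebraMap (𝓞 K) (𝓞 L) (x - x ^ N) ∈ Q.asIdeal
    have h1 : σ • (algebraMap (𝓞 K) (𝓞 L) x) - (algebraMap (𝓞 K) (𝓞 L) x) ^ Nat.card (𝓞 F ⧸ Q.asIdeal.under (𝓞 F)) ∈ Q.asIdeal :=
      hσ _
    rw [hN, ← conj_res_smul, hσ1, one_smul, ← map_pow, ← map_sub] at h1
    exact h1
  -- the residue field of `K`
  have hqp : q.asIdeal.IsPrime := q.isPrime
  have hqm : q.asIdeal.IsMaximal := q.isMaximal
  have hfinK : Finite (𝓞 K ⧸ q.asIdeal) := Ring.HasFiniteQuotients.finiteQuotient q.ne_bot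
  let _ : Field (𝓞 K ⧸ q.asIdeal) := Ideal.Quotient.field q.asIdeal
  let _ : Fintype (𝓞 K ⧸ q.asIdeal) := Fintype.ofFinite _
  have hle : nm q ≤ N := by
    have h1 : nm q = Fintype.card (𝓞 K ⧸ q.asIdeal) := by
      unfold nm
      rw [Ideal.absNorm_apply, Submodule.cardQuot_apply, Nat.card_eq_fintype_card]
    rw [h1, ← Finset.card_univ]
    have hpol : (Polynomial.X ^ N - Polynomial.X : Polynomial (𝓞 K ⧸ q.asIdeal)).natDegree = N :=
      FiniteField.X_pow_card_sub_X_natDegree_eq _ (by omega)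
    have hpol0 : (Polynomial.X ^ N - Polynomial.X : Polynomial (𝓞 K ⧸ q.asIdeal)) ≠ 0 :=
      FiniteField.X_pow_card_sub_X_ne_zero _ (by omega)
    rw [← hpol]
    refine Polynomial.card_le_degree_of_subset_roots ?_
    intro y _
    obtain ⟨x, rfl⟩ := Ideal.Quotient.mk_surjective y
    rw [Polynomial.mem_roots hpol0, Polynomial.IsRoot.def, Polynomial.eval_sub, Polynomial.eval_pow, Polynomial.eval_X,
      ← map_pow, ← map_sub, Ideal.Quotient.eq_zero_iff_mem, ← neg_sub]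
    exact q.asIdeal.neg_mem (hroot x)
  have hdvd : N ∣ nm q := by
    have h1 := nm_under_dvd F q
    rw [hqdef, under_under F Q] at h1
    rw [hNdef, hqdef]
    exact h1
  have hq0 : nm q ≠ 0 := by
    unfold nm
    rw [Ne, Ideal.absNorm_eq_zero_iff]
    exact q.ne_bot
  exact le_antisymm hle (Nat.le_of_dvd (Nat.pos_of_ne_zero hq0) hdvd)

end two

end StarkR
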