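import Pool.Agent.Lib.MP_d9bae3_nt.NG.GB
import Pool.Agent.Lib.MP_d9bae3_nt.NA.PSum
import Pool.Agent.Lib.MP_d9bae3_nt.SG.GSum
import Pool.Agent.Lib.MP_d9bae3_nt.SG.NPr

/-!
# Module NAG-PPLs: the sum of 1/N(Q) over the primes with `PPL` diverges
-/

set_option linter.unusedSectionVars false

namespace StarkR

open NumberField IsDedekindDomain Filter Topology
open scoped Pointwise

variable {F L : Type} [Field F] [NumberField F] [Field L] [NumberField L] [Algebra F L]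

private theorem PPLs_finite {e : ℕ} (he : 0 < e) : {q : Prm L | (e : 𝓞 L) ∈ q.asIdeal}.Finite := by
  have h0 : Ideal.span {(e : 𝓞 L)} ≠ 0 := by
    rw [Ne, Ideal.zero_eq_bot, Ideal.span_singleton_eq_bot]
    exact_mod_cast he.ne'
  refine (Ideal.finite_factors h0).subset fun q hq => ?_
  exact Ideal.dvd_iff_le.2 ((Ideal.span_singleton_le_iff_mem _).2 hq)

/-- at most `[L:ℚ]` primes of norm `p` -/
private theorem PPLs_card (p : ℕ) (hp : p.Prime) (B : Finset (Prm L)) (hB : ∀ Q ∈ B, nm Q = p) :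
    B.card ≤ Module.finrank ℚ L := by
  classical
  have h1 : ∏ Q ∈ B, Q.asIdeal ∣ Ideal.span {(p : 𝓞 L)} := by
    refine Finset.prod_dvd_of_coprime ?_ ?_
    · intro Q _ Q' _ hne
      have h3 : Q.asIdeal ≠ Q'.asIdeal := fun h => hne (HeightOneSpectrum.ext h)
      exact Ideal.isCoprime_iff_sup_eq.2 (Q.isMaximal.coprime_of_ne Q'.isMaximal h3)
    · intro Q hQ
      rw [Ideal.dvd_span_singleton, ← hB Q hQ]
      exact Ideal.absNorm_mem Q.asIdeal
  have h2 : ∏ Q ∈ B, nm Q ∣ p ^ Module.finrank ℚ L := by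
    have h3 := map_dvd Ideal.absNorm h1
    rw [map_prod, Ideal.absNorm_span_singleton] at h3
    have h4 : (Algebra.norm ℤ (p : 𝓞 L)).natAbs = p ^ Module.finrank ℚ L := by
      have h5 : Algebra.norm ℤ (p : 𝓞 L) = (p : ℤ) ^ Module.finrank ℤ (𝓞 L) := by
        have := Algebra.norm_algebraMap (R := ℤ) (S := 𝓞 L) (p : ℤ)
        simpa using this
      rw [h5, Int.natAbs_pow, Int.natAbs_natCast, RingOfIntegers.rank]
    rw [h4] at h3
    exact h3
  have h6 : ∏ Q ∈ B, nm Q = p ^ B.card := by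
    rw [← Finset.prod_const]
    exact Finset.prod_congr rfl hB
  rw [h6] at h2
  exact (Nat.pow_dvd_pow_iff_le_right hp.one_lt).1 h2

/-- primes of prime norm over the same prime of `F` have the same norm -/
private theorem PPLs_nm (Q Q' : Prm L) (hQ : (nm Q).Prime) (hQ' : (nm Q').Prime) (h : Q.under (𝓞 F) = Q'.under (𝓞 F)) :
    nm Q = nm Q' := by
  have h1 : ((nm Q : ℕ) : 𝓞 L) ∈ Q.asIdeal := Ideal.absNorm_mem Q.asIdeal
  have h2 : ((nm Q' : ℕ) : 𝓞 L) ∈ Q'.asIdeal := Ideal.absNorm_mem Q'.asIdeal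
  have h3 : ((nm Q : ℕ) : 𝓞 L) ∈ Q'.asIdeal := by
    have h4 : ((nm Q : ℕ) : 𝓞 F) ∈ (Q.under (𝓞 F)).asIdeal := by
      show algebraMap (𝓞 F) (𝓞 L) ((nm Q : ℕ) : 𝓞 F) ∈ Q.asIdeal
      rw [map_natCast]
      exact h1
    rw [h] at h4
    have h5 : algebraMap (𝓞 F) (𝓞 L) ((nm Q : ℕ) : 𝓞 F) ∈ Q'.asIdeal := h4
    rwa [map_natCast] at h5
  by_contra hne
  have hc : Nat.Coprime (nm Q) (nm Q') := (Nat.coprime_primes hQ hQ').2 hne
  apply Q'.isPrime.ne_top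
  rw [Ideal.eq_top_iff_one]
  have h6 : IsCoprime ((nm Q : ℕ) : 𝓞 L) ((nm Q' : ℕ) : 𝓞 L) := hc.cast
  obtain ⟨a, b, hab⟩ := h6
  rw [← hab]
  exact Q'.asIdeal.add_mem (Ideal.mul_mem_left _ _ h3) (Ideal.mul_mem_left _ _ h2)

/-- one element in every fibre of a map -/
private theorem PPLs_choose {α β : Type} (A : Finset α) (f : α → β) (w : α → ℝ) (g : ℝ)
    (hw : ∀ a ∈ A, 0 ≤ w a) (hc : ∀ a ∈ A, ∀ b ∈ A, f a = f b → w a = w b)
    (hg : ∀ a ∈ A, ∀ B : Finset α, (∀ b ∈ B, b ∈ A ∧ f b = f a) → (B.card : ℝ) ≤ g) :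
    ∃ B ⊆ A, (∀ a ∈ B, ∀ b ∈ B, f a = f b → a = b) ∧ ∑ a ∈ A, w a ≤ g * ∑ b ∈ B, w b := by
  classical
  rcases A.eq_empty_or_nonempty with rfl | ⟨a0, ha0⟩
  · exact ⟨∅, le_rfl, by simp, by simp⟩
  have hr : ∀ y : β, ∃ a : α, y ∈ A.image f → a ∈ A ∧ f a = y := by
    intro y
    by_cases hy : y ∈ A.image f
    · obtain ⟨a, ha, hay⟩ := Finset.mem_image.1 hy
      exact ⟨a, fun _ => ⟨ha, hay⟩⟩
    · exact ⟨a0, fun h => absurd h hy⟩
  choose r hr using hr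
  refine ⟨(A.image f).image r, ?_, ?_, ?_⟩
  · intro b hb
    obtain ⟨y, hy, rfl⟩ := Finset.mem_image.1 hb
    exact (hr y hy).1
  · intro a ha b hb hab
    obtain ⟨y, hy, rfl⟩ := Finset.mem_image.1 ha
    obtain ⟨y', hy', rfl⟩ := Finset.mem_image.1 hb
    rw [(hr y hy).2, (hr y' hy').2] at hab
    rw [hab]
  · have hinj : Set.InjOn r (A.image f : Set β) := by
      intro y hy y' hy' h
      have h1 := congrArg f h
      rw [(hr y hy).2, (hr y' hy').2] at h1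
      exact h1
    rw [Finset.sum_image hinj, Finset.mul_sum, ← Finset.sum_fiberwise_of_maps_to (g := f) (t := A.image f)
      (fun a ha => Finset.mem_image_of_mem _ ha)]
    refine Finset.sum_le_sum fun y hy => ?_
    have h1 : ∀ a ∈ A.filter (fun a => f a = y), w a = w (r y) := fun a ha =>
      hc a (Finset.mem_filter.1 ha).1 _ (hr y hy).1 ((Finset.mem_filter.1 ha).2.trans (hr y hy).2.symm)
    rw [Finset.sum_congr rfl h1, Finset.sum_const, nsmul_eq_mul]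
    refine mul_le_mul_of_nonneg_right ?_ (hw _ (hr y hy).1)
    exact hg (r y) (hr y hy).1 _ fun b hb =>
      ⟨(Finset.mem_filter.1 hb).1, (Finset.mem_filter.1 hb).2.trans (hr y hy).2.symm⟩

theorem ppl_sum {e : ℕ} (he : 0 < e) {ζ : L} (hζ : IsPrimitiveRoot ζ e) [IsCyclotomicExtension {e} F L] (SL : Finset (Prm L)) (M : ℝ) :
    ∃ A : Finset (Prm L), (∀ Q ∈ A, PPL F e SL Q) ∧ (∀ Q ∈ A, ∀ Q' ∈ A, Q.under (𝓞 F) = Q'.under (𝓞 F) → Q = Q') ∧
      M ≤ ∑ Q ∈ A, 1 / (nm Q : ℝ) := by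
  classical
  have hg : (0 : ℝ) < Module.finrank ℚ L := by exact_mod_cast Module.finrank_pos
  obtain ⟨C, hC⟩ := not_prime_sum L
  obtain ⟨A0, hA0, hs⟩ := pp_sum he (SL ∪ (PPLs_finite (L := L) he).toFinset) (Module.finrank ℚ L * M + C)
  obtain ⟨A, hA1, hA2, hA3⟩ := PPLs_choose (A0.filter fun Q => (nm Q).Prime) (fun Q => Q.under (𝓞 F))
    (fun Q => 1 / (nm Q : ℝ)) (Module.finrank ℚ L) (fun Q _ => by positivity) (by
      intro Q hQ Q' hQ' h
      show 1 / (nm Q : ℝ) = 1 / (nm Q' : ℝ)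
      rw [PPLs_nm Q Q' (Finset.mem_filter.1 hQ).2 (Finset.mem_filter.1 hQ').2 h]) (by
      intro Q hQ B hB
      have h1 := PPLs_card (nm Q) (Finset.mem_filter.1 hQ).2 B (fun Q' hQ' =>
        PPLs_nm Q' Q (Finset.mem_filter.1 (hB Q' hQ').1).2 (Finset.mem_filter.1 hQ).2 (hB Q' hQ').2)
      exact_mod_cast h1)
  refine ⟨A, fun Q hQ => ?_, hA2, ?_⟩
  · have h1 := Finset.mem_filter.1 (hA1 hQ)
    obtain ⟨h2, h3⟩ := hA0 Q h1.1
    rw [Finset.mem_union, not_or, Set.Finite.mem_toFinset] at h2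
    refine ⟨⟨h2.1, fun x hx => h3 x ⟨hx.1, fun q hq => hx.2 q fun h => hq (Finset.mem_union_left _ h)⟩⟩, h1.2,
      good_of_prime he hζ Q h1.2 h2.2⟩
  · have h1 := hC (A0.filter fun Q => ¬ (nm Q).Prime) fun Q hQ => (Finset.mem_filter.1 hQ).2
    rw [← Finset.sum_filter_add_sum_filter_not A0 (fun Q => (nm Q).Prime)] at hs
    have h2 : (Module.finrank ℚ L : ℝ) * M ≤ Module.finrank ℚ L * ∑ Q ∈ A, 1 / (nm Q : ℝ) := by linarith
    exact le_of_mul_le_mul_left h2 hg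

end StarkR
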