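import Pool.Agent.Lib.MP_d9bae3_nt.NG.EvDG
import Pool.Agent.Lib.MP_d9bae3_nt.NA.ChebT

/-!
# Module NAG-ChebA: Chebyshev for the events `EvA`

As in NA/ChebT.lean (`few_evT`) or SG/GBC.lean (`bc`): by `ev_probA` for `A = {a}` and `A = {a, a'}` the mean of the number `N(T)` of the `a ∈ A` with `EvA e g (P a) (R a) T` tends to `Δ = ∑ dlA`, the mean of `(N - Δ)^2` has a limit `≤ Δ`; Chebyshev.
-/

set_option linter.unusedSectionVars false

namespace StarkR

open NumberField IsDedekindDomain Filter Topology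
open scoped Pointwise

variable {ι : Type} [Fintype ι] {K : ι → Type} [∀ i, Field (K i)] [∀ i, NumberField (K i)]

private theorem chebA_count {s : Set ((i : ι) → Ideal (𝓞 (K i)))} (hs : s.Finite) (Q : ((i : ι) → Ideal (𝓞 (K i))) → Prop)
    [DecidablePred Q] :
    (∑ b ∈ hs.toFinset, (if Q b then (1 : ℝ) else 0)) = (Set.ncard {b : (i : ι) → Ideal (𝓞 (K i)) | b ∈ s ∧ Q b} : ℝ) := by
  rw [Finset.sum_boole, ← Set.ncard_coe_finset]
  congr 2
  ext b
  simp

theorem cheb_A [Nonempty ι] {e : ℕ} (he : 0 < e) {S : (i : ι) → Finset (Prm (K i))} (hS : ∀ i, GoodS e (S i))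
    {g : (i : ι) → Ideal (𝓞 (K i)) → 𝓞 (K i)} (hg : ∀ i, IsGen (S i) (g i)) {κ : Type} (P R : κ → (i : ι) → Finset (Prm (K i)))
    (A : Finset κ) (hPP : ∀ a ∈ A, ∀ (i : ι) (q : Prm (K i)), q ∈ P a i ∨ q ∈ R a i → PP e (S i) q)
    (h1 : ∀ a ∈ A, ∀ i, Disjoint (P a i) (R a i))
    (h2 : ∀ a ∈ A, ∀ a' ∈ A, a ≠ a' → ∀ (i : ι) (q : Prm (K i)), q ∈ P a i ∨ q ∈ R a i → ¬ (q ∈ P a' i ∨ q ∈ R a' i))
    (k : ℕ) (ε : ℝ) (hε : 0 < ε) (hs : max (2 * (k : ℝ) + 1) (8 / ε) ≤ ∑ a ∈ A, dlA e (P a) (R a)) :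
    ∀ᶠ X : ℝ in atTop, (Set.ncard {T : (i : ι) → Ideal (𝓞 (K i)) | T ∈ TG S X ∧
      ¬ ∃ A' ⊆ A, k ≤ A'.card ∧ ∀ a ∈ A', EvA e g (P a) (R a) T} : ℝ) ≤ ε * ((TG S X).ncard : ℝ) := by
  classical
  let D : κ → ℝ := fun a => dlA e (P a) (R a)
  set Δ : ℝ := ∑ a ∈ A, D a with hΔdef
  have hΔ : max (2 * (k : ℝ) + 1) (8 / ε) ≤ Δ := hs
  have hΔk : 2 * (k : ℝ) + 1 ≤ Δ := (le_max_left _ _).trans hΔ
  have hΔε : 8 / ε ≤ Δ := (le_max_right _ _).trans hΔ
  have hk0 : (0 : ℝ) ≤ k := Nat.cast_nonneg k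
  have hΔ1 : 1 ≤ Δ := by linarith
  have hΔ0 : 0 < Δ := by linarith
  let I : ((i : ι) → Ideal (𝓞 (K i))) → κ → ℝ := fun b a => if EvA e g (P a) (R a) b then 1 else 0
  let n1 : κ → ℝ → ℝ := fun a X =>
    (Set.ncard {b : (i : ι) → Ideal (𝓞 (K i)) | b ∈ TG S X ∧ EvA e g (P a) (R a) b} : ℝ)
  let n2 : κ → κ → ℝ → ℝ := fun a a' X =>
    (Set.ncard {b : (i : ι) → Ideal (𝓞 (K i)) | b ∈ TG S X ∧ (EvA e g (P a) (R a) b ∧ EvA e g (P a') (R a') b)} : ℝ)
  let C : ℝ → ℝ := fun X => ((TG S X).ncard : ℝ)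
  have hCpos : ∀ X, 1 ≤ X → 0 < C X := by
    intro X hX
    have := TG_pos S hX
    show (0 : ℝ) < ((TG S X).ncard : ℝ)
    exact_mod_cast this
  -- the limits
  have ht1 : ∀ a ∈ A, Tendsto (fun X => n1 a X / C X) atTop (𝓝 (D a)) := by
    intro a ha
    have h := ev_probA he hS hg P R {a} (fun a' ha' => by
        rw [Finset.mem_singleton] at ha'
        rw [ha']
        exact hPP a ha) (fun a' ha' => by
        rw [Finset.mem_singleton] at ha'
        rw [ha']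
        exact h1 a ha) (fun a' ha' a'' ha'' hne => by
        rw [Finset.mem_singleton] at ha' ha''
        exact absurd (ha'.trans ha''.symm) hne)
    rw [Finset.prod_singleton] at h
    refine h.congr fun X => ?_
    simp only [Finset.mem_singleton, forall_eq]
    rfl
  have ht2 : ∀ a ∈ A, ∀ a' ∈ A, Tendsto (fun X => n2 a a' X / C X) atTop
      (𝓝 (if a = a' then D a else D a * D a')) := by
    intro a ha a' ha'
    by_cases haa : a = a'
    · subst haa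
      rw [if_pos rfl]
      refine (ht1 a ha).congr fun X => ?_
      have hset : {b : (i : ι) → Ideal (𝓞 (K i)) | b ∈ TG S X ∧ (EvA e g (P a) (R a) b ∧ EvA e g (P a) (R a) b)} =
          {b : (i : ι) → Ideal (𝓞 (K i)) | b ∈ TG S X ∧ EvA e g (P a) (R a) b} := by
        ext b
        simp
      show n1 a X / C X = n2 a a X / C X
      simp only [n1, n2, hset]
    · rw [if_neg haa]
      have hsub : ∀ a'' ∈ ({a, a'} : Finset κ), a'' ∈ A := by
        intro a'' h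
        rw [Finset.mem_insert, Finset.mem_singleton] at h
        rcases h with h | h
        · rw [h]
          exact ha
        · rw [h]
          exact ha'
      have h := ev_probA he hS hg P R {a, a'} (fun a'' h => hPP a'' (hsub a'' h)) (fun a'' h => h1 a'' (hsub a'' h))
        (fun a'' h a3 h3 hne => h2 a'' (hsub a'' h) a3 (hsub a3 h3) hne)
      rw [Finset.prod_pair haa] at h
      refine h.congr fun X => ?_
      have hset : {T : (i : ι) → Ideal (𝓞 (K i)) | T ∈ TG S X ∧ ∀ a'' ∈ ({a, a'} : Finset κ), EvA e g (P a'') (R a'') T} =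
          {b : (i : ι) → Ideal (𝓞 (K i)) | b ∈ TG S X ∧ (EvA e g (P a) (R a) b ∧ EvA e g (P a') (R a') b)} := by
        ext b
        simp
      rw [hset]
  set L : ℝ := ∑ a ∈ A, ∑ a' ∈ A, (if a = a' then D a else D a * D a') -
    2 * Δ * ∑ a ∈ A, D a + Δ ^ 2 with hL
  let M2 : ℝ → ℝ := fun X => ∑ a ∈ A, ∑ a' ∈ A, n2 a a' X - 2 * Δ * ∑ a ∈ A, n1 a X + Δ ^ 2 * C X
  have htL : Tendsto (fun X => M2 X / C X) atTop (𝓝 L) := by
    have h1 : Tendsto (fun X => ∑ a ∈ A, ∑ a' ∈ A, n2 a a' X / C X -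
        2 * Δ * ∑ a ∈ A, n1 a X / C X + Δ ^ 2) atTop (𝓝 L) := by
      refine Tendsto.add (Tendsto.sub ?_ (Tendsto.const_mul _ ?_)) tendsto_const_nhds
      · exact tendsto_finsetSum _ fun a ha => tendsto_finsetSum _ fun a' ha' => ht2 a ha a' ha'
      · exact tendsto_finsetSum _ fun a ha => ht1 a ha
    refine h1.congr' ?_
    filter_upwards [eventually_ge_atTop (1 : ℝ)] with X hX
    have hC := (hCpos X hX).ne'
    simp only [← Finset.sum_div]
    show _ = (∑ a ∈ A, ∑ a' ∈ A, n2 a a' X - 2 * Δ * ∑ a ∈ A, n1 a X + Δ ^ 2 * C X) / C X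
    field_simp
  have hLle : L ≤ Δ := by
    have h1 : ∑ a ∈ A, ∑ a' ∈ A, (if a = a' then D a else D a * D a') ≤
        ∑ a ∈ A, ∑ a' ∈ A, ((if a = a' then D a else 0) + D a * D a') := by
      refine Finset.sum_le_sum fun a _ => Finset.sum_le_sum fun a' _ => ?_
      have h0 : ∀ a : κ, 0 ≤ D a := fun a => dlA_nonneg e _ _
      split_ifs
      · linarith [mul_nonneg (h0 a) (h0 a')]
      · linarith
    have h2 : ∑ a ∈ A, ∑ a' ∈ A, ((if a = a' then D a else 0) + D a * D a') = Δ + Δ ^ 2 := by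
      simp only [Finset.sum_add_distrib, Finset.sum_ite_eq]
      rw [← Finset.sum_mul_sum, sq]
      congr 1
      exact Finset.sum_congr rfl fun a ha => if_pos ha
    rw [hL]
    nlinarith
  have hev : ∀ᶠ X in atTop, M2 X / C X < Δ + 1 := htL.eventually_lt_const (by linarith)
  filter_upwards [hev, eventually_ge_atTop (1 : ℝ)] with X hR hX
  have hC := hCpos X hX
  rw [div_lt_iff₀ hC] at hR
  have hfin : (TG S X).Finite := Set.finite_of_ncard_pos (TG_pos S hX)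
  set s : Finset ((i : ι) → Ideal (𝓞 (K i))) := hfin.toFinset with hs'
  have hscard : (s.card : ℝ) = C X := by
    show (s.card : ℝ) = ((TG S X).ncard : ℝ)
    rw [Set.ncard_eq_toFinset_card _ hfin]
  have hI1 : ∀ a, ∑ b ∈ s, I b a = n1 a X := fun a => chebA_count hfin _
  have hI2 : ∀ a a', ∑ b ∈ s, I b a * I b a' = n2 a a' X := by
    intro a a'
    refine Eq.trans ?_ (chebA_count hfin (fun b => EvA e g (P a) (R a) b ∧ EvA e g (P a') (R a') b))
    refine Finset.sum_congr rfl fun b _ => ?_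
    by_cases h1 : EvA e g (P a) (R a) b <;> by_cases h2 : EvA e g (P a') (R a') b <;> simp [I, h1, h2]
  -- the second moment
  have hmom : ∑ b ∈ s, (∑ a ∈ A, I b a - Δ) ^ 2 = M2 X := by
    have h1 : ∀ b, (∑ a ∈ A, I b a - Δ) ^ 2 =
        ∑ a ∈ A, ∑ a' ∈ A, I b a * I b a' - 2 * Δ * ∑ a ∈ A, I b a + Δ ^ 2 := by
      intro b
      rw [← Finset.sum_mul_sum]
      ring
    show _ = ∑ a ∈ A, ∑ a' ∈ A, n2 a a' X - 2 * Δ * ∑ a ∈ A, n1 a X + Δ ^ 2 * C X
    simp only [h1]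
    rw [Finset.sum_add_distrib, Finset.sum_sub_distrib, ← Finset.mul_sum, Finset.sum_const,
      nsmul_eq_mul, Finset.sum_comm, ← hscard]
    congr 1
    · congr 1
      · refine Finset.sum_congr rfl fun a _ => ?_
        rw [Finset.sum_comm]
        exact Finset.sum_congr rfl fun a' _ => hI2 a a'
      · congr 1
        rw [Finset.sum_comm]
        exact Finset.sum_congr rfl fun a _ => hI1 a
    · ring
  have hsub : {T : (i : ι) → Ideal (𝓞 (K i)) | T ∈ TG S X ∧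
      ¬ ∃ A' ⊆ A, k ≤ A'.card ∧ ∀ a ∈ A', EvA e g (P a) (R a) T} ⊆
      ((s.filter fun b => ∑ a ∈ A, I b a < (k : ℝ) : Finset ((i : ι) → Ideal (𝓞 (K i)))) :
        Set ((i : ι) → Ideal (𝓞 (K i)))) := by
    rintro b ⟨hb, hno⟩
    rw [Finset.mem_coe, Finset.mem_filter]
    refine ⟨(Set.Finite.mem_toFinset _).2 hb, ?_⟩
    by_contra hcon
    rw [not_lt] at hcon
    refine hno ⟨A.filter fun a => EvA e g (P a) (R a) b, Finset.filter_subset _ _, ?_, fun a ha => ?_⟩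
    · have h1 : ∑ a ∈ A, I b a = ((A.filter fun a => EvA e g (P a) (R a) b).card : ℝ) :=
        Finset.sum_boole _ _
      rw [h1] at hcon
      exact_mod_cast hcon
    · rw [Finset.mem_filter] at ha
      exact ha.2
  have hcard : (Set.ncard {T : (i : ι) → Ideal (𝓞 (K i)) | T ∈ TG S X ∧
      ¬ ∃ A' ⊆ A, k ≤ A'.card ∧ ∀ a ∈ A', EvA e g (P a) (R a) T} : ℝ) ≤
      ((s.filter fun b => ∑ a ∈ A, I b a < (k : ℝ)).card : ℝ) := by
    have h1 := Set.ncard_le_ncard hsub (Finset.finite_toSet _)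
    rw [Set.ncard_coe_finset] at h1
    exact_mod_cast h1
  have hmark : ((s.filter fun b => ∑ a ∈ A, I b a < (k : ℝ)).card : ℝ) * (Δ ^ 2 / 4) ≤
      ∑ b ∈ s, (∑ a ∈ A, I b a - Δ) ^ 2 := by
    calc ((s.filter fun b => ∑ a ∈ A, I b a < (k : ℝ)).card : ℝ) * (Δ ^ 2 / 4)
        = ∑ b ∈ s.filter (fun b => ∑ a ∈ A, I b a < (k : ℝ)), (Δ ^ 2 / 4) := by
          rw [Finset.sum_const, nsmul_eq_mul]
      _ ≤ ∑ b ∈ s.filter (fun b => ∑ a ∈ A, I b a < (k : ℝ)),
          (∑ a ∈ A, I b a - Δ) ^ 2 := by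
          refine Finset.sum_le_sum fun b hb => ?_
          have h1 := (Finset.mem_filter.1 hb).2
          have h2 : Δ / 2 ≤ Δ - ∑ a ∈ A, I b a := by linarith
          have h3 : (Δ / 2) ^ 2 ≤ (Δ - ∑ a ∈ A, I b a) ^ 2 :=
            pow_le_pow_left₀ (by positivity) h2 2
          nlinarith
      _ ≤ ∑ b ∈ s, (∑ a ∈ A, I b a - Δ) ^ 2 :=
          Finset.sum_le_sum_of_subset_of_nonneg (Finset.filter_subset _ _)
            fun _ _ _ => sq_nonneg _
  refine hcard.trans ?_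
  show _ ≤ ε * C X
  have h8 : 8 ≤ ε * Δ := by
    have := (div_le_iff₀ hε).1 hΔε
    linarith [mul_comm Δ ε]
  set x : ℝ := ((s.filter fun b => ∑ a ∈ A, I b a < (k : ℝ)).card : ℝ) with hx
  have h9 : x * (Δ ^ 2 / 4) ≤ (Δ + 1) * C X := (hmark.trans hmom.le).trans hR.le
  have h10 : x * (Δ ^ 2 / 4) ≤ (ε * C X) * (Δ ^ 2 / 4) := by
    refine h9.trans ?_
    have h11 : (Δ + 1) ≤ ε * (Δ ^ 2 / 4) := by nlinarith
    calc (Δ + 1) * C X ≤ (ε * (Δ ^ 2 / 4)) * C X := mul_le_mul_of_nonneg_right h11 hC.le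
      _ = _ := by ring
  exact le_of_mul_le_mul_right h10 (by positivity)

end StarkR
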