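import Pool.Agent.Lib.MP_d9bae3_nt.NG.GB
import Pool.Agent.Lib.MP_d9bae3_nt.NA.NDefs

/-!
# Module NAG-DBase: all abelian extensions of a given degree: definitions

`aOf F n` is the number of the orbits of `Gal(F(ζ_e)/F)` on the nonzero elements of `V n`.
-/

set_option linter.unusedSectionVars false

namespace StarkR

open NumberField IsDedekindDomain Filter Topology
open scoped Pointwise

/-- the sum over the nonzero `w` in `V n` of `1/[F(ζ_d):F]`, `d` the order of `w` -/
noncomputable def aOf (F : Type) [Field F] {m : ℕ} (n : Fin m → ℕ) [∀ i, NeZero (n i)] : ℝ :=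
  open Classical in ∑ w : V n, if w = 0 then 0 else (1 : ℝ) / (Module.finrank F (CyclotomicField (addOrderOf w) F) : ℝ)

/-- The subfields `H` of the algebraic closure of `F` which are Galois extensions of `F` of degree `N` with an abelian group and for which
the product of the ramified primes has norm at most `X`. -/
def AbExt (F : Type) [Field F] [NumberField F] (N X : ℕ) : Set (IntermediateField F (AlgebraicClosure F)) :=
  {H | ∃ _ : NumberField H, IsGalois F H ∧ IsMulCommutative Gal(H/F) ∧ Module.finrank F H = N ∧ radN F H ≤ X}

end StarkR
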