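import Pool.Agent.Lib.MP_d9bae3_nt.NG.DBase

/-!
# Module NAG-DLe: elementary abelian groups have at least as many orbits

The proof of `aOf_lt` (NG/DLt.lean), with `≤` and without the hypothesis on roots of unity.
-/

set_option linter.unusedSectionVars false

namespace StarkR

open NumberField IsDedekindDomain Filter Topology
open scoped Pointwise

private theorem cycHom (F : Type) [Field F] [NumberField F] {d d' : ℕ} (hd' : d' ≠ 0) (h : d ∣ d') :
    Nonempty (CyclotomicField d F →ₐ[F] CyclotomicField d' F) := by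
  obtain ⟨c, rfl⟩ := h
  have hd0 : d ≠ 0 := fun h => hd' (by rw [h, zero_mul])
  have hne : NeZero (d * c) := ⟨hd'⟩
  have hned : NeZero d := ⟨hd0⟩
  have hz := IsCyclotomicExtension.zeta_spec (d * c) F (CyclotomicField (d * c) F)
  have hz' : IsPrimitiveRoot (IsCyclotomicExtension.zeta (d * c) F (CyclotomicField (d * c) F) ^ c) d :=
    hz.pow (Nat.pos_of_ne_zero hd') (mul_comm d c)
  have hs := Polynomial.X_pow_sub_one_splits hz'
  have hs2 : (Polynomial.cyclotomic d (CyclotomicField (d * c) F)).Splits := by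
    refine Polynomial.Splits.of_dvd hs ?_ (Polynomial.cyclotomic.dvd_X_pow_sub_one d _)
    exact (Polynomial.monic_X_pow_sub_C (1 : CyclotomicField (d * c) F) hd0).ne_zero
  have hspl : Polynomial.IsSplittingField F (CyclotomicField d F) (Polynomial.cyclotomic d F) :=
    IsCyclotomicExtension.splitting_field_cyclotomic d F (CyclotomicField d F)
  refine ⟨Polynomial.IsSplittingField.lift (CyclotomicField d F) (Polynomial.cyclotomic d F) ?_⟩
  rw [Polynomial.map_cyclotomic]
  exact hs2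

private theorem cycLe (F : Type) [Field F] [NumberField F] {d d' : ℕ} (hd' : d' ≠ 0) (h : d ∣ d') :
    Module.finrank F (CyclotomicField d F) ≤ Module.finrank F (CyclotomicField d' F) := by
  obtain ⟨f⟩ := cycHom F hd' h
  have : FiniteDimensional F (CyclotomicField d' F) := FiniteDimensional.right ℚ F _
  exact LinearMap.finrank_le_finrank_of_injective (f := f.toLinearMap) f.toRingHom.injective

private theorem cycPos (F : Type) [Field F] [NumberField F] (d : ℕ) :
    0 < Module.finrank F (CyclotomicField d F) := by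
  have : FiniteDimensional F (CyclotomicField d F) := FiniteDimensional.right ℚ F _
  exact Module.finrank_pos

private theorem exists_beta {p k : ℕ} [NeZero p] (hk : 2 ≤ k) :
    ∃ β : ZMod (p ^ k) ≃ (Fin k → ZMod p), β 0 = 0 := by
  classical
  have hpk : NeZero (p ^ k) := ⟨pow_ne_zero k (NeZero.ne p)⟩
  have hc : Fintype.card (ZMod (p ^ k)) = Fintype.card (Fin k → ZMod p) := by
    rw [ZMod.card, Fintype.card_fun, ZMod.card, Fintype.card_fin]
  let e := Fintype.equivOfCardEq hc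
  refine ⟨e.trans (Equiv.swap (e 0) 0), ?_⟩
  rw [Equiv.trans_apply, Equiv.swap_apply_left]

theorem aOf_le (F : Type) [Field F] [NumberField F] {p k M : ℕ} (hp : p.Prime) (hk : 2 ≤ k) (hM : 0 < M) (hcop : p.Coprime M)
    {n₀ : Fin 1 → ℕ} [∀ i, NeZero (n₀ i)] (hn₀ : n₀ 0 = p ^ k * M)
    {n₁ : Fin (k + 1) → ℕ} [∀ i, NeZero (n₁ i)] (hn₁ : n₁ 0 = M) (hn₁' : ∀ i : Fin k, n₁ i.succ = p) : aOf F n₀ ≤ aOf F n₁ := by
  classical
  have hpf : Fact p.Prime := ⟨hp⟩
  have hpk : NeZero (p ^ k) := ⟨pow_ne_zero k hp.ne_zero⟩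
  have hMz : NeZero M := ⟨hM.ne'⟩
  obtain ⟨β, hβ⟩ := exists_beta (p := p) hk
  let e₀ : V n₀ ≃+ ZMod (p ^ k) × ZMod M :=
    ((AddEquiv.piUnique (fun i => ZMod (n₀ i))).trans (ZMod.ringEquivCongr hn₀).toAddEquiv).trans
      (ZMod.chineseRemainder (Nat.Coprime.pow_left k hcop)).toAddEquiv
  let e₁ : V n₁ ≃+ ZMod M × (Fin k → ZMod p) :=
    (Fin.consLinearEquiv ℤ (fun i => ZMod (n₁ i))).toAddEquiv.symm.trans
      (AddEquiv.prodCongr (ZMod.ringEquivCongr hn₁).toAddEquiv
        (AddEquiv.piCongrRight fun i => (ZMod.ringEquivCongr (hn₁' i)).toAddEquiv))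
  let Φ : V n₀ ≃ V n₁ := e₀.toEquiv.trans ((Equiv.prodComm _ _).trans
    ((Equiv.prodCongr (Equiv.refl _) β).trans e₁.symm.toEquiv))
  have hΦ : ∀ w, e₁ (Φ w) = ((e₀ w).2, β (e₀ w).1) := by
    intro w
    change e₁ (e₁.symm _) = _
    rw [AddEquiv.apply_symm_apply]
    rfl
  have hΦ0 : ∀ w, Φ w = 0 ↔ w = 0 := by
    intro w
    rw [← e₁.map_eq_zero_iff, hΦ, Prod.mk_eq_zero, ← e₀.map_eq_zero_iff (x := w)]
    constructor
    · rintro ⟨h1, h2⟩
      have h3 : (e₀ w).1 = 0 := β.injective (by rw [h2, hβ])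
      exact Prod.ext h3 h1
    · intro h
      rw [h]
      exact ⟨rfl, hβ⟩
  have hpz : ∀ x : Fin k → ZMod p, p • x = 0 := by
    intro x
    funext i
    rw [Pi.smul_apply, nsmul_eq_mul, ZMod.natCast_self, zero_mul]
    rfl
  have hord : ∀ w, addOrderOf (Φ w) ∣ addOrderOf w := by
    intro w
    rw [← addOrderOf_injective e₁.toAddMonoidHom e₁.injective (Φ w),
      ← addOrderOf_injective e₀.toAddMonoidHom e₀.injective w]
    change addOrderOf (e₁ (Φ w)) ∣ addOrderOf (e₀ w)
    rw [hΦ, addOrderOf_dvd_iff_nsmul_eq_zero]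
    have h1 := addOrderOf_nsmul_eq_zero (e₀ w)
    have h2 : addOrderOf (e₀ w) • (e₀ w).1 = 0 := congrArg Prod.fst h1
    have h3 : addOrderOf (e₀ w) • (e₀ w).2 = 0 := congrArg Prod.snd h1
    refine Prod.ext h3 ?_
    change addOrderOf (e₀ w) • β (e₀ w).1 = 0
    by_cases hx : (e₀ w).1 = 0
    · rw [hx, hβ, smul_zero]
    · have h4 : addOrderOf (e₀ w).1 ∣ addOrderOf (e₀ w) := addOrderOf_dvd_of_nsmul_eq_zero h2
      have h5 : addOrderOf (e₀ w).1 ∣ p ^ k := by
        have := addOrderOf_dvd_card (x := (e₀ w).1)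
        rwa [ZMod.card] at this
      have h6 : addOrderOf (e₀ w).1 ≠ 1 := fun h => hx (AddMonoid.addOrderOf_eq_one_iff.1 h)
      have h7 : p ∣ addOrderOf (e₀ w).1 := by
        obtain ⟨j, -, hj⟩ := (Nat.dvd_prime_pow hp).1 h5
        rw [hj]
        rcases Nat.eq_zero_or_pos j with h0 | h0
        · rw [h0, pow_zero] at hj
          exact absurd hj h6
        · exact dvd_pow_self p h0.ne'
      obtain ⟨c, hc⟩ := h7.trans h4
      rw [hc, mul_comm, mul_smul, hpz, smul_zero]
  have hfin : ∀ w : V n₀, addOrderOf w ≠ 0 := fun w => (addOrderOf_pos w).ne'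
  unfold aOf
  rw [← Equiv.sum_comp Φ]
  refine Finset.sum_le_sum ?_
  intro w _
  by_cases hw : w = 0
  · rw [if_pos hw, if_pos ((hΦ0 w).2 hw)]
  · rw [if_neg hw, if_neg (fun h => hw ((hΦ0 w).1 h))]
    have h1 : (0 : ℝ) < Module.finrank F (CyclotomicField (addOrderOf (Φ w)) F) := by
      exact_mod_cast cycPos F _
    have h2 : (Module.finrank F (CyclotomicField (addOrderOf (Φ w)) F) : ℝ) ≤
        Module.finrank F (CyclotomicField (addOrderOf w) F) := by
      exact_mod_cast cycLe F (hfin w) (hord w)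
    exact one_div_le_one_div_of_le h1 h2

end StarkR
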