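import Pool.Agent.Lib.MP_d9bae3_nt.NG.DFin
import Pool.Agent.Lib.MP_d9bae3_nt.NG.DLe

/-!
# Module NAG-DPos: a positive proportion of the abelian extensions of a degree which is not squarefree
-/

set_option linter.unusedSectionVars false

namespace StarkR

open NumberField IsDedekindDomain Filter Topology
open scoped Pointwise

variable (F : Type) [Field F] [NumberField F]

theorem deg_positive {N : ℕ} (hN0 : 0 < N) (hsq : ¬ Squarefree N) {k' : ℕ} (hk' : 1 ≤ k')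
    (P : IntermediateField F (AlgebraicClosure F) → Prop)
    (hP : ∀ (H : IntermediateField F (AlgebraicClosure F)) (_ : NumberField H) (_ : IsGalois F H) (_ : IsMulCommutative Gal(H/F)),
      (∀ χ : Gal(H/F) →* ℂˣ, χ.ker ≠ ⊥ → ∃ A : Finset (Prm F), k' ≤ A.card ∧ ∀ q ∈ A, Ramified H q ∧ TrivialAt χ q) → P H) :
    (∀ X, (AbExt F N X).Finite) ∧ ∃ c : ℝ, 0 < c ∧ ∀ᶠ X : ℕ in atTop, 0 < (AbExt F N X).ncard ∧ c * ((AbExt F N X).ncard : ℝ) ≤
      ({H | H ∈ AbExt F N X ∧ (¬ IsCyclic Gal(H/F) ∧ P H)}.ncard : ℝ) := by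
  classical
  obtain ⟨p, k, M, hp, hk, hM, hcop, hN⟩ : ∃ p k M : ℕ, p.Prime ∧ 2 ≤ k ∧ 0 < M ∧ p.Coprime M ∧ N = p ^ k * M := by
    rw [Nat.squarefree_iff_prime_squarefree] at hsq
    push Not at hsq
    obtain ⟨p, hp, hpN⟩ := hsq
    refine ⟨p, N.factorization p, ordCompl[p] N, hp, ?_, Nat.ordCompl_pos p hN0.ne', Nat.coprime_ordCompl hp hN0.ne',
      (Nat.ordProj_mul_ordCompl_eq_self N p).symm⟩
    rw [← hp.pow_dvd_iff_le_factorization hN0.ne', pow_two]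
    exact hpN
  have hp2 := hp.two_le
  have hN2 : 2 ≤ N := by
    have h1 : 2 ≤ p ^ k := hp2.trans (Nat.le_self_pow (by omega) p)
    rw [hN]
    nlinarith
  obtain ⟨n₀, hn₀⟩ : ∃ n₀ : Fin 1 → ℕ, ∀ i, n₀ i = N := ⟨fun _ => N, fun _ => rfl⟩
  have hne₀ : ∀ i, NeZero (n₀ i) := fun i => ⟨by rw [hn₀]; omega⟩
  obtain ⟨n₁, hn₁, hn₁'⟩ : ∃ n₁ : Fin (k + 1) → ℕ, n₁ 0 = M ∧ ∀ i : Fin k, n₁ i.succ = p :=
    ⟨Fin.cons M (fun _ => p), rfl, fun i => rfl⟩
  have hne₁ : ∀ i, NeZero (n₁ i) := fun i => by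
    refine Fin.cases ?_ (fun i => ?_) i
    · exact ⟨by rw [hn₁]; omega⟩
    · exact ⟨by rw [hn₁']; omega⟩
  have hprod₀ : ∏ i, n₀ i = N := by simp [hn₀]
  have hprod₁ : ∏ i, n₁ i = N := by
    rw [Fin.prod_univ_succ, hn₁]
    simp only [hn₁', Finset.prod_const, Finset.card_univ, Fintype.card_fin]
    rw [hN, mul_comm]
  have hnc₁ := not_cyc hp hk hM hn₁ hn₁'
  -- the groups, with their counting functions
  let Q : Type := {q : (Σ m : ℕ, Fin m → ℕ) // (∀ i, 0 < q.2 i) ∧ ∏ i, q.2 i = N}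
  have hne : ∀ (q : Q) (i), NeZero (q.1.2 i) := fun q i => ⟨(q.2.1 i).ne'⟩
  have hord := fun q : Q => aext_order F q.1.2 (exists_ne_zero hN2 q.2.2)
  choose a ha ha' hafin c C hc hC hb using hord
  let q₀ : Q := ⟨⟨1, n₀⟩, fun i => Nat.pos_of_ne_zero (hne₀ i).1, hprod₀⟩
  let q₁ : Q := ⟨⟨k + 1, n₁⟩, fun i => Nat.pos_of_ne_zero (hne₁ i).1, hprod₁⟩
  have ha01 : a q₀ ≤ a q₁ := by
    have h1 := aOf_le F hp hk hM hcop (n₀ := n₀) ((hn₀ 0).trans hN) (n₁ := n₁) hn₁ hn₁'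
    have h2 : (a q₀ : ℝ) = aOf F n₀ := ha q₀
    have h3 : (a q₁ : ℝ) = aOf F n₁ := ha q₁
    rw [← h2, ← h3] at h1
    exact_mod_cast h1
  have hG := grp_finite N
  have hGQ : ∀ q ∈ grp N, (∀ i, 0 < q.2 i) ∧ ∏ i, q.2 i = N := fun q hq => ⟨fun i => (hq.2.1 i).1, hq.2.2⟩
  -- a finite set of groups
  obtain ⟨T, hT⟩ : ∃ T : Finset Q, ∀ q : Q, q.1 ∈ grp N → q ∈ T := by
    have h1 : {q : Q | q.1 ∈ grp N}.Finite := hG.preimage Subtype.val_injective.injOn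
    exact ⟨h1.toFinset, fun q hq => by rw [Set.Finite.mem_toFinset]; exact hq⟩
  let T' : Finset Q := insert q₁ (T.filter fun q => ¬ IsCyclic (Multiplicative (V q.1.2)))
  obtain ⟨qs, hqs, hmax⟩ := T'.exists_max_image a ⟨q₁, Finset.mem_insert_self _ _⟩
  have hqnc : ¬ IsCyclic (Multiplicative (V qs.1.2)) := by
    rcases Finset.mem_insert.1 hqs with h | h
    · rw [h]; exact hnc₁
    · exact (Finset.mem_filter.1 h).2
  have hfin := abext_finite F hN2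
  have hcast : Tendsto (fun X : ℕ => (X : ℝ)) atTop atTop := tendsto_natCast_atTop_atTop
  have hlog : Tendsto (fun X : ℕ => Real.log X) atTop atTop := Real.tendsto_log_atTop.comp hcast
  have hb0 := hb q₀
  have hball : ∀ᶠ X : ℕ in atTop, ∀ q ∈ T, ((AExt F q.1.2 X).ncard : ℝ) ≤ (C q + C q₀) * ((X : ℝ) * Real.log X ^ (a qs - 1)) := by
    rw [Filter.eventually_all_finset]
    intro q hq
    filter_upwards [hb q, hb0, hlog.eventually (eventually_ge_atTop 1)] with X h1 h2 h3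
    have hX0 : (0 : ℝ) ≤ (X : ℝ) := Nat.cast_nonneg _
    have hpos : 0 ≤ (X : ℝ) * Real.log X ^ (a qs - 1) := by positivity
    by_cases hcy : IsCyclic (Multiplicative (V q.1.2))
    · have h4 : ((AExt F q.1.2 X).ncard : ℝ) ≤ ((AExt F n₀ X).ncard : ℝ) := by
        have hf₀ : (AExt F n₀ X).Finite := (hfin X).subset (aext_sub hprod₀ X)
        refine Nat.cast_le.2 (Set.ncard_le_ncard ?_ hf₀)
        intro H hH
        refine cyc_struct (n₀ := n₀) (hn₀ 0) (aext_sub q.2.2 X hH) ?_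
        obtain ⟨_, -, ⟨φ⟩, -⟩ := hH
        exact isCyclic_of_surjective φ.symm φ.symm.surjective
      have h5 : Real.log X ^ (a q₀ - 1) ≤ Real.log X ^ (a qs - 1) :=
        pow_le_pow_right₀ h3 (Nat.sub_le_sub_right (ha01.trans (hmax q₁ (Finset.mem_insert_self _ _))) 1)
      have h6 : ((AExt F n₀ X).ncard : ℝ) ≤ C q₀ * ((X : ℝ) * Real.log X ^ (a q₀ - 1)) := h2.2
      have h7 : C q₀ * ((X : ℝ) * Real.log X ^ (a q₀ - 1)) ≤ C q₀ * ((X : ℝ) * Real.log X ^ (a qs - 1)) := by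
        have := hC q₀
        gcongr
      have h8 : 0 ≤ C q * ((X : ℝ) * Real.log X ^ (a qs - 1)) := mul_nonneg (hC q).le hpos
      linarith [add_mul (C q) (C q₀) ((X : ℝ) * Real.log X ^ (a qs - 1))]
    · have h5 : Real.log X ^ (a q - 1) ≤ Real.log X ^ (a qs - 1) :=
        pow_le_pow_right₀ h3 (Nat.sub_le_sub_right (hmax q (Finset.mem_insert_of_mem (Finset.mem_filter.2 ⟨hq, hcy⟩))) 1)
      have h7 : C q * ((X : ℝ) * Real.log X ^ (a q - 1)) ≤ C q * ((X : ℝ) * Real.log X ^ (a qs - 1)) := by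
        have := hC q
        gcongr
      have h8 : 0 ≤ C q₀ * ((X : ℝ) * Real.log X ^ (a qs - 1)) := mul_nonneg (hC q₀).le hpos
      linarith [add_mul (C q) (C q₀) ((X : ℝ) * Real.log X ^ (a qs - 1)), h1.2]
  have hd := nag_density F qs.1.2 (exists_ne_zero hN2 qs.2.2) hk' P (fun H hNF hGal φ h =>
    hP H hNF hGal ⟨⟨fun σ τ => φ.injective (by rw [map_mul, map_mul, mul_comm])⟩⟩ h)
  have hbad := bad_of_density hd.1 hd.2 (show (0 : ℝ) < 1 / 2 by norm_num)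
  set D : ℝ := ∑ q ∈ T, (C q + C q₀) with hD
  have hD0 : 0 ≤ D := Finset.sum_nonneg fun q _ => add_nonneg (hC q).le (hC q₀).le
  refine ⟨hfin, c qs / (2 * (D + 1)), div_pos (hc qs) (by positivity), ?_⟩
  filter_upwards [hball, hbad, hb qs, hlog.eventually (eventually_ge_atTop 1), eventually_ge_atTop 1] with X h1 h2 h3 h4 h11
  have hX0 : (0 : ℝ) ≤ (X : ℝ) := Nat.cast_nonneg _
  have hpos : 0 ≤ (X : ℝ) * Real.log X ^ (a qs - 1) := by positivity
  have h5 : ((AbExt F N X).ncard : ℝ) ≤ D * ((X : ℝ) * Real.log X ^ (a qs - 1)) := by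
    have hsub : AbExt F N X ⊆ ⋃ q ∈ T, AExt F q.1.2 X := by
      intro H hH
      obtain ⟨q, hq, hne', hHq⟩ := ab_struct hH
      rw [Set.mem_iUnion₂]
      exact ⟨⟨q, hGQ q hq⟩, hT _ hq, hHq⟩
    have h6 : (AbExt F N X).ncard ≤ ∑ q ∈ T, (AExt F q.1.2 X).ncard :=
      (Set.ncard_le_ncard hsub (T.finite_toSet.biUnion fun q _ => (hfin X).subset (aext_sub q.2.2 X))).trans
        (Finset.set_ncard_biUnion_le _ _)
    calc ((AbExt F N X).ncard : ℝ) ≤ ∑ q ∈ T, ((AExt F q.1.2 X).ncard : ℝ) := by exact_mod_cast h6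
      _ ≤ ∑ q ∈ T, (C q + C q₀) * ((X : ℝ) * Real.log X ^ (a qs - 1)) := Finset.sum_le_sum h1
      _ = D * ((X : ℝ) * Real.log X ^ (a qs - 1)) := by rw [hD, Finset.sum_mul]
  have h6 : {H | H ∈ AExt F qs.1.2 X ∧ P H}.ncard + {H | H ∈ AExt F qs.1.2 X ∧ ¬ P H}.ncard = (AExt F qs.1.2 X).ncard := by
    rw [← Set.ncard_union_eq ?_ ((hd.1 X).subset fun x hx => hx.1) ((hd.1 X).subset fun x hx => hx.1)]
    · congr 1
      ext x
      by_cases hp : P x <;> simp [hp]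
    · rw [Set.disjoint_left]
      exact fun x h4 h5 => h5.2 h4.2
  have h6' : ({H | H ∈ AExt F qs.1.2 X ∧ P H}.ncard : ℝ) + ({H | H ∈ AExt F qs.1.2 X ∧ ¬ P H}.ncard : ℝ) =
      ((AExt F qs.1.2 X).ncard : ℝ) := by exact_mod_cast h6
  have h7 : ({H | H ∈ AExt F qs.1.2 X ∧ P H}.ncard : ℝ) ≤ ({H | H ∈ AbExt F N X ∧ (¬ IsCyclic Gal(H/F) ∧ P H)}.ncard : ℝ) := by
    refine Nat.cast_le.2 (Set.ncard_le_ncard ?_ ((hfin X).subset fun H hH => hH.1))
    rintro H ⟨hH, hPH⟩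
    refine ⟨aext_sub qs.2.2 X hH, fun hcy => ?_, hPH⟩
    obtain ⟨_, -, ⟨φ⟩, -⟩ := hH
    exact hqnc (isCyclic_of_surjective φ φ.surjective)
  have h8 := h3.1
  have h10 : 0 < (AbExt F N X).ncard := by
    have h12 : (0 : ℝ) < (X : ℝ) := by exact_mod_cast h11
    have h13 : 0 < c qs * ((X : ℝ) * Real.log X ^ (a qs - 1)) := mul_pos (hc qs) (mul_pos h12 (pow_pos (by linarith) _))
    have h14 : (0 : ℝ) < ((AExt F qs.1.2 X).ncard : ℝ) := by linarith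
    exact (by exact_mod_cast h14 : 0 < (AExt F qs.1.2 X).ncard).trans_le (Set.ncard_le_ncard (aext_sub qs.2.2 X) (hfin X))
  have h9 : c qs / 2 * ((X : ℝ) * Real.log X ^ (a qs - 1)) ≤ ({H | H ∈ AExt F qs.1.2 X ∧ P H}.ncard : ℝ) := by linarith
  refine ⟨h10, le_trans ?_ (h9.trans h7)⟩
  have hcq := hc qs
  calc c qs / (2 * (D + 1)) * ((AbExt F N X).ncard : ℝ) ≤ c qs / (2 * (D + 1)) * (D * ((X : ℝ) * Real.log X ^ (a qs - 1))) := by gcongr
    _ = c qs / 2 * (D / (D + 1)) * ((X : ℝ) * Real.log X ^ (a qs - 1)) := by field_simp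
    _ ≤ c qs / 2 * 1 * ((X : ℝ) * Real.log X ^ (a qs - 1)) := by
        refine mul_le_mul_of_nonneg_right (mul_le_mul_of_nonneg_left ?_ (by positivity)) hpos
        rw [div_le_one (by positivity)]
        linarith
    _ = c qs / 2 * ((X : ℝ) * Real.log X ^ (a qs - 1)) := by ring

end StarkR
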