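import Pool.Agent.Lib.MP_d9bae3_nt.NG.GB
import Pool.Agent.Lib.MP_d9bae3_nt.NG.Conj
import Pool.Agent.Lib.MP_d9bae3_nt.NA.OrdQ

/-!
# Module NAG-OrdUp: multiplicities in cyclotomic extensions

* `ord_gal`: `τ • x ∈ (τ Q)^k ↔ x ∈ Q^k` (`mem_pow_iff`).
* `ord_up`: `L/K` is Galois and `L = K(ζ)`; the inertia group of `Q` in `Gal(L/K)` is trivial: if `σ ζ - ζ ∈ Q` then `σ ζ = ζ` as `e ∉ Q`.  So the ramification index is `1` (Mathlib: `Ideal.card_inertia_eq_ramificationIdxIn` or a similar name), and the exponent of `Q` in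
  `algebraMap x` is the exponent of `Q.under` in `x` (the ideal `(x)` of `𝓞 K` is `q^k 𝔞`, `𝔞` prime to `q`, and `q 𝓞 L = Q 𝔟` with `Q ∤ 𝔟`).
* `ord_up_good`: the same conclusion.
-/

set_option linter.unusedSectionVars false

namespace StarkR

open NumberField IsDedekindDomain Filter Topology
open scoped Pointwise

section

variable {F K L : Type} [Field F] [NumberField F] [Field K] [NumberField K] [Field L] [NumberField L]
variable [Algebra F K] [Algebra K L] [Algebra F L] [IsScalarTower F K L]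

theorem ord_gal (τ : Gal(L/F)) (Q : Prm L) {x : 𝓞 L} (hx : x ≠ 0) : ordQ (cjP τ Q) (τ • x) = ordQ Q x := by
  have hx' : τ • x ≠ 0 := by
    intro h
    apply hx
    rw [← inv_smul_smul τ x, h, smul_zero]
  have key : ∀ k : ℕ, k ≤ ordQ (cjP τ Q) (τ • x) ↔ k ≤ ordQ Q x := by
    intro k
    rw [← mem_pow_iff _ hx', ← mem_pow_iff _ hx]
    have h1 : (cjP τ Q).asIdeal ^ k = τ • (Q.asIdeal ^ k) := by
      change (τ • Q.asIdeal) ^ k = _
      rw [smul_pow']
    rw [h1]
    exact Ideal.smul_mem_pointwise_smul_iff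
  exact le_antisymm ((key _).1 le_rfl) ((key _).2 le_rfl)

variable (F) in
theorem ord_up {e : ℕ} (he : 0 < e) {ζ : L} (hζ : IsPrimitiveRoot ζ e) [IsCyclotomicExtension {e} F L] {Q : Prm L}
    (hQ : (e : 𝓞 L) ∉ Q.asIdeal) {x : 𝓞 K} (hx : x ≠ 0) : ordQ Q (algebraMap (𝓞 K) (𝓞 L) x) = ordQ (Q.under (𝓞 K)) x := by
  classical
  have hne : NeZero e := ⟨he.ne'⟩
  have hG0 : IsGalois F L := IsCyclotomicExtension.isGalois {e} F L
  have hG : IsGalois K L := IsGalois.tower_top_of_isGalois F K L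
  set q : Prm K := Q.under (𝓞 K) with hq
  have hlo : Q.asIdeal.LiesOver q.asIdeal := ⟨rfl⟩
  -- the inertia group is trivial
  have hbot : Q.asIdeal.inertia Gal(L/K) = ⊥ := by
    rw [eq_bot_iff]
    intro σ hσ
    have hζi : IsIntegral ℤ ζ := hζ.isIntegral he
    set z : 𝓞 L := ⟨ζ, hζi⟩ with hz
    have hzσ : σ • z - z ∈ Q.asIdeal := hσ z
    have hze : z ^ e = 1 := RingOfIntegers.ext hζ.pow_eq_one
    have hfix : σ ζ = ζ := by
      by_contra hne2
      obtain ⟨n, rfl⟩ : ∃ n, e = n + 1 := ⟨e - 1, by omega⟩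
      have hzz : z ^ n * z = 1 := by rw [← pow_succ]; exact hze
      set ω : 𝓞 L := z ^ n * (σ • z) with hω
      have hσze : (σ • z) ^ (n + 1) = 1 := by rw [← smul_pow', hze, smul_one]
      have hωe : ω ^ (n + 1) = 1 := by
        rw [hω, mul_pow, hσze, mul_one, ← pow_mul, mul_comm, pow_mul, hze, one_pow]
      have hω1 : ω ≠ 1 := by
        intro h
        apply hne2
        have h2 : σ • z = z := by
          calc σ • z = (z ^ n * z) * (σ • z) := by rw [hzz, one_mul]
            _ = ω * z := by rw [hω]; ring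
            _ = z := by rw [h, one_mul]
        exact congrArg (algebraMap (𝓞 L) L) h2
      have hωQ : ω - 1 ∈ Q.asIdeal := by
        have h3 : ω - 1 = z ^ n * (σ • z - z) := by rw [mul_sub, hzz]
        rw [h3]
        exact Q.asIdeal.mul_mem_left _ hzσ
      have hsum : ∑ k ∈ Finset.range (n + 1), ω ^ k = 0 := by
        have h4 := mul_geom_sum ω (n + 1)
        rw [hωe, sub_self] at h4
        exact (mul_eq_zero.1 h4).resolve_left (sub_ne_zero.2 hω1)
      apply hQ
      have h5 : (((n + 1 : ℕ) : 𝓞 L)) = - ∑ k ∈ Finset.range (n + 1), (ω ^ k - 1) := by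
        rw [Finset.sum_sub_distrib, hsum]
        simp
      rw [h5]
      refine neg_mem (Ideal.sum_mem _ fun k _ => ?_)
      have h6 : ω - 1 ∣ ω ^ k - 1 := by
        have := sub_dvd_pow_sub_pow ω 1 k
        rwa [one_pow] at this
      obtain ⟨c, hc⟩ := h6
      rw [hc]
      exact Q.asIdeal.mul_mem_right _ hωQ
    rw [Subgroup.mem_bot]
    have htop := IsCyclotomicExtension.adjoin_primitive_root_eq_top (A := F) (B := L) hζ
    have h7 : (σ.restrictScalars F : L →ₐ[F] L) = AlgHom.id F L := by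
      refine AlgHom.ext_of_adjoin_eq_top htop ?_
      intro y hy
      rw [Set.mem_singleton_iff] at hy
      subst hy
      exact hfix
    ext y
    exact DFunLike.congr_fun h7 y
  have hE := HeightOneSpectrum.intValuation_liesOver q Q x
  have hE1 : q.asIdeal.ramificationIdx' Q.asIdeal = 1 := by
    have hfin : Finite (𝓞 K ⧸ q.asIdeal) := Ideal.finiteQuotientOfFreeOfNeBot q.asIdeal q.ne_bot
    have hfin2 : Finite q.asIdeal.ResidueField := by
      have hb := q.isMaximal
      exact Finite.of_surjective _ (Ideal.bijective_algebraMap_quotient_residueField q.asIdeal).2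
    have h5 := Ideal.card_inertia_eq_ramificationIdxIn (G := Gal(L/K)) q.asIdeal Q.asIdeal
    rw [hbot, Subgroup.card_bot] at h5
    rw [Ideal.ramificationIdx'_eq_ramificationIdx q.asIdeal Q.asIdeal q.ne_bot,
      ← Ideal.ramificationIdxIn_eq_ramificationIdx q.asIdeal Q.asIdeal Gal(L/K), ← h5]
  rw [hE1, pow_one] at hE
  have hx' : algebraMap (𝓞 K) (𝓞 L) x ≠ 0 := by
    rwa [ne_eq, FaithfulSMul.algebraMap_eq_zero_iff]
  rw [HeightOneSpectrum.intValuation_if_neg _ hx, HeightOneSpectrum.intValuation_if_neg _ hx', WithZero.exp_inj, neg_inj] at hE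
  unfold ordQ
  exact_mod_cast hE.symm

end

end StarkR
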