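import Pool.Agent.Lib.MP_d9bae3_nt.NG.Conj
import Pool.Agent.Lib.MP_d9bae3_nt.NG.OrdUp
import Pool.Agent.Lib.MP_d9bae3_nt.SG.CHil
import Pool.Agent.Lib.MP_d9bae3_nt.SG.CEig
import Pool.Agent.Lib.MP_d9bae3_nt.SG.GRam
import Pool.Agent.Lib.MP_d9bae3_nt.SG.GComp

/-!
# Module NAG-EqD: radicands of an abelian extension

`κ = φ ∘ resLH : Gal(M/L) → V n` is injective (`resLH_injective`).  `M/F` is Galois (`comp_galois`) and abelian (`abelian_of_split` with `ψ = φ ∘ restriction to H`: an automorphism of `M` trivial on `H` and on `L` is trivial; `L/F` is abelian: cyclotomic).  `kummer_gen` (SG/CHil.lean) gives `α`, `kummer_mem` (SG/CEig.lean) gives `α_i ^ n_i = c_i ∈ L`;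
multiply `α_i` with an integer `D ≠ 0` so that the `c_i` are in `𝓞 L` (the conditions on `α` are stable).  `kummer_eig`: for `σ ∈ Gal(M/F)` with restriction `τ` and `τ ζ = ζ^j` we have `σ α_i = α_i^j x`, so `τ (c_i) = c_i^j x^(n_i)` with `x ∈ L`, `x ≠ 0`.  Multiplicities at `τ Q` (write `x = a/b` with `a, b ∈ 𝓞 L`):
`ordQ Q c_i = ordQ (τ Q) (τ c_i) ≡ j ordQ (τ Q) c_i` modulo `n_i` (`ord_gal`).
-/

set_option linter.unusedSectionVars false

namespace StarkR

open NumberField IsDedekindDomain Filter Topology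
open scoped Pointwise

variable {F L : Type} [Field F] [NumberField F] [Field L] [NumberField L] [Algebra F L]
variable {H M : Type} [Field H] [NumberField H] [Field M] [NumberField M] [Algebra F H] [Algebra F M] [Algebra L M] [Algebra H M]
variable [IsScalarTower F L M] [IsScalarTower F H M]
variable {m : ℕ} {n : Fin m → ℕ} [∀ i, NeZero (n i)]

private theorem EqD_inj {σ : Gal(M/F)} (hc : IsCompositum L H M) (h1 : ∀ x : H, σ (algebraMap H M x) = algebraMap H M x)
    (h2 : ∀ x : L, σ (algebraMap L M x) = algebraMap L M x) : σ = 1 := by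
  let σ' : Gal(M/L) := { (σ : M ≃+* M) with commutes' := h2 }
  have h3 : IntermediateField.adjoin L (Set.range (algebraMap H M)) ≤
      IntermediateField.fixedField (Subgroup.zpowers σ') := by
    rw [IntermediateField.adjoin_le_iff]
    rintro _ ⟨x, rfl⟩
    rw [SetLike.mem_coe, IntermediateField.mem_fixedField_iff]
    intro f hf
    obtain ⟨k, rfl⟩ := Subgroup.mem_zpowers_iff.mp hf
    have h4 : σ' ∈ MulAction.stabilizer Gal(M/L) (algebraMap H M x) := h1 x
    exact Subgroup.zpow_mem _ h4 k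
  rw [hc, top_le_iff] at h3
  ext x
  have h4 : x ∈ IntermediateField.fixedField (Subgroup.zpowers σ') := by
    rw [h3]; exact IntermediateField.mem_top
  rw [IntermediateField.mem_fixedField_iff] at h4
  exact h4 σ' (Subgroup.mem_zpowers σ')

private theorem EqD_ratio (y : L) : ∃ a b : 𝓞 L, b ≠ 0 ∧ y * (b : L) = (a : L) := by
  obtain ⟨a, b, hb, h⟩ := IsFractionRing.div_surjective (A := 𝓞 L) y
  have hb0 : b ≠ 0 := nonZeroDivisors.ne_zero hb
  have hb1 : (algebraMap (𝓞 L) L b) ≠ 0 := by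
    rwa [ne_eq, FaithfulSMul.algebraMap_eq_zero_iff]
  refine ⟨a, b, hb0, ?_⟩
  rw [← h]
  exact div_mul_cancel₀ _ hb1

theorem eq_data [IsGalois F H] {e : ℕ} {ζ : L} (hζ : IsPrimitiveRoot ζ e) (he : 0 < e) (hn : ∀ i, n i ∣ e) [IsCyclotomicExtension {e} F L]
    (φ : Gal(H/F) →* Multiplicative (V n)) (hφ : Function.Injective φ) (hc : IsCompositum L H M) :
    ∃ (x : Fin m → 𝓞 L) (α : Fin m → M), (∀ i, x i ≠ 0) ∧ (∀ i, α i ^ n i = algebraMap L M (x i : L)) ∧
      IntermediateField.adjoin L (Set.range α) = ⊤ ∧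
      ∀ (τ : Gal(L/F)) (j : ℕ), τ ζ = ζ ^ j → ∀ (i : Fin m) (Q : Prm L),
        ((ordQ Q (x i) : ℕ) : ZMod (n i)) = (j : ZMod (n i)) * ((ordQ (cjP τ Q) (x i) : ℕ) : ZMod (n i)) := by
  have hGL : IsGalois F L := IsCyclotomicExtension.isGalois {e} F L
  have hAL : IsAbelianGalois F L := IsCyclotomicExtension.isAbelianGalois {e} F L
  have hGM : IsGalois F M := comp_galois F L H M hc
  have hGLM : IsGalois L M := IsGalois.tower_top_of_isGalois F L M
  have hAM : IsAbelianGalois F M := by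
    refine abelian_of_split (L := L) (φ.comp (AlgEquiv.restrictNormalHom H)) fun σ h1 h2 => ?_
    have h3 : AlgEquiv.restrictNormalHom H σ = 1 := hφ (h1.trans (map_one φ).symm)
    refine EqD_inj (H := H) (L := L) hc (fun x => ?_) h2
    have h4 : (AlgEquiv.restrictNormalHom H σ) x = x := by rw [h3]; rfl
    have h5 := AlgEquiv.restrictNormal_commutes σ H x
    refine h5.symm.trans ?_
    exact congrArg (algebraMap H M) h4
  obtain ⟨α, hα0, hα, hgen⟩ := kummer_gen he hζ hn (φ.comp (resLH F L H M)) (hφ.comp (resLH_injective hc))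
  have hmem := fun i => kummer_mem hζ hn hα i
  choose c hc1 using hmem
  have hint : ∀ i, ∃ D : ℤ, D ≠ 0 ∧ IsIntegral ℤ (D • c i) := by
    intro i
    have h1 : IsAlgebraic ℚ (c i) := Algebra.IsAlgebraic.isAlgebraic _
    exact ((IsFractionRing.isAlgebraic_iff ℤ ℚ L).2 h1).exists_integral_multiple
  choose D hD0 hD using hint
  have hn0 : ∀ i, n i ≠ 0 := fun i => NeZero.ne (n i)
  have hDL : ∀ i, ((D i : ℤ) : L) ≠ 0 := fun i => Int.cast_ne_zero.2 (hD0 i)
  have hDM : ∀ i, ((D i : ℤ) : M) ≠ 0 := fun i => Int.cast_ne_zero.2 (hD0 i)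
  have hxi : ∀ i, IsIntegral ℤ (((D i : ℤ) : L) ^ n i * c i) := by
    intro i
    obtain ⟨k, hk⟩ : ∃ k, n i = k + 1 := Nat.exists_eq_succ_of_ne_zero (hn0 i)
    have h1 : ((D i : ℤ) : L) ^ n i * c i = ((D i : ℤ) : L) ^ k * (D i • c i) := by
      rw [hk, zsmul_eq_mul]
      ring
    rw [h1]
    exact ((isIntegral_intCast (D i)).pow k).mul (hD i)
  let x : Fin m → 𝓞 L := fun i => ⟨((D i : ℤ) : L) ^ n i * c i, hxi i⟩
  have hx : ∀ i, (x i : L) = ((D i : ℤ) : L) ^ n i * c i := fun i => rfl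
  have hc0 : ∀ i, c i ≠ 0 := by
    intro i h
    have h1 := hc1 i
    rw [h, map_zero] at h1
    exact pow_ne_zero _ (hα0 i) h1
  have hx0 : ∀ i, x i ≠ 0 := by
    intro i h
    have h1 : (x i : L) = 0 := by rw [h]; rfl
    rw [hx] at h1
    exact mul_ne_zero (pow_ne_zero _ (hDL i)) (hc0 i) h1
  have hxM : ∀ i, (((D i : ℤ) : M) * α i) ^ n i = algebraMap L M (x i : L) := by
    intro i
    rw [hx, map_mul, map_pow, map_intCast, mul_pow, hc1]
  have hα' : ∀ (σ : Gal(M/L)) (i : Fin m), σ (((D i : ℤ) : M) * α i) =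
      algebraMap L M (ζ ^ ((e / n i) * (((φ.comp (resLH F L H M)) σ).toAdd i).val)) * (((D i : ℤ) : M) * α i) := by
    intro σ i
    rw [map_mul, map_intCast, hα σ i]
    ring
  have hα0' : ∀ i, ((D i : ℤ) : M) * α i ≠ 0 := fun i => mul_ne_zero (hDM i) (hα0 i)
  refine ⟨x, fun i => ((D i : ℤ) : M) * α i, hx0, hxM, ?_, ?_⟩
  · rw [eq_top_iff, ← hgen, IntermediateField.adjoin_le_iff]
    rintro _ ⟨i, rfl⟩
    have h1 : ((D i : ℤ) : M) * α i ∈ IntermediateField.adjoin L (Set.range fun i => ((D i : ℤ) : M) * α i) :=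
      IntermediateField.subset_adjoin L _ ⟨i, rfl⟩
    have h2 : ((D i : ℤ) : M)⁻¹ ∈ IntermediateField.adjoin L (Set.range fun i => ((D i : ℤ) : M) * α i) :=
      inv_mem (intCast_mem _ _)
    have h3 : α i = ((D i : ℤ) : M)⁻¹ * (((D i : ℤ) : M) * α i) := by
      rw [inv_mul_cancel_left₀ (hDM i)]
    show α i ∈ _
    rw [h3]
    exact mul_mem h2 h1
  · intro τ j hτ i Q
    obtain ⟨σ, hσ⟩ := AlgEquiv.restrictNormalHom_surjective (F := F) (K₁ := L) M τ
    have hσL : ∀ y : L, σ (algebraMap L M y) = algebraMap L M (τ y) := by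
      intro y
      have h1 := AlgEquiv.restrictNormal_commutes σ L y
      rw [← h1, ← hσ]
      rfl
    obtain ⟨y, hy0, hy⟩ := kummer_eig hn hα0' hα' σ j (by rw [hσL, hτ]) i
    have h1 : algebraMap L M (τ (x i : L)) = algebraMap L M ((x i : L) ^ j * y ^ n i) := by
      rw [← hσL, ← hxM, map_pow, hy, mul_pow, map_mul, map_pow, map_pow, ← hxM, ← pow_mul, ← pow_mul, mul_comm j]
    have h2 : τ (x i : L) = (x i : L) ^ j * y ^ n i := (algebraMap L M).injective h1
    obtain ⟨a, b, hb0, hab⟩ := EqD_ratio y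
    have ha0 : a ≠ 0 := by
      intro h
      rw [h] at hab
      have h3 : y * (b : L) = 0 := hab
      rcases mul_eq_zero.1 h3 with h4 | h4
      · exact hy0 h4
      · exact hb0 (by exact_mod_cast h4)
    have h3 : (τ • x i) * b ^ n i = x i ^ j * a ^ n i := by
      apply RingOfIntegers.ext
      show τ (x i : L) * (b : L) ^ n i = (x i : L) ^ j * (a : L) ^ n i
      rw [h2, ← hab]
      ring
    have hτx : τ • x i ≠ 0 := by
      intro h
      rw [h, zero_mul] at h3
      exact mul_ne_zero (pow_ne_zero _ (hx0 i)) (pow_ne_zero _ ha0) h3.symm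
    have h4 := congrArg (ordQ (cjP τ Q)) h3
    rw [ordQ_mul _ hτx (pow_ne_zero _ hb0), ordQ_mul _ (pow_ne_zero _ (hx0 i)) (pow_ne_zero _ ha0), ordQ_pow _ hb0,
      ordQ_pow _ (hx0 i), ordQ_pow _ ha0, ord_gal τ Q (hx0 i)] at h4
    have h5 := congrArg (fun t : ℕ => (t : ZMod (n i))) h4
    simpa using h5

end StarkR
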