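import Pool.Agent.Lib.MP_d9bae3_nt.NG.TofU
import Pool.Agent.Lib.MP_d9bae3_nt.NG.EqD
import Pool.Agent.Lib.MP_d9bae3_nt.NA.FinA

/-!
# Module NAG-DecG: the tuple of ideals of an abelian extension

`eq_data` gives `x`, `α`; `u Q = (ordQ Q (x i) mod n_i)_i` (finite support by `ordQ_finite`), `T_of_u` gives `T`.  Let `E` be the set for `L`, `SL`.  For every `i`, `pow_unit` (NA/OrdQ.lean, over `L`) for `a = x i`, `b = rad (bG rep (g T) 1) i`, `N = n i` gives `ε_i ∈ E`, `y_i`, `z_i` (the multiplicities agree modulo `n i` at all `Q ∉ SL` by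
`ordQ_rad`).  Put `ε w = ε_i` if `w` is the unit vector at `i` and `n i ≠ 1`, and `ε w = 1` otherwise (as in `decomp`, NA/DecT.lean); `rad (bG rep (g T) ε) i = ε_i rad (bG rep (g T) 1) i` if `n i ≠ 1`.  `isExt_change` (NA/FinA.lean).
-/

set_option linter.unusedSectionVars false

namespace StarkR

open NumberField IsDedekindDomain Filter Topology
open scoped Pointwise

variable {F L : Type} [Field F] [NumberField F] [Field L] [NumberField L] [Algebra F L]
variable {ι : Type} [Fintype ι] {K : ι → Type} [∀ i, Field (K i)] [∀ i, NumberField (K i)]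
variable [∀ i, Algebra F (K i)] [∀ i, Algebra (K i) L] [∀ i, IsScalarTower F (K i) L]
variable {m : ℕ} {n : Fin m → ℕ} [∀ i, NeZero (n i)]
variable {e : ℕ} {ζ : L} {d : ι → ℕ} {z : (i : ι) → K i} {t : (i : ι) → Gal(K i/F) → ℕ} {v : ι → V n} {rep : (Σ i, Gal(K i/F)) ≃ W n}
variable {S : Finset (Prm F)} {SL : Finset (Prm L)} {SK : (i : ι) → Finset (Prm (K i))} {g : (i : ι) → Ideal (𝓞 (K i)) → 𝓞 (K i)}
variable {H M : Type} [Field H] [NumberField H] [Field M] [NumberField M] [Algebra F H] [Algebra F M] [Algebra L M] [Algebra H M]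
variable [IsScalarTower F L M] [IsScalarTower F H M]

theorem decG [IsGalois F H] (hζ : IsPrimitiveRoot ζ e) (he : 0 < e) (hn : ∀ i, n i ∣ e) [IsCyclotomicExtension {e} F L]
    (hlev : IsLev (L := L) e ζ d z t v rep) (hSS : IsSS (F := F) e S SL SK) (hg : ∀ i, IsGen (SK i) (g i))
    {E : Finset (𝓞 L)} (hE1 : ∀ ε ∈ E, IsSU SL ε)
    (hE2 : ∀ x : 𝓞 L, IsSU SL x → ∃ ε ∈ E, ∃ z w : 𝓞 L, IsSU SL z ∧ IsSU SL w ∧ x * z ^ e = ε * w ^ e)
    (φ : Gal(H/F) →* Multiplicative (V n)) (hφ : Function.Injective φ) (hc : IsCompositum L H M) :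
    ∃ (ε : V n → 𝓞 L) (T : (i : ι) → Ideal (𝓞 (K i))) (α : Fin m → M), (∀ w, ε w ∈ E ∨ ε w = 1) ∧ (∀ i, Cop (SK i) (T i)) ∧ SqG F T ∧
      IsExt (bG rep (fun i => g i (T i)) ε) M α := by
  classical
  obtain ⟨x, α, hx, hα, hgen, hord⟩ := eq_data (M := M) hζ he hn φ hφ hc
  obtain ⟨u, hu⟩ : ∃ u : Prm L → V n, ∀ Q i, u Q i = ((ordQ Q (x i) : ℕ) : ZMod (n i)) :=
    ⟨fun Q i => ((ordQ Q (x i) : ℕ) : ZMod (n i)), fun _ _ => rfl⟩
  have hfin : {Q : Prm L | u Q ≠ 0}.Finite := by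
    refine (Set.finite_iUnion fun i => ordQ_finite (hx i)).subset fun Q hQ => ?_
    rw [Set.mem_iUnion]
    by_contra hcon
    push Not at hcon
    apply hQ
    funext i
    have h1 : ordQ Q (x i) = 0 := by
      by_contra h2
      exact hcon i h2
    rw [hu, h1]
    simp
  have hu2 : ∀ (τ : Gal(L/F)) (j : ℕ), τ ζ = ζ ^ j → ∀ Q : Prm L, u Q = j • u (cjP τ Q) := by
    intro τ j hj Q
    funext i
    rw [Pi.smul_apply, nsmul_eq_mul, hu, hu]
    exact hord τ j hj i Q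
  obtain ⟨T, hT1, hT2, hT3⟩ := T_of_u (n := n) hζ he hn hlev hSS hfin hu2
  have hone : ∀ w : V n, IsSU SL ((fun _ => (1 : 𝓞 L) : V n → 𝓞 L) w) := fun w => isSU_one SL
  have hc0 : ∀ i, g i (T i) ≠ 0 := fun i => (hg i _ (hT1 i).1).1
  have hB0 : ∀ w : V n, bG rep (fun i => g i (T i)) (fun _ => (1 : 𝓞 L)) w ≠ 0 := by
    intro w
    unfold bG
    by_cases h : w ≠ 0
    · rw [dif_pos h, one_mul]
      intro h1
      have h2 := (map_eq_zero_iff _ (FaithfulSMul.algebraMap_injective (𝓞 (K (rep.symm ⟨w, h⟩).1)) (𝓞 L))).1 h1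
      exact hc0 _ ((smul_eq_zero_iff_eq _).1 h2)
    · rw [dif_neg h]
      exact one_ne_zero
  have hb0 : ∀ i, rad (bG rep (fun i => g i (T i)) (fun _ => (1 : 𝓞 L))) i ≠ 0 := fun i =>
    Finset.prod_ne_zero_iff.2 fun w _ => pow_ne_zero _ (hB0 w)
  have hmod : ∀ (i : Fin m) (Q : Prm L), Q ∉ SL → ordQ Q (x i) % n i =
      ordQ Q (rad (bG rep (fun i => g i (T i)) (fun _ => (1 : 𝓞 L))) i) % n i := by
    intro i Q hQ
    rw [ordQ_rad hζ he hlev hSS hg hT1 hT2 hone hQ i, hT3 Q hQ, hu, ZMod.val_natCast, Nat.mod_mod]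
  have hpu : ∀ i : Fin m, ∃ ε ∈ E, ∃ y z : 𝓞 L, y ≠ 0 ∧ z ≠ 0 ∧
      x i * y ^ n i = ε * rad (bG rep (fun i => g i (T i)) (fun _ => (1 : 𝓞 L))) i * z ^ n i := fun i =>
    pow_unit he hSS.goodL hE1 hE2 (Nat.pos_of_ne_zero (NeZero.ne (n i))) (hn i) (hx i) (hb0 i) (hmod i)
  choose η hη y y' hy0 hy0' hyy using hpu
  obtain ⟨ε, hε1, hε2⟩ : ∃ ε : V n → 𝓞 L, (∀ i, n i ≠ 1 → ε (Pi.single i 1) = η i) ∧
      ∀ w, (∀ i, n i ≠ 1 → w ≠ Pi.single i 1) → ε w = 1 := by
    refine ⟨fun w => if h : ∃ i, n i ≠ 1 ∧ w = Pi.single i 1 then η h.choose else 1, fun i hi => ?_, fun w hw => ?_⟩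
    · have h : ∃ j, n j ≠ 1 ∧ (Pi.single i 1 : V n) = Pi.single j 1 := ⟨i, hi, rfl⟩
      simp only
      rw [dif_pos h]
      have h1 := h.choose_spec
      by_contra hne
      have h2 : h.choose ≠ i := fun h' => hne (by rw [h'])
      have h3 := congrFun h1.2 i
      rw [Pi.single_eq_same, Pi.single_eq_of_ne h2.symm] at h3
      have : Nontrivial (ZMod (n i)) := by
        have : Fact (1 < n i) := ⟨by have := NeZero.ne (n i); omega⟩
        exact ZMod.nontrivial (n i)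
      exact one_ne_zero h3
    · simp only
      rw [dif_neg]
      rintro ⟨i, hi, h⟩
      exact hw i hi h
  have hrad : ∀ i, n i ≠ 1 → rad (bG rep (fun i => g i (T i)) ε) i =
      η i * rad (bG rep (fun i => g i (T i)) (fun _ => (1 : 𝓞 L))) i := by
    intro i hi
    have e0 : ∀ w : V n, bG rep (fun i => g i (T i)) ε w ^ (w i).val = ε w ^ (w i).val *
        bG rep (fun i => g i (T i)) (fun _ => (1 : 𝓞 L)) w ^ (w i).val := by
      intro w
      unfold bG
      by_cases h : w ≠ 0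
      · rw [dif_pos h, dif_pos h, one_mul, mul_pow]
      · rw [dif_neg h, dif_neg h]
        push Not at h
        rw [h]
        simp
    unfold rad
    rw [Finset.prod_congr rfl fun w _ => e0 w, Finset.prod_mul_distrib]
    congr 1
    rw [Finset.prod_eq_single (Pi.single i 1 : V n)]
    · rw [hε1 i hi, Pi.single_eq_same, ZMod.val_one'' hi, pow_one]
    · intro w _ hw
      by_cases h : ∀ j, n j ≠ 1 → w ≠ Pi.single j 1
      · rw [hε2 w h, one_pow]
      · push Not at h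
        obtain ⟨j, hj, h⟩ := h
        have hji : i ≠ j := by
          rintro rfl
          exact hw h
        rw [h, Pi.single_eq_of_ne hji, ZMod.val_zero, pow_zero]
    · intro h
      exact absurd (Finset.mem_univ _) h
  have hyz : ∀ i, (if n i = 1 then (1 : 𝓞 L) else y i) ≠ 0 ∧ (if n i = 1 then x i else y' i) ≠ 0 := by
    intro i
    by_cases h : n i = 1
    · rw [if_pos h, if_pos h]
      exact ⟨one_ne_zero, hx i⟩
    · rw [if_neg h, if_neg h]
      exact ⟨hy0 i, hy0' i⟩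
  have hxy : ∀ i, x i * (if n i = 1 then (1 : 𝓞 L) else y i) ^ n i =
      rad (bG rep (fun i => g i (T i)) ε) i * (if n i = 1 then x i else y' i) ^ n i := by
    intro i
    by_cases h : n i = 1
    · rw [if_pos h, if_pos h]
      have e1 : rad (bG rep (fun i => g i (T i)) ε) i = 1 := by
        unfold rad
        refine Finset.prod_eq_one fun w _ => ?_
        have h1 := ZMod.val_lt (w i)
        have h2 : (w i).val = 0 := by omega
        rw [h2, pow_zero]
      rw [e1, h]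
      ring
    · rw [if_neg h, if_neg h, hrad i h]
      exact hyy i
  refine ⟨ε, T, _, fun w => ?_, hT1, hT2, isExt_change hα hgen hyz hxy⟩
  by_cases h : ∀ j, n j ≠ 1 → w ≠ Pi.single j 1
  · exact Or.inr (hε2 w h)
  · push Not at h
    obtain ⟨j, hj, h⟩ := h
    left
    rw [h, hε1 j hj]
    exact hη j

end StarkR
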