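import Pool.Agent.Lib.MP_d9bae3_nt.NG.MixD
import Pool.Agent.Lib.MP_d9bae3_nt.NG.TupG
import Pool.Agent.Lib.MP_d9bae3_nt.NA.EvD
import Pool.Agent.Lib.MP_d9bae3_nt.NA.SEx

/-!
# Module NAG-EvDG: the probability of `EvA`

As NA/EvD.lean.  `{T ∈ TG S X | ∀ a ∈ A, EvA e g (P a) (R a) T} = tupG B X` with `B i = {I | Cop (S i) I ∧ (∀ q ∈ ⋃_a P a i, ...) ∧ (∀ q ∈ ⋃_a R a i, Res ...)}`; `mix_dens` for the unions (`Finset.biUnion`), which are disjoint by `h1`, `h2`; the products over the unions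
are the products over `a ∈ A` of the products.  Divide the asymptotics of `tupG_asymp` by the one of `TG`.
-/

set_option linter.unusedSectionVars false

namespace StarkR

open NumberField IsDedekindDomain Filter Topology
open scoped Pointwise

variable {ι : Type} [Fintype ι] {K : ι → Type} [∀ i, Field (K i)] [∀ i, NumberField (K i)]

/-- the probability of `EvA` -/
noncomputable def dlA (e : ℕ) (P R : (i : ι) → Finset (Prm (K i))) : ℝ :=
  ∏ i, ((∏ q ∈ P i, (1 / (nm q : ℝ) * (1 - 1 / (nm q : ℝ)))) * ∏ q ∈ R i, rho e q)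

private theorem evdg_nm_two {F : Type} [Field F] [NumberField F] (q : Prm F) : 2 ≤ (nm q : ℝ) := by
  have h1 : nm q ≠ 1 := by
    intro h
    unfold nm at h
    rw [Ideal.absNorm_eq_one_iff] at h
    exact q.isPrime.ne_top h
  have h0 : nm q ≠ 0 := by
    intro h
    unfold nm at h
    rw [Ideal.absNorm_eq_zero_iff] at h
    exact q.ne_bot h
  have : 2 ≤ nm q := by omega
  exact_mod_cast this

private theorem evdg_rho_nonneg {F : Type} [Field F] [NumberField F] (e : ℕ) (q : Prm F) : 0 ≤ rho e q := by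
  unfold rho; positivity

private theorem evdg_inv_half {F : Type} [Field F] [NumberField F] (q : Prm F) : 1 / (nm q : ℝ) ≤ 1 / 2 :=
  one_div_le_one_div_of_le (by norm_num) (evdg_nm_two q)

private theorem evdg_nonneg {F : Type} [Field F] [NumberField F] (q : Prm F) : 0 ≤ 1 / (nm q : ℝ) * (1 - 1 / (nm q : ℝ)) := by
  have h2 := evdg_nm_two q
  have hh := evdg_inv_half q
  have hN : 0 ≤ 1 / (nm q : ℝ) := by positivity
  have : 0 ≤ 1 - 1 / (nm q : ℝ) := by linarith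
  positivity

private theorem evdg_le_one {F : Type} [Field F] [NumberField F] (q : Prm F) : 1 / (nm q : ℝ) * (1 - 1 / (nm q : ℝ)) ≤ 1 := by
  have h2 := evdg_nm_two q
  have hh := evdg_inv_half q
  have hN : 0 ≤ 1 / (nm q : ℝ) := by positivity
  nlinarith

theorem dlA_nonneg (e : ℕ) (P R : (i : ι) → Finset (Prm (K i))) : 0 ≤ dlA e P R := by
  unfold dlA
  exact Finset.prod_nonneg fun i _ => mul_nonneg (Finset.prod_nonneg fun q _ => evdg_nonneg q)
    (Finset.prod_nonneg fun q _ => evdg_rho_nonneg e q)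

theorem dlA_le_one (e : ℕ) (P R : (i : ι) → Finset (Prm (K i))) : dlA e P R ≤ 1 := by
  unfold dlA
  refine Finset.prod_le_one (fun i _ => mul_nonneg (Finset.prod_nonneg fun q _ => evdg_nonneg q)
    (Finset.prod_nonneg fun q _ => evdg_rho_nonneg e q)) fun i _ => ?_
  exact mul_le_one₀ (Finset.prod_le_one (fun q _ => evdg_nonneg q) fun q _ => evdg_le_one q)
    (Finset.prod_nonneg fun q _ => evdg_rho_nonneg e q)
    (Finset.prod_le_one (fun q _ => evdg_rho_nonneg e q) fun q _ => rho_le e q)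

theorem TG_pos (S : (i : ι) → Finset (Prm (K i))) {X : ℝ} (hX : 1 ≤ X) : 0 < (TG S X).ncard := by
  unfold TG
  rw [Set.ncard_pos (tupG_finite _ X)]
  refine ⟨fun _ => ⊤, ?_, ?_⟩
  · intro i
    refine ⟨⟨top_ne_bot, ?_⟩, top_ne_bot⟩
    intro q _ h
    exact q.isPrime.ne_top (top_le_iff.mp h)
  · simpa using hX

private theorem evdg_TG_lim [Nonempty ι] {S : (i : ι) → Finset (Prm (K i))} {c : ι → ℝ}
    (hc : ∀ i, HasDens {I : Ideal (𝓞 (K i)) | Cop (S i) I} (c i)) :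
    Tendsto (fun X : ℝ => ((TG S X).ncard : ℝ) / (X * Real.log X ^ (Fintype.card ι - 1))) atTop
      (𝓝 ((∏ i, c i) / ((Fintype.card ι - 1).factorial : ℝ))) :=
  tupG_asymp (fun i => {I : Ideal (𝓞 (K i)) | Cop (S i) I}) c hc

theorem TG_grow [Nonempty ι] {e : ℕ} (he : 0 < e) {S : (i : ι) → Finset (Prm (K i))} (hS : ∀ i, GoodS e (S i))
    {c : ℝ} (hc : 1 ≤ c) : ∃ C : ℝ, 0 < C ∧ ∀ᶠ X : ℝ in atTop, ((TG S X).ncard : ℝ) ≤ C * ((TG S (X / c)).ncard : ℝ) := by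
  have hd : ∀ i, ∃ κ : ℝ, 0 < κ ∧ HasDens {I : Ideal (𝓞 (K i)) | Cop (S i) I} κ := by
    intro i
    obtain ⟨g, hg⟩ := exists_gen (hS i)
    obtain ⟨κ, h0, h1, -⟩ := mix_dens he (hS i) hg
    exact ⟨κ, h0, h1⟩
  choose κ hκ0 hκ using hd
  have hlim := evdg_TG_lim hκ
  set k := Fintype.card ι - 1 with hk
  set L := (∏ i, κ i) / (k.factorial : ℝ) with hL
  have hL0 : 0 < L := by
    rw [hL]
    have : 0 < ∏ i, κ i := Finset.prod_pos fun i _ => hκ0 i
    positivity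
  have hc0 : 0 < c := by linarith
  have hlim2 : Tendsto (fun X : ℝ => ((TG S (X / c)).ncard : ℝ) / ((X / c) * Real.log (X / c) ^ k)) atTop (𝓝 L) :=
    hlim.comp (tendsto_id.atTop_div_const hc0)
  refine ⟨4 * c * 2 ^ k, by positivity, ?_⟩
  have h1 : ∀ᶠ X : ℝ in atTop, ((TG S X).ncard : ℝ) / (X * Real.log X ^ k) < 2 * L :=
    hlim.eventually_lt_const (by linarith)
  have h2 : ∀ᶠ X : ℝ in atTop, L / 2 < ((TG S (X / c)).ncard : ℝ) / ((X / c) * Real.log (X / c) ^ k) :=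
    hlim2.eventually_const_lt (by linarith)
  filter_upwards [h1, h2, eventually_gt_atTop (c ^ 2), eventually_gt_atTop (2 : ℝ), eventually_gt_atTop (2 * c)] with X hX1 hX2 hX3 hX4 hX5
  have hX0 : 0 < X := by linarith
  have hlogX : 0 < Real.log X := Real.log_pos (by linarith)
  have hXc : 1 < X / c := by rw [lt_div_iff₀ hc0]; linarith
  have hlogXc : 0 < Real.log (X / c) := Real.log_pos hXc
  have hlog : Real.log X ≤ 2 * Real.log (X / c) := by
    rw [Real.log_div hX0.ne' hc0.ne']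
    have : Real.log (c ^ 2) < Real.log X := Real.log_lt_log (by positivity) hX3
    rw [Real.log_pow] at this
    push_cast at this
    linarith
  rw [div_lt_iff₀ (by positivity)] at hX1
  rw [lt_div_iff₀ (by positivity)] at hX2
  have hpow : Real.log X ^ k ≤ 2 ^ k * Real.log (X / c) ^ k := by
    rw [← mul_pow]
    exact pow_le_pow_left₀ hlogX.le hlog _
  calc ((TG S X).ncard : ℝ) ≤ 2 * L * (X * Real.log X ^ k) := hX1.le
    _ ≤ 2 * L * (X * (2 ^ k * Real.log (X / c) ^ k)) := by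
        apply mul_le_mul_of_nonneg_left _ (by positivity)
        exact mul_le_mul_of_nonneg_left hpow hX0.le
    _ = (4 * c * 2 ^ k) * (L / 2 * (X / c * Real.log (X / c) ^ k)) := by
        field_simp
        ring
    _ ≤ (4 * c * 2 ^ k) * ((TG S (X / c)).ncard : ℝ) :=
        mul_le_mul_of_nonneg_left hX2.le (by positivity)

theorem ev_probA [Nonempty ι] {e : ℕ} (he : 0 < e) {S : (i : ι) → Finset (Prm (K i))} (hS : ∀ i, GoodS e (S i))
    {g : (i : ι) → Ideal (𝓞 (K i)) → 𝓞 (K i)} (hg : ∀ i, IsGen (S i) (g i)) {κ : Type} (P R : κ → (i : ι) → Finset (Prm (K i)))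
    (A : Finset κ) (hPP : ∀ a ∈ A, ∀ (i : ι) (q : Prm (K i)), q ∈ P a i ∨ q ∈ R a i → PP e (S i) q)
    (h1 : ∀ a ∈ A, ∀ i, Disjoint (P a i) (R a i))
    (h2 : ∀ a ∈ A, ∀ a' ∈ A, a ≠ a' → ∀ (i : ι) (q : Prm (K i)), q ∈ P a i ∨ q ∈ R a i → ¬ (q ∈ P a' i ∨ q ∈ R a' i)) :
    Tendsto (fun X : ℝ => (Set.ncard {T : (i : ι) → Ideal (𝓞 (K i)) | T ∈ TG S X ∧ ∀ a ∈ A, EvA e g (P a) (R a) T} : ℝ) /
      ((TG S X).ncard : ℝ)) atTop (𝓝 (∏ a ∈ A, dlA e (P a) (R a))) := by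
  classical
  have hd := fun i => mix_dens he (hS i) (hg i)
  choose c hc0 hc hmix using hd
  have hlim := evdg_TG_lim hc
  set k := Fintype.card ι - 1 with hk
  have hcpos : 0 < ∏ i, c i := Finset.prod_pos fun i _ => hc0 i
  have hden0 : (∏ i, c i) / (k.factorial : ℝ) ≠ 0 := by positivity
  let PA : (i : ι) → Finset (Prm (K i)) := fun i => A.biUnion fun a => P a i
  let RA : (i : ι) → Finset (Prm (K i)) := fun i => A.biUnion fun a => R a i
  have hPA : ∀ i q, q ∈ PA i ↔ ∃ a ∈ A, q ∈ P a i := fun i q => Finset.mem_biUnion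
  have hRA : ∀ i q, q ∈ RA i ↔ ∃ a ∈ A, q ∈ R a i := fun i q => Finset.mem_biUnion
  have hdisj : ∀ i, Disjoint (PA i) (RA i) := by
    intro i
    rw [Finset.disjoint_left]
    intro q hq hq'
    obtain ⟨a, ha, hqa⟩ := (hPA i q).1 hq
    obtain ⟨a', ha', hqa'⟩ := (hRA i q).1 hq'
    by_cases haa : a = a'
    · subst haa
      exact Finset.disjoint_left.1 (h1 a ha i) hqa hqa'
    · exact h2 a ha a' ha' haa i q (Or.inl hqa) (Or.inr hqa')
  let B : (i : ι) → Set (Ideal (𝓞 (K i))) := fun i =>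
    {I | Cop (S i) I ∧ (∀ q ∈ PA i, I ≤ q.asIdeal ∧ ¬ I ≤ q.asIdeal ^ 2) ∧ ∀ q ∈ RA i, Res e (g i) q I}
  let D : ι → ℝ := fun i => c i * (∏ q ∈ PA i, (1 / (nm q : ℝ) * (1 - 1 / (nm q : ℝ)))) * ∏ q ∈ RA i, rho e q
  have hBD : ∀ i, HasDens (B i) (D i) := fun i => hmix i (PA i) (RA i) (hdisj i)
    (fun q hq => by
      obtain ⟨a, ha, hqa⟩ := (hPA i q).1 hq
      exact hPP a ha i q (Or.inl hqa))
    (fun q hq => by
      obtain ⟨a, ha, hqa⟩ := (hRA i q).1 hq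
      exact hPP a ha i q (Or.inr hqa))
  have hnum := tupG_asymp B D hBD
  have hset : ∀ X : ℝ, {T : (i : ι) → Ideal (𝓞 (K i)) | T ∈ TG S X ∧ ∀ a ∈ A, EvA e g (P a) (R a) T} = tupG B X := by
    intro X
    ext T
    constructor
    · rintro ⟨⟨t1, t2⟩, t3⟩
      refine ⟨fun i => ⟨⟨(t1 i).1, fun q hq => ?_, fun q hq => ?_⟩, (t1 i).2⟩, t2⟩
      · obtain ⟨a, ha, hqa⟩ := (hPA i q).1 hq
        exact (t3 a ha i).1 q hqa
      · obtain ⟨a, ha, hqa⟩ := (hRA i q).1 hq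
        exact (t3 a ha i).2 q hqa
    · rintro ⟨t1, t2⟩
      refine ⟨⟨fun i => ⟨(t1 i).1.1, (t1 i).2⟩, t2⟩, fun a ha i => ⟨fun q hq => ?_, fun q hq => ?_⟩⟩
      · exact (t1 i).1.2.1 q ((hPA i q).2 ⟨a, ha, hq⟩)
      · exact (t1 i).1.2.2 q ((hRA i q).2 ⟨a, ha, hq⟩)
  have hprod : ∏ i, D i = (∏ i, c i) * ∏ a ∈ A, dlA e (P a) (R a) := by
    have e1 : ∀ i, D i = c i * ∏ a ∈ A, ((∏ q ∈ P a i, (1 / (nm q : ℝ) * (1 - 1 / (nm q : ℝ)))) * ∏ q ∈ R a i, rho e q) := by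
      intro i
      have u1 : ∏ q ∈ PA i, (1 / (nm q : ℝ) * (1 - 1 / (nm q : ℝ))) =
          ∏ a ∈ A, ∏ q ∈ P a i, (1 / (nm q : ℝ) * (1 - 1 / (nm q : ℝ))) := by
        refine Finset.prod_biUnion ?_
        intro a ha a' ha' haa
        refine Finset.disjoint_left.2 fun q hq hq' => ?_
        exact h2 a ha a' ha' haa i q (Or.inl hq) (Or.inl hq')
      have u2 : ∏ q ∈ RA i, rho e q = ∏ a ∈ A, ∏ q ∈ R a i, rho e q := by
        refine Finset.prod_biUnion ?_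
        intro a ha a' ha' haa
        refine Finset.disjoint_left.2 fun q hq hq' => ?_
        exact h2 a ha a' ha' haa i q (Or.inr hq) (Or.inr hq')
      show c i * (∏ q ∈ PA i, (1 / (nm q : ℝ) * (1 - 1 / (nm q : ℝ)))) * ∏ q ∈ RA i, rho e q = _
      rw [u1, u2, Finset.prod_mul_distrib, mul_assoc]
    rw [Finset.prod_congr rfl fun i _ => e1 i, Finset.prod_mul_distrib, Finset.prod_comm]
    rfl
  rw [hprod] at hnum
  have hdiv := hnum.div hlim hden0
  have hval : (∏ i, c i) * (∏ a ∈ A, dlA e (P a) (R a)) / (k.factorial : ℝ) / ((∏ i, c i) / (k.factorial : ℝ)) =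
      ∏ a ∈ A, dlA e (P a) (R a) := by
    have h3 : (k.factorial : ℝ) ≠ 0 := by positivity
    have h4 : ∏ i, c i ≠ 0 := hcpos.ne'
    generalize ∏ i, c i = C at h4 ⊢
    field_simp
  rw [hval] at hdiv
  refine hdiv.congr' ?_
  filter_upwards [eventually_gt_atTop (2 : ℝ)] with X hX
  have hX0 : X ≠ 0 := by linarith
  have hlogX : Real.log X ≠ 0 := (Real.log_pos (by linarith)).ne'
  simp only [Pi.div_apply]
  rw [hset X]
  exact div_div_div_cancel_right₀ (mul_ne_zero hX0 (pow_ne_zero _ hlogX)) _ _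

end StarkR
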