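import Pool.Agent.Lib.MP_d9bae3_nt.NG.GB

/-!
# Module NAG-RadTw: the radicands in terms of the twists

`rad (bG rep c 1) j = ∏_{w ≠ 0} B_w^((w j).val) = ∏_{(i, τ)} algebraMap (τ • c i)^((t_i(τ) • v i) j).val` (reindex with `rep`; `bG_rep`, `bG_zero`, `rep_eq`), and `∏_i algebraMap (twist (t i) (c i))^((v i j).val) = ∏_{(i, τ)} algebraMap (τ • c i)^(t_i(τ) (v i j).val)`; and `t (v i j).val = ((t • v i) j).val + n_j q` with `q = t (v i j).val / n_j` (`ZMod.val_mul`/`ZMod.val_natCast`).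
-/

set_option linter.unusedSectionVars false

namespace StarkR

open NumberField IsDedekindDomain Filter Topology
open scoped Pointwise

variable {F L : Type} [Field F] [NumberField F] [Field L] [NumberField L] [Algebra F L]
variable {ι : Type} [Fintype ι] {K : ι → Type} [∀ i, Field (K i)] [∀ i, NumberField (K i)]
variable [∀ i, Algebra F (K i)] [∀ i, Algebra (K i) L] [∀ i, IsScalarTower F (K i) L]
variable {m : ℕ} {n : Fin m → ℕ} [∀ i, NeZero (n i)]
variable {e : ℕ} {ζ : L} {d : ι → ℕ} {z : (i : ι) → K i} {t : (i : ι) → Gal(K i/F) → ℕ} {v : ι → V n} {rep : (Σ i, Gal(K i/F)) ≃ W n}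
variable {S : Finset (Prm F)} {SL : Finset (Prm L)} {SK : (i : ι) → Finset (Prm (K i))} {g : (i : ι) → Ideal (𝓞 (K i)) → 𝓞 (K i)}

private theorem radTw_val {k : ℕ} [NeZero k] (a : ℕ) (x : ZMod k) : a * x.val = (a • x).val + k * (a * x.val / k) := by
  have h : (a • x).val = a * x.val % k := by
    rw [nsmul_eq_mul, ZMod.val_mul, ZMod.val_natCast, Nat.mod_mul_mod]
  rw [h]
  exact (Nat.mod_add_div _ _).symm

theorem rad_twist_eq (hlev : IsLev (L := L) e ζ d z t v rep) (c : (i : ι) → 𝓞 (K i)) (hc : ∀ i, c i ≠ 0) (j : Fin m) :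
    ∃ u : 𝓞 L, u ≠ 0 ∧ ∏ i, algebraMap (𝓞 (K i)) (𝓞 L) (twist (t i) (c i)) ^ (v i j).val = rad (bG rep c (fun _ => (1 : 𝓞 L))) j * u ^ n j := by
  classical
  have h1 : rad (bG rep c (fun _ => (1 : 𝓞 L))) j =
      ∏ p : (Σ i, Gal(K i/F)), algebraMap (𝓞 (K p.1)) (𝓞 L) (p.2 • c p.1) ^ ((t p.1 p.2 • v p.1) j).val := by
    unfold rad
    rw [Fintype.prod_eq_mul_prod_subtype_ne _ (0 : V n), bG_zero, one_pow, one_mul]
    have h2 := Equiv.prod_comp rep fun w : W n => bG rep c (fun _ => (1 : 𝓞 L)) (w : V n) ^ ((w : V n) j).val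
    refine Eq.trans ?_ (h2.symm.trans ?_)
    · rfl
    · refine Finset.prod_congr rfl fun p _ => ?_
      rcases p with ⟨i, τ⟩
      rw [bG_rep, one_mul, hlev.rep_eq]
  refine ⟨∏ p : (Σ i, Gal(K i/F)), algebraMap (𝓞 (K p.1)) (𝓞 L) (p.2 • c p.1) ^ (t p.1 p.2 * (v p.1 j).val / n j), ?_, ?_⟩
  · refine Finset.prod_ne_zero_iff.2 fun p _ => pow_ne_zero _ ?_
    rw [Ne, FaithfulSMul.algebraMap_eq_zero_iff]
    intro h
    exact hc p.1 ((smul_eq_zero_iff_eq p.2).1 h)
  · rw [h1, ← Finset.prod_pow, ← Finset.prod_mul_distrib, Fintype.prod_sigma]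
    refine Finset.prod_congr rfl fun i _ => ?_
    unfold twist
    rw [map_prod, ← Finset.prod_pow]
    refine Finset.prod_congr rfl fun τ _ => ?_
    rw [map_pow, ← pow_mul, ← pow_mul, ← pow_add]
    congr 1
    have h3 := radTw_val (t i τ) (v i j)
    have h4 : ((t i τ • v i) j).val = (t i τ • v i j).val := rfl
    rw [h4]
    refine h3.trans ?_
    rw [mul_comm (n j)]

end StarkR
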