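import Pool.Agent.Lib.MP_d9bae3_nt.NG.PsiL
import Pool.Agent.Lib.MP_d9bae3_nt.NG.RadTw

/-!
# Module NAG-ExPsi: the homomorphism for all levels together

`ψ_i` from `psi_level` for `c i`, `y i`, `N` (`z i` is a primitive `d i`-th root of unity: `IsLev.root`, `hζ`).  `ψ σ = ∑_i (ψ_i σ).val • v i` in `V n`; it is a homomorphism, since `d i • v i = 0` (`addOrderOf (v i) = d i`).  Let `σ` be trivial on `L`.  `n_j ∣ d_i (v_i j).val` (as `d_i v_i = 0`), put `s_ij = d_i (v_i j).val / n_j` and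
`β_j = ∏_i y_i ^ s_ij / u_j` with `u_j` of `rad_twist_eq`; then `β_j^(n_j) = rad_j = α_j^(n_j)`, so `α_j = ζ^(k e/n_j) β_j` for some `k` (if `rad_j ≠ 0`, which follows from `c i ≠ 0`), and `σ α_j / α_j = σ β_j / β_j = ∏_i (z_i^(ψ_i σ))^(s_ij)`, `z_i = ζ^(e/d_i)`: the exponent of `ζ` is `∑_i (e/d_i) (ψ_i σ) d_i (v_i j).val / n_j =
∑_i (e/n_j) (ψ_i σ) (v_i j).val`, which is `(e/n_j) ((ψ σ) j).val` modulo `e`.
-/

set_option linter.unusedSectionVars false

namespace StarkR

open NumberField IsDedekindDomain Filter Topology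
open scoped Pointwise

variable {F L : Type} [Field F] [NumberField F] [Field L] [NumberField L] [Algebra F L]
variable {ι : Type} [Fintype ι] {K : ι → Type} [∀ i, Field (K i)] [∀ i, NumberField (K i)]
variable [∀ i, Algebra F (K i)] [∀ i, Algebra (K i) L] [∀ i, IsScalarTower F (K i) L]
variable {m : ℕ} {n : Fin m → ℕ} [∀ i, NeZero (n i)]
variable {e : ℕ} {ζ : L} {d : ι → ℕ} {z : (i : ι) → K i} {t : (i : ι) → Gal(K i/F) → ℕ} {v : ι → V n} {rep : (Σ i, Gal(K i/F)) ≃ W n}
variable {S : Finset (Prm F)} {SL : Finset (Prm L)} {SK : (i : ι) → Finset (Prm (K i))} {g : (i : ι) → Ideal (𝓞 (K i)) → 𝓞 (K i)}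

theorem exists_psi (hζ : IsPrimitiveRoot ζ e) (he : 0 < e) (hn : ∀ i, n i ∣ e) (hlev : IsLev (L := L) e ζ d z t v rep)
    {N : Type} [Field N] [NumberField N] [Algebra F N] [Algebra L N] [IsScalarTower F L N]
    (c : (i : ι) → 𝓞 (K i)) (hc : ∀ i, c i ≠ 0) {y : ι → N}
    (hy : ∀ i, y i ^ d i = algebraMap L N (algebraMap (K i) L ((twist (t i) (c i) : 𝓞 (K i)) : K i)))
    {α : Fin m → N} (hα : ∀ j, α j ^ n j = algebraMap L N ((rad (bG rep c (fun _ => (1 : 𝓞 L))) j : 𝓞 L) : L)) :
    ∃ ψ : Gal(N/F) →* Multiplicative (V n), ∀ σ : Gal(N/F), (∀ x : L, σ (algebraMap L N x) = algebraMap L N x) →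
      ∀ j, σ (α j) = algebraMap L N (ζ ^ ((e / n j) * ((ψ σ).toAdd j).val)) * α j := by
  classical
  have hdpos : ∀ i, 0 < d i := fun i => lt_of_lt_of_le (by norm_num) (hlev.two i)
  have hlevel : ∀ i, ∃ ψ : Gal(N/F) →* Multiplicative (ZMod (d i)), ∀ σ : Gal(N/F),
      (∀ x : L, σ (algebraMap L N x) = algebraMap L N x) →
      σ (y i) = algebraMap L N (ζ ^ ((e / d i) * (ψ σ).toAdd.val)) * y i := by
    intro i
    letI : Algebra (K i) N := ((algebraMap L N).comp (algebraMap (K i) L)).toAlgebra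
    have hmap : ∀ x : K i, algebraMap (K i) N x = algebraMap L N (algebraMap (K i) L x) := fun _ => rfl
    haveI : IsScalarTower F (K i) N := IsScalarTower.of_algebraMap_eq fun x => by
      rw [hmap, ← IsScalarTower.algebraMap_apply F (K i) L, ← IsScalarTower.algebraMap_apply F L N]
    haveI := hlev.gal i
    have hz : IsPrimitiveRoot (z i) (d i) := by
      have h1 : IsPrimitiveRoot (ζ ^ (e / d i)) (d i) := hζ.pow he (Nat.div_mul_cancel (hlev.dvd i)).symm
      rw [← hlev.root i] at h1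
      exact h1.of_map_of_injective (algebraMap (K i) L).injective
    obtain ⟨ψ, hψ⟩ := psi_level (F := F) (K := K i) (N := N) (hlev.two i) hz (hlev.inv i) (hc i) (y := y i)
      (by rw [hmap]; exact hy i)
    refine ⟨ψ, fun σ hσ => ?_⟩
    rw [hψ σ (fun x => by rw [hmap]; exact hσ _), hmap, map_pow (algebraMap (K i) L), hlev.root i, ← pow_mul]
  choose ψ hψ using hlevel
  have hvd : ∀ i, d i • v i = 0 := fun i => by
    rw [← hlev.order i]; exact addOrderOf_nsmul_eq_zero (v i)
  let f : (i : ι) → ZMod (d i) →+ V n := fun i => ZMod.lift (d i) ⟨zmultiplesHom (V n) (v i), by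
    rw [zmultiplesHom_apply, natCast_zsmul]; exact hvd i⟩
  have hf : ∀ i (a : ZMod (d i)), f i a = a.val • v i := by
    intro i a
    haveI : NeZero (d i) := ⟨(hdpos i).ne'⟩
    conv_lhs => rw [← ZMod.natCast_zmod_val a]
    have h1 : f i (((a.val : ℤ) : ZMod (d i))) = zmultiplesHom (V n) (v i) (a.val : ℤ) := ZMod.lift_coe _ _ _
    rw [Int.cast_natCast] at h1
    rw [h1]
    simp
  refine ⟨∏ i, (AddMonoidHom.toMultiplicative (f i)).comp (ψ i), fun σ hσ j => ?_⟩
  set a : ι → ℕ := fun i => (ψ i σ).toAdd.val with ha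
  set A : ℕ := ∑ i, a i * (v i j).val with hA
  have hval : ((((∏ i, (AddMonoidHom.toMultiplicative (f i)).comp (ψ i)) σ : Multiplicative (V n)).toAdd) j).val = A % n j := by
    have h1 : (((∏ i, (AddMonoidHom.toMultiplicative (f i)).comp (ψ i)) σ : Multiplicative (V n)).toAdd) = ∑ i, a i • v i := by
      rw [MonoidHom.finsetProd_apply, toAdd_prod]
      exact Finset.sum_congr rfl fun i _ => hf i _
    rw [h1]
    have h2 : (∑ i, a i • v i) j = ((A : ℕ) : ZMod (n j)) := by
      rw [Finset.sum_apply, hA, Nat.cast_sum]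
      refine Finset.sum_congr rfl fun i _ => ?_
      rw [Pi.smul_apply, nsmul_eq_mul, Nat.cast_mul, ZMod.natCast_zmod_val]
    rw [h2, ZMod.val_natCast]
  rw [hval]
  have hnj : 0 < n j := Nat.pos_of_ne_zero (NeZero.ne (n j))
  have hζe : ζ ^ (e / n j * n j) = 1 := by rw [Nat.div_mul_cancel (hn j)]; exact hζ.pow_eq_one
  have hred : ζ ^ ((e / n j) * (A % n j)) = ζ ^ ((e / n j) * A) := by
    conv_rhs => rw [← Nat.mod_add_div A (n j)]
    rw [mul_add, pow_add, ← mul_assoc (e / n j) (n j), pow_mul ζ (e / n j * n j), hζe, one_pow, mul_one]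
  rw [hred]
  by_cases hα0 : α j = 0
  · rw [hα0, map_zero, mul_zero]
  have hdvd : ∀ i, n j ∣ d i * (v i j).val := by
    intro i
    have h1 := congrFun (hvd i) j
    rw [Pi.smul_apply, nsmul_eq_mul, Pi.zero_apply] at h1
    rw [← ZMod.natCast_eq_zero_iff, Nat.cast_mul, ZMod.natCast_zmod_val]
    exact h1
  choose s hs using hdvd
  obtain ⟨u, hu0, hu⟩ := rad_twist_eq hlev c hc j
  set P : N := ∏ i, y i ^ s i with hP
  set U : N := algebraMap L N (u : L) with hU
  have hU0 : U ≠ 0 := by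
    rw [hU]
    have h1 : (u : L) ≠ 0 := by
      intro h
      exact hu0 (RingOfIntegers.coe_injective (h.trans (map_zero (algebraMap (𝓞 L) L)).symm))
    exact (map_ne_zero_iff _ (algebraMap L N).injective).2 h1
  have hPn : P ^ n j = α j ^ n j * U ^ n j := by
    have h1 : P ^ n j = ∏ i, algebraMap L N (algebraMap (K i) L ((twist (t i) (c i) : 𝓞 (K i)) : K i)) ^ (v i j).val := by
      rw [hP, ← Finset.prod_pow]
      refine Finset.prod_congr rfl fun i _ => ?_
      rw [← pow_mul, mul_comm (s i), ← hs i, pow_mul, hy i]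
    rw [h1, hα j, hU, ← map_pow, ← map_mul]
    have h2 : algebraMap L N (algebraMap (𝓞 L) L _) = algebraMap L N (algebraMap (𝓞 L) L _) :=
      congrArg (fun x : 𝓞 L => algebraMap L N (algebraMap (𝓞 L) L x)) hu
    rw [map_mul (algebraMap (𝓞 L) L), map_pow (algebraMap (𝓞 L) L), map_prod, map_prod] at h2
    rw [← h2]
    refine Finset.prod_congr rfl fun i _ => ?_
    rw [map_pow, map_pow]
    rfl
  have hP0 : P ≠ 0 := by
    intro h
    rw [h, zero_pow hnj.ne'] at hPn
    exact mul_ne_zero (pow_ne_zero _ hα0) (pow_ne_zero _ hU0) hPn.symm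
  have hprim : IsPrimitiveRoot (algebraMap L N (ζ ^ (e / n j))) (n j) := by
    have h1 : IsPrimitiveRoot (ζ ^ (e / n j)) (n j) := hζ.pow he (Nat.div_mul_cancel (hn j)).symm
    exact h1.map_of_injective (algebraMap L N).injective
  have hq : (α j * U / P) ^ n j = 1 := by
    rw [div_pow, mul_pow, ← hPn, div_self (pow_ne_zero _ hP0)]
  obtain ⟨k, -, hk⟩ := hprim.eq_pow_of_pow_eq_one hq
  have hαP : α j * U = algebraMap L N (ζ ^ (e / n j)) ^ k * P := by
    rw [hk, div_mul_cancel₀ _ hP0]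
  have hσU : σ U = U := hσ _
  have hexp : ∀ i, (e / d i) * a i * s i = (e / n j) * (a i * (v i j).val) := by
    intro i
    have h1 : (e / d i) * s i * n j = (e / n j) * (v i j).val * n j := by
      have h2 : (e / d i) * d i = e := Nat.div_mul_cancel (hlev.dvd i)
      have h3 : (e / n j) * n j = e := Nat.div_mul_cancel (hn j)
      calc (e / d i) * s i * n j = (e / d i) * (n j * s i) := by ring
        _ = (e / d i) * d i * (v i j).val := by rw [← hs i]; ring
        _ = (e / n j) * n j * (v i j).val := by rw [h2, h3]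
        _ = (e / n j) * (v i j).val * n j := by ring
    have h4 := Nat.eq_of_mul_eq_mul_right hnj h1
    calc (e / d i) * a i * s i = a i * ((e / d i) * s i) := by ring
      _ = (e / n j) * (a i * (v i j).val) := by rw [h4]; ring
  have hσP : σ P = algebraMap L N (ζ ^ ((e / n j) * A)) * P := by
    rw [hP, map_prod]
    have h1 : ∀ i, σ (y i ^ s i) = algebraMap L N (ζ ^ ((e / n j) * (a i * (v i j).val))) * y i ^ s i := by
      intro i
      rw [map_pow, hψ i σ hσ, mul_pow, ← map_pow, ← pow_mul, ← hexp i]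
    rw [Finset.prod_congr rfl fun i _ => h1 i, Finset.prod_mul_distrib, ← map_prod, Finset.prod_pow_eq_pow_sum, hA, Finset.mul_sum]
  have hfin : σ (α j) * U = algebraMap L N (ζ ^ ((e / n j) * A)) * α j * U := by
    have h1 := congrArg σ hαP
    rw [map_mul, hσU, map_mul, map_pow, hσ, hσP] at h1
    rw [h1, mul_assoc _ (α j) U, hαP]
    ring
  exact mul_right_cancel₀ hU0 hfin

end StarkR
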