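import Pool.Agent.Lib.MP_d9bae3_nt.NG.Many
import Pool.Agent.Lib.MP_d9bae3_nt.NA.FinA

/-!
# Module NAG-HPsi: the field of a homomorphism

`ker ψ` is a normal subgroup of `Gal(N/F)`, `H` its fixed field (`IntermediateField.fixedField`), Galois over `F` with `Gal(H/F) ≃ Gal(N/F)/ker ψ ≃ range ψ` (`IsGalois.normalAutEquivQuotient` or see `exists_complement` in SG/GComp.lean, whose proof can be adapted).  `ψ` restricted to the `σ` trivial on `L` is onto: let `M = L(α) ⊆ N`; by `gal_iso`/`kum` and `chr_surj` (SK) over `L`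
for `M` (`IsExt B M α`, `Rich e 1 B` by `lrich_rich`) the Kummer map of `Gal(M/L)` is onto `V n`, `Gal(N/L) → Gal(M/L)` is onto, and the formula for `σ (α j)` determines `(ψ σ) j` (if two elements of `ZMod (n j)` give the same power `ζ^((e/n j) ·)` they are equal).
`adjoin L H = adjoin L (range α)`: both are the fixed field of the set of the `σ ∈ Gal(N/L)` with `ψ σ = 1` (an element of `Gal(N/L)` fixes all `α j` iff `ψ σ = 1`, and it fixes `H` iff it is in `ker ψ`).
-/

set_option linter.unusedSectionVars false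

namespace StarkR

open NumberField IsDedekindDomain Filter Topology
open scoped Pointwise

variable {F L : Type} [Field F] [NumberField F] [Field L] [NumberField L] [Algebra F L]
variable {m : ℕ} {n : Fin m → ℕ} [∀ i, NeZero (n i)]

private theorem HPsi_fix {N : Type} [Field N] [Algebra L N] (S : Set N) (σ : Gal(N/L)) :
    σ ∈ (IntermediateField.adjoin L S).fixingSubgroup ↔ ∀ x ∈ S, σ x = x := by
  rw [IntermediateField.mem_fixingSubgroup_iff]
  constructor
  · intro h x hx
    exact h x (IntermediateField.subset_adjoin L S hx)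
  · intro h x hx
    induction hx using IntermediateField.adjoin_induction with
    | mem y hy => exact h y hy
    | algebraMap y => exact AlgEquiv.commutes σ y
    | add y z _ _ hy hz => rw [map_add, hy, hz]
    | inv y _ hy => rw [map_inv₀, hy]
    | mul y z _ _ hy hz => rw [map_mul, hy, hz]

theorem H_of_psi [IsGalois F L] {e : ℕ} {ζ : L} (hζ : IsPrimitiveRoot ζ e) (he : 0 < e) (hn : ∀ i, n i ∣ e)
    {N : Type} [Field N] [NumberField N] [Algebra F N] [Algebra L N] [IsScalarTower F L N] [IsGalois F N]
    {B : V n → 𝓞 L} (hB : LRich F e 1 B) {α : Fin m → N} (hα : ∀ j, α j ^ n j = algebraMap L N (rad B j : L))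
    (ψ : Gal(N/F) →* Multiplicative (V n)) (hψ : ∀ σ : Gal(N/F), (∀ x : L, σ (algebraMap L N x) = algebraMap L N x) →
      ∀ j, σ (α j) = algebraMap L N (ζ ^ ((e / n j) * ((ψ σ).toAdd j).val)) * α j) :
    ∃ H : IntermediateField F N, IsGalois F H ∧ Nonempty (Gal(H/F) ≃* Multiplicative (V n)) ∧
      IntermediateField.adjoin L (H : Set N) = IntermediateField.adjoin L (Set.range α) := by
  classical
  have hGL : IsGalois L N := IsGalois.tower_top_of_isGalois F L N
  have hfd : FiniteDimensional L N := FiniteDimensional.right ℚ L N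
  have hfd' : FiniteDimensional F N := FiniteDimensional.right ℚ F N
  have hr : Rich e 1 B := lrich_rich hB
  have hni : ∀ j, 0 < n j := fun j => Nat.pos_of_ne_zero (NeZero.ne (n j))
  have hα0 : ∀ j, α j ≠ 0 := by
    intro j h0
    have h1 := hα j
    rw [h0, zero_pow (hni j).ne'] at h1
    have h2 : ((rad B j : 𝓞 L) : L) = 0 := (algebraMap L N).injective (by rw [← h1, map_zero])
    exact rad_ne_zero hr j (RingOfIntegers.ext h2)
  have hz : ∀ i, IsPrimitiveRoot (algebraMap L N (ζ ^ (e / n i))) (n i) := fun i =>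
    (hζ.pow he (Nat.div_mul_cancel (hn i)).symm).map_of_injective (algebraMap L N).injective
  obtain ⟨ρ, hρ⟩ : ∃ ρ : Gal(N/L) →* Gal(N/F), ∀ (σ : Gal(N/L)) (x : N), ρ σ x = σ x :=
    ⟨AlgEquiv.restrictScalarsHom F, fun _ _ => rfl⟩
  obtain ⟨ψ', hψ'⟩ : ∃ ψ' : Gal(N/L) →* Multiplicative (V n), ∀ σ, ψ' σ = ψ (ρ σ) := ⟨ψ.comp ρ, fun _ => rfl⟩
  have hfix : ∀ (σ : Gal(N/L)), (∀ j, σ (α j) = α j) ↔ ψ' σ = 1 := by
    intro σ
    have h1 := hψ (ρ σ) (fun x => by rw [hρ]; exact σ.commutes x)
    rw [hψ']
    constructor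
    · intro h
      apply Multiplicative.toAdd.injective
      funext j
      have h2 := h1 j
      rw [hρ, h j, pow_mul, map_pow] at h2
      have h3 : (algebraMap L N (ζ ^ (e / n j))) ^ ((ψ (ρ σ)).toAdd j).val = 1 := by
        have h4 : (algebraMap L N (ζ ^ (e / n j))) ^ ((ψ (ρ σ)).toAdd j).val * α j = 1 * α j := by rw [← h2, one_mul]
        exact mul_right_cancel₀ (hα0 j) h4
      have h5 := ((hz j).pow_eq_one_iff_dvd _).1 h3
      have h6 : ((ψ (ρ σ)).toAdd j).val = 0 := Nat.eq_zero_of_dvd_of_lt h5 (ZMod.val_lt _)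
      exact (ZMod.val_eq_zero _).1 h6
    · intro h j
      have h2 := h1 j
      rw [h, hρ] at h2
      rw [h2]
      have h3 : ((Multiplicative.toAdd (1 : Multiplicative (V n))) j).val = 0 := ZMod.val_zero
      rw [h3, mul_zero, pow_zero, map_one, one_mul]
  obtain ⟨M, hM⟩ : ∃ M : IntermediateField L N, M = IntermediateField.adjoin L (Set.range α) := ⟨_, rfl⟩
  have hNFM : NumberField M := NumberField.of_module_finite L M
  have hker : M.fixingSubgroup = ψ'.ker := by
    ext σ
    rw [hM, HPsi_fix, MonoidHom.mem_ker, ← hfix]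
    constructor
    · intro h j
      exact h _ ⟨j, rfl⟩
    · rintro h _ ⟨j, rfl⟩
      exact h j
  have hMf : M = IntermediateField.fixedField ψ'.ker := by
    rw [← hker, IsGalois.fixedField_fixingSubgroup]
  have hGM : IsGalois L M := by
    rw [hMf]
    infer_instance
  have hmem : ∀ j, α j ∈ M := fun j => hM ▸ IntermediateField.subset_adjoin L _ ⟨j, rfl⟩
  have hext : IsExt B M (fun j => (⟨α j, hmem j⟩ : M)) := by
    constructor
    · intro j
      apply Subtype.ext
      exact hα j
    · apply IntermediateField.map_injective M.val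
      rw [IntermediateField.adjoin_map, ← AlgHom.fieldRange_eq_map, IntermediateField.fieldRange_val]
      refine Eq.trans ?_ hM.symm
      congr 1
      ext x
      constructor
      · rintro ⟨_, ⟨j, rfl⟩, rfl⟩
        exact ⟨j, rfl⟩
      · rintro ⟨j, rfl⟩
        exact ⟨_, ⟨j, rfl⟩, rfl⟩
  obtain ⟨iso⟩ := gal_iso hζ he hn hr hext
  have hcard : Nat.card ψ'.range = Nat.card (Multiplicative (V n)) := by
    rw [← Subgroup.index_ker, ← hker, ← IntermediateField.finrank_eq_fixingSubgroup_index, ← IsGalois.card_aut_eq_finrank]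
    exact Nat.card_congr iso.toEquiv
  have hsurj' : Function.Surjective ψ' := by
    rw [← MonoidHom.range_eq_top]
    exact Subgroup.eq_top_of_card_eq _ hcard
  have hsurj : Function.Surjective ψ := by
    intro w
    obtain ⟨σ, hσ⟩ := hsurj' w
    exact ⟨ρ σ, by rw [← hψ', hσ]⟩
  refine ⟨IntermediateField.fixedField ψ.ker, inferInstance,
    ⟨(IsGalois.normalAutEquivQuotient ψ.ker).symm.trans (QuotientGroup.quotientKerEquivOfSurjective ψ hsurj)⟩, ?_⟩
  rw [← hM]
  have hker2 : (IntermediateField.adjoin L ((IntermediateField.fixedField ψ.ker : IntermediateField F N) : Set N)).fixingSubgroup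
      = ψ'.ker := by
    ext σ
    rw [HPsi_fix, MonoidHom.mem_ker, hψ', ← MonoidHom.mem_ker]
    conv_rhs => rw [← IntermediateField.fixingSubgroup_fixedField ψ.ker, IntermediateField.mem_fixingSubgroup_iff]
    constructor
    · intro h x hx
      rw [hρ]
      exact h x hx
    · intro h x hx
      rw [← hρ]
      exact h x hx
  rw [← IsGalois.fixedField_fixingSubgroup (IntermediateField.adjoin L
    ((IntermediateField.fixedField ψ.ker : IntermediateField F N) : Set N)), hker2]
  exact hMf.symm

end StarkR
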