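import Pool.Agent.Lib.MP_d9bae3_nt.NG.GB
import Pool.Agent.Lib.MP_d9bae3_nt.NG.Conj
import Pool.Agent.Lib.MP_d9bae3_nt.NG.OrdUp

/-!
# Module NAG-RichLG: rich tuples give rich families

Let `w ≠ 0`, `w = rep (i, τ)`, `A` the set for `i`.  Let `τ' ∈ Gal(L/F)` restrict to `τ` (`AlgEquiv.restrictNormalHom_surjective`; `L/F` is Galois: cyclotomic).  Take the primes `τ' Q`, `Q ∈ A` (`cjP`).  `GoodPrm` is stable (`goodPrm_cjP`).  `Ev e w B (τ' Q)` for `B = bG rep (g T) ε`: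
* `B_w = ε_w algebraMap (τ • c_i) = ε_w (τ' • algebraMap c_i)` (`algebraMap_smul`), `c_i = g i (T i)`: it is in `τ' Q` iff `algebraMap c_i ∈ Q` iff `c_i ∈ Q ∩ K i` iff `T i ≤ Q ∩ K i` (`IsGen`; `Q ∉ SL`, `ε_w` is a unit outside `SL`; `τ' Q ∉ SL` by `IsSS.memL`).  It is not in `(τ' Q)^2` by `ord_up` and `¬ T i ≤ (Q ∩ K i)^2`.
* `w' ≠ w`: if `w' = 0`, `B = 1`.  If `w' = rep (j, σ)`: `B_w' = ε_w' algebraMap (σ • c_j)`; modulo `τ' Q` it is a nonzero `e`-th power iff `τ'⁻¹ B_w'` is one modulo `Q`; `τ'⁻¹ ε_w'` is a unit outside `SL`, so it is one by `PP`; `τ'⁻¹ algebraMap (σ • c_j) = algebraMap (ρ • c_j)`, `ρ = τ'|_{K j}⁻¹ σ`, and `ρ • c_j` is one modulo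
  `Q ∩ K j` as `c_j` is one modulo `ρ⁻¹ (Q ∩ K j)`: `EvG` (if `j = i` then `ρ = τ⁻¹ σ ≠ 1`).
The primes of `F` below are the same (`cjP_under`), so the map `Q ↦ τ' Q` is injective on `A`.
-/

set_option linter.unusedSectionVars false

namespace StarkR

open NumberField IsDedekindDomain Filter Topology
open scoped Pointwise

variable {F L : Type} [Field F] [NumberField F] [Field L] [NumberField L] [Algebra F L]
variable {ι : Type} [Fintype ι] {K : ι → Type} [∀ i, Field (K i)] [∀ i, NumberField (K i)]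
variable [∀ i, Algebra F (K i)] [∀ i, Algebra (K i) L] [∀ i, IsScalarTower F (K i) L]
variable {m : ℕ} {n : Fin m → ℕ} [∀ i, NeZero (n i)]
variable {e : ℕ} {ζ : L} {d : ι → ℕ} {z : (i : ι) → K i} {t : (i : ι) → Gal(K i/F) → ℕ} {v : ι → V n} {rep : (Σ i, Gal(K i/F)) ≃ W n}
variable {S : Finset (Prm F)} {SL : Finset (Prm L)} {SK : (i : ι) → Finset (Prm (K i))} {g : (i : ι) → Ideal (𝓞 (K i)) → 𝓞 (K i)}

private theorem RichLG_mul {P : Prm L} {a b : 𝓞 L} (ha : a ∉ P.asIdeal ∧ ∃ x : 𝓞 L, a - x ^ e ∈ P.asIdeal)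
    (hb : b ∉ P.asIdeal ∧ ∃ x : 𝓞 L, b - x ^ e ∈ P.asIdeal) :
    a * b ∉ P.asIdeal ∧ ∃ x : 𝓞 L, a * b - x ^ e ∈ P.asIdeal := by
  obtain ⟨a1, x, hx⟩ := ha
  obtain ⟨b1, y, hy⟩ := hb
  have hprime : P.asIdeal.IsPrime := P.isPrime
  refine ⟨fun h => ?_, x * y, ?_⟩
  · rcases hprime.mem_or_mem h with h | h
    · exact a1 h
    · exact b1 h
  · have h7 : a * b - (x * y) ^ e = a * (b - y ^ e) + y ^ e * (a - x ^ e) := by ring
    rw [h7]
    exact Ideal.add_mem _ (Ideal.mul_mem_left _ _ hy) (Ideal.mul_mem_left _ _ hx)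

/-- transport of residues by `τ` -/
private theorem RichLG_tr (τ : Gal(L/F)) {Q : Prm L} {a : 𝓞 L} (ha : a ∉ Q.asIdeal ∧ ∃ x : 𝓞 L, a - x ^ e ∈ Q.asIdeal) :
    τ • a ∉ (cjP τ Q).asIdeal ∧ ∃ x : 𝓞 L, τ • a - x ^ e ∈ (cjP τ Q).asIdeal := by
  obtain ⟨a1, x, hx⟩ := ha
  refine ⟨fun h => a1 ((smul_mem_cjP τ Q a).1 h), τ • x, ?_⟩
  rw [← smul_pow', ← smul_sub, smul_mem_cjP]
  exact hx

theorem lrich_of (hζ : IsPrimitiveRoot ζ e) (he : 0 < e) [IsCyclotomicExtension {e} F L] (hlev : IsLev (L := L) e ζ d z t v rep)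
    (hSS : IsSS (F := F) e S SL SK) (hg : ∀ i, IsGen (SK i) (g i)) {T : (i : ι) → Ideal (𝓞 (K i))} (hT : ∀ i, Cop (SK i) (T i))
    {ε : V n → 𝓞 L} (hε : ∀ w, IsSU SL (ε w)) {k : ℕ} (h : RichG F e SL g k T) :
    LRich F e k (bG rep (fun i => g i (T i)) ε) := by
  classical
  intro w hw
  obtain ⟨⟨i, τ⟩, hrep⟩ := rep.surjective ⟨w, hw⟩
  have hwr : w = ((rep ⟨i, τ⟩ : W n) : V n) := by rw [hrep]
  obtain ⟨A, hk, hA, hinj⟩ := h i
  have hgalL : IsGalois F L := IsCyclotomicExtension.isGalois {e} F L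
  have hgK := hlev.gal
  obtain ⟨τ', hτ'⟩ := AlgEquiv.restrictNormalHom_surjective (F := F) (K₁ := K i) L τ
  have hu : ∀ Q Q' : Prm L, (cjP τ' Q).under (𝓞 F) = (cjP τ' Q').under (𝓞 F) → Q.under (𝓞 F) = Q'.under (𝓞 F) := by
    intro Q Q' h1
    rwa [cjP_under, cjP_under] at h1
  refine ⟨A.image (cjP τ'), ?_, ?_, ?_⟩
  · rw [Finset.card_image_of_injOn]
    · exact hk
    · intro Q hQ Q' hQ' h1
      exact hinj Q hQ Q' hQ' (hu Q Q' (by rw [show cjP τ' Q = cjP τ' Q' from h1]))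
  · intro P hP
    obtain ⟨Q, hQ, rfl⟩ := Finset.mem_image.1 hP
    obtain ⟨⟨⟨hQS, hPP⟩, hQp, hQg⟩, h1, h2, h3⟩ := hA Q hQ
    refine ⟨goodPrm_cjP τ' hQg, ?_⟩
    -- outside `S`
    have hQF : Q.under (𝓞 F) ∉ S := fun h4 => hQS ((hSS.memL Q).2 h4)
    have hPS : cjP τ' Q ∉ SL := by
      rw [hSS.memL, cjP_under]
      exact hQF
    have hqS : ∀ j, Q.under (𝓞 (K j)) ∉ SK j := by
      intro j
      rw [hSS.memK, under_under]
      exact hQF
    have hεP : ∀ w, ε w ∉ (cjP τ' Q).asIdeal ∧ ∃ x : 𝓞 L, ε w - x ^ e ∈ (cjP τ' Q).asIdeal := by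
      intro w
      have hsu : IsSU SL (τ'⁻¹ • ε w) := by
        refine ⟨fun h4 => (hε w).1 ?_, fun q hq h4 => ?_⟩
        · rw [← smul_inv_smul τ' (ε w), h4, smul_zero]
        · have h5 := (smul_mem_cjP τ' q (τ'⁻¹ • ε w)).2 h4
          rw [smul_inv_smul] at h5
          refine (hε w).2 (cjP τ' q) ?_ h5
          rw [hSS.memL, cjP_under, ← hSS.memL]
          exact hq
      have h4 : τ'⁻¹ • ε w ∉ Q.asIdeal ∧ ∃ x : 𝓞 L, τ'⁻¹ • ε w - x ^ e ∈ Q.asIdeal :=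
        ⟨hsu.2 Q hQS, hPP _ hsu⟩
      have h5 := RichLG_tr τ' h4
      rwa [smul_inv_smul] at h5
    have hprime : (cjP τ' Q).asIdeal.IsPrime := (cjP τ' Q).isPrime
    have hc0 : g i (T i) ≠ 0 := ((hg i) (T i) (hT i).1).1
    have hci : ∀ k, g i (T i) ∈ (Q.under (𝓞 (K i))).asIdeal ^ k ↔ T i ≤ (Q.under (𝓞 (K i))).asIdeal ^ k :=
      ((hg i) (T i) (hT i).1).2 _ (hqS i)
    have hB : bG rep (fun i => g i (T i)) ε w = ε w * τ' • algebraMap (𝓞 (K i)) (𝓞 L) (g i (T i)) := by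
      rw [← algebraMap_smul, hτ']
      have := bG_rep rep (fun i => g i (T i)) ε i τ
      rw [← hwr] at this
      exact this
    refine ⟨?_, ?_, ?_⟩
    · rw [hB]
      refine Ideal.mul_mem_left _ _ ?_
      rw [smul_mem_cjP]
      have h4 := (hci 1).2 (by rw [pow_one]; exact h1)
      rw [pow_one] at h4
      exact h4
    · rw [hB]
      intro hmem
      have ha0 : algebraMap (𝓞 (K i)) (𝓞 L) (g i (T i)) ≠ 0 := by
        rw [Ne, FaithfulSMul.algebraMap_eq_zero_iff]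
        exact hc0
      rcases Ideal.IsPrime.mul_mem_pow (cjP τ' Q).asIdeal hmem with h4 | h4
      · exact (hεP w).1 h4
      · have ha1 : τ' • algebraMap (𝓞 (K i)) (𝓞 L) (g i (T i)) ≠ 0 := by
          intro h5
          apply ha0
          rw [← inv_smul_smul τ' (algebraMap (𝓞 (K i)) (𝓞 L) (g i (T i))), h5, smul_zero]
        rw [mem_pow_iff _ ha1, ord_gal τ' Q ha0, ord_up F he hζ hQg.1 hc0, ← mem_pow_iff _ hc0] at h4
        exact h2 ((hci 2).1 h4)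
    · intro w' hww
      by_cases hw0 : w' = 0
      · rw [hw0, bG_zero]
        refine ⟨fun h4 => hprime.ne_top ((Ideal.eq_top_iff_one _).2 h4), 1, ?_⟩
        simp
      · obtain ⟨⟨j, σ⟩, hrep'⟩ := rep.surjective ⟨w', hw0⟩
        have hwr' : w' = ((rep ⟨j, σ⟩ : W n) : V n) := by rw [hrep']
        have hB' : bG rep (fun i => g i (T i)) ε w' = ε w' * algebraMap (𝓞 (K j)) (𝓞 L) (σ • g j (T j)) := by
          have := bG_rep rep (fun i => g i (T i)) ε j σ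
          rw [← hwr'] at this
          exact this
        rw [hB']
        refine RichLG_mul (hεP w') ?_
        set ρ : Gal(K j/F) := (AlgEquiv.restrictNormalHom (K j) τ')⁻¹ * σ with hρ
        have hσ : σ = AlgEquiv.restrictNormalHom (K j) τ' * ρ := by rw [hρ, mul_inv_cancel_left]
        have hne : j ≠ i ∨ ρ⁻¹ ≠ 1 := by
          by_cases hj : j = i
          · right
            subst hj
            intro h4
            apply hww
            rw [hwr, hwr', hσ, inv_eq_one.1 h4, mul_one, hτ']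
          · left
            exact hj
        obtain ⟨r1, x, r2⟩ := h3 j ρ⁻¹ hne
        have hres : ρ • g j (T j) ∉ (Q.under (𝓞 (K j))).asIdeal ∧
            ∃ x : 𝓞 (K j), ρ • g j (T j) - x ^ e ∈ (Q.under (𝓞 (K j))).asIdeal := by
          refine ⟨fun h4 => r1 ?_, ρ • x, ?_⟩
          · have h5 := (smul_mem_cjP ρ⁻¹ (Q.under (𝓞 (K j))) (ρ • g j (T j))).2 h4
            rwa [inv_smul_smul] at h5
          · rw [← smul_pow', ← smul_sub, ← smul_mem_cjP ρ⁻¹, inv_smul_smul]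
            exact r2
        have hup : algebraMap (𝓞 (K j)) (𝓞 L) (ρ • g j (T j)) ∉ Q.asIdeal ∧
            ∃ x : 𝓞 L, algebraMap (𝓞 (K j)) (𝓞 L) (ρ • g j (T j)) - x ^ e ∈ Q.asIdeal := by
          obtain ⟨s1, y, s2⟩ := hres
          refine ⟨s1, algebraMap (𝓞 (K j)) (𝓞 L) y, ?_⟩
          rw [← map_pow, ← map_sub]
          exact s2
        have h5 := RichLG_tr τ' hup
        rw [← algebraMap_smul, smul_smul, ← hσ] at h5
        exact h5
  · intro P hP P' hP' h1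
    obtain ⟨Q, hQ, rfl⟩ := Finset.mem_image.1 hP
    obtain ⟨Q', hQ', rfl⟩ := Finset.mem_image.1 hP'
    rw [hinj Q hQ Q' hQ' (hu Q Q' h1)]

end StarkR
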