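import Pool.Agent.Lib.MP_d9bae3_nt.NG.GB
import Pool.Agent.Lib.MP_d9bae3_nt.NG.Conj
import Pool.Agent.Lib.MP_d9bae3_nt.NG.OrdUp

/-!
# Module NAG-UT: the vector of a prime

`p = (i, τ)` with `T i ≤ τ⁻¹ (Q ∩ K i)`: for `SqG` tuples there is at most one such `p` for a prime `Q ∉ SL` (`idx_unique`): for two of them the primes `τ⁻¹ (Q ∩ K i)` and `σ⁻¹ (Q ∩ K j)` are above `Q ∩ F`, so by `SqG` `i = j` and they are equal, and the stabiliser is trivial by `stab_deg1`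
(`z i` is a primitive `d i`-th root of unity by `IsLev.root`, `d i ∣ e`, and `e ∉ q` as `q ∉ SK i` by `IsSS.memK`, `GoodS.dvd`).  (Use `Σ`-type equalities carefully: first `obtain` the equality of the indices and `subst`/`cases`.)
* `ordQ_bG`: `c i = g i (T i)`, `c i ≠ 0`; `B_w = ε_w · algebraMap (τ • c i)` (`bG_rep`); `ordQ Q (algebraMap (τ • c i)) = ordQ (Q ∩ K i) (τ • c i) = ordQ (τ⁻¹ (Q ∩ K i)) (c i)` (`ord_up`, `ord_gal`), which is `1` if `T i ≤ τ⁻¹ (Q ∩ K i)` (`IsGen`, `SqG`: `T i` is squarefree) and `0` otherwise; `ordQ Q (ε_w) = 0`.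
* `ordQ_rad`: `rad B j = ∏_w B_w ^ (w j).val`, and `B_0 = 1`; `ordQ_mul`, `ordQ_pow`.
-/

set_option linter.unusedSectionVars false

namespace StarkR

open NumberField IsDedekindDomain Filter Topology
open scoped Pointwise

variable {F L : Type} [Field F] [NumberField F] [Field L] [NumberField L] [Algebra F L]
variable {ι : Type} [Fintype ι] {K : ι → Type} [∀ i, Field (K i)] [∀ i, NumberField (K i)]
variable [∀ i, Algebra F (K i)] [∀ i, Algebra (K i) L] [∀ i, IsScalarTower F (K i) L]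
variable {m : ℕ} {n : Fin m → ℕ} [∀ i, NeZero (n i)]
variable {e : ℕ} {ζ : L} {d : ι → ℕ} {z : (i : ι) → K i} {t : (i : ι) → Gal(K i/F) → ℕ} {v : ι → V n} {rep : (Σ i, Gal(K i/F)) ≃ W n}
variable {S : Finset (Prm F)} {SL : Finset (Prm L)} {SK : (i : ι) → Finset (Prm (K i))} {g : (i : ι) → Ideal (𝓞 (K i)) → 𝓞 (K i)}

/-- the vector of the prime `Q` of `L`: `rep (i, τ)` if `T i` is divisible by `τ⁻¹ (Q ∩ K i)` -/
noncomputable def uT (rep : (Σ i, Gal(K i/F)) ≃ W n) (T : (i : ι) → Ideal (𝓞 (K i))) (Q : Prm L) : V n :=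
  open Classical in
  if h : ∃ p : (Σ i, Gal(K i/F)), T p.1 ≤ (cjP p.2⁻¹ (Q.under (𝓞 (K p.1)))).asIdeal then ((rep h.choose : W n) : V n) else 0

private theorem UT_root (hζ : IsPrimitiveRoot ζ e) (he : 0 < e) (hlev : IsLev (L := L) e ζ d z t v rep) (i : ι) :
    IsPrimitiveRoot (z i) (d i) := by
  have h1 : e = e / d i * d i := (Nat.div_mul_cancel (hlev.dvd i)).symm
  have h2 : IsPrimitiveRoot (algebraMap (K i) L (z i)) (d i) := by
    rw [hlev.root i]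
    exact hζ.pow he h1
  exact h2.of_map_of_injective (algebraMap (K i) L).injective

private theorem UT_under (Q : Prm L) (i : ι) (τ : Gal(K i/F)) :
    (cjP τ⁻¹ (Q.under (𝓞 (K i)))).under (𝓞 F) = Q.under (𝓞 F) := by
  rw [cjP_under, under_under]

private theorem UT_notS (hSS : IsSS (F := F) e S SL SK) {Q : Prm L} (hQ : Q ∉ SL) (i : ι) {q : Prm (K i)}
    (h : q.under (𝓞 F) = Q.under (𝓞 F)) : q ∉ SK i := by
  rw [hSS.memK, h, ← hSS.memL]
  exact hQ

theorem idx_unique (hζ : IsPrimitiveRoot ζ e) (he : 0 < e) (hlev : IsLev (L := L) e ζ d z t v rep) (hSS : IsSS (F := F) e S SL SK)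
    {T : (i : ι) → Ideal (𝓞 (K i))} (hT2 : SqG F T) {Q : Prm L} (hQ : Q ∉ SL) {p p' : Σ i, Gal(K i/F)}
    (h : T p.1 ≤ (cjP p.2⁻¹ (Q.under (𝓞 (K p.1)))).asIdeal) (h' : T p'.1 ≤ (cjP p'.2⁻¹ (Q.under (𝓞 (K p'.1)))).asIdeal) : p = p' := by
  obtain ⟨i, τ⟩ := p
  obtain ⟨j, σ⟩ := p'
  have hs := hT2.2 i j _ _ h h' (by rw [UT_under, UT_under])
  have hij : i = j := congrArg Sigma.fst hs
  subst hij
  have hq : cjP τ⁻¹ (Q.under (𝓞 (K i))) = cjP σ⁻¹ (Q.under (𝓞 (K i))) := eq_of_heq (Sigma.mk.inj hs).2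
  have h1 : cjP (σ * τ⁻¹) (Q.under (𝓞 (K i))) = Q.under (𝓞 (K i)) := by
    rw [cjP_mul, hq, ← cjP_mul, mul_inv_cancel, cjP_one]
  have hPS : Q.under (𝓞 (K i)) ∉ SK i := UT_notS hSS hQ i (by rw [under_under])
  have hdP : ((d i : ℕ) : 𝓞 (K i)) ∉ (Q.under (𝓞 (K i))).asIdeal := by
    intro hmem
    apply hPS
    apply (hSS.goodK i).dvd
    obtain ⟨c, hc⟩ := hlev.dvd i
    rw [hc, Nat.cast_mul]
    exact Ideal.mul_mem_right _ _ hmem
  have hnm : nm (Q.under (𝓞 (K i))) = nm ((Q.under (𝓞 (K i))).under (𝓞 F)) := by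
    have h2 := (hT2.1 i _ h).2
    rw [nm_cjP, cjP_under] at h2
    exact h2
  have h3 := stab_deg1 (by have := hlev.two i; omega) (UT_root hζ he hlev i) (hlev.gen i) hdP hnm
  have h4 : σ * τ⁻¹ ∈ MulAction.stabilizer Gal(K i/F) (Q.under (𝓞 (K i))).asIdeal := by
    rw [MulAction.mem_stabilizer_iff]
    exact congrArg HeightOneSpectrum.asIdeal h1
  rw [h3, Subgroup.mem_bot, mul_inv_eq_one] at h4
  rw [h4]

theorem uT_eq (hζ : IsPrimitiveRoot ζ e) (he : 0 < e) (hlev : IsLev (L := L) e ζ d z t v rep) (hSS : IsSS (F := F) e S SL SK)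
    {T : (i : ι) → Ideal (𝓞 (K i))} (hT2 : SqG F T) {Q : Prm L} (hQ : Q ∉ SL) (p : Σ i, Gal(K i/F)) :
    uT rep T Q = ((rep p : W n) : V n) ↔ T p.1 ≤ (cjP p.2⁻¹ (Q.under (𝓞 (K p.1)))).asIdeal := by
  classical
  constructor
  · intro h1
    unfold uT at h1
    split_ifs at h1 with hex
    · have h2 : hex.choose = p := rep.injective (Subtype.ext h1)
      have h3 := hex.choose_spec
      rwa [h2] at h3
    · exact absurd h1.symm (rep p).2
  · intro h1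
    have hex : ∃ p : (Σ i, Gal(K i/F)), T p.1 ≤ (cjP p.2⁻¹ (Q.under (𝓞 (K p.1)))).asIdeal := ⟨p, h1⟩
    have h2 : hex.choose = p := idx_unique hζ he hlev hSS hT2 hQ hex.choose_spec h1
    unfold uT
    rw [dif_pos hex, h2]

theorem ordQ_bG (hζ : IsPrimitiveRoot ζ e) (he : 0 < e) [IsCyclotomicExtension {e} F L] (hlev : IsLev (L := L) e ζ d z t v rep)
    (hSS : IsSS (F := F) e S SL SK) (hg : ∀ i, IsGen (SK i) (g i)) {T : (i : ι) → Ideal (𝓞 (K i))} (hT : ∀ i, Cop (SK i) (T i))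
    (hT2 : SqG F T) {ε : V n → 𝓞 L} (hε : ∀ w, IsSU SL (ε w)) {Q : Prm L} (hQ : Q ∉ SL) {w : V n} (hw : w ≠ 0) :
    ordQ Q (bG rep (fun i => g i (T i)) ε w) = open Classical in if uT rep T Q = w then 1 else 0 := by
  classical
  obtain ⟨⟨i, τ⟩, hp⟩ := rep.surjective ⟨w, hw⟩
  have hpw : ((rep ⟨i, τ⟩ : W n) : V n) = w := congrArg Subtype.val hp
  have hc0 := (hg i (T i) (hT i).1).1
  have hgen := (hg i (T i) (hT i).1).2
  have hτ0 : τ • g i (T i) ≠ 0 := by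
    rw [Ne, smul_eq_zero_iff_eq]
    exact hc0
  have hm0 : algebraMap (𝓞 (K i)) (𝓞 L) (τ • g i (T i)) ≠ 0 := by
    rw [Ne, FaithfulSMul.algebraMap_eq_zero_iff]
    exact hτ0
  have hε0 : ε w ≠ 0 := (hε w).1
  have hεQ : ordQ Q (ε w) = 0 := by
    have h1 := mem_pow_iff Q hε0 1
    rw [pow_one] at h1
    have h2 := (hε w).2 Q hQ
    rw [h1] at h2
    omega
  have heQ : (e : 𝓞 L) ∉ Q.asIdeal := fun h => hQ (hSS.goodL.dvd Q h)
  have hb : bG rep (fun i => g i (T i)) ε w = ε w * algebraMap (𝓞 (K i)) (𝓞 L) (τ • g i (T i)) := by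
    have h1 := bG_rep (F := F) (L := L) rep (fun i => g i (T i)) ε i τ
    rw [hpw] at h1
    exact h1
  have h5 : Q.under (𝓞 (K i)) = cjP τ (cjP τ⁻¹ (Q.under (𝓞 (K i)))) := by
    rw [← cjP_mul, mul_inv_cancel, cjP_one]
  rw [hb, ordQ_mul Q hε0 hm0, hεQ, zero_add, ord_up F he hζ heQ hτ0, h5, ord_gal τ _ hc0]
  set q0 := cjP τ⁻¹ (Q.under (𝓞 (K i))) with hq0
  have hq0S : q0 ∉ SK i := UT_notS hSS hQ i (UT_under Q i τ)
  have h6 := uT_eq hζ he hlev hSS hT2 hQ ⟨i, τ⟩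
  rw [hpw] at h6
  have h7 := hgen q0 hq0S 1
  rw [mem_pow_iff q0 hc0, pow_one] at h7
  have h8 := hgen q0 hq0S 2
  rw [mem_pow_iff q0 hc0] at h8
  split_ifs with hif
  · have h9 : T i ≤ q0.asIdeal := h6.1 hif
    have h10 := (hT2.1 i q0 h9).1
    rw [← h8] at h10
    have h11 := h7.2 h9
    omega
  · have h9 : ¬ T i ≤ q0.asIdeal := fun h => hif (h6.2 h)
    rw [← h7] at h9
    omega

private theorem UT_one (Q : Prm L) : ordQ Q (1 : 𝓞 L) = 0 := by
  have h := ordQ_pow Q (one_ne_zero (α := 𝓞 L)) 0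
  rwa [pow_zero, zero_mul] at h

private theorem UT_prod {β : Type} (Q : Prm L) (s : Finset β) (f : β → 𝓞 L) (hf : ∀ x ∈ s, f x ≠ 0) :
    ordQ Q (∏ x ∈ s, f x) = ∑ x ∈ s, ordQ Q (f x) := by
  classical
  induction s using Finset.induction_on with
  | empty => rw [Finset.prod_empty, Finset.sum_empty, UT_one]
  | insert a s ha ih =>
    have h1 : ∀ x ∈ s, f x ≠ 0 := fun x hx => hf x (Finset.mem_insert_of_mem hx)
    rw [Finset.prod_insert ha, Finset.sum_insert ha,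
      ordQ_mul Q (hf a (Finset.mem_insert_self _ _)) (Finset.prod_ne_zero_iff.2 h1), ih h1]

theorem ordQ_rad (hζ : IsPrimitiveRoot ζ e) (he : 0 < e) [IsCyclotomicExtension {e} F L] (hlev : IsLev (L := L) e ζ d z t v rep)
    (hSS : IsSS (F := F) e S SL SK) (hg : ∀ i, IsGen (SK i) (g i)) {T : (i : ι) → Ideal (𝓞 (K i))} (hT : ∀ i, Cop (SK i) (T i))
    (hT2 : SqG F T) {ε : V n → 𝓞 L} (hε : ∀ w, IsSU SL (ε w)) {Q : Prm L} (hQ : Q ∉ SL) (j : Fin m) :
    ordQ Q (rad (bG rep (fun i => g i (T i)) ε) j) = (uT rep T Q j).val := by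
  classical
  set B := bG rep (fun i => g i (T i)) ε with hB
  have hB0 : B 0 = 1 := bG_zero _ _ _
  have hne : ∀ w : V n, B w ≠ 0 := by
    intro w
    by_cases hw : w = 0
    · rw [hw, hB0]
      exact one_ne_zero
    · obtain ⟨⟨i, τ⟩, hp⟩ := rep.surjective ⟨w, hw⟩
      have hpw : ((rep ⟨i, τ⟩ : W n) : V n) = w := congrArg Subtype.val hp
      have h1 := bG_rep (F := F) (L := L) rep (fun i => g i (T i)) ε i τ
      rw [hpw] at h1
      rw [hB, h1]
      refine mul_ne_zero (hε w).1 ?_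
      rw [Ne, FaithfulSMul.algebraMap_eq_zero_iff, smul_eq_zero_iff_eq]
      exact (hg i (T i) (hT i).1).1
  unfold rad
  rw [UT_prod Q _ _ fun w _ => pow_ne_zero _ (hne w)]
  have hterm : ∀ w : V n, ordQ Q (B w ^ (w j).val) = if uT rep T Q = w then (uT rep T Q j).val else 0 := by
    intro w
    by_cases hw : w = 0
    · rw [hw, hB0, one_pow, UT_one]
      split_ifs with h
      · rw [h, Pi.zero_apply, ZMod.val_zero]
      · rfl
    · rw [ordQ_pow Q (hne w), hB, ordQ_bG hζ he hlev hSS hg hT hT2 hε hQ hw]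
      split_ifs with h
      · rw [mul_one, h]
      · rw [mul_zero]
  rw [Finset.sum_congr rfl fun w _ => hterm w, Finset.sum_ite_eq, if_pos (Finset.mem_univ _)]

end StarkR
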