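import Pool.Agent.Lib.MP_d9bae3_nt.NG.ExPsi
import Pool.Agent.Lib.MP_d9bae3_nt.NG.HPsi
import Pool.Agent.Lib.MP_d9bae3_nt.NG.RichLG
import Pool.Agent.Lib.MP_d9bae3_nt.NG.UT

/-!
# Module NAG-ExT: the extension of a rich tuple

`c i = g i (T i) ≠ 0`, `B = bG rep c 1`, `LRich F e 1 B` by `lrich_of` (`ε = 1`).  In the algebraically closed field `Ω` choose roots `y_i` of `X^(d_i) - twist (t i) (c i)` and `α_j` of `X^(n_j) - rad B j`.  Let `N ⊆ Ω` be a number field, Galois over `F`, which contains the image of `L`, the `y_i` and the `α_j` (e.g. the normal closure over `F` of the finite extension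
`F(L, y, α)`, inside `Ω`: `IntermediateField.normalClosure`, or the splitting field in `Ω` of a product of minimal polynomials; `Ω` need not be algebraic over `F`, but the elements are).  `exists_psi` and `H_of_psi` for `N` give `H₀ ⊆ N`; `H` = the image of `H₀` in `Ω` (`IntermediateField.lift` or `map`).  `Mof L H = L(α)` in `Ω`, so `IsExt B (Mof L H) α` (see `field_of`, NA/FieldOf.lean).
-/

set_option linter.unusedSectionVars false

namespace StarkR

open NumberField IsDedekindDomain Filter Topology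
open scoped Pointwise

variable {F L : Type} [Field F] [NumberField F] [Field L] [NumberField L] [Algebra F L]
variable {ι : Type} [Fintype ι] {K : ι → Type} [∀ i, Field (K i)] [∀ i, NumberField (K i)]
variable [∀ i, Algebra F (K i)] [∀ i, Algebra (K i) L] [∀ i, IsScalarTower F (K i) L]
variable {m : ℕ} {n : Fin m → ℕ} [∀ i, NeZero (n i)]
variable {e : ℕ} {ζ : L} {d : ι → ℕ} {z : (i : ι) → K i} {t : (i : ι) → Gal(K i/F) → ℕ} {v : ι → V n} {rep : (Σ i, Gal(K i/F)) ≃ W n}
variable {S : Finset (Prm F)} {SL : Finset (Prm L)} {SK : (i : ι) → Finset (Prm (K i))} {g : (i : ι) → Ideal (𝓞 (K i)) → 𝓞 (K i)}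

theorem exT {Ω : Type} [Field Ω] [Algebra F Ω] [Algebra L Ω] [IsScalarTower F L Ω] [IsAlgClosed Ω]
    (hζ : IsPrimitiveRoot ζ e) (he : 0 < e) (hn : ∀ i, n i ∣ e) [IsCyclotomicExtension {e} F L]
    (hlev : IsLev (L := L) e ζ d z t v rep) (hSS : IsSS (F := F) e S SL SK) (hg : ∀ i, IsGen (SK i) (g i))
    {T : (i : ι) → Ideal (𝓞 (K i))} (hT : ∀ i, Cop (SK i) (T i)) (hr : RichG F e SL g 1 T) :
    ∃ (H : IntermediateField F Ω) (_ : NumberField H), IsGalois F H ∧ Nonempty (Gal(H/F) ≃* Multiplicative (V n)) ∧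
      ∃ α : Fin m → Mof L H, IsExt (bG rep (fun i => g i (T i)) (fun _ => (1 : 𝓞 L))) (Mof L H) α := by
  classical
  have hgalL : IsGalois F L := IsCyclotomicExtension.isGalois {e} F L
  have hfdL : FiniteDimensional F L := FiniteDimensional.right ℚ F L
  have hni : ∀ j, 0 < n j := fun j => Nat.pos_of_ne_zero (NeZero.ne (n j))
  have hdi : ∀ i, 0 < d i := fun i => lt_of_lt_of_le (by norm_num) (hlev.two i)
  obtain ⟨c, hc⟩ : ∃ c : (i : ι) → 𝓞 (K i), c = fun i => g i (T i) := ⟨_, rfl⟩
  have hc0 : ∀ i, c i ≠ 0 := fun i => by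
    rw [hc]
    exact (hg i (T i) (hT i).1).1
  have hε : ∀ w : V n, IsSU SL ((fun _ => (1 : 𝓞 L)) w) := fun w =>
    ⟨one_ne_zero, fun q _ h => q.isPrime.ne_top ((Ideal.eq_top_iff_one _).2 h)⟩
  have hB : LRich F e 1 (bG rep c (fun _ => (1 : 𝓞 L))) := by
    rw [hc]
    exact lrich_of hζ he hlev hSS hg hT hε hr
  rw [← hc]
  have hy : ∀ i, ∃ y : Ω, y ^ d i = algebraMap L Ω (algebraMap (K i) L ((twist (t i) (c i) : 𝓞 (K i)) : K i)) := fun i =>
    IsAlgClosed.exists_pow_nat_eq _ (hdi i)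
  choose y hy using hy
  have hα : ∀ j, ∃ a : Ω, a ^ n j = algebraMap L Ω ((rad (bG rep c (fun _ => (1 : 𝓞 L))) j : 𝓞 L) : L) := fun j =>
    IsAlgClosed.exists_pow_nat_eq _ (hni j)
  choose α hα using hα
  -- integrality over `F`
  have hLint : ∀ x : L, IsIntegral F (algebraMap L Ω x) := fun x => by
    have h1 : IsIntegral F x := Algebra.IsIntegral.isIntegral x
    exact h1.map (IsScalarTower.toAlgHom F L Ω)
  have hyint : ∀ i, IsIntegral F (y i) := fun i => IsIntegral.of_pow (hdi i) (by rw [hy]; exact hLint _)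
  have hαint : ∀ j, IsIntegral F (α j) := fun j => IsIntegral.of_pow (hni j) (by rw [hα]; exact hLint _)
  obtain ⟨θ, hθ⟩ := Field.exists_primitive_element F L
  -- the polynomial
  let p : Polynomial F := minpoly F (algebraMap L Ω θ) * (∏ i, minpoly F (y i)) * ∏ j, minpoly F (α j)
  have hp0 : p ≠ 0 := mul_ne_zero (mul_ne_zero (minpoly.ne_zero (hLint θ)) (Finset.prod_ne_zero_iff.2 fun i _ => minpoly.ne_zero (hyint i)))
    (Finset.prod_ne_zero_iff.2 fun j _ => minpoly.ne_zero (hαint j))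
  let N : IntermediateField F Ω := IntermediateField.adjoin F (p.rootSet Ω)
  have hsp : p.IsSplittingField F N := IntermediateField.adjoin_rootSet_isSplittingField (IsAlgClosed.splits _)
  have hNfd : FiniteDimensional F N := Polynomial.IsSplittingField.finiteDimensional N p
  have hNnf : NumberField N := NumberField.of_module_finite F N
  have hNnorm : Normal F N := Normal.of_isSplittingField p
  have hNgal : IsGalois F N := { }
  have hroot : ∀ x : Ω, Polynomial.aeval x p = 0 → x ∈ N := fun x hx =>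
    IntermediateField.subset_adjoin _ _ ((Polynomial.mem_rootSet).2 ⟨hp0, hx⟩)
  have hθN : algebraMap L Ω θ ∈ N := hroot _ (by
    show Polynomial.aeval _ (minpoly F (algebraMap L Ω θ) * (∏ i, minpoly F (y i)) * ∏ j, minpoly F (α j)) = 0
    rw [map_mul, map_mul, minpoly.aeval, zero_mul, zero_mul])
  have hyN : ∀ i, y i ∈ N := fun i => hroot _ (by
    show Polynomial.aeval _ (minpoly F (algebraMap L Ω θ) * (∏ i, minpoly F (y i)) * ∏ j, minpoly F (α j)) = 0
    rw [map_mul, map_mul, map_prod (Polynomial.aeval (R := F) (y i)) (fun i => minpoly F (y i)) Finset.univ, Finset.prod_eq_zero (Finset.mem_univ i) (minpoly.aeval F (y i)), mul_zero, zero_mul])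
  have hαN : ∀ j, α j ∈ N := fun j => hroot _ (by
    show Polynomial.aeval _ (minpoly F (algebraMap L Ω θ) * (∏ i, minpoly F (y i)) * ∏ j, minpoly F (α j)) = 0
    rw [map_mul, map_prod (Polynomial.aeval (R := F) (α j)) (fun j => minpoly F (α j)) Finset.univ, Finset.prod_eq_zero (Finset.mem_univ j) (minpoly.aeval F (α j)), mul_zero])
  have hLN : ∀ x : L, algebraMap L Ω x ∈ N := by
    have h1 : (IsScalarTower.toAlgHom F L Ω).fieldRange ≤ N := by
      rw [AlgHom.fieldRange_eq_map, ← hθ, IntermediateField.adjoin_map, Set.image_singleton, IntermediateField.adjoin_le_iff]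
      rintro x hx
      rw [Set.mem_singleton_iff.1 hx]
      exact hθN
    intro x
    exact h1 ⟨x, rfl⟩
  let _ : Algebra L N := RingHom.toAlgebra ((algebraMap L Ω).codRestrict N hLN)
  have hmapN : ∀ x : L, ((algebraMap L N x : N) : Ω) = algebraMap L Ω x := fun _ => rfl
  have _ : IsScalarTower F L N := IsScalarTower.of_algebraMap_eq fun x => Subtype.ext (by
    rw [hmapN, ← IsScalarTower.algebraMap_apply F L Ω]
    rfl)
  let y' : ι → N := fun i => ⟨y i, hyN i⟩
  let α' : Fin m → N := fun j => ⟨α j, hαN j⟩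
  have hy' : ∀ i, y' i ^ d i = algebraMap L N (algebraMap (K i) L ((twist (t i) (c i) : 𝓞 (K i)) : K i)) := fun i =>
    Subtype.ext (hy i)
  have hα' : ∀ j, α' j ^ n j = algebraMap L N ((rad (bG rep c (fun _ => (1 : 𝓞 L))) j : 𝓞 L) : L) := fun j =>
    Subtype.ext (hα j)
  obtain ⟨ψ, hψ⟩ := exists_psi hζ he hn hlev (N := N) c hc0 hy' hα'
  obtain ⟨H₀, hH₀, ⟨φ⟩, hadj⟩ := H_of_psi hζ he hn (N := N) hB hα' ψ hψ
  let H : IntermediateField F Ω := IntermediateField.lift H₀
  let ee : H₀ ≃ₐ[F] H := IntermediateField.liftAlgEquiv H₀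
  have hH₀fd : FiniteDimensional F H₀ := inferInstance
  have hHfd : FiniteDimensional F H := LinearEquiv.finiteDimensional ee.toLinearEquiv
  have hHnf : NumberField H := NumberField.of_module_finite F H
  have hHgal : IsGalois F H := IsGalois.of_algEquiv ee
  let jj : N →ₐ[L] Ω := { N.val.toRingHom with commutes' := fun _ => rfl }
  have hM : Mof L H = IntermediateField.adjoin L (Set.range α) := by
    have h1 := congrArg (IntermediateField.map jj) hadj
    rw [IntermediateField.adjoin_map, IntermediateField.adjoin_map] at h1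
    have h2 : jj '' (H₀ : Set N) = (H : Set Ω) := by
      ext x
      constructor
      · rintro ⟨z, hz, rfl⟩
        exact ⟨z, hz, rfl⟩
      · rintro ⟨z, hz, rfl⟩
        exact ⟨z, hz, rfl⟩
    have h3 : jj '' Set.range α' = Set.range α := by
      ext x
      constructor
      · rintro ⟨_, ⟨j, rfl⟩, rfl⟩
        exact ⟨j, rfl⟩
      · rintro ⟨j, rfl⟩
        exact ⟨_, ⟨j, rfl⟩, rfl⟩
    rw [h2, h3] at h1
    exact h1
  have hαM : ∀ j, α j ∈ Mof L H := fun j => by
    rw [hM]
    exact IntermediateField.subset_adjoin _ _ ⟨j, rfl⟩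
  refine ⟨H, hHnf, hHgal, ⟨(AlgEquiv.autCongr ee).symm.trans φ⟩, fun j => ⟨α j, hαM j⟩, ?_, ?_⟩
  · intro j
    exact Subtype.ext (hα j)
  · apply IntermediateField.lift_injective (Mof L H)
    rw [IntermediateField.lift_adjoin, IntermediateField.lift_top]
    refine Eq.trans ?_ hM.symm
    congr 1
    ext x
    constructor
    · rintro ⟨_, ⟨i, rfl⟩, rfl⟩
      exact ⟨i, rfl⟩
    · rintro ⟨i, rfl⟩
      exact ⟨_, ⟨i, rfl⟩, rfl⟩

end StarkR
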