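import Pool.Agent.Lib.MP_d9bae3_nt.SK.Base

/-!
# Module NAG-FUL: the Kummer field inside a given field is unique
-/

set_option linter.unusedSectionVars false

namespace StarkR

open NumberField

variable {F : Type} [Field F] [NumberField F] {m : ℕ} {n : Fin m → ℕ} [∀ i, NeZero (n i)] {Ω : Type} [Field Ω] [Algebra F Ω]

private theorem FUL_adj {e : ℕ} {ζ : F} (hζ : IsPrimitiveRoot ζ e) (he : 0 < e) (hn : ∀ i, n i ∣ e) (b : V n → 𝓞 F)
    (a : Fin m → Ω) (ha : ∀ i, a i ^ n i = algebraMap F (Ω) (rad b i : F)) :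
    IntermediateField.adjoin F (Set.range a) = IntermediateField.adjoin F
      {x : Ω | ∃ i, x ^ n i = algebraMap F (Ω) (rad b i : F)} := by
  apply le_antisymm
  · apply IntermediateField.adjoin.mono
    rintro _ ⟨i, rfl⟩
    exact ⟨i, ha i⟩
  · rw [IntermediateField.adjoin_le_iff]
    rintro x ⟨i, hx⟩
    have hai : a i ∈ IntermediateField.adjoin F (Set.range a) := IntermediateField.subset_adjoin _ _ ⟨i, rfl⟩
    by_cases h0 : a i = 0
    · have h1 : x ^ n i = 0 := by rw [hx, ← ha i, h0, zero_pow (NeZero.ne _)]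
      rw [pow_eq_zero_iff (NeZero.ne _)] at h1
      rw [h1]
      exact zero_mem _
    · obtain ⟨k, hk⟩ := hn i
      have hp : IsPrimitiveRoot (ζ ^ k) (n i) := hζ.pow he (by rw [hk, mul_comm])
      have hp' := hp.map_of_injective (algebraMap F (Ω)).injective
      have h1 : (x / a i) ^ n i = 1 := by
        rw [div_pow, hx, ha i, div_self]
        rw [← ha i]
        exact pow_ne_zero _ h0
      obtain ⟨j, -, hj⟩ := hp'.eq_pow_of_pow_eq_one h1
      have h2 : x = algebraMap F (Ω) (ζ ^ k) ^ j * a i := by rw [hj, div_mul_cancel₀ _ h0]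
      rw [h2]
      exact mul_mem (pow_mem (IntermediateField.algebraMap_mem _ _) _) hai

private theorem FUL_eq {e : ℕ} {ζ : F} (hζ : IsPrimitiveRoot ζ e) (he : 0 < e) (hn : ∀ i, n i ∣ e) (b : V n → 𝓞 F)
    {H : IntermediateField F (Ω)} [NumberField H] {α : Fin m → H} (h : IsExt b H α) :
    H = IntermediateField.adjoin F
      {x : Ω | ∃ i, x ^ n i = algebraMap F (Ω) (rad b i : F)} := by
  rw [← FUL_adj hζ he hn b (fun i => (α i : Ω)) (fun i => congrArg Subtype.val (h.pow i))]
  have h1 := congrArg IntermediateField.lift h.gen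
  rw [IntermediateField.lift_adjoin, IntermediateField.lift_top] at h1
  refine h1.symm.trans ?_
  congr 1
  ext x
  constructor
  · rintro ⟨_, ⟨i, rfl⟩, rfl⟩
    exact ⟨i, rfl⟩
  · rintro ⟨i, rfl⟩
    exact ⟨_, ⟨i, rfl⟩, rfl⟩

theorem field_uniqueO {e : ℕ} {ζ : F} (hζ : IsPrimitiveRoot ζ e) (he : 0 < e) (hn : ∀ i, n i ∣ e) (b : V n → 𝓞 F)
    {H H' : IntermediateField F (Ω)} [NumberField H] [NumberField H'] {α : Fin m → H} {α' : Fin m → H'}
    (h : IsExt b H α) (h' : IsExt b H' α') : H = H' :=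
  (FUL_eq hζ he hn b h).trans (FUL_eq hζ he hn b h').symm

end StarkR
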