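import Pool.Agent.Lib.MP_d9bae3_nt.NG.UT
import Pool.Agent.Lib.MP_d9bae3_nt.SK.Kum
import Pool.Agent.Lib.MP_d9bae3_nt.NA.Mult

/-!
# Module NAG-MulG: boundedly many tuples give the same field
-/

set_option linter.unusedSectionVars false

namespace StarkR

open NumberField IsDedekindDomain Filter Topology
open scoped Pointwise

variable {F L : Type} [Field F] [NumberField F] [Field L] [NumberField L] [Algebra F L]
variable {ι : Type} [Fintype ι] {K : ι → Type} [∀ i, Field (K i)] [∀ i, NumberField (K i)]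
variable [∀ i, Algebra F (K i)] [∀ i, Algebra (K i) L] [∀ i, IsScalarTower F (K i) L]
variable {m : ℕ} {n : Fin m → ℕ} [∀ i, NeZero (n i)]
variable {e : ℕ} {ζ : L} {d : ι → ℕ} {z : (i : ι) → K i} {t : (i : ι) → Gal(K i/F) → ℕ} {v : ι → V n} {rep : (Σ i, Gal(K i/F)) ≃ W n}
variable {S : Finset (Prm F)} {SL : Finset (Prm L)} {SK : (i : ι) → Finset (Prm (K i))} {g : (i : ι) → Ideal (𝓞 (K i)) → 𝓞 (K i)}
variable {M : Type} [Field M] [NumberField M] [Algebra L M]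

private theorem mg_ext {E : Type} [Field E] [NumberField E] {I J : Ideal (𝓞 E)} (hI : I ≠ ⊥) (hJ : J ≠ ⊥)
    (hI2 : ∀ q : Prm E, ¬ I ≤ q.asIdeal ^ 2) (hJ2 : ∀ q : Prm E, ¬ J ≤ q.asIdeal ^ 2)
    (h : ∀ q : Prm E, I ≤ q.asIdeal ↔ J ≤ q.asIdeal) : I = J := by
  classical
  have hsq : ∀ {I : Ideal (𝓞 E)}, I ≠ ⊥ → (∀ q : Prm E, ¬ I ≤ q.asIdeal ^ 2) →
      (UniqueFactorizationMonoid.normalizedFactors I).Nodup := by
    intro I hI h2
    rw [← UniqueFactorizationMonoid.squarefree_iff_nodup_normalizedFactors hI, squarefree_iff_no_irreducibles hI]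
    intro x hx hd
    have hx0 : x ≠ ⊥ := hx.ne_zero
    have hxp : x.IsPrime := Ideal.isPrime_of_prime hx.prime
    refine h2 ⟨x, hxp, hx0⟩ ?_
    rw [← Ideal.dvd_iff_le, sq]
    exact hd
  have hmem : ∀ {I : Ideal (𝓞 E)}, I ≠ ⊥ → ∀ P : Ideal (𝓞 E), P ∈ UniqueFactorizationMonoid.normalizedFactors I ↔
      ∃ q : Prm E, q.asIdeal = P ∧ I ≤ q.asIdeal := by
    intro I hI P
    constructor
    · intro hP
      have hp := UniqueFactorizationMonoid.prime_of_normalized_factor P hP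
      refine ⟨⟨P, Ideal.isPrime_of_prime hp, hp.ne_zero⟩, rfl, ?_⟩
      exact Ideal.dvd_iff_le.1 (UniqueFactorizationMonoid.dvd_of_mem_normalizedFactors hP)
    · rintro ⟨q, rfl, hq⟩
      exact (UniqueFactorizationMonoid.mem_normalizedFactors_iff' hI).2
        ⟨q.irreducible, normalize_eq _, Ideal.dvd_iff_le.2 hq⟩
  have h3 : UniqueFactorizationMonoid.normalizedFactors I = UniqueFactorizationMonoid.normalizedFactors J := by
    refine (Multiset.Nodup.ext (hsq hI hI2) (hsq hJ hJ2)).2 fun P => ?_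
    rw [hmem hI, hmem hJ]
    exact exists_congr fun q => and_congr_right fun _ => h q
  rw [← Ideal.prod_normalizedFactors_eq_self hI, h3, Ideal.prod_normalizedFactors_eq_self hJ]

/-- the same Kummer map gives the same radicands up to powers -/
private theorem mg_kum {E H : Type} [Field E] [NumberField E] [Field H] [NumberField H] [Algebra E H] [IsGalois E H]
    {k : ℕ} {n : Fin k → ℕ} [∀ i, NeZero (n i)] {e : ℕ} {ζ : E} {b b' : V n → 𝓞 E} {α α' : Fin k → H} (h : IsExt b H α)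
    (h' : IsExt b' H α') (hb : ∀ i, rad b i ≠ 0) (hb' : ∀ i, rad b' i ≠ 0) (κ : Gal(H/E) → V n)
    (hκ : ∀ (σ : Gal(H/E)) (c : V n), σ (bet α c) = algebraMap E H (ζ ^ pr e c (κ σ)) * bet α c)
    (hκ' : ∀ (σ : Gal(H/E)) (c : V n), σ (bet α' c) = algebraMap E H (ζ ^ pr e c (κ σ)) * bet α' c)
    (i : Fin k) (hi : n i ≠ 1) : ∃ x y : 𝓞 E, x ≠ 0 ∧ y ≠ 0 ∧ rad b i * y ^ n i = rad b' i * x ^ n i := by
  classical
  have hni : n i ≠ 0 := NeZero.ne (n i)
  have hfact : Fact (1 < n i) := ⟨by omega⟩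
  have hval : ∀ j, ((Pi.single i 1 : V n) j).val = if j = i then 1 else 0 := by
    intro j
    by_cases hj : j = i
    · subst hj
      rw [Pi.single_eq_same, if_pos rfl, ZMod.val_one]
    · rw [Pi.single_eq_of_ne hj, if_neg hj, ZMod.val_zero]
  have hbet : ∀ γ : Fin k → H, bet γ (Pi.single i 1 : V n) = γ i := by
    intro γ
    unfold bet
    rw [Finset.prod_eq_single i]
    · rw [hval, if_pos rfl, pow_one]
    · intro j _ hj
      rw [hval, if_neg hj, pow_zero]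
    · intro h0
      exact absurd (Finset.mem_univ _) h0
  have hne : ∀ {b : V n → 𝓞 E} {α : Fin k → H}, IsExt b H α → (∀ i, rad b i ≠ 0) → α i ≠ 0 := by
    intro b α h hb h0
    have h1 := h.pow i
    rw [h0, zero_pow hni, eq_comm, map_eq_zero] at h1
    exact hb i (RingOfIntegers.coe_eq_zero_iff.1 h1)
  have hα := hne h hb
  have hα' := hne h' hb'
  have hfix : ∀ σ : Gal(H/E), σ (α i / α' i) = α i / α' i := by
    intro σ
    have h1 := hκ σ (Pi.single i 1)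
    have h2 := hκ' σ (Pi.single i 1)
    rw [hbet] at h1 h2
    rw [map_div₀, h1, h2]
    have h3 : algebraMap E H (ζ ^ pr e (Pi.single i 1) (κ σ)) ≠ 0 := by
      intro h0
      rw [h0, zero_mul, map_eq_zero] at h1
      exact hα h1
    rw [mul_div_mul_left _ _ h3]
  have hbot : α i / α' i ∈ (⊥ : IntermediateField E H) := (IsGalois.mem_bot_iff_fixed _).2 hfix
  obtain ⟨c, hc⟩ := IntermediateField.mem_bot.1 hbot
  obtain ⟨x, y, hy, hxy⟩ := IsFractionRing.div_surjective (A := 𝓞 E) c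
  have hy0 : y ≠ 0 := nonZeroDivisors.ne_zero hy
  have hc0 : c ≠ 0 := by
    intro h0
    rw [h0, map_zero] at hc
    exact div_ne_zero hα hα' hc.symm
  have hx0 : x ≠ 0 := by
    intro h0
    rw [h0, map_zero, zero_div] at hxy
    exact hc0 hxy.symm
  have hy1 : (algebraMap (𝓞 E) E y) ≠ 0 := by
    rwa [ne_eq, FaithfulSMul.algebraMap_eq_zero_iff]
  refine ⟨x, y, hx0, hy0, ?_⟩
  apply FaithfulSMul.algebraMap_injective (𝓞 E) E
  apply (algebraMap E H).injective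
  have h4 : α i = algebraMap E H c * α' i := by
    rw [hc, div_mul_cancel₀ _ hα']
  have h5 := h.pow i
  have h6 := h'.pow i
  rw [h4, mul_pow, h6, ← hxy, map_div₀] at h5
  rw [map_mul, map_mul, map_mul, map_mul, map_pow, map_pow, map_pow, map_pow]
  have h7 : algebraMap E H (algebraMap (𝓞 E) E y) ≠ 0 := by
    rwa [ne_eq, map_eq_zero]
  have h8 : algebraMap E H (algebraMap (𝓞 E) E (rad b i)) = algebraMap E H ((rad b i : 𝓞 E) : E) := rfl
  rw [h8, ← h5, div_pow]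
  field_simp

private theorem mg_bG (hg : ∀ i, IsGen (SK i) (g i)) {T : (i : ι) → Ideal (𝓞 (K i))} (hT : ∀ i, Cop (SK i) (T i)) (w : V n) :
    bG rep (fun i => g i (T i)) (fun _ => (1 : 𝓞 L)) w ≠ 0 := by
  classical
  by_cases hw : w = 0
  · subst hw
    rw [bG_zero]
    exact one_ne_zero
  · have h1 := bG_rep (L := L) rep (fun i => g i (T i)) (fun _ => (1 : 𝓞 L)) (rep.symm ⟨w, hw⟩).1 (rep.symm ⟨w, hw⟩).2
    have h2 : ((rep ⟨(rep.symm ⟨w, hw⟩).1, (rep.symm ⟨w, hw⟩).2⟩ : W n) : V n) = w := by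
      have h3 : rep ⟨(rep.symm ⟨w, hw⟩).1, (rep.symm ⟨w, hw⟩).2⟩ = ⟨w, hw⟩ := rep.apply_symm_apply ⟨w, hw⟩
      rw [h3]
    rw [h2, one_mul] at h1
    rw [h1]
    have h4 := (hg (rep.symm ⟨w, hw⟩).1 (T (rep.symm ⟨w, hw⟩).1) (hT (rep.symm ⟨w, hw⟩).1).1).1
    intro h0
    have h5 := (FaithfulSMul.algebraMap_eq_zero_iff (𝓞 (K (rep.symm ⟨w, hw⟩).1)) (𝓞 L)).1 h0
    exact h4 ((smul_eq_zero_iff_eq _).1 h5)

private theorem mg_radne (hg : ∀ i, IsGen (SK i) (g i)) {T : (i : ι) → Ideal (𝓞 (K i))} (hT : ∀ i, Cop (SK i) (T i)) (j : Fin m) :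
    rad (bG rep (fun i => g i (T i)) (fun _ => (1 : 𝓞 L))) j ≠ 0 := by
  unfold rad
  exact Finset.prod_ne_zero_iff.2 fun v _ => pow_ne_zero _ (mg_bG hg hT v)

private theorem mg_uT [IsCyclotomicExtension {e} F L] (hζ : IsPrimitiveRoot ζ e) (he : 0 < e)
    (hlev : IsLev (L := L) e ζ d z t v rep) (hSS : IsSS (F := F) e S SL SK) (hg : ∀ i, IsGen (SK i) (g i))
    {T T' : (i : ι) → Ideal (𝓞 (K i))} (hT : ∀ i, Cop (SK i) (T i)) (hT2 : SqG F T) (hT' : ∀ i, Cop (SK i) (T' i)) (hT2' : SqG F T')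
    (hc : ∀ i, n i ≠ 1 → ∃ x y : 𝓞 L, x ≠ 0 ∧ y ≠ 0 ∧
      rad (bG rep (fun i => g i (T i)) (fun _ => (1 : 𝓞 L))) i * y ^ n i =
        rad (bG rep (fun i => g i (T' i)) (fun _ => (1 : 𝓞 L))) i * x ^ n i)
    {Q : Prm L} (hQ : Q ∉ SL) : uT rep T Q = uT rep T' Q := by
  have hε : ∀ w : V n, IsSU SL ((fun _ => (1 : 𝓞 L)) w) := fun w =>
    ⟨one_ne_zero, fun q _ h1 => q.isPrime.ne_top ((Ideal.eq_top_iff_one _).2 h1)⟩
  have hval : ∀ (i : Fin m) (r s : ZMod (n i)), (∃ a b : ℕ, r.val + n i * a = s.val + n i * b) → r = s := by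
    rintro i r s ⟨a, b, hab⟩
    have h1 := ZMod.val_lt r
    have h1' := ZMod.val_lt s
    have h2 : (r.val + n i * a) % n i = (s.val + n i * b) % n i := by rw [hab]
    rw [Nat.add_mul_mod_self_left, Nat.add_mul_mod_self_left, Nat.mod_eq_of_lt h1, Nat.mod_eq_of_lt h1'] at h2
    exact ZMod.val_injective _ h2
  funext i
  refine hval i _ _ ?_
  have hr := ordQ_rad hζ he hlev hSS hg hT hT2 hε hQ i
  have hr' := ordQ_rad hζ he hlev hSS hg hT' hT2' hε hQ i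
  rw [← hr, ← hr']
  by_cases h1 : n i = 1
  · refine ⟨ordQ Q (rad (bG rep (fun i => g i (T' i)) (fun _ => (1 : 𝓞 L))) i),
      ordQ Q (rad (bG rep (fun i => g i (T i)) (fun _ => (1 : 𝓞 L))) i), ?_⟩
    rw [h1]
    ring
  · obtain ⟨x, y, hx, hy, hxy⟩ := hc i h1
    refine ⟨ordQ Q y, ordQ Q x, ?_⟩
    rw [← ordQ_pow Q hy, ← ordQ_pow Q hx, ← ordQ_mul Q (mg_radne hg hT i) (pow_ne_zero _ hy),
      ← ordQ_mul Q (mg_radne hg hT' i) (pow_ne_zero _ hx), hxy]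

theorem mult_G [IsGalois L M] (hζ : IsPrimitiveRoot ζ e) (he : 0 < e) (hn : ∀ i, n i ∣ e) [IsCyclotomicExtension {e} F L]
    (hlev : IsLev (L := L) e ζ d z t v rep) (hSS : IsSS (F := F) e S SL SK) (hg : ∀ i, IsGen (SK i) (g i))
    (hcard : Nat.card Gal(M/L) ≤ Fintype.card (V n)) :
    {T : (i : ι) → Ideal (𝓞 (K i)) | (∀ i, Cop (SK i) (T i)) ∧ SqG F T ∧
      ∃ α : Fin m → M, IsExt (bG rep (fun i => g i (T i)) (fun _ => (1 : 𝓞 L))) M α}.Finite ∧
    Set.ncard {T : (i : ι) → Ideal (𝓞 (K i)) | (∀ i, Cop (SK i) (T i)) ∧ SqG F T ∧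
      ∃ α : Fin m → M, IsExt (bG rep (fun i => g i (T i)) (fun _ => (1 : 𝓞 L))) M α} ≤ Fintype.card (V n) ^ Fintype.card (V n) := by
  classical
  have hfd : FiniteDimensional L M := FiniteDimensional.right ℚ L M
  set Z : Set ((i : ι) → Ideal (𝓞 (K i))) := {T : (i : ι) → Ideal (𝓞 (K i)) | (∀ i, Cop (SK i) (T i)) ∧ SqG F T ∧
      ∃ α : Fin m → M, IsExt (bG rep (fun i => g i (T i)) (fun _ => (1 : 𝓞 L))) M α} with hZ
  have hex : ∀ T : (i : ι) → Ideal (𝓞 (K i)), ∃ κ : Gal(M/L) → V n, T ∈ Z →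
      ∃ α : Fin m → M, IsExt (bG rep (fun i => g i (T i)) (fun _ => (1 : 𝓞 L))) M α ∧
      ∀ (σ : Gal(M/L)) (c : V n), σ (bet α c) = algebraMap L M (ζ ^ pr e c (κ σ)) * bet α c := by
    intro T
    by_cases hT : T ∈ Z
    · obtain ⟨h1, h2, α, h3⟩ := hT
      obtain ⟨κ, -, hκ⟩ := kum hζ he hn h3 (mg_radne hg h1)
      exact ⟨fun σ => (κ σ).toAdd, fun _ => ⟨α, h3, hκ⟩⟩
    · exact ⟨fun _ => 0, fun h => absurd h hT⟩
  choose κ hκ using hex
  have hinj : Set.InjOn κ Z := by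
    intro T hT T' hT' hTT
    obtain ⟨α, h3, h4⟩ := hκ T hT
    obtain ⟨α', h3', h4'⟩ := hκ T' hT'
    rw [← hTT] at h4'
    have hc := mg_kum h3 h3' (mg_radne hg hT.1) (mg_radne hg hT'.1) (κ T) h4 h4'
    have hu : ∀ {Q : Prm L}, Q ∉ SL → uT rep T Q = uT rep T' Q := fun hQ =>
      mg_uT hζ he hlev hSS hg hT.1 hT.2.1 hT'.1 hT'.2.1 hc hQ
    funext i
    refine mg_ext (hT.1 i).1 (hT'.1 i).1 (fun q h => (hT.2.1.1 i q (h.trans (Ideal.pow_le_self two_ne_zero))).1 h)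
      (fun q h => (hT'.2.1.1 i q (h.trans (Ideal.pow_le_self two_ne_zero))).1 h) fun q => ?_
    by_cases hq : q ∈ SK i
    · exact ⟨fun h => absurd h ((hT.1 i).2 q hq), fun h => absurd h ((hT'.1 i).2 q hq)⟩
    · obtain ⟨Q, rfl⟩ := exists_over (K := K i) (L := L) q
      have hQ : Q ∉ SL := by
        intro h
        refine hq ((hSS.memK i _).2 ?_)
        rw [under_under F (K := K i) Q]
        exact (hSS.memL Q).1 h
      have h5 := uT_eq hζ he hlev hSS hT.2.1 hQ (⟨i, 1⟩ : Σ i, Gal(K i/F))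
      have h6 := uT_eq hζ he hlev hSS hT'.2.1 hQ (⟨i, 1⟩ : Σ i, Gal(K i/F))
      simp only [inv_one, cjP_one] at h5 h6
      rw [← h5, ← h6, hu hQ]
  have hfinG : Finite Gal(M/L) := inferInstance
  have hfin : Z.Finite := Set.Finite.of_finite_image (Set.toFinite (κ '' Z)) hinj
  refine ⟨hfin, ?_⟩
  rw [← Set.InjOn.ncard_image hinj]
  refine (Set.ncard_le_card _).trans ?_
  rw [Nat.card_fun, Nat.card_eq_fintype_card]
  exact Nat.pow_le_pow_right Fintype.card_pos hcard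

end StarkR
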