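import Pool.Agent.Lib.MP_d9bae3_nt.NG.UT
import Pool.Agent.Lib.MP_d9bae3_nt.NG.Inr
import Pool.Agent.Lib.MP_d9bae3_nt.NG.UnrM
import Pool.Agent.Lib.MP_d9bae3_nt.SG.GRam
import Pool.Agent.Lib.MP_d9bae3_nt.NA.NDefs

/-!
# Module NAG-RadLe: the product of the ramified primes, upper bound

Let `q ∉ S` be ramified in `H`.  By `comp_galois` (SG/GRam.lean; `L/F` is Galois: cyclotomic) and `ramified_up`, `q` is ramified in `M/F`.  `e ∉ q` (`q ∉ S`: take a prime `Q` of `L` above, `Q ∉ SL`, `GoodS.dvd`).  By `unram_M` there are `Q` above `q` and `w` with `B_w ∈ Q`; `w ≠ 0`; `w = rep (i, τ)` and `T i ≤ τ⁻¹ (Q ∩ K i)` (from `ordQ_bG` and `uT_eq`, or directly).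
So there is a prime `q' = τ⁻¹ (Q ∩ K i)` of `K i` above `q` with `T i ≤ q'`, and `N(q) ≤ N(q')` (`nm_under_dvd`).  So the product over the ramified `q ∉ S` of `N(q)` is at most `∏_i ∏_{q' : T i ≤ q'} N(q') = ∏_i N(T i)` (choose a pair `(i, q')` for every `q`; injective).
-/

set_option linter.unusedSectionVars false

namespace StarkR

open NumberField IsDedekindDomain Filter Topology
open scoped Pointwise

variable {F L : Type} [Field F] [NumberField F] [Field L] [NumberField L] [Algebra F L]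
variable {ι : Type} [Fintype ι] {K : ι → Type} [∀ i, Field (K i)] [∀ i, NumberField (K i)]
variable [∀ i, Algebra F (K i)] [∀ i, Algebra (K i) L] [∀ i, IsScalarTower F (K i) L]
variable {m : ℕ} {n : Fin m → ℕ} [∀ i, NeZero (n i)]
variable {e : ℕ} {ζ : L} {d : ι → ℕ} {z : (i : ι) → K i} {t : (i : ι) → Gal(K i/F) → ℕ} {v : ι → V n} {rep : (Σ i, Gal(K i/F)) ≃ W n}
variable {S : Finset (Prm F)} {SL : Finset (Prm L)} {SK : (i : ι) → Finset (Prm (K i))} {g : (i : ι) → Ideal (𝓞 (K i)) → 𝓞 (K i)}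
variable {H M : Type} [Field H] [NumberField H] [Field M] [NumberField M] [Algebra F H] [Algebra F M] [Algebra L M] [Algebra H M]
variable [IsScalarTower F L M] [IsScalarTower F H M]

private theorem RadLe_prod_dvd {E : Type} [Field E] [NumberField E] {I : Ideal (𝓞 E)} (A : Finset (Prm E))
    (hA : ∀ q ∈ A, I ≤ q.asIdeal) : ∏ q ∈ A, nm q ∣ Ideal.absNorm I := by
  have h : ∏ q ∈ A, q.asIdeal ∣ I := by
    refine Finset.prod_dvd_of_coprime ?_ ?_
    · intro q _ q' _ hne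
      rw [Function.onFun, Ideal.isCoprime_iff_sup_eq]
      have h1 : q.asIdeal.IsMaximal := q.isMaximal
      have h2 : q'.asIdeal.IsMaximal := q'.isMaximal
      exact h1.coprime_of_ne h2 fun h3 => hne (HeightOneSpectrum.ext h3)
    · intro q hq
      exact Ideal.dvd_iff_le.2 (hA q hq)
  have h2 := map_dvd Ideal.absNorm h
  rw [map_prod] at h2
  exact h2

private theorem RadLe_key (hζ : IsPrimitiveRoot ζ e) (he : 0 < e) (hn : ∀ i, n i ∣ e) [IsCyclotomicExtension {e} F L]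
    [IsGalois F H]
    (hSS : IsSS (F := F) e S SL SK) (hg : ∀ i, IsGen (SK i) (g i))
    {T : (i : ι) → Ideal (𝓞 (K i))} (hT : ∀ i, Cop (SK i) (T i)) (hT2 : SqG F T) {ε : V n → 𝓞 L} (hε : ∀ w, IsSU SL (ε w))
    {α : Fin m → M} (h : IsExt (bG rep (fun i => g i (T i)) ε) M α) (hc : IsCompositum L H M) {q : Prm F} (hq : Ramified H q)
    (hqS : q ∉ S) : ∃ p : Σ i, Prm (K i), T p.1 ≤ p.2.asIdeal ∧ p.2.under (𝓞 F) = q ∧ nm q = nm p.2 := by
  have : NeZero e := ⟨he.ne'⟩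
  have hFL : IsGalois F L := IsCyclotomicExtension.isGalois {e} F L
  have hFM : IsGalois F M := comp_galois F L H M hc
  have hqM : Ramified M q := ramified_up hq
  have heq : (e : 𝓞 F) ∉ q.asIdeal := by
    intro h1
    obtain ⟨Q, hQ⟩ := exists_over (K := F) (L := L) q
    apply hqS
    rw [← hQ, ← hSS.memL]
    apply hSS.goodL.dvd
    have h2 : (e : 𝓞 F) ∈ (Q.under (𝓞 F)).asIdeal := by rw [hQ]; exact h1
    have h3 : algebraMap (𝓞 F) (𝓞 L) (e : 𝓞 F) ∈ Q.asIdeal := h2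
    rwa [map_natCast] at h3
  have h1 : ∃ Q : Prm L, Q.under (𝓞 F) = q ∧ ∃ w, bG rep (fun i => g i (T i)) ε w ∈ Q.asIdeal := by
    by_contra hno
    push Not at hno
    exact unram_M hζ he hn h heq (fun Q hQ w => hno Q hQ w) hqM
  obtain ⟨Q, hQ, w, hw⟩ := h1
  have hQS : Q ∉ SL := by
    rw [hSS.memL, hQ]
    exact hqS
  have hQ1 : (1 : 𝓞 L) ∉ Q.asIdeal := fun h2 => Q.isPrime.ne_top ((Ideal.eq_top_iff_one _).2 h2)
  have hw0 : w ≠ 0 := by
    intro h2
    rw [h2, bG_zero] at hw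
    exact hQ1 hw
  obtain ⟨⟨i, τ⟩, hp⟩ := rep.surjective ⟨w, hw0⟩
  have hw2 : ((rep ⟨i, τ⟩ : W n) : V n) = w := congrArg Subtype.val hp
  rw [← hw2, bG_rep] at hw
  have hw3 := (Q.isPrime.mem_or_mem hw).resolve_left ((hε _).2 Q hQS)
  have hw4 : τ • g i (T i) ∈ (Q.under (𝓞 (K i))).asIdeal := hw3
  obtain ⟨q', hq'⟩ : ∃ q' : Prm (K i), q' = cjP τ⁻¹ (Q.under (𝓞 (K i))) := ⟨_, rfl⟩
  have hu : q'.under (𝓞 F) = q := by
    rw [hq', cjP_under, under_under, hQ]
  have hmem : g i (T i) ∈ q'.asIdeal := by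
    have h2 := (smul_mem_cjP τ⁻¹ (Q.under (𝓞 (K i))) (τ • g i (T i))).2 hw4
    rw [inv_smul_smul] at h2
    rw [hq']
    exact h2
  have hq'S : q' ∉ SK i := by
    rw [hSS.memK, hu]
    exact hqS
  have hTq : T i ≤ q'.asIdeal := by
    have h2 := (hg i (T i) (hT i).1).2 q' hq'S 1
    rw [pow_one] at h2
    exact h2.1 hmem
  refine ⟨⟨i, q'⟩, hTq, hu, ?_⟩
  rw [← hu]
  exact (hT2.1 i q' hTq).2.symm

theorem radG_le [IsGalois F H] (hζ : IsPrimitiveRoot ζ e) (he : 0 < e) (hn : ∀ i, n i ∣ e) [IsCyclotomicExtension {e} F L]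
    (hlev : IsLev (L := L) e ζ d z t v rep) (hSS : IsSS (F := F) e S SL SK) (hg : ∀ i, IsGen (SK i) (g i))
    {T : (i : ι) → Ideal (𝓞 (K i))} (hT : ∀ i, Cop (SK i) (T i)) (hT2 : SqG F T) {ε : V n → 𝓞 L} (hε : ∀ w, IsSU SL (ε w))
    {α : Fin m → M} (h : IsExt (bG rep (fun i => g i (T i)) ε) M α) (hc : IsCompositum L H M) :
    radN F H ≤ (∏ q ∈ S, nm q) * ∏ i, Ideal.absNorm (T i) := by
  classical
  have hkey := fun (q : Prm F) (hq : Ramified H q) (hqS : q ∉ S) =>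
    RadLe_key hζ he hn hSS hg hT hT2 hε h hc hq hqS
  have hnm : ∀ {E : Type} [Field E] [NumberField E] (q : Prm E), 0 < nm q := by
    intro E _ _ q
    refine Nat.pos_of_ne_zero fun h0 => ?_
    exact q.ne_bot (Ideal.absNorm_eq_zero_iff.1 h0)
  have hTpos : ∀ i, 0 < Ideal.absNorm (T i) := fun i =>
    Nat.pos_of_ne_zero fun h0 => (hT i).1 (Ideal.absNorm_eq_zero_iff.1 h0)
  have hSpos : 0 < ∏ q ∈ S, nm q := Finset.prod_pos fun q _ => hnm q
  have hRpos : 0 < (∏ q ∈ S, nm q) * ∏ i, Ideal.absNorm (T i) :=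
    Nat.mul_pos hSpos (Finset.prod_pos fun i _ => hTpos i)
  have hfin : ∀ i, {q' : Prm (K i) | T i ≤ q'.asIdeal}.Finite := by
    intro i
    have h1 := Ideal.finite_factors (hT i).1
    refine h1.subset fun q' hq' => ?_
    exact Ideal.dvd_iff_le.2 hq'
  have main : ∀ A : Finset (Prm F), (∀ q ∈ A, Ramified H q) →
      ∏ q ∈ A, nm q ∣ (∏ q ∈ S, nm q) * ∏ i, Ideal.absNorm (T i) := by
    intro A hA
    rw [← Finset.prod_filter_mul_prod_filter_not A (fun q => q ∈ S)]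
    refine mul_dvd_mul ?_ ?_
    · exact Finset.prod_dvd_prod_of_subset _ _ _ fun q hq => (Finset.mem_filter.1 hq).2
    · obtain ⟨A', hA'⟩ : ∃ A' : Finset (Prm F), A' = A.filter (fun q => q ∉ S) := ⟨_, rfl⟩
      rw [← hA']
      have hex : ∀ q : {q // q ∈ A'}, ∃ p : Σ i, Prm (K i), T p.1 ≤ p.2.asIdeal ∧ p.2.under (𝓞 F) = q ∧ nm q.1 = nm p.2 := by
        rintro ⟨q, hq⟩
        rw [hA', Finset.mem_filter] at hq
        exact hkey q (hA q hq.1) hq.2
      choose f hf1 hf2 hf3 using hex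
      have hinj : Function.Injective f := by
        intro a b hab
        apply Subtype.ext
        rw [← hf2 a, ← hf2 b, hab]
      have e1 : ∏ q ∈ A', nm q = ∏ p ∈ A'.attach.image f, nm p.2 := by
        rw [Finset.prod_image fun a _ b _ hab => hinj hab, ← Finset.prod_attach]
        exact Finset.prod_congr rfl fun q _ => hf3 q
      rw [e1]
      have e2 : A'.attach.image f ⊆ Finset.univ.sigma fun i => (hfin i).toFinset := by
        intro p hp
        obtain ⟨a, _, rfl⟩ := Finset.mem_image.1 hp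
        rw [Finset.mem_sigma]
        exact ⟨Finset.mem_univ _, (hfin _).mem_toFinset.2 (hf1 a)⟩
      refine (Finset.prod_dvd_prod_of_subset _ _ _ e2).trans ?_
      rw [Finset.prod_sigma]
      refine Finset.prod_dvd_prod_of_dvd _ _ fun i _ => ?_
      exact RadLe_prod_dvd _ fun q hq => (hfin i).mem_toFinset.1 hq
  unfold radN
  by_cases hF : ({q : Prm F | Ramified H q} ∩ Function.mulSupport (fun q : Prm F => nm q)).Finite
  · rw [finprod_mem_eq_prod _ hF]
    refine Nat.le_of_dvd hRpos (main _ fun q hq => ?_)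
    exact (hF.mem_toFinset.1 hq).1
  · rw [finprod_mem_eq_one_of_infinite hF]
    exact hRpos

end StarkR
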