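import Pool.Agent.Lib.MP_d9bae3_nt.NG.GB
import Pool.Agent.Lib.MP_d9bae3_nt.SG.GRam

/-!
# Module NAG-SubB: boundedly many fields with the same compositum

If the set is not empty, `M = Mof L H` is Galois over `F` (`comp_galois`, `Mof_compositum`) of degree `≤ [L:F] [H:F] = [L:F] #V`, and every `H` in the set is contained in `M` (as subfields of `Ω`), so it is the image of an intermediate field of `M/F`; these correspond to subgroups of `Gal(M/F)` (Galois correspondence, `IsGalois.intermediateFieldEquivSubgroup`), so there are at most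
`2^(#Gal(M/F))` of them (subsets of the group).
-/

set_option linter.unusedSectionVars false

namespace StarkR

open NumberField IsDedekindDomain Filter Topology
open scoped Pointwise

variable {F L : Type} [Field F] [NumberField F] [Field L] [NumberField L] [Algebra F L]
variable {m : ℕ} {n : Fin m → ℕ} [∀ i, NeZero (n i)] {Ω : Type} [Field Ω] [Algebra F Ω] [Algebra L Ω] [IsScalarTower F L Ω]

private theorem subB_card_le [IsGalois F L] (H0 : IntermediateField F Ω) [NumberField H0] [IsGalois F H0]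
    (hG : Nonempty (Gal(H0/F) ≃* Multiplicative (V n))) (hgal : IsGalois F (Mof L H0)) :
    Nat.card Gal(Mof L H0/F) ≤ Module.finrank F L * Fintype.card (V n) := by
  have hc := Mof_compositum L H0
  have hfin : FiniteDimensional F (Mof L H0) := FiniteDimensional.right ℚ F (Mof L H0)
  have hfL : FiniteDimensional F L := FiniteDimensional.right ℚ F L
  have hfH : FiniteDimensional F H0 := FiniteDimensional.right ℚ F H0
  have hfin2 : FiniteDimensional L (Mof L H0) := Mof_finite L H0
  have hgal2 : IsGalois L (Mof L H0) := IsGalois.tower_top_of_isGalois F L (Mof L H0)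
  have h1 : Nat.card Gal(Mof L H0/F) = Module.finrank F (Mof L H0) := IsGalois.card_aut_eq_finrank F (Mof L H0)
  have h2 : Nat.card Gal(Mof L H0/L) = Module.finrank L (Mof L H0) := IsGalois.card_aut_eq_finrank L (Mof L H0)
  have h3 : Module.finrank F L * Module.finrank L (Mof L H0) = Module.finrank F (Mof L H0) := Module.finrank_mul_finrank F L (Mof L H0)
  have h4 : Nat.card Gal(Mof L H0/L) ≤ Nat.card Gal(H0/F) :=
    Nat.card_le_card_of_injective _ (resLH_injective (F := F) hc)
  have h5 : Nat.card Gal(H0/F) = Fintype.card (V n) := by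
    obtain ⟨e⟩ := hG
    rw [Nat.card_congr e.toEquiv, Nat.card_congr (Multiplicative.toAdd (α := V n)), Nat.card_eq_fintype_card]
  rw [h1, ← h3, ← h2]
  exact Nat.mul_le_mul_left _ (h4.trans h5.le)

theorem sub_bound [IsGalois F L] (M : IntermediateField L Ω) :
    {H : IntermediateField F Ω | ∃ _ : NumberField H, IsGalois F H ∧ Nonempty (Gal(H/F) ≃* Multiplicative (V n)) ∧ Mof L H = M}.Finite ∧
    Set.ncard {H : IntermediateField F Ω | ∃ _ : NumberField H, IsGalois F H ∧ Nonempty (Gal(H/F) ≃* Multiplicative (V n)) ∧ Mof L H = M} ≤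
      2 ^ (Module.finrank F L * Fintype.card (V n)) := by
  classical
  obtain ⟨HH, hHH⟩ : ∃ HH : Set (IntermediateField F Ω), HH = {H : IntermediateField F Ω | ∃ _ : NumberField H, IsGalois F H ∧
    Nonempty (Gal(H/F) ≃* Multiplicative (V n)) ∧ Mof L H = M} := ⟨_, rfl⟩
  rw [← hHH]
  rcases HH.eq_empty_or_nonempty with h0 | ⟨H0, h0⟩
  · rw [h0]
    exact ⟨Set.finite_empty, by simp⟩
  have hmem := h0
  rw [hHH] at hmem
  obtain ⟨hnf, hgH, hG, hM⟩ := hmem
  subst hM
  have hc := Mof_compositum L H0
  have hgal : IsGalois F (Mof L H0) := comp_galois F L H0 (Mof L H0) hc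
  have hfin : FiniteDimensional F (Mof L H0) := FiniteDimensional.right ℚ F (Mof L H0)
  have hcard := subB_card_le H0 hG hgal
  obtain ⟨ι, hι⟩ : ∃ ι : Mof L H0 →ₐ[F] Ω, ∀ x, ι x = (x : Ω) :=
    ⟨(Mof L H0).val.restrictScalars F, fun x => rfl⟩
  obtain ⟨Φ, hΦ⟩ : ∃ Φ : IntermediateField F Ω → Set Gal(Mof L H0/F), ∀ H,
      Φ H = ((H.comap ι).fixingSubgroup : Set Gal(Mof L H0/F)) := ⟨fun H => ((H.comap ι).fixingSubgroup : Set Gal(Mof L H0/F)), fun H => rfl⟩
  have hinj : Set.InjOn Φ HH := by
    intro H hH H' hH' heq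
    rw [hΦ, hΦ] at heq
    have h1 : (H.comap ι).fixingSubgroup = (H'.comap ι).fixingSubgroup := SetLike.coe_injective heq
    have h2 : H.comap ι = H'.comap ι := by
      rw [← IsGalois.fixedField_fixingSubgroup (H.comap ι), ← IsGalois.fixedField_fixingSubgroup (H'.comap ι), h1]
    have h3 : ∀ K ∈ HH, ∀ x : Ω, x ∈ K → ∃ y : Mof L H0, (y : Ω) = x := by
      intro K hK x hx
      rw [hHH] at hK
      obtain ⟨hnf', -, -, hM'⟩ := hK
      have h4 : x ∈ Mof L K := Mof_incl L K ⟨x, hx⟩
      rw [hM'] at h4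
      exact ⟨⟨x, h4⟩, rfl⟩
    ext x
    constructor
    · intro hx
      obtain ⟨y, rfl⟩ := h3 H hH x hx
      have h5 : y ∈ H.comap ι := by
        change ι y ∈ H
        rw [hι]
        exact hx
      rw [h2] at h5
      have h6 : ι y ∈ H' := h5
      rwa [hι] at h6
    · intro hx
      obtain ⟨y, rfl⟩ := h3 H' hH' x hx
      have h5 : y ∈ H'.comap ι := by
        change ι y ∈ H'
        rw [hι]
        exact hx
      rw [← h2] at h5
      have h6 : ι y ∈ H := h5
      rwa [hι] at h6
  have hfG : Finite Gal(Mof L H0/F) := inferInstance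
  have hfS : Finite (Set Gal(Mof L H0/F)) := inferInstance
  have hFin : HH.Finite := Set.Finite.of_finite_image (Set.toFinite (Φ '' HH)) hinj
  refine ⟨hFin, ?_⟩
  have h7 : HH.ncard = (Φ '' HH).ncard := hinj.ncard_image.symm
  have h8 : (Φ '' HH).ncard ≤ Nat.card (Set Gal(Mof L H0/F)) := by
    rw [← Set.ncard_univ]
    exact Set.ncard_le_ncard (Set.subset_univ _) (Set.toFinite _)
  have h9 : Nat.card (Set Gal(Mof L H0/F)) = 2 ^ Nat.card Gal(Mof L H0/F) := by
    have := Fintype.ofFinite Gal(Mof L H0/F)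
    rw [Nat.card_eq_fintype_card, Nat.card_eq_fintype_card, Fintype.card_set]
  rw [h7]
  refine h8.trans ?_
  rw [h9]
  exact Nat.pow_le_pow_right (by norm_num) hcard

end StarkR
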