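import Pool.Agent.Lib.MP_d9bae3_nt.NG.FUL
import Pool.Agent.Lib.MP_d9bae3_nt.NG.DecG
import Pool.Agent.Lib.MP_d9bae3_nt.NG.ExT
import Pool.Agent.Lib.MP_d9bae3_nt.NG.MulG
import Pool.Agent.Lib.MP_d9bae3_nt.NG.SubB
import Pool.Agent.Lib.MP_d9bae3_nt.NG.RadGe
import Pool.Agent.Lib.MP_d9bae3_nt.NG.RadLe
import Pool.Agent.Lib.MP_d9bae3_nt.NG.RichLG
import Pool.Agent.Lib.MP_d9bae3_nt.NG.Many
import Pool.Agent.Lib.MP_d9bae3_nt.NG.TupG
import Pool.Agent.Lib.MP_d9bae3_nt.NA.Sel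
import Pool.Agent.Lib.MP_d9bae3_nt.NA.FinA

/-!
# Module NAG-FinGA: extensions and tuples of ideals
-/

set_option linter.unusedSectionVars false

namespace StarkR

open NumberField IsDedekindDomain Filter Topology
open scoped Pointwise

theorem ncard_fiber {α β : Type*} {A : Set α} {B : Set β} (f : α → β) (hf : Set.MapsTo f A B) (hB : B.Finite) (C : ℕ)
    (h : ∀ b ∈ B, {a | a ∈ A ∧ f a = b}.Finite ∧ {a | a ∈ A ∧ f a = b}.ncard ≤ C) : A.Finite ∧ A.ncard ≤ C * B.ncard := by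
  classical
  have hA : A.Finite := by
    refine (hB.biUnion fun b hb => (h b hb).1).subset fun a ha => ?_
    rw [Set.mem_iUnion₂]
    exact ⟨f a, hf ha, ha, rfl⟩
  refine ⟨hA, ?_⟩
  rw [Set.ncard_eq_toFinset_card _ hA, Set.ncard_eq_toFinset_card _ hB]
  refine (Finset.card_le_mul_card_image (f := f) hA.toFinset C ?_).trans (Nat.mul_le_mul_left _ (Finset.card_le_card ?_))
  · intro b hb
    rw [Finset.mem_image] at hb
    obtain ⟨a, ha, rfl⟩ := hb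
    rw [Set.Finite.mem_toFinset] at ha
    obtain ⟨h1, h2⟩ := h (f a) (hf ha)
    refine le_trans ?_ h2
    rw [Set.ncard_eq_toFinset_card _ h1]
    refine Finset.card_le_card fun a' ha' => ?_
    rw [Finset.mem_filter, Set.Finite.mem_toFinset] at ha'
    rw [Set.Finite.mem_toFinset]
    exact ha'
  · intro b hb
    rw [Finset.mem_image] at hb
    obtain ⟨a, ha, rfl⟩ := hb
    rw [Set.Finite.mem_toFinset] at ha ⊢
    exact hf ha

/-- the pairs of a function with values in `E ∪ {1}` and an element of `B` -/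
theorem pairs_finiteG {α β γ : Type*} [Fintype α] [One β] {E : Finset β} {B : Set γ} (hB : B.Finite) :
    {p : (α → β) × γ | (∀ v, p.1 v ∈ E ∨ p.1 v = 1) ∧ p.2 ∈ B}.Finite ∧
    {p : (α → β) × γ | (∀ v, p.1 v ∈ E ∨ p.1 v = 1) ∧ p.2 ∈ B}.ncard ≤ (E.card + 1) ^ Fintype.card α * B.ncard := by
  classical
  have h1 : {p : (α → β) × γ | (∀ v, p.1 v ∈ E ∨ p.1 v = 1) ∧ p.2 ∈ B} =
      ((Fintype.piFinset (fun _ : α => insert 1 E) : Finset (α → β)) : Set (α → β)) ×ˢ B := by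
    ext p
    simp only [Set.mem_ofPred_eq, Set.mem_prod, Finset.mem_coe, Fintype.mem_piFinset, Finset.mem_insert]
    refine and_congr_left fun _ => forall_congr' fun v => or_comm
  rw [h1]
  refine ⟨(Finset.finite_toSet _).prod hB, ?_⟩
  rw [Set.ncard_prod, Set.ncard_coe_finset, Fintype.card_piFinset, Finset.prod_const, Finset.card_univ]
  exact Nat.mul_le_mul_right _ (Nat.pow_le_pow_left (Finset.card_insert_le _ _) _)

variable {F L : Type} [Field F] [NumberField F] [Field L] [NumberField L] [Algebra F L]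
variable {ι : Type} [Fintype ι] {K : ι → Type} [∀ i, Field (K i)] [∀ i, NumberField (K i)]
variable [∀ i, Algebra F (K i)] [∀ i, Algebra (K i) L] [∀ i, IsScalarTower F (K i) L]
variable {m : ℕ} {n : Fin m → ℕ} [∀ i, NeZero (n i)]
variable {e : ℕ} {ζ : L} {d : ι → ℕ} {z : (i : ι) → K i} {t : (i : ι) → Gal(K i/F) → ℕ} {v : ι → V n} {rep : (Σ i, Gal(K i/F)) ≃ W n}
variable {S : Finset (Prm F)} {SL : Finset (Prm L)} {SK : (i : ι) → Finset (Prm (K i))} {g : (i : ι) → Ideal (𝓞 (K i)) → 𝓞 (K i)}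
variable [Algebra L (AlgebraicClosure F)] [IsScalarTower F L (AlgebraicClosure F)]

theorem ext_dataG (hζ : IsPrimitiveRoot ζ e) (he : 0 < e) (hn : ∀ i, n i ∣ e) [IsCyclotomicExtension {e} F L]
    (hlev : IsLev (L := L) e ζ d z t v rep) (hSS : IsSS (F := F) e S SL SK) (hg : ∀ i, IsGen (SK i) (g i))
    {E : Finset (𝓞 L)} (hE1 : ∀ ε ∈ E, IsSU SL ε)
    (hE2 : ∀ x : 𝓞 L, IsSU SL x → ∃ ε ∈ E, ∃ z w : 𝓞 L, IsSU SL z ∧ IsSU SL w ∧ x * z ^ e = ε * w ^ e)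
    {X : ℕ} {H : IntermediateField F (AlgebraicClosure F)} (hH : H ∈ AExt F n X) :
    ∃ p : (V n → 𝓞 L) × ((i : ι) → Ideal (𝓞 (K i))), ((∀ w, p.1 w ∈ E ∨ p.1 w = 1) ∧ p.2 ∈ TG SK X) ∧
      ∃ (_ : NumberField H) (_ : IsGalois F H) (α : Fin m → Mof L H), IsExt (bG rep (fun i => g i (p.2 i)) p.1) (Mof L H) α := by
  obtain ⟨hNF, hGal, ⟨φ⟩, hX⟩ := hH
  have hc := Mof_compositum L H
  obtain ⟨ε, T, α, hε, hT, hT2, hext⟩ := decG hζ he hn hlev hSS hg hE1 hE2 φ.toMonoidHom φ.injective hc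
  have hεU : ∀ w, IsSU SL (ε w) := fun w => (hε w).elim (hE1 _) (fun h => h ▸ isSU_one SL)
  have hN := radG_ge hζ he hn hlev hSS hg hT hT2 hεU hext hc
  refine ⟨(ε, T), ⟨hε, fun i => ⟨hT i, (hT i).1⟩, ?_⟩, hNF, hGal, α, hext⟩
  have h1 : (∏ i, Ideal.absNorm (T i)) ≤ X := hN.trans hX
  exact_mod_cast h1

theorem ext_countG (hζ : IsPrimitiveRoot ζ e) (he : 0 < e) (hn : ∀ i, n i ∣ e) [IsCyclotomicExtension {e} F L]
    (hlev : IsLev (L := L) e ζ d z t v rep) (hSS : IsSS (F := F) e S SL SK) (hg : ∀ i, IsGen (SK i) (g i))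
    {E : Finset (𝓞 L)} (hE1 : ∀ ε ∈ E, IsSU SL ε)
    (hE2 : ∀ x : 𝓞 L, IsSU SL x → ∃ ε ∈ E, ∃ z w : 𝓞 L, IsSU SL z ∧ IsSU SL w ∧ x * z ^ e = ε * w ^ e) {X : ℕ}
    {A : Set (IntermediateField F (AlgebraicClosure F))} {B : Set ((i : ι) → Ideal (𝓞 (K i)))} (hA : A ⊆ AExt F n X) (hB : B.Finite)
    (hAB : ∀ H ∈ A, ∀ (p : (V n → 𝓞 L) × ((i : ι) → Ideal (𝓞 (K i)))), (∀ w, p.1 w ∈ E ∨ p.1 w = 1) → p.2 ∈ TG SK X →
      ∀ (_ : NumberField H) (_ : IsGalois F H) (α : Fin m → Mof L H), IsExt (bG rep (fun i => g i (p.2 i)) p.1) (Mof L H) α → p.2 ∈ B) :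
    A.Finite ∧ A.ncard ≤ 2 ^ (Module.finrank F L * Fintype.card (V n)) * ((E.card + 1) ^ Fintype.card (V n) * B.ncard) := by
  classical
  have hGL : IsGalois F L := IsCyclotomicExtension.isGalois {e} F L
  obtain ⟨h1, h2⟩ := pairs_finiteG (α := V n) (E := E) hB
  let f : IntermediateField F (AlgebraicClosure F) → (V n → 𝓞 L) × ((i : ι) → Ideal (𝓞 (K i))) := fun H =>
    if hH : H ∈ AExt F n X then (ext_dataG hζ he hn hlev hSS hg hE1 hE2 hH).choose else (fun _ => 1, fun _ => ⊤)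
  have hf : ∀ H (hH : H ∈ AExt F n X), f H = (ext_dataG hζ he hn hlev hSS hg hE1 hE2 hH).choose := fun H hH => dif_pos hH
  have hmaps : Set.MapsTo f A {p : (V n → 𝓞 L) × ((i : ι) → Ideal (𝓞 (K i))) | (∀ w, p.1 w ∈ E ∨ p.1 w = 1) ∧ p.2 ∈ B} := by
    intro H hHA
    have h3 := (ext_dataG hζ he hn hlev hSS hg hE1 hE2 (hA hHA)).choose_spec
    rw [← hf H (hA hHA)] at h3
    obtain ⟨h3, hNF, hGal, α, h4⟩ := h3
    exact ⟨h3.1, hAB H hHA _ h3.1 h3.2 hNF hGal α h4⟩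
  obtain ⟨h5, h6⟩ := ncard_fiber f hmaps h1 (2 ^ (Module.finrank F L * Fintype.card (V n))) (by
    rintro p -
    by_cases hne : ∃ H, H ∈ A ∧ f H = p
    · obtain ⟨H₀, hH₀, hp⟩ := hne
      have h3 := (ext_dataG hζ he hn hlev hSS hg hE1 hE2 (hA hH₀)).choose_spec
      rw [← hf H₀ (hA hH₀), hp] at h3
      obtain ⟨-, hNF, hGal, α, h4⟩ := h3
      obtain ⟨h7, h8⟩ := sub_bound (F := F) (n := n) (Mof L H₀)
      have hsub : {H | H ∈ A ∧ f H = p} ⊆ {H : IntermediateField F (AlgebraicClosure F) | ∃ _ : NumberField H, IsGalois F H ∧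
          Nonempty (Gal(H/F) ≃* Multiplicative (V n)) ∧ Mof L H = Mof L H₀} := by
        rintro H ⟨hH, hpH⟩
        have h3' := (ext_dataG hζ he hn hlev hSS hg hE1 hE2 (hA hH)).choose_spec
        rw [← hf H (hA hH), hpH] at h3'
        obtain ⟨-, hNF', hGal', α', h4'⟩ := h3'
        obtain ⟨-, -, hφ, -⟩ := hA hH
        exact ⟨hNF', hGal', hφ, field_uniqueO hζ he hn _ h4' h4⟩
      exact ⟨h7.subset hsub, (Set.ncard_le_ncard hsub h7).trans h8⟩
    · have hempty : {H | H ∈ A ∧ f H = p} = ∅ := by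
        rw [Set.eq_empty_iff_forall_notMem]
        exact fun H hH => hne ⟨H, hH⟩
      rw [hempty]
      exact ⟨Set.finite_empty, by simp⟩)
  exact ⟨h5, h6.trans (Nat.mul_le_mul_left _ h2)⟩

theorem bad_leG (hζ : IsPrimitiveRoot ζ e) (he : 0 < e) (hn : ∀ i, n i ∣ e) [IsCyclotomicExtension {e} F L]
    (hlev : IsLev (L := L) e ζ d z t v rep) (hSS : IsSS (F := F) e S SL SK) (hg : ∀ i, IsGen (SK i) (g i))
    {E : Finset (𝓞 L)} (hE1 : ∀ ε ∈ E, IsSU SL ε)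
    (hE2 : ∀ x : 𝓞 L, IsSU SL x → ∃ ε ∈ E, ∃ z w : 𝓞 L, IsSU SL z ∧ IsSU SL w ∧ x * z ^ e = ε * w ^ e)
    {k : ℕ} (hk : 1 ≤ k) (P : IntermediateField F (AlgebraicClosure F) → Prop)
    (hP : ∀ (H : IntermediateField F (AlgebraicClosure F)) (_ : NumberField H) (_ : IsGalois F H) (_ : Gal(H/F) ≃* Multiplicative (V n)),
      (∀ χ : Gal(H/F) →* ℂˣ, χ.ker ≠ ⊥ → ∃ A : Finset (Prm F), k ≤ A.card ∧ ∀ q ∈ A, Ramified H q ∧ TrivialAt χ q) → P H) (X : ℕ) :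
    {H | H ∈ AExt F n X ∧ ¬ P H}.ncard ≤ 2 ^ (Module.finrank F L * Fintype.card (V n)) *
      ((E.card + 1) ^ Fintype.card (V n) * {T | T ∈ TG SK X ∧ ¬ RichG F e SL g k T}.ncard) := by
  have hGL : IsGalois F L := IsCyclotomicExtension.isGalois {e} F L
  refine (ext_countG hζ he hn hlev hSS hg hE1 hE2 (fun H hH => hH.1) ((tupG_finite _ _).subset fun T hT => hT.1) ?_).2
  rintro H ⟨hH, hPH⟩ p hp1 hp2 hNF hGal α hα
  refine ⟨hp2, fun hr => hPH ?_⟩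
  obtain ⟨-, -, ⟨φ⟩, -⟩ := hH
  refine hP H hNF hGal φ fun χ hχ => ?_
  have hl := lrich_of hζ he hlev hSS hg (fun i => (hp2.1 i).1) (fun w => (hp1 w).elim (hE1 _) fun h => h ▸ isSU_one SL) hr
  exact many_of hζ he hn φ hk hl hα (Mof_compositum L H) hχ

theorem aext_finiteG (hζ : IsPrimitiveRoot ζ e) (he : 0 < e) (hn : ∀ i, n i ∣ e) [IsCyclotomicExtension {e} F L]
    (hlev : IsLev (L := L) e ζ d z t v rep) (hSS : IsSS (F := F) e S SL SK) (hg : ∀ i, IsGen (SK i) (g i)) (X : ℕ) :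
    (AExt F n X).Finite := by
  obtain ⟨E, hE1, hE2⟩ := sel_finite he SL
  exact (ext_countG (B := TG SK X) hζ he hn hlev hSS hg hE1 hE2 subset_rfl (tupG_finite _ _) fun H _ p _ hp2 _ _ _ _ => hp2).1

theorem all_geG (hζ : IsPrimitiveRoot ζ e) (he : 0 < e) (hn : ∀ i, n i ∣ e) [IsCyclotomicExtension {e} F L]
    (hlev : IsLev (L := L) e ζ d z t v rep) (hSS : IsSS (F := F) e S SL SK) (hg : ∀ i, IsGen (SK i) (g i))
    {X : ℕ} {Y : ℝ} (hXY : (∏ q ∈ S, nm q : ℕ) * Y ≤ X) :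
    {T | T ∈ TG SK Y ∧ SqG F T ∧ RichG F e SL g 1 T}.ncard ≤
      Fintype.card (V n) ^ Fintype.card (V n) * (AExt F n X).ncard := by
  classical
  have hGL : IsGalois F L := IsCyclotomicExtension.isGalois {e} F L
  have hU : ∀ w : V n, IsSU SL ((fun _ => (1 : 𝓞 L) : V n → 𝓞 L) w) := fun w => isSU_one SL
  have hdata : ∀ T : (i : ι) → Ideal (𝓞 (K i)), T ∈ {T | T ∈ TG SK Y ∧ SqG F T ∧ RichG F e SL g 1 T} →
      ∃ H : IntermediateField F (AlgebraicClosure F), H ∈ AExt F n X ∧ ∃ (_ : NumberField H) (_ : IsGalois F H) (α : Fin m → Mof L H),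
        IsExt (bG rep (fun i => g i (T i)) (fun _ => (1 : 𝓞 L))) (Mof L H) α := by
    rintro T ⟨hT, hT2, hT3⟩
    obtain ⟨H, hNF, hGal, hφ, α, hα⟩ := exT (Ω := AlgebraicClosure F) hζ he hn hlev hSS hg (fun i => (hT.1 i).1) hT3
    refine ⟨H, ⟨hNF, hGal, hφ, ?_⟩, hNF, hGal, α, hα⟩
    have h1 := radG_le hζ he hn hlev hSS hg (fun i => (hT.1 i).1) hT2 hU hα (Mof_compositum L H)
    have h2 : ((∏ q ∈ S, nm q : ℕ) : ℝ) * ∏ i, (Ideal.absNorm (T i) : ℝ) ≤ X :=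
      (mul_le_mul_of_nonneg_left hT.2 (Nat.cast_nonneg _)).trans hXY
    have h3 : (radN F H : ℝ) ≤ X := by
      refine le_trans ?_ h2
      exact_mod_cast h1
    exact_mod_cast h3
  let f : ((i : ι) → Ideal (𝓞 (K i))) → IntermediateField F (AlgebraicClosure F) := fun T =>
    if hT : T ∈ {T | T ∈ TG SK Y ∧ SqG F T ∧ RichG F e SL g 1 T} then (hdata T hT).choose else ⊥
  have hf : ∀ T hT, f T = (hdata T hT).choose := fun T hT => dif_pos hT
  refine (ncard_fiber f (B := AExt F n X) ?_ (aext_finiteG hζ he hn hlev hSS hg X) _ ?_).2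
  · intro T hT
    have h1 := (hdata T hT).choose_spec.1
    rwa [← hf T hT] at h1
  · rintro H ⟨hNF, hGal, ⟨φ⟩, -⟩
    have hc := Mof_compositum L H
    have hGM : IsGalois F (Mof L H) := comp_galois F L H (Mof L H) hc
    have hGLM : IsGalois L (Mof L H) := IsGalois.tower_top_of_isGalois F L (Mof L H)
    have hcard : Nat.card Gal(Mof L H/L) ≤ Fintype.card (V n) := by
      have h1 := Nat.card_le_card_of_injective (φ.toMonoidHom.comp (resLH F L H (Mof L H)))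
        (φ.injective.comp (resLH_injective hc))
      refine h1.trans (le_of_eq ?_)
      rw [Nat.card_eq_fintype_card]
      exact Fintype.card_congr Multiplicative.toAdd
    obtain ⟨h1, h2⟩ := mult_G (SK := SK) (S := S) (SL := SL) (g := g) (M := Mof L H) hζ he hn hlev hSS hg hcard
    have hsub : {T | T ∈ {T | T ∈ TG SK Y ∧ SqG F T ∧ RichG F e SL g 1 T} ∧ f T = H} ⊆
        {T : (i : ι) → Ideal (𝓞 (K i)) | (∀ i, Cop (SK i) (T i)) ∧ SqG F T ∧
          ∃ α : Fin m → Mof L H, IsExt (bG rep (fun i => g i (T i)) (fun _ => (1 : 𝓞 L))) (Mof L H) α} := by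
      rintro T ⟨hT, hTH⟩
      have h3 := (hdata T hT).choose_spec.2
      rw [← hf T hT, hTH] at h3
      obtain ⟨hNF', hGal', α', hα'⟩ := h3
      exact ⟨fun i => (hT.1.1 i).1, hT.2.1, α', hα'⟩
    exact ⟨h1.subset hsub, (Set.ncard_le_ncard hsub h1).trans h2⟩

end StarkR
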