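import Pool.Agent.Lib.MP_d9bae3_nt.NG.GB
import Pool.Agent.Lib.MP_d9bae3_nt.NA.SEx

/-!
# Module NAG-SExG: existence of the sets of primes

`exists_goodS` for `L` and the `K i` gives finite sets; `S` = the set of all primes of `F` below their elements; `SL`, `SK i` = the primes above `S` (finite: finitely many primes above every prime; `IsDedekindDomain.primesOver_finite`).  `GoodS` is stable under bigger sets (`goodS_mono`).
-/

set_option linter.unusedSectionVars false

namespace StarkR

open NumberField IsDedekindDomain Filter Topology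
open scoped Pointwise

theorem goodS_mono {F : Type} [Field F] [NumberField F] {e : ℕ} {S S' : Finset (Prm F)} (h : GoodS e S) (hs : S ⊆ S') : GoodS e S' where
  dvd := fun q hq => hs (h.dvd q hq)
  cls := fun I hI => by
    obtain ⟨J, hJ, hJS, hb⟩ := h.cls I hI
    exact ⟨J, hJ, fun q hq => hs (hJS q hq), hb⟩

private theorem fibFin {F M : Type} [Field F] [NumberField F] [Field M] [NumberField M] [Algebra F M] (q : Prm F) :
    {Q : Prm M | Q.under (𝓞 F) = q}.Finite := by
  have hmax : q.asIdeal.IsMaximal := q.isMaximal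
  have h := IsDedekindDomain.primesOver_finite q.asIdeal (𝓞 M)
  refine (h.preimage (f := fun Q : Prm M => Q.asIdeal) ?_).subset ?_
  · intro Q _ Q' _ hQ
    exact HeightOneSpectrum.ext hQ
  · intro Q hQ
    rw [Set.mem_setOf_eq] at hQ
    refine ⟨Q.isPrime, ⟨?_⟩⟩
    rw [← hQ]
    rfl

private theorem preFin {F M : Type} [Field F] [NumberField F] [Field M] [NumberField M] [Algebra F M] (S : Finset (Prm F)) :
    {Q : Prm M | Q.under (𝓞 F) ∈ S}.Finite := by
  have h : {Q : Prm M | Q.under (𝓞 F) ∈ S} = ⋃ q ∈ (S : Set (Prm F)), {Q : Prm M | Q.under (𝓞 F) = q} := by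
    ext Q
    simp
  rw [h]
  exact S.finite_toSet.biUnion fun q _ => fibFin q

variable {F L : Type} [Field F] [NumberField F] [Field L] [NumberField L] [Algebra F L]
variable {ι : Type} [Fintype ι] {K : ι → Type} [∀ i, Field (K i)] [∀ i, NumberField (K i)]
variable [∀ i, Algebra F (K i)] [∀ i, Algebra (K i) L] [∀ i, IsScalarTower F (K i) L]

variable (F L K) in
theorem exists_SS {e : ℕ} (he : 0 < e) : ∃ (S : Finset (Prm F)) (SL : Finset (Prm L)) (SK : (i : ι) → Finset (Prm (K i))),
    IsSS (F := F) e S SL SK := by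
  classical
  obtain ⟨S0, hS0⟩ := exists_goodS L he
  have hK : ∀ i, ∃ S : Finset (Prm (K i)), GoodS e S := fun i => exists_goodS (K i) he
  choose S1 hS1 using hK
  set S : Finset (Prm F) := S0.image (fun Q => Q.under (𝓞 F)) ∪
    Finset.univ.biUnion (fun i => (S1 i).image (fun Q => Q.under (𝓞 F))) with hS
  refine ⟨S, (preFin (M := L) S).toFinset, fun i => (preFin (M := K i) S).toFinset, ?_, ?_, ?_, ?_⟩
  · intro Q
    rw [Set.Finite.mem_toFinset, Set.mem_setOf_eq]
  · intro i Q
    rw [Set.Finite.mem_toFinset, Set.mem_setOf_eq]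
  · refine goodS_mono hS0 fun Q hQ => ?_
    rw [Set.Finite.mem_toFinset, Set.mem_setOf_eq, hS]
    exact Finset.mem_union_left _ (Finset.mem_image_of_mem _ hQ)
  · intro i
    refine goodS_mono (hS1 i) fun Q hQ => ?_
    rw [Set.Finite.mem_toFinset, Set.mem_setOf_eq, hS]
    exact Finset.mem_union_right _ (Finset.mem_biUnion.2 ⟨i, Finset.mem_univ i, Finset.mem_image_of_mem _ hQ⟩)

end StarkR
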