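import Pool.Agent.Lib.MP_d9bae3_nt.NG.EvDG
import Pool.Agent.Lib.MP_d9bae3_nt.NA.SqL

/-!
# Module NAG-SqLG: a positive proportion of the tuples has the property `SqG`

As NA/SqL.lean.  `r = card ι`.  For `Z ≥ 2` let `C_Z(X)` be the number of the `T ∈ TG S X` with all `T i` prime to all primes of `K i` above the primes `p` of `F` with `N(p) ≤ Z` (not in `S i`; the primes in `S i` do not divide `T i`).  By `cr_dens` (`Q' = ∅`) and `tupG_asymp`, `C_Z(X) ~ δ X (log X)^(r-1)` with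
`δ = δ(Z) > 0`, and `#TG(X)` is `~ c X (log X)^(r-1)`.  If such a `T` is not `SqG`, then there is a prime `p` of `F` with `N(p) > Z` and (1) `T i ≤ q^2`, `q` above `p`, or (2) `T i ≤ q`, `q` above `p`, `N(q) ≠ N(p)` (so `N(q) ≥ N(p)^2`), or (3) `T i ≤ q`, `T j ≤ q'`, `q, q'` above `p`, `(i, q) ≠ (j, q')`.  Dividing by
`q^2`, `q`, `q` and `q'` gives a tuple counted in `C_Z(X / N)`, `N` the norm of the divisor, `N ≥ N(p)^2`; there are boundedly many (by a constant `D` which depends only on the degrees `[K i : ℚ]` and `r`) possibilities for every `p`; so the number of the bad `T` is at most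
`D ∑_{N(p) > Z} C_Z(X / N(p)^2)` (`C_Z` is monotone).  As in SqL: for `X / N(p)^2 ≥ Y_0` use the asymptotics, `∑_{N(p) > Z} 1/N(p)^2` is small, and the remaining `p` contribute `O(√X)`-many times a constant.
-/

set_option linter.unusedSectionVars false

namespace StarkR

open NumberField IsDedekindDomain Filter Topology
open scoped Pointwise

section one

variable {F : Type} [Field F] [NumberField F]

private theorem SqLG_ne_one (Q : Prm F) : nm Q ≠ 1 := by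
  intro h
  exact Q.isPrime.ne_top (Ideal.absNorm_eq_one_iff.1 h)

private theorem SqLG_pos (Q : Prm F) : 0 < nm Q := by
  rw [Nat.pos_iff_ne_zero]
  intro h
  exact Q.ne_bot (Ideal.absNorm_eq_zero_iff.1 h)

private theorem SqLG_two (Q : Prm F) : (2 : ℝ) ≤ (nm Q : ℝ) := by
  have h1 := SqLG_ne_one Q
  have h2 := SqLG_pos Q
  exact_mod_cast (show 2 ≤ nm Q by omega)

/-- the smallest prime factor of the norm lies in the prime -/
private theorem SqLG_mem (Q : Prm F) : ((nm Q).minFac : 𝓞 F) ∈ Q.asIdeal := by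
  classical
  have hmax : Q.asIdeal.IsMaximal := Q.isMaximal
  letI : Field (𝓞 F ⧸ Q.asIdeal) := Ideal.Quotient.field Q.asIdeal
  haveI : Finite (𝓞 F ⧸ Q.asIdeal) := Ideal.finiteQuotientOfFreeOfNeBot Q.asIdeal Q.ne_bot
  letI : Fintype (𝓞 F ⧸ Q.asIdeal) := Fintype.ofFinite _
  obtain ⟨p, hp⟩ := CharP.exists (𝓞 F ⧸ Q.asIdeal)
  obtain ⟨n, hpp, hn⟩ := FiniteField.card (𝓞 F ⧸ Q.asIdeal) p
  have h1 : nm Q = p ^ (n : ℕ) := by
    rw [← hn, nm, Ideal.absNorm_apply, Submodule.cardQuot_apply, Nat.card_eq_fintype_card]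
  have h2 : (nm Q).minFac = p := by
    rw [h1]
    exact hpp.pow_minFac n.ne_zero
  rw [h2, ← Ideal.Quotient.eq_zero_iff_mem, map_natCast]
  exact CharP.cast_eq_zero _ p

/-- at most `[F:ℚ]` primes contain the prime number `p` -/
private theorem SqLG_card (p : ℕ) (hp : p.Prime) (B : Finset (Prm F)) (hB : ∀ Q ∈ B, (nm Q).minFac = p) :
    B.card ≤ Module.finrank ℚ F := by
  classical
  have h1 : ∏ Q ∈ B, Q.asIdeal ∣ Ideal.span {(p : 𝓞 F)} := by
    refine Finset.prod_dvd_of_coprime ?_ ?_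
    · intro Q _ Q' _ hne
      have h3 : Q.asIdeal ≠ Q'.asIdeal := fun h => hne (HeightOneSpectrum.ext h)
      exact Ideal.isCoprime_iff_sup_eq.2 (Q.isMaximal.coprime_of_ne Q'.isMaximal h3)
    · intro Q hQ
      rw [Ideal.dvd_span_singleton, ← hB Q hQ]
      exact SqLG_mem Q
  have h2 : ∏ Q ∈ B, nm Q ∣ p ^ Module.finrank ℚ F := by
    have h3 := map_dvd Ideal.absNorm h1
    rw [map_prod, Ideal.absNorm_span_singleton] at h3
    have h4 : (Algebra.norm ℤ (p : 𝓞 F)).natAbs = p ^ Module.finrank ℚ F := by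
      have h5 : Algebra.norm ℤ (p : 𝓞 F) = (p : ℤ) ^ Module.finrank ℤ (𝓞 F) := by
        have := Algebra.norm_algebraMap (R := ℤ) (S := 𝓞 F) (p : ℤ)
        simpa using this
      rw [h5, Int.natAbs_pow, Int.natAbs_natCast, RingOfIntegers.rank]
    rw [h4] at h3
    exact h3
  have h6 : p ^ B.card ≤ ∏ Q ∈ B, nm Q := by
    rw [← Finset.prod_const]
    refine Finset.prod_le_prod' fun Q hQ => ?_
    rw [← hB Q hQ]
    exact Nat.minFac_le (SqLG_pos Q)
  have h7 : p ^ B.card ≤ p ^ Module.finrank ℚ F :=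
    h6.trans (Nat.le_of_dvd (pow_pos hp.pos _) h2)
  exact (Nat.pow_le_pow_iff_right hp.one_lt).1 h7

private theorem SqLG_summable (F : Type) [Field F] [NumberField F] : Summable (fun q : Prm F => 1 / (nm q : ℝ) ^ 2) := by
  classical
  have hs : Summable fun k : ℕ => (Module.finrank ℚ F : ℝ) * (1 / (k : ℝ) ^ 2) :=
    (Real.summable_one_div_nat_pow.2 (by norm_num)).mul_left _
  refine summable_of_sum_le (c := ∑' k : ℕ, (Module.finrank ℚ F : ℝ) * (1 / (k : ℝ) ^ 2)) (fun q => by positivity) fun A => ?_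
  have h0 : ∀ Q ∈ A, (nm Q).minFac ∈ A.image (fun Q => (nm Q).minFac) := fun Q hQ =>
    Finset.mem_image_of_mem _ hQ
  rw [← Finset.sum_fiberwise_of_maps_to h0]
  refine le_trans (Finset.sum_le_sum fun p hp => ?_)
    (hs.sum_le_tsum (A.image (fun Q => (nm Q).minFac)) fun k _ => by positivity)
  obtain ⟨Q₀, -, hQ₀⟩ := Finset.mem_image.1 hp
  have hpp : p.Prime := hQ₀ ▸ Nat.minFac_prime (SqLG_ne_one Q₀)
  have hp0 : (0 : ℝ) < p := by exact_mod_cast hpp.pos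
  have h1 : ∀ Q ∈ A.filter (fun Q => (nm Q).minFac = p), 1 / (nm Q : ℝ) ^ 2 ≤ 1 / (p : ℝ) ^ 2 := by
    intro Q hQ
    rw [Finset.mem_filter] at hQ
    have h2 : p ≤ nm Q := by
      rw [← hQ.2]
      exact Nat.minFac_le (SqLG_pos Q)
    have h3 : (p : ℝ) ≤ nm Q := by exact_mod_cast h2
    exact one_div_le_one_div_of_le (by positivity) (pow_le_pow_left₀ hp0.le h3 2)
  refine (Finset.sum_le_card_nsmul _ _ _ h1).trans ?_
  rw [nsmul_eq_mul]
  refine mul_le_mul_of_nonneg_right ?_ (by positivity)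
  exact_mod_cast SqLG_card p hpp _ fun Q hQ => (Finset.mem_filter.1 hQ).2

private theorem SqLG_fin (x : ℝ) : {q : Prm F | (nm q : ℝ) ≤ x}.Finite := by
  have h : {I : Ideal (𝓞 F) | (Ideal.absNorm I : ℝ) ≤ x}.Finite := by
    refine (Ideal.finite_setOfPred_absNorm_le (S := 𝓞 F) ⌊x⌋₊).subset fun I h => ?_
    have h' : (Ideal.absNorm I : ℝ) ≤ x := h
    exact Nat.le_floor h'
  refine Set.Finite.of_finite_image (f := fun q : Prm F => q.asIdeal) (h.subset ?_) ?_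
  · rintro _ ⟨q, hq, rfl⟩
    exact hq
  · intro q _ q' _ he
    exact HeightOneSpectrum.ext he

/-- the real analysis: the bad tuples are few -/
private theorem SqLG_real {α : Type} (N : α → ℝ) (hN : ∀ q, 2 ≤ N q) (hs : Summable (fun q => 1 / N q ^ 2)) {c : ℝ → ℝ}
    (hm : Monotone c) (hc0 : ∀ y, 0 ≤ c y) {D : ℝ} (hD : 0 < D) {j : ℕ}
    (hc : Tendsto (fun X : ℝ => c X / (X * Real.log X ^ j)) atTop (𝓝 D)) {K τ : ℝ} (hK : 0 ≤ K) (hτ : K * (2 * D * τ) ≤ D / 4)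
    (A0 : Finset α) (hA0 : ∀ t : Finset α, Disjoint t A0 → ∑ q ∈ t, 1 / N q ^ 2 ≤ τ) (P : ℝ → Finset α)
    (hP : ∀ X, ∀ q ∈ P X, q ∉ A0 ∧ N q ^ 2 ≤ X) :
    ∀ᶠ X : ℝ in atTop, K * ∑ q ∈ P X, c (X / N q ^ 2) ≤ D / 2 * (X * Real.log X ^ j) := by
  classical
  have h1 : ∀ᶠ X : ℝ in atTop, c X / (X * Real.log X ^ j) < 2 * D := hc.eventually (gt_mem_nhds (by linarith))
  obtain ⟨Y1, hY1⟩ := eventually_atTop.1 h1
  obtain ⟨Y0, hY0⟩ : ∃ Y0, Y0 = max Y1 3 := ⟨_, rfl⟩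
  have hY03 : 3 ≤ Y0 := hY0 ▸ le_max_right _ _
  have hlog3 : ∀ Y : ℝ, 3 ≤ Y → 1 ≤ Real.log Y := by
    intro Y hY
    rw [Real.le_log_iff_exp_le (by linarith)]
    exact (Real.exp_one_lt_d9.le.trans (by norm_num)).trans hY
  have hbig : ∀ Y, Y0 ≤ Y → c Y ≤ 2 * D * (Y * Real.log Y ^ j) := by
    intro Y hY
    have h2 := (hY1 Y ((le_max_left _ _).trans (hY0 ▸ hY))).le
    have h3 : 0 < Y * Real.log Y ^ j := by
      have := hlog3 Y (hY03.trans hY)
      have : 0 < Y := by linarith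
      positivity
    rwa [div_le_iff₀ h3] at h2
  obtain ⟨ε, hε⟩ : ∃ ε, ε = D / (4 * (K * c Y0 + 1)) := ⟨_, rfl⟩
  have hKc : 0 ≤ K * c Y0 := mul_nonneg hK (hc0 _)
  have hε0 : 0 < ε := by rw [hε]; positivity
  obtain ⟨A1, hA1⟩ := summable_iff_vanishing_norm.mp hs ε hε0
  filter_upwards [eventually_ge_atTop (3 : ℝ), eventually_gt_atTop (Y0 * (∑ q ∈ A1, N q ^ 2))] with X hX3 hXA
  have hX0 : 0 < X := by linarith
  have hlX := hlog3 X hX3
  have hN0 : ∀ q, 0 < N q ^ 2 := fun q => by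
    have := hN q
    positivity
  rw [← Finset.sum_filter_add_sum_filter_not (P X) (fun q => Y0 ≤ X / N q ^ 2)]
  have hfirst : ∑ q ∈ (P X).filter (fun q => Y0 ≤ X / N q ^ 2), c (X / N q ^ 2) ≤ 2 * D * (X * Real.log X ^ j) * τ := by
    have h4 : ∀ q ∈ (P X).filter (fun q => Y0 ≤ X / N q ^ 2), c (X / N q ^ 2) ≤ 2 * D * (X * Real.log X ^ j) * (1 / N q ^ 2) := by
      intro q hq
      rw [Finset.mem_filter] at hq
      refine (hbig _ hq.2).trans ?_
      have h5 : 1 ≤ Real.log (X / N q ^ 2) := hlog3 _ (hY03.trans hq.2)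
      have h6 : Real.log (X / N q ^ 2) ≤ Real.log X := by
        refine Real.log_le_log (by have := hN0 q; positivity) ?_
        have h7 : 1 ≤ N q ^ 2 := by
          have := hN q
          nlinarith
        exact div_le_self hX0.le h7
      have h8 : Real.log (X / N q ^ 2) ^ j ≤ Real.log X ^ j := pow_le_pow_left₀ (by linarith) h6 j
      have h9 : 0 ≤ X / N q ^ 2 := by have := hN0 q; positivity
      calc 2 * D * (X / N q ^ 2 * Real.log (X / N q ^ 2) ^ j) ≤ 2 * D * (X / N q ^ 2 * Real.log X ^ j) := by gcongr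
        _ = 2 * D * (X * Real.log X ^ j) * (1 / N q ^ 2) := by ring
    refine (Finset.sum_le_sum h4).trans ?_
    rw [← Finset.mul_sum]
    refine mul_le_mul_of_nonneg_left (hA0 _ ?_) (by positivity)
    rw [Finset.disjoint_left]
    intro q hq
    rw [Finset.mem_filter] at hq
    exact (hP X q hq.1).1
  have hsecond : ∑ q ∈ (P X).filter (fun q => ¬ Y0 ≤ X / N q ^ 2), c (X / N q ^ 2) ≤ c Y0 * X * ε := by
    have h4 : ∀ q ∈ (P X).filter (fun q => ¬ Y0 ≤ X / N q ^ 2), c (X / N q ^ 2) ≤ c Y0 * X * (1 / N q ^ 2) := by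
      intro q hq
      rw [Finset.mem_filter, not_le] at hq
      have h5 : 1 ≤ X / N q ^ 2 := by
        rw [one_le_div (hN0 q)]
        exact (hP X q hq.1).2
      calc c (X / N q ^ 2) ≤ c Y0 := hm hq.2.le
        _ = c Y0 * 1 := (mul_one _).symm
        _ ≤ c Y0 * (X / N q ^ 2) := mul_le_mul_of_nonneg_left h5 (hc0 _)
        _ = c Y0 * X * (1 / N q ^ 2) := by ring
    refine (Finset.sum_le_sum h4).trans ?_
    rw [← Finset.mul_sum]
    refine mul_le_mul_of_nonneg_left ?_ (mul_nonneg (hc0 _) hX0.le)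
    refine ((le_abs_self _).trans_lt (hA1 _ ?_)).le
    rw [Finset.disjoint_left]
    intro q hq hq1
    rw [Finset.mem_filter] at hq
    refine hq.2 ?_
    rw [le_div_iff₀ (hN0 q)]
    have h5 : N q ^ 2 ≤ ∑ q ∈ A1, N q ^ 2 := Finset.single_le_sum (fun q _ => (hN0 q).le) hq1
    calc Y0 * N q ^ 2 ≤ Y0 * ∑ q ∈ A1, N q ^ 2 := mul_le_mul_of_nonneg_left h5 (by linarith)
      _ ≤ X := hXA.le
  have hXL : X ≤ X * Real.log X ^ j := by
    have := one_le_pow₀ (n := j) hlX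
    nlinarith
  have h5 : K * (c Y0 * X * ε) ≤ D / 4 * X := by
    have h6 : K * c Y0 * ε ≤ D / 4 := by
      rw [hε, mul_div_assoc', div_le_div_iff₀ (by positivity) (by norm_num)]
      nlinarith
    calc K * (c Y0 * X * ε) = K * c Y0 * ε * X := by ring
      _ ≤ D / 4 * X := mul_le_mul_of_nonneg_right h6 hX0.le
  have h7 : K * (2 * D * (X * Real.log X ^ j) * τ) ≤ D / 4 * (X * Real.log X ^ j) := by
    calc K * (2 * D * (X * Real.log X ^ j) * τ) = K * (2 * D * τ) * (X * Real.log X ^ j) := by ring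
      _ ≤ D / 4 * (X * Real.log X ^ j) := mul_le_mul_of_nonneg_right hτ (by positivity)
  rw [mul_add]
  have h8 := mul_le_mul_of_nonneg_left hfirst hK
  have h9 := mul_le_mul_of_nonneg_left hsecond hK
  nlinarith


private theorem SqLG_under_mem {K : Type} [Field K] [NumberField K] [Algebra F K] (q : Prm K) (x : 𝓞 F) :
    x ∈ (q.under (𝓞 F)).asIdeal ↔ algebraMap (𝓞 F) (𝓞 K) x ∈ q.asIdeal := Iff.rfl

private theorem SqLG_minFac {K : Type} [Field K] [NumberField K] [Algebra F K] (q : Prm K) :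
    (nm q).minFac = (nm (q.under (𝓞 F))).minFac := by
  by_contra hne
  have h1 := SqLG_mem q
  have h2 : ((nm (q.under (𝓞 F))).minFac : 𝓞 K) ∈ q.asIdeal := by
    have h3 := (SqLG_under_mem q _).1 (SqLG_mem (q.under (𝓞 F)))
    rwa [map_natCast] at h3
  have hp1 : (nm q).minFac.Prime := Nat.minFac_prime (SqLG_ne_one q)
  have hp2 : (nm (q.under (𝓞 F))).minFac.Prime := Nat.minFac_prime (SqLG_ne_one _)
  have hc : Nat.Coprime (nm q).minFac (nm (q.under (𝓞 F))).minFac := (Nat.coprime_primes hp1 hp2).2 hne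
  obtain ⟨a, b, hab⟩ := Nat.isCoprime_iff_coprime.2 hc
  have h3 : (1 : 𝓞 K) ∈ q.asIdeal := by
    have h4 : (1 : 𝓞 K) = (a : 𝓞 K) * ((nm q).minFac : 𝓞 K) + (b : 𝓞 K) * ((nm (q.under (𝓞 F))).minFac : 𝓞 K) := by
      have h5 := congrArg (fun z : ℤ => (z : 𝓞 K)) hab
      push_cast at h5
      exact h5.symm
    rw [h4]
    exact Ideal.add_mem _ (Ideal.mul_mem_left _ _ h1) (Ideal.mul_mem_left _ _ h2)
  exact q.isPrime.ne_top ((Ideal.eq_top_iff_one _).2 h3)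

private theorem SqLG_over_fin (K : Type) [Field K] [NumberField K] [Algebra F K] (p : Prm F) :
    {q : Prm K | q.under (𝓞 F) = p}.Finite := by
  have h0 : (Ideal.span {((nm p).minFac : 𝓞 K)} : Ideal (𝓞 K)) ≠ 0 := by
    rw [Ne, Submodule.zero_eq_bot, Ideal.span_singleton_eq_bot]
    have := (Nat.minFac_prime (SqLG_ne_one p)).ne_zero
    exact_mod_cast this
  refine (Ideal.finite_factors h0).subset ?_
  intro q hq
  have hq' : q.under (𝓞 F) = p := hq
  show q.asIdeal ∣ Ideal.span {((nm p).minFac : 𝓞 K)}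
  rw [Ideal.dvd_span_singleton, ← hq', ← SqLG_minFac q]
  exact SqLG_mem q

private theorem SqLG_over_card (K : Type) [Field K] [NumberField K] [Algebra F K] (p : Prm F) :
    (SqLG_over_fin K p).toFinset.card ≤ Module.finrank ℚ K := by
  refine SqLG_card _ (Nat.minFac_prime (SqLG_ne_one p)) _ ?_
  intro q hq
  rw [Set.Finite.mem_toFinset] at hq
  have hq' : q.under (𝓞 F) = p := hq
  rw [SqLG_minFac (F := F) q, hq']

private theorem SqLG_pow {K : Type} [Field K] [NumberField K] [Algebra F K] (q : Prm K) :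
    ∃ f : ℕ, nm q = nm (q.under (𝓞 F)) ^ f := by
  have hm := (q.under (𝓞 F)).isMaximal
  have hm2 := q.isMaximal
  letI : Field (𝓞 F ⧸ (q.under (𝓞 F)).asIdeal) := Ideal.Quotient.field _
  haveI : Finite (𝓞 F ⧸ (q.under (𝓞 F)).asIdeal) :=
    Ideal.finiteQuotientOfFreeOfNeBot _ (q.under (𝓞 F)).ne_bot
  haveI : Finite (𝓞 K ⧸ q.asIdeal) := Ideal.finiteQuotientOfFreeOfNeBot q.asIdeal q.ne_bot
  haveI : q.asIdeal.LiesOver (q.under (𝓞 F)).asIdeal := ⟨rfl⟩
  refine ⟨Module.finrank (𝓞 F ⧸ (q.under (𝓞 F)).asIdeal) (𝓞 K ⧸ q.asIdeal), ?_⟩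
  have h := Module.natCard_eq_pow_finrank (K := 𝓞 F ⧸ (q.under (𝓞 F)).asIdeal) (V := 𝓞 K ⧸ q.asIdeal)
  rw [nm, nm, Ideal.absNorm_apply, Ideal.absNorm_apply, Submodule.cardQuot_apply, Submodule.cardQuot_apply]
  exact h

private theorem SqLG_le {K : Type} [Field K] [NumberField K] [Algebra F K] (q : Prm K) :
    (nm (q.under (𝓞 F)) : ℝ) ≤ (nm q : ℝ) := by
  obtain ⟨f, hf⟩ := SqLG_pow (F := F) q
  have h1 : 1 ≤ nm (q.under (𝓞 F)) := SqLG_pos _
  have hf0 : f ≠ 0 := by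
    rintro rfl
    exact SqLG_ne_one q (by rw [hf, pow_zero])
  rw [hf]
  exact_mod_cast Nat.le_self_pow hf0 _

private theorem SqLG_sq_le {K : Type} [Field K] [NumberField K] [Algebra F K] (q : Prm K) (h : nm q ≠ nm (q.under (𝓞 F))) :
    (nm (q.under (𝓞 F)) : ℝ) ^ 2 ≤ (nm q : ℝ) := by
  obtain ⟨f, hf⟩ := SqLG_pow (F := F) q
  have h1 : 1 ≤ nm (q.under (𝓞 F)) := SqLG_pos _
  have hf2 : 2 ≤ f := by
    by_contra hlt
    have h3 : f = 0 ∨ f = 1 := by omega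
    rcases h3 with rfl | rfl
    · exact SqLG_ne_one q (by rw [hf, pow_zero])
    · exact h (by rw [hf, pow_one])
  rw [hf]
  exact_mod_cast Nat.pow_le_pow_right h1 hf2

/-- the ideals prime to `S` and to `Q` -/
private def SqBG (S Q : Finset (Prm F)) : Set (Ideal (𝓞 F)) := {I | Cop S I ∧ ∀ q ∈ Q, ¬ I ≤ q.asIdeal}

private theorem SqBG_dvd {S Q : Finset (Prm F)} {I J : Ideal (𝓞 F)} (hI : I ∈ SqBG S Q) (h : J ∣ I) : J ∈ SqBG S Q := by
  have h1 : I ≤ J := Ideal.dvd_iff_le.1 h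
  refine ⟨⟨?_, fun q hq hJ => hI.1.2 q hq (h1.trans hJ)⟩, fun q hq hJ => hI.2 q hq (h1.trans hJ)⟩
  rintro rfl
  exact hI.1.1 (le_bot_iff.1 h1)

private theorem SqBG_dens {e : ℕ} (he : 0 < e) {S : Finset (Prm F)} (hS : GoodS e S) :
    ∃ κ : ℝ, 0 < κ ∧ HasDens {I : Ideal (𝓞 F) | Cop S I} κ ∧
      ∀ A : Finset (Prm F), ∃ δ : ℝ, 0 < δ ∧ HasDens (SqBG S A) δ := by
  classical
  obtain ⟨g, hg⟩ := exists_gen hS
  obtain ⟨κ, hκ, hdens⟩ := cr_dens he hS hg
  refine ⟨κ, hκ, ?_, ?_⟩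
  · have h1 := hdens ∅ ∅ (Finset.disjoint_empty_right _) (by simp) (by simp)
    have h2 : {I : Ideal (𝓞 F) | Cop S I ∧ (∀ q ∈ (∅ : Finset (Prm F)), ¬ I ≤ q.asIdeal) ∧ ∀ q ∈ (∅ : Finset (Prm F)), Res e g q I} =
        {I : Ideal (𝓞 F) | Cop S I} := by
      ext I
      simp
    rw [h2, Finset.prod_empty, Finset.prod_empty, mul_one, mul_one] at h1
    exact h1
  · intro A
    refine ⟨κ * ∏ q ∈ A \ S, (1 - 1 / (nm q : ℝ)), ?_, ?_⟩
    · refine mul_pos hκ (Finset.prod_pos fun q _ => ?_)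
      have h1 := SqLG_two q
      have h2 : 1 / (nm q : ℝ) ≤ 1 / 2 := one_div_le_one_div_of_le (by norm_num) h1
      linarith
    · have h1 := hdens (A \ S) ∅ (Finset.disjoint_empty_right _) (fun q hq => (Finset.mem_sdiff.1 hq).2) (by simp)
      have h2 : {I : Ideal (𝓞 F) | Cop S I ∧ (∀ q ∈ A \ S, ¬ I ≤ q.asIdeal) ∧ ∀ q ∈ (∅ : Finset (Prm F)), Res e g q I} =
          SqBG S A := by
        ext I
        constructor
        · rintro ⟨h3, h4, -⟩
          refine ⟨h3, fun q hq => ?_⟩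
          by_cases hqS : q ∈ S
          · exact h3.2 q hqS
          · exact h4 q (Finset.mem_sdiff.2 ⟨hq, hqS⟩)
        · rintro ⟨h3, h4⟩
          exact ⟨h3, fun q hq => h4 q (Finset.mem_sdiff.1 hq).1, by simp⟩
      rw [h2, Finset.prod_empty, mul_one] at h1
      exact h1

end one

variable {ι : Type} [Fintype ι] {K : ι → Type} [∀ i, Field (K i)] [∀ i, NumberField (K i)]

open Classical in
/-- the tuple with the prime `a` at its place -/
private noncomputable def SqPI (a : Σ i, Prm (K i)) : (l : ι) → Ideal (𝓞 (K l)) :=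
  Pi.mulSingle (M := fun l => Ideal (𝓞 (K l))) a.1 a.2.asIdeal

/-- the divisor of `T` -/
private noncomputable def SqFG (a : Σ i, Prm (K i)) (b : Option (Σ i, Prm (K i))) (l : ι) : Ideal (𝓞 (K l)) :=
  SqPI a l * (b.elim 1 fun b => SqPI b l)

private theorem SqPI_same (a : Σ i, Prm (K i)) : SqPI a a.1 = a.2.asIdeal := by
  classical
  unfold SqPI
  exact Pi.mulSingle_eq_same _ _

private theorem SqPI_ne (a : Σ i, Prm (K i)) {l : ι} (h : l ≠ a.1) : SqPI a l = 1 := by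
  classical
  unfold SqPI
  exact Pi.mulSingle_eq_of_ne h _

private theorem SqPI_norm (a : Σ i, Prm (K i)) : ∏ l, (Ideal.absNorm (SqPI a l) : ℝ) = (nm a.2 : ℝ) := by
  classical
  rw [Finset.prod_eq_single a.1]
  · rw [SqPI_same, nm]
  · intro l _ hl
    rw [SqPI_ne a hl, map_one, Nat.cast_one]
  · intro h
    exact absurd (Finset.mem_univ _) h

private theorem SqFG_norm_none (a : Σ i, Prm (K i)) : ∏ l, (Ideal.absNorm (SqFG a none l) : ℝ) = (nm a.2 : ℝ) := by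
  rw [← SqPI_norm a]
  refine Finset.prod_congr rfl fun l _ => ?_
  rw [SqFG, Option.elim_none, mul_one]

private theorem SqFG_norm_some (a b : Σ i, Prm (K i)) :
    ∏ l, (Ideal.absNorm (SqFG a (some b) l) : ℝ) = (nm a.2 : ℝ) * (nm b.2 : ℝ) := by
  rw [← SqPI_norm a, ← SqPI_norm b, ← Finset.prod_mul_distrib]
  refine Finset.prod_congr rfl fun l _ => ?_
  rw [SqFG, Option.elim_some, map_mul, Nat.cast_mul]

private theorem SqPI_dvd {T : (l : ι) → Ideal (𝓞 (K l))} {a : Σ i, Prm (K i)} (h : T a.1 ≤ a.2.asIdeal) (l : ι) : SqPI a l ∣ T l := by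
  by_cases hl : l = a.1
  · subst hl
    rw [SqPI_same]
    exact Ideal.dvd_iff_le.2 h
  · rw [SqPI_ne a hl]
    exact one_dvd _

private theorem SqLG_div {B : (i : ι) → Set (Ideal (𝓞 (K i)))} (hB : ∀ i, ∀ I J : Ideal (𝓞 (K i)), I ∈ B i → J ∣ I → J ∈ B i)
    {X : ℝ} {T : (i : ι) → Ideal (𝓞 (K i))} (hT : T ∈ tupG B X) {D : (i : ι) → Ideal (𝓞 (K i))}
    (h : ∀ l, D l ∣ T l) {N : ℝ} (hN : 0 < N) (hND : N ≤ ∏ l, (Ideal.absNorm (D l) : ℝ)) :
    ∃ T' ∈ tupG B (X / N), T = fun l => D l * T' l := by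
  choose T' hT' using h
  refine ⟨T', ⟨fun l => ⟨hB l _ _ (hT.1 l).1 ⟨D l, by rw [mul_comm]; exact hT' l⟩, ?_⟩, ?_⟩, funext hT'⟩
  · intro h0
    refine (hT.1 l).2 ?_
    rw [hT' l, h0, Ideal.mul_bot]
  · have h1 : ∏ l, (Ideal.absNorm (T l) : ℝ) = (∏ l, (Ideal.absNorm (D l) : ℝ)) * ∏ l, (Ideal.absNorm (T' l) : ℝ) := by
      rw [← Finset.prod_mul_distrib]
      refine Finset.prod_congr rfl fun l _ => ?_
      rw [hT' l, map_mul, Nat.cast_mul]
    have h2 : 0 ≤ ∏ l, (Ideal.absNorm (T' l) : ℝ) := Finset.prod_nonneg fun l _ => Nat.cast_nonneg _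
    rw [le_div_iff₀ hN]
    calc (∏ l, (Ideal.absNorm (T' l) : ℝ)) * N ≤ (∏ l, (Ideal.absNorm (T' l) : ℝ)) * ∏ l, (Ideal.absNorm (D l) : ℝ) :=
          mul_le_mul_of_nonneg_left hND h2
      _ = ∏ l, (Ideal.absNorm (T l) : ℝ) := by rw [h1, mul_comm]
      _ ≤ X := hT.2

private theorem SqLG_one_le {B : (i : ι) → Set (Ideal (𝓞 (K i)))} {X : ℝ} {T : (i : ι) → Ideal (𝓞 (K i))} (hT : T ∈ tupG B X) :
    1 ≤ X := by
  refine le_trans ?_ hT.2
  have h1 : (1 : ℝ) = ∏ _l : ι, (1 : ℝ) := by simp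
  rw [h1]
  refine Finset.prod_le_prod (fun _ _ => zero_le_one) fun l _ => ?_
  have h2 : Ideal.absNorm (T l) ≠ 0 := fun h => (hT.1 l).2 (Ideal.absNorm_eq_zero_iff.1 h)
  exact_mod_cast Nat.one_le_iff_ne_zero.2 h2

variable (F : Type) [Field F] [NumberField F] [∀ i, Algebra F (K i)]

private theorem SqLG_bad {T : (i : ι) → Ideal (𝓞 (K i))} (hb : ¬ SqG F T) :
    ∃ (a : Σ i, Prm (K i)) (b : Option (Σ i, Prm (K i))), T a.1 ≤ a.2.asIdeal ∧
      (∀ c ∈ b, c.2.under (𝓞 F) = a.2.under (𝓞 F)) ∧ (∀ l, SqFG a b l ∣ T l) ∧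
      (nm (a.2.under (𝓞 F)) : ℝ) ^ 2 ≤ ∏ l, (Ideal.absNorm (SqFG a b l) : ℝ) := by
  classical
  have h0 : ∀ p : Prm F, (0 : ℝ) ≤ (nm p : ℝ) := fun p => Nat.cast_nonneg _
  rw [SqG, not_and_or] at hb
  rcases hb with hb | hb
  · push Not at hb
    obtain ⟨i, q, h1, h2⟩ := hb
    by_cases h3 : T i ≤ q.asIdeal ^ 2
    · refine ⟨⟨i, q⟩, some ⟨i, q⟩, h1, ?_, ?_, ?_⟩
      · intro c hc
        rw [Option.mem_some_iff] at hc
        rw [← hc]
      · intro l
        rw [SqFG, Option.elim_some]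
        by_cases hl : l = i
        · subst hl
          rw [SqPI_same ⟨l, q⟩, ← sq]
          exact Ideal.dvd_iff_le.2 h3
        · rw [SqPI_ne ⟨i, q⟩ hl, one_mul]
          exact one_dvd _
      · rw [SqFG_norm_some, sq]
        exact mul_le_mul (SqLG_le q) (SqLG_le q) (h0 _) (Nat.cast_nonneg _)
    · have h4 := h2 h3
      refine ⟨⟨i, q⟩, none, h1, by simp, ?_, ?_⟩
      · intro l
        rw [SqFG, Option.elim_none, mul_one]
        exact SqPI_dvd (a := ⟨i, q⟩) h1 l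
      · rw [SqFG_norm_none]
        exact SqLG_sq_le q h4
  · push Not at hb
    obtain ⟨i, j, q, q', h1, h2, h3, h4⟩ := hb
    refine ⟨⟨i, q⟩, some ⟨j, q'⟩, h1, ?_, ?_, ?_⟩
    · intro c hc
      rw [Option.mem_some_iff] at hc
      rw [← hc]
      exact h3.symm
    · intro l
      rw [SqFG, Option.elim_some]
      by_cases hl : l = i
      · by_cases hlj : l = j
        · subst hl
          subst hlj
          have hne : q ≠ q' := fun h => h4 (by rw [h])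
          have hne2 : q.asIdeal ≠ q'.asIdeal := fun h => hne (HeightOneSpectrum.ext h)
          rw [SqPI_same ⟨l, q⟩, SqPI_same ⟨l, q'⟩]
          exact IsCoprime.mul_dvd (Ideal.isCoprime_iff_sup_eq.2 (q.isMaximal.coprime_of_ne q'.isMaximal hne2))
            (Ideal.dvd_iff_le.2 h1) (Ideal.dvd_iff_le.2 h2)
        · rw [SqPI_ne ⟨j, q'⟩ hlj, mul_one]
          exact SqPI_dvd (a := ⟨i, q⟩) h1 l
      · rw [SqPI_ne ⟨i, q⟩ hl, one_mul]
        exact SqPI_dvd (a := ⟨j, q'⟩) h2 l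
    · rw [SqFG_norm_some, sq]
      refine mul_le_mul (SqLG_le q) ?_ (h0 _) (Nat.cast_nonneg _)
      change (nm (q.under (𝓞 F)) : ℝ) ≤ (nm q' : ℝ)
      rw [h3]
      exact SqLG_le q'

/-- the primes above `p` -/
private noncomputable def SqOv (K : ι → Type) [∀ i, Field (K i)] [∀ i, NumberField (K i)] [∀ i, Algebra F (K i)] (p : Prm F) :
    Finset (Σ i, Prm (K i)) := Finset.univ.sigma fun i => (SqLG_over_fin (K i) p).toFinset

private theorem SqOv_mem (p : Prm F) (a : Σ i, Prm (K i)) : a ∈ SqOv F K p ↔ a.2.under (𝓞 F) = p := by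
  rw [SqOv, Finset.mem_sigma, Set.Finite.mem_toFinset]
  exact ⟨fun h => h.2, fun h => ⟨Finset.mem_univ _, h⟩⟩

private theorem SqOv_card (p : Prm F) : (SqOv F K p).card ≤ ∑ i, Module.finrank ℚ (K i) := by
  rw [SqOv, Finset.card_sigma]
  exact Finset.sum_le_sum fun i _ => SqLG_over_card (K i) p

/-- the number of the bad tuples -/
private theorem SqLG_count {B : (i : ι) → Set (Ideal (𝓞 (K i)))} (hB : ∀ i, ∀ I J : Ideal (𝓞 (K i)), I ∈ B i → J ∣ I → J ∈ B i)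
    (P0 : Finset (Prm F)) (hP0 : ∀ i, ∀ I ∈ B i, ∀ q : Prm (K i), I ≤ q.asIdeal → q.under (𝓞 F) ∉ P0)
    (X : ℝ) (P : Finset (Prm F)) (hP : ∀ p, p ∉ P0 → (nm p : ℝ) ^ 2 ≤ X → p ∈ P) :
    (Set.ncard {T : (i : ι) → Ideal (𝓞 (K i)) | T ∈ tupG B X ∧ ¬ SqG F T} : ℝ) ≤
      (((∑ i, Module.finrank ℚ (K i)) * (∑ i, Module.finrank ℚ (K i) + 1) : ℕ) : ℝ) *
        ∑ p ∈ P, ((tupG B (X / (nm p : ℝ) ^ 2)).ncard : ℝ) := by
  classical
  have hfin : ∀ Y, (tupG B Y).Finite := fun Y => tupG_finite _ Y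
  have hset : {T : (i : ι) → Ideal (𝓞 (K i)) | T ∈ tupG B X ∧ ¬ SqG F T} ⊆
      (P.biUnion fun p => (SqOv F K p ×ˢ Finset.insertNone (SqOv F K p)).biUnion fun t =>
        (hfin (X / (nm p : ℝ) ^ 2)).toFinset.image
          fun T' l => SqFG t.1 t.2 l * T' l : Finset ((i : ι) → Ideal (𝓞 (K i)))) := by
    rintro T ⟨hT, hb⟩
    obtain ⟨a, b, h1, h2, h3, h4⟩ := SqLG_bad F hb
    have hn0 : (0 : ℝ) < (nm (a.2.under (𝓞 F)) : ℝ) ^ 2 := by
      have := SqLG_two (a.2.under (𝓞 F))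
      positivity
    obtain ⟨T', hT', hTT'⟩ := SqLG_div hB hT h3 hn0 h4
    have h5 := SqLG_one_le hT'
    rw [one_le_div hn0] at h5
    rw [Finset.mem_coe, Finset.mem_biUnion]
    refine ⟨a.2.under (𝓞 F), hP _ (hP0 a.1 _ (hT.1 a.1).1 a.2 h1) h5, ?_⟩
    rw [Finset.mem_biUnion]
    refine ⟨(a, b), Finset.mem_product.2 ⟨(SqOv_mem F _ a).2 rfl, ?_⟩, ?_⟩
    · rw [Finset.mem_insertNone]
      intro c hc
      exact (SqOv_mem F _ c).2 (h2 c hc)
    · exact Finset.mem_image.2 ⟨T', (Set.Finite.mem_toFinset _).2 hT', hTT'.symm⟩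
  have h1 := Set.ncard_le_ncard hset (Finset.finite_toSet _)
  rw [Set.ncard_coe_finset] at h1
  have h2 := h1.trans Finset.card_biUnion_le
  have h3 : ∀ p ∈ P, ((SqOv F K p ×ˢ Finset.insertNone (SqOv F K p)).biUnion fun t =>
        (hfin (X / (nm p : ℝ) ^ 2)).toFinset.image fun T' l => SqFG t.1 t.2 l * T' l).card ≤
      ((∑ i, Module.finrank ℚ (K i)) * (∑ i, Module.finrank ℚ (K i) + 1)) * (tupG B (X / (nm p : ℝ) ^ 2)).ncard := by
    intro p _
    refine (Finset.card_biUnion_le_card_mul _ _ ((tupG B (X / (nm p : ℝ) ^ 2)).ncard) ?_).trans ?_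
    · intro t _
      rw [Set.ncard_eq_toFinset_card _ (hfin _)]
      exact Finset.card_image_le
    · refine Nat.mul_le_mul_right _ ?_
      rw [Finset.card_product, Finset.card_insertNone]
      exact Nat.mul_le_mul (SqOv_card F p) (Nat.succ_le_succ (SqOv_card F p))
  have h4 := h2.trans (Finset.sum_le_sum h3)
  rw [← Finset.mul_sum] at h4
  exact_mod_cast h4

theorem sq_lowerG [Nonempty ι] {e : ℕ} (he : 0 < e) {S : (i : ι) → Finset (Prm (K i))} (hS : ∀ i, GoodS e (S i)) :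
    ∃ c : ℝ, 0 < c ∧ ∀ᶠ X : ℝ in atTop, c * ((TG S X).ncard : ℝ) ≤
      (Set.ncard {T : (i : ι) → Ideal (𝓞 (K i)) | T ∈ TG S X ∧ SqG F T} : ℝ) := by
  classical
  have hk : 0 < Fintype.card ι := Fintype.card_pos
  choose κ hκ hC hdel using fun i => SqBG_dens he (hS i)
  obtain ⟨m, hm⟩ : ∃ m : ℕ, m = ∑ i, Module.finrank ℚ (K i) := ⟨_, rfl⟩
  obtain ⟨K₀, hK₀⟩ : ∃ K₀ : ℝ, K₀ = ((m * (m + 1) : ℕ) : ℝ) := ⟨_, rfl⟩
  have hK0 : 0 ≤ K₀ := by rw [hK₀]; positivity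
  -- a finite set of primes with a small tail
  obtain ⟨A0, hA0⟩ := summable_iff_vanishing_norm.mp (SqLG_summable F) (1 / (8 * (K₀ + 1))) (by positivity)
  have hA0' : ∀ t : Finset (Prm F), Disjoint t A0 → ∑ q ∈ t, 1 / (nm q : ℝ) ^ 2 ≤ 1 / (8 * (K₀ + 1)) := fun t ht =>
    ((le_abs_self _).trans_lt (hA0 t ht)).le
  obtain ⟨Q, hQ⟩ : ∃ Q : (i : ι) → Finset (Prm (K i)), ∀ i q, q ∈ Q i ↔ q.under (𝓞 F) ∈ A0 := by
    refine ⟨fun i => A0.biUnion fun p => (SqLG_over_fin (K i) p).toFinset, fun i q => ?_⟩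
    rw [Finset.mem_biUnion]
    constructor
    · rintro ⟨p, hp, hq⟩
      rw [Set.Finite.mem_toFinset] at hq
      have hq' : q.under (𝓞 F) = p := hq
      rw [hq']
      exact hp
    · intro h
      exact ⟨_, h, (Set.Finite.mem_toFinset _).2 rfl⟩
  choose δ hδ0 hB using fun i => hdel i (Q i)
  have a1 := tupG_asymp (ι := ι) (fun i => SqBG (S i) (Q i)) δ hB
  have a2 := tupG_asymp (ι := ι) (fun i => {I : Ideal (𝓞 (K i)) | Cop (S i) I}) κ hC
  obtain ⟨D, hDdef⟩ : ∃ D : ℝ, D = (∏ i : ι, δ i) / ((Fintype.card ι - 1).factorial : ℝ) := ⟨_, rfl⟩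
  obtain ⟨M, hMdef⟩ : ∃ M : ℝ, M = (∏ i : ι, κ i) / ((Fintype.card ι - 1).factorial : ℝ) := ⟨_, rfl⟩
  have hD : 0 < D := by
    rw [hDdef]
    exact div_pos (Finset.prod_pos fun i _ => hδ0 i) (by exact_mod_cast Nat.factorial_pos _)
  have hM : 0 < M := by
    rw [hMdef]
    exact div_pos (Finset.prod_pos fun i _ => hκ i) (by exact_mod_cast Nat.factorial_pos _)
  rw [← hDdef] at a1
  rw [← hMdef] at a2
  have hfinP : ∀ X : ℝ, {q : Prm F | q ∉ A0 ∧ (nm q : ℝ) ^ 2 ≤ X}.Finite := by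
    intro X
    refine (SqLG_fin (F := F) X).subset ?_
    rintro q ⟨-, hq⟩
    have h1 := SqLG_two q
    show (nm q : ℝ) ≤ X
    nlinarith
  have hmono : Monotone (fun Y : ℝ => ((tupG (fun i => SqBG (S i) (Q i)) Y).ncard : ℝ)) := by
    intro Y Y' h
    show ((tupG (fun i => SqBG (S i) (Q i)) Y).ncard : ℝ) ≤ ((tupG (fun i => SqBG (S i) (Q i)) Y').ncard : ℝ)
    exact_mod_cast Set.ncard_le_ncard (tupG_mono _ h) (tupG_finite _ _)
  have b1 := SqLG_real (fun q : Prm F => (nm q : ℝ)) SqLG_two (SqLG_summable F) hmono (fun _ => Nat.cast_nonneg _) hD a1 hK0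
    (τ := 1 / (8 * (K₀ + 1))) (by
      rw [show K₀ * (2 * D * (1 / (8 * (K₀ + 1)))) = (D / 4) * (K₀ / (K₀ + 1)) by field_simp; ring]
      refine mul_le_of_le_one_right (by linarith) ?_
      rw [div_le_one (by linarith)]
      linarith) A0 hA0' (fun X => (hfinP X).toFinset) (fun X q hq => by
      rw [Set.Finite.mem_toFinset] at hq
      exact hq)
  refine ⟨D / (4 * (M + 1)), by positivity, ?_⟩
  filter_upwards [b1, a1.eventually (lt_mem_nhds (show 3 / 4 * D < D by linarith)), a2.eventually (gt_mem_nhds (show M < M + 1 by linarith)),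
    eventually_ge_atTop (3 : ℝ)] with X c1 c2 c3 hX
  have hL : 0 < X * Real.log X ^ (Fintype.card ι - 1) := by
    have h1 : 0 < Real.log X := Real.log_pos (by linarith)
    have h2 : 0 < X := by linarith
    positivity
  rw [lt_div_iff₀ hL] at c2
  rw [div_lt_iff₀ hL] at c3
  -- count
  have d1 := SqLG_count F (B := fun i => SqBG (S i) (Q i)) (fun i I J hI hJ => SqBG_dvd hI hJ) A0
    (fun i I hI q hq h => hI.2 q ((hQ i q).2 h) hq) X (hfinP X).toFinset (fun q hq hqX => by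
    rw [Set.Finite.mem_toFinset]
    exact ⟨hq, hqX⟩)
  have d2 : (tupG (fun i => SqBG (S i) (Q i)) X).ncard ≤
      Set.ncard {T : (i : ι) → Ideal (𝓞 (K i)) | T ∈ TG S X ∧ SqG F T} +
        Set.ncard {T : (i : ι) → Ideal (𝓞 (K i)) | T ∈ tupG (fun i => SqBG (S i) (Q i)) X ∧ ¬ SqG F T} := by
    refine le_trans (Set.ncard_le_ncard ?_ ?_) (Set.ncard_union_le _ _)
    · intro T hT
      by_cases h : SqG F T
      · exact Or.inl ⟨⟨fun i => ⟨(hT.1 i).1.1, (hT.1 i).2⟩, hT.2⟩, h⟩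
      · exact Or.inr ⟨hT, h⟩
    · exact ((tupG_finite _ X).subset fun T hT => hT.1).union ((tupG_finite _ X).subset fun T hT => hT.1)
  have d3 : ((tupG (fun i => SqBG (S i) (Q i)) X).ncard : ℝ) ≤
      (Set.ncard {T : (i : ι) → Ideal (𝓞 (K i)) | T ∈ TG S X ∧ SqG F T} : ℝ) +
        (Set.ncard {T : (i : ι) → Ideal (𝓞 (K i)) | T ∈ tupG (fun i => SqBG (S i) (Q i)) X ∧ ¬ SqG F T} : ℝ) := by
    exact_mod_cast d2
  rw [← hm, ← hK₀] at d1
  have d4 : ((TG S X).ncard : ℝ) < (M + 1) * (X * Real.log X ^ (Fintype.card ι - 1)) := c3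
  have d5 : D / (4 * (M + 1)) * ((TG S X).ncard : ℝ) ≤ D / 4 * (X * Real.log X ^ (Fintype.card ι - 1)) := by
    calc D / (4 * (M + 1)) * ((TG S X).ncard : ℝ) ≤ D / (4 * (M + 1)) * ((M + 1) * (X * Real.log X ^ (Fintype.card ι - 1))) :=
          mul_le_mul_of_nonneg_left d4.le (by positivity)
      _ = D / 4 * (X * Real.log X ^ (Fintype.card ι - 1)) := by
          field_simp
  linarith

end StarkR
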