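import Pool.Agent.Lib.MP_d9bae3_nt.NG.GB

/-!
# Module NAG-Sys: existence of the levels

The group `Gal(L/F)` acts on `W n` (the nonzero elements of `V n`): `τ w = t • w` with `(τ ζ)^t = ζ`; `w`, `w'` are in the same orbit iff `w' = t • w` for some `t` with `τ ζ^t = ζ` for a `τ ∈ Gal(L/F)`.  `ι` = the set of the orbits (a quotient of `W n`, or a set of representatives), `v i` a representative, `d i` its order (`≥ 2`, divides `e`), `K i = F(ζ^(e/d i)) ⊆ L` (an `IntermediateField F L`,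
it is a number field; Galois over `F` as `L/F` is abelian), `z i = ζ^(e/d i)`, `t i τ` = the number `< d i` with `(τ (z i))^(t i τ) = z i` (exists since `τ (z i)` is a primitive `d i`-th root of unity).  `rep (i, τ) = t i τ • v i`: well defined, in the orbit of `v i` (lift `τ` to `Gal(L/F)`), injective (`t • v i = t' • v i` iff `t ≡ t'` modulo `d i`, and `t i τ` determines `τ (z i)`, hence `τ`),
surjective (the restriction `Gal(L/F) → Gal(K i/F)` is onto).
-/

set_option linter.unusedSectionVars false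

namespace StarkR

open NumberField IsDedekindDomain Filter Topology
open scoped Pointwise

variable {F L : Type} [Field F] [NumberField F] [Field L] [NumberField L] [Algebra F L]
variable {m : ℕ} {n : Fin m → ℕ} [∀ i, NeZero (n i)]

private theorem Sys_pow_iff {M : Type} [Field M] {z : M} {d : ℕ} (hz : IsPrimitiveRoot z d)
    (hd : 0 < d) (a b : ℕ) : z ^ a = z ^ b ↔ a ≡ b [MOD d] := by
  have e : d = orderOf z := hz.eq_orderOf
  constructor
  · intro h
    rw [← pow_mod_orderOf z a, ← pow_mod_orderOf z b, ← e] at h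
    exact hz.pow_inj (Nat.mod_lt _ hd) (Nat.mod_lt _ hd) h
  · intro h
    rw [← pow_mod_orderOf z a, ← pow_mod_orderOf z b, ← e]
    rw [show a % d = b % d from h]

private theorem Sys_order {e : ℕ} (hn : ∀ i, n i ∣ e) (w : V n) : addOrderOf w ∣ e := by
  rw [addOrderOf_dvd_iff_nsmul_eq_zero]
  funext i
  rw [Pi.smul_apply, nsmul_eq_mul, (ZMod.natCast_eq_zero_iff e (n i)).2 (hn i), zero_mul]
  rfl

/-- the relation defining the orbits -/
private def Sys_R (F : Type) [Field F] {L : Type} [Field L] [Algebra F L] {m : ℕ} {n : Fin m → ℕ}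
    (ζ : L) (w w' : W n) : Prop :=
  ∃ (τ : Gal(L/F)) (t : ℕ), τ ζ ^ t = ζ ∧ (w' : V n) = t • (w : V n)

private theorem Sys_R_equiv {e : ℕ} {ζ : L} (hζ : IsPrimitiveRoot ζ e) (he : 0 < e)
    (hn : ∀ i, n i ∣ e) : Equivalence (Sys_R F (n := n) ζ) := by
  haveI : NeZero e := ⟨he.ne'⟩
  refine ⟨fun w => ⟨1, 1, by simp, by simp⟩, ?_, ?_⟩
  · rintro w w' ⟨τ, t, h1, h2⟩
    have h3 : (τ ζ) ^ e = 1 := by rw [← map_pow, hζ.pow_eq_one, map_one]
    obtain ⟨s, -, hs⟩ := hζ.eq_pow_of_pow_eq_one h3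
    refine ⟨τ.symm, s, ?_, ?_⟩
    · rw [← map_pow, hs, AlgEquiv.symm_apply_apply]
    · have h4 : ζ ^ (s * t) = ζ ^ 1 := by rw [pow_mul, hs, h1, pow_one]
      have h5 : s * t ≡ 1 [MOD e] := (Sys_pow_iff hζ he _ _).1 h4
      have h6 : s * t ≡ 1 [MOD addOrderOf (w : V n)] := h5.of_dvd (Sys_order hn _)
      have h7 : (s * t) • (w : V n) = 1 • (w : V n) := nsmul_eq_nsmul_iff_modEq.2 h6
      rw [h2, ← mul_nsmul', h7, one_nsmul]
  · rintro w w' w'' ⟨τ, t, h1, h2⟩ ⟨τ', t', h1', h2'⟩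
    refine ⟨τ * τ', t' * t, ?_, ?_⟩
    · rw [AlgEquiv.mul_apply, pow_mul, ← map_pow, h1', h1]
    · rw [h2', h2, ← mul_nsmul']

variable (F) in
/-- the field `F(ζ^(e/d))` -/
private def SysK (ζ : L) (e d : ℕ) : IntermediateField F L := IntermediateField.adjoin F {ζ ^ (e / d)}

variable (F) in
private def SysZ (ζ : L) (e d : ℕ) : SysK F ζ e d :=
  ⟨ζ ^ (e / d), IntermediateField.subset_adjoin F _ rfl⟩

private theorem SysZ_val (ζ : L) (e d : ℕ) : ((SysZ F ζ e d : SysK F ζ e d) : L) = ζ ^ (e / d) := rfl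

private theorem Sys_fin : FiniteDimensional F L := FiniteDimensional.right ℚ F L

private theorem SysK_nf (ζ : L) (e d : ℕ) : NumberField (SysK F ζ e d) := by
  have := Sys_fin (F := F) (L := L)
  exact NumberField.of_module_finite F (SysK F ζ e d)

private theorem Sys_prim {e : ℕ} {ζ : L} (hζ : IsPrimitiveRoot ζ e) (he : 0 < e) {d : ℕ}
    (hd : d ∣ e) : IsPrimitiveRoot (ζ ^ (e / d)) d :=
  hζ.pow he (Nat.div_mul_cancel hd).symm

private theorem Sys_primZ {e : ℕ} {ζ : L} (hζ : IsPrimitiveRoot ζ e) (he : 0 < e) {d : ℕ}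
    (hd : d ∣ e) : IsPrimitiveRoot (SysZ F ζ e d) d := by
  have h : IsPrimitiveRoot ((SysK F ζ e d).val (SysZ F ζ e d)) d := Sys_prim hζ he hd
  exact h.of_map_of_injective (SysK F ζ e d).val.injective

private theorem Sys_gal {e : ℕ} {ζ : L} (hζ : IsPrimitiveRoot ζ e) (he : 0 < e) {d : ℕ}
    (hd : d ∣ e) : IsGalois F (SysK F ζ e d) := by
  have h0 := Sys_fin (F := F) (L := L)
  have h1 : NeZero d := ⟨(Nat.pos_of_dvd_of_pos hd he).ne'⟩
  have h2 : IsCyclotomicExtension {d} F (SysK F ζ e d) :=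
    (Sys_prim hζ he hd).intermediateField_adjoin_isCyclotomicExtension F
  exact IsCyclotomicExtension.isGalois {d} F (SysK F ζ e d)

private theorem Sys_gen (ζ : L) (e d : ℕ) :
    IntermediateField.adjoin F {SysZ F ζ e d} = (⊤ : IntermediateField F (SysK F ζ e d)) := by
  apply IntermediateField.map_injective (SysK F ζ e d).val
  rw [IntermediateField.adjoin_map, ← AlgHom.fieldRange_eq_map, IntermediateField.fieldRange_val,
    Set.image_singleton]
  rfl

private theorem Sys_ext (ζ : L) (e d : ℕ) (τ τ' : Gal(SysK F ζ e d/F))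
    (h : τ (SysZ F ζ e d) = τ' (SysZ F ζ e d)) : τ = τ' := by
  have h1 : (τ : SysK F ζ e d →ₐ[F] SysK F ζ e d) = (τ' : SysK F ζ e d →ₐ[F] SysK F ζ e d) := by
    apply IntermediateField.adjoin_algHom_ext F
    intro x hx
    rw [Set.mem_singleton_iff] at hx
    subst hx
    exact h
  exact AlgEquiv.ext fun x => congrArg (fun f : SysK F ζ e d →ₐ[F] SysK F ζ e d => f x) h1

private theorem Sys_inv {e : ℕ} {ζ : L} (hζ : IsPrimitiveRoot ζ e) (he : 0 < e) {d : ℕ}
    (hd : d ∣ e) : ∃ t : Gal(SysK F ζ e d/F) → ℕ, IsInvCyc d (SysZ F ζ e d) t := by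
  have hd0 : 0 < d := Nat.pos_of_dvd_of_pos hd he
  have h : ∀ τ : Gal(SysK F ζ e d/F), ∃ t, t < d ∧ τ (SysZ F ζ e d) ^ t = SysZ F ζ e d := by
    intro τ
    have h1 : IsPrimitiveRoot (τ (SysZ F ζ e d)) d :=
      (Sys_primZ hζ he hd).map_of_injective τ.injective
    have h2 : (SysZ F ζ e d) ^ d = 1 := (Sys_primZ hζ he hd).pow_eq_one
    haveI : NeZero d := ⟨hd0.ne'⟩
    obtain ⟨t, ht, h3⟩ := h1.eq_pow_of_pow_eq_one h2
    exact ⟨t, ht, h3⟩
  choose t ht using h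
  exact ⟨t, ht⟩

/-- exponents are determined modulo `d` -/
private theorem Sys_mod {e : ℕ} {ζ : L} (hζ : IsPrimitiveRoot ζ e) (he : 0 < e) {d : ℕ}
    (hd : d ∣ e) (τ : Gal(SysK F ζ e d/F)) {a b : ℕ} (ha : τ (SysZ F ζ e d) ^ a = SysZ F ζ e d)
    (hb : τ (SysZ F ζ e d) ^ b = SysZ F ζ e d) : a ≡ b [MOD d] := by
  have h1 : IsPrimitiveRoot (τ (SysZ F ζ e d)) d :=
    (Sys_primZ hζ he hd).map_of_injective τ.injective
  exact (Sys_pow_iff h1 (Nat.pos_of_dvd_of_pos hd he) a b).1 (ha.trans hb.symm)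

/-- `τ z` is determined by the exponent -/
private theorem Sys_det {e : ℕ} {ζ : L} (hζ : IsPrimitiveRoot ζ e) (he : 0 < e) {d : ℕ}
    (hd : d ∣ e) (τ τ' : Gal(SysK F ζ e d/F)) {a : ℕ} (ha : τ (SysZ F ζ e d) ^ a = SysZ F ζ e d)
    (hb : τ' (SysZ F ζ e d) ^ a = SysZ F ζ e d) : τ = τ' := by
  have hd0 : 0 < d := Nat.pos_of_dvd_of_pos hd he
  haveI : NeZero d := ⟨hd0.ne'⟩
  have hz := Sys_primZ (F := F) hζ he hd
  have key : ∀ ρ : Gal(SysK F ζ e d/F), ∃ s, SysZ F ζ e d ^ s = ρ (SysZ F ζ e d) := by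
    intro ρ
    have h1 : (ρ (SysZ F ζ e d)) ^ d = 1 := by rw [← map_pow, hz.pow_eq_one, map_one]
    obtain ⟨s, -, hs⟩ := hz.eq_pow_of_pow_eq_one h1
    exact ⟨s, hs⟩
  obtain ⟨s, hs⟩ := key τ
  obtain ⟨s', hs'⟩ := key τ'
  apply Sys_ext
  have h1 : s * a ≡ 1 [MOD d] :=
    (Sys_pow_iff hz hd0 _ _).1 (by rw [pow_mul, hs, ha, pow_one])
  have h2 : s' * a ≡ 1 [MOD d] :=
    (Sys_pow_iff hz hd0 _ _).1 (by rw [pow_mul, hs', hb, pow_one])
  rw [← hs, ← hs', Sys_pow_iff hz hd0]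
  calc s = s * 1 := (mul_one s).symm
    _ ≡ s * (s' * a) [MOD d] := Nat.ModEq.mul_left s h2.symm
    _ = s' * (s * a) := by ring
    _ ≡ s' * 1 [MOD d] := Nat.ModEq.mul_left s' h1
    _ = s' := mul_one s'

private theorem Sys_restrict {e : ℕ} {ζ : L} {d : ℕ} (σ : Gal(L/F)) (τ : Gal(SysK F ζ e d/F))
    (hτ : ∀ x : SysK F ζ e d, ((τ x : SysK F ζ e d) : L) = σ x) {t : ℕ} (ht : σ ζ ^ t = ζ) :
    τ (SysZ F ζ e d) ^ t = SysZ F ζ e d := by
  apply Subtype.ext
  rw [SubmonoidClass.coe_pow, hτ, SysZ_val, map_pow, ← pow_mul, mul_comm, pow_mul, ht]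

theorem exists_lev {e : ℕ} {ζ : L} (hζ : IsPrimitiveRoot ζ e) (he : 0 < e) (hn : ∀ i, n i ∣ e) [IsCyclotomicExtension {e} F L] :
    ∃ (ι : Type) (_ : Fintype ι) (K : ι → Type) (_ : ∀ i, Field (K i)) (_ : ∀ i, NumberField (K i)) (_ : ∀ i, Algebra F (K i))
      (_ : ∀ i, Algebra (K i) L) (_ : ∀ i, IsScalarTower F (K i) L) (d : ι → ℕ) (z : (i : ι) → K i) (t : (i : ι) → Gal(K i/F) → ℕ)
      (v : ι → V n) (rep : (Σ i, Gal(K i/F)) ≃ W n), IsLev (L := L) e ζ d z t v rep := by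
  classical
  let S : Setoid (W n) := ⟨Sys_R F ζ, Sys_R_equiv hζ he hn⟩
  haveI : Finite (W n) := inferInstance
  haveI : Finite (Quotient S) := inferInstance
  have hgalL : IsGalois F L := IsCyclotomicExtension.isGalois {e} F L
  let ι := Quotient S
  let v : ι → V n := fun i => ((Quotient.out i : W n) : V n)
  have hv0 : ∀ i, v i ≠ 0 := fun i => (Quotient.out i : W n).2
  let d : ι → ℕ := fun i => addOrderOf (v i)
  have hde : ∀ i, d i ∣ e := fun i => Sys_order hn (v i)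
  have hd0 : ∀ i, 0 < d i := fun i => Nat.pos_of_dvd_of_pos (hde i) he
  have hd2 : ∀ i, 2 ≤ d i := by
    intro i
    have h1 : d i ≠ 1 := by
      intro h
      exact hv0 i (AddMonoid.addOrderOf_eq_one_iff.1 h)
    have := hd0 i
    omega
  have hnf : ∀ i, NumberField (SysK F ζ e (d i)) := fun i => SysK_nf ζ e (d i)
  have hgal : ∀ i, IsGalois F (SysK F ζ e (d i)) := fun i => Sys_gal hζ he (hde i)
  have hex : ∀ i, ∃ t : Gal(SysK F ζ e (d i)/F) → ℕ, IsInvCyc (d i) (SysZ F ζ e (d i)) t :=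
    fun i => Sys_inv hζ he (hde i)
  choose t ht using hex
  -- the elements `t i τ • v i` are nonzero
  have hne : ∀ (i : ι) (τ : Gal(SysK F ζ e (d i)/F)), t i τ • v i ≠ 0 := by
    intro i τ h
    have h1 : d i ∣ t i τ := addOrderOf_dvd_iff_nsmul_eq_zero.2 h
    have h2 : t i τ = 0 := Nat.eq_zero_of_dvd_of_lt h1 (ht i τ).1
    have h3 := (ht i τ).2
    rw [h2, pow_zero] at h3
    have h4 : d i = 1 := by
      rw [(Sys_primZ (F := F) hζ he (hde i)).eq_orderOf, ← h3, orderOf_one]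
    have := hd2 i
    omega
  let f : (Σ i, Gal(SysK F ζ e (d i)/F)) → W n := fun p => ⟨t p.1 p.2 • v p.1, hne p.1 p.2⟩
  -- lifting
  have hlift : ∀ (i : ι) (τ : Gal(SysK F ζ e (d i)/F)), ∃ (σ : Gal(L/F)) (s : ℕ), σ ζ ^ s = ζ ∧
      t i τ • v i = s • v i ∧ ∀ x : SysK F ζ e (d i), ((τ x : SysK F ζ e (d i)) : L) = σ x := by
    intro i τ
    have := hgal i
    obtain ⟨σ, hσ⟩ := AlgEquiv.restrictNormalHom_surjective (F := F) (K₁ := SysK F ζ e (d i))
      (E := L) τ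
    have hτ : ∀ x : SysK F ζ e (d i), ((τ x : SysK F ζ e (d i)) : L) = σ x := by
      intro x
      rw [← hσ]
      exact AlgEquiv.restrictNormalHom_apply (SysK F ζ e (d i)) σ x
    haveI : NeZero e := ⟨he.ne'⟩
    have h1 : IsPrimitiveRoot (σ ζ) e := hζ.map_of_injective σ.injective
    obtain ⟨s, -, hs⟩ := h1.eq_pow_of_pow_eq_one hζ.pow_eq_one
    refine ⟨σ, s, hs, ?_, hτ⟩
    have h2 := Sys_restrict σ τ hτ hs
    have h3 := Sys_mod hζ he (hde i) τ (ht i τ).2 h2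
    exact nsmul_eq_nsmul_iff_modEq.2 h3
  have hcls : ∀ p : Σ i, Gal(SysK F ζ e (d i)/F), (Quotient.mk S (f p) : ι) = p.1 := by
    rintro ⟨i, τ⟩
    obtain ⟨σ, s, h1, h2, -⟩ := hlift i τ
    have h3 : Sys_R F ζ (Quotient.out i) (f ⟨i, τ⟩) := ⟨σ, s, h1, h2⟩
    have h4 : Quotient.mk S (f ⟨i, τ⟩) = Quotient.mk S (Quotient.out i) :=
      Quotient.sound ((Sys_R_equiv hζ he hn).symm h3)
    exact h4.trans (Quotient.out_eq i)
  have hinj : Function.Injective f := by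
    rintro ⟨i, τ⟩ ⟨j, τ'⟩ h
    have hij : i = j := by
      have h1 := hcls ⟨i, τ⟩
      have h2 := hcls ⟨j, τ'⟩
      rw [h] at h1
      exact h1.symm.trans h2
    subst hij
    have h1 : t i τ • v i = t i τ' • v i := congrArg Subtype.val h
    have h2 : t i τ ≡ t i τ' [MOD d i] := nsmul_eq_nsmul_iff_modEq.1 h1
    have h3 : t i τ = t i τ' := h2.eq_of_lt_of_lt (ht i τ).1 (ht i τ').1
    have h4 : τ = τ' := by
      apply Sys_det hζ he (hde i) τ τ' (a := t i τ) (ht i τ).2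
      rw [h3]
      exact (ht i τ').2
    rw [h4]
  have hsurj : Function.Surjective f := by
    intro w
    let i : ι := Quotient.mk S w
    have h0 : Sys_R F ζ (Quotient.out i) w := Quotient.exact (Quotient.out_eq i)
    obtain ⟨σ, s, h1, h2⟩ := h0
    have := hgal i
    let τ : Gal(SysK F ζ e (d i)/F) := AlgEquiv.restrictNormalHom (SysK F ζ e (d i)) σ
    have hτ : ∀ x : SysK F ζ e (d i), ((τ x : SysK F ζ e (d i)) : L) = σ x := fun x =>
      AlgEquiv.restrictNormalHom_apply (SysK F ζ e (d i)) σ x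
    have h3 := Sys_restrict σ τ hτ h1
    have h4 := Sys_mod hζ he (hde i) τ (ht i τ).2 h3
    refine ⟨⟨i, τ⟩, Subtype.ext ?_⟩
    change t i τ • v i = (w : V n)
    rw [h2]
    exact nsmul_eq_nsmul_iff_modEq.2 h4
  refine ⟨ι, Fintype.ofFinite _, fun i => SysK F ζ e (d i), inferInstance, hnf, inferInstance,
    inferInstance, inferInstance, d, fun i => SysZ F ζ e (d i), t, v,
    Equiv.ofBijective f ⟨hinj, hsurj⟩, ?_⟩
  exact
    { gal := hgal
      two := hd2
      dvd := hde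
      root := fun i => rfl
      gen := fun i => Sys_gen ζ e (d i)
      inv := ht
      order := fun i => rfl
      rep_eq := fun i τ => rfl }

end StarkR
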