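import Pool.Agent.Lib.MP_d9bae3_nt.NG.FinGA
import Pool.Agent.Lib.MP_d9bae3_nt.NG.BadG
import Pool.Agent.Lib.MP_d9bae3_nt.NG.SqLG
import Pool.Agent.Lib.MP_d9bae3_nt.NG.Sys
import Pool.Agent.Lib.MP_d9bae3_nt.NG.SExG

/-!
# Module NAG-FinGB: almost all abelian extensions with a given group
-/

set_option linter.unusedSectionVars false

namespace StarkR

open NumberField IsDedekindDomain Filter Topology
open scoped Pointwise

section

variable {F L : Type} [Field F] [NumberField F] [Field L] [NumberField L] [Algebra F L]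
variable {ι : Type} [Fintype ι] {K : ι → Type} [∀ i, Field (K i)] [∀ i, NumberField (K i)]
variable [∀ i, Algebra F (K i)] [∀ i, Algebra (K i) L] [∀ i, IsScalarTower F (K i) L]
variable {m : ℕ} {n : Fin m → ℕ} [∀ i, NeZero (n i)]
variable {e : ℕ} {ζ : L} {d : ι → ℕ} {z : (i : ι) → K i} {t : (i : ι) → Gal(K i/F) → ℕ} {v : ι → V n} {rep : (Σ i, Gal(K i/F)) ≃ W n}
variable {S : Finset (Prm F)} {SL : Finset (Prm L)} {SK : (i : ι) → Finset (Prm (K i))} {g : (i : ι) → Ideal (𝓞 (K i)) → 𝓞 (K i)}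
variable [Algebra L (AlgebraicClosure F)] [IsScalarTower F L (AlgebraicClosure F)]

theorem nm_prod_posG (S : Finset (Prm F)) : 1 ≤ ∏ q ∈ S, nm q := by
  refine Nat.one_le_iff_ne_zero.2 (Finset.prod_ne_zero_iff.2 fun q _ => ?_)
  exact Ideal.absNorm_eq_zero_iff.not.2 q.ne_bot

/-- the number of the bad extensions is a small multiple of the number of all extensions -/
theorem bad_smallG [Nonempty ι] (hζ : IsPrimitiveRoot ζ e) (he : 0 < e) (hn : ∀ i, n i ∣ e) [IsCyclotomicExtension {e} F L]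
    (hlev : IsLev (L := L) e ζ d z t v rep) (hSS : IsSS (F := F) e S SL SK) (hg : ∀ i, IsGen (SK i) (g i))
    {k : ℕ} (hk : 1 ≤ k) (P : IntermediateField F (AlgebraicClosure F) → Prop)
    (hP : ∀ (H : IntermediateField F (AlgebraicClosure F)) (_ : NumberField H) (_ : IsGalois F H) (_ : Gal(H/F) ≃* Multiplicative (V n)),
      (∀ χ : Gal(H/F) →* ℂˣ, χ.ker ≠ ⊥ → ∃ A : Finset (Prm F), k ≤ A.card ∧ ∀ q ∈ A, Ramified H q ∧ TrivialAt χ q) → P H)
    {δ : ℝ} (hδ : 0 < δ) :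
    ∀ᶠ X : ℕ in atTop, 0 < (AExt F n X).ncard ∧
      ({H | H ∈ AExt F n X ∧ ¬ P H}.ncard : ℝ) ≤ δ * ((AExt F n X).ncard : ℝ) := by
  classical
  obtain ⟨E, hE1, hE2⟩ := sel_finite he SL
  obtain ⟨c, hc, h3⟩ := sq_lowerG F (S := SK) he hSS.goodK
  have hN : (1 : ℝ) ≤ ((∏ q ∈ S, nm q : ℕ) : ℝ) := by exact_mod_cast nm_prod_posG S
  obtain ⟨C, hC, h2⟩ := TG_grow he hSS.goodK hN
  set N : ℝ := ((∏ q ∈ S, nm q : ℕ) : ℝ) with hNdef
  set A : ℝ := ((2 ^ (Module.finrank F L * Fintype.card (V n)) * (E.card + 1) ^ Fintype.card (V n) : ℕ) : ℝ) with hA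
  set M : ℝ := ((Fintype.card (V n) ^ Fintype.card (V n) : ℕ) : ℝ) with hM
  have hA0 : 0 < A := by
    rw [hA]; exact_mod_cast Nat.mul_pos (Nat.pow_pos two_pos) (Nat.pow_pos (Nat.succ_pos _))
  have hM0 : 0 < M := by
    rw [hM]; exact_mod_cast Nat.pow_pos Fintype.card_pos
  have h4 := bad_G hζ he hlev hSS hg 1 (c / 2) (by positivity)
  have h5 := bad_G hζ he hlev hSS hg k (δ * c / (2 * A * C * M)) (by positivity)
  have hdiv : Tendsto (fun X : ℕ => (X : ℝ) / N) atTop atTop :=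
    tendsto_natCast_atTop_atTop.atTop_div_const (by linarith)
  have hcast : Tendsto (fun X : ℕ => (X : ℝ)) atTop atTop := tendsto_natCast_atTop_atTop
  filter_upwards [hdiv.eventually h3, hcast.eventually h2, hdiv.eventually h4, hcast.eventually h5,
    hdiv.eventually (eventually_ge_atTop (1 : ℝ))] with X h3 h2 h4 h5 h6
  have h7 : 0 < ((TG SK ((X : ℝ) / N)).ncard : ℝ) := by exact_mod_cast TG_pos SK h6
  have h8 := all_geG (n := n) (X := X) (Y := (X : ℝ) / N) hζ he hn hlev hSS hg (by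
    rw [← hNdef, mul_div_cancel₀]; linarith)
  have h8' : ({T | T ∈ TG SK ((X : ℝ) / N) ∧ SqG F T ∧ RichG F e SL g 1 T}.ncard : ℝ) ≤ M * ((AExt F n X).ncard : ℝ) := by
    rw [hM]; exact_mod_cast h8
  have h9 : {T | T ∈ TG SK ((X : ℝ) / N) ∧ SqG F T} ⊆ {T | T ∈ TG SK ((X : ℝ) / N) ∧ SqG F T ∧ RichG F e SL g 1 T} ∪
      {T | T ∈ TG SK ((X : ℝ) / N) ∧ ¬ RichG F e SL g 1 T} := by
    rintro T ⟨hT, hT2⟩
    by_cases hr : RichG F e SL g 1 T
    · exact Or.inl ⟨hT, hT2, hr⟩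
    · exact Or.inr ⟨hT, hr⟩
  have hfin := tupG_finite (K := K) (fun i => {I | Cop (SK i) I}) ((X : ℝ) / N)
  have h10 := (Set.ncard_le_ncard h9 ((hfin.subset fun T hT => hT.1).union (hfin.subset fun T hT => hT.1))).trans
    (Set.ncard_union_le _ _)
  have h10' : ({T | T ∈ TG SK ((X : ℝ) / N) ∧ SqG F T}.ncard : ℝ) ≤
      ({T | T ∈ TG SK ((X : ℝ) / N) ∧ SqG F T ∧ RichG F e SL g 1 T}.ncard : ℝ) +
      ({T | T ∈ TG SK ((X : ℝ) / N) ∧ ¬ RichG F e SL g 1 T}.ncard : ℝ) := by exact_mod_cast h10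
  have h11 : c / 2 * ((TG SK ((X : ℝ) / N)).ncard : ℝ) ≤ M * ((AExt F n X).ncard : ℝ) := by linarith
  have h12 : 0 < M * ((AExt F n X).ncard : ℝ) := lt_of_lt_of_le (by positivity) h11
  refine ⟨by exact_mod_cast (pos_iff_pos_of_mul_pos h12).1 hM0, ?_⟩
  have h13 := bad_leG hζ he hn hlev hSS hg hE1 hE2 hk P hP X
  have h13' : ({H | H ∈ AExt F n X ∧ ¬ P H}.ncard : ℝ) ≤ A * ({T | T ∈ TG SK (X : ℝ) ∧ ¬ RichG F e SL g k T}.ncard : ℝ) := by
    rw [hA, ← Nat.cast_mul, mul_assoc]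
    exact_mod_cast h13
  calc ({H | H ∈ AExt F n X ∧ ¬ P H}.ncard : ℝ) ≤ A * ({T | T ∈ TG SK (X : ℝ) ∧ ¬ RichG F e SL g k T}.ncard : ℝ) := h13'
    _ ≤ A * (δ * c / (2 * A * C * M) * ((TG SK (X : ℝ)).ncard : ℝ)) := by gcongr
    _ ≤ A * (δ * c / (2 * A * C * M) * (C * ((TG SK ((X : ℝ) / N)).ncard : ℝ))) := by gcongr
    _ = δ / M * (c / 2 * ((TG SK ((X : ℝ) / N)).ncard : ℝ)) := by field_simp
    _ ≤ δ / M * (M * ((AExt F n X).ncard : ℝ)) := by gcongr
    _ = δ * ((AExt F n X).ncard : ℝ) := by field_simp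

end

/-- Almost all extensions of `F` with the group `∏ ℤ/n_i ≠ 0` have a property `P` which holds if for all non-faithful characters `χ` of `Gal(H/F)` there are at least `k` ramified
primes with `χ` trivial on their decomposition groups. -/
theorem nag_density (F : Type) [Field F] [NumberField F] {m : ℕ} (n : Fin m → ℕ) [∀ i, NeZero (n i)] (hV : ∃ v : V n, v ≠ 0)
    {k : ℕ} (hk : 1 ≤ k) (P : IntermediateField F (AlgebraicClosure F) → Prop)
    (hP : ∀ (H : IntermediateField F (AlgebraicClosure F)) (_ : NumberField H) (_ : IsGalois F H) (_ : Gal(H/F) ≃* Multiplicative (V n)),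
      (∀ χ : Gal(H/F) →* ℂˣ, χ.ker ≠ ⊥ → ∃ A : Finset (Prm F), k ≤ A.card ∧ ∀ q ∈ A, Ramified H q ∧ TrivialAt χ q) → P H) :
    (∀ X, (AExt F n X).Finite) ∧
    Tendsto (fun X : ℕ => ({H | H ∈ AExt F n X ∧ P H}.ncard : ℝ) / ((AExt F n X).ncard : ℝ)) atTop (𝓝 1) := by
  classical
  obtain ⟨e, he, hn⟩ : ∃ e : ℕ, 0 < e ∧ ∀ i, n i ∣ e :=
    ⟨∏ i, n i, Finset.prod_pos fun i _ => Nat.pos_of_ne_zero (NeZero.ne _), fun i => Finset.dvd_prod_of_mem _ (Finset.mem_univ i)⟩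
  have : NeZero e := ⟨he.ne'⟩
  have : NeZero (e : AlgebraicClosure F) := ⟨Nat.cast_ne_zero.2 he.ne'⟩
  obtain ⟨ζ₀, hζ₀⟩ := HasEnoughRootsOfUnity.exists_primitiveRoot (AlgebraicClosure F) e
  let L : IntermediateField F (AlgebraicClosure F) := IntermediateField.adjoin F {ζ₀}
  have hcyc : IsCyclotomicExtension {e} F L := hζ₀.intermediateField_adjoin_isCyclotomicExtension F
  have hfd : FiniteDimensional F L := IsCyclotomicExtension.finiteDimensional {e} F L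
  have hNF : NumberField L := NumberField.of_module_finite F L
  obtain ⟨ζ, hζ⟩ : ∃ ζ : L, IsPrimitiveRoot ζ e := IsCyclotomicExtension.exists_isPrimitiveRoot F L (Set.mem_singleton e) he.ne'
  obtain ⟨ι, _, K, _, _, _, _, _, d, z, t, v, rep, hlev⟩ := exists_lev (F := F) (L := L) (n := n) hζ he hn
  obtain ⟨v₀, hv₀⟩ := hV
  have : Nonempty ι := ⟨(rep.symm ⟨v₀, hv₀⟩).1⟩
  obtain ⟨S, SL, SK, hSS⟩ := exists_SS F L K he
  choose g hg using fun i => exists_gen (hSS.goodK i)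
  have hfin := fun X => aext_finiteG (n := n) hζ he hn hlev hSS hg X
  refine ⟨hfin, ?_⟩
  rw [Metric.tendsto_atTop]
  intro δ hδ
  obtain ⟨X₀, hX₀⟩ := eventually_atTop.1 (bad_smallG hζ he hn hlev hSS hg hk P hP (half_pos hδ))
  refine ⟨X₀, fun X hX => ?_⟩
  obtain ⟨h1, h2⟩ := hX₀ X hX
  have h1' : (0 : ℝ) < ((AExt F n X).ncard : ℝ) := by exact_mod_cast h1
  have h3 : {H | H ∈ AExt F n X ∧ P H}.ncard + {H | H ∈ AExt F n X ∧ ¬ P H}.ncard = (AExt F n X).ncard := by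
    rw [← Set.ncard_union_eq ?_ ((hfin X).subset fun H hH => hH.1) ((hfin X).subset fun H hH => hH.1)]
    · congr 1
      ext H
      by_cases hp : P H <;> simp [hp]
    · rw [Set.disjoint_left]
      exact fun H h4 h5 => h5.2 h4.2
  have h3' : ({H | H ∈ AExt F n X ∧ P H}.ncard : ℝ) = ((AExt F n X).ncard : ℝ) - ({H | H ∈ AExt F n X ∧ ¬ P H}.ncard : ℝ) := by
    rw [← h3]; push_cast; ring
  rw [h3', sub_div, div_self h1'.ne', Real.dist_eq, abs_sub_comm, sub_sub_cancel, abs_of_nonneg (by positivity), div_lt_iff₀ h1']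
  nlinarith

end StarkR
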