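import Pool.Agent.Lib.MP_d9bae3_nt.NA.NBase
import Pool.Agent.Lib.MP_d9bae3_nt.SG.GDefs
import Pool.Agent.Lib.MP_d9bae3_nt.SG.GBase

/-!
# All abelian extensions of any number field: auxiliary definitions

`F` is a number field, `L = F(ζ)` with a primitive `e`-th root of unity `ζ`.  The group is `V n = ∏ ℤ/n_i`, `n_i ∣ e`.  For the index `i : ι`, `K i` is the field
`F(z_i)` with a root of unity `z_i` of order `d_i ∣ e`, `v_i ∈ V n` has the order `d_i`, and every `w ≠ 0` in `V n` is `t_i(τ) v_i` for exactly one `i` and one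
`τ ∈ Gal(K_i/F)`; here `τ(z_i) ^ t_i(τ) = z_i`.  `T : (i : ι) → Ideal (𝓞 (K i))` are tuples of ideals.
-/

set_option linter.unusedSectionVars false

namespace StarkR

open NumberField IsDedekindDomain Filter Topology
open scoped Pointwise

section conj

variable {F L : Type} [Field F] [NumberField F] [Field L] [NumberField L] [Algebra F L]

/-- the conjugate prime `τ Q` -/
noncomputable def cjP (τ : Gal(L/F)) (Q : Prm L) : Prm L where
  asIdeal := τ • Q.asIdeal
  isPrime := by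
    have h := Q.isPrime
    infer_instance
  ne_bot := by
    intro h
    apply Q.ne_bot
    rw [← inv_smul_smul τ Q.asIdeal, h]
    exact Ideal.smul_bot τ⁻¹

variable (F) in
/-- for every `v ≠ 0` there are at least `k` good primes `Q` of `L` with `Ev e v B Q`, and the primes of `F` below them are different -/
def LRich (e k : ℕ) {m : ℕ} {n : Fin m → ℕ} (B : V n → 𝓞 L) : Prop :=
  ∀ v : V n, v ≠ 0 → ∃ A : Finset (Prm L), k ≤ A.card ∧ (∀ Q ∈ A, GoodPrm F e Q ∧ Ev e v B Q) ∧
    ∀ Q ∈ A, ∀ Q' ∈ A, Q.under (𝓞 F) = Q'.under (𝓞 F) → Q = Q'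

end conj

section comp

variable (L : Type) [Field L] [NumberField L] {F : Type} [Field F] [NumberField F] [Algebra F L]
variable {Ω : Type} [Field Ω] [Algebra F Ω] [Algebra L Ω] [IsScalarTower F L Ω]

/-- the compositum of `L` and `H` in `Ω` -/
noncomputable def Mof (H : IntermediateField F Ω) : IntermediateField L Ω := IntermediateField.adjoin L (H : Set Ω)

theorem Mof_incl (H : IntermediateField F Ω) (x : H) : (x : Ω) ∈ Mof L H := IntermediateField.subset_adjoin L _ x.2

noncomputable instance Mof_algebra (H : IntermediateField F Ω) : Algebra H (Mof L H) :=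
  RingHom.toAlgebra
    { toFun := fun x => ⟨(x : Ω), Mof_incl L H x⟩
      map_one' := rfl
      map_mul' := fun _ _ => rfl
      map_zero' := rfl
      map_add' := fun _ _ => rfl }

theorem Mof_algebraMap (H : IntermediateField F Ω) (x : H) : ((algebraMap H (Mof L H) x : Mof L H) : Ω) = x := rfl

instance Mof_tower (H : IntermediateField F Ω) : IsScalarTower F H (Mof L H) :=
  IsScalarTower.of_algebraMap_eq fun _ => Subtype.ext rfl

theorem Mof_compositum (H : IntermediateField F Ω) [NumberField H] : IsCompositum L H (Mof L H) := by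
  unfold IsCompositum
  apply IntermediateField.map_injective (Mof L H).val
  rw [IntermediateField.adjoin_map, ← AlgHom.fieldRange_eq_map, IntermediateField.fieldRange_val]
  unfold Mof
  congr 1
  ext x
  constructor
  · rintro ⟨_, ⟨y, rfl⟩, rfl⟩
    exact y.2
  · intro hx
    exact ⟨_, ⟨⟨x, hx⟩, rfl⟩, rfl⟩

theorem Mof_finite (H : IntermediateField F Ω) [NumberField H] : FiniteDimensional L (Mof L H) := by
  have h0 : FiniteDimensional F H := FiniteDimensional.right ℚ F H
  let b := Module.finBasis F H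
  have h1 : Mof L H = IntermediateField.adjoin L (Set.range fun i => ((b i : H) : Ω)) := by
    unfold Mof
    refine le_antisymm ?_ ?_
    · rw [IntermediateField.adjoin_le_iff]
      intro x hx
      have h2 := b.sum_repr ⟨x, hx⟩
      have h3 : x = ∑ i, algebraMap F Ω (b.repr ⟨x, hx⟩ i) * ((b i : H) : Ω) := by
        have h4 := congrArg (fun y : H => (y : Ω)) h2
        simp only [IntermediateField.coe_sum] at h4
        refine h4.symm.trans (Finset.sum_congr rfl fun i _ => ?_)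
        rw [Algebra.smul_def]
        rfl
      rw [h3]
      refine sum_mem fun i _ => mul_mem ?_ (IntermediateField.subset_adjoin L _ ⟨i, rfl⟩)
      rw [IsScalarTower.algebraMap_apply F L Ω]
      exact IntermediateField.algebraMap_mem _ _
    · refine IntermediateField.adjoin.mono L _ _ ?_
      rintro _ ⟨i, rfl⟩
      exact (b i).2
  rw [h1]
  refine IntermediateField.finiteDimensional_adjoin ?_
  rintro _ ⟨i, rfl⟩
  have h6 : IsIntegral F (b i) := Algebra.IsIntegral.isIntegral (b i)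
  have h7 : IsIntegral F ((b i : H) : Ω) := h6.map H.val
  exact h7.tower_top

instance Mof_numberField (H : IntermediateField F Ω) [NumberField H] : NumberField (Mof L H) := by
  have := Mof_finite L H
  exact NumberField.of_module_finite L (Mof L H)

end comp

section tuples

variable {ι : Type} [Fintype ι] {K : ι → Type} [∀ i, Field (K i)] [∀ i, NumberField (K i)]

/-- the tuples of nonzero ideals `T i ∈ B i` with product of norms at most `X` -/
def tupG (B : (i : ι) → Set (Ideal (𝓞 (K i)))) (X : ℝ) : Set ((i : ι) → Ideal (𝓞 (K i))) :=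
  {T | (∀ i, T i ∈ B i ∧ T i ≠ ⊥) ∧ ∏ i, (Ideal.absNorm (T i) : ℝ) ≤ X}

/-- the tuples of ideals `T i` prime to `S i` with product of norms at most `X` -/
def TG (S : (i : ι) → Finset (Prm (K i))) (X : ℝ) : Set ((i : ι) → Ideal (𝓞 (K i))) := tupG (fun i => {I | Cop (S i) I}) X

/-- the primes in `P i` divide `T i` exactly once, the generator of `T i` is an `e`-th power residue modulo the primes in `R i` -/
def EvA (e : ℕ) (g : (i : ι) → Ideal (𝓞 (K i)) → 𝓞 (K i)) (P R : (i : ι) → Finset (Prm (K i))) (T : (i : ι) → Ideal (𝓞 (K i))) : Prop :=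
  ∀ i, (∀ q ∈ P i, T i ≤ q.asIdeal ∧ ¬ T i ≤ q.asIdeal ^ 2) ∧ ∀ q ∈ R i, Res e (g i) q (T i)

variable (F : Type) {L : Type} [Field F] [NumberField F] [Field L] [NumberField L] [Algebra F L]
variable [∀ i, Algebra F (K i)] [∀ i, Algebra (K i) L] [∀ i, IsScalarTower F (K i) L]

/-- the prime of `K i` below `Q` divides `T i` exactly once, and the generators of all `T j` are `e`-th power residues modulo all the other conjugates of the primes
of `K j` below `Q` -/
def EvG (e : ℕ) (g : (i : ι) → Ideal (𝓞 (K i)) → 𝓞 (K i)) (i : ι) (T : (i : ι) → Ideal (𝓞 (K i))) (Q : Prm L) : Prop :=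
  T i ≤ (Q.under (𝓞 (K i))).asIdeal ∧ ¬ T i ≤ (Q.under (𝓞 (K i))).asIdeal ^ 2 ∧
    ∀ (j : ι) (τ : Gal(K j/F)), (j ≠ i ∨ τ ≠ 1) → Res e (g j) (cjP τ (Q.under (𝓞 (K j)))) (T j)

/-- a prime `Q` of `L` with `PP` whose norm is a prime number, not dividing `e` and with trivial decomposition group over `F` -/
def PPL (e : ℕ) (SL : Finset (Prm L)) (Q : Prm L) : Prop := PP e SL Q ∧ (nm Q).Prime ∧ GoodPrm F e Q

/-- for every `i` there are at least `k` primes with `EvG` -/
def RichG (e : ℕ) (SL : Finset (Prm L)) (g : (i : ι) → Ideal (𝓞 (K i)) → 𝓞 (K i)) (k : ℕ) (T : (i : ι) → Ideal (𝓞 (K i))) : Prop :=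
  ∀ i : ι, ∃ A : Finset (Prm L), k ≤ A.card ∧ (∀ Q ∈ A, PPL F e SL Q ∧ EvG F e g i T Q) ∧
    ∀ Q ∈ A, ∀ Q' ∈ A, Q.under (𝓞 F) = Q'.under (𝓞 F) → Q = Q'

/-- squarefree ideals with prime divisors of degree one over `F`, and all these primes (for all `i`) lie over different primes of `F` -/
def SqG (T : (i : ι) → Ideal (𝓞 (K i))) : Prop :=
  (∀ (i : ι) (q : Prm (K i)), T i ≤ q.asIdeal → ¬ T i ≤ q.asIdeal ^ 2 ∧ nm q = nm (q.under (𝓞 F))) ∧
  (∀ (i j : ι) (q : Prm (K i)) (q' : Prm (K j)), T i ≤ q.asIdeal → T j ≤ q'.asIdeal → q.under (𝓞 F) = q'.under (𝓞 F) →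
    (⟨i, q⟩ : Σ i, Prm (K i)) = ⟨j, q'⟩)

end tuples

section levels

variable {F L : Type} [Field F] [NumberField F] [Field L] [NumberField L] [Algebra F L]
variable {ι : Type} {K : ι → Type} [∀ i, Field (K i)] [∀ i, NumberField (K i)]
variable [∀ i, Algebra F (K i)] [∀ i, Algebra (K i) L] [∀ i, IsScalarTower F (K i) L]
variable {m : ℕ} {n : Fin m → ℕ}

/-- The levels: see the header of the file. -/
structure IsLev (e : ℕ) (ζ : L) (d : ι → ℕ) (z : (i : ι) → K i) (t : (i : ι) → Gal(K i/F) → ℕ) (v : ι → V n)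
    (rep : (Σ i, Gal(K i/F)) ≃ W n) : Prop where
  gal : ∀ i, IsGalois F (K i)
  two : ∀ i, 2 ≤ d i
  dvd : ∀ i, d i ∣ e
  root : ∀ i, algebraMap (K i) L (z i) = ζ ^ (e / d i)
  gen : ∀ i, IntermediateField.adjoin F {z i} = ⊤
  inv : ∀ i, IsInvCyc (d i) (z i) (t i)
  order : ∀ i, addOrderOf (v i) = d i
  rep_eq : ∀ (i : ι) (τ : Gal(K i/F)), ((rep ⟨i, τ⟩ : W n) : V n) = t i τ • v i

/-- the sets of primes: `S`, and the primes `SL` of `L` and `SK i` of `K i` above `S` -/
structure IsSS (e : ℕ) (S : Finset (Prm F)) (SL : Finset (Prm L)) (SK : (i : ι) → Finset (Prm (K i))) : Prop where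
  memL : ∀ Q : Prm L, Q ∈ SL ↔ Q.under (𝓞 F) ∈ S
  memK : ∀ (i : ι) (Q : Prm (K i)), Q ∈ SK i ↔ Q.under (𝓞 F) ∈ S
  goodL : GoodS e SL
  goodK : ∀ i, GoodS e (SK i)

/-- `B_0 = 1`, `B_w = ε_w τ(c_i)` if `w ≠ 0` is represented by `i` and `τ` -/
noncomputable def bG (rep : (Σ i, Gal(K i/F)) ≃ W n) (c : (i : ι) → 𝓞 (K i)) (ε : V n → 𝓞 L) : V n → 𝓞 L :=
  fun w => open Classical in if h : w ≠ 0 then
    ε w * algebraMap (𝓞 (K (rep.symm ⟨w, h⟩).1)) (𝓞 L) ((rep.symm ⟨w, h⟩).2 • c (rep.symm ⟨w, h⟩).1) else 1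

theorem bG_zero (rep : (Σ i, Gal(K i/F)) ≃ W n) (c : (i : ι) → 𝓞 (K i)) (ε : V n → 𝓞 L) : bG rep c ε 0 = 1 := by
  classical
  unfold bG
  rw [dif_neg]
  exact not_not.2 rfl

theorem bG_rep (rep : (Σ i, Gal(K i/F)) ≃ W n) (c : (i : ι) → 𝓞 (K i)) (ε : V n → 𝓞 L) (i : ι) (τ : Gal(K i/F)) :
    bG rep c ε ((rep ⟨i, τ⟩ : W n) : V n) = ε ((rep ⟨i, τ⟩ : W n) : V n) * algebraMap (𝓞 (K i)) (𝓞 L) (τ • c i) := by
  classical
  unfold bG
  rw [dif_pos (rep ⟨i, τ⟩).2]
  have h : rep.symm ⟨((rep ⟨i, τ⟩ : W n) : V n), (rep ⟨i, τ⟩).2⟩ = ⟨i, τ⟩ := rep.symm_apply_apply ⟨i, τ⟩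
  rw [h]

end levels

end StarkR
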