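import Pool.Agent.Lib.MP_d9bae3_nt.NG.GB
import Pool.Agent.Lib.MP_d9bae3_nt.NA.CDens
import Pool.Agent.Lib.MP_d9bae3_nt.NA.EDens

/-!
# Module NAG-MixD: densities with exact divisibility and residue conditions

`I ↦ I J`, `J = ∏_{q ∈ P} q`, is a bijection between the ideals `I` prime to `S` and to all `q ∈ P` and the ideals prime to `S` which are divisible exactly once by the `q ∈ P`; `g (I J) w = g I g J z` with
units `z, w` outside `S`.
-/

set_option linter.unusedSectionVars false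

namespace StarkR

open NumberField IsDedekindDomain Filter Topology
open scoped Pointwise

variable {F : Type} [Field F] [NumberField F]

private theorem MixD_prm_eq {p q : Prm F} (h : q.asIdeal ≤ p.asIdeal) : q = p :=
  HeightOneSpectrum.ext (q.isMaximal.eq_of_le p.isPrime.ne_top h)

private theorem MixD_prod_not_le {Q : Finset (Prm F)} {p : Prm F} (hp : p ∉ Q) : ¬ ∏ q ∈ Q, q.asIdeal ≤ p.asIdeal := by
  intro h
  obtain ⟨q, hq, hqp⟩ := (Ideal.IsPrime.prod_le p.isPrime).1 h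
  rw [MixD_prm_eq hqp] at hq
  exact hp hq

private theorem MixD_prod_ne_bot (Q : Finset (Prm F)) : ∏ q ∈ Q, q.asIdeal ≠ (⊥ : Ideal (𝓞 F)) := by
  rw [← Ideal.zero_eq_bot]
  exact Finset.prod_ne_zero_iff.2 fun q _ => by rw [Ideal.zero_eq_bot]; exact q.ne_bot

private theorem MixD_bij {S : Finset (Prm F)} {Q : Finset (Prm F)} (hQ : ∀ q ∈ Q, q ∉ S) (J : Ideal (𝓞 F)) :
    (Cop S J ∧ ∀ q ∈ Q, J ≤ q.asIdeal ∧ ¬ J ≤ q.asIdeal ^ 2) ↔
      ∃ I : Ideal (𝓞 F), (Cop S I ∧ ∀ q ∈ Q, ¬ I ≤ q.asIdeal) ∧ I * ∏ q ∈ Q, q.asIdeal = J := by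
  classical
  constructor
  · rintro ⟨⟨hJ0, hJS⟩, hJQ⟩
    have h1 : ∏ q ∈ Q, q.asIdeal ∣ J := by
      refine Finset.prod_dvd_of_coprime (fun p _ q _ hpq => ?_) fun q hq => Ideal.dvd_iff_le.2 (hJQ q hq).1
      exact Ideal.isCoprime_iff_sup_eq.2 (Ideal.IsMaximal.coprime_of_ne p.isMaximal q.isMaximal fun h =>
        hpq (HeightOneSpectrum.ext h))
    obtain ⟨I, hI⟩ := h1
    have hIJ : J ≤ I := Ideal.dvd_iff_le.1 ⟨_, by rw [hI, mul_comm]⟩
    refine ⟨I, ⟨⟨?_, fun p hp h => hJS p hp (hIJ.trans h)⟩, fun q hq h => (hJQ q hq).2 ?_⟩, by rw [hI, mul_comm]⟩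
    · rintro rfl
      exact hJ0 (by rw [hI, Ideal.mul_bot])
    · rw [hI, sq]
      exact Ideal.mul_mono ((Ideal.prod_le_inf).trans (Finset.inf_le hq)) h
  · rintro ⟨I, ⟨⟨hI0, hIS⟩, hIQ⟩, rfl⟩
    refine ⟨⟨?_, fun p hp h => ?_⟩, fun q hq => ⟨?_, fun h => ?_⟩⟩
    · rw [← Ideal.zero_eq_bot] at hI0 ⊢
      exact mul_ne_zero hI0 (by rw [Ideal.zero_eq_bot]; exact MixD_prod_ne_bot Q)
    · rcases (Ideal.IsPrime.mul_le p.isPrime).1 h with h | h
      · exact hIS p hp h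
      · exact MixD_prod_not_le (fun hpQ => hQ p hpQ hp) h
    · exact Ideal.mul_le_right.trans ((Ideal.prod_le_inf).trans (Finset.inf_le hq))
    · rw [← Ideal.dvd_iff_le, ← Finset.mul_prod_erase Q _ hq, mul_left_comm, sq] at h
      have hq0 : q.asIdeal ≠ 0 := by rw [Ideal.zero_eq_bot]; exact q.ne_bot
      have h2 := (mul_dvd_mul_iff_left hq0).1 h
      rw [Ideal.dvd_iff_le] at h2
      rcases (Ideal.IsPrime.mul_le q.isPrime).1 h2 with h | h
      · exact hIQ q hq h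
      · exact MixD_prod_not_le (Finset.notMem_erase q Q) h

/-- `G` divides `B P ^ N` for a large `N` if the multiplicities outside `S` are at most those of `B` -/
private lemma MixD_dvd (S : Finset (Prm F)) {P : Ideal (𝓞 F)} (hP : ∀ p ∈ S, p.asIdeal ∣ P) (G : Ideal (𝓞 F)) :
    G ≠ ⊥ → ∀ B : Ideal (𝓞 F), (∀ q : Prm F, q ∉ S → ∀ k : ℕ, G ≤ q.asIdeal ^ k → B ≤ q.asIdeal ^ k) →
      ∃ N : ℕ, G ∣ B * P ^ N := by
  refine UniqueFactorizationMonoid.induction_on_prime G ?_ ?_ ?_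
  · intro h
    exact absurd rfl h
  · intro x hx _ B _
    exact ⟨0, hx.dvd⟩
  · intro a p ha hp ih hpa B hB
    by_cases hpS : ∃ q ∈ S, q.asIdeal = p
    · obtain ⟨q, hq, rfl⟩ := hpS
      obtain ⟨N, hN⟩ := ih ha B fun q' hq' k hk => hB q' hq' k (Ideal.mul_le_right.trans hk)
      refine ⟨N + 1, ?_⟩
      have h1 : B * P ^ (N + 1) = P * (B * P ^ N) := by ring
      rw [h1]
      exact mul_dvd_mul (hP q hq) hN
    · obtain ⟨q₀, hq₀⟩ : ∃ q₀ : Prm F, q₀.asIdeal = p := ⟨⟨p, Ideal.isPrime_of_prime hp, hp.ne_zero⟩, rfl⟩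
      subst hq₀
      have hqS : q₀ ∉ S := fun h => hpS ⟨q₀, h, rfl⟩
      have h1 : B ≤ q₀.asIdeal := by
        have h2 := hB q₀ hqS 1 (by rw [pow_one]; exact Ideal.mul_le_left)
        rwa [pow_one] at h2
      obtain ⟨B', hB'⟩ := Ideal.dvd_iff_le.2 h1
      obtain ⟨N, hN⟩ := ih ha B' fun q hq k hk => by
        by_cases hqq : q = q₀
        · subst hqq
          have h3 : q.asIdeal * a ≤ q.asIdeal ^ (k + 1) := by
            rw [pow_succ']
            exact Ideal.mul_mono_right hk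
          have h4 := hB q hq (k + 1) h3
          rw [hB', pow_succ', ← Ideal.dvd_iff_le] at h4
          exact Ideal.dvd_iff_le.1 ((mul_dvd_mul_iff_left hp.ne_zero).1 h4)
        · have h3 := hB q hq k (Ideal.mul_le_right.trans hk)
          rw [hB', ← Ideal.dvd_iff_le] at h3
          have h4 : IsCoprime (q.asIdeal ^ k) q₀.asIdeal := by
            have := q.isMaximal
            have := q₀.isMaximal
            refine IsCoprime.pow_left (Ideal.isCoprime_of_isMaximal fun h => hqq ?_)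
            exact HeightOneSpectrum.ext h
          exact Ideal.dvd_iff_le.1 (h4.dvd_of_dvd_mul_left h3)
      refine ⟨N, ?_⟩
      rw [hB', mul_assoc]
      exact mul_dvd_mul_left _ hN

private lemma MixD_mult {x : 𝓞 F} (hx : x ≠ 0) (q : Prm F) : ∃ k : ℕ, x ∈ q.asIdeal ^ k ∧ x ∉ q.asIdeal ^ (k + 1) := by
  have h1 : ∃ k : ℕ, x ∉ q.asIdeal ^ (k + 1) := by
    by_contra hno
    push Not at hno
    apply hx
    have h2 : x ∈ ⨅ k : ℕ, q.asIdeal ^ k := by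
      rw [Ideal.mem_iInf]
      intro k
      exact Ideal.pow_le_pow_right (Nat.le_succ k) (hno k)
    rw [Ideal.iInf_pow_eq_bot_of_isDomain q.asIdeal q.isPrime.ne_top] at h2
    exact h2
  classical
  refine ⟨Nat.find h1, ?_, Nat.find_spec h1⟩
  rcases Nat.eq_zero_or_pos (Nat.find h1) with h2 | h2
  · rw [h2, pow_zero, Ideal.one_eq_top]
    trivial
  · obtain ⟨k, hk⟩ := Nat.exists_eq_succ_of_ne_zero h2.ne'
    have h3 := Nat.find_min h1 (m := k) (by omega)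
    rw [hk]
    exact not_not.1 h3

/-- units outside `S` which relate two elements with the same multiplicities outside `S` -/
private lemma MixD_units {e : ℕ} {S : Finset (Prm F)} (hS : GoodS e S) {a b : 𝓞 F} (ha : a ≠ 0) (hb : b ≠ 0)
    (hab : ∀ q : Prm F, q ∉ S → ∀ k : ℕ, a ∈ q.asIdeal ^ k ↔ b ∈ q.asIdeal ^ k) :
    ∃ z w : 𝓞 F, IsSU S z ∧ IsSU S w ∧ b * z = a * w := by
  have hspan : ∀ {x : 𝓞 F}, x ≠ 0 → Ideal.span {x} ≠ ⊥ := fun hx h => hx (Ideal.span_singleton_eq_bot.1 h)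
  have hP0 : (∏ p ∈ S, p.asIdeal) ≠ ⊥ := Finset.prod_ne_zero_iff.2 fun t _ => t.ne_bot
  obtain ⟨N, hN⟩ := MixD_dvd S (P := ∏ p ∈ S, p.asIdeal) (fun p hp => Finset.dvd_prod_of_mem _ hp) (Ideal.span {a}) (hspan ha)
    (Ideal.span {b}) (fun q hq k h => (Ideal.span_singleton_le_iff_mem _).2 ((hab q hq k).1 ((Ideal.span_singleton_le_iff_mem _).1 h)))
  obtain ⟨J, hJ0, hJS, z, hz⟩ := hS.cls ((∏ p ∈ S, p.asIdeal) ^ N) (pow_ne_zero N hP0)
  have hz0 : z ≠ 0 := by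
    rintro rfl
    rw [Ideal.span_singleton_eq_bot.2 rfl] at hz
    exact mul_ne_zero (pow_ne_zero N hP0) hJ0 hz
  have hzS : IsSU S z := by
    refine ⟨hz0, fun q hq hzq => hq ?_⟩
    have h1 : Ideal.span {z} ≤ q.asIdeal := (Ideal.span_singleton_le_iff_mem _).2 hzq
    rw [← hz] at h1
    rcases q.isPrime.mul_le.1 h1 with h2 | h2
    · have h3 := q.isPrime.le_of_pow_le h2
      obtain ⟨p, hp, h4⟩ := (Ideal.IsPrime.prod_le q.isPrime).1 h3
      rwa [← MixD_prm_eq h4]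
    · exact hJS q h2
  have h1 : Ideal.span {a} ∣ Ideal.span {b * z} := by
    rw [← Ideal.span_singleton_mul_span_singleton, ← hz]
    exact hN.trans ⟨J, by ring⟩
  obtain ⟨w, hw⟩ := Ideal.mem_span_singleton.1 ((Ideal.span_singleton_le_iff_mem _).1 (Ideal.dvd_iff_le.1 h1))
  refine ⟨z, w, hzS, ⟨?_, ?_⟩, hw⟩
  · rintro rfl
    rw [mul_zero] at hw
    exact mul_ne_zero hb hz0 hw
  · intro q hq hwq
    obtain ⟨k, hk1, hk2⟩ := MixD_mult ha q
    apply hk2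
    rw [hab q hq]
    have h2 : b * z ∈ q.asIdeal ^ (k + 1) := by
      rw [hw, pow_succ]
      exact Ideal.mul_mem_mul hk1 hwq
    have := q.isPrime
    rw [mul_comm] at h2
    exact (Ideal.IsPrime.mul_mem_pow q.asIdeal h2).resolve_left (hzS.2 q hq)

/-- `g I g J` and `g (I J)` have the same multiplicities outside `S` -/
private lemma MixD_gen {S : Finset (Prm F)} {g : Ideal (𝓞 F) → 𝓞 F} (hg : IsGen S g) {I J : Ideal (𝓞 F)} (hI : I ≠ ⊥)
    (hJ : J ≠ ⊥) (q : Prm F) (hq : q ∉ S) (k : ℕ) : g (I * J) ∈ q.asIdeal ^ k ↔ g I * g J ∈ q.asIdeal ^ k := by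
  have hprime : Prime q.asIdeal := Ideal.prime_of_isPrime q.ne_bot q.isPrime
  have hIJ : I * J ≠ ⊥ := mul_ne_zero hI hJ
  have key : ∀ A : Ideal (𝓞 F), A ≠ ⊥ → emultiplicity q.asIdeal (Ideal.span {g A}) = emultiplicity q.asIdeal A := by
    intro A hA
    refine emultiplicity_eq_emultiplicity_iff.2 fun n => ?_
    rw [Ideal.dvd_iff_le, Ideal.dvd_iff_le, Ideal.span_singleton_le_iff_mem]
    exact (hg A hA).2 q hq n
  rw [(hg _ hIJ).2 q hq k, ← Ideal.dvd_iff_le, ← Ideal.span_singleton_le_iff_mem, ← Ideal.dvd_iff_le,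
    ← Ideal.span_singleton_mul_span_singleton, pow_dvd_iff_le_emultiplicity, pow_dvd_iff_le_emultiplicity,
    emultiplicity_mul hprime, emultiplicity_mul hprime, key I hI, key J hJ]

/-- the residue condition at `q` for `I J` in terms of `g I` -/
private lemma MixD_res {e : ℕ} {S : Finset (Prm F)} (hS : GoodS e S) {g : Ideal (𝓞 F) → 𝓞 F} (hg : IsGen S g) {I J : Ideal (𝓞 F)}
    (hI : I ≠ ⊥) (hJ : J ≠ ⊥) (q : Prm F) (hq : PP e S q) (hJq : g J ∉ q.asIdeal) :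
    Res e g q (I * J) ↔ Ideal.Quotient.mk q.asIdeal (g I) ≠ 0 ∧
      ∃ y, Ideal.Quotient.mk q.asIdeal (g I) * Ideal.Quotient.mk q.asIdeal (g J) = y ^ e := by
  have hdom : IsDomain (𝓞 F ⧸ q.asIdeal) := (Ideal.Quotient.isDomain_iff_prime _).2 q.isPrime
  have hmax := q.isMaximal
  let _ : Field (𝓞 F ⧸ q.asIdeal) := Ideal.Quotient.field q.asIdeal
  have hIJ : I * J ≠ ⊥ := mul_ne_zero hI hJ
  obtain ⟨z, w, hz, hw, hzw⟩ := MixD_units hS (hg _ hIJ).1 (mul_ne_zero (hg I hI).1 (hg J hJ).1)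
    (fun q' hq' k => MixD_gen hg hI hJ q' hq' k)
  obtain ⟨z', hz'⟩ := hq.2 z hz
  obtain ⟨w', hw'⟩ := hq.2 w hw
  have ez : Ideal.Quotient.mk q.asIdeal z = Ideal.Quotient.mk q.asIdeal z' ^ e := by
    rw [← map_pow]; exact Ideal.Quotient.eq.2 hz'
  have ew : Ideal.Quotient.mk q.asIdeal w = Ideal.Quotient.mk q.asIdeal w' ^ e := by
    rw [← map_pow]; exact Ideal.Quotient.eq.2 hw'
  have z0 : Ideal.Quotient.mk q.asIdeal z ≠ 0 := fun h => hz.2 q hq.1 (Ideal.Quotient.eq_zero_iff_mem.1 h)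
  have w0 : Ideal.Quotient.mk q.asIdeal w ≠ 0 := fun h => hw.2 q hq.1 (Ideal.Quotient.eq_zero_iff_mem.1 h)
  have j0 : Ideal.Quotient.mk q.asIdeal (g J) ≠ 0 := fun h => hJq (Ideal.Quotient.eq_zero_iff_mem.1 h)
  have hmk : Ideal.Quotient.mk q.asIdeal (g I) * Ideal.Quotient.mk q.asIdeal (g J) * Ideal.Quotient.mk q.asIdeal z =
      Ideal.Quotient.mk q.asIdeal (g (I * J)) * Ideal.Quotient.mk q.asIdeal w := by
    rw [← map_mul, ← map_mul, ← map_mul, hzw]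
  unfold Res
  rw [← Ideal.Quotient.eq_zero_iff_mem]
  constructor
  · rintro ⟨h1, x, hx⟩
    have ex : Ideal.Quotient.mk q.asIdeal (g (I * J)) = Ideal.Quotient.mk q.asIdeal x ^ e := by
      rw [← map_pow]; exact Ideal.Quotient.eq.2 hx
    refine ⟨fun h => ?_, Ideal.Quotient.mk q.asIdeal x * Ideal.Quotient.mk q.asIdeal w' / Ideal.Quotient.mk q.asIdeal z', ?_⟩
    · rw [h, zero_mul, zero_mul] at hmk
      exact mul_ne_zero h1 w0 hmk.symm
    · rw [div_pow, mul_pow, ← ex, ← ew, ← ez, eq_div_iff z0, hmk]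
  · rintro ⟨h1, y, hy⟩
    rw [hy] at hmk
    obtain ⟨x, hx⟩ := Ideal.Quotient.mk_surjective (y * Ideal.Quotient.mk q.asIdeal z' / Ideal.Quotient.mk q.asIdeal w')
    have ex : Ideal.Quotient.mk q.asIdeal (g (I * J)) = Ideal.Quotient.mk q.asIdeal x ^ e := by
      rw [hx, div_pow, mul_pow, ← ew, ← ez, eq_div_iff w0, hmk]
    refine ⟨fun h => ?_, x, ?_⟩
    · rw [h, zero_mul, ← hy] at hmk
      exact mul_ne_zero (mul_ne_zero h1 j0) z0 hmk
    · rw [← map_pow] at ex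
      exact Ideal.Quotient.eq.1 ex

private lemma MixD_ncard_ne_zero (q : Prm F) :
    (({r : 𝓞 F ⧸ q.asIdeal | r ≠ 0}).ncard : ℝ) / (nm q : ℝ) = 1 - 1 / (nm q : ℝ) := by
  classical
  have h1 := finQ q
  have h2 := two_le_nm q
  have h6 : (2 : ℝ) ≤ (nm q : ℝ) := by exact_mod_cast h2
  have hcard : ({r : 𝓞 F ⧸ q.asIdeal | r ≠ 0}).ncard = nm q - 1 := by
    have := Fintype.ofFinite (𝓞 F ⧸ q.asIdeal)
    rw [← Nat.card_coe_set_eq]
    have h3 : Nat.card {a : 𝓞 F ⧸ q.asIdeal // a ≠ 0} = nm q - 1 := by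
      rw [Nat.card_eq_fintype_card, Fintype.card_subtype_compl, ← Nat.card_eq_fintype_card, card_Q]
      simp
    exact h3
  rw [hcard, Nat.cast_sub (by omega)]
  have h0 : (nm q : ℝ) ≠ 0 := by linarith
  field_simp
  simp

/-- the set of the classes `r ≠ 0` with `r t` an `e`-th power has as many elements as the set of the nonzero `e`-th powers -/
private lemma MixD_rho (e : ℕ) (q : Prm F) {t : 𝓞 F ⧸ q.asIdeal} (ht : t ≠ 0) :
    (Set.ncard {r : 𝓞 F ⧸ q.asIdeal | r ≠ 0 ∧ ∃ y, r * t = y ^ e} : ℝ) / (nm q : ℝ) = rho e q := by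
  have hdom : IsDomain (𝓞 F ⧸ q.asIdeal) := (Ideal.Quotient.isDomain_iff_prime _).2 q.isPrime
  have hmax := q.isMaximal
  let _ : Field (𝓞 F ⧸ q.asIdeal) := Ideal.Quotient.field q.asIdeal
  have h1 : {r : 𝓞 F ⧸ q.asIdeal | r ≠ 0 ∧ ∃ y, r = y ^ e} =
      (fun r => r * t) '' {r : 𝓞 F ⧸ q.asIdeal | r ≠ 0 ∧ ∃ y, r * t = y ^ e} := by
    ext r
    simp only [Set.mem_ofPred_eq, Set.mem_image]
    constructor
    · rintro ⟨hr, y, hy⟩
      refine ⟨r / t, ⟨div_ne_zero hr ht, y, ?_⟩, ?_⟩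
      · rw [div_mul_cancel₀ _ ht, hy]
      · rw [div_mul_cancel₀ _ ht]
    · rintro ⟨s, ⟨hs, y, hy⟩, rfl⟩
      exact ⟨mul_ne_zero hs ht, y, hy⟩
  unfold rho
  rw [h1, Set.ncard_image_of_injective _ (mul_left_injective₀ ht)]

theorem mix_dens {e : ℕ} (he : 0 < e) {S : Finset (Prm F)} (hS : GoodS e S) {g : Ideal (𝓞 F) → 𝓞 F} (hg : IsGen S g) :
    ∃ κ : ℝ, 0 < κ ∧ HasDens {I : Ideal (𝓞 F) | Cop S I} κ ∧ ∀ P R : Finset (Prm F), Disjoint P R → (∀ q ∈ P, PP e S q) →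
      (∀ q ∈ R, PP e S q) →
      HasDens {I : Ideal (𝓞 F) | Cop S I ∧ (∀ q ∈ P, I ≤ q.asIdeal ∧ ¬ I ≤ q.asIdeal ^ 2) ∧ ∀ q ∈ R, Res e g q I}
        (κ * (∏ q ∈ P, (1 / (nm q : ℝ) * (1 - 1 / (nm q : ℝ)))) * ∏ q ∈ R, rho e q) := by
  classical
  obtain ⟨κ, hκ, H⟩ := dens_R hS hg
  refine ⟨κ, hκ, ?_, fun P R hdis hP hR => ?_⟩
  · have h1 := H ∅ (fun _ => Set.univ) (by simp) (by simp)
    simpa using h1
  set J : Ideal (𝓞 F) := ∏ q ∈ P, q.asIdeal with hJdef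
  have hJ : J ≠ ⊥ := MixD_prod_ne_bot P
  have hPS : ∀ q ∈ P, q ∉ S := fun q hq => (hP q hq).1
  have hgJ : ∀ q ∈ R, g J ∉ q.asIdeal := fun q hq h => by
    have h1 := (hg J hJ).2 q (hR q hq).1 1
    rw [pow_one] at h1
    exact MixD_prod_not_le (Finset.disjoint_right.1 hdis hq) (h1.1 h)
  set A : (q : Prm F) → Set (𝓞 F ⧸ q.asIdeal) := fun q =>
    if q ∈ R then {r | r ≠ 0 ∧ ∃ y, r * Ideal.Quotient.mk q.asIdeal (g J) = y ^ e} else {r | r ≠ 0} with hA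
  have hA1 : ∀ q ∈ R, A q = {r | r ≠ 0 ∧ ∃ y, r * Ideal.Quotient.mk q.asIdeal (g J) = y ^ e} := fun q hq => by
    simp only [hA]; rw [if_pos hq]
  have hA2 : ∀ q ∈ P, A q = {r | r ≠ 0} := fun q hq => by
    have hq' : q ∉ R := Finset.disjoint_left.1 hdis hq
    simp only [hA]; rw [if_neg hq']
  have hS1 : ∀ q ∈ P ∪ R, q ∉ S := fun q hq => by
    rcases Finset.mem_union.1 hq with h | h
    · exact hPS q h
    · exact (hR q h).1
  have h1 := H (P ∪ R) A hS1 (fun q hq u hu r hr => by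
    have hdom : IsDomain (𝓞 F ⧸ q.asIdeal) := (Ideal.Quotient.isDomain_iff_prime _).2 q.isPrime
    have hu0 : Ideal.Quotient.mk q.asIdeal u ≠ 0 := by
      rw [Ne, Ideal.Quotient.eq_zero_iff_mem]
      exact hu.2 q (hS1 q hq)
    rcases Finset.mem_union.1 hq with h | h
    · rw [hA2 q h] at hr ⊢
      exact mul_ne_zero hu0 hr
    · rw [hA1 q h] at hr ⊢
      obtain ⟨hr0, y, hy⟩ := hr
      obtain ⟨z, hz⟩ := (hR q h).2 u hu
      refine ⟨mul_ne_zero hu0 hr0, Ideal.Quotient.mk q.asIdeal z * y, ?_⟩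
      rw [mul_pow, ← hy, ← map_pow, mul_assoc]
      congr 1
      exact Ideal.Quotient.eq.2 hz)
  set A0 : Set (Ideal (𝓞 F)) := {I | Cop S I ∧ ∀ q ∈ P ∪ R, Ideal.Quotient.mk q.asIdeal (g I) ∈ A q} with hA0
  set B0 : Set (Ideal (𝓞 F)) := {I | Cop S I ∧ (∀ q ∈ P, I ≤ q.asIdeal ∧ ¬ I ≤ q.asIdeal ^ 2) ∧ ∀ q ∈ R, Res e g q I} with hB0
  have hmemA : ∀ I : Ideal (𝓞 F), I ∈ A0 ↔ (Cop S I ∧ ∀ q ∈ P, ¬ I ≤ q.asIdeal) ∧ ∀ q ∈ R, Res e g q (I * J) := by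
    intro I
    rw [hA0, Set.mem_setOf_eq, and_assoc]
    refine and_congr_right fun hI => ?_
    have hgen := hg I hI.1
    constructor
    · intro h
      refine ⟨fun q hq => ?_, fun q hq => ?_⟩
      · have h2 := h q (Finset.mem_union_left _ hq)
        rw [hA2 q hq, Set.mem_setOf_eq, Ne, Ideal.Quotient.eq_zero_iff_mem] at h2
        have h3 := hgen.2 q (hPS q hq) 1
        rw [pow_one] at h3
        exact fun hc => h2 (h3.2 hc)
      · have h2 := h q (Finset.mem_union_right _ hq)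
        rw [hA1 q hq, Set.mem_setOf_eq] at h2
        exact (MixD_res hS hg hI.1 hJ q (hR q hq) (hgJ q hq)).2 h2
    · rintro ⟨h2, h3⟩ q hq
      rcases Finset.mem_union.1 hq with h | h
      · rw [hA2 q h, Set.mem_setOf_eq, Ne, Ideal.Quotient.eq_zero_iff_mem]
        have h4 := hgen.2 q (hPS q h) 1
        rw [pow_one] at h4
        exact fun hc => h2 q h (h4.1 hc)
      · rw [hA1 q h, Set.mem_setOf_eq]
        exact (MixD_res hS hg hI.1 hJ q (hR q h) (hgJ q h)).1 (h3 q h)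
  have hN : Ideal.absNorm J = ∏ q ∈ P, nm q := by
    rw [hJdef, map_prod]
    rfl
  have hN0 : 0 < ((∏ q ∈ P, nm q : ℕ) : ℝ) := by
    rw [← hN]
    exact Nat.cast_pos.2 (Nat.pos_of_ne_zero fun h => hJ (Ideal.absNorm_eq_zero_iff.1 h))
  have hcnt : ∀ x : ℝ, cnt B0 x = cnt A0 (x / ((∏ q ∈ P, nm q : ℕ) : ℝ)) := by
    intro x
    have h2 : {I : Ideal (𝓞 F) | I ∈ B0 ∧ I ≠ ⊥ ∧ (Ideal.absNorm I : ℝ) ≤ x} = (fun I => I * J) ''
        {I : Ideal (𝓞 F) | I ∈ A0 ∧ I ≠ ⊥ ∧ (Ideal.absNorm I : ℝ) ≤ x / ((∏ q ∈ P, nm q : ℕ) : ℝ)} := by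
      ext K
      constructor
      · rintro ⟨⟨hK1, hK2, hK3⟩, _, hKx⟩
        obtain ⟨I, hI, rfl⟩ := (MixD_bij hPS K).1 ⟨hK1, hK2⟩
        refine ⟨I, ⟨(hmemA I).2 ⟨hI, hK3⟩, hI.1.1, ?_⟩, rfl⟩
        rw [← hJdef, map_mul, hN, Nat.cast_mul] at hKx
        rw [le_div_iff₀ hN0]
        exact hKx
      · rintro ⟨I, ⟨hI, _, hIx⟩, rfl⟩
        obtain ⟨hI1, hI2⟩ := (hmemA I).1 hI
        have h3 := (MixD_bij hPS (I * J)).2 ⟨I, hI1, rfl⟩
        refine ⟨⟨h3.1, h3.2, hI2⟩, h3.1.1, ?_⟩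
        rw [le_div_iff₀ hN0] at hIx
        show ((Ideal.absNorm (I * J) : ℕ) : ℝ) ≤ x
        rw [map_mul, hN, Nat.cast_mul]
        exact hIx
    unfold cnt
    rw [h2, Set.ncard_image_of_injective]
    exact mul_left_injective₀ (by rw [Ne, Ideal.zero_eq_bot]; exact hJ)
  have hprod : ∏ q ∈ P ∪ R, ((A q).ncard : ℝ) / (nm q : ℝ) =
      (∏ q ∈ P, (1 - 1 / (nm q : ℝ))) * ∏ q ∈ R, rho e q := by
    rw [Finset.prod_union hdis]
    congr 1
    · exact Finset.prod_congr rfl fun q hq => by rw [hA2 q hq, MixD_ncard_ne_zero]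
    · refine Finset.prod_congr rfl fun q hq => ?_
      rw [hA1 q hq]
      exact MixD_rho e q fun h => hgJ q hq (Ideal.Quotient.eq_zero_iff_mem.1 h)
  rw [hprod] at h1
  have h3 : Tendsto (fun x : ℝ => x / ((∏ q ∈ P, nm q : ℕ) : ℝ)) atTop atTop := tendsto_id.atTop_div_const hN0
  have h4 := (Tendsto.comp h1 h3).mul_const ((1 : ℝ) / ((∏ q ∈ P, nm q : ℕ) : ℝ))
  have h5 : κ * (∏ q ∈ P, (1 / (nm q : ℝ) * (1 - 1 / (nm q : ℝ)))) * ∏ q ∈ R, rho e q =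
      (κ * ((∏ q ∈ P, (1 - 1 / (nm q : ℝ))) * ∏ q ∈ R, rho e q)) * ((1 : ℝ) / ((∏ q ∈ P, nm q : ℕ) : ℝ)) := by
    rw [Finset.prod_mul_distrib, Nat.cast_prod]
    simp only [one_div, Finset.prod_inv_distrib]
    ring
  unfold HasDens
  rw [h5]
  refine h4.congr fun x => ?_
  simp only [Function.comp_apply]
  rw [hcnt x]
  field_simp

end StarkR
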