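import Pool.Agent.Lib.MP_d9bae3_nt.NG.GB
import Pool.Agent.Lib.MP_d9bae3_nt.SG.GSplit

/-!
# Module NAG-PsiL: a homomorphism for one level

This is `split_hom` (SG/GSplit.lean) for `m = 1`, `n = d`, `e = d` and `M = N` arbitrary, with the exact formula for the `σ` which are trivial on `K` instead of the injectivity: in the proof there, for `r σ = 1` one has `t 1 = 1`, `Y 1 = 1` and `σ α = z^(k σ) α`.  (The field generated by `α` plays no role.)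
-/

set_option linter.unusedSectionVars false

namespace StarkR

open NumberField IsDedekindDomain Filter Topology
open scoped Pointwise

variable {F K N : Type} [Field F] [NumberField F] [Field K] [NumberField K] [Field N] [NumberField N]
variable [Algebra F K] [Algebra F N] [Algebra K N] [IsScalarTower F K N]

private theorem coe_twist (t : Gal(K/F) → ℕ) (a : 𝓞 K) :
    ((twist t a : 𝓞 K) : K) = ∏ τ : Gal(K/F), τ (a : K) ^ t τ := by
  unfold twist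
  simp only [map_prod, map_pow]
  rfl

omit [NumberField F] [NumberField K] in
/-- `t_ρ t_σ` is `t_{ρσ}` modulo `e` -/
private theorem t_mul {e : ℕ} (he : 0 < e) {ζ : K} (hζ : IsPrimitiveRoot ζ e) {t : Gal(K/F) → ℕ}
    (ht : IsInvCyc e ζ t) (ρ σ : Gal(K/F)) : t ρ * t σ % e = t (ρ * σ) := by
  have hz : IsPrimitiveRoot ((ρ * σ) ζ) e := hζ.map_of_injective (ρ * σ).injective
  have h1 : ((ρ * σ) ζ) ^ (t ρ * t σ) = ζ := by
    rw [mul_comm, pow_mul, AlgEquiv.mul_apply, ← map_pow, (ht σ).2, (ht ρ).2]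
  have h2 := pow_mod_orderOf ((ρ * σ) ζ) (t ρ * t σ)
  rw [← hz.eq_orderOf, h1] at h2
  exact hz.pow_inj (Nat.mod_lt _ he) (ht (ρ * σ)).1 (h2.trans (ht (ρ * σ)).2.symm)

omit [NumberField F] [NumberField K] in
private theorem t_mul' {e : ℕ} (he : 0 < e) {ζ : K} (hζ : IsPrimitiveRoot ζ e) {t : Gal(K/F) → ℕ}
    (ht : IsInvCyc e ζ t) (ρ σ : Gal(K/F)) : t ρ * t σ = t (ρ * σ) + e * (t ρ * t σ / e) := by
  rw [← t_mul he hζ ht ρ σ]
  exact (Nat.mod_add_div _ _).symm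

omit [NumberField F] [NumberField K] in
private theorem t_inv' {e : ℕ} (he : 0 < e) {ζ : K} (hζ : IsPrimitiveRoot ζ e) {t : Gal(K/F) → ℕ}
    (ht : IsInvCyc e ζ t) (ρ τ : Gal(K/F)) :
    t ρ * t (ρ⁻¹ * τ) = t τ + e * (t ρ * t (ρ⁻¹ * τ) / e) := by
  have h := t_mul' he hζ ht ρ (ρ⁻¹ * τ)
  rw [mul_inv_cancel_left] at h
  exact h

/-- reindexing -/
private theorem map_prodK (ρ : Gal(K/F)) (A : K) (f : Gal(K/F) → ℕ) :
    ρ (∏ τ : Gal(K/F), τ A ^ f τ) = ∏ τ : Gal(K/F), τ A ^ f (ρ⁻¹ * τ) := by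
  rw [map_prod]
  refine Fintype.prod_equiv (Equiv.mulLeft ρ) _ _ fun τ => ?_
  rw [map_pow, Equiv.coe_mulLeft, inv_mul_cancel_left, AlgEquiv.mul_apply]

/-- `C_ρ = ∏_τ τ(A) ^ c_{ρ,τ}` -/
private noncomputable def cc (e : ℕ) (t : Gal(K/F) → ℕ) (A : K) (ρ : Gal(K/F)) : K :=
  ∏ τ : Gal(K/F), τ A ^ (t ρ * t (ρ⁻¹ * τ) / e)

private theorem map_phi_pow {e : ℕ} (he : 0 < e) {ζ : K} (hζ : IsPrimitiveRoot ζ e) {t : Gal(K/F) → ℕ}
    (ht : IsInvCyc e ζ t) (ρ : Gal(K/F)) (A : K) :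
    ρ (∏ τ : Gal(K/F), τ A ^ t τ) ^ t ρ = (∏ τ : Gal(K/F), τ A ^ t τ) * cc e t A ρ ^ e := by
  rw [map_prodK, ← Finset.prod_pow, cc, ← Finset.prod_pow, ← Finset.prod_mul_distrib]
  refine Finset.prod_congr rfl fun τ _ => ?_
  rw [← pow_mul, ← pow_mul, ← pow_add, mul_comm (t (ρ⁻¹ * τ)) (t ρ), t_inv' he hζ ht ρ τ]
  congr 1
  have h := t_inv' he hζ ht ρ τ
  rw [← h]
  rw [mul_comm _ e]
  exact h

private theorem cocyc {e : ℕ} (he : 0 < e) {ζ : K} (hζ : IsPrimitiveRoot ζ e) {t : Gal(K/F) → ℕ}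
    (ht : IsInvCyc e ζ t) (ρ' ρ : Gal(K/F)) (A : K) :
    cc e t A ρ' * ρ' (cc e t A ρ) ^ t ρ' =
      cc e t A (ρ' * ρ) * ((ρ' * ρ) (∏ τ : Gal(K/F), τ A ^ t τ)) ^ (t ρ' * t ρ / e) := by
  rw [cc, cc, cc, map_prodK ρ', map_prodK (ρ' * ρ), ← Finset.prod_pow, ← Finset.prod_pow,
    ← Finset.prod_mul_distrib, ← Finset.prod_mul_distrib]
  refine Finset.prod_congr rfl fun τ _ => ?_
  rw [← pow_mul, ← pow_mul, ← pow_add, ← pow_add]
  congr 1
  have h1 := t_inv' he hζ ht ρ' τ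
  have h2 := t_inv' he hζ ht ρ (ρ'⁻¹ * τ)
  have h3 := t_inv' he hζ ht (ρ' * ρ) τ
  have h4 := t_mul' he hζ ht ρ' ρ
  have h5 : ρ⁻¹ * (ρ'⁻¹ * τ) = (ρ' * ρ)⁻¹ * τ := by group
  rw [h5] at h2 ⊢
  obtain ⟨c1, hc1⟩ : ∃ x, x = t ρ' * t (ρ'⁻¹ * τ) / e := ⟨_, rfl⟩
  obtain ⟨c2, hc2⟩ : ∃ x, x = t ρ * t ((ρ' * ρ)⁻¹ * τ) / e := ⟨_, rfl⟩
  obtain ⟨c3, hc3⟩ : ∃ x, x = t (ρ' * ρ) * t ((ρ' * ρ)⁻¹ * τ) / e := ⟨_, rfl⟩
  obtain ⟨c4, hc4⟩ : ∃ x, x = t ρ' * t ρ / e := ⟨_, rfl⟩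
  rw [← hc1] at h1 ⊢
  rw [← hc2] at h2 ⊢
  rw [← hc3] at h3 ⊢
  rw [← hc4] at h4 ⊢
  obtain ⟨a, ha⟩ : ∃ x, x = t ρ' := ⟨_, rfl⟩
  obtain ⟨b, hb⟩ : ∃ x, x = t ρ := ⟨_, rfl⟩
  obtain ⟨u, hu⟩ : ∃ x, x = t (ρ'⁻¹ * τ) := ⟨_, rfl⟩
  obtain ⟨w, hw⟩ : ∃ x, x = t ((ρ' * ρ)⁻¹ * τ) := ⟨_, rfl⟩
  obtain ⟨s, hs⟩ : ∃ x, x = t (ρ' * ρ) := ⟨_, rfl⟩
  obtain ⟨r, hr⟩ : ∃ x, x = t τ := ⟨_, rfl⟩
  rw [← ha, ← hu, ← hr] at h1
  rw [← hb, ← hw, ← hu] at h2
  rw [← hs, ← hw, ← hr] at h3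
  rw [← ha, ← hb, ← hs] at h4
  rw [← ha, ← hw]
  have h6 : e * (c1 + c2 * a) = e * (c3 + w * c4) := by
    zify at *
    have h1' : (e : ℤ) * c1 = a * u - r := by linarith
    have h2' : (e : ℤ) * c2 = b * w - u := by linarith
    have h3' : (e : ℤ) * c3 = s * w - r := by linarith
    have h4' : (e : ℤ) * c4 = a * b - s := by linarith
    calc (e : ℤ) * (c1 + c2 * a) = e * c1 + (e * c2) * a := by ring
      _ = (a * u - r) + (b * w - u) * a := by rw [h1', h2']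
      _ = (s * w - r) + w * (a * b - s) := by ring
      _ = e * c3 + w * (e * c4) := by rw [h3', h4']
      _ = e * (c3 + w * c4) := by ring
  exact Nat.eq_of_mul_eq_mul_left he h6

omit [NumberField F] [NumberField K] in
private theorem t_one {e : ℕ} (he : 1 < e) {ζ : K} (hζ : IsPrimitiveRoot ζ e) {t : Gal(K/F) → ℕ}
    (ht : IsInvCyc e ζ t) : t 1 = 1 := by
  have h1 := (ht 1).2
  rw [AlgEquiv.one_apply] at h1
  exact hζ.pow_inj (ht 1).1 he (h1.trans (pow_one ζ).symm)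

theorem psi_level [IsGalois F K] {d : ℕ} (hd : 2 ≤ d) {z : K} (hz : IsPrimitiveRoot z d) {t : Gal(K/F) → ℕ} (ht : IsInvCyc d z t)
    {c : 𝓞 K} (hc : c ≠ 0) {y : N} (hy : y ^ d = algebraMap K N ((twist t c : 𝓞 K) : K)) :
    ∃ ψ : Gal(N/F) →* Multiplicative (ZMod d), ∀ σ : Gal(N/F), (∀ x : K, σ (algebraMap K N x) = algebraMap K N x) →
      σ y = algebraMap K N (z ^ (ψ σ).toAdd.val) * y := by
  classical
  have he : 0 < d := by omega
  have he1 : 1 < d := by omega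
  have hNe : NeZero d := ⟨he.ne'⟩
  obtain ⟨A, hA⟩ : ∃ A : K, A = ((c : 𝓞 K) : K) := ⟨_, rfl⟩
  have hpow : y ^ d = algebraMap K N (∏ τ : Gal(K/F), τ A ^ t τ) := by
    rw [hy, coe_twist, hA]
  have ht1 : t 1 = 1 := t_one he1 hz ht
  have hA0 : A ≠ 0 := by
    intro h0
    apply hc
    apply RingOfIntegers.ext
    rw [← hA, h0]
    rfl
  have hPhi0 : (∏ τ : Gal(K/F), τ A ^ t τ) ≠ 0 := by
    refine Finset.prod_ne_zero_iff.mpr fun τ _ => pow_ne_zero _ ?_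
    rw [Ne, EmbeddingLike.map_eq_zero_iff]
    exact hA0
  have hy0 : y ≠ 0 := by
    intro h0
    rw [h0, zero_pow he.ne'] at hpow
    exact hPhi0 ((algebraMap K N).injective (by rw [← hpow, map_zero]))
  have hcc : ∀ ρ, cc d t A ρ ≠ 0 := by
    intro ρ
    unfold cc
    refine Finset.prod_ne_zero_iff.mpr fun τ _ => pow_ne_zero _ ?_
    rw [Ne, EmbeddingLike.map_eq_zero_iff]
    exact hA0
  obtain ⟨r, hr⟩ : ∃ r : Gal(N/F) → Gal(K/F), (∀ σ' σ, r (σ' * σ) = r σ' * r σ) ∧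
      ∀ σ x, algebraMap K N (r σ x) = σ (algebraMap K N x) :=
    ⟨fun σ => AlgEquiv.restrictNormalHom K σ, fun σ' σ => map_mul _ _ _, fun σ x =>
      AlgEquiv.restrictNormal_commutes σ K x⟩
  obtain ⟨hrm, hrc⟩ := hr
  have hzp : IsPrimitiveRoot (algebraMap K N z) d := hz.map_of_injective (algebraMap K N).injective
  have hk : ∀ (σ : Gal(N/F)), ∃ k < d,
      σ y ^ t (r σ) = (algebraMap K N z) ^ k * (y * algebraMap K N (cc d t A (r σ))) := by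
    intro σ
    have hne : y * algebraMap K N (cc d t A (r σ)) ≠ 0 := mul_ne_zero hy0 ((map_ne_zero _).mpr (hcc _))
    have h1 : (σ y ^ t (r σ) / (y * algebraMap K N (cc d t A (r σ)))) ^ d = 1 := by
      have h2 : (σ y ^ t (r σ)) ^ d = (y * algebraMap K N (cc d t A (r σ))) ^ d := by
        rw [← pow_mul, mul_comm (t (r σ)) d, pow_mul, ← map_pow, hpow, ← hrc, ← map_pow,
          map_phi_pow he hz ht, mul_pow, hpow, ← map_pow, ← map_mul]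
      rw [div_pow, h2]
      exact div_self (pow_ne_zero _ hne)
    obtain ⟨k, hk1, hk2⟩ := hzp.eq_pow_of_pow_eq_one h1
    exact ⟨k, hk1, by rw [hk2, div_mul_cancel₀ _ hne]⟩
  choose k hk1 hk2 using hk
  have hmul : ∀ (σ' σ : Gal(N/F)), ((k (σ' * σ) : ℕ) : ZMod d) = (k σ' : ZMod d) + (k σ : ZMod d) := by
    intro σ' σ
    have hzz : σ' (algebraMap K N z) ^ t (r σ') = algebraMap K N z := by
      rw [← hrc, ← map_pow, (ht (r σ')).2]
    have hX1 : (σ' (σ y)) ^ (t (r σ) * t (r σ')) =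
        (algebraMap K N z) ^ (k σ' + k σ) *
          (y * algebraMap K N (cc d t A (r σ') * (r σ') (cc d t A (r σ)) ^ t (r σ'))) := by
      rw [pow_mul, ← map_pow, hk2 σ, map_mul, mul_pow, map_pow, ← pow_mul, mul_comm (k σ), pow_mul, hzz,
        map_mul, mul_pow, hk2 σ', ← hrc, map_mul (algebraMap K N),
        map_pow (algebraMap K N) ((r σ') (cc d t A (r σ))), pow_add]
      ring
    have hX2 : (σ' (σ y)) ^ (t (r σ) * t (r σ')) =
        (algebraMap K N z) ^ (k (σ' * σ)) *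
          (y * algebraMap K N (cc d t A (r σ' * r σ) * ((r σ' * r σ)
            (∏ τ : Gal(K/F), τ A ^ t τ)) ^ (t (r σ') * t (r σ) / d))) := by
      have h4 : (σ' (σ y)) ^ d = algebraMap K N ((r σ' * r σ) (∏ τ : Gal(K/F), τ A ^ t τ)) := by
        rw [← map_pow, ← map_pow, hpow, ← hrm, hrc]
        rfl
      have h5 := hk2 (σ' * σ)
      rw [hrm, AlgEquiv.mul_apply] at h5
      rw [mul_comm (t (r σ)), t_mul' he hz ht (r σ') (r σ), pow_add, pow_mul, h4, h5,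
        ← t_mul' he hz ht (r σ') (r σ), map_mul, map_pow]
      ring
    have hne : y * algebraMap K N (cc d t A (r σ') * (r σ') (cc d t A (r σ)) ^ t (r σ')) ≠ 0 := by
      exact mul_ne_zero hy0 ((map_ne_zero _).mpr
        (mul_ne_zero (hcc _) (pow_ne_zero _ ((map_ne_zero _).mpr (hcc _)))))
    rw [hX1, ← cocyc he hz ht] at hX2
    have h2 := mul_right_cancel₀ hne hX2
    have h3 := pow_mod_orderOf (algebraMap K N z) (k σ' + k σ)
    rw [← hzp.eq_orderOf] at h3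
    have h4 := hzp.pow_inj (hk1 (σ' * σ)) (Nat.mod_lt _ he) (h2.symm.trans h3.symm)
    rw [← Nat.cast_add, h4, ZMod.natCast_mod]
  let ψ : Gal(N/F) →* Multiplicative (ZMod d) := MonoidHom.mk'
    (fun σ => Multiplicative.ofAdd ((k σ : ℕ) : ZMod d)) (by
      intro σ τ
      rw [← ofAdd_add]
      congr 1
      exact hmul σ τ)
  have hψ : ∀ (σ : Gal(N/F)), ((ψ σ).toAdd).val = k σ := fun σ => ZMod.val_natCast_of_lt (hk1 σ)
  refine ⟨ψ, fun σ hL => ?_⟩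
  have hr1 : r σ = 1 := by
    apply AlgEquiv.ext
    intro x
    apply (algebraMap K N).injective
    rw [hrc, hL]
    rfl
  have h1 := hk2 σ
  have hY1 : cc d t A (1 : Gal(K/F)) = 1 := by
    rw [cc]
    refine Finset.prod_eq_one fun τ _ => ?_
    rw [ht1, one_mul, inv_one, one_mul, Nat.div_eq_of_lt (ht τ).1, pow_zero]
  rw [hr1, ht1, hY1, pow_one, map_one, mul_one] at h1
  rw [hψ σ, map_pow]
  exact h1

end StarkR
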