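import Pool.Agent.Lib.MP_d9bae3_nt.NG.UT

/-!
# Module NAG-TofU: the tuple of ideals of an equivariant field of vectors

`u : Prm L → V n` with `u Q = j • u (τ Q)` if `τ ζ = ζ^j`.  (`j` is prime to `e`, as `τ ζ` is a primitive `e`-th root of unity, and `e` kills `V n`; so multiplication by `j` is injective on `V n` and preserves the order of the elements.)  `T i = ∏ q` over the primes `q ∉ SK i` of `K i` for which `u Q = v i` for some prime `Q` of `L` above `q` (finitely many).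
* If `u Q = v i` for one `Q` above `q : Prm (K i)`, then for all: `Q' = σ Q`, `σ` in the image of `Gal(L/K i)` (transitive on the primes above `q`), `σ ζ = ζ^j`, `j ≡ 1` modulo `d i` as `z i = ζ^(e/d i)` is fixed; `v i = u Q = j • u Q'`; `u Q'` has the order `d i`, so `j • u Q' = u Q'`.
* `T i ≤ τ⁻¹ (Q ∩ K i)` iff `u (τ'⁻¹ Q) = v i` (`τ'` a lift of `τ`) iff `j • u Q = v i` (`τ' ζ = ζ^j`) iff `u Q = t i τ • v i = rep (i, τ)`: `(z i)^(j t) = z i`, so `j t ≡ 1` modulo `d i`, and `u Q`, `v i` have the same order `d i` in both directions.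
* `SqG`: squarefree: clear.  Degree one: if `u Q = v i`, `Q` above `q`, and `σ` in the stabiliser of `Q` in `Gal(L/F)`, `σ ζ = ζ^j`, then `v i = u Q = j • u Q = j • v i`, so `j ≡ 1` modulo `d i`, `σ (z i) = z i` and `σ` is the identity on `K i`; `deg1_of_stab`.  Two primes `q` (for `i`), `q'` (for `j'`) above the same prime of `F`: `Q` above `q`, `Q' = σ Q` above `q'`,
  `v i = u Q = j • v j'`, `σ ζ = ζ^j`; so `v j' = t • v i = rep (i, σ|)` (with `t = t i (σ|)`) and `v j' = rep (j', 1)` (`t j' 1 = 1` modulo `d j'`), so `i = j'` and `σ|_{K i} = 1` by the injectivity of `rep`, and `q' = q`.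
-/

set_option linter.unusedSectionVars false

namespace StarkR

open NumberField IsDedekindDomain Filter Topology
open scoped Pointwise

section TofUaux

private theorem TofU_prod_le {K : Type} [Field K] [NumberField K] (A : Finset (Prm K)) (q : Prm K) :
    (∏ p ∈ A, p.asIdeal) ≤ q.asIdeal ↔ q ∈ A := by
  constructor
  · intro h
    obtain ⟨p, hp, hpq⟩ := (Ideal.IsPrime.prod_le q.isPrime).1 h
    have h1 : p.asIdeal = q.asIdeal := p.isMaximal.eq_of_le q.isPrime.ne_top hpq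
    have h2 : p = q := HeightOneSpectrum.ext h1
    exact h2 ▸ hp
  · intro h
    exact Ideal.prod_le_inf.trans (Finset.inf_le h)

private theorem TofU_prod_sq {K : Type} [Field K] [NumberField K] (A : Finset (Prm K)) (q : Prm K) :
    ¬ (∏ p ∈ A, p.asIdeal) ≤ q.asIdeal ^ 2 := by
  classical
  intro h
  have hq : q ∈ A := (TofU_prod_le A q).1 (h.trans (Ideal.pow_le_self two_ne_zero))
  rw [← Finset.mul_prod_erase A (fun p => p.asIdeal) hq, pow_two] at h
  have h2 : (∏ p ∈ A.erase q, p.asIdeal) ≤ q.asIdeal := by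
    rw [← Ideal.dvd_iff_le] at h ⊢
    exact (mul_dvd_mul_iff_left (a := q.asIdeal) q.ne_bot).1 h
  exact Finset.notMem_erase q A ((TofU_prod_le _ q).1 h2)

private theorem TofU_exists_pow {F L : Type} [Field F] [Field L] [Algebra F L] {e : ℕ} {ζ : L} (hζ : IsPrimitiveRoot ζ e) (he : 0 < e)
    (τ : Gal(L/F)) : ∃ j : ℕ, τ ζ = ζ ^ j ∧ Nat.Coprime j e := by
  have : NeZero e := ⟨he.ne'⟩
  have h1 : IsPrimitiveRoot (τ ζ) e := hζ.map_of_injective τ.injective
  obtain ⟨j, _, hj, h⟩ := hζ.isPrimitiveRoot_iff.1 h1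
  exact ⟨j, h.symm, hj⟩

private theorem TofU_order {m : ℕ} {n : Fin m → ℕ} {e : ℕ} (hn : ∀ i, n i ∣ e) (w : V n) : addOrderOf w ∣ e := by
  refine addOrderOf_dvd_of_nsmul_eq_zero ?_
  funext i
  show e • w i = 0
  rw [nsmul_eq_mul, (ZMod.natCast_eq_zero_iff e (n i)).2 (hn i), zero_mul]

private theorem TofU_order_smul {m : ℕ} {n : Fin m → ℕ} {e : ℕ} (hn : ∀ i, n i ∣ e) {j : ℕ} (hj : Nat.Coprime j e) (w : V n) :
    addOrderOf (j • w) = addOrderOf w :=
  Nat.Coprime.addOrderOf_nsmul ((hj.symm).coprime_dvd_left (TofU_order hn w))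

private theorem TofU_one_smul {m : ℕ} {n : Fin m → ℕ} {a : ℕ} {w : V n} {d : ℕ} (hw : addOrderOf w = d) (ha : a ≡ 1 [MOD d]) : a • w = w := by
  have h := (nsmul_eq_nsmul_iff_modEq (x := w) (n := a) (m := 1)).2 (by rw [hw]; exact ha)
  rw [h, one_nsmul]

private theorem TofU_of_smul {m : ℕ} {n : Fin m → ℕ} {a : ℕ} {w : V n} {d : ℕ} (hw : addOrderOf w = d) (ha : a • w = w) : a ≡ 1 [MOD d] := by
  rw [← hw]
  refine (nsmul_eq_nsmul_iff_modEq (x := w) (n := a) (m := 1)).1 ?_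
  rw [ha, one_nsmul]

end TofUaux

variable {F L : Type} [Field F] [NumberField F] [Field L] [NumberField L] [Algebra F L]
variable {ι : Type} [Fintype ι] {K : ι → Type} [∀ i, Field (K i)] [∀ i, NumberField (K i)]
variable [∀ i, Algebra F (K i)] [∀ i, Algebra (K i) L] [∀ i, IsScalarTower F (K i) L]
variable {m : ℕ} {n : Fin m → ℕ} [∀ i, NeZero (n i)]
variable {e : ℕ} {ζ : L} {d : ι → ℕ} {z : (i : ι) → K i} {t : (i : ι) → Gal(K i/F) → ℕ} {v : ι → V n} {rep : (Σ i, Gal(K i/F)) ≃ W n}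
variable {S : Finset (Prm F)} {SL : Finset (Prm L)} {SK : (i : ι) → Finset (Prm (K i))} {g : (i : ι) → Ideal (𝓞 (K i)) → 𝓞 (K i)}

theorem T_of_u (hζ : IsPrimitiveRoot ζ e) (he : 0 < e) (hn : ∀ i, n i ∣ e) [IsCyclotomicExtension {e} F L]
    (hlev : IsLev (L := L) e ζ d z t v rep) (hSS : IsSS (F := F) e S SL SK) {u : Prm L → V n} (hfin : {Q : Prm L | u Q ≠ 0}.Finite)
    (hu : ∀ (τ : Gal(L/F)) (j : ℕ), τ ζ = ζ ^ j → ∀ Q : Prm L, u Q = j • u (cjP τ Q)) :
    ∃ T : (i : ι) → Ideal (𝓞 (K i)), (∀ i, Cop (SK i) (T i)) ∧ SqG F T ∧ ∀ Q : Prm L, Q ∉ SL → uT rep T Q = u Q := by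
  classical
  have hGL : IsGalois F L := IsCyclotomicExtension.isGalois {e} F L
  have hGK : ∀ i, IsGalois F (K i) := hlev.gal
  have hGLK : ∀ i, IsGalois (K i) L := fun i => IsGalois.tower_top_of_isGalois F (K i) L
  have hv : ∀ i, v i ≠ 0 := by
    intro i h
    have h1 := hlev.order i
    rw [h, addOrderOf_zero] at h1
    have := hlev.two i
    omega
  have hzL : ∀ i, IsPrimitiveRoot (algebraMap (K i) L (z i)) (d i) := by
    intro i
    rw [hlev.root i]
    exact hζ.pow he (Nat.div_mul_cancel (hlev.dvd i)).symm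
  have hzpow : ∀ i (τ : Gal(L/F)) (j : ℕ), τ ζ = ζ ^ j → τ (algebraMap (K i) L (z i)) = algebraMap (K i) L (z i) ^ j := by
    intro i τ j h
    rw [hlev.root i, map_pow, h, ← pow_mul, ← pow_mul, Nat.mul_comm]
  have hzK : ∀ i (τ : Gal(L/F)) (j : ℕ), τ ζ = ζ ^ j → AlgEquiv.restrictNormalHom (K i) τ (z i) = z i ^ j := by
    intro i τ j h
    apply (algebraMap (K i) L).injective
    have h1 := AlgEquiv.restrictNormal_commutes τ (K i) (z i)
    rw [map_pow, ← hzpow i τ j h]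
    exact h1
  have hzprim : ∀ i, IsPrimitiveRoot (z i) (d i) := fun i => (hzL i).of_map_of_injective (algebraMap (K i) L).injective
  have hmod : ∀ i (a : ℕ), z i ^ a = z i → a ≡ 1 [MOD d i] := by
    intro i a ha
    have h0 : 0 < d i := by have := hlev.two i; omega
    have h1 : IsOfFinOrder (z i) := isOfFinOrder_iff_pow_eq_one.2 ⟨d i, h0, (hzprim i).pow_eq_one⟩
    have h2 := (h1.pow_eq_pow_iff_modEq (n := a) (m := 1)).1 (by rw [ha, pow_one])
    rwa [← (hzprim i).eq_orderOf] at h2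
  have hfinA : ∀ i, {q : Prm (K i) | q ∉ SK i ∧ ∃ Q : Prm L, Q.under (𝓞 (K i)) = q ∧ u Q = v i}.Finite := by
    intro i
    refine (hfin.image (fun Q => Q.under (𝓞 (K i)))).subset ?_
    rintro q ⟨_, Q, hQ, hu1⟩
    refine ⟨Q, ?_, hQ⟩
    show u Q ≠ 0
    rw [hu1]
    exact hv i
  have hTle : ∀ (i : ι) (q : Prm (K i)), (∏ p ∈ (hfinA i).toFinset, p.asIdeal) ≤ q.asIdeal ↔
      (q ∉ SK i ∧ ∃ Q : Prm L, Q.under (𝓞 (K i)) = q ∧ u Q = v i) := by
    intro i q
    rw [TofU_prod_le, Set.Finite.mem_toFinset]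
    exact Iff.rfl
  have hA : ∀ (i : ι) (Q1 Q2 : Prm L), Q1.under (𝓞 (K i)) = Q2.under (𝓞 (K i)) → u Q1 = v i → u Q2 = v i := by
    intro i Q1 Q2 h h1
    obtain ⟨σ, hσ⟩ := exists_cjP (F := K i) (L := L) h
    have hσ' : cjP (AlgEquiv.restrictScalars F σ) Q1 = Q2 := by
      rw [← hσ]
      rfl
    obtain ⟨j, hj, hjc⟩ := TofU_exists_pow hζ he (AlgEquiv.restrictScalars F σ : Gal(L/F))
    have h2 := hu _ j hj Q1
    rw [hσ', h1] at h2
    have h3 : addOrderOf (u Q2) = d i := by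
      rw [← TofU_order_smul hn hjc, ← h2, hlev.order i]
    have h4 : algebraMap (K i) L (z i) ^ j = algebraMap (K i) L (z i) := by
      rw [← hzpow i _ j hj]
      show σ (algebraMap (K i) L (z i)) = _
      exact σ.commutes (z i)
    have h5 : z i ^ j = z i := by
      apply (algebraMap (K i) L).injective
      rw [map_pow, h4]
    rw [h2, TofU_one_smul h3 (hmod i j h5)]
  have hinv : ∀ (i : ι) (τ : Gal(L/F)) (j : ℕ), τ ζ = ζ ^ j → j * t i (AlgEquiv.restrictNormalHom (K i) τ) ≡ 1 [MOD d i] := by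
    intro i τ j hj
    refine hmod i _ ?_
    rw [pow_mul, ← hzK i τ j hj]
    exact (hlev.inv i _).2
  have hC : ∀ (Q : Prm L), Q ∉ SL → ∀ p : (Σ i, Gal(K i/F)),
      ((∏ p' ∈ (hfinA p.1).toFinset, p'.asIdeal) ≤ (cjP p.2⁻¹ (Q.under (𝓞 (K p.1)))).asIdeal ↔ u Q = ((rep p : W n) : V n)) := by
    rintro Q hQ ⟨i, τ⟩
    obtain ⟨τ', rfl⟩ := AlgEquiv.restrictNormalHom_surjective (F := F) (K₁ := K i) L τ
    obtain ⟨j, hj, hjc⟩ := TofU_exists_pow hζ he τ'
    have h1 : cjP (AlgEquiv.restrictNormalHom (K i) τ')⁻¹ (Q.under (𝓞 (K i))) = (cjP τ'⁻¹ Q).under (𝓞 (K i)) := by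
      rw [cjP_under_res, map_inv]
    have h2 : cjP τ' (cjP τ'⁻¹ Q) = Q := by
      rw [← cjP_mul, mul_inv_cancel, cjP_one]
    have h3 : u (cjP τ'⁻¹ Q) = j • u Q := by
      have := hu τ' j hj (cjP τ'⁻¹ Q)
      rwa [h2] at this
    have h4 : (cjP τ'⁻¹ Q).under (𝓞 (K i)) ∉ SK i := by
      rw [hSS.memK, under_under, cjP_under, ← hSS.memL]
      exact hQ
    have h5 := hinv i τ' j hj
    show (∏ p' ∈ (hfinA i).toFinset, p'.asIdeal) ≤ (cjP (AlgEquiv.restrictNormalHom (K i) τ')⁻¹ (Q.under (𝓞 (K i)))).asIdeal ↔ _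
    rw [h1, hTle, hlev.rep_eq]
    constructor
    · rintro ⟨_, Q', hQ', hu'⟩
      have h6 : j • u Q = v i := by
        rw [← h3]
        exact hA i Q' _ hQ' hu'
      have h7 : addOrderOf (u Q) = d i := by
        rw [← TofU_order_smul hn hjc, h6, hlev.order i]
      rw [← h6, ← mul_nsmul, TofU_one_smul h7 h5]
    · intro h6
      refine ⟨h4, _, rfl, ?_⟩
      rw [h3, h6, ← mul_nsmul', TofU_one_smul (hlev.order i) h5]
  have hex : ∀ (i : ι) (q : Prm (K i)), (∏ p ∈ (hfinA i).toFinset, p.asIdeal) ≤ q.asIdeal →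
      q ∉ SK i ∧ ∃ Q : Prm L, Q.under (𝓞 (K i)) = q ∧ u Q = v i := fun i q h => (hTle i q).1 h
  have hSq : SqG F (fun i => ∏ p ∈ (hfinA i).toFinset, p.asIdeal) := by
    constructor
    · intro i q hq
      refine ⟨TofU_prod_sq _ q, ?_⟩
      obtain ⟨_, Q, rfl, huQ⟩ := hex i q hq
      rw [under_under]
      refine deg1_of_stab ?_
      intro σ hσ
      have hσ1 : cjP σ Q = Q := HeightOneSpectrum.ext hσ
      obtain ⟨j, hj, hjc⟩ := TofU_exists_pow hζ he σ
      have h1 := hu σ j hj Q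
      rw [hσ1, huQ] at h1
      have h2 : j ≡ 1 [MOD d i] := TofU_of_smul (hlev.order i) h1.symm
      have h3 : AlgEquiv.restrictNormalHom (K i) σ (z i) = z i := by
        rw [hzK i σ j hj]
        have h0 : 0 < d i := by have := hlev.two i; omega
        have h4 : IsOfFinOrder (z i) := isOfFinOrder_iff_pow_eq_one.2 ⟨d i, h0, (hzprim i).pow_eq_one⟩
        have h5 := (h4.pow_eq_pow_iff_modEq (n := j) (m := 1)).2 (by rw [← (hzprim i).eq_orderOf]; exact h2)
        rw [h5, pow_one]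
      refine AlgEquiv.ext fun x => ?_
      have hx : x ∈ IntermediateField.adjoin F {z i} := by
        rw [hlev.gen i]
        exact IntermediateField.mem_top
      show AlgEquiv.restrictNormalHom (K i) σ x = x
      induction hx using IntermediateField.adjoin_induction with
      | mem y hy => rw [Set.mem_singleton_iff.1 hy, h3]
      | algebraMap y => exact AlgEquiv.commutes _ y
      | add y y' _ _ hy hy' => rw [map_add, hy, hy']
      | inv y _ hy => rw [map_inv₀, hy]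
      | mul y y' _ _ hy hy' => rw [map_mul, hy, hy']
    · intro i i' q q' hq hq' hqq
      obtain ⟨_, Q, rfl, huQ⟩ := hex i q hq
      obtain ⟨_, Q', rfl, huQ'⟩ := hex i' q' hq'
      rw [under_under, under_under] at hqq
      obtain ⟨σ, hσ⟩ := exists_cjP (F := F) (L := L) hqq
      obtain ⟨a, ha, hac⟩ := TofU_exists_pow hζ he σ
      have h1 := hu σ a ha Q
      rw [hσ, huQ, huQ'] at h1
      have h2 : d i = d i' := by
        rw [← hlev.order i, h1, TofU_order_smul hn hac, hlev.order i']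
      have h3 := hinv i σ a ha
      have h4 : ((rep ⟨i, AlgEquiv.restrictNormalHom (K i) σ⟩ : W n) : V n) = v i' := by
        rw [hlev.rep_eq, h1, ← mul_nsmul, TofU_one_smul (hlev.order i') (by rw [← h2]; exact h3)]
      have h5 : ((rep ⟨i', 1⟩ : W n) : V n) = v i' := by
        rw [hlev.rep_eq, TofU_one_smul (hlev.order i')]
        refine hmod i' _ ?_
        have := (hlev.inv i' 1).2
        simpa using this
      have h6 : (⟨i, AlgEquiv.restrictNormalHom (K i) σ⟩ : Σ i, Gal(K i/F)) = ⟨i', 1⟩ :=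
        rep.injective (Subtype.ext (h4.trans h5.symm))
      have h7 : i = i' := congrArg Sigma.fst h6
      subst h7
      have h8 : AlgEquiv.restrictNormalHom (K i) σ = 1 := eq_of_heq (Sigma.mk.inj h6).2
      rw [← hσ, cjP_under_res, h8, cjP_one]
  refine ⟨fun i => ∏ p ∈ (hfinA i).toFinset, p.asIdeal, ?_, hSq, ?_⟩
  · intro i
    refine ⟨?_, ?_⟩
    · rw [← Ideal.zero_eq_bot, Finset.prod_ne_zero_iff]
      intro p _
      exact p.ne_bot
    · intro q hq h
      exact (hex i q h).1 hq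
  · intro Q hQ
    by_cases h : u Q = 0
    · rw [h]
      unfold uT
      rw [dif_neg]
      rintro ⟨p, hp⟩
      have h1 := (hC Q hQ p).1 hp
      rw [h] at h1
      exact (rep p).2 h1.symm
    · have h1 := (hC Q hQ (rep.symm ⟨u Q, h⟩)).2 (by rw [Equiv.apply_symm_apply])
      have h2 := (uT_eq hζ he hlev hSS hSq hQ (rep.symm ⟨u Q, h⟩)).2 h1
      rw [h2, Equiv.apply_symm_apply]

end StarkR
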